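import Pool.Agent.MP_28624d_gt.Defs

-- part MP_28624d_gt.Core
section

/-!
Working definitions (not used in the statement).
-/

namespace Pool.Agent.MP_28624d_gt

open scoped UpperHalfPlane
open Real

noncomputable section

/-- Rotation by the angle `π θ`. -/
def rot (θ : ℝ) : G :=
  ⟨!![cos (π * θ), -sin (π * θ); sin (π * θ), cos (π * θ)], by
    rw [Matrix.det_fin_two_of]; nlinarith [sin_sq_add_cos_sq (π * θ)]⟩

/-- Translation of length `l` along the imaginary axis. -/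
def dia (l : ℝ) : G :=
  ⟨!![exp (l / 2), 0; 0, exp (-(l / 2))], by
    rw [Matrix.det_fin_two_of, ← exp_add]; simp⟩

/-- Displacement of the base point. -/
def len (g : G) : ℝ := dist UpperHalfPlane.I (g • UpperHalfPlane.I)

def tr (g : G) : ℝ := g 0 0 + g 1 1

def Hyp (g : G) : Prop := 2 < |tr g|

/-- No fixed point in the hyperbolic plane. -/
def NF (g : G) : Prop := ∀ z : ℍ, g • z ≠ z

/-- Equality up to sign. -/
def PM (g h : G) : Prop := g = h ∨ g = -h

def vec (x : ℝ) : Fin 2 → ℝ := ![cos (π * x), sin (π * x)]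

/-- `f` is a lift to the real line of the action of `g` on the projective line `ℝ / ℤ`. -/
def Lift (g : G) (f : ℝ ≃o ℝ) : Prop :=
  (∀ x, f (x + 1) = f x + 1) ∧
    ∀ x, ∃ c : ℝ, c ≠ 0 ∧ (g : Matrix (Fin 2) (Fin 2) ℝ).mulVec (vec x) = c • vec (f x)

/-- Translation of the line. -/
def T (θ : ℝ) : ℝ ≃o ℝ := OrderIso.addRight θ

@[simp] theorem T_apply (θ x : ℝ) : T θ x = x + θ := rfl

/-- Ordered product of the first `k` terms. -/
def pre {H : Type} [Monoid H] (s : ℕ → H) (k : ℕ) : H := ((List.range k).map s).prod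

@[simp] theorem pre_zero {H : Type} [Monoid H] (s : ℕ → H) : pre s 0 = 1 := by simp [pre]

theorem pre_succ {H : Type} [Monoid H] (s : ℕ → H) (k : ℕ) : pre s (k + 1) = pre s k * s k := by
  simp [pre, List.range_succ]

/-- All entries positive. -/
def PosM (g : G) : Prop := ∀ i j, 0 < g i j

/-! Graphs, paths and markings -/

structure Gr (V E : Type) where
  src : E → V
  tgt : E → V

def rev {E : Type} (d : E × Bool) : E × Bool := (d.1, !d.2)

@[simp] theorem rev_rev {E : Type} (d : E × Bool) : rev (rev d) = d := by simp [rev]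

@[simp] theorem rev_fst {E : Type} (d : E × Bool) : (rev d).1 = d.1 := rfl

theorem rev_ne {E : Type} (d : E × Bool) : rev d ≠ d := by
  obtain ⟨e, b⟩ := d; cases b <;> simp [rev]

/-- Reversal of darts as a permutation. -/
def revP (E : Type) : Equiv.Perm (E × Bool) := ⟨rev, rev, rev_rev, rev_rev⟩

@[simp] theorem revP_apply {E : Type} (d : E × Bool) : revP E d = rev d := rfl

variable {V E : Type}

def Gr.st (Γ : Gr V E) (d : E × Bool) : V := cond d.2 (Γ.src d.1) (Γ.tgt d.1)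

def Gr.en (Γ : Gr V E) (d : E × Bool) : V := cond d.2 (Γ.tgt d.1) (Γ.src d.1)

@[simp] theorem Gr.st_rev (Γ : Gr V E) (d : E × Bool) : Γ.st (rev d) = Γ.en d := by
  obtain ⟨e, b⟩ := d; cases b <;> rfl

@[simp] theorem Gr.en_rev (Γ : Gr V E) (d : E × Bool) : Γ.en (rev d) = Γ.st d := by
  obtain ⟨e, b⟩ := d; cases b <;> rfl

def Gr.IsPath (Γ : Gr V E) : V → List (E × Bool) → V → Prop
  | u, [], v => u = v
  | u, d :: p, v => Γ.st d = u ∧ Γ.IsPath (Γ.en d) p v

/-- Product of the labels along a list of darts. -/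
def lab {H : Type} [Group H] (g : E → H) (p : List (E × Bool)) : H :=
  FreeGroup.lift g (FreeGroup.mk p)

/-- Label of one dart. -/
def dlab {H : Type} [Group H] (g : E → H) (d : E × Bool) : H := cond d.2 (g d.1) (g d.1)⁻¹

@[simp] theorem lab_nil {H : Type} [Group H] (g : E → H) : lab g [] = 1 := by
  simp [lab]

@[simp] theorem lab_cons {H : Type} [Group H] (g : E → H) (d : E × Bool) (p : List (E × Bool)) :
    lab g (d :: p) = dlab g d * lab g p := by
  simp [lab, dlab]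

@[simp] theorem lab_append {H : Type} [Group H] (g : E → H) (p q : List (E × Bool)) :
    lab g (p ++ q) = lab g p * lab g q := by
  simp [lab]

@[simp] theorem dlab_rev {H : Type} [Group H] (g : E → H) (d : E × Bool) :
    dlab g (rev d) = (dlab g d)⁻¹ := by
  obtain ⟨e, b⟩ := d; cases b <;> simp [dlab, rev]

theorem lab_invRev {H : Type} [Group H] (g : E → H) (p : List (E × Bool)) :
    lab g (FreeGroup.invRev p) = (lab g p)⁻¹ := by
  rw [lab, ← FreeGroup.inv_mk, map_inv, lab]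

theorem Gr.isPath_append (Γ : Gr V E) {u v w : V} {p q : List (E × Bool)}
    (hp : Γ.IsPath u p v) (hq : Γ.IsPath v q w) : Γ.IsPath u (p ++ q) w := by
  induction p generalizing u with
  | nil => cases hp; exact hq
  | cons d p ih => exact ⟨hp.1, ih hp.2⟩

theorem Gr.isPath_append_iff (Γ : Gr V E) {u w : V} {p q : List (E × Bool)} :
    Γ.IsPath u (p ++ q) w ↔ ∃ v, Γ.IsPath u p v ∧ Γ.IsPath v q w := by
  refine ⟨fun h => ?_, fun ⟨v, h1, h2⟩ => Γ.isPath_append h1 h2⟩
  induction p generalizing u with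
  | nil => exact ⟨u, rfl, h⟩
  | cons d p ih =>
    obtain ⟨v, h1, h2⟩ := ih h.2
    exact ⟨v, ⟨h.1, h1⟩, h2⟩

theorem Gr.isPath_invRev (Γ : Gr V E) {u v : V} {p : List (E × Bool)}
    (hp : Γ.IsPath u p v) : Γ.IsPath v (FreeGroup.invRev p) u := by
  induction p generalizing u with
  | nil => exact hp.symm
  | cons d p ih =>
    have : FreeGroup.invRev (d :: p) = FreeGroup.invRev p ++ [rev d] := by
      simp [FreeGroup.invRev, rev]
    rw [this]
    exact Γ.isPath_append (ih hp.2) ⟨by simp, by simpa [Gr.IsPath] using hp.1⟩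

/-- Gauge covariance of labels along a path. -/
theorem Gr.lab_gauge (Γ : Gr V E) {H K : Type} [Group H] [Group K] (r : H →* K) (g : E → H)
    (μ : E → K) (h : V → K) (hh : ∀ e, r (g e) = h (Γ.src e) * μ e * (h (Γ.tgt e))⁻¹)
    {u v : V} {p : List (E × Bool)} (hp : Γ.IsPath u p v) :
    r (lab g p) = h u * lab μ p * (h v)⁻¹ := by
  induction p generalizing u with
  | nil => cases hp; simp
  | cons d p ih =>
    obtain ⟨h1, h2⟩ := hp
    subst h1
    rw [lab_cons, lab_cons, map_mul, ih h2]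
    obtain ⟨e, b⟩ := d
    cases b <;> simp [dlab, Gr.st, Gr.en, hh, mul_assoc]

theorem continuous_lab (p : List (E × Bool)) : Continuous fun M : E → G => lab M p := by
  induction p with
  | nil => simpa using continuous_const
  | cons d p ih =>
    simp only [lab_cons]
    refine Continuous.mul ?_ ih
    obtain ⟨e, b⟩ := d
    cases b
    · exact (continuous_apply e).inv
    · exact continuous_apply e

def Avoid (e : E) (p : List (E × Bool)) : Prop := ∀ d ∈ p, d.1 ≠ e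

/-- The edge `e` occurs exactly once in `p`. -/
def Once (e : E) (p : List (E × Bool)) : Prop :=
  ∃ p₁ p₂ b, p = p₁ ++ (e, b) :: p₂ ∧ Avoid e p₁ ∧ Avoid e p₂

/-- No immediate backtracking. -/
def Red (p : List (E × Bool)) : Prop := p.IsChain fun d d' => d' ≠ rev d

/-- The edge `e` does not separate. -/
def Gr.Nonsep (Γ : Gr V E) (e : E) : Prop :=
  ∃ p, Γ.IsPath (Γ.tgt e) p (Γ.src e) ∧ Avoid e p

/-- The labelling `g` identifies the fundamental group of the graph with the free group. -/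
structure Marked (n : ℕ) [Fintype V] [Fintype E] (Γ : Gr V E) (g : E → F n) : Prop where
  ne : Nonempty V
  card : Fintype.card E + 1 = n + Fintype.card V
  gen : ∀ (u v : V) (γ : F n), ∃ p, Γ.IsPath u p v ∧ lab g p = γ
  free : ∀ (H : Type) [Group H] (μ : E → H), ∃ (r : F n →* H) (h : V → H),
    ∀ e, r (g e) = h (Γ.src e) * μ e * (h (Γ.tgt e))⁻¹

/-- Carrier graphs of `ρ`, with all vertices gauged to the base point. -/
def Good {n : ℕ} [Fintype V] [Fintype E] (ρ : F n →* G) (Γ : Gr V E) (M : E → G) : Prop :=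
  ∃ (g : E → F n) (h : V → G), Marked n Γ g ∧
    ∀ e, ρ (g e) = h (Γ.src e) * M e * (h (Γ.tgt e))⁻¹

def Cl {n : ℕ} [Fintype V] [Fintype E] (ρ : F n →* G) (Γ : Gr V E) : Set (E → G) :=
  closure {M | Good ρ Γ M}

def tot [Fintype E] (M : E → G) : ℝ := ∑ e, len (M e)

theorem Cl.marked {n : ℕ} [Fintype V] [Fintype E] {ρ : F n →* G} {Γ : Gr V E} {M : E → G}
    (hM : M ∈ Cl ρ Γ) : ∃ g, Marked n Γ g := by
  obtain ⟨M', g, h, hg, -⟩ := Set.Nonempty.of_closure ⟨M, hM⟩
  exact ⟨g, hg⟩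

/-- A limit carrier graph with `a` vertices and total length `r` exists. -/
def Ach {n : ℕ} (ρ : F n →* G) (a : ℕ) (r : ℝ) : Prop :=
  ∃ (V E : Type) (_ : Fintype V) (_ : Fintype E) (Γ : Gr V E) (M : E → G),
    M ∈ Cl ρ Γ ∧ Fintype.card V = a ∧ tot M = r

/-- Replace the end points of the edge `e`. -/
def Gr.exch [DecidableEq E] (Γ : Gr V E) (e : E) (u v : V) : Gr V E :=
  ⟨Function.update Γ.src e u, Function.update Γ.tgt e v⟩

/-- Every edge cut into three. -/
def Gr.sub3 (Γ : Gr V E) : Gr (V ⊕ E × Bool) (E × Fin 3) where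
  src x := ![Sum.inl (Γ.src x.1), Sum.inr (x.1, false), Sum.inr (x.1, true)] x.2
  tgt x := ![Sum.inr (x.1, false), Sum.inr (x.1, true), Sum.inl (Γ.tgt x.1)] x.2

def sub3M (M X Y : E → G) (x : E × Fin 3) : G :=
  ![X x.1, (X x.1)⁻¹ * Y x.1, (Y x.1)⁻¹ * M x.1] x.2

/-- Number of darts starting at `v`. -/
def Gr.deg [Fintype E] (Γ : Gr V E) (v : V) : ℕ := Nat.card {d : E × Bool // Γ.st d = v}

/-- Every nontrivial element of a non-abelian proper free factor is hyperbolic. -/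
def HD {n : ℕ} (ρ : F n →* G) : Prop :=
  ∀ A : Subgroup (F n), IsFreeFactor A → A ≠ ⊤ → (∃ a ∈ A, ∃ b ∈ A, a * b ≠ b * a) →
    ∀ γ ∈ A, γ ≠ 1 → Hyp (ρ γ)

/-- Linear lower bound for the displacement. -/
def QI {n : ℕ} (ρ : F n →* G) : Prop :=
  ∃ ε : ℝ, 0 < ε ∧ ∃ C : ℝ, ∀ γ : F n, ε * (FreeGroup.norm γ : ℝ) - C ≤ len (ρ γ)

end

end Pool.Agent.MP_28624d_gt

end

-- part MP_28624d_gt.Basic
section

/-!
Elementary geometry of SL(2,R) acting on the upper half-plane.
-/

namespace Pool.Agent.MP_28624d_gt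

open scoped UpperHalfPlane
open Real UpperHalfPlane

theorem basic_ext {g h : G} (h00 : g 0 0 = h 0 0) (h01 : g 0 1 = h 0 1) (h10 : g 1 0 = h 1 0)
    (h11 : g 1 1 = h 1 1) : g = h := by
  ext i j
  fin_cases i <;> fin_cases j <;> assumption

theorem basic_mul (g h : G) (i j : Fin 2) : (g * h) i j = g i 0 * h 0 j + g i 1 * h 1 j := by
  simp [Matrix.mul_apply, Fin.sum_univ_two]

theorem basic_det (g : G) : g 0 0 * g 1 1 - g 0 1 * g 1 0 = 1 := by
  rw [← Matrix.det_fin_two]; exact g.det_coe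

theorem basic_inv00 (g : G) : g⁻¹ 0 0 = g 1 1 := by
  rw [Matrix.SpecialLinearGroup.SL2_inv_expl]; rfl
theorem basic_inv01 (g : G) : g⁻¹ 0 1 = -g 0 1 := by
  rw [Matrix.SpecialLinearGroup.SL2_inv_expl]; rfl
theorem basic_inv10 (g : G) : g⁻¹ 1 0 = -g 1 0 := by
  rw [Matrix.SpecialLinearGroup.SL2_inv_expl]; rfl
theorem basic_inv11 (g : G) : g⁻¹ 1 1 = g 0 0 := by
  rw [Matrix.SpecialLinearGroup.SL2_inv_expl]; rfl
theorem basic_neg (g : G) (i j : Fin 2) : (-g) i j = -g i j := rfl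
theorem basic_one00 : (1 : G) 0 0 = 1 := rfl
theorem basic_one01 : (1 : G) 0 1 = 0 := rfl
theorem basic_one10 : (1 : G) 1 0 = 0 := rfl
theorem basic_one11 : (1 : G) 1 1 = 1 := rfl
theorem basic_rot00 (θ : ℝ) : rot θ 0 0 = cos (π * θ) := rfl
theorem basic_rot01 (θ : ℝ) : rot θ 0 1 = -sin (π * θ) := rfl
theorem basic_rot10 (θ : ℝ) : rot θ 1 0 = sin (π * θ) := rfl
theorem basic_rot11 (θ : ℝ) : rot θ 1 1 = cos (π * θ) := rfl
theorem basic_dia00 (l : ℝ) : dia l 0 0 = exp (l / 2) := rfl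
theorem basic_dia01 (l : ℝ) : dia l 0 1 = 0 := rfl
theorem basic_dia10 (l : ℝ) : dia l 1 0 = 0 := rfl
theorem basic_dia11 (l : ℝ) : dia l 1 1 = exp (-(l / 2)) := rfl

theorem basic_cont (i j : Fin 2) : Continuous fun g : G => g i j :=
  (continuous_apply_apply i j).comp continuous_subtype_val

theorem basic_denom (g : G) (z : ℍ) : ((g 1 0 : ℝ) : ℂ) * z + (g 1 1 : ℝ) ≠ 0 := by
  simpa [denom] using denom_ne_zero g z

theorem basic_coe_smul (g : G) (z : ℍ) : ((g • z : ℍ) : ℂ) =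
    (((g 0 0 : ℝ) : ℂ) * z + (g 0 1 : ℝ)) / (((g 1 0 : ℝ) : ℂ) * z + (g 1 1 : ℝ)) := by
  simpa using coe_specialLinearGroup_apply g z

theorem basic_fixed_iff (g : G) (z : ℍ) : g • z = z ↔
    ((g 0 0 : ℝ) : ℂ) * z + (g 0 1 : ℝ) = z * (((g 1 0 : ℝ) : ℂ) * z + (g 1 1 : ℝ)) := by
  rw [UpperHalfPlane.ext_iff, basic_coe_smul, div_eq_iff (basic_denom g z)]

theorem rot_add (a b : ℝ) : rot (a + b) = rot a * rot b := by
  apply basic_ext <;>
    simp only [basic_mul, basic_rot00, basic_rot01, basic_rot10, basic_rot11, basic_dia00, basic_dia01,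
      basic_dia10, basic_dia11, basic_neg, basic_one00, basic_one01, basic_one10, basic_one11, mul_add, cos_add, sin_add] <;> ring
theorem rot_zero : rot 0 = 1 := by
  apply basic_ext <;>
    simp only [basic_mul, basic_rot00, basic_rot01, basic_rot10, basic_rot11, basic_dia00, basic_dia01,
      basic_dia10, basic_dia11, basic_neg, basic_one00, basic_one01, basic_one10, basic_one11, mul_zero, cos_zero, sin_zero, neg_zero]
theorem rot_neg (a : ℝ) : rot (-a) = (rot a)⁻¹ := by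
  rw [eq_inv_iff_mul_eq_one, ← rot_add, neg_add_cancel, rot_zero]
theorem rot_one : rot 1 = -1 := by
  apply basic_ext <;>
    simp only [basic_mul, basic_rot00, basic_rot01, basic_rot10, basic_rot11, basic_dia00, basic_dia01,
      basic_dia10, basic_dia11, basic_neg, basic_one00, basic_one01, basic_one10, basic_one11, mul_one, cos_pi, sin_pi, neg_zero]
theorem dia_add (a b : ℝ) : dia (a + b) = dia a * dia b := by
  apply basic_ext <;>
    simp only [basic_mul, basic_rot00, basic_rot01, basic_rot10, basic_rot11, basic_dia00, basic_dia01,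
      basic_dia10, basic_dia11, basic_neg, basic_one00, basic_one01, basic_one10, basic_one11, add_div, neg_add, exp_add] <;> ring
theorem dia_zero : dia 0 = 1 := by
  apply basic_ext <;>
    simp only [basic_mul, basic_rot00, basic_rot01, basic_rot10, basic_rot11, basic_dia00, basic_dia01,
      basic_dia10, basic_dia11, basic_neg, basic_one00, basic_one01, basic_one10, basic_one11, zero_div, neg_zero, exp_zero]
theorem dia_neg (a : ℝ) : dia (-a) = (dia a)⁻¹ := by
  rw [eq_inv_iff_mul_eq_one, ← dia_add, neg_add_cancel, dia_zero]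
theorem rot_half_dia (l : ℝ) : rot (1 / 2) * dia l * rot (-(1 / 2)) = dia (-l) := by
  have e : π * (1 / 2) = π / 2 := by ring
  apply basic_ext <;>
    simp only [basic_mul, basic_rot00, basic_rot01, basic_rot10, basic_rot11, basic_dia00, basic_dia01,
      basic_dia10, basic_dia11, basic_neg, basic_one00, basic_one01, basic_one10, basic_one11, mul_neg, e, cos_neg, sin_neg, cos_pi_div_two, sin_pi_div_two, neg_div, neg_neg] <;> ring
theorem continuous_rot : Continuous rot := by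
  apply Continuous.subtype_mk
  refine continuous_matrix fun i j => ?_
  fin_cases i <;> fin_cases j <;> simp <;> fun_prop
theorem continuous_dia : Continuous dia := by
  apply Continuous.subtype_mk
  refine continuous_matrix fun i j => ?_
  fin_cases i <;> fin_cases j <;> simp <;> fun_prop

theorem neg_smul_H (g : G) (z : ℍ) : (-g) • z = g • z := by
  rw [UpperHalfPlane.ext_iff, basic_coe_smul, basic_coe_smul]
  simp only [basic_neg, Complex.ofReal_neg, neg_mul, ← neg_add, neg_div_neg_eq]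
theorem rot_smul_I (θ : ℝ) : rot θ • I = I := by
  rw [basic_fixed_iff, basic_rot00, basic_rot01, basic_rot10, basic_rot11, coe_I]
  push_cast
  linear_combination (-Complex.sin (π * θ)) * Complex.I_mul_I

theorem PM.refl (g : G) : PM g g := Or.inl rfl
theorem PM.symm {g h : G} (H : PM g h) : PM h g := by
  rcases H with rfl | rfl
  · exact Or.inl rfl
  · exact Or.inr (neg_neg _).symm
theorem PM.trans {g h k : G} (H : PM g h) (H' : PM h k) : PM g k := by
  rcases H with rfl | rfl <;> rcases H' with rfl | rfl <;> simp [PM]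
theorem PM.mul {g h g' h' : G} (H : PM g h) (H' : PM g' h') : PM (g * g') (h * h') := by
  rcases H with rfl | rfl <;> rcases H' with rfl | rfl <;> simp [PM]
theorem PM.inv {g h : G} (H : PM g h) : PM g⁻¹ h⁻¹ := by
  rcases H with rfl | rfl
  · exact Or.inl rfl
  · refine Or.inr ?_
    rw [inv_eq_iff_mul_eq_one, neg_mul_neg, mul_inv_cancel]
theorem PM.smul_eq {g h : G} (H : PM g h) (z : ℍ) : g • z = h • z := by
  rcases H with rfl | rfl
  · rfl
  · exact neg_smul_H _ _
theorem PM.len_eq {g h : G} (H : PM g h) : len g = len h := by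
  unfold len; rw [H.smul_eq]
theorem PM.abs_tr {g h : G} (H : PM g h) : |tr g| = |tr h| := by
  rcases H with rfl | rfl
  · rfl
  · unfold tr; rw [basic_neg, basic_neg, ← neg_add, abs_neg]
theorem rot_add_int (a : ℝ) (k : ℤ) : PM (rot (a + k)) (rot a) := by
  have h1 : ∀ b : ℝ, PM (rot (b + 1)) (rot b) := fun b => by
    rw [rot_add, rot_one]; right; simp
  induction k using Int.induction_on with
  | zero => simpa using PM.refl _
  | succ n ih =>
    refine PM.trans ?_ ih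
    push_cast; rw [← add_assoc]; exact h1 _
  | pred n ih =>
    refine PM.trans ?_ ih
    have := (h1 (a + ((-(n : ℤ) - 1 : ℤ) : ℝ))).symm
    have e : a + ((-(n : ℤ) - 1 : ℤ) : ℝ) + 1 = a + ((-(n : ℤ) : ℤ) : ℝ) := by push_cast; ring
    rwa [e] at this

theorem tr_one : tr 1 = 2 := by
  unfold tr; rw [basic_one00, basic_one11]; norm_num
theorem tr_neg (g : G) : tr (-g) = -tr g := by
  unfold tr; rw [basic_neg, basic_neg]; ring
theorem tr_inv (g : G) : tr g⁻¹ = tr g := by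
  unfold tr; rw [basic_inv00, basic_inv11]; ring
theorem tr_mul_comm (g h : G) : tr (g * h) = tr (h * g) := by
  unfold tr; simp only [basic_mul]; ring
theorem tr_conj (g h : G) : tr (h * g * h⁻¹) = tr g := by
  rw [tr_mul_comm, ← mul_assoc, inv_mul_cancel, one_mul]
theorem tr_rot (θ : ℝ) : tr (rot θ) = 2 * cos (π * θ) := by
  unfold tr; rw [basic_rot00, basic_rot11]; ring
theorem continuous_tr : Continuous tr := (basic_cont 0 0).add (basic_cont 1 1)

/- `UpperHalfPlane.cosh_dist`, `UpperHalfPlane.coe_specialLinearGroup_apply` or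
`specialLinearGroup_apply`, `im_smul_eq_div_normSq`; use the determinant. -/
theorem cosh_len (g : G) :
    cosh (len g) = (g 0 0 ^ 2 + g 0 1 ^ 2 + g 1 0 ^ 2 + g 1 1 ^ 2) / 2 := by
  have hd := basic_det g
  have h0 : g 1 0 ^ 2 + g 1 1 ^ 2 ≠ 0 := by
    intro h
    have h1 : g 1 0 = 0 := by nlinarith [sq_nonneg (g 1 0), sq_nonneg (g 1 1)]
    have h2 : g 1 1 = 0 := by nlinarith [sq_nonneg (g 1 0), sq_nonneg (g 1 1)]
    rw [h1, h2] at hd; simp at hd
  have e := basic_coe_smul g I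
  have hn : Complex.normSq (((g 1 0 : ℝ) : ℂ) * Complex.I + (g 1 1 : ℝ)) =
      g 1 0 ^ 2 + g 1 1 ^ 2 := by
    simp [Complex.normSq_apply]; ring
  have hre : (g • I : ℍ).re = (g 0 0 * g 1 0 + g 0 1 * g 1 1) / (g 1 0 ^ 2 + g 1 1 ^ 2) := by
    rw [← coe_re, e, Complex.div_re, coe_I, hn, ← add_div]
    congr 1
    simp
    ring
  have him : (g • I : ℍ).im = 1 / (g 1 0 ^ 2 + g 1 1 ^ 2) := by
    rw [← coe_im, e, Complex.div_im, coe_I, hn, ← sub_div]
    congr 1
    simpa using hd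
  unfold len
  rw [cosh_dist', hre, him, I_re, I_im]
  field_simp
  have h3 : g 0 0 * g 1 1 = 1 + g 0 1 * g 1 0 := by linarith
  linear_combination (-(g 0 0 * g 1 1 - g 0 1 * g 1 0) - 1) * hd
theorem len_nonneg (g : G) : 0 ≤ len g := dist_nonneg
theorem len_one : len 1 = 0 := by
  unfold len; rw [one_smul, dist_self]
theorem dist_smul_I (g h : G) : dist (g • I) (h • I) = len (g⁻¹ * h) := by
  unfold len; rw [← dist_smul g⁻¹, inv_smul_smul, mul_smul]
theorem len_mul_le (g h : G) : len (g * h) ≤ len g + len h := by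
  have h1 := dist_smul_I g (g * h)
  rw [inv_mul_cancel_left] at h1
  rw [← h1]
  exact dist_triangle _ _ _
theorem len_inv (g : G) : len g⁻¹ = len g := by
  have h1 := dist_smul_I g 1
  rw [mul_one, one_smul] at h1
  rw [← h1, dist_comm]; rfl
theorem len_rot_mul (θ : ℝ) (g : G) : len (rot θ * g) = len g := by
  have h1 := dist_smul_I (rot θ)⁻¹ g
  rw [inv_inv, ← rot_neg, rot_smul_I] at h1
  rw [← h1]; rfl
theorem len_mul_rot (θ : ℝ) (g : G) : len (g * rot θ) = len g := by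
  unfold len; rw [mul_smul, rot_smul_I]
theorem len_dia (l : ℝ) : len (dia l) = |l| := by
  have h1 := cosh_len (dia l)
  rw [basic_dia00, basic_dia01, basic_dia10, basic_dia11, ← exp_nat_mul, ← exp_nat_mul] at h1
  have h2 : cosh (len (dia l)) = cosh l := by
    rw [h1, cosh_eq]
    have e1 : ((2 : ℕ) : ℝ) * (l / 2) = l := by push_cast; ring
    have e2 : ((2 : ℕ) : ℝ) * -(l / 2) = -l := by push_cast; ring
    rw [e1, e2]; ring
  have h3 := cosh_le_cosh.1 h2.le
  have h4 := cosh_le_cosh.1 h2.ge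
  rw [abs_of_nonneg (len_nonneg _)] at h3 h4
  exact le_antisymm h3 h4
theorem len_eq_zero_iff (g : G) : len g = 0 ↔ g • I = I := by
  unfold len; rw [dist_eq_zero, eq_comm]
theorem len_dlab {E : Type} (M : E → G) (d : E × Bool) : len (dlab M d) = len (M d.1) := by
  obtain ⟨e, b⟩ := d
  cases b
  · exact len_inv _
  · rfl
theorem continuous_len : Continuous len := continuous_const.dist isProperMap_smul_I.continuous
/- `UpperHalfPlane.isProperMap_smul_I` and `isCompact_closedBall`. -/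
theorem isCompact_len_le (C : ℝ) : IsCompact {g : G | len g ≤ C} := by
  have := isProperMap_smul_I.isCompact_preimage (isCompact_closedBall (I : ℍ) C)
  refine (congrArg IsCompact ?_).mp this
  ext g
  simp only [Set.mem_preimage, Metric.mem_closedBall, Set.mem_setOf_eq, len, dist_comm]

theorem basic_polar (x y : ℝ) :
    ∃ r a : ℝ, 0 ≤ r ∧ x = r * cos (π * a) ∧ y = r * sin (π * a) := by
  refine ⟨‖(⟨x, y⟩ : ℂ)‖, Complex.arg ⟨x, y⟩ / π, norm_nonneg _, ?_, ?_⟩
  · rw [mul_div_cancel₀ _ pi_ne_zero, Complex.norm_mul_cos_arg]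
  · rw [mul_div_cancel₀ _ pi_ne_zero, Complex.norm_mul_sin_arg]

/- Polar form: with e = (a+d)/2, h = (c-b)/2, f = (a-d)/2, k = (c+b)/2 write
e + i h = Q exp(i a2), f + i k = R exp(i a1); Q^2 - R^2 = 1, so Q + R = exp(l/2), Q - R = exp(-l/2)
with l >= 0, and g = Rot((a2+a1)/2) diag(Q+R, Q-R) Rot((a2-a1)/2); then len g = l by
`len_rot_mul`, `len_mul_rot`, `len_dia`. -/
theorem kak (g : G) : ∃ θ ψ : ℝ, g = rot θ * dia (len g) * rot ψ := by
  have hd := basic_det g
  obtain ⟨Q, a2, hQ, h1, h2⟩ := basic_polar ((g 0 0 + g 1 1) / 2) ((g 1 0 - g 0 1) / 2)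
  obtain ⟨R, a1, hR, h3, h4⟩ := basic_polar ((g 0 0 - g 1 1) / 2) ((g 1 0 + g 0 1) / 2)
  have q2 : Q ^ 2 = ((g 0 0 + g 1 1) / 2) ^ 2 + ((g 1 0 - g 0 1) / 2) ^ 2 := by
    rw [h1, h2]; linear_combination (-Q ^ 2) * sin_sq_add_cos_sq (π * a2)
  have r2 : R ^ 2 = ((g 0 0 - g 1 1) / 2) ^ 2 + ((g 1 0 + g 0 1) / 2) ^ 2 := by
    rw [h3, h4]; linear_combination (-R ^ 2) * sin_sq_add_cos_sq (π * a1)
  have hqr : (Q + R) * (Q - R) = 1 := by linear_combination q2 - r2 + hd
  have hQ1 : 1 ≤ Q := by nlinarith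
  have hpos : 0 < Q + R := by linarith
  set l := 2 * log (Q + R) with hl
  have e1 : exp (l / 2) = Q + R := by
    rw [hl, mul_div_cancel_left₀ _ two_ne_zero, exp_log hpos]
  have e2 : exp (-(l / 2)) = Q - R := by
    rw [exp_neg, e1]; exact (eq_inv_of_mul_eq_one_right hqr).symm
  have hl0 : 0 ≤ l := by
    have := log_nonneg (show 1 ≤ Q + R by linarith)
    linarith
  have key : g = rot ((a2 + a1) / 2) * dia l * rot ((a2 - a1) / 2) := by
    have c1 : π * a2 = π * ((a2 + a1) / 2) + π * ((a2 - a1) / 2) := by ring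
    have c2 : π * a1 = π * ((a2 + a1) / 2) - π * ((a2 - a1) / 2) := by ring
    rw [c1, cos_add] at h1
    rw [c1, sin_add] at h2
    rw [c2, cos_sub] at h3
    rw [c2, sin_sub] at h4
    apply basic_ext <;>
      simp only [basic_mul, basic_rot00, basic_rot01, basic_rot10, basic_rot11, basic_dia00,
        basic_dia01, basic_dia10, basic_dia11, e1, e2]
    · linear_combination h1 + h3
    · linear_combination h4 - h2
    · linear_combination h2 + h4
    · linear_combination h1 - h3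
  have hlen : len g = l := by
    rw [key, len_mul_rot, len_rot_mul, len_dia, abs_of_nonneg hl0]
  exact ⟨_, _, by rw [hlen]; exact key⟩

theorem exists_smul_I (z : ℍ) : ∃ g : G, g • I = z := MulAction.exists_smul_eq G I z

/- Conjugate the fixed point to `I`, then `kak` with length zero gives a rotation. -/
theorem exists_conj_rot_of_fixed {g : G} {z : ℍ} (hz : g • z = z) :
    ∃ (h : G) (θ : ℝ), h • I = z ∧ g = h * rot θ * h⁻¹ := by
  obtain ⟨h, rfl⟩ := exists_smul_I z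
  have h1 : len (h⁻¹ * g * h) = 0 := by
    rw [len_eq_zero_iff, mul_smul, mul_smul, hz, inv_smul_smul]
  obtain ⟨θ, ψ, h2⟩ := kak (h⁻¹ * g * h)
  rw [h1, dia_zero, mul_one, ← rot_add] at h2
  exact ⟨h, θ + ψ, rfl, by rw [← h2]; group⟩

theorem pm_one_of_fixed {g : G} {z : ℍ} (hz : g • z = z) (htr : 2 ≤ |tr g|) : PM g 1 := by
  obtain ⟨h, θ, -, rfl⟩ := exists_conj_rot_of_fixed hz
  rw [tr_conj, tr_rot, abs_mul, abs_two] at htr
  have h1 : 1 ≤ cos (π * θ) ^ 2 := by
    rw [← sq_abs]; nlinarith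
  have h2 := sin_sq_add_cos_sq (π * θ)
  have h3 : sin (π * θ) = 0 := by nlinarith [sq_nonneg (sin (π * θ))]
  have h4 : (cos (π * θ) - 1) * (cos (π * θ) + 1) = 0 := by rw [h3] at h2; linarith
  rcases mul_eq_zero.1 h4 with h5 | h5
  · have : rot θ = 1 := by
      apply basic_ext <;> simp only [basic_rot00, basic_rot01, basic_rot10, basic_rot11,
        basic_one00, basic_one01, basic_one10, basic_one11, h3, neg_zero] <;> linarith
    left; rw [this]; group
  · have : rot θ = -1 := by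
      apply basic_ext <;> simp only [basic_rot00, basic_rot01, basic_rot10, basic_rot11,
        basic_neg, basic_one00, basic_one01, basic_one10, basic_one11, h3, neg_zero] <;> linarith
    right; rw [this]; simp

/- c is nonzero; the fixed point is (a - d + i sgn(c) sqrt(4 - tr^2)) / (2c). -/
theorem exists_fixed_of_elliptic {g : G} (htr : |tr g| < 2) : ∃ z : ℍ, g • z = z := by
  have hd := basic_det g
  have h1 : (g 0 0 + g 1 1) ^ 2 < 4 := by
    have := sq_lt_sq' (abs_lt.1 htr).1 (abs_lt.1 htr).2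
    unfold tr at this; linarith
  have hc : g 1 0 ≠ 0 := by
    intro h; rw [h] at hd; nlinarith [sq_nonneg (g 0 0 - g 1 1)]
  set s := √(4 - (g 0 0 + g 1 1) ^ 2) with hs
  have s0 : 0 < s := sqrt_pos.2 (by linarith)
  have s2 : s ^ 2 = 4 - (g 0 0 + g 1 1) ^ 2 := sq_sqrt (by linarith)
  have c0 : 0 < |g 1 0| := abs_pos.2 hc
  set y := s / (2 * |g 1 0|) with hy
  have y2 : 4 * g 1 0 ^ 2 * y ^ 2 = 4 - (g 0 0 + g 1 1) ^ 2 := by
    rw [hy, div_pow, mul_pow, sq_abs, ← s2]; field_simp; ring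
  set x := (g 0 0 - g 1 1) / (2 * g 1 0) with hx
  have x1 : 2 * g 1 0 * x = g 0 0 - g 1 1 := by rw [hx]; field_simp
  refine ⟨⟨⟨x, y⟩, by positivity⟩, ?_⟩
  rw [basic_fixed_iff]
  apply Complex.ext
  · simp only [Complex.add_re, Complex.mul_re, Complex.ofReal_re, Complex.ofReal_im,
      Complex.add_im, Complex.mul_im, zero_mul, sub_zero, add_zero]
    apply mul_left_cancel₀ (mul_ne_zero four_ne_zero hc)
    linear_combination y2 - 4 * hd - (2 * g 1 0 * x - (g 0 0 - g 1 1)) * x1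
  · simp only [Complex.add_re, Complex.mul_re, Complex.ofReal_re, Complex.ofReal_im,
      Complex.add_im, Complex.mul_im, zero_mul, sub_zero, add_zero]
    linear_combination (-y) * x1

theorem basic_eig (g : G) {μ : ℝ} (h : μ ^ 2 - tr g * μ + 1 = 0) :
    ∃ x r : ℝ, g 0 0 * cos (π * x) + g 0 1 * sin (π * x) = μ * cos (π * x) ∧
      g 1 0 * cos (π * x) + g 1 1 * sin (π * x) = μ * sin (π * x) ∧ r = 0 := by
  have hd := basic_det g
  unfold tr at h
  have key : ∀ p q : ℝ, (p ≠ 0 ∨ q ≠ 0) → g 0 0 * p + g 0 1 * q = μ * p →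
      g 1 0 * p + g 1 1 * q = μ * q →
      ∃ x r : ℝ, g 0 0 * cos (π * x) + g 0 1 * sin (π * x) = μ * cos (π * x) ∧
      g 1 0 * cos (π * x) + g 1 1 * sin (π * x) = μ * sin (π * x) ∧ r = 0 := by
    intro p q hpq h1 h2
    obtain ⟨r, a, -, rfl, rfl⟩ := basic_polar p q
    have hr : r ≠ 0 := by rintro rfl; simp at hpq
    refine ⟨a, 0, mul_left_cancel₀ hr ?_, mul_left_cancel₀ hr ?_, rfl⟩
    · linear_combination h1
    · linear_combination h2
  by_cases h1 : g 0 1 ≠ 0 ∨ μ - g 0 0 ≠ 0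
  · exact key _ _ h1 (by ring) (by linear_combination -h - hd)
  by_cases h2 : μ - g 1 1 ≠ 0 ∨ g 1 0 ≠ 0
  · exact key _ _ h2 (by linear_combination -h - hd) (by ring)
  push Not at h1 h2
  exact key 1 0 (Or.inl one_ne_zero) (by linarith [h1.2]) (by linarith [h2.2])

theorem basic_conj_dia {g : G} (hg : 2 < tr g) :
    ∃ (h : G) (l : ℝ), 0 < l ∧ g = h * dia l * h⁻¹ := by
  set s := √(tr g ^ 2 - 4) with hs
  have s0 : 0 < s := sqrt_pos.2 (by nlinarith)
  have s2 : s ^ 2 = tr g ^ 2 - 4 := sq_sqrt (by nlinarith)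
  obtain ⟨x, -, a1, a2, -⟩ := basic_eig g (μ := (tr g + s) / 2) (by linear_combination s2 / 4)
  obtain ⟨y, -, b1, b2, -⟩ := basic_eig g (μ := (tr g - s) / 2) (by linear_combination s2 / 4)
  set D := cos (π * x) * sin (π * y) - sin (π * x) * cos (π * y) with hD
  have hD0 : D ≠ 0 := by
    intro h0
    have c1 := sin_sq_add_cos_sq (π * x)
    have c2 := sin_sq_add_cos_sq (π * y)
    set u := cos (π * x) * cos (π * y) + sin (π * x) * sin (π * y) with hu
    have e1 : cos (π * y) = u * cos (π * x) := by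
      rw [hu]; linear_combination (-cos (π * y)) * c1 - sin (π * x) * (hD.symm.trans h0)
    have e2 : sin (π * y) = u * sin (π * x) := by
      rw [hu]; linear_combination (-sin (π * y)) * c1 + cos (π * x) * (hD.symm.trans h0)
    have e3 : s * cos (π * y) = 0 := by
      rw [e1, e2] at b1; rw [e1]; linear_combination b1 - u * a1
    have e4 : s * sin (π * y) = 0 := by
      rw [e1, e2] at b2; rw [e2]; linear_combination b2 - u * a2
    rw [(mul_eq_zero.1 e3).resolve_left s0.ne', (mul_eq_zero.1 e4).resolve_left s0.ne'] at c2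
    simp at c2
  have hpos : 1 < (tr g + s) / 2 := by linarith
  set l := 2 * log ((tr g + s) / 2) with hl
  have e1 : exp (l / 2) = (tr g + s) / 2 := by
    rw [hl, mul_div_cancel_left₀ _ two_ne_zero, exp_log (by linarith)]
  have e2 : exp (-(l / 2)) = (tr g - s) / 2 := by
    rw [exp_neg, e1]
    exact (eq_inv_of_mul_eq_one_right (by linear_combination (-1 / 4) * s2)).symm
  let h : G := ⟨!![cos (π * x), cos (π * y) / D; sin (π * x), sin (π * y) / D], by
    rw [Matrix.det_fin_two_of]; field_simp; rw [hD]; ring⟩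
  have h00 : h 0 0 = cos (π * x) := rfl
  have h01 : h 0 1 = cos (π * y) / D := rfl
  have h10 : h 1 0 = sin (π * x) := rfl
  have h11 : h 1 1 = sin (π * y) / D := rfl
  refine ⟨h, l, by linarith [log_pos hpos], ?_⟩
  rw [eq_mul_inv_iff_mul_eq]
  apply basic_ext <;>
    simp only [basic_mul, basic_dia00, basic_dia01, basic_dia10, basic_dia11, e1, e2, h00, h01,
      h10, h11]
  · linear_combination a1
  · linear_combination b1 / D
  · linear_combination a2
  · linear_combination b2 / D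

/- Two real eigenvectors, scaled to determinant one. -/
theorem exists_conj_dia {g : G} (hg : Hyp g) :
    ∃ (h : G) (l : ℝ), 0 < l ∧ PM g (h * dia l * h⁻¹) := by
  rcases lt_abs.1 hg with h | h
  · obtain ⟨k, l, h1, h2⟩ := basic_conj_dia h
    exact ⟨k, l, h1, Or.inl h2⟩
  · rw [← tr_neg] at h
    obtain ⟨k, l, h1, h2⟩ := basic_conj_dia h
    exact ⟨k, l, h1, Or.inr (by rw [← h2, neg_neg])⟩

/- A real eigenvector for the eigenvalue of absolute value at most one, written in polar form. -/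
theorem exists_eigen {g : G} (htr : 2 ≤ |tr g|) :
    ∃ x c : ℝ, c ≠ 0 ∧ |c| ≤ 1 ∧
      (g : Matrix (Fin 2) (Fin 2) ℝ).mulVec (vec x) = c • vec x := by
  have h4 : 4 ≤ tr g ^ 2 := by rw [← sq_abs]; nlinarith
  set s := √(tr g ^ 2 - 4) with hs
  have s0 : 0 ≤ s := sqrt_nonneg _
  have s2 : s ^ 2 = tr g ^ 2 - 4 := sq_sqrt (by linarith)
  have : ∃ c : ℝ, c ^ 2 - tr g * c + 1 = 0 ∧ |c| ≤ 1 := by
    by_cases h : |(tr g + s) / 2| ≤ 1
    · exact ⟨_, by linear_combination s2 / 4, h⟩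
    · refine ⟨(tr g - s) / 2, by linear_combination s2 / 4, ?_⟩
      have e : |(tr g + s) / 2| * |(tr g - s) / 2| = 1 := by
        rw [← abs_mul, show (tr g + s) / 2 * ((tr g - s) / 2) = 1 by
          linear_combination (-1 / 4) * s2, abs_one]
      push Not at h
      nlinarith [abs_nonneg ((tr g - s) / 2)]
  obtain ⟨c, h1, h2⟩ := this
  obtain ⟨x, -, a1, a2, -⟩ := basic_eig g h1
  refine ⟨x, c, by rintro rfl; simp at h1, h2, ?_⟩
  ext i
  fin_cases i
  · simpa [Matrix.mulVec, dotProduct, Fin.sum_univ_two, vec] using a1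
  · simpa [Matrix.mulVec, dotProduct, Fin.sum_univ_two, vec] using a2

/-- Directions of the darts. -/
theorem exists_dir {E : Type} (M : E → G) : ∃ θ : E × Bool → ℝ, (∀ d, θ d ∈ Set.Ico (0 : ℝ) 1) ∧
    ∀ d, PM (dlab M d) (rot (θ d) * dia (len (M d.1)) * rot (-(1 / 2) - θ (rev d))) := by
  choose θ ψ h using fun e => kak (M e)
  have hf : ∀ a : ℝ, PM (rot (Int.fract a)) (rot a) := fun a => by
    have := rot_add_int a (-⌊a⌋)
    have e : a + ((-⌊a⌋ : ℤ) : ℝ) = Int.fract a := by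
      push_cast; rw [← sub_eq_add_neg, Int.self_sub_floor]
    rwa [e] at this
  have hg : ∀ a : ℝ, PM (rot (-(1 / 2) - Int.fract a)) (rot (-(1 / 2) - a)) := fun a => by
    rw [sub_eq_add_neg, sub_eq_add_neg, rot_add, rot_add, rot_neg (Int.fract a), rot_neg a]
    exact (PM.refl _).mul (hf a).inv
  refine ⟨fun d => cond d.2 (Int.fract (θ d.1)) (Int.fract (1 / 2 - ψ d.1)), ?_, ?_⟩
  · rintro ⟨e, b⟩
    cases b <;> exact ⟨Int.fract_nonneg _, Int.fract_lt_one _⟩
  · rintro ⟨e, b⟩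
    cases b
    · refine PM.symm (PM.trans (((hf _).mul (PM.refl _)).mul (hg _)) (Or.inl ?_))
      show rot (1 / 2 - ψ e) * dia (len (M e)) * rot (-(1 / 2) - θ e) = (M e)⁻¹
      have e1 : rot (1 / 2 - ψ e) = (rot (ψ e))⁻¹ * rot (1 / 2) := by
        rw [← rot_neg, ← rot_add]; congr 1; ring
      have e2 : rot (-(1 / 2) - θ e) = rot (-(1 / 2)) * (rot (θ e))⁻¹ := by
        rw [← rot_neg, ← rot_add]; congr 1
      have e3 := rot_half_dia (len (M e))
      rw [dia_neg] at e3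
      rw [e1, e2]
      conv_rhs => rw [h e]
      rw [mul_inv_rev, mul_inv_rev, ← e3]
      simp only [mul_assoc]
    · refine PM.symm (PM.trans (((hf _).mul (PM.refl _)).mul (hg _)) ?_)
      show PM _ (M e)
      have e1 := rot_add_int (ψ e) (-1)
      have e2 : ψ e + ((-1 : ℤ) : ℝ) = -(1 / 2) - (1 / 2 - ψ e) := by push_cast; ring
      rw [e2] at e1
      conv_rhs => rw [h e]
      exact (PM.refl _).mul e1
/- For `M e = rot θ * dia l * rot ψ` put θ (e,true) = fract θ and θ (e,false) = fract (1/2 - ψ);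
use `rot_add_int`, `rot_half_dia`. -/

end Pool.Agent.MP_28624d_gt

end

-- part MP_28624d_gt.Lifts
section

/-!
Lifts of projective actions to the real line.
-/

namespace Pool.Agent.MP_28624d_gt

open Real Filter Topology

theorem T_add (a b : ℝ) : T (a + b) = T a * T b := by
  ext x; simp only [RelIso.mul_apply, T_apply]; ring
theorem T_zero : T 0 = 1 := by
  ext x; simp only [RelIso.one_apply, T_apply, add_zero]
theorem T_neg (a : ℝ) : T (-a) = (T a)⁻¹ := by
  rw [eq_inv_iff_mul_eq_one, ← T_add, neg_add_cancel, T_zero]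

theorem lifts_v0 (x : ℝ) : vec x 0 = cos (π * x) := rfl
theorem lifts_v1 (x : ℝ) : vec x 1 = sin (π * x) := rfl
theorem lifts_ext {u v : Fin 2 → ℝ} (h0 : u 0 = v 0) (h1 : u 1 = v 1) : u = v := by
  ext i; fin_cases i <;> assumption
theorem lifts_mv (g : G) (v : Fin 2 → ℝ) (i : Fin 2) :
    (g : Matrix (Fin 2) (Fin 2) ℝ).mulVec v i = g i 0 * v 0 + g i 1 * v 1 := by
  simp [Matrix.mulVec, dotProduct, Fin.sum_univ_two]
theorem lifts_dot (u v : Fin 2 → ℝ) : u ⬝ᵥ v = u 0 * v 0 + u 1 * v 1 := by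
  simp [dotProduct, Fin.sum_univ_two]
theorem lifts_mul (g h : G) (v : Fin 2 → ℝ) :
    ((g * h : G) : Matrix (Fin 2) (Fin 2) ℝ).mulVec v =
      (g : Matrix (Fin 2) (Fin 2) ℝ).mulVec ((h : Matrix (Fin 2) (Fin 2) ℝ).mulVec v) := by
  rw [Matrix.mulVec_mulVec]; rfl
theorem lifts_one (v : Fin 2 → ℝ) : ((1 : G) : Matrix (Fin 2) (Fin 2) ℝ).mulVec v = v :=
  Matrix.one_mulVec v

theorem lifts_const {d : ℝ → ℝ} (hd : Continuous d) (h : ∀ x, ∃ k : ℤ, d x = k) (x y : ℝ) :
    d x = d y := by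
  have key : ∀ a b, ¬ d a < d b := by
    intro a b hab
    obtain ⟨k, hk⟩ := h a
    obtain ⟨m, hm⟩ := h b
    have hkm : k + 1 ≤ m := by
      rw [hk, hm] at hab; exact_mod_cast hab
    have hkm' : (k : ℝ) + 1 ≤ m := by exact_mod_cast hkm
    obtain ⟨c, hc⟩ := intermediate_value_univ a b hd
      (show (k : ℝ) + 1 / 2 ∈ Set.Icc (d a) (d b) from ⟨by linarith, by linarith⟩)
    obtain ⟨j, hj⟩ := h c
    have e : ((2 * j : ℤ) : ℝ) = ((2 * k + 1 : ℤ) : ℝ) := by push_cast; linarith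
    have : 2 * j = 2 * k + 1 := by exact_mod_cast e
    omega
  exact le_antisymm (not_lt.1 (key y x)) (not_lt.1 (key x y))

theorem lifts_int {f : ℝ → ℝ} (h : ∀ x, f (x + 1) = f x + 1) (x : ℝ) (k : ℤ) :
    f (x + k) = f x + k := by
  induction k using Int.induction_on with
  | zero => simp
  | succ n ih => push_cast at ih ⊢; rw [← add_assoc, h, ih, add_assoc]
  | pred n ih =>
    have := h (x + (-(n : ℝ) - 1))
    rw [show x + (-(n : ℝ) - 1) + 1 = x + -(n : ℝ) by ring] at this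
    push_cast at ih ⊢
    linarith

theorem vec_ne_zero (x : ℝ) : vec x ≠ 0 := by
  intro h
  have h0 : cos (π * x) = 0 := congrFun h 0
  have h1 : sin (π * x) = 0 := congrFun h 1
  have := sin_sq_add_cos_sq (π * x)
  rw [h0, h1] at this; simp at this
/- sin (π (x - y)) = 0. -/
theorem vec_parallel {x y c : ℝ} (h : vec x = c • vec y) : ∃ k : ℤ, x = y + k := by
  have h0 : cos (π * x) = c * cos (π * y) := congrFun h 0
  have h1 : sin (π * x) = c * sin (π * y) := congrFun h 1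
  have h2 : sin (π * x - π * y) = 0 := by rw [sin_sub, h0, h1]; ring
  obtain ⟨k, hk⟩ := sin_eq_zero_iff.1 h2
  refine ⟨k, mul_left_cancel₀ pi_ne_zero ?_⟩
  linarith
theorem vec_add_int (x : ℝ) (k : ℤ) : vec (x + k) = vec x ∨ vec (x + k) = -vec x := by
  have e : π * (x + k) = π * x + k * π := by ring
  rcases Int.even_or_odd k with h | h
  · left
    apply lifts_ext
    · rw [lifts_v0, lifts_v0, e, cos_add_int_mul_pi, h.neg_one_zpow, one_mul]
    · rw [lifts_v1, lifts_v1, e, sin_add_int_mul_pi, h.neg_one_zpow, one_mul]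
  · right
    apply lifts_ext
    · rw [Pi.neg_apply, lifts_v0, lifts_v0, e, cos_add_int_mul_pi, h.neg_one_zpow, neg_one_mul]
    · rw [Pi.neg_apply, lifts_v1, lifts_v1, e, sin_add_int_mul_pi, h.neg_one_zpow, neg_one_mul]

theorem Lift.add_int {g : G} {f : ℝ ≃o ℝ} (h : Lift g f) (x : ℝ) (k : ℤ) :
    f (x + k) = f x + k := lifts_int h.1 x k
theorem Lift.mul {g g' : G} {f f' : ℝ ≃o ℝ} (h : Lift g f) (h' : Lift g' f') :
    Lift (g * g') (f * f') := by
  refine ⟨fun x => by rw [RelIso.mul_apply, RelIso.mul_apply, h'.1, h.1], fun x => ?_⟩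
  obtain ⟨c', hc', e'⟩ := h'.2 x
  obtain ⟨c, hc, e⟩ := h.2 (f' x)
  refine ⟨c' * c, mul_ne_zero hc' hc, ?_⟩
  rw [lifts_mul, e', Matrix.mulVec_smul, e, smul_smul, RelIso.mul_apply]
theorem Lift.inv {g : G} {f : ℝ ≃o ℝ} (h : Lift g f) : Lift g⁻¹ f⁻¹ := by
  refine ⟨fun x => f.injective ?_, fun x => ?_⟩
  · rw [h.1, RelIso.apply_inv_self, RelIso.apply_inv_self]
  · obtain ⟨c, hc, e⟩ := h.2 (f⁻¹ x)
    rw [RelIso.apply_inv_self] at e
    refine ⟨c⁻¹, inv_ne_zero hc, ?_⟩
    have e2 := congrArg ((g⁻¹ : G) : Matrix (Fin 2) (Fin 2) ℝ).mulVec e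
    rw [← lifts_mul, inv_mul_cancel, lifts_one, Matrix.mulVec_smul] at e2
    rw [e2, smul_smul, inv_mul_cancel₀ hc, one_smul]
theorem lift_one : Lift 1 1 := ⟨fun _ => rfl, fun x => ⟨1, one_ne_zero, by rw [lifts_one, one_smul]; rfl⟩⟩
theorem Lift.pm {g g' : G} {f : ℝ ≃o ℝ} (h : Lift g f) (H : PM g g') : Lift g' f := by
  rcases H with rfl | rfl
  · exact h
  · refine ⟨h.1, fun x => ?_⟩
    obtain ⟨c, hc, e⟩ := h.2 x
    refine ⟨-c, neg_ne_zero.2 hc, ?_⟩
    rw [Matrix.SpecialLinearGroup.coe_neg, Matrix.neg_mulVec] at e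
    rw [neg_smul, ← e, neg_neg]
theorem lift_rot (θ : ℝ) : Lift (rot θ) (T θ) := by
  refine ⟨fun x => by simp only [T_apply]; ring, fun x => ⟨1, one_ne_zero, ?_⟩⟩
  rw [one_smul]
  apply lifts_ext <;>
    simp only [lifts_mv, lifts_v0, lifts_v1, basic_rot00, basic_rot01, basic_rot10, basic_rot11,
      T_apply, mul_add, cos_add, sin_add] <;> ring
theorem lift_T_int (k : ℤ) : Lift 1 (T k) := by
  have h := rot_add_int 0 k
  rw [zero_add, rot_zero] at h
  exact (lift_rot k).pm h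
theorem lift_pre {s : ℕ → G} {f : ℕ → ℝ ≃o ℝ} (h : ∀ i, Lift (s i) (f i)) (k : ℕ) :
    Lift (pre s k) (pre f k) := by
  induction k with
  | zero => rw [pre_zero, pre_zero]; exact lift_one
  | succ k ih => rw [pre_succ, pre_succ]; exact ih.mul (h k)

/- f' - f is continuous (`OrderIso.continuous`) and integer valued on a connected space. -/
theorem Lift.unique {g : G} {f f' : ℝ ≃o ℝ} (h : Lift g f) (h' : Lift g f') :
    ∃ k : ℤ, ∀ x, f' x = f x + k := by
  have key : ∀ x, ∃ k : ℤ, f' x - f x = k := by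
    intro x
    obtain ⟨c, -, e⟩ := h.2 x
    obtain ⟨c', hc', e'⟩ := h'.2 x
    have : vec (f' x) = (c'⁻¹ * c) • vec (f x) := by
      rw [← smul_smul, ← e, e', smul_smul, inv_mul_cancel₀ hc', one_smul]
    obtain ⟨k, hk⟩ := vec_parallel this
    exact ⟨k, by linarith⟩
  obtain ⟨k, hk⟩ := key 0
  refine ⟨k, fun x => ?_⟩
  have := lifts_const (d := fun x => f' x - f x) (f'.continuous.sub f.continuous) key x 0
  linarith

/- General construction. If `dot x = ⟨vec x, g vec x⟩ > 0` for all x, put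
`f x = x + arctan (cross x / dot x) / π` with `cross x = det (vec x, g vec x)`. It is continuous,
`f (x+1) = f x + 1`, `g vec x` is a positive multiple of `vec (f x)`; it is injective by
`vec_parallel`, hence strictly monotone (`Continuous.strictMono_of_inj`; antitone is excluded by
degree one), and surjective; `StrictMono.orderIsoOfSurjective`. -/
theorem exists_lift_of_dot (g : G)
    (hg : ∀ x, 0 < vec x ⬝ᵥ (g : Matrix (Fin 2) (Fin 2) ℝ).mulVec (vec x)) :
    ∃ f : ℝ ≃o ℝ, Lift g f ∧ ∀ x, f x = x + arctan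
      ((vec x 0 * (g : Matrix (Fin 2) (Fin 2) ℝ).mulVec (vec x) 1 -
        vec x 1 * (g : Matrix (Fin 2) (Fin 2) ℝ).mulVec (vec x) 0) /
        (vec x ⬝ᵥ (g : Matrix (Fin 2) (Fin 2) ℝ).mulVec (vec x))) / π := by
  set u : ℝ → ℝ := fun x => vec x ⬝ᵥ (g : Matrix (Fin 2) (Fin 2) ℝ).mulVec (vec x) with hu
  set v : ℝ → ℝ := fun x => vec x 0 * (g : Matrix (Fin 2) (Fin 2) ℝ).mulVec (vec x) 1 -
    vec x 1 * (g : Matrix (Fin 2) (Fin 2) ℝ).mulVec (vec x) 0 with hv
  have u0 : ∀ x, 0 < u x := hg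
  have eu : ∀ x, u x = cos (π * x) * (g 0 0 * cos (π * x) + g 0 1 * sin (π * x)) +
      sin (π * x) * (g 1 0 * cos (π * x) + g 1 1 * sin (π * x)) := fun x => by
    simp only [hu, lifts_dot, lifts_mv, lifts_v0, lifts_v1]
  have ev : ∀ x, v x = cos (π * x) * (g 1 0 * cos (π * x) + g 1 1 * sin (π * x)) -
      sin (π * x) * (g 0 0 * cos (π * x) + g 0 1 * sin (π * x)) := fun x => by
    simp only [hv, lifts_mv, lifts_v0, lifts_v1]
  set F : ℝ → ℝ := fun x => x + arctan (v x / u x) / π with hF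
  have cu : Continuous u := by rw [funext eu]; fun_prop
  have cv : Continuous v := by rw [funext ev]; fun_prop
  have cF : Continuous F :=
    continuous_id.add ((continuous_arctan.comp (cv.div cu fun x => (u0 x).ne')).div_const _)
  have F1 : ∀ x, F (x + 1) = F x + 1 := by
    intro x
    have e1 : u (x + 1) = u x := by
      rw [eu, eu, mul_add π, mul_one, cos_add_pi, sin_add_pi]; ring
    have e2 : v (x + 1) = v x := by
      rw [ev, ev, mul_add π, mul_one, cos_add_pi, sin_add_pi]; ring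
    simp only [hF, e1, e2]; ring
  have FL : ∀ x, ∃ c : ℝ, c ≠ 0 ∧
      (g : Matrix (Fin 2) (Fin 2) ℝ).mulVec (vec x) = c • vec (F x) := by
    intro x
    have c0 := cos_arctan_pos (v x / u x)
    have e1 : π * F x = π * x + arctan (v x / u x) := by simp only [hF]; field_simp
    have e2 : sin (arctan (v x / u x)) = v x / u x * cos (arctan (v x / u x)) := by
      have := tan_arctan (v x / u x)
      rw [tan_eq_sin_div_cos, div_eq_iff c0.ne'] at this
      exact this
    have ux := (u0 x).ne'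
    have sc := sin_sq_add_cos_sq (π * x)
    refine ⟨u x / cos (arctan (v x / u x)), (div_pos (u0 x) c0).ne', ?_⟩
    apply lifts_ext
    · rw [Pi.smul_apply, smul_eq_mul, lifts_mv, lifts_v0, lifts_v0, lifts_v1, e1, cos_add, e2]
      have : u x / cos (arctan (v x / u x)) * (cos (π * x) * cos (arctan (v x / u x)) -
          sin (π * x) * (v x / u x * cos (arctan (v x / u x)))) =
          u x * cos (π * x) - v x * sin (π * x) := by field_simp
      rw [this, eu, ev]
      linear_combination (-(g 0 0 * cos (π * x) + g 0 1 * sin (π * x))) * sc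
    · rw [Pi.smul_apply, smul_eq_mul, lifts_mv, lifts_v0, lifts_v1, lifts_v1, e1, sin_add, e2]
      have : u x / cos (arctan (v x / u x)) * (sin (π * x) * cos (arctan (v x / u x)) +
          cos (π * x) * (v x / u x * cos (arctan (v x / u x)))) =
          u x * sin (π * x) + v x * cos (π * x) := by field_simp
      rw [this, eu, ev]
      linear_combination (-(g 1 0 * cos (π * x) + g 1 1 * sin (π * x))) * sc
  have Finj : Function.Injective F := by
    intro x y hxy
    obtain ⟨c, -, e⟩ := FL x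
    obtain ⟨c', hc', e'⟩ := FL y
    have e1 : (g : Matrix (Fin 2) (Fin 2) ℝ).mulVec (vec x) =
        (g : Matrix (Fin 2) (Fin 2) ℝ).mulVec ((c * c'⁻¹) • vec y) := by
      rw [Matrix.mulVec_smul, e, e', smul_smul, hxy, mul_assoc, inv_mul_cancel₀ hc', mul_one]
    have e2 := congrArg ((g⁻¹ : G) : Matrix (Fin 2) (Fin 2) ℝ).mulVec e1
    rw [← lifts_mul, ← lifts_mul, inv_mul_cancel, lifts_one, lifts_one] at e2
    obtain ⟨k, hk⟩ := vec_parallel e2
    have := lifts_int F1 y k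
    rw [← hk, hxy] at this
    linarith
  have Fm : StrictMono F := by
    rcases cF.strictMono_of_inj Finj with h | h
    · exact h
    · have := h (show (0 : ℝ) < 0 + 1 by norm_num)
      rw [F1] at this; linarith
  have Fb : ∀ x, x - 1 ≤ F x ∧ F x ≤ x + 1 := by
    intro x
    have h1 := arctan_lt_pi_div_two (v x / u x)
    have h2 := neg_pi_div_two_lt_arctan (v x / u x)
    have h3 : arctan (v x / u x) / π ≤ 1 := by rw [div_le_one pi_pos]; linarith [pi_pos]
    have h4 : -1 ≤ arctan (v x / u x) / π := by rw [le_div_iff₀ pi_pos]; linarith [pi_pos]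
    simp only [hF]
    constructor <;> linarith
  have Fs : Function.Surjective F := fun y =>
    intermediate_value_univ (y - 1) (y + 1) cF
      ⟨by linarith [(Fb (y - 1)).2], by linarith [(Fb (y + 1)).1]⟩
  exact ⟨Fm.orderIsoOfSurjective F Fs, ⟨F1, FL⟩, fun _ => rfl⟩

theorem exists_dl (l : ℝ) : ∃ f : ℝ ≃o ℝ, Lift (dia l) f ∧ f 0 = 0 := by
  obtain ⟨f, h1, h2⟩ := exists_lift_of_dot (dia l) (by
    intro x
    simp only [lifts_dot, lifts_mv, lifts_v0, lifts_v1, basic_dia00, basic_dia01, basic_dia10,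
      basic_dia11]
    have a := exp_pos (l / 2)
    have b := exp_pos (-(l / 2))
    have sc := sin_sq_add_cos_sq (π * x)
    rcases le_total (exp (l / 2)) (exp (-(l / 2))) with h | h
    · nlinarith [mul_nonneg (sub_nonneg.2 h) (sq_nonneg (sin (π * x)))]
    · nlinarith [mul_nonneg (sub_nonneg.2 h) (sq_nonneg (cos (π * x)))])
  refine ⟨f, h1, ?_⟩
  rw [h2]
  simp [lifts_mv, lifts_v0, lifts_v1, basic_dia10]

/-- The lift of `dia l` fixing zero. -/
noncomputable def dl (l : ℝ) : ℝ ≃o ℝ := (exists_dl l).choose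

theorem lift_dl (l : ℝ) : Lift (dia l) (dl l) := (exists_dl l).choose_spec.1
theorem dl_zero (l : ℝ) : dl l 0 = 0 := (exists_dl l).choose_spec.2

/- `dl l (1/2)` lies in (0,1) and is congruent to 1/2. -/
theorem dl_half (l : ℝ) : dl l (1 / 2) = 1 / 2 := by
  obtain ⟨c, hc, e⟩ := (lift_dl l).2 (1 / 2)
  have e0 : π * (1 / 2) = π / 2 := by ring
  have e1 : vec (dl l (1 / 2)) = (c⁻¹ * exp (-(l / 2))) • vec (1 / 2) := by
    rw [← smul_smul, eq_inv_smul_iff₀ hc, ← e]
    apply lifts_ext <;>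
      simp only [Pi.smul_apply, smul_eq_mul, lifts_mv, lifts_v0, lifts_v1, basic_dia00,
        basic_dia01, basic_dia10, basic_dia11, e0, cos_pi_div_two, sin_pi_div_two] <;> ring
  obtain ⟨k, hk⟩ := vec_parallel e1
  have h1 := (dl l).strictMono (show (0 : ℝ) < 1 / 2 by norm_num)
  have h2 := (dl l).strictMono (show (1 / 2 : ℝ) < 0 + 1 by norm_num)
  rw [(lift_dl l).1, dl_zero, hk] at h2
  rw [dl_zero, hk] at h1
  have h3 : (-1 : ℝ) < k := by linarith
  have h4 : (k : ℝ) < 1 := by linarith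
  have h5 : -1 < k := by exact_mod_cast h3
  have h6 : k < 1 := by exact_mod_cast h4
  have : k = 0 := by omega
  rw [hk, this]; simp
theorem lifts_neg_half (l : ℝ) : dl l (-(1 / 2)) = -(1 / 2) := by
  have := (lift_dl l).1 (-(1 / 2))
  rw [show -(1 / 2) + 1 = (1 / 2 : ℝ) by norm_num, dl_half] at this
  linarith

/- Both sides lift `dia (-l)` and fix zero. -/
theorem T_dl_T (l : ℝ) : T (1 / 2) * dl l * T (-(1 / 2)) = (dl l)⁻¹ := by
  have h1 := ((lift_rot (1 / 2)).mul (lift_dl l)).mul (lift_rot (-(1 / 2)))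
  rw [rot_half_dia, dia_neg] at h1
  obtain ⟨k, hk⟩ := (lift_dl l).inv.unique h1
  have h2 : (dl l)⁻¹ 0 = 0 := by
    have := RelIso.inv_apply_self (dl l) 0
    rwa [dl_zero] at this
  have h3 := hk 0
  rw [h2, RelIso.mul_apply, RelIso.mul_apply, T_apply, T_apply, zero_add, lifts_neg_half] at h3
  ext x
  rw [hk]; linarith

theorem exists_lift (g : G) : ∃ f, Lift g f := by
  obtain ⟨θ, ψ, h⟩ := kak g
  exact ⟨_, by rw [h]; exact ((lift_rot θ).mul (lift_dl _)).mul (lift_rot ψ)⟩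

theorem lifts_arctan (t : ℝ) : |arctan t| ≤ |t| := by
  have key : ∀ t : ℝ, 0 ≤ t → |arctan t| ≤ |t| := by
    intro t ht
    have h0 : 0 ≤ arctan t := by rw [← arctan_zero]; exact arctan_strictMono.monotone ht
    have := le_tan h0 (arctan_lt_pi_div_two t)
    rw [tan_arctan] at this
    rwa [abs_of_nonneg h0, abs_of_nonneg ht]
  rcases le_total 0 t with h | h
  · exact key t h
  · have := key (-t) (by linarith)
    rwa [arctan_neg, abs_neg, abs_neg] at this

/- `exists_lift_of_dot` near the identity; |arctan t| ≤ |t|. -/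
theorem exists_nl : ∃ nl : G → ℝ ≃o ℝ, ∀ ε : ℝ, 0 < ε →
    ∀ᶠ N in 𝓝 (1 : G), Lift N (nl N) ∧ ∀ x, |nl N x - x| < ε := by
  classical
  refine ⟨fun N => if h : ∀ x, 0 < vec x ⬝ᵥ (N : Matrix (Fin 2) (Fin 2) ℝ).mulVec (vec x) then
    (exists_lift_of_dot N h).choose else 1, fun ε hε => ?_⟩
  set η := min (1 / 8) (ε / 8) with hη
  have η0 : 0 < η := lt_min (by norm_num) (by positivity)
  have η1 : η ≤ 1 / 8 := min_le_left _ _
  have η2 : η ≤ ε / 8 := min_le_right _ _
  have ev : ∀ i j, ∀ᶠ N in 𝓝 (1 : G), |N i j - (1 : G) i j| < η := fun i j => by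
    have := Metric.tendsto_nhds.1 ((basic_cont i j).tendsto 1) η η0
    simpa only [Real.dist_eq] using this
  filter_upwards [ev 0 0, ev 0 1, ev 1 0, ev 1 1] with N h00 h01 h10 h11
  rw [basic_one00] at h00
  rw [basic_one01, sub_zero] at h01
  rw [basic_one10, sub_zero] at h10
  rw [basic_one11] at h11
  have bd : ∀ a p q : ℝ, |a| < η → |p| ≤ 1 → |q| ≤ 1 → |p * (a * q)| ≤ η := by
    intro a p q ha hp hq
    rw [abs_mul, abs_mul]
    have := mul_le_of_le_one_right (abs_nonneg a) hq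
    have := mul_le_of_le_one_left (mul_nonneg (abs_nonneg a) (abs_nonneg q)) hp
    linarith
  have hu : ∀ x, 1 / 2 ≤ vec x ⬝ᵥ (N : Matrix (Fin 2) (Fin 2) ℝ).mulVec (vec x) := by
    intro x
    simp only [lifts_dot, lifts_mv, lifts_v0, lifts_v1]
    have c1 := abs_cos_le_one (π * x)
    have s1 := abs_sin_le_one (π * x)
    have sc := sin_sq_add_cos_sq (π * x)
    linarith [(abs_le.1 (bd _ _ _ h00 c1 c1)).1, (abs_le.1 (bd _ _ _ h01 c1 s1)).1,
      (abs_le.1 (bd _ _ _ h10 s1 c1)).1, (abs_le.1 (bd _ _ _ h11 s1 s1)).1]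
  have hv : ∀ x, |vec x 0 * (N : Matrix (Fin 2) (Fin 2) ℝ).mulVec (vec x) 1 -
      vec x 1 * (N : Matrix (Fin 2) (Fin 2) ℝ).mulVec (vec x) 0| ≤ 4 * η := by
    intro x
    simp only [lifts_mv, lifts_v0, lifts_v1]
    have c1 := abs_cos_le_one (π * x)
    have s1 := abs_sin_le_one (π * x)
    have a1 := abs_le.1 (bd _ _ _ h00 s1 c1)
    have a2 := abs_le.1 (bd _ _ _ h01 s1 s1)
    have a3 := abs_le.1 (bd _ _ _ h10 c1 c1)
    have a4 := abs_le.1 (bd _ _ _ h11 c1 s1)
    rw [abs_le]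
    constructor <;> linarith [a1.1, a1.2, a2.1, a2.2, a3.1, a3.2, a4.1, a4.2]
  have h : ∀ x, 0 < vec x ⬝ᵥ (N : Matrix (Fin 2) (Fin 2) ℝ).mulVec (vec x) :=
    fun x => lt_of_lt_of_le (by norm_num) (hu x)
  rw [dif_pos h]
  refine ⟨(exists_lift_of_dot N h).choose_spec.1, fun x => ?_⟩
  rw [(exists_lift_of_dot N h).choose_spec.2 x, add_sub_cancel_left, abs_div, abs_of_pos pi_pos,
    div_lt_iff₀ pi_pos]
  refine (lifts_arctan _).trans_lt ?_
  rw [abs_div, abs_of_pos (h x), div_lt_iff₀ (h x)]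
  have h1 := hv x
  have h2 := mul_le_mul_of_nonneg_left (hu x) (show 0 ≤ ε * π by positivity)
  nlinarith [pi_gt_three]

theorem abs_lt_of_fixed {f : ℝ ≃o ℝ} (h1 : ∀ x, f (x + 1) = f x + 1) {y : ℝ} (hy : f y = y)
    (x : ℝ) : |f x - x| < 1 := by
  have a1 := Int.floor_le (x - y)
  have a2 := Int.lt_floor_add_one (x - y)
  have b1 := f.monotone (show y + (⌊x - y⌋ : ℝ) ≤ x by linarith)
  have b2 := f.strictMono (show x < y + (⌊x - y⌋ : ℝ) + 1 by linarith)
  rw [h1] at b2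
  rw [lifts_int h1, hy] at b1 b2
  rw [abs_lt]
  constructor <;> linarith

theorem lifts_quarter {l : ℝ} (hl : 0 < l) : -(1 / 4) < dl l (-(1 / 4)) := by
  by_contra hc
  push Not at hc
  have h1 := (dl l).strictMono (show -(1 / 2 : ℝ) < -(1 / 4) by norm_num)
  rw [lifts_neg_half] at h1
  obtain ⟨c, -, e⟩ := (lift_dl l).2 (-(1 / 4))
  set z := dl l (-(1 / 4)) with hz
  have e0 : π * (-(1 / 4)) = -(π / 4) := by ring
  have e1 := congrFun e 0
  have e2 := congrFun e 1
  simp only [Pi.smul_apply, smul_eq_mul, lifts_mv, lifts_v0, lifts_v1, basic_dia00, basic_dia01,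
    basic_dia10, basic_dia11, e0, cos_neg, sin_neg, cos_pi_div_four, sin_pi_div_four] at e1 e2
  have p := pi_pos
  have s2 : 0 < √2 / 2 := by positivity
  have c1 : 0 < cos (π * z) := cos_pos_of_mem_Ioo ⟨by nlinarith, by nlinarith⟩
  have c2 : 0 < c := by
    have : 0 < c * cos (π * z) := by rw [← e1]; nlinarith [exp_pos (l / 2)]
    exact (mul_pos_iff_of_pos_right c1).1 this
  have c3 : sin (π * z + π / 4) ≤ 0 :=
    sin_nonpos_of_nonpos_of_neg_pi_le (by nlinarith) (by nlinarith)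
  rw [sin_add, cos_pi_div_four, sin_pi_div_four] at c3
  have c4 : sin (π * z) + cos (π * z) ≤ 0 := by
    by_contra h
    push Not at h
    nlinarith [mul_pos h s2]
  have c5 : exp (-(l / 2)) < exp (l / 2) := exp_lt_exp.2 (by linarith)
  nlinarith [mul_nonneg c2.le (neg_nonneg.2 c4), mul_pos (sub_pos.2 c5) s2]

/- `exists_conj_dia`; f0 = fh * dl l * fh⁻¹ lifts g and has a fixed point, f = f0 + j, and
f (f x0) = f0 (f0 x0) + 2 j forces j = 0; `dl l` moves -1/4 upwards when l > 0. -/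
theorem Lift.exists_lt {g : G} {f : ℝ ≃o ℝ} (h : Lift g f) (hg : Hyp g) {x₀ : ℝ}
    (hx : |f (f x₀) - x₀| < 1) : ∃ x, x < f x := by
  obtain ⟨k, l, hl, hp⟩ := exists_conj_dia hg
  obtain ⟨fk, hk⟩ := exists_lift k
  have h0 : Lift g (fk * dl l * fk⁻¹) := ((hk.mul (lift_dl l)).mul hk.inv).pm hp.symm
  obtain ⟨j, hj⟩ := h0.unique h
  have fix : (fk * dl l * fk⁻¹) (fk 0) = fk 0 := by
    rw [RelIso.mul_apply, RelIso.mul_apply, RelIso.inv_apply_self, dl_zero]
  have h1 := abs_lt_of_fixed (h0.mul h0).1 (y := fk 0) (by rw [RelIso.mul_apply, fix, fix]) x₀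
  rw [RelIso.mul_apply] at h1
  rw [hj, hj, h0.add_int] at hx
  have a1 := abs_lt.1 h1
  have a2 := abs_lt.1 hx
  have h3 : (-1 : ℝ) < j := by linarith [a1.2, a2.1]
  have h4 : (j : ℝ) < 1 := by linarith [a1.1, a2.2]
  have h5 : -1 < j := by exact_mod_cast h3
  have h6 : j < 1 := by exact_mod_cast h4
  have h7 : j = 0 := by omega
  refine ⟨fk (-(1 / 4)), ?_⟩
  rw [hj, h7, RelIso.mul_apply, RelIso.mul_apply, RelIso.inv_apply_self, Int.cast_zero, add_zero]
  exact fk.strictMono (lifts_quarter hl)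

end Pool.Agent.MP_28624d_gt

end

-- part MP_28624d_gt.Hopf
section

/-!
The secant argument: a periodic polygonal path that is embedded on windows of one period has
rotation number zero.
-/

namespace Pool.Agent.MP_28624d_gt

open scoped UpperHalfPlane
open Real UpperHalfPlane Set

theorem hopf_avoid {f : ℝ → ℝ} (hf : Continuous f) {a b y : ℝ} (hab : a ≤ b)
    (h : ∀ s ∈ Icc a b, ∀ k : ℤ, f s ≠ y + k) : ⌊f a - y⌋ = ⌊f b - y⌋ := by
  by_contra hne
  rcases lt_or_gt_of_ne hne with hlt | hlt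
  · have h1 : f a - y < ⌊f b - y⌋ := Int.floor_lt.1 hlt
    have h2 := Int.floor_le (f b - y)
    obtain ⟨s, hs, e⟩ := intermediate_value_Icc hab hf.continuousOn
      (show y + (⌊f b - y⌋ : ℝ) ∈ Icc (f a) (f b) from ⟨by linarith, by linarith⟩)
    exact h s hs _ e
  · have h1 : f b - y < ⌊f a - y⌋ := Int.floor_lt.1 hlt
    have h2 := Int.floor_le (f a - y)
    obtain ⟨s, hs, e⟩ := intermediate_value_Icc' hab hf.continuousOn
      (show y + (⌊f a - y⌋ : ℝ) ∈ Icc (f b) (f a) from ⟨by linarith, by linarith⟩)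
    exact h s hs _ e

theorem hopf_floor_half (k : ℤ) (x : ℝ) (hx : |x| < 1 / 2) : ⌊x + k - 1 / 2⌋ = k - 1 := by
  rw [Int.floor_eq_iff]
  have := abs_lt.1 hx
  push_cast
  constructor <;> linarith [this.1, this.2]

theorem hopf_const {f : ℝ → ℝ} (hf : Continuous f) {a b : ℝ} (hab : a ≤ b)
    (h : ∀ s ∈ Icc a b, ∃ k : ℤ, f s = k) : f a = f b := by
  have h1 := hopf_avoid hf hab (y := 1 / 2) fun s hs k e => by
    obtain ⟨m, hm⟩ := h s hs
    have : (2 * m : ℝ) = 1 + 2 * k := by linarith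
    have : 2 * m = 1 + 2 * k := by exact_mod_cast this
    omega
  obtain ⟨k1, e1⟩ := h a ⟨le_rfl, hab⟩
  obtain ⟨k2, e2⟩ := h b ⟨hab, le_rfl⟩
  have f1 := hopf_floor_half k1 0 (by norm_num)
  have f2 := hopf_floor_half k2 0 (by norm_num)
  rw [zero_add] at f1 f2
  rw [e1, e2, f1, f2] at h1
  rw [e1, e2, show k1 = k2 by omega]

/-- The rank one matrix attached to the ray from `A • I` through `B • I`. -/
noncomputable def hopfN (A B : G) : Matrix (Fin 2) (Fin 2) ℝ :=
  (B : Matrix (Fin 2) (Fin 2) ℝ) * (B : Matrix (Fin 2) (Fin 2) ℝ).transpose -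
    exp (-len (A⁻¹ * B)) •
      ((A : Matrix (Fin 2) (Fin 2) ℝ) * (A : Matrix (Fin 2) (Fin 2) ℝ).transpose)

/-- `x` represents the end point of the ray from `A • I` through `B • I`. -/
def HEnd (A B : G) (x : ℝ) : Prop :=
  ∃ c : ℝ, 0 < c ∧ hopfN A B = c • Matrix.vecMulVec (vec x) (vec x)

noncomputable def hopfU (A B : G) : ℂ :=
  ((hopfN A B 0 0 - hopfN A B 1 1 : ℝ) : ℂ) + ((2 * hopfN A B 0 1 : ℝ) : ℂ) * Complex.I

theorem hopfN_apply (A B : G) (i j : Fin 2) : hopfN A B i j = B i 0 * B j 0 + B i 1 * B j 1 -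
    exp (-len (A⁻¹ * B)) * (A i 0 * A j 0 + A i 1 * A j 1) := by
  simp [hopfN, Matrix.mul_apply, Fin.sum_univ_two]

theorem hopf_rot_mul_transpose (a : ℝ) :
    (rot a : Matrix (Fin 2) (Fin 2) ℝ) * (rot a : Matrix (Fin 2) (Fin 2) ℝ).transpose = 1 := by
  have := sin_sq_add_cos_sq (π * a)
  ext i j
  fin_cases i <;> fin_cases j <;> simp [rot, Matrix.mul_apply, Fin.sum_univ_two] <;> nlinarith

theorem hopfN_rot (A B : G) (a b : ℝ) : hopfN (A * rot a) (B * rot b) = hopfN A B := by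
  have e : ∀ (A : G) (a : ℝ), ((A * rot a : G) : Matrix (Fin 2) (Fin 2) ℝ) *
      ((A * rot a : G) : Matrix (Fin 2) (Fin 2) ℝ).transpose =
      (A : Matrix (Fin 2) (Fin 2) ℝ) * (A : Matrix (Fin 2) (Fin 2) ℝ).transpose := by
    intro A a
    rw [Matrix.SpecialLinearGroup.coe_mul, Matrix.transpose_mul, Matrix.mul_assoc,
      ← Matrix.mul_assoc (rot a : Matrix (Fin 2) (Fin 2) ℝ), hopf_rot_mul_transpose,
      Matrix.one_mul]
  have e2 : (A * rot a)⁻¹ * (B * rot b) = rot (-a) * (A⁻¹ * B) * rot b := by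
    rw [rot_neg]; group
  rw [hopfN, hopfN, e, e, e2, len_mul_rot, len_rot_mul]

theorem HEnd.rot {A B : G} {x : ℝ} (a b : ℝ) : HEnd (A * rot a) (B * rot b) x ↔ HEnd A B x := by
  rw [HEnd, HEnd, hopfN_rot]

theorem hopfN_mul (h A B : G) : hopfN (h * A) (h * B) =
    (h : Matrix (Fin 2) (Fin 2) ℝ) * hopfN A B * (h : Matrix (Fin 2) (Fin 2) ℝ).transpose := by
  have e2 : (h * A)⁻¹ * (h * B) = A⁻¹ * B := by group
  rw [hopfN, hopfN, e2]
  simp only [Matrix.SpecialLinearGroup.coe_mul, Matrix.transpose_mul, Matrix.mul_sub,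
    Matrix.sub_mul, Matrix.mul_smul, Matrix.smul_mul, Matrix.mul_assoc]

theorem HEnd.mul {h A B : G} {f : ℝ ≃o ℝ} (hf : Lift h f) {x : ℝ} (hx : HEnd A B x) :
    HEnd (h * A) (h * B) (f x) := by
  obtain ⟨c, hc, e⟩ := hx
  obtain ⟨d, hd, e'⟩ := hf.2 x
  refine ⟨c * d ^ 2, by positivity, ?_⟩
  rw [hopfN_mul, e, Matrix.mul_smul, Matrix.smul_mul, Matrix.mul_vecMulVec, Matrix.vecMulVec_mul,
    Matrix.vecMul_transpose, e', Matrix.smul_vecMulVec, Matrix.vecMulVec_smul, smul_smul,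
    smul_smul, sq, mul_assoc]

theorem HEnd.of_mul {h A B : G} {f : ℝ ≃o ℝ} (hf : Lift h f) {x : ℝ}
    (hx : HEnd (h * A) (h * B) x) : HEnd A B (f⁻¹ x) := by
  simpa using hx.mul hf.inv

theorem hopf_end_dia {L : ℝ} (hL : 0 < L) : HEnd 1 (dia L) 0 := by
  refine ⟨exp L - exp (-L), sub_pos.2 (exp_lt_exp.2 (by linarith)), ?_⟩
  have e1 : exp (L / 2) * exp (L / 2) = exp L := by rw [← exp_add]; ring_nf
  have e2 : exp (-(L / 2)) * exp (-(L / 2)) = exp (-L) := by rw [← exp_add]; ring_nf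
  ext i j
  rw [hopfN_apply, inv_one, one_mul, len_dia, abs_of_pos hL]
  fin_cases i <;> fin_cases j <;> simp [dia, vec, e1, e2]

theorem hopf_exists_end {A B : G} (h : A • I ≠ B • I) : ∃ x, HEnd A B x := by
  obtain ⟨θ, ψ, e⟩ := kak (A⁻¹ * B)
  have hL : 0 < len (A⁻¹ * B) := by rw [← dist_smul_I]; exact dist_pos.2 h
  obtain ⟨f, hf⟩ := exists_lift (A * rot θ)
  have h1 := (hopf_end_dia hL).mul hf
  have e2 : A * rot θ * dia (len (A⁻¹ * B)) = B * rot (-ψ) := by
    rw [rot_neg, eq_mul_inv_iff_mul_eq, mul_assoc, mul_assoc, ← mul_assoc (rot θ), ← e]; group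
  rw [mul_one, e2, HEnd.rot] at h1
  exact ⟨_, h1⟩

theorem HEnd.u {A B : G} {x : ℝ} (hx : HEnd A B x) :
    ∃ t : ℝ, hopfU A B = Complex.exp (t + (2 * π * x : ℝ) * Complex.I) := by
  obtain ⟨c, hc, e⟩ := hx
  refine ⟨log c, ?_⟩
  rw [Complex.exp_add, ← Complex.ofReal_exp, exp_log hc, Complex.exp_mul_I, ← Complex.ofReal_cos,
    ← Complex.ofReal_sin, hopfU, e, mul_assoc 2 π x, cos_two_mul', sin_two_mul]
  simp only [vec, Matrix.smul_apply, Matrix.vecMulVec_apply, smul_eq_mul, Matrix.cons_val_zero,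
    Matrix.cons_val_one]
  push_cast
  ring

theorem hopf_int_of_exp {z : ℂ} {t x : ℝ}
    (h : Complex.exp z = Complex.exp (t + (2 * π * x : ℝ) * Complex.I)) :
    ∃ k : ℤ, z.im / (2 * π) = x + k := by
  obtain ⟨k, hk⟩ := Complex.exp_eq_exp_iff_exists_int.1 h
  refine ⟨k, ?_⟩
  rw [hk]
  have := pi_pos
  simp
  field_simp

theorem HEnd.add_int {A B : G} {x : ℝ} (hx : HEnd A B x) (k : ℤ) : HEnd A B (x + k) := by
  obtain ⟨c, hc, e⟩ := hx
  refine ⟨c, hc, ?_⟩
  rcases vec_add_int x k with h | h <;> rw [h, e]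
  simp

theorem HEnd.unique {A B : G} {x y : ℝ} (hx : HEnd A B x) (hy : HEnd A B y) :
    ∃ k : ℤ, x = y + k := by
  obtain ⟨t, ht⟩ := hx.u
  obtain ⟨t', ht'⟩ := hy.u
  obtain ⟨k, hk⟩ := hopf_int_of_exp (ht.symm.trans ht')
  refine ⟨k, ?_⟩
  rw [← hk]
  have := pi_pos
  simp

theorem hopf_continuous_coe : Continuous fun A : G => (A : Matrix (Fin 2) (Fin 2) ℝ) :=
  continuous_subtype_val

theorem hopf_continuous_U {X : Type} [TopologicalSpace X] {A B : X → G} (hA : Continuous A)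
    (hB : Continuous B) : Continuous fun p => hopfU (A p) (B p) := by
  have h1 := hopf_continuous_coe.comp hA
  have h2 := hopf_continuous_coe.comp hB
  have h3 : Continuous fun p => hopfN (A p) (B p) :=
    (h2.matrix_mul h2.matrix_transpose).sub
      ((continuous_len.comp (hA.inv.mul hB)).neg.rexp.smul (h1.matrix_mul h1.matrix_transpose))
  exact (Complex.continuous_ofReal.comp ((h3.matrix_elem 0 0).sub (h3.matrix_elem 1 1))).add
    ((Complex.continuous_ofReal.comp (continuous_const.mul (h3.matrix_elem 0 1))).mul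
      continuous_const)

/-- Continuous choice of the end point. -/
theorem hopf_lift {A B : ℝ × ℝ → G} (hA : Continuous A) (hB : Continuous B)
    (h : ∀ p, A p • I ≠ B p • I) :
    ∃ Θ : ℝ × ℝ → ℝ, Continuous Θ ∧ ∀ p, HEnd (A p) (B p) (Θ p) := by
  have hs : IsSimplyConnected (univ : Set (ℝ × ℝ)) := by
    have := (convex_univ (𝕜 := ℝ) (E := ℝ × ℝ)).contractibleSpace univ_nonempty
    exact SimplyConnectedSpace.ofContractible _
  obtain ⟨f, hf, e⟩ := Complex.exists_continuousOn_eqOn_exp_comp hs isOpen_univ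
    (hopf_continuous_U hA hB).continuousOn (by
      rintro ⟨p, -, hp⟩
      obtain ⟨x, hx⟩ := hopf_exists_end (h p)
      obtain ⟨t, ht⟩ := hx.u
      exact Complex.exp_ne_zero _ (ht.symm.trans hp))
  rw [continuousOn_univ] at hf
  refine ⟨fun p => (f p).im / (2 * π), (Complex.continuous_im.comp hf).div_const _, fun p => ?_⟩
  obtain ⟨x, hx⟩ := hopf_exists_end (h p)
  obtain ⟨t, ht⟩ := hx.u
  obtain ⟨k, hk⟩ := hopf_int_of_exp ((e (mem_univ p)).trans ht)
  simp only [hk]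
  exact hx.add_int k

/-- At a corner the ray never points in the direction opposite to the incoming edge. -/
theorem hopf_corner {r r' b : ℝ} (hr : 0 ≤ r) (hr' : 0 ≤ r') (hrr : 0 < r ∨ 0 < r')
    (hb : |b| < 1 / 2) (k : ℤ) : ¬ HEnd (dia (-r)) (rot b * dia r') (1 / 2 + k) := by
  intro h
  obtain ⟨c, hc, e⟩ := (h.add_int (-k))
  have e0 := congrFun (congrFun e 0) 0
  have hcos : 0 < cos (π * b) := by
    have := abs_lt.1 hb
    exact cos_pos_of_mem_Ioo ⟨by nlinarith [pi_pos], by nlinarith [pi_pos]⟩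
  have hL := len_nonneg ((dia (-r))⁻¹ * (rot b * dia r'))
  have hL2 := len_mul_le (dia (-r)) ((dia (-r))⁻¹ * (rot b * dia r'))
  rw [mul_inv_cancel_left, len_rot_mul, len_dia, len_dia, abs_neg, abs_of_nonneg hr,
    abs_of_nonneg hr'] at hL2
  rw [hopfN_apply] at e0
  generalize len ((dia (-r))⁻¹ * (rot b * dia r')) = L at *
  have e1 : exp (r' / 2) * exp (r' / 2) = exp r' := by rw [← exp_add]; ring_nf
  have e2 : exp (-(r' / 2)) * exp (-(r' / 2)) = exp (-r') := by rw [← exp_add]; ring_nf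
  have e3 : exp (-L) * (exp (-r / 2) * exp (-r / 2)) = exp (-(L + r)) := by
    rw [← exp_add, ← exp_add]; ring_nf
  have e4 : π * (1 / 2 + k + ((-k : ℤ) : ℝ)) = π / 2 := by push_cast; ring
  simp only [vec, e4, cos_pi_div_two] at e0
  simp [rot, dia] at e0
  have e5 : cos (π * b) ^ 2 * exp r' + sin (π * b) ^ 2 * exp (-r') = exp (-(L + r)) := by
    rw [← e1, ← e2, ← e3]; linarith
  have e6 := sin_sq_add_cos_sq (π * b)
  rcases hr'.eq_or_lt with h0 | h0
  · subst h0
    have : exp (-(L + r)) < 1 := exp_lt_one_iff.2 (by rcases hrr with h | h <;> linarith)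
    rw [neg_zero, exp_zero] at e5
    linarith
  · have a1 : exp (-(L + r)) ≤ exp (-r') := exp_le_exp.2 (by linarith)
    have a2 : exp (-r') < exp r' := exp_lt_exp.2 (by linarith)
    have a3 : 0 < cos (π * b) ^ 2 := by positivity
    have : sin (π * b) ^ 2 = 1 - cos (π * b) ^ 2 := by linarith
    rw [this] at e5
    nlinarith

/-- The repelling eigendirection is never the end point of the ray through `A • I`, `w A • I`. -/
theorem hopf_eigen {w A : G} {y c : ℝ} (hc1 : |c| ≤ 1)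
    (h : (w : Matrix (Fin 2) (Fin 2) ℝ).mulVec (vec y) = c • vec y) (hne : A • I ≠ (w * A) • I) :
    ¬ HEnd A (w * A) y := by
  rintro ⟨d, hd, e⟩
  have hL : 0 < len (A⁻¹ * (w * A)) := by rw [← dist_smul_I]; exact dist_pos.2 hne
  have hE : exp (-len (A⁻¹ * (w * A))) < 1 := exp_lt_one_iff.2 (by linarith)
  have hE0 := exp_pos (-len (A⁻¹ * (w * A)))
  have h0 := congrFun h 0
  have h1 := congrFun h 1
  have e00 := congrFun (congrFun e 0) 0
  have e01 := congrFun (congrFun e 0) 1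
  have e11 := congrFun (congrFun e 1) 1
  rw [hopfN_apply] at e00 e01 e11
  have dw := w.det_coe
  have dA := A.det_coe
  rw [Matrix.det_fin_two] at dw dA
  have hsc := sin_sq_add_cos_sq (π * y)
  generalize exp (-len (A⁻¹ * (w * A))) = E at *
  simp [vec, Matrix.mulVec, dotProduct, Matrix.mul_apply, Fin.sum_univ_two] at h0 h1 e00 e01 e11
  generalize cos (π * y) = p at *
  generalize sin (π * y) = q at *
  generalize w 0 0 = w1 at *
  generalize w 0 1 = w2 at *
  generalize w 1 0 = w3 at *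
  generalize w 1 1 = w4 at *
  generalize A 0 0 = a1 at *
  generalize A 0 1 = a2 at *
  generalize A 1 0 = a3 at *
  generalize A 1 1 = a4 at *
  have k1 : c * (-q * w1 + p * w3) = -q := by linear_combination w1 * h1 - w3 * h0 - q * dw
  have k2 : c * (-q * w2 + p * w4) = p := by linear_combination w2 * h1 - w4 * h0 + p * dw
  have k3 : ((-q * w1 + p * w3) * a1 + (-q * w2 + p * w4) * a3) ^ 2 +
      ((-q * w1 + p * w3) * a2 + (-q * w2 + p * w4) * a4) ^ 2 =
      E * ((-q * a1 + p * a3) ^ 2 + (-q * a2 + p * a4) ^ 2) := by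
    linear_combination q ^ 2 * e00 - 2 * p * q * e01 + p ^ 2 * e11
  generalize -q * w1 + p * w3 = z1 at *
  generalize -q * w2 + p * w4 = z2 at *
  have k4 : (-q * a1 + p * a3) ^ 2 + (-q * a2 + p * a4) ^ 2 =
      c ^ 2 * E * ((-q * a1 + p * a3) ^ 2 + (-q * a2 + p * a4) ^ 2) := by
    rw [mul_assoc, ← k3, ← k1, ← k2]; ring
  have k5 : c ^ 2 * E < 1 := by
    have : c ^ 2 ≤ 1 := by rw [← sq_abs]; nlinarith [abs_nonneg c]
    nlinarith
  have k6 : (-q * a1 + p * a3) ^ 2 + (-q * a2 + p * a4) ^ 2 = 0 := by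
    have : (1 - c ^ 2 * E) * ((-q * a1 + p * a3) ^ 2 + (-q * a2 + p * a4) ^ 2) = 0 := by
      linarith
    exact (mul_eq_zero.1 this).resolve_left (by linarith)
  have k7 := (add_eq_zero_iff_of_nonneg (sq_nonneg _) (sq_nonneg _)).1 k6
  have x1 : -q * a1 + p * a3 = 0 := pow_eq_zero_iff two_ne_zero |>.1 k7.1
  have x2 : -q * a2 + p * a4 = 0 := pow_eq_zero_iff two_ne_zero |>.1 k7.2
  have hq : q = 0 := by linear_combination (-a4) * x1 + a3 * x2 - q * dA
  have hp : p = 0 := by linear_combination (-a2) * x1 + a1 * x2 - p * dA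
  rw [hp, hq] at hsc
  norm_num at hsc

/-- The polygonal path as a continuous family of frames. -/
noncomputable def hopfA (l β : ℕ → ℝ) (m : ℕ) (s : ℝ) : G :=
  pre (fun r => dia (l r * max 0 (min 1 (s - r))) * rot (β r)) m

theorem hopfA_continuous (l β : ℕ → ℝ) (m : ℕ) : Continuous (hopfA l β m) := by
  unfold hopfA
  induction m with
  | zero => simpa using continuous_const
  | succ m ih =>
    simp only [pre_succ]
    exact ih.mul ((continuous_dia.comp (by fun_prop)).mul continuous_const)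

theorem hopfA_le (l β : ℕ → ℝ) {j : ℕ} {a : ℝ} (ha : 0 ≤ a) {m : ℕ} (hm : m ≤ j) :
    hopfA l β m (j + a) = pre (fun r => dia (l r) * rot (β r)) m := by
  unfold hopfA
  induction m with
  | zero => simp
  | succ m ih =>
    have : ((m : ℝ) + 1) ≤ j := by exact_mod_cast hm
    rw [pre_succ, pre_succ, ih (by omega), min_eq_left (by linarith), max_eq_right zero_le_one,
      mul_one]

theorem hopfA_eq (l β : ℕ → ℝ) {j : ℕ} {a : ℝ} (ha : a ∈ Icc (0 : ℝ) 1) {m : ℕ}
    (hm : j + 1 ≤ m) : ∃ ψ, hopfA l β m (j + a) =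
      pre (fun r => dia (l r) * rot (β r)) j * dia (l j * a) * rot ψ := by
  induction m, hm using Nat.le_induction with
  | base =>
    refine ⟨β j, ?_⟩
    rw [← hopfA_le l β ha.1 le_rfl, hopfA, pre_succ, add_sub_cancel_left, min_eq_right ha.2,
      max_eq_right ha.1, ← mul_assoc]
    rfl
  | succ m hm ih =>
    obtain ⟨ψ, e⟩ := ih
    refine ⟨ψ + β m, ?_⟩
    have : ((j : ℝ) + 1) ≤ m := by exact_mod_cast hm
    rw [hopfA, pre_succ, max_eq_left (min_le_of_right_le (by linarith [ha.2])), mul_zero, dia_zero,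
      one_mul, rot_add, ← mul_assoc, ← e]
    rfl

theorem hopf_beta {P : ℕ} (hP : 0 < P) {l β : ℕ → ℝ} (hl : ∀ i, 0 < l i)
    (hβ : ∀ i, |β i| ≤ 1 / 2)
    (inj : ∀ (i j : ℕ) (a b : ℝ), a ∈ Ico (0 : ℝ) 1 → b ∈ Ioc (0 : ℝ) 1 → (i : ℝ) + a < j + b →
      (j : ℝ) + b ≤ i + a + P →
      (pre (fun r => dia (l r) * rot (β r)) i * dia (l i * a)) • I ≠
        (pre (fun r => dia (l r) * rot (β r)) j * dia (l j * b)) • I) (i : ℕ) :
    |β i| < 1 / 2 := by
  refine lt_of_le_of_ne (hβ i) fun h => ?_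
  have h1 := hl i
  have h2 := hl (i + 1)
  obtain ⟨r, hr, r1, r2⟩ : ∃ r, 0 < r ∧ r / l i ≤ 1 / 2 ∧ r / l (i + 1) ≤ 1 / 2 :=
    ⟨min (l i) (l (i + 1)) / 2, half_pos (lt_min h1 h2),
      by rw [div_le_iff₀ h1]; linarith [min_le_left (l i) (l (i + 1))],
      by rw [div_le_iff₀ h2]; linarith [min_le_right (l i) (l (i + 1))]⟩
  have p1 := div_pos hr h1
  have p2 := div_pos hr h2
  have hP' : (1 : ℝ) ≤ P := by exact_mod_cast hP
  refine inj i (i + 1) (1 - r / l i) (r / l (i + 1)) ⟨by linarith, by linarith⟩ ⟨p2, by linarith⟩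
    (by push_cast; linarith) (by push_cast; linarith) ?_
  have e : rot (β i) * dia r = dia (-r) * rot (β i) := by
    rcases (abs_eq (by norm_num)).1 h with h | h <;> rw [h]
    · rw [← rot_half_dia, rot_neg]; group
    · have := rot_half_dia (-r)
      rw [neg_neg] at this
      rw [← this, rot_neg]; group
  rw [pre_succ, show l i * (1 - r / l i) = l i + -r by field_simp; ring,
    show l (i + 1) * (r / l (i + 1)) = r by field_simp, dia_add, mul_assoc, mul_assoc, e,
    ← mul_assoc, ← mul_assoc, ← mul_assoc, mul_smul _ (rot (β i)), rot_smul_I]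

theorem hopf (P : ℕ) (hP : 0 < P) (l β : ℕ → ℝ) (hlP : ∀ i, l (i + P) = l i)
    (hβP : ∀ i, β (i + P) = β i) (hl : ∀ i, 0 < l i) (hβ : ∀ i, |β i| ≤ 1 / 2)
    (inj : ∀ (i j : ℕ) (a b : ℝ), a ∈ Ico (0 : ℝ) 1 → b ∈ Ioc (0 : ℝ) 1 → (i : ℝ) + a < j + b →
      (j : ℝ) + b ≤ i + a + P →
      (pre (fun r => dia (l r) * rot (β r)) i * dia (l i * a)) • I ≠
        (pre (fun r => dia (l r) * rot (β r)) j * dia (l j * b)) • I)
    (htr : 2 ≤ |tr (pre (fun r => dia (l r) * rot (β r)) P)|) :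
    ∃ y, pre (fun r => dl (l r) * T (β r)) P y = y := by
  have hβ' := hopf_beta hP hl hβ inj
  have hP' : (1 : ℝ) ≤ P := by exact_mod_cast hP
  have hA : ∀ j ≤ 2 * P, ∀ a ∈ Icc (0 : ℝ) 1, ∃ ψ, hopfA l β (2 * P + 1) (j + a) =
      pre (fun r => dia (l r) * rot (β r)) j * dia (l j * a) * rot ψ :=
    fun j hj a ha => hopfA_eq l β ha (by omega)
  have hAc := hopfA_continuous l β (2 * P + 1)
  generalize hopfA l β (2 * P + 1) = A at hA hAc
  have hg : ∀ i, Lift (pre (fun r => dia (l r) * rot (β r)) i)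
      (pre (fun r => dl (l r) * T (β r)) i) :=
    lift_pre fun i => (lift_dl _).mul (lift_rot _)
  have hgs := pre_succ fun r => dia (l r) * rot (β r)
  have hgls := pre_succ fun r => dl (l r) * T (β r)
  have hg0 := pre_zero fun r => dia (l r) * rot (β r)
  have hgl0 := pre_zero fun r => dl (l r) * T (β r)
  generalize pre (fun r => dia (l r) * rot (β r)) = g at *
  generalize pre (fun r => dl (l r) * T (β r)) = gl at *
  have hgP : ∀ i, g (i + P) = g P * g i := by
    intro i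
    induction i with
    | zero => simp [hg0]
    | succ i ih => rw [Nat.add_right_comm, hgs, hgs, ih, hlP, hβP, mul_assoc]
  have hne : ∀ s t : ℝ, 0 ≤ s → s ≤ P → s < t → t ≤ s + P → A s • I ≠ A t • I := by
    intro s t h0 h1 h2 h3
    have i1 := Nat.floor_le h0
    have i2 := Nat.lt_floor_add_one s
    obtain ⟨j, hj⟩ : ∃ j, ⌈t⌉₊ = j + 1 :=
      Nat.exists_eq_succ_of_ne_zero (Nat.ceil_pos.2 (by linarith)).ne'
    have j1 := (Nat.ceil_eq_iff (Nat.succ_ne_zero j)).1 hj
    simp only [Nat.succ_sub_one, Nat.succ_eq_add_one, Nat.cast_add, Nat.cast_one] at j1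
    obtain ⟨ψ, e⟩ := hA ⌊s⌋₊ (by
      have : (⌊s⌋₊ : ℝ) ≤ 2 * P := by linarith
      exact_mod_cast this) (s - ⌊s⌋₊) ⟨by linarith, by linarith⟩
    obtain ⟨ψ', e'⟩ := hA j (by
      have : (j : ℝ) ≤ 2 * P := by linarith [j1.1]
      exact_mod_cast this) (t - j) ⟨by linarith [j1.1], by linarith [j1.2]⟩
    rw [add_sub_cancel] at e e'
    rw [e, e', mul_smul _ (rot ψ), mul_smul _ (rot ψ'), rot_smul_I, rot_smul_I]
    exact inj _ _ _ _ ⟨by linarith, by linarith⟩ ⟨by linarith [j1.1], by linarith [j1.2]⟩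
      (by linarith) (by linarith)
  have hper : ∀ s ∈ Icc (0 : ℝ) P, ∃ ψ, A (s + P) = g P * A s * rot ψ := by
    intro s hs
    have i1 := Nat.floor_le hs.1
    have i2 := Nat.lt_floor_add_one s
    have i3 : ⌊s⌋₊ ≤ P := by
      have : (⌊s⌋₊ : ℝ) ≤ P := by linarith [hs.2]
      exact_mod_cast this
    obtain ⟨ψ, e⟩ := hA ⌊s⌋₊ (by omega) (s - ⌊s⌋₊) ⟨by linarith, by linarith⟩
    obtain ⟨ψ', e'⟩ := hA (⌊s⌋₊ + P) (by omega) (s - ⌊s⌋₊) ⟨by linarith, by linarith⟩
    rw [add_sub_cancel] at e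
    rw [show ((⌊s⌋₊ + P : ℕ) : ℝ) + (s - ⌊s⌋₊) = s + P by push_cast; ring, hgP, hlP] at e'
    refine ⟨-ψ + ψ', ?_⟩
    rw [e', e, rot_add, rot_neg]; group
  obtain ⟨Θ, hΘc, hΘ'⟩ := hopf_lift (A := fun p => A (max 0 (min (P : ℝ) p.1)))
    (B := fun p => A (max 0 (min (P : ℝ) p.1) + max (1 / 2) (min (P : ℝ) p.2)))
    (hAc.comp (by fun_prop))
    (hAc.comp (by fun_prop)) fun p => hne _ _ (le_max_left _ _)
      (max_le (by linarith) (min_le_left _ _)) (by linarith [le_max_left (1 / 2) (min (P : ℝ) p.2)])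
      (by linarith [max_le (show (1 / 2 : ℝ) ≤ P by linarith) (min_le_left (P : ℝ) p.2)])
  have hΘ : ∀ s ∈ Icc (0 : ℝ) P, ∀ d ∈ Icc (1 / 2 : ℝ) P, HEnd (A s) (A (s + d)) (Θ (s, d)) := by
    intro s hs d hd
    have := hΘ' (s, d)
    simp only [min_eq_right hs.2, min_eq_right hd.2, max_eq_right hs.1, max_eq_right hd.1] at this
    exact this
  have hh : (1 / 2 : ℝ) ∈ Icc (1 / 2 : ℝ) P := ⟨le_rfl, by linarith⟩
  have edge : ∀ j ≤ P, ∀ a ∈ Icc (0 : ℝ) (1 / 2),
      HEnd (A (j + a)) (A (j + a + 1 / 2)) (gl j 0) := by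
    intro j hj a ha
    obtain ⟨ψ, e⟩ := hA j (by omega) a ⟨ha.1, by linarith [ha.2]⟩
    obtain ⟨ψ', e'⟩ := hA j (by omega) (a + 1 / 2) ⟨by linarith [ha.1], by linarith [ha.2]⟩
    have := (hopf_end_dia (half_pos (hl j))).mul ((hg j).mul (lift_dl (l j * a)))
    rw [RelIso.mul_apply, dl_zero, mul_one, mul_assoc, ← dia_add] at this
    rw [add_assoc, e, e', HEnd.rot, show l j * (a + 1 / 2) = l j * a + l j / 2 by ring]
    exact this
  obtain ⟨k0, hk0⟩ : ∃ k : ℤ, Θ (0, 1 / 2) = k := by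
    have h1 := edge 0 (Nat.zero_le _) 0 ⟨le_rfl, by norm_num⟩
    simp only [Nat.cast_zero, add_zero] at h1
    obtain ⟨k, hk⟩ := (hΘ 0 ⟨le_rfl, by linarith⟩ _ hh).unique h1
    exact ⟨k, by simpa [hgl0] using hk⟩
  have hφ : ∀ j ≤ P, Θ (j, 1 / 2) = gl j 0 + k0 := by
    intro j
    induction j with
    | zero => intro _; rw [Nat.cast_zero, hk0, hgl0]; simp
    | succ j ih =>
      intro hj
      have hj' : (j : ℝ) + 1 ≤ P := by exact_mod_cast hj
      have hj0 : (0 : ℝ) ≤ j := j.cast_nonneg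
      have s1 := hopf_const (f := fun s => Θ (s, 1 / 2) - gl j 0) (by fun_prop)
        (show (j : ℝ) ≤ j + 1 / 2 by linarith) fun s hs => by
          have h1 := edge j (by omega) (s - j) ⟨by linarith [hs.1], by linarith [hs.2]⟩
          rw [add_sub_cancel] at h1
          obtain ⟨k, hk⟩ := (hΘ s ⟨by linarith [hs.1], by linarith [hs.2]⟩ _ hh).unique h1
          exact ⟨k, by linarith⟩
      have hh' := (hg j).mul (lift_dl (l j))
      have s2 := hopf_avoid (f := fun s => (gl j * dl (l j))⁻¹ (Θ (s, 1 / 2))) (y := 1 / 2)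
        ((OrderIso.continuous _).comp (by fun_prop))
        (show (j : ℝ) + 1 / 2 ≤ j + 1 by linarith) fun s hs k hk => by
          have h1 := hΘ s ⟨by linarith [hs.1], by linarith [hs.2]⟩ _ hh
          obtain ⟨ψ, e⟩ := hA j (by omega) (s - j) ⟨by linarith [hs.1], by linarith [hs.2]⟩
          obtain ⟨ψ', e'⟩ := hA (j + 1) (by omega) (s - j - 1 / 2)
            ⟨by linarith [hs.1], by linarith [hs.2]⟩
          rw [add_sub_cancel] at e
          rw [show ((j + 1 : ℕ) : ℝ) + (s - j - 1 / 2) = s + 1 / 2 by push_cast; ring] at e'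
          rw [e, e', HEnd.rot, hgs, show l j * (s - j) = l j + -(l j * (j + 1 - s)) by ring,
            dia_add, ← mul_assoc, ← mul_assoc, mul_assoc _ (rot _)] at h1
          have h2 := HEnd.of_mul hh' h1
          rw [hk] at h2
          refine hopf_corner (mul_nonneg (hl j).le (by linarith [hs.2]))
            (mul_nonneg (hl _).le (by linarith [hs.1])) ?_ (hβ' j) k h2
          rcases hs.2.eq_or_lt with h | h
          · exact Or.inr (mul_pos (hl _) (by linarith))
          · exact Or.inl (mul_pos (hl _) (by linarith))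
      have h1 := edge (j + 1) hj 0 ⟨le_rfl, by norm_num⟩
      rw [add_zero] at h1
      obtain ⟨k, hk⟩ := (hΘ ((j + 1 : ℕ) : ℝ) ⟨by positivity, by exact_mod_cast hj⟩ _ hh).unique h1
      have v1 : Θ ((j : ℝ) + 1 / 2, 1 / 2) = (gl j * dl (l j)) (0 + k0) := by
        rw [hh'.add_int, RelIso.mul_apply, dl_zero, ← ih (by omega)]
        linarith
      have v2 : Θ ((j : ℝ) + 1, 1 / 2) = (gl j * dl (l j)) (β j + k) := by
        rw [hh'.add_int, ← Nat.cast_succ, hk, hgls]
        simp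
      simp only [v1, v2, RelIso.inv_apply_self] at s2
      rw [hopf_floor_half _ _ (by norm_num), hopf_floor_half _ _ (hβ' j)] at s2
      rw [hk, show k = k0 by omega]
  have hPP : (P : ℝ) ∈ Icc (0 : ℝ) P := ⟨by linarith, le_rfl⟩
  have h0P : (0 : ℝ) ∈ Icc (0 : ℝ) P := ⟨le_rfl, by linarith⟩
  have s5 := hopf_const (f := fun d => Θ (P, d) - gl P (Θ (0, d)))
    ((by fun_prop : Continuous fun d => Θ (P, d)).sub ((OrderIso.continuous _).comp (by fun_prop)))
    hh.2 fun d hd => by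
      have h1 := hΘ P hPP d hd
      have h2 := (hΘ 0 h0P d hd).mul (hg P)
      obtain ⟨ψ, e⟩ := hper 0 h0P
      obtain ⟨ψ', e'⟩ := hper d ⟨by linarith [hd.1], hd.2⟩
      rw [zero_add] at e h2
      rw [add_comm, e', e, HEnd.rot] at h1
      obtain ⟨k, hk⟩ := h1.unique h2
      exact ⟨k, by linarith⟩
  have s5' : Θ (P, P) = gl P (Θ (0, P)) := by
    have := (hg P).add_int 0 k0
    rw [zero_add] at this
    simp only [hφ P le_rfl, hk0, this] at s5
    linarith
  obtain ⟨y, c, hc0, hc1, hy⟩ := exists_eigen htr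
  obtain ⟨c', hc', hy'⟩ := (hg P).2 y
  obtain ⟨j, hj⟩ := vec_parallel (x := gl P y) (y := y) (c := c'⁻¹ * c) (by
    rw [mul_smul, ← hy, hy', smul_smul, inv_mul_cancel₀ hc', one_smul])
  have s6 := hopf_avoid (f := fun s => Θ (s, P)) (y := y) (by fun_prop) hPP.1 fun s hs k hk => by
    have h1 := (hΘ s hs P ⟨hh.2, le_rfl⟩).add_int (-k)
    have h2 := hne s (s + P) hs.1 hs.2 (by linarith) le_rfl
    obtain ⟨ψ, e⟩ := hper s hs
    rw [e, mul_smul, rot_smul_I] at h2
    have h3 : A s = A s * rot 0 := by rw [rot_zero, mul_one]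
    rw [e, hk, show y + k + ((-k : ℤ) : ℝ) = y by push_cast; ring] at h1
    nth_rewrite 1 [h3] at h1
    rw [HEnd.rot] at h1
    exact hopf_eigen hc1 hy h2 h1
  refine ⟨y, ?_⟩
  have b1 := Int.floor_le (Θ (0, P) - y)
  have b2 := Int.lt_floor_add_one (Θ (0, P) - y)
  have b3 := Int.floor_le (Θ (P, P) - y)
  have b4 := Int.lt_floor_add_one (Θ (P, P) - y)
  rw [← s6] at b3 b4
  generalize ⌊Θ (0, P) - y⌋ = n at *
  have c1 := (gl P).monotone (show y + n ≤ Θ (0, P) by linarith)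
  have c2 := (gl P).strictMono (show Θ (0, P) < y + (n + 1 : ℤ) by push_cast; linarith)
  rw [(hg P).add_int, ← s5', hj] at c1 c2
  push_cast at c2
  have d1 : (j : ℝ) < 1 := by linarith
  have d2 : (-1 : ℝ) < j := by linarith
  have d3 : j < 1 := by exact_mod_cast d1
  have d4 : -1 < j := by exact_mod_cast d2
  rw [hj, show j = 0 by omega]
  simp

end Pool.Agent.MP_28624d_gt

end

-- part MP_28624d_gt.Moves
section

/-!
Moves on marked carrier graphs: exchange, subdivision, relabelling.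
-/

namespace Pool.Agent.MP_28624d_gt

variable {n : ℕ} {ρ : F n →* G} {V E : Type} [Fintype V] [Fintype E]

theorem moves_transfer {V E V' E' H : Type} [Group H] (Γ : Gr V E) (Γ' : Gr V' E') (φ : V → V')
    (g : E → H) (g' : E' → H)
    (hE : ∀ e, ∃ q, Γ'.IsPath (φ (Γ.src e)) q (φ (Γ.tgt e)) ∧ lab g' q = g e)
    {u v : V} {p : List (E × Bool)} (hp : Γ.IsPath u p v) :
    ∃ q, Γ'.IsPath (φ u) q (φ v) ∧ lab g' q = lab g p := by
  induction p generalizing u with
  | nil =>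
    cases hp
    exact ⟨[], rfl, by simp⟩
  | cons d p ih =>
    obtain ⟨h1, h2⟩ := hp
    subst h1
    obtain ⟨q, hq, hl⟩ := ih h2
    obtain ⟨e, b⟩ := d
    obtain ⟨q0, hq0, hl0⟩ := hE e
    cases b
    · refine ⟨FreeGroup.invRev q0 ++ q, Γ'.isPath_append (Γ'.isPath_invRev hq0) hq, ?_⟩
      rw [lab_append, lab_invRev, hl0, hl, lab_cons]
      rfl
    · refine ⟨q0 ++ q, Γ'.isPath_append hq0 hq, ?_⟩
      rw [lab_append, hl0, hl, lab_cons]
      rfl

theorem moves_lab_update {E H : Type} [DecidableEq E] [Group H] (g : E → H) {e : E} (x : H)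
    {p : List (E × Bool)} (hp : Avoid e p) : lab (Function.update g e x) p = lab g p := by
  induction p with
  | nil => simp
  | cons d p ih =>
    rw [lab_cons, lab_cons, ih fun d' hd' => hp d' (List.mem_cons_of_mem _ hd')]
    have hd : d.1 ≠ e := hp d List.mem_cons_self
    simp [dlab, Function.update_of_ne hd]

theorem moves_isPath_exch {V E : Type} [DecidableEq E] (Γ : Gr V E) {e : E} (a b : V) {u v : V}
    {p : List (E × Bool)} (hp : Γ.IsPath u p v) (he : Avoid e p) :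
    (Γ.exch e a b).IsPath u p v := by
  induction p generalizing u with
  | nil => exact hp
  | cons d p ih =>
    have hd : d.1 ≠ e := he d List.mem_cons_self
    have h1 : (Γ.exch e a b).st d = Γ.st d := by
      simp [Gr.st, Gr.exch, Function.update_of_ne hd]
    have h2 : (Γ.exch e a b).en d = Γ.en d := by
      simp [Gr.en, Gr.exch, Function.update_of_ne hd]
    refine ⟨h1.trans hp.1, ?_⟩
    rw [h2]
    exact ih hp.2 fun d' hd' => he d' (List.mem_cons_of_mem _ hd')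

theorem marked_exch [DecidableEq E] {Γ : Gr V E} {g : E → F n} (hg : Marked n Γ g) {e : E}
    {u v : V} {p : List (E × Bool)} (hp : Γ.IsPath u p v) (he : Once e p) :
    Marked n (Γ.exch e u v) (Function.update g e (lab g p)) := by
  obtain ⟨p₁, p₂, b, rfl, a1, a2⟩ := he
  obtain ⟨x, hx, hy, hz⟩ := Γ.isPath_append_iff.1 hp
  subst hy
  refine ⟨hg.ne, hg.card, fun s t γ => ?_, fun H _ μ' => ?_⟩
  · obtain ⟨q, hq, rfl⟩ := hg.gen s t γ
    refine moves_transfer Γ (Γ.exch e u v) id g _ (fun e' => ?_) hq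
    by_cases hee : e' = e
    · subst hee
      have k1 : (Γ.exch e' u v).IsPath (Γ.st (e', b))
          (FreeGroup.invRev p₁ ++ (e', true) :: FreeGroup.invRev p₂) (Γ.en (e', b)) := by
        refine Gr.isPath_append _ (Gr.isPath_invRev _ (moves_isPath_exch Γ u v hx a1)) ⟨?_, ?_⟩
        · simp [Gr.st, Gr.exch]
        · have : (Γ.exch e' u v).en (e', true) = v := by simp [Gr.en, Gr.exch]
          rw [this]
          exact Gr.isPath_invRev _ (moves_isPath_exch Γ u v hz a2)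
      have k2 : lab (Function.update g e' (lab g (p₁ ++ (e', b) :: p₂)))
          (FreeGroup.invRev p₁ ++ (e', true) :: FreeGroup.invRev p₂) = dlab g (e', b) := by
        rw [lab_append, lab_cons, lab_invRev, lab_invRev, moves_lab_update g _ a1,
          moves_lab_update g _ a2]
        simp [dlab, mul_assoc]
      cases b
      · refine ⟨_, Gr.isPath_invRev _ k1, ?_⟩
        rw [lab_invRev, k2]
        simp [dlab]
      · exact ⟨_, k1, k2⟩
    · refine ⟨[(e', true)], ⟨?_, ?_⟩, ?_⟩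
      · simp [Gr.st, Gr.exch, Function.update_of_ne hee]
      · simp [Gr.en, Gr.exch, Gr.IsPath, Function.update_of_ne hee]
      · simp [dlab, Function.update_of_ne hee]
  · set w : H := (lab μ' p₁)⁻¹ * μ' e * (lab μ' p₂)⁻¹ with hw
    obtain ⟨r, h, hr⟩ := hg.free H (Function.update μ' e (cond b w w⁻¹))
    refine ⟨r, h, fun e' => ?_⟩
    by_cases hee : e' = e
    · subst hee
      have k := Γ.lab_gauge r g _ h hr hp
      have k2 : dlab (Function.update μ' e' (cond b w w⁻¹)) (e', b) = w := by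
        cases b <;> simp [dlab]
      rw [lab_append (Function.update μ' e' (cond b w w⁻¹)), lab_cons, k2,
        moves_lab_update μ' _ a1, moves_lab_update μ' _ a2, hw] at k
      simp only [Gr.exch, Function.update_self]
      rw [k]
      simp [mul_assoc]
    · simpa [Gr.exch, Function.update_of_ne hee] using hr e'

theorem good_exch [DecidableEq E] {Γ : Gr V E} {M : E → G} (hM : Good ρ Γ M) {e : E}
    {u v : V} {p : List (E × Bool)} (hp : Γ.IsPath u p v) (he : Once e p) :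
    Good ρ (Γ.exch e u v) (Function.update M e (lab M p)) := by
  obtain ⟨g, h, hg, hh⟩ := hM
  refine ⟨_, h, marked_exch hg hp he, fun e' => ?_⟩
  by_cases hee : e' = e
  · subst hee
    simp only [Gr.exch, Function.update_self]
    exact Γ.lab_gauge ρ g M h hh hp
  · simpa [Gr.exch, Function.update_of_ne hee] using hh e'

theorem cl_exch [DecidableEq E] {Γ : Gr V E} {M : E → G} (hM : M ∈ Cl ρ Γ) {e : E}
    {u v : V} {p : List (E × Bool)} (hp : Γ.IsPath u p v) (he : Once e p) :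
    Function.update M e (lab M p) ∈ Cl ρ (Γ.exch e u v) :=
  map_mem_closure (f := fun M : E → G => Function.update M e (lab M p))
    (continuous_id.update e (continuous_lab p)) hM fun _ hN => good_exch hN hp he

theorem moves_marked_sub3 {Γ : Gr V E} {g : E → F n} (hg : Marked n Γ g) :
    Marked n Γ.sub3 fun x => ![1, 1, g x.1] x.2 := by
  refine ⟨hg.ne.map Sum.inl, ?_, fun s t γ => ?_, fun H _ μ' => ?_⟩
  · have := hg.card
    simp only [Fintype.card_prod, Fintype.card_sum, Fintype.card_fin, Fintype.card_bool]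
    omega
  · have base : ∀ x : V ⊕ E × Bool, ∃ (a : V) (q : List ((E × Fin 3) × Bool)),
        Γ.sub3.IsPath (Sum.inl a) q x ∧
          lab (fun x : E × Fin 3 => (![1, 1, g x.1] x.2 : F n)) q = 1 := by
      rintro (a | ⟨e, b⟩)
      · exact ⟨a, [], rfl, by simp⟩
      · cases b
        · exact ⟨Γ.src e, [((e, 0), true)], ⟨rfl, rfl⟩, by simp [dlab]⟩
        · exact ⟨Γ.src e, [((e, 0), true), ((e, 1), true)], ⟨rfl, rfl, rfl⟩, by simp [dlab]⟩
    obtain ⟨a, q1, h1, l1⟩ := base s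
    obtain ⟨b, q2, h2, l2⟩ := base t
    obtain ⟨q, hq, rfl⟩ := hg.gen a b γ
    obtain ⟨q', hq', l3⟩ := moves_transfer Γ Γ.sub3 Sum.inl g
      (fun x : E × Fin 3 => (![1, 1, g x.1] x.2 : F n))
      (fun e => ⟨[((e, 0), true), ((e, 1), true), ((e, 2), true)], ⟨rfl, rfl, rfl, rfl⟩,
        by simp [dlab]⟩) hq
    refine ⟨FreeGroup.invRev q1 ++ (q' ++ q2),
      Gr.isPath_append _ (Gr.isPath_invRev _ h1) (Gr.isPath_append _ hq' h2), ?_⟩
    rw [lab_append, lab_append, lab_invRev, l1, l2, l3]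
    simp
  · obtain ⟨r, h, hr⟩ := hg.free H fun e => μ' (e, 0) * μ' (e, 1) * μ' (e, 2)
    refine ⟨r, Sum.elim h fun x => cond x.2 (h (Γ.src x.1) * μ' (x.1, 0) * μ' (x.1, 1))
      (h (Γ.src x.1) * μ' (x.1, 0)), ?_⟩
    rintro ⟨e, i⟩
    fin_cases i
    · simp [Gr.sub3]
    · simp [Gr.sub3, mul_assoc]
    · simp [Gr.sub3, hr e, mul_assoc]

theorem moves_good_sub3 {Γ : Gr V E} {M : E → G} (hM : Good ρ Γ M) (X Y : E → G) :
    Good ρ Γ.sub3 (sub3M M X Y) := by
  obtain ⟨g, h, hg, hh⟩ := hM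
  refine ⟨_, Sum.elim h fun x => cond x.2 (h (Γ.src x.1) * Y x.1) (h (Γ.src x.1) * X x.1),
    moves_marked_sub3 hg, ?_⟩
  rintro ⟨e, i⟩
  fin_cases i
  · simp [Gr.sub3, sub3M]
  · simp [Gr.sub3, sub3M, mul_assoc]
  · simp [Gr.sub3, sub3M, hh e, mul_assoc]

theorem cl_sub3 {Γ : Gr V E} {M : E → G} (hM : M ∈ Cl ρ Γ) (X Y : E → G) :
    sub3M M X Y ∈ Cl ρ Γ.sub3 := by
  refine map_mem_closure (f := fun M : E → G => sub3M M X Y) ?_ hM
    fun _ hN => moves_good_sub3 hN X Y
  refine continuous_pi ?_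
  rintro ⟨e, i⟩
  fin_cases i
  · exact continuous_const
  · exact continuous_const
  · exact continuous_const.mul (continuous_apply e)

theorem moves_good_reindex {V' E' : Type} [Fintype V'] [Fintype E'] (eV : V ≃ V') (eE : E ≃ E')
    {Γ : Gr V E} {M : E → G} (hM : Good ρ Γ M) :
    Good ρ (⟨eV ∘ Γ.src ∘ eE.symm, eV ∘ Γ.tgt ∘ eE.symm⟩ : Gr V' E') (M ∘ eE.symm) := by
  obtain ⟨g, h, hg, hh⟩ := hM
  refine ⟨g ∘ eE.symm, h ∘ eV.symm, ⟨hg.ne.map eV, ?_, fun s t γ => ?_, fun H _ μ' => ?_⟩,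
    fun e => by simpa using hh (eE.symm e)⟩
  · rw [← Fintype.card_congr eV, ← Fintype.card_congr eE]
    exact hg.card
  · obtain ⟨q, hq, rfl⟩ := hg.gen (eV.symm s) (eV.symm t) γ
    have := moves_transfer Γ (⟨eV ∘ Γ.src ∘ eE.symm, eV ∘ Γ.tgt ∘ eE.symm⟩ : Gr V' E') eV g
      (g ∘ eE.symm) (fun e => ⟨[(eE e, true)], ⟨by simp [Gr.st], by simp [Gr.en, Gr.IsPath]⟩,
        by simp [dlab]⟩) hq
    simpa using this
  · obtain ⟨r, h', hr⟩ := hg.free H (μ' ∘ eE)
    exact ⟨r, h' ∘ eV.symm, fun e => by simpa using hr (eE.symm e)⟩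

theorem cl_reindex {V' E' : Type} [Fintype V'] [Fintype E'] (eV : V ≃ V') (eE : E ≃ E')
    {Γ : Gr V E} {M : E → G} (hM : M ∈ Cl ρ Γ) :
    (M ∘ eE.symm) ∈ Cl ρ (⟨eV ∘ Γ.src ∘ eE.symm, eV ∘ Γ.tgt ∘ eE.symm⟩ : Gr V' E') :=
  map_mem_closure (f := fun M : E → G => M ∘ eE.symm)
    (continuous_pi fun e => continuous_apply (eE.symm e)) hM
    fun _ hN => moves_good_reindex eV eE hN

theorem good_rose (ρ : F n →* G) :
    Good ρ (⟨fun _ => (), fun _ => ()⟩ : Gr Unit (Fin n)) fun i => ρ (FreeGroup.of i) := by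
  refine ⟨FreeGroup.of, fun _ => 1, ⟨inferInstance, by simp, fun s t γ => ?_, fun H _ μ => ?_⟩,
    fun i => by simp⟩
  · refine ⟨γ.toWord, ?_, ?_⟩
    · generalize γ.toWord = p
      induction p generalizing s with
      | nil => rfl
      | cons d p ih => exact ⟨rfl, ih _⟩
    · rw [lab, FreeGroup.mk_toWord, FreeGroup.lift_of_apply]
  · exact ⟨FreeGroup.lift μ, fun _ => 1, fun i => by simp⟩

end Pool.Agent.MP_28624d_gt

end

-- part MP_28624d_gt.Jorg
section

/-!
A Jorgensen type inequality for purely hyperbolic groups.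
-/

namespace Pool.Agent.MP_28624d_gt

open Real

/-- Commutator. -/
def cm {H : Type} [Group H] (g h : H) : H := g * h * g⁻¹ * h⁻¹

theorem jorg_mul (g h : G) (i j : Fin 2) : (g * h) i j = g i 0 * h 0 j + g i 1 * h 1 j := by
  simp [Matrix.mul_apply, Fin.sum_univ_two]

theorem jorg_inv00 (g : G) : g⁻¹ 0 0 = g 1 1 := by
  rw [Matrix.SpecialLinearGroup.SL2_inv_expl]; rfl

theorem jorg_inv01 (g : G) : g⁻¹ 0 1 = -g 0 1 := by
  rw [Matrix.SpecialLinearGroup.SL2_inv_expl]; rfl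

theorem jorg_inv10 (g : G) : g⁻¹ 1 0 = -g 1 0 := by
  rw [Matrix.SpecialLinearGroup.SL2_inv_expl]; rfl

theorem jorg_inv11 (g : G) : g⁻¹ 1 1 = g 0 0 := by
  rw [Matrix.SpecialLinearGroup.SL2_inv_expl]; rfl

theorem jorg_det (g : G) : g 0 0 * g 1 1 - g 0 1 * g 1 0 = 1 := by
  have := g.det_coe
  rwa [Matrix.det_fin_two] at this

theorem jorg_d00 (l : ℝ) : dia l 0 0 = exp (l / 2) := rfl
theorem jorg_d01 (l : ℝ) : dia l 0 1 = 0 := rfl
theorem jorg_d10 (l : ℝ) : dia l 1 0 = 0 := rfl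
theorem jorg_d11 (l : ℝ) : dia l 1 1 = exp (-(l / 2)) := rfl

theorem jorg_lm (l : ℝ) : exp (l / 2) * exp (-(l / 2)) = 1 := by
  rw [← exp_add]; simp

theorem jorg_lt {l : ℝ} (hl : 0 < l) : exp (-(l / 2)) < exp (l / 2) :=
  exp_lt_exp.2 (by linarith)

theorem jorg_diag {l : ℝ} (hl : 0 < l) {x : G} (hx : dia l * x = x * dia l) :
    x 0 1 = 0 ∧ x 1 0 = 0 := by
  have h1 : (dia l * x) 0 1 = (x * dia l) 0 1 := by rw [hx]
  have h2 : (dia l * x) 1 0 = (x * dia l) 1 0 := by rw [hx]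
  simp only [jorg_mul, jorg_d00, jorg_d01, jorg_d10, jorg_d11] at h1 h2
  have h3 : exp (l / 2) - exp (-(l / 2)) ≠ 0 := (sub_pos.2 (jorg_lt hl)).ne'
  constructor
  · apply mul_left_cancel₀ h3; linarith
  · apply mul_left_cancel₀ h3; linarith

theorem jorg_pm_comm {g k x : G} (h : PM g k) (hx : g * x = x * g) : k * x = x * k := by
  rcases h with rfl | rfl
  · exact hx
  · simpa using hx

theorem comm_of_hyp {g x y : G} (hg : Hyp g) (hx : g * x = x * g) (hy : g * y = y * g) :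
    x * y = y * x := by
  obtain ⟨h, l, hl, hp⟩ := exists_conj_dia hg
  have key : ∀ z : G, g * z = z * g → (h⁻¹ * z * h) 0 1 = 0 ∧ (h⁻¹ * z * h) 1 0 = 0 := by
    intro z hz
    have h1 := jorg_pm_comm hp hz
    apply jorg_diag hl
    calc dia l * (h⁻¹ * z * h) = h⁻¹ * (h * dia l * h⁻¹ * z) * h := by group
      _ = h⁻¹ * (z * (h * dia l * h⁻¹)) * h := by rw [h1]
      _ = h⁻¹ * z * h * dia l := by group
  obtain ⟨a1, a2⟩ := key x hx
  obtain ⟨b1, b2⟩ := key y hy
  have h3 : (h⁻¹ * x * h) * (h⁻¹ * y * h) = (h⁻¹ * y * h) * (h⁻¹ * x * h) := by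
    generalize h⁻¹ * x * h = X at a1 a2
    generalize h⁻¹ * y * h = Y at b1 b2
    ext i j
    fin_cases i <;> fin_cases j
    · show (X * Y) 0 0 = (Y * X) 0 0
      simp only [jorg_mul, a1, a2, b1, b2]; ring
    · show (X * Y) 0 1 = (Y * X) 0 1
      simp only [jorg_mul, a1, a2, b1, b2]; ring
    · show (X * Y) 1 0 = (Y * X) 1 0
      simp only [jorg_mul, a1, a2, b1, b2]; ring
    · show (X * Y) 1 1 = (Y * X) 1 1
      simp only [jorg_mul, a1, a2, b1, b2]; ring
  calc x * y = h * ((h⁻¹ * x * h) * (h⁻¹ * y * h)) * h⁻¹ := by group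
    _ = h * ((h⁻¹ * y * h) * (h⁻¹ * x * h)) * h⁻¹ := by rw [h3]
    _ = y * x := by group

theorem jorg_tr_cm (l : ℝ) (B : G) :
    tr (cm (dia l) B) = 2 - B 0 1 * B 1 0 * (exp (l / 2) - exp (-(l / 2))) ^ 2 := by
  have h1 := jorg_det B
  have h2 := jorg_lm l
  simp only [tr, cm, jorg_mul, jorg_inv00, jorg_inv01, jorg_inv10, jorg_inv11, jorg_d00, jorg_d01,
    jorg_d10, jorg_d11]
  generalize exp (l / 2) = p at h2 ⊢
  generalize exp (-(l / 2)) = q at h2 ⊢
  linear_combination (2 * p * q) * h1 + 2 * h2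

theorem jorg_conj01 (l : ℝ) (B : G) :
    (B * dia l * B⁻¹) 0 1 = -(B 0 0 * B 0 1 * (exp (l / 2) - exp (-(l / 2)))) := by
  simp only [jorg_mul, jorg_inv01, jorg_inv11, jorg_d00, jorg_d01, jorg_d10, jorg_d11]
  ring

theorem jorg_conj10 (l : ℝ) (B : G) :
    (B * dia l * B⁻¹) 1 0 = B 1 0 * B 1 1 * (exp (l / 2) - exp (-(l / 2))) := by
  simp only [jorg_mul, jorg_inv00, jorg_inv10, jorg_d00, jorg_d01, jorg_d10, jorg_d11]
  ring

theorem jorg_dia_zpow (l : ℝ) (m : ℤ) : dia l ^ m = dia (m * l) := by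
  induction m using Int.induction_on with
  | zero => simp [dia_zero]
  | succ n ih =>
    rw [zpow_add_one, ih, ← dia_add]; congr 1; push_cast; ring
  | pred n ih =>
    rw [zpow_sub_one, ih, ← dia_neg, ← dia_add]; congr 1; push_cast; ring

theorem jorg_pm_zpow {g k : G} (h : PM g k) (m : ℤ) : PM (g ^ m) (k ^ m) := by
  induction m using Int.induction_on with
  | zero => simpa using PM.refl 1
  | succ n ih => rw [zpow_add_one, zpow_add_one]; exact ih.mul h
  | pred n ih => rw [zpow_sub_one, zpow_sub_one]; exact ih.mul h.inv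

theorem jorg_tr_dia_mul (l : ℝ) (B : G) :
    tr (dia l * B) = B 0 0 * exp (l / 2) + B 1 1 * exp (-(l / 2)) := by
  simp only [tr, jorg_mul, jorg_d00, jorg_d01, jorg_d10, jorg_d11]
  ring

theorem jorg_sign {l α β : ℝ} (hl : 0 < l) (h : α * β < 0)
    (hy : ∀ m : ℤ, 2 < |α * exp (m * l / 2) + β * exp (-(m * l / 2))|) :
    4 ≤ -(α * β) * (exp (l / 2) - exp (-(l / 2))) ^ 2 := by
  have hα : α ≠ 0 := by rintro rfl; simp at h
  have hα2 : 0 < α ^ 2 := by positivity
  have hr : 0 < -(α * β) / α ^ 2 := div_pos (by linarith) hα2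
  obtain ⟨m, hm1, hm2⟩ := exists_mem_Ico_zpow hr (show 1 < exp l from one_lt_exp_iff.2 hl)
  have e1 : ∀ k : ℤ, exp l ^ k = exp (k * l / 2) ^ 2 := by
    intro k
    rw [← exp_nat_mul, ← Real.rpow_intCast, ← Real.exp_mul]
    congr 1; push_cast; ring
  rw [e1, le_div_iff₀ hα2] at hm1
  rw [e1, div_lt_iff₀ hα2] at hm2
  have y1 := hy m
  have y2 := hy (m + 1)
  have e2 : exp (((m + 1 : ℤ) : ℝ) * l / 2) = exp (m * l / 2) * exp (l / 2) := by
    rw [← exp_add]; congr 1; push_cast; ring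
  have e3 : exp (-(((m + 1 : ℤ) : ℝ) * l / 2)) = exp (-(m * l / 2)) * exp (-(l / 2)) := by
    rw [← exp_add]; congr 1; push_cast; ring
  rw [e2] at hm2
  rw [e2, e3] at y2
  have h1 := jorg_lm l
  have h2 := jorg_lm (m * l)
  have p1 := exp_pos (l / 2)
  have p2 := exp_pos (-(l / 2))
  have p3 := exp_pos (m * l / 2)
  have p4 := exp_pos (-(m * l / 2))
  generalize exp (l / 2) = p at *
  generalize exp (-(l / 2)) = q at *
  generalize exp (m * l / 2) = u at *
  generalize exp (-(m * l / 2)) = v at *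
  have s1 : α * (α * u + β * v) ≤ 0 := by
    have : α * (α * u + β * v) = v * (u ^ 2 * α ^ 2 + α * β) := by
      linear_combination (-(α ^ 2 * u)) * h2
    rw [this]
    exact mul_nonpos_of_nonneg_of_nonpos p4.le (by linarith)
  have s2 : 0 < α * (α * (u * p) + β * (v * q)) := by
    have : α * (α * (u * p) + β * (v * q)) = v * q * ((u * p) ^ 2 * α ^ 2 + α * β) := by
      linear_combination (-(α ^ 2 * u * p * (p * q))) * h2 - (α ^ 2 * u * p) * h1
    rw [this]
    exact mul_pos (mul_pos p4 p2) (by linarith)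
  have s3 : (α * u + β * v) * (α * (u * p) + β * (v * q)) ≤ 0 := by
    have := mul_nonpos_of_nonpos_of_nonneg s1 s2.le
    have h5 : α ^ 2 * ((α * u + β * v) * (α * (u * p) + β * (v * q))) ≤ 0 := by
      linarith [this, show α ^ 2 * ((α * u + β * v) * (α * (u * p) + β * (v * q))) =
        α * (α * u + β * v) * (α * (α * (u * p) + β * (v * q))) by ring]
    by_contra h6
    exact absurd h5 (not_le.2 (mul_pos hα2 (not_le.1 h6)))
  have t1 : 4 < (α * u + β * v) ^ 2 := by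
    rw [← sq_abs]; nlinarith
  have id : (α * u + β * v) ^ 2 + (α * (u * p) + β * (v * q)) ^ 2 -
      (p + q) * ((α * u + β * v) * (α * (u * p) + β * (v * q))) = -(α * β) * (p - q) ^ 2 := by
    linear_combination (-(α * β) * (p - q) ^ 2) * h2 -
      (α ^ 2 * u ^ 2 + 2 * α * β * u * v + β ^ 2 * v ^ 2) * h1
  have t2 := mul_nonpos_of_nonneg_of_nonpos (add_pos p1 p2).le s3
  nlinarith [sq_nonneg (α * (u * p) + β * (v * q))]

theorem jorg_cm_pm {A D B : G} (h : PM A D) : cm A B = cm D B := by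
  rcases h with rfl | rfl
  · rfl
  · simp [cm]

theorem jorg_cm_pm2 {A D B : G} (h : PM A D) : cm A (B * A * B⁻¹) = cm D (B * D * B⁻¹) := by
  rcases h with rfl | rfl
  · rfl
  · simp [cm]

theorem jorg_core {H : Type} [Group H] (ψ : H →* G) (K : Subgroup H)
    (hK : ∀ x ∈ K, x ≠ 1 → Hyp (ψ x)) {a b : H} (ha : a ∈ K) (hb : b ∈ K) (hab : a * b ≠ b * a)
    {l : ℝ} (hl : 0 < l) (hp : PM (ψ a) (dia l)) :
    4 ≤ |tr (cm (ψ a) (ψ b)) - 2| ∨ 4 ≤ |tr (cm (ψ a) (ψ b * ψ a * (ψ b)⁻¹)) - 2| := by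
  have hcm : ∀ x y : H, ψ (cm x y) = cm (ψ x) (ψ y) := fun x y => by simp [cm]
  have hmem : ∀ x ∈ K, ∀ y ∈ K, cm x y ∈ K := fun x hx y hy =>
    K.mul_mem (K.mul_mem (K.mul_mem hx hy) (K.inv_mem hx)) (K.inv_mem hy)
  have hne : ∀ x y : H, cm x y = 1 → x * y = y * x := fun x y h => by
    calc x * y = cm x y * (y * x) := by unfold cm; group
      _ = y * x := by rw [h, one_mul]
  have h1 := hK _ (hmem a ha b hb) fun h => hab (hne a b h)
  have hs : 0 < (exp (l / 2) - exp (-(l / 2))) ^ 2 := pow_pos (sub_pos.2 (jorg_lt hl)) 2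
  have hdet := jorg_det (ψ b)
  rw [Hyp, hcm, jorg_cm_pm hp, jorg_tr_cm] at h1
  rw [jorg_cm_pm2 hp, jorg_cm_pm hp, jorg_tr_cm]
  rcases le_or_gt 0 (ψ b 0 1 * ψ b 1 0) with h2 | h2
  · left
    have h3 := mul_nonneg h2 hs.le
    rcases lt_abs.1 h1 with h4 | h4
    · linarith
    · exact le_abs.2 (Or.inr (by linarith))
  rcases lt_or_ge (ψ b 0 0 * ψ b 1 1) 0 with h3 | h3
  · left
    have hy : ∀ m : ℤ, 2 < |ψ b 0 0 * exp (m * l / 2) + ψ b 1 1 * exp (-(m * l / 2))| := by
      intro m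
      have h4 : a ^ m * b ≠ 1 := by
        intro h5
        have h6 : b = (a ^ m)⁻¹ := eq_inv_of_mul_eq_one_right h5
        apply hab
        rw [h6]; group
      have h5 := hK _ (K.mul_mem (K.zpow_mem ha m) hb) h4
      rw [Hyp, map_mul, map_zpow, ((jorg_pm_zpow hp m).mul (PM.refl (ψ b))).abs_tr, jorg_dia_zpow,
        jorg_tr_dia_mul] at h5
      exact h5
    have h4 := jorg_sign hl h3 hy
    refine le_abs.2 (Or.inl ?_)
    have h5 : ψ b 0 1 * ψ b 1 0 = ψ b 0 0 * ψ b 1 1 - 1 := by linarith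
    rw [h5]
    nlinarith
  · right
    have hc : b * a * b⁻¹ ∈ K := K.mul_mem (K.mul_mem hb ha) (K.inv_mem hb)
    by_cases h4 : cm a (b * a * b⁻¹) = 1
    · exfalso
      have h5 := congrArg ψ (hne _ _ h4)
      simp only [map_mul, map_inv] at h5
      have h6 : dia l * (ψ b * dia l * (ψ b)⁻¹) = (ψ b * dia l * (ψ b)⁻¹) * dia l := by
        rcases hp with h7 | h7
        · rw [← h7]; exact h5
        · rw [h7] at h5; simpa using h5
      obtain ⟨h7, h8⟩ := jorg_diag hl h6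
      rw [jorg_conj01] at h7
      rw [jorg_conj10] at h8
      have h9 : exp (l / 2) - exp (-(l / 2)) ≠ 0 := (sub_pos.2 (jorg_lt hl)).ne'
      have g1 : ψ b 0 1 ≠ 0 := left_ne_zero_of_mul h2.ne
      have g2 : ψ b 1 0 ≠ 0 := right_ne_zero_of_mul h2.ne
      have g3 : ψ b 0 0 = 0 := by simpa [h9, g1] using h7
      have g4 : ψ b 1 1 = 0 := by simpa [h9, g2] using h8
      have g5 := hK b hb (by rintro rfl; simp at hab)
      rw [Hyp, tr, g3, g4] at g5
      norm_num at g5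
    · have h5 := hK _ (hmem a ha _ hc) h4
      rw [Hyp, hcm, map_mul, map_mul, map_inv, jorg_cm_pm2 hp, jorg_tr_cm] at h5
      rw [jorg_tr_cm]
      have h6 : 0 ≤ (ψ b * dia l * (ψ b)⁻¹) 0 1 * (ψ b * dia l * (ψ b)⁻¹) 1 0 := by
        rw [jorg_conj01, jorg_conj10]
        have := mul_nonneg (mul_nonneg h3 (neg_pos.2 h2).le) hs.le
        linarith [this, show -(ψ b 0 0 * ψ b 0 1 * (exp (l / 2) - exp (-(l / 2)))) *
          (ψ b 1 0 * ψ b 1 1 * (exp (l / 2) - exp (-(l / 2)))) = ψ b 0 0 * ψ b 1 1 *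
          -(ψ b 0 1 * ψ b 1 0) * (exp (l / 2) - exp (-(l / 2))) ^ 2 by ring]
      have h7 := mul_nonneg h6 hs.le
      rcases lt_abs.1 h5 with h8 | h8
      · linarith
      · exact le_abs.2 (Or.inr (by linarith))

theorem jorg {H : Type} [Group H] (ψ : H →* G) (K : Subgroup H)
    (hK : ∀ x ∈ K, x ≠ 1 → Hyp (ψ x)) {a b : H} (ha : a ∈ K) (hb : b ∈ K) (hab : a * b ≠ b * a) :
    4 ≤ |tr (cm (ψ a) (ψ b)) - 2| ∨ 4 ≤ |tr (cm (ψ a) (ψ b * ψ a * (ψ b)⁻¹)) - 2| := by
  obtain ⟨h, l, hl, hp⟩ := exists_conj_dia (hK a ha (by rintro rfl; simp at hab))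
  let φ : H →* G := (MulAut.conj h⁻¹).toMonoidHom.comp ψ
  have hφ : ∀ x, φ x = h⁻¹ * ψ x * h⁻¹⁻¹ := fun x => rfl
  have h1 : ∀ x ∈ K, x ≠ 1 → Hyp (φ x) := fun x hx hx1 => by
    rw [Hyp, hφ, tr_conj]; exact hK x hx hx1
  have h2 : PM (φ a) (dia l) := by
    have := ((PM.refl h⁻¹).mul hp).mul (PM.refl h⁻¹⁻¹)
    rw [show h⁻¹ * (h * dia l * h⁻¹) * h⁻¹⁻¹ = dia l by group] at this
    exact this
  have h3 := jorg_core φ K h1 ha hb hab hl h2
  rw [show cm (φ a) (φ b) = h⁻¹ * cm (ψ a) (ψ b) * h⁻¹⁻¹ by simp only [hφ, cm]; group,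
    show cm (φ a) (φ b * φ a * (φ b)⁻¹) = h⁻¹ * cm (ψ a) (ψ b * ψ a * (ψ b)⁻¹) * h⁻¹⁻¹ by
      simp only [hφ, cm]; group, tr_conj, tr_conj] at h3
  exact h3

end Pool.Agent.MP_28624d_gt

end
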