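import Pool.Agent.MP_28624d_gt.Mg.Main
import Pool.Agent.MP_28624d_gt.Mg.Jorg

-- part MP_28624d_gt.Measure
section

/-!
Almost every representation has no nontrivial element with trace 2 cos (rational multiple of π).
-/

namespace Pool.Agent.MP_28624d_gt

open MeasureTheory Real

theorem measure_step {Γ : Type} [Group Γ] [TopologicalSpace Γ] [IsTopologicalGroup Γ]
    [SecondCountableTopology Γ] [MeasurableSpace Γ] [BorelSpace Γ] (ν : Measure Γ) [SFinite ν]
    [ν.IsMulLeftInvariant] {Z : Set Γ} (hZ : IsClosed Z) {u : ℝ → Γ} (hu : Continuous u)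
    (hgood : ∀ g x, {s | g * u s * x ∈ Z}.Countable ∨ ∀ s, g * u s * x ∈ Z) (W : Set Γ)
    (h : ν {x | ∀ g ∈ W, ∀ s, g * u s * x ∈ Z} = 0) : ν {x | ∀ g ∈ W, g * x ∈ Z} = 0 := by
  set Y := {x | ∀ g ∈ W, g * x ∈ Z} with hY
  have hc : IsClosed Y := by
    rw [hY, Set.ofPred_forall]
    refine isClosed_iInter fun g => ?_
    rw [Set.ofPred_forall]
    exact isClosed_iInter fun _ => hZ.preimage (continuous_const.mul continuous_id)
  have h1 : ∀ᵐ x ∂ν, ∀ᵐ s : ℝ, u s * x ∉ Y := by
    filter_upwards [measure_eq_zero_iff_ae_notMem.1 h] with x hx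
    simp only [not_forall] at hx
    obtain ⟨g, hg, s, hs⟩ := hx
    have h2 := (hgood g x).resolve_right fun h' => hs (h' s)
    filter_upwards [measure_eq_zero_iff_ae_notMem.1 (h2.measure_zero volume)] with s hs hy
    exact hs (by simpa [mul_assoc] using hy g hg)
  have hm : MeasurableSet {p : Γ × ℝ | u p.2 * p.1 ∉ Y} :=
    (hc.preimage ((hu.comp continuous_snd).mul continuous_fst)).measurableSet.compl
  obtain ⟨s, hs⟩ := ((Measure.ae_ae_comm (p := fun x s => u s * x ∉ Y) hm).1 h1).exists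
  rw [← measure_preimage_mul ν (u s)]
  exact measure_eq_zero_iff_ae_notMem.2 hs

/-- Upper and lower unipotent matrices. -/
def measure_un (b : Bool) (s : ℝ) : G :=
  ⟨!![1, cond b s 0; cond b 0 s, 1], by cases b <;> simp [Matrix.det_fin_two_of]⟩

theorem measure_un_cont (b : Bool) : Continuous (measure_un b) := by
  refine Continuous.subtype_mk (continuous_matrix fun i j => ?_) _
  cases b <;> fin_cases i <;> fin_cases j <;> simp <;> fun_prop

theorem measure_ulu (g : G) (hc : g 1 0 ≠ 0) :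
    ∃ a b c, g = measure_un true a * measure_un false b * measure_un true c := by
  refine ⟨(g 0 0 - 1) / g 1 0, g 1 0, (g 1 1 - 1) / g 1 0, ?_⟩
  have hd := g.det_coe
  rw [Matrix.det_fin_two] at hd
  ext i j
  fin_cases i <;> fin_cases j <;>
    simp [measure_un, Matrix.mul_apply, Fin.sum_univ_two] <;> field_simp <;> linarith

theorem measure_ulul (g : G) : ∃ a b c d,
    g = measure_un true a * measure_un false b * measure_un true c * measure_un false d := by
  have h0 : ∀ s, measure_un false s * measure_un false (-s) = 1 := fun s => by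
    ext i j
    fin_cases i <;> fin_cases j <;> simp [measure_un, Matrix.mul_apply, Fin.sum_univ_two]
  have key : ∀ s, (g * measure_un false s) 1 0 ≠ 0 → ∃ a b c d,
      g = measure_un true a * measure_un false b * measure_un true c * measure_un false d :=
    fun s hs => by
      obtain ⟨a, b, c, e⟩ := measure_ulu _ hs
      exact ⟨a, b, c, -s, by rw [← e, mul_assoc, h0, mul_one]⟩
  by_cases hc : g 1 0 = 0
  · refine key 1 ?_
    have hd := g.det_coe
    rw [Matrix.det_fin_two, hc] at hd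
    simp only [measure_un, Matrix.SpecialLinearGroup.coe_mul, Matrix.mul_apply, Fin.sum_univ_two,
      hc]
    simp
    intro h
    simp [h] at hd
  · refine key 0 ?_
    simpa [measure_un, Matrix.mul_apply, Fin.sum_univ_two] using hc

/-- Curves with polynomial entries. -/
def measure_poly : Subgroup (ℝ → G) where
  carrier := {y | ∀ i j, ∃ p : Polynomial ℝ, ∀ s, y s i j = p.eval s}
  one_mem' := fun i j => ⟨Polynomial.C ((1 : G) i j), fun s => by simp⟩
  mul_mem' := fun {a b} ha hb i j => by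
    choose p hp using ha
    choose q hq using hb
    exact ⟨p i 0 * q 0 j + p i 1 * q 1 j, fun s => by
      simp [Matrix.mul_apply, Fin.sum_univ_two, hp, hq]⟩
  inv_mem' := fun {a} ha i j => by
    choose p hp using ha
    refine ⟨!![p 1 1, -p 0 1; -p 1 0, p 0 0] i j, fun s => ?_⟩
    rw [Pi.inv_apply, Matrix.SpecialLinearGroup.SL2_inv_expl]
    fin_cases i <;> fin_cases j <;> simp [hp]

theorem measure_poly_const (g : G) : (fun _ => g) ∈ measure_poly :=
  fun i j => ⟨Polynomial.C (g i j), fun s => by simp⟩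

theorem measure_poly_un (b : Bool) : measure_un b ∈ measure_poly := fun i j =>
  ⟨!![1, cond b Polynomial.X 0; cond b 0 Polynomial.X, 1] i j, fun s => by
    cases b <;> fin_cases i <;> fin_cases j <;> simp [measure_un]⟩

theorem measure_good {n : ℕ} (γ : F n) (c : ℝ) (j : Fin n) (b : Bool) (g x : Fin n → G) :
    {s | g * Pi.mulSingle j (measure_un b s) * x ∈
      {x : Fin n → G | tr (FreeGroup.lift x γ) = c}}.Countable ∨
    ∀ s, g * Pi.mulSingle j (measure_un b s) * x ∈
      {x : Fin n → G | tr (FreeGroup.lift x γ) = c} := by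
  let y : Fin n → ℝ → G := fun i s => (g * Pi.mulSingle j (measure_un b s) * x : Fin n → G) i
  have hy : ∀ i, y i ∈ measure_poly := fun i => by
    refine mul_mem (mul_mem (measure_poly_const (g i)) (?_ : (fun s =>
      (Pi.mulSingle j (measure_un b s) : Fin n → G) i) ∈ measure_poly)) (measure_poly_const (x i))
    rcases eq_or_ne i j with rfl | h
    · simpa using measure_poly_un b
    · simpa [h] using measure_poly_const 1
  have h1 : FreeGroup.lift y γ ∈ measure_poly :=
    FreeGroup.range_lift_le (by rintro _ ⟨i, rfl⟩; exact hy i) ⟨γ, rfl⟩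
  have h2 : ∀ s, FreeGroup.lift y γ s =
      FreeGroup.lift (g * Pi.mulSingle j (measure_un b s) * x : Fin n → G) γ := fun s =>
    FreeGroup.lift_unique ((Pi.evalMonoidHom (fun _ : ℝ => G) s).comp (FreeGroup.lift y))
      fun i => by simp [y]
  obtain ⟨p, hp⟩ := h1 0 0
  obtain ⟨q, hq⟩ := h1 1 1
  have h3 : ∀ s, g * Pi.mulSingle j (measure_un b s) * x ∈
      {x : Fin n → G | tr (FreeGroup.lift x γ) = c} ↔ (p + q - Polynomial.C c).IsRoot s :=
    fun s => by
      rw [Set.mem_ofPred_eq, ← h2, tr, hp, hq]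
      simp [sub_eq_zero]
  simp only [h3]
  rcases eq_or_ne (p + q - Polynomial.C c) 0 with h | h
  · exact Or.inr fun s => by simp [h]
  · exact Or.inl (Polynomial.finite_setOfPred_isRoot h).countable

theorem measure_null {n : ℕ} [MeasurableSpace G] [BorelSpace G] (μ : Measure G) [μ.IsHaarMeasure]
    (γ : F n) (c : ℝ) (x₀ : Fin n → G) (hx : tr (FreeGroup.lift x₀ γ) ≠ c) :
    (Measure.pi fun _ : Fin n => μ) {x | tr (FreeGroup.lift x γ) = c} = 0 := by
  have e := Matrix.SpecialLinearGroup.isClosedEmbedding_val (n := Fin 2) (R := ℝ)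
  have : SecondCountableTopology (Matrix (Fin 2) (Fin 2) ℝ) :=
    inferInstanceAs (SecondCountableTopology (Fin 2 → Fin 2 → ℝ))
  have : LocallyCompactSpace (Matrix (Fin 2) (Fin 2) ℝ) :=
    inferInstanceAs (LocallyCompactSpace (Fin 2 → Fin 2 → ℝ))
  have : SecondCountableTopology G := e.isEmbedding.secondCountableTopology
  have : LocallyCompactSpace G := e.locallyCompactSpace
  set Z := {x : Fin n → G | tr (FreeGroup.lift x γ) = c} with hZ
  have hc : IsClosed Z := by
    have := continuous_lab γ.toWord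
    simp only [lab, FreeGroup.mk_toWord] at this
    exact isClosed_eq (continuous_tr.comp this) continuous_const
  have step := fun (j : Fin n) (b : Bool) => measure_step (Measure.pi fun _ : Fin n => μ) hc
    (u := fun s => Pi.mulSingle j (measure_un b s))
    ((continuous_mulSingle j).comp (measure_un_cont b)) (measure_good γ c j b)
  have key : ∀ S : Finset (Fin n), (Measure.pi fun _ : Fin n => μ)
      {x | ∀ g ∈ {g : Fin n → G | ∀ i, i ∉ S → g i = 1}, g * x ∈ Z} = 0 →
        (Measure.pi fun _ : Fin n => μ) Z = 0 := fun S => by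
    induction S using Finset.induction_on with
    | empty =>
      refine fun h => measure_mono_null ?_ h
      intro x hx g hg
      rwa [show g = 1 from funext fun i => hg i (by simp), one_mul]
    | insert j S _ ih =>
      intro h
      have hW : ∀ (V : Set (Fin n → G)) (b : Bool), (Measure.pi fun _ : Fin n => μ)
          {x | ∀ g ∈ {g | ∃ v ∈ V, ∃ s, g = v * Pi.mulSingle j (measure_un b s)}, g * x ∈ Z} = 0 →
          (Measure.pi fun _ : Fin n => μ) {x | ∀ g ∈ V, g * x ∈ Z} = 0 := fun V b h =>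
        step j b V (measure_mono_null (by
          rintro x hx _ ⟨v, hv, s, rfl⟩
          exact hx v hv s) h)
      refine ih (hW _ true (hW _ false (hW _ true (hW _ false
        (measure_mono_null ?_ h)))))
      intro x hx g hg
      refine hx g ?_
      obtain ⟨a, b, c, d, e⟩ := measure_ulul (g j)
      refine ⟨_, ⟨_, ⟨_, ⟨Function.update g j 1, fun i hi => ?_, a, rfl⟩, b, rfl⟩, c, rfl⟩, d, ?_⟩
      · rcases eq_or_ne i j with rfl | h
        · simp
        · rw [Function.update_of_ne h]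
          exact hg i (by simp [h, hi])
      · funext i
        rcases eq_or_ne i j with rfl | h
        · simpa using e
        · simp [h]
  refine key Finset.univ ?_
  convert measure_empty (μ := Measure.pi fun _ : Fin n => μ)
  refine Set.eq_empty_of_forall_notMem fun x h => hx ?_
  simpa [hZ] using h (x₀ * x⁻¹) (by simp)

theorem ae_generic (n : ℕ) [MeasurableSpace G] [BorelSpace G] (μ : Measure G) [μ.IsHaarMeasure] :
    ∀ᵐ x ∂(Measure.pi fun _ : Fin n => μ), ∀ γ : F n, γ ≠ 1 → ∀ q : ℚ,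
      tr (FreeGroup.lift x γ) ≠ 2 * cos (π * q) := by
  obtain ⟨x₀, hx⟩ := exists_schottky n
  refine ae_all_iff.2 fun γ => ?_
  rcases eq_or_ne γ 1 with rfl | hγ
  · simp
  refine Filter.Eventually.mono (ae_all_iff.2 fun q : ℚ => ?_) fun x h _ => h
  refine measure_eq_zero_iff_ae_notMem.1 (measure_null μ γ _ x₀ fun e => ?_)
  have h1 := hx γ hγ
  rw [Hyp, e, abs_mul, abs_two] at h1
  linarith [abs_cos_le_one (π * q)]

end Pool.Agent.MP_28624d_gt

end

-- part MP_28624d_gt.Dense
section

/-!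
Density from an irrational elliptic element; primitive stability from a linear displacement bound.
-/

namespace Pool.Agent.MP_28624d_gt

open scoped UpperHalfPlane
open Real UpperHalfPlane

theorem dense_rot_mem (H : Subgroup G) (hH : IsClosed (H : Set G)) {θ : ℝ} (hθ : rot θ ∈ H)
    (hirr : Irrational θ) (t : ℝ) : rot t ∈ H := by
  let S : AddSubgroup ℝ :=
    { carrier := {t | rot t ∈ H}
      zero_mem' := by
        show rot 0 ∈ H
        rw [rot_zero]
        exact H.one_mem
      add_mem' := fun {a b} ha hb => by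
        show rot (a + b) ∈ H
        rw [rot_add]
        exact H.mul_mem ha hb
      neg_mem' := fun {a} ha => by
        show rot (-a) ∈ H
        rw [rot_neg]
        exact H.inv_mem ha }
  have h2 : rot 2 ∈ H := by
    rw [← one_add_one_eq_two (R := ℝ), rot_add, rot_one, neg_mul_neg, one_mul]
    exact H.one_mem
  have hd : Dense (AddSubgroup.closure {θ, 2} : Set ℝ) :=
    dense_addSubgroupClosure_pair_iff.2 (by simpa using hirr.div_natCast (m := 2) two_ne_zero)
  have hle : AddSubgroup.closure {θ, 2} ≤ S := by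
    rw [AddSubgroup.closure_le]
    rintro _ (rfl | rfl)
    · exact hθ
    · exact h2
  have hc : IsClosed (S : Set ℝ) := hH.preimage continuous_rot
  have : t ∈ closure (S : Set ℝ) := (hd.mono hle) t
  rwa [hc.closure_eq] at this

theorem dense_eq_top (H : Subgroup G) (hr : ∀ t, rot t ∈ H) {a b : G} (ha : a ∈ H) (hb : b ∈ H)
    (hab : a * b ≠ b * a) (g : G) : g ∈ H := by
  have hdia : ∀ x ∈ H, dia (len x) ∈ H := fun x hx => by
    obtain ⟨θ, ψ, e⟩ := kak x
    have : dia (len x) = (rot θ)⁻¹ * (rot θ * dia (len x) * rot ψ) * (rot ψ)⁻¹ := by group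
    rw [this, ← e]
    exact H.mul_mem (H.mul_mem (H.inv_mem (hr θ)) hx) (H.inv_mem (hr ψ))
  obtain ⟨x, hx, hl⟩ : ∃ x ∈ H, len x ≠ 0 := by
    by_contra hc
    push Not at hc
    obtain ⟨θ, ψ, e⟩ := kak a
    obtain ⟨θ', ψ', e'⟩ := kak b
    rw [hc a ha, dia_zero, mul_one, ← rot_add] at e
    rw [hc b hb, dia_zero, mul_one, ← rot_add] at e'
    exact hab (by rw [e, e', ← rot_add, ← rot_add, add_comm])
  have hl0 : 0 < len x := (len_nonneg x).lt_of_ne' hl
  have h1 := hdia x hx
  generalize len x = l at hl0 h1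
  have h2 : ∀ s, 0 ≤ s → s ≤ 2 * l → dia s ∈ H := fun s s0 s1 => by
    have hc : Continuous fun t => len (dia l * rot t * dia l) :=
      continuous_len.comp ((continuous_const.mul continuous_rot).mul continuous_const)
    have e0 : len (dia l * rot 0 * dia l) = 2 * l := by
      rw [rot_zero, mul_one, ← dia_add, len_dia, abs_of_pos (by linarith), two_mul]
    have e1 : len (dia l * rot (1 / 2) * dia l) = 0 := by
      have := rot_half_dia l
      rw [rot_neg, dia_neg, mul_inv_eq_iff_eq_mul] at this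
      rw [mul_assoc, this, mul_inv_cancel_left, ← one_mul (rot _), len_mul_rot, len_one]
    obtain ⟨t, ht⟩ := mem_range_of_exists_le_of_exists_ge (c := s) hc ⟨1 / 2, e1.trans_le s0⟩
      ⟨0, s1.trans_eq e0.symm⟩
    rw [← ht]
    exact hdia _ (H.mul_mem (H.mul_mem h1 (hr t)) h1)
  have h3 : ∀ (N : ℕ) (s : ℝ), 0 ≤ s → s ≤ N * l → dia s ∈ H := fun N => by
    induction N with
    | zero => exact fun s s0 s1 => h2 s s0 (by simp at s1; linarith)
    | succ N ih =>
      intro s s0 s1
      rcases le_total s l with h | h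
      · exact h2 s s0 (by linarith)
      · have : dia s = dia (s - l) * dia l := by rw [← dia_add, sub_add_cancel]
        rw [this]
        exact H.mul_mem (ih _ (by linarith) (by push_cast at s1; linarith)) h1
  obtain ⟨θ, ψ, e⟩ := kak g
  obtain ⟨N, hN⟩ := exists_nat_ge (len g / l)
  rw [e]
  exact H.mul_mem (H.mul_mem (hr θ) (h3 N _ (len_nonneg g) ((div_le_iff₀ hl0).1 hN))) (hr ψ)

theorem dense_of_elliptic (A : Subgroup G) {g : G} (hg : g ∈ A) (htr : |tr g| < 2)
    (hirr : ∀ q : ℚ, tr g ≠ 2 * cos (π * q)) {a b : G} (ha : a ∈ A) (hb : b ∈ A)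
    (hab : a * b ≠ b * a) : Dense (A : Set G) := by
  obtain ⟨z, hz⟩ := exists_fixed_of_elliptic htr
  obtain ⟨h, θ, -, rfl⟩ := exists_conj_rot_of_fixed hz
  have hθ : Irrational θ := fun ⟨q, hq⟩ => hirr q (by rw [tr_conj, tr_rot, hq])
  let H : Subgroup G := A.topologicalClosure.comap (MulAut.conj h).toMonoidHom
  have hH : ∀ x, x ∈ H ↔ h * x * h⁻¹ ∈ closure (A : Set G) := fun _ => Iff.rfl
  have hc : IsClosed (H : Set G) :=
    isClosed_closure.preimage ((continuous_const.mul continuous_id).mul continuous_const)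
  have hA : ∀ x ∈ A, h⁻¹ * x * h ∈ H := fun x hx =>
    (hH _).2 (subset_closure (by simpa [mul_assoc] using hx))
  intro x
  have := dense_eq_top H (dense_rot_mem H hc ((hH _).2 (subset_closure hg)) hθ) (hA a ha)
    (hA b hb) (fun e => hab (by simpa [mul_assoc] using congrArg (· * h⁻¹) e)) (h⁻¹ * x * h)
  simpa [hH, mul_assoc] using this

theorem hd_of_generic {n : ℕ} {ρ : F n →* G}
    (hgen : ∀ γ : F n, γ ≠ 1 → ∀ q : ℚ, tr (ρ γ) ≠ 2 * cos (π * q)) (hred : ¬ Redundant ρ) :
    HD ρ := by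
  rintro A hA hne ⟨a, ha, b, hb, hab⟩ γ hγ h1
  have hinj : Function.Injective ρ := (injective_iff_map_eq_one ρ).2 fun x hx => by
    by_contra hc
    exact hgen x hc 0 (by simp [hx, tr_one])
  by_contra hc
  have h2 : |tr (ρ γ)| < 2 := by
    refine lt_of_le_of_ne (not_lt.1 hc) fun e => ?_
    rcases (abs_eq two_pos.le).1 e with e | e
    · exact hgen γ h1 0 (by simp [e])
    · exact hgen γ h1 1 (by simp [e])
  exact hred ⟨A, hA, hne, dense_of_elliptic (A.map ρ) (Subgroup.mem_map_of_mem ρ hγ) h2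
    (hgen γ h1) (Subgroup.mem_map_of_mem ρ ha) (Subgroup.mem_map_of_mem ρ hb)
    fun e => hab (hinj (by simpa using e))⟩

theorem len_le_norm {n : ℕ} (ρ : F n →* G) :
    ∃ L : ℝ, 0 ≤ L ∧ ∀ γ : F n, len (ρ γ) ≤ L * (FreeGroup.norm γ : ℝ) := by
  refine ⟨∑ i, len (ρ (FreeGroup.of i)), Finset.sum_nonneg fun _ _ => len_nonneg _, fun γ => ?_⟩
  have key : ∀ l : List (Fin n × Bool),
      len (ρ (FreeGroup.mk l)) ≤ (∑ i, len (ρ (FreeGroup.of i))) * (l.length : ℝ) := fun l => by
    induction l with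
    | nil => simp [← FreeGroup.one_eq_mk, len_one]
    | cons d l ih =>
      have h1 : len (ρ (FreeGroup.mk [d])) ≤ ∑ i, len (ρ (FreeGroup.of i)) := by
        refine le_trans (le_of_eq ?_) (Finset.single_le_sum
          (f := fun i => len (ρ (FreeGroup.of i))) (fun _ _ => len_nonneg _) (Finset.mem_univ d.1))
        obtain ⟨i, _ | _⟩ := d
        · rw [← len_inv, ← map_inv]
          rfl
        · rfl
      have h2 : FreeGroup.mk (d :: l) = FreeGroup.mk [d] * FreeGroup.mk l := rfl
      rw [h2, map_mul, List.length_cons]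
      push_cast
      linarith [len_mul_le (ρ (FreeGroup.mk [d])) (ρ (FreeGroup.mk l))]
  have := key γ.toWord
  rwa [FreeGroup.mk_toWord] at this

theorem dense_div_le {ε K x : ℝ} (hε : 0 < ε) (hK : 1 / ε ≤ K) (hx : 0 ≤ x) : x / K ≤ ε * x := by
  have h0 : 0 < K := (one_div_pos.2 hε).trans_le hK
  rw [div_le_iff₀ h0]
  have := (div_le_iff₀ hε).1 hK
  nlinarith

theorem qiEmb_of_qi {n : ℕ} {ρ : F n →* G} (h : QI ρ) : QIEmb ρ := by
  obtain ⟨ε, hε, C, hC⟩ := h
  obtain ⟨L, hL0, hL⟩ := len_le_norm ρ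
  have h1 : 0 < 1 / ε := by positivity
  have h2 := abs_nonneg C
  have h3 := le_abs_self C
  refine ⟨1 / ε + |C| + L, by positivity, I, fun g h => ?_⟩
  rw [dist_smul_I, ← map_inv, ← map_mul]
  have a1 := hC (g⁻¹ * h)
  have a2 := hL (g⁻¹ * h)
  have a0 : (0 : ℝ) ≤ FreeGroup.norm (g⁻¹ * h) := Nat.cast_nonneg _
  have a3 := dense_div_le (K := 1 / ε + |C| + L) hε (by linarith) a0
  constructor
  · linarith
  · nlinarith

theorem primStable_of_qi {n : ℕ} {ρ : F n →* G} (h : QI ρ) : PrimStable ρ := by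
  obtain ⟨ε, hε, C, hC⟩ := h
  obtain ⟨L, hL0, hL⟩ := len_le_norm ρ
  have h1 : 0 < 1 / ε := by positivity
  have h2 := abs_nonneg C
  have h3 := le_abs_self C
  refine ⟨1 / ε + ε + |C| + 3 * L, by positivity, I, fun g _ u hu f hf s t => ?_⟩
  have hd : ∀ j k : ℤ, ε * |(j : ℝ) - k| - C ≤ dist (ρ (u j) • I) (ρ (u k) • I) ∧
      dist (ρ (u j) • I) (ρ (u k) • I) ≤ L * |(j : ℝ) - k| := fun j k => by
    have a1 := hC ((u j)⁻¹ * u k)
    have a2 := hL ((u j)⁻¹ * u k)
    rw [hu.1, Nat.cast_natAbs] at a1 a2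
    push_cast at a1 a2
    rw [dist_smul_I, ← map_inv, ← map_mul]
    exact ⟨a1, a2⟩
  have hs : ∀ s : ℝ, dist (f s) (ρ (u ⌊s⌋) • I) ≤ L := fun s => by
    have a1 := hf.2 ⌊s⌋ (Int.fract s) 0 ⟨Int.fract_nonneg s, (Int.fract_lt_one s).le⟩
      ⟨le_rfl, zero_le_one⟩
    rw [Int.floor_add_fract, add_zero, hf.1, sub_zero, abs_of_nonneg (Int.fract_nonneg s)] at a1
    have a2 := (hd ⌊s⌋ (⌊s⌋ + 1)).2
    simp only [Int.cast_add, Int.cast_one, sub_add_cancel_left, abs_neg, abs_one, mul_one] at a2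
    rw [a1]
    exact (mul_le_of_le_one_left dist_nonneg (Int.fract_lt_one s).le).trans a2
  have b1 : |(|s - t| - |(⌊s⌋ : ℝ) - ⌊t⌋|)| ≤ 1 := by
    refine (abs_abs_sub_abs_le_abs_sub _ _).trans (abs_le.2 ⟨?_, ?_⟩) <;>
      linarith [Int.floor_le s, Int.lt_floor_add_one s, Int.floor_le t, Int.lt_floor_add_one t]
  obtain ⟨b2, b3⟩ := abs_le.1 b1
  obtain ⟨c1, c2⟩ := hd ⌊s⌋ ⌊t⌋
  have c3 := dist_triangle4 (f s) (ρ (u ⌊s⌋) • I) (ρ (u ⌊t⌋) • I) (f t)
  have c4 := dist_triangle4 (ρ (u ⌊s⌋) • I) (f s) (f t) (ρ (u ⌊t⌋) • I)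
  have c5 := hs s
  have c6 := hs t
  rw [dist_comm (ρ (u ⌊t⌋) • I) (f t)] at c3
  rw [dist_comm (ρ (u ⌊s⌋) • I) (f s)] at c4
  have a0 := abs_nonneg (s - t)
  have a3 := dense_div_le (K := 1 / ε + ε + |C| + 3 * L) hε (by linarith) a0
  constructor
  · nlinarith
  · nlinarith

end Pool.Agent.MP_28624d_gt

end
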