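import Mathlib

-- part MP_28624d_gt.K.KA
section

section

/-!
Definitions for the abstract KAM theorem: the Wiener type class Bd of families of functions on the
torus, averages, Diophantine families, Taylor bounds, positive measure, and the statements about
fibred maps preserving a closed two form.
-/

namespace Pool.Agent.MP_28624d_gt.K

open Real Filter Topology MeasureTheory

/-- Angles (period two pi), frequencies and actions. -/
abbrev T (N : ℕ) : Type := Fin N → ℝ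

/-- The phase space. -/
abbrev Cn (N : ℕ) : Type := Fin N → ℂ

/-- The pairing of an integer vector with an angle vector. -/
def dot {N : ℕ} (k : Fin N → ℤ) (θ : T N) : ℝ := ∑ j, (k j : ℝ) * θ j

/-- The l1 norm of an integer vector. -/
def kn {N : ℕ} (k : Fin N → ℤ) : ℝ := ∑ j, |(k j : ℝ)|

/-- g p is an absolutely convergent sum of atoms cos (k.θ + φ) • v p; the atom i has weight
w i ≥ |k i|, size m i, Lipschitz constant w i * m i in p, and ∑ m i * exp (ρ * w i) ≤ M. -/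
def Bd {N : ℕ} {Λ : Type} [PseudoMetricSpace Λ] {E : Type} [NormedAddCommGroup E]
    [NormedSpace ℝ E] (ρ : ℝ) (g : Λ → T N → E) (M : ℝ) : Prop :=
  ∃ (I : Type) (k : I → Fin N → ℤ) (φ w m : I → ℝ) (v : I → Λ → E),
    (∀ i, kn (k i) ≤ w i) ∧ (∀ i, 0 ≤ m i) ∧ (∀ i p, ‖v i p‖ ≤ m i) ∧
    (∀ i p q, ‖v i p - v i q‖ ≤ w i * m i * dist p q) ∧
    Summable (fun i => m i * exp (ρ * w i)) ∧ ∑' i, m i * exp (ρ * w i) ≤ M ∧
    ∀ p θ, HasSum (fun i => cos (dot (k i) θ + φ i) • v i p) (g p θ)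

/-- Periodicity with respect to two pi times the integer lattice. -/
def Per {N : ℕ} {E : Type} (g : T N → E) : Prop :=
  ∀ (θ : T N) (n : Fin N → ℤ), g (θ + fun j => 2 * π * (n j : ℝ)) = g θ

/-- The average over the torus. -/
noncomputable def avg {N : ℕ} {E : Type} [NormedAddCommGroup E] [NormedSpace ℝ E]
    (g : T N → E) : E :=
  ∫ x in Set.pi Set.univ (fun _ : Fin N => Set.Ico (0 : ℝ) 1), g ((2 * π) • x)

/-- A 1-Lipschitz family of uniformly Diophantine frequency vectors. -/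
def Dio {N : ℕ} {Λ : Type} [PseudoMetricSpace Λ] (ω : Λ → T N) (γ : ℝ) (τ : ℕ) : Prop :=
  (∀ p q, ‖ω p - ω q‖ ≤ dist p q) ∧ 0 < γ ∧ γ ≤ 1 ∧
    ∀ p (k : Fin N → ℤ), k ≠ 0 → γ ≤ kn k ^ τ * |sin (dot k (ω p) / 2)|

/-- Taylor bounds of order zero, one and two for composition with G inside the class Bd. -/
def Tay (N : ℕ) {X F : Type} [NormedAddCommGroup X] [NormedSpace ℝ X] [NormedAddCommGroup F]
    [NormedSpace ℝ F] (G : X → F) (r C : ℝ) : Prop :=
  0 < r ∧ 0 ≤ C ∧ (∀ x : X, ‖x‖ ≤ 2 * r → DifferentiableAt ℝ G x) ∧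
    ∀ (Λ : Type) [PseudoMetricSpace Λ] (ρ a b : ℝ) (Y H : Λ → T N → X), 0 ≤ ρ →
      Bd ρ Y a → Bd ρ H b → a ≤ r → b ≤ r →
        Bd ρ (fun p θ => G (Y p θ)) C ∧
        Bd ρ (fun p θ => G (Y p θ + H p θ) - G (Y p θ)) (C * b) ∧
        Bd ρ (fun p θ => G (Y p θ + H p θ) - G (Y p θ) - fderiv ℝ G (Y p θ) (H p θ)) (C * b ^ 2)

/-- S has positive (outer) Lebesgue measure. -/
def Pos {V : Type} [NormedAddCommGroup V] [NormedSpace ℝ V] (S : Set V) : Prop :=
  @Measure.hausdorffMeasure V _ (borel V) (@BorelSpace.mk V _ (borel V) rfl)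
    (Module.finrank ℝ V : ℝ) S ≠ 0

/-- Multiplication by a vector of complex numbers, as a real linear map. -/
noncomputable def dg {N : ℕ} (l : Fin N → ℂ) : Cn N →L[ℝ] Cn N :=
  ContinuousLinearMap.pi fun j =>
    (ContinuousLinearMap.mul ℝ ℂ (l j)).comp (ContinuousLinearMap.proj j)

@[simp] theorem dg_apply {N : ℕ} (l : Fin N → ℂ) (z : Cn N) (j : Fin N) :
    dg l z j = l j * z j := rfl

/-- Rotation by a vector of angles. -/
noncomputable def rot {N : ℕ} (ω : T N) : Cn N →L[ℝ] Cn N :=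
  dg fun j => Complex.exp ((ω j : ℂ) * Complex.I)

/-- The complex linear part of the j-th diagonal block of a real linear map. -/
noncomputable def dgc {N : ℕ} (B : Cn N →L[ℝ] Cn N) (j : Fin N) : ℂ :=
  (B (Pi.single j 1) j - Complex.I * B (Pi.single j Complex.I) j) / 2

/-- The 2 N numbers l j and conj (l j) are pairwise distinct. -/
def Nonres {N : ℕ} (l : Fin N → ℂ) : Prop :=
  (∀ j k, j ≠ k → l j ≠ l k) ∧ ∀ j k, l j ≠ (starRingEnd ℂ) (l k)

/-- Near the origin, Ω is a fibrewise closed two form preserved by the fibred map of f. -/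
def Symp {E M : Type} [NormedAddCommGroup E] [NormedSpace ℝ E] [NormedAddCommGroup M]
    [NormedSpace ℝ M] (f : E × M → E) (Ω : E × M → E →L[ℝ] E →L[ℝ] ℝ) : Prop :=
  ∀ᶠ x in 𝓝 (0 : E × M), (∀ v w, Ω x v w = -Ω x w v) ∧
    (∀ u v w, fderiv ℝ Ω x (u, 0) v w - fderiv ℝ Ω x (v, 0) u w + fderiv ℝ Ω x (w, 0) u v = 0) ∧
    ∀ v w, Ω (f x, x.2) (fderiv ℝ f x (v, 0)) (fderiv ℝ f x (w, 0)) = Ω x v w

/-- Every neighbourhood of the origin contains a completely invariant set of positive measure. -/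
def Concl {E M : Type} [NormedAddCommGroup E] [NormedSpace ℝ E] [NormedAddCommGroup M]
    [NormedSpace ℝ M] (f : E × M → E) : Prop :=
  ∀ U ∈ 𝓝 (0 : E × M), ∃ S ⊆ U, Pos S ∧ (∀ x ∈ S, (f x, x.2) ∈ S) ∧
    ∀ x ∈ S, ∃ y ∈ S, (f y, y.2) = x

end Pool.Agent.MP_28624d_gt.K

end

section

/-!
Triples of real 4 x 4 matrices: the braid action, Casimir functions and the leafwise symplectic
form.
-/

set_option maxSynthPendingDepth 3

namespace Pool.Agent.MP_28624d_gt.K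

open Filter Topology

/-- Real 4 x 4 matrices (with the operator norm for the sup norm). -/
abbrev A4 : Type := Matrix (Fin 4) (Fin 4) ℝ

/-- The normed ring structure (maximal absolute row sum). -/
noncomputable scoped instance nrA4 : NormedRing A4 := Matrix.linftyOpNormedRing

/-- The normed algebra structure. -/
noncomputable scoped instance naA4 : NormedAlgebra ℝ A4 := Matrix.linftyOpNormedAlgebra

/-- The uniform structure of the norm (definitionally the product one). -/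
noncomputable scoped instance (priority := high) unA4 : UniformSpace A4 :=
  nrA4.toMetricSpace.toPseudoMetricSpace.toUniformSpace

/-- The topology of the norm (definitionally the product one). -/
noncomputable scoped instance (priority := high) topA4 : TopologicalSpace A4 :=
  unA4.toTopologicalSpace

/-- Triples of matrices. -/
abbrev V3 : Type := Fin 3 → A4

/-- The trace as a continuous linear form. -/
noncomputable def trL : A4 →L[ℝ] ℝ :=
  LinearMap.toContinuousLinearMap (Matrix.traceLinearMap (Fin 4) ℝ ℝ)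

@[simp] theorem trL_apply (x : A4) : trL x = x.trace := rfl

/-- The braid s1 s2⁻¹ acting on triples. -/
noncomputable def phi1 (ρ : V3) : V3 :=
  ![ρ 0 * ρ 1 * Ring.inverse (ρ 0), ρ 2, Ring.inverse (ρ 2) * ρ 0 * ρ 2]

/-- Its cube, a pure braid. -/
noncomputable def Phi (ρ : V3) : V3 := phi1 (phi1 (phi1 ρ))

/-- The cube followed by conjugation. -/
noncomputable def Psi (g : A4) (ρ : V3) : V3 := fun i => g * Phi ρ i * Ring.inverse g

/-- Simultaneous conjugacy by a matrix of positive determinant. -/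
def Cj (ρ ρ' : V3) : Prop :=
  ∃ g gi : A4, g * gi = 1 ∧ gi * g = 1 ∧ 0 < g.det ∧ ∀ i, ρ' i = g * ρ i * gi

/-- The product of the triple. -/
def prd (ρ : V3) : A4 := ρ 0 * ρ 1 * ρ 2

/-- The Krylov matrix with columns e, x e, x² e, x³ e. -/
def kry (x : A4) : A4 :=
  Matrix.single 0 0 1 + x * Matrix.single 0 1 1 + x * x * Matrix.single 0 2 1 +
    x * x * x * Matrix.single 0 3 1

/-- The derivative of the Krylov matrix. -/
def dkry (x y : A4) : A4 :=
  y * Matrix.single 0 1 1 + (y * x + x * y) * Matrix.single 0 2 1 +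
    ((y * x + x * y) * x + x * x * y) * Matrix.single 0 3 1

/-- The companion form. -/
noncomputable def cmp (x : A4) : A4 := Ring.inverse (kry x) * x * kry x

/-- Invertible triples for which the first basis vector is cyclic for the four boundary elements. -/
def Good (ρ : V3) : Prop :=
  (∀ i, IsUnit (ρ i)) ∧ (∀ i, IsUnit (kry (ρ i))) ∧ IsUnit (kry (prd ρ))

/-- The fifteen Casimir functions. -/
def kap (ρ : V3) : T 15 :=
  ![(ρ 0).trace, (ρ 0 * ρ 0).trace, (ρ 0 * ρ 0 * ρ 0).trace, (ρ 0 * ρ 0 * (ρ 0 * ρ 0)).trace,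
    (ρ 1).trace, (ρ 1 * ρ 1).trace, (ρ 1 * ρ 1 * ρ 1).trace, (ρ 1 * ρ 1 * (ρ 1 * ρ 1)).trace,
    (ρ 2).trace, (ρ 2 * ρ 2).trace, (ρ 2 * ρ 2 * ρ 2).trace, (ρ 2 * ρ 2 * (ρ 2 * ρ 2)).trace,
    (prd ρ).trace, (prd ρ * prd ρ).trace, (prd ρ * prd ρ * prd ρ).trace]

section forms

variable {X : Type} [NormedAddCommGroup X] [NormedSpace ℝ X]

/-- (v, w) ↦ tr (p v * q w) - tr (p w * q v). -/
noncomputable def wedge (p q : X →L[ℝ] A4) : X →L[ℝ] X →L[ℝ] ℝ :=
  (((ContinuousLinearMap.compL ℝ A4 A4 ℝ) trL).comp (ContinuousLinearMap.mul ℝ A4)).bilinearComp p q -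
    ((((ContinuousLinearMap.compL ℝ A4 A4 ℝ) trL).comp
      (ContinuousLinearMap.mul ℝ A4)).bilinearComp p q).flip

@[simp] theorem wedge_apply (p q : X →L[ℝ] A4) (v w : X) :
    wedge p q v w = (p v * q w).trace - (p w * q v).trace := rfl

/-- Left multiplication of a matrix valued one form. -/
noncomputable def lm (a : A4) (p : X →L[ℝ] A4) : X →L[ℝ] A4 :=
  (ContinuousLinearMap.mul ℝ A4 a).comp p

/-- Right multiplication of a matrix valued one form. -/
noncomputable def rm (p : X →L[ℝ] A4) (a : A4) : X →L[ℝ] A4 :=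
  ((ContinuousLinearMap.mul ℝ A4).flip a).comp p

@[simp] theorem lm_apply (a : A4) (p : X →L[ℝ] A4) (v : X) : lm a p v = a * p v := rfl

@[simp] theorem rm_apply (p : X →L[ℝ] A4) (a : A4) (v : X) : rm p a v = p v * a := rfl

/-- The cocycle tr (g⁻¹ dg ∧ dh h⁻¹). -/
noncomputable def coc (g h : X → A4) (y : X) : X →L[ℝ] X →L[ℝ] ℝ :=
  wedge (lm (Ring.inverse (g y)) (fderiv ℝ g y)) (rm (fderiv ℝ h y) (Ring.inverse (h y)))

/-- ξ = dh h⁻¹ for the Krylov matrix h of x. -/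
noncomputable def xi (x : X → A4) (y : X) : X →L[ℝ] A4 :=
  rm (fderiv ℝ (fun z => kry (x z)) y) (Ring.inverse (kry (x y)))

/-- The two form of a conjugacy class, - tr (x⁻¹ ξ x ∧ ξ). -/
noncomputable def bet (x : X → A4) (y : X) : X →L[ℝ] X →L[ℝ] ℝ :=
  -wedge (lm (Ring.inverse (x y)) (rm (xi x y) (x y))) (xi x y)

/-- The two form of a family of triples. -/
noncomputable def OmX (s : X → V3) (y : X) : X →L[ℝ] X →L[ℝ] ℝ :=
  bet (fun z => s z 0) y + bet (fun z => s z 1) y + bet (fun z => s z 2) y -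
    bet (fun z => prd (s z)) y + coc (fun z => s z 0) (fun z => s z 1) y +
    coc (fun z => s z 0 * s z 1) (fun z => s z 2) y

end forms

/-- The two form on the space of triples. -/
noncomputable def Om (ρ : V3) : V3 →L[ℝ] V3 →L[ℝ] ℝ := OmX (fun z : V3 => z) ρ

/-- The conjugacy class term evaluated on two tangent vectors; hi is the inverse Krylov matrix. -/
def betS (x xi hi x1 x2 : A4) : ℝ :=
  (xi * (dkry x x2 * hi * x) * (dkry x x1 * hi)).trace -
    (xi * (dkry x x1 * hi * x) * (dkry x x2 * hi)).trace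

/-- The cocycle evaluated on two tangent vectors. -/
def cocS (gi g1 g2 hi h1 h2 : A4) : ℝ := (gi * g1 * (h2 * hi)).trace - (gi * g2 * (h1 * hi)).trace

/-- The derivative of the product. -/
def dprd (ρ v : V3) : A4 := (v 0 * ρ 1 + ρ 0 * v 1) * ρ 2 + ρ 0 * ρ 1 * v 2

/-- Matrices with vanishing last entry, a complement of the scalars. -/
noncomputable def iota : T 15 →L[ℝ] A4 :=
  LinearMap.toContinuousLinearMap
    { toFun := fun X => !![X 0, X 1, X 2, X 3; X 4, X 5, X 6, X 7; X 8, X 9, X 10, X 11;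
        X 12, X 13, X 14, 0]
      map_add' := fun X Y => by
        ext i j
        fin_cases i <;> fin_cases j <;> simp
      map_smul' := fun c X => by
        ext i j
        fin_cases i <;> fin_cases j <;> simp }

theorem iota_apply (X : T 15) : iota X = !![X 0, X 1, X 2, X 3; X 4, X 5, X 6, X 7;
    X 8, X 9, X 10, X 11; X 12, X 13, X 14, 0] := rfl

/-- The mixed second order term which governs the derivative of the multipliers. -/
noncomputable def Yv (g : A4) (ρ τ s : V3) (X1 X2 : A4) : V3 := fun i =>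
  fderiv ℝ (fderiv ℝ (Psi g)) ρ τ s i + fderiv ℝ (Psi g) ρ τ i * X2 + fderiv ℝ (Psi g) ρ s i * X1 -
    X1 * (fderiv ℝ (Psi g) ρ s i - (X2 * ρ i - ρ i * X2)) - X2 * τ i

/-- Coordinates: gauge, leaf, Casimirs. -/
abbrev U48 : Type := T 15 × Cn 9 × T 15

/-- The frequency functional. -/
noncomputable def frq (l a b : ℂ) : ℝ := ((starRingEnd ℂ) l * ((a - Complex.I * b) / 2)).im

/-- Near ρ0 there are sets of positive measure of triples whose whole orbit, up to conjugacy,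
stays in a given neighbourhood. -/
def Stab (ρ0 : V3) : Prop :=
  ∀ U ∈ 𝓝 ρ0, ∃ S : Set V3, Pos S ∧ ∀ ρ ∈ S, ∃ y : ℤ → V3, Cj ρ (y 0) ∧
    ∀ n, y n ∈ U ∧ Cj (Phi (y n)) (y (n + 1))

/-- The frame with exact gauge block at ρ and given leaf and Casimir blocks. -/
noncomputable def Tf (B : Cn 9 × T 15 →L[ℝ] V3) (ρ : V3) (u : U48) : V3 :=
  (fun i => iota u.1 * ρ i - ρ i * iota u.1) + B u.2

/-- The k-th Casimir direction. -/
def e15 (k : Fin 9) : T 15 := Pi.single (Fin.castLE (by norm_num) k) 1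

/-- The facts verified by ball arithmetic. -/
structure NF (ρt : V3) (gt : A4) (B : Cn 9 × T 15 →L[ℝ] V3) (R : V3 →L[ℝ] U48)
    (L ζt : T 15 →L[ℝ] T 15) (lt : Fin 9 → ℂ) (C CY gap η δ0 r0 r1 r2 : ℝ) : Prop where
  unit : ∀ (ρ : V3) (g : A4), ‖ρ - ρt‖ ≤ r1 → ‖g - gt‖ ≤ r1 → Good ρ ∧ IsUnit g ∧ 0 < g.det
  inv : ∀ ρ : V3, ‖ρ - ρt‖ ≤ r1 → ∀ u, ‖R (Tf B ρ u) - u‖ ≤ η * ‖u‖
  lin : ∀ (ρ : V3) (g : A4), ‖ρ - ρt‖ ≤ r1 → ‖g - gt‖ ≤ r1 → ∀ y,
    ‖R (fderiv ℝ (Psi g) ρ (B y)) - (ζt y.2, dg lt y.1, y.2)‖ ≤ η * ‖y‖ ∧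
      ‖fderiv ℝ (Psi g) ρ (B y)‖ ≤ C * ‖y‖
  cas : ∀ ρ : V3, ‖ρ - ρt‖ ≤ r1 → ∀ y, ‖L (fderiv ℝ kap ρ (B y)) - y.2‖ ≤ η * ‖y‖
  res0 : ‖Psi gt ρt - ρt‖ ≤ δ0
  res1 : ∀ ρ : V3, ‖ρ - ρt‖ ≤ r0 → ‖Psi gt ρ - ρt‖ ≤ r1
  nR : ∀ v, ‖R v‖ ≤ C * ‖v‖
  nB : ∀ y, ‖B y‖ ≤ C * ‖y‖
  nζ : ∀ t, ‖ζt t‖ ≤ C * ‖t‖
  ng : ‖gt‖ ≤ C
  nl : ∀ j, ‖lt j‖ ≤ 2
  gap1 : ∀ j k, j ≠ k → gap ≤ ‖lt j - lt k‖
  gap2 : ∀ j k, gap ≤ ‖lt j - (starRingEnd ℂ) (lt k)‖
  gap3 : ∀ j, 1 / 1000 ≤ ‖lt j - 1‖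
  krein : ∀ ρ : V3, ‖ρ - ρt‖ ≤ r1 → ∀ (j : Fin 9) (v w : V3), ‖v - B (Pi.single j 1, 0)‖ ≤ r2 →
    ‖w - B (Pi.single j Complex.I, 0)‖ ≤ r2 → Om ρ v w ≠ 0
  size : ∀ (ρ : V3) (g : A4), ‖ρ - ρt‖ ≤ r1 → ‖g - gt‖ ≤ r1 → ∀ (j k : Fin 9) (τ s : V3)
    (X1 X2 : A4), ‖τ - B (0, e15 k)‖ ≤ r2 →
    (‖s - B (Pi.single j 1, 0)‖ ≤ r2 ∨ ‖s - B (Pi.single j Complex.I, 0)‖ ≤ r2) →
    ‖X1 - iota (ζt (e15 k))‖ ≤ r2 → ‖X2‖ ≤ r2 → ‖Yv g ρ τ s X1 X2‖ ≤ CY
  freq : ∀ (ρ : V3) (g : A4), ‖ρ - ρt‖ ≤ r1 → ‖g - gt‖ ≤ r1 → ∀ (j k : Fin 9) (τ s s' : V3)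
    (X1 X2 X2' : A4) (l : ℂ), ‖τ - B (0, e15 k)‖ ≤ r2 → ‖s - B (Pi.single j 1, 0)‖ ≤ r2 →
    ‖s' - B (Pi.single j Complex.I, 0)‖ ≤ r2 → ‖X1 - iota (ζt (e15 k))‖ ≤ r2 → ‖X2‖ ≤ r2 →
    ‖X2'‖ ≤ r2 → ‖l - lt j‖ ≤ r2 →
    |frq l ((R (Yv g ρ τ s X1 X2)).2.1 j) ((R (Yv g ρ τ s' X1 X2')).2.1 j) -
      (if j = k then 1 else 0)| ≤ 1 / 40

end Pool.Agent.MP_28624d_gt.K

end

section

/-!
Krylov matrices, Casimirs, analyticity.
-/

set_option maxSynthPendingDepth 3

namespace Pool.Agent.MP_28624d_gt.K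

open Filter Topology

theorem d1_cm {g gi : A4} (h2 : gi * g = 1) (a b : A4) :
    g * a * gi * (g * b * gi) = g * (a * b) * gi := by
  calc g * a * gi * (g * b * gi) = g * a * (gi * g) * b * gi := by simp only [mul_assoc]
    _ = g * (a * b) * gi := by rw [h2, mul_one, mul_assoc g]

theorem d1_ct {g gi : A4} (h2 : gi * g = 1) (a : A4) : (g * a * gi).trace = a.trace := by
  rw [Matrix.trace_mul_cycle, h2, one_mul]

theorem d1_cd {g gi : A4} (h2 : gi * g = 1) (a : A4) : (g * a * gi).det = a.det := by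
  rw [Matrix.det_mul_comm, ← mul_assoc, h2, one_mul]

theorem d1_inv_eq {a b : A4} (h1 : a * b = 1) (h2 : b * a = 1) : Ring.inverse a = b :=
  Ring.inverse_unit ⟨a, b, h1, h2⟩

theorem d1_ci {g gi a : A4} (h1 : g * gi = 1) (h2 : gi * g = 1) (ha : IsUnit a) :
    Ring.inverse (g * a * gi) = g * Ring.inverse a * gi :=
  d1_inv_eq (by rw [d1_cm h2, Ring.mul_inverse_cancel _ ha, mul_one, h1])
    (by rw [d1_cm h2, Ring.inverse_mul_cancel _ ha, mul_one, h1])

theorem d1_col {x : A4} (h : IsUnit (kry x)) {j k : Fin 4}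
    (e : x * kry x * Matrix.single j 0 1 = kry x * Matrix.single k 0 1) (i : Fin 4) :
    cmp x i j = if k = i then 1 else 0 := by
  have h1 : cmp x * Matrix.single j (0 : Fin 4) (1 : ℝ) = Matrix.single k 0 1 := by
    rw [cmp, mul_assoc (Ring.inverse _), mul_assoc (Ring.inverse _), e, ← mul_assoc,
      Ring.inverse_mul_cancel _ h, one_mul]
  have h2 := congrFun (congrFun h1 i) 0
  rw [Matrix.mul_single_apply_same, mul_one] at h2
  rw [h2, Matrix.single_apply]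
  simp

/-- x * kry x and kry x * C agree in the first three columns for a companion matrix C; so cmp x is
the companion matrix of its last column. -/
theorem cmp_eq {x : A4} (h : IsUnit (kry x)) : ∃ k0 k1 k2 k3 : ℝ,
    cmp x = !![0, 0, 0, k0; 1, 0, 0, k1; 0, 1, 0, k2; 0, 0, 1, k3] := by
  have c0 := d1_col h (j := 0) (k := 1) (by simp [kry, add_mul, mul_add, mul_assoc])
  have c1 := d1_col h (j := 1) (k := 2) (by simp [kry, add_mul, mul_add, mul_assoc])
  have c2 := d1_col h (j := 2) (k := 3) (by simp [kry, add_mul, mul_add, mul_assoc])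
  refine ⟨cmp x 0 3, cmp x 1 3, cmp x 2 3, cmp x 3 3, ?_⟩
  ext i j
  fin_cases i <;> fin_cases j <;> simp [c0, c1, c2]

theorem d1_data {x : A4} (h : IsUnit (kry x)) : ∃ k0 k1 k2 k3 : ℝ,
    cmp x = !![0, 0, 0, k0; 1, 0, 0, k1; 0, 1, 0, k2; 0, 0, 1, k3] ∧ x.trace = k3 ∧
      (x * x).trace = k3 ^ 2 + 2 * k2 ∧ (x * x * x).trace = k3 ^ 3 + 3 * k3 * k2 + 3 * k1 ∧
      (x * x * (x * x)).trace = k3 ^ 4 + 4 * k3 ^ 2 * k2 + 2 * k2 ^ 2 + 4 * k3 * k1 + 4 * k0 ∧
      x.det = -k0 := by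
  obtain ⟨k0, k1, k2, k3, e⟩ := cmp_eq h
  have h2 := Ring.mul_inverse_cancel _ h
  have q : cmp x * cmp x = !![0, 0, k0, k0 * k3; 0, 0, k1, k0 + k1 * k3; 1, 0, k2, k1 + k2 * k3;
      0, 1, k3, k2 + k3 * k3] := by
    rw [e]
    ext i j
    fin_cases i <;> fin_cases j <;> simp [Matrix.mul_apply, Fin.sum_univ_four]
  refine ⟨k0, k1, k2, k3, e, ?_, ?_, ?_, ?_, ?_⟩
  · rw [← d1_ct h2 x, ← cmp, e]
    simp [Matrix.trace, Fin.sum_univ_four]
  · rw [← d1_ct h2 (x * x), ← d1_cm h2, ← cmp, q]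
    simp [Matrix.trace, Fin.sum_univ_four]
    ring
  · rw [← d1_ct h2 (x * x * x), ← d1_cm h2, ← d1_cm h2, ← cmp, q, e]
    simp [Matrix.trace, Fin.sum_univ_four]
    ring
  · rw [← d1_ct h2 (x * x * (x * x)), ← d1_cm h2, ← d1_cm h2, ← cmp, q]
    simp [Matrix.trace, Fin.sum_univ_four]
    ring
  · rw [← d1_cd h2 x, ← cmp, e]
    simp [Matrix.det_succ_row_zero, Fin.sum_univ_succ, Fin.succAbove]
    ring

/-- The traces of the powers of x are those of the companion matrix: k3, k3² + 2 k2,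
k3³ + 3 k3 k2 + 3 k1, k3⁴ + 4 k3² k2 + 2 k2² + 4 k3 k1 + 4 k0, and det x = - k0. -/
theorem cmp_eq_of_det {x y : A4} (hx : IsUnit (kry x)) (hy : IsUnit (kry y))
    (h1 : x.trace = y.trace) (h2 : (x * x).trace = (y * y).trace)
    (h3 : (x * x * x).trace = (y * y * y).trace) (h4 : x.det = y.det) : cmp x = cmp y := by
  obtain ⟨k0, k1, k2, k3, e, a1, a2, a3, -, a5⟩ := d1_data hx
  obtain ⟨l0, l1, l2, l3, f, b1, b2, b3, -, b5⟩ := d1_data hy
  obtain rfl : k3 = l3 := by linarith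
  obtain rfl : k2 = l2 := by linarith
  obtain rfl : k1 = l1 := by linarith
  obtain rfl : k0 = l0 := by linarith
  rw [e, f]

theorem det_eq_of_trace {x y : A4} (hx : IsUnit (kry x)) (hy : IsUnit (kry y))
    (h1 : x.trace = y.trace) (h2 : (x * x).trace = (y * y).trace)
    (h3 : (x * x * x).trace = (y * y * y).trace)
    (h4 : (x * x * (x * x)).trace = (y * y * (y * y)).trace) : x.det = y.det := by
  obtain ⟨k0, k1, k2, k3, -, a1, a2, a3, a4, a5⟩ := d1_data hx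
  obtain ⟨l0, l1, l2, l3, -, b1, b2, b3, b4, b5⟩ := d1_data hy
  obtain rfl : k3 = l3 := by linarith
  obtain rfl : k2 = l2 := by linarith
  obtain rfl : k1 = l1 := by linarith
  linarith

theorem cmp_eq_of_kap {ρ ρ' : V3} (h : Good ρ) (h' : Good ρ') (hk : kap ρ = kap ρ') :
    (∀ i, cmp (ρ i) = cmp (ρ' i)) ∧ cmp (prd ρ) = cmp (prd ρ') := by
  have t := congrFun hk
  have d0 := det_eq_of_trace (h.2.1 0) (h'.2.1 0) (t 0) (t 1) (t 2) (t 3)
  have d1 := det_eq_of_trace (h.2.1 1) (h'.2.1 1) (t 4) (t 5) (t 6) (t 7)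
  have d2 := det_eq_of_trace (h.2.1 2) (h'.2.1 2) (t 8) (t 9) (t 10) (t 11)
  refine ⟨fun i => ?_, cmp_eq_of_det h.2.2 h'.2.2 (t 12) (t 13) (t 14) ?_⟩
  · fin_cases i
    · exact cmp_eq_of_det (h.2.1 0) (h'.2.1 0) (t 0) (t 1) (t 2) d0
    · exact cmp_eq_of_det (h.2.1 1) (h'.2.1 1) (t 4) (t 5) (t 6) d1
    · exact cmp_eq_of_det (h.2.1 2) (h'.2.1 2) (t 8) (t 9) (t 10) d2
  · simp only [prd, Matrix.det_mul, d0, d1, d2]

theorem d1_complete : CompleteSpace A4 := FiniteDimensional.complete ℝ A4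

theorem d1_open {x : A4} (h : IsUnit x) : ∀ᶠ y in 𝓝 x, IsUnit y :=
  haveI := d1_complete
  Units.isOpen.mem_nhds h

theorem analyticAt_kry (x : A4) : AnalyticAt ℝ kry x :=
  ((analyticAt_const.add (analyticAt_id.mul analyticAt_const)).add
    ((analyticAt_id.mul analyticAt_id).mul analyticAt_const)).add
    (((analyticAt_id.mul analyticAt_id).mul analyticAt_id).mul analyticAt_const)

theorem d1_pr (i : Fin 3) (ρ : V3) : AnalyticAt ℝ (fun z : V3 => z i) ρ :=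
  (ContinuousLinearMap.proj (R := ℝ) (φ := fun _ : Fin 3 => A4) i).analyticAt ρ

theorem d1_prd (ρ : V3) : AnalyticAt ℝ prd ρ := ((d1_pr 0 ρ).mul (d1_pr 1 ρ)).mul (d1_pr 2 ρ)

section an

variable {X : Type} [NormedAddCommGroup X] [NormedSpace ℝ X] {y : X}

theorem d1_tr {f : X → A4} (hf : AnalyticAt ℝ f y) : AnalyticAt ℝ (fun z => (f z).trace) y :=
  (trL.analyticAt _).comp hf

theorem d1_inv {f : X → A4} (hf : AnalyticAt ℝ f y) (h : IsUnit (f y)) :
    AnalyticAt ℝ (fun z => Ring.inverse (f z)) y :=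
  haveI := d1_complete
  AnalyticAt.comp (g := Ring.inverse) (analyticAt_inverse (𝕜 := ℝ) h.unit) hf

theorem d1_kry {f : X → A4} (hf : AnalyticAt ℝ f y) : AnalyticAt ℝ (fun z => kry (f z)) y :=
  (analyticAt_kry _).comp hf

theorem d1_dkry {f g : X → A4} (hf : AnalyticAt ℝ f y) (hg : AnalyticAt ℝ g y) :
    AnalyticAt ℝ (fun z => dkry (f z) (g z)) y :=
  ((hg.mul analyticAt_const).add (((hg.mul hf).add (hf.mul hg)).mul analyticAt_const)).add
    (((((hg.mul hf).add (hf.mul hg)).mul hf).add ((hf.mul hf).mul hg)).mul analyticAt_const)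

theorem d1_betS {a b c d e : X → A4} (ha : AnalyticAt ℝ a y) (hb : AnalyticAt ℝ b y)
    (hc : AnalyticAt ℝ c y) (hd : AnalyticAt ℝ d y) (he : AnalyticAt ℝ e y) :
    AnalyticAt ℝ (fun z => betS (a z) (b z) (c z) (d z) (e z)) y :=
  (d1_tr ((hb.mul (((d1_dkry ha he).mul hc).mul ha)).mul ((d1_dkry ha hd).mul hc))).sub
    (d1_tr ((hb.mul (((d1_dkry ha hd).mul hc).mul ha)).mul ((d1_dkry ha he).mul hc)))

theorem d1_cocS {a b c d e f : X → A4} (ha : AnalyticAt ℝ a y) (hb : AnalyticAt ℝ b y)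
    (hc : AnalyticAt ℝ c y) (hd : AnalyticAt ℝ d y) (he : AnalyticAt ℝ e y)
    (hf : AnalyticAt ℝ f y) :
    AnalyticAt ℝ (fun z => cocS (a z) (b z) (c z) (d z) (e z) (f z)) y :=
  (d1_tr ((ha.mul hb).mul (hf.mul hd))).sub (d1_tr ((ha.mul hc).mul (he.mul hd)))

theorem d1_clm {E F : Type} [NormedAddCommGroup E] [NormedSpace ℝ E] [FiniteDimensional ℝ E]
    [NormedAddCommGroup F] [NormedSpace ℝ F] {f : X → E →L[ℝ] F}
    (h : ∀ v, AnalyticAt ℝ (fun z => f z v) y) : AnalyticAt ℝ f y := by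
  let b := Module.finBasis ℝ E
  have e : f = fun z => ∑ i, ContinuousLinearMap.smulRightL ℝ E F
      (LinearMap.toContinuousLinearMap (b.coord i)) (f z (b i)) := by
    funext z
    ext v
    conv_lhs => rw [← b.sum_repr v, map_sum]
    simp
  rw [e]
  exact Finset.analyticAt_fun_sum _ fun i _ => (ContinuousLinearMap.analyticAt _ _).comp (h _)

theorem d1_line {F : Type} [NormedAddCommGroup F] [NormedSpace ℝ F] {f : X → F} {γ : ℝ → X}
    {v : X} {D : F} (hf : DifferentiableAt ℝ f y) (h0 : γ 0 = y) (hγ : HasDerivAt γ v 0)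
    (hD : HasDerivAt (fun t => f (γ t)) D 0) : fderiv ℝ f y v = D := by
  subst h0
  exact (hf.hasFDerivAt.comp_hasDerivAt 0 hγ).unique hD

end an

theorem Good.eventually {ρ : V3} (h : Good ρ) : ∀ᶠ ρ' in 𝓝 ρ, Good ρ' :=
  (eventually_all.2 fun i => (d1_pr i ρ).continuousAt.eventually (d1_open (h.1 i))).and
    ((eventually_all.2 fun i =>
      (d1_kry (d1_pr i ρ)).continuousAt.eventually (d1_open (h.2.1 i))).and
      ((d1_kry (d1_prd ρ)).continuousAt.eventually (d1_open h.2.2)))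

theorem isUnit_phi1 {ρ : V3} (h : ∀ i, IsUnit (ρ i)) (i : Fin 3) : IsUnit (phi1 ρ i) := by
  fin_cases i
  · exact ((h 0).mul (h 1)).mul (h 0).ringInverse
  · exact h 2
  · exact ((h 2).ringInverse.mul (h 0)).mul (h 2)

theorem isUnit_Phi {ρ : V3} (h : ∀ i, IsUnit (ρ i)) (i : Fin 3) : IsUnit (Phi ρ i) :=
  isUnit_phi1 (isUnit_phi1 (isUnit_phi1 h)) i

theorem phi1_conj {ρ : V3} (h : ∀ i, IsUnit (ρ i)) {g gi : A4} (h1 : g * gi = 1)
    (h2 : gi * g = 1) : phi1 (fun i => g * ρ i * gi) = fun i => g * phi1 ρ i * gi := by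
  simp only [phi1, d1_ci h1 h2 (h _), d1_cm h2]
  funext i
  fin_cases i <;> rfl

theorem kap_conj (ρ : V3) {g gi : A4} (h1 : g * gi = 1) (h2 : gi * g = 1) :
    kap (fun i => g * ρ i * gi) = kap ρ := by
  simp only [kap, prd, d1_cm h2, d1_ct h2]

theorem d1_prd_phi1 {ρ : V3} (h : ∀ i, IsUnit (ρ i)) : prd (phi1 ρ) = prd ρ := by
  change ρ 0 * ρ 1 * Ring.inverse (ρ 0) * ρ 2 * (Ring.inverse (ρ 2) * ρ 0 * ρ 2) = ρ 0 * ρ 1 * ρ 2
  simp only [mul_assoc, Ring.mul_inverse_cancel_left _ _ (h 2),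
    Ring.inverse_mul_cancel_left _ _ (h 0)]

/-- The traces of the first four powers. -/
def d1_tr4 (x : A4) : Fin 4 → ℝ :=
  ![x.trace, (x * x).trace, (x * x * x).trace, (x * x * (x * x)).trace]

theorem d1_tr4_conj {g gi : A4} (h2 : gi * g = 1) (a : A4) : d1_tr4 (g * a * gi) = d1_tr4 a := by
  simp only [d1_tr4, d1_cm h2, d1_ct h2]

theorem d1_tr4_phi1 {ρ : V3} (h : ∀ i, IsUnit (ρ i)) (i : Fin 3) :
    d1_tr4 (phi1 ρ i) = d1_tr4 (ρ (i + 1)) := by
  fin_cases i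
  · exact d1_tr4_conj (Ring.inverse_mul_cancel _ (h 0)) _
  · rfl
  · exact d1_tr4_conj (Ring.mul_inverse_cancel _ (h 2)) _

/-- phi1 permutes the three conjugacy classes cyclically and fixes the product. -/
theorem kap_Phi {ρ : V3} (h : ∀ i, IsUnit (ρ i)) : kap (Phi ρ) = kap ρ := by
  have h1 := isUnit_phi1 h
  have h2 := isUnit_phi1 h1
  have e : prd (Phi ρ) = prd ρ := by rw [Phi, d1_prd_phi1 h2, d1_prd_phi1 h1, d1_prd_phi1 h]
  have t : ∀ i, d1_tr4 (Phi ρ i) = d1_tr4 (ρ i) := fun i => by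
    rw [Phi, d1_tr4_phi1 h2, d1_tr4_phi1 h1, d1_tr4_phi1 h]
    congr 2
    fin_cases i <;> rfl
  have t0 : ∀ i, (Phi ρ i).trace = (ρ i).trace := fun i => congrFun (t i) 0
  have t1 : ∀ i, (Phi ρ i * Phi ρ i).trace = (ρ i * ρ i).trace := fun i => congrFun (t i) 1
  have t2 : ∀ i, (Phi ρ i * Phi ρ i * Phi ρ i).trace = (ρ i * ρ i * ρ i).trace :=
    fun i => congrFun (t i) 2
  have t3 : ∀ i, (Phi ρ i * Phi ρ i * (Phi ρ i * Phi ρ i)).trace =
    (ρ i * ρ i * (ρ i * ρ i)).trace := fun i => congrFun (t i) 3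
  simp only [kap, e, t0, t1, t2, t3]

theorem kap_Psi {ρ : V3} (h : ∀ i, IsUnit (ρ i)) {g : A4} (hg : IsUnit g) :
    kap (Psi g ρ) = kap ρ :=
  (kap_conj (Phi ρ) (Ring.mul_inverse_cancel _ hg) (Ring.inverse_mul_cancel _ hg)).trans
    (kap_Phi h)

theorem analyticAt_kap (ρ : V3) : AnalyticAt ℝ kap ρ := by
  have a := fun i => d1_pr i ρ
  have b := d1_prd ρ
  refine analyticAt_pi_iff.2 fun k => ?_
  fin_cases k
  exacts [d1_tr (a 0), d1_tr ((a 0).mul (a 0)), d1_tr (((a 0).mul (a 0)).mul (a 0)),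
    d1_tr (((a 0).mul (a 0)).mul ((a 0).mul (a 0))),
    d1_tr (a 1), d1_tr ((a 1).mul (a 1)), d1_tr (((a 1).mul (a 1)).mul (a 1)),
    d1_tr (((a 1).mul (a 1)).mul ((a 1).mul (a 1))),
    d1_tr (a 2), d1_tr ((a 2).mul (a 2)), d1_tr (((a 2).mul (a 2)).mul (a 2)),
    d1_tr (((a 2).mul (a 2)).mul ((a 2).mul (a 2))),
    d1_tr b, d1_tr (b.mul b), d1_tr ((b.mul b).mul b)]

/-- Differentiate t ↦ kap of the conjugate by 1 + t • X at t = 0. -/
theorem fderiv_kap_comm (ρ : V3) (X : A4) :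
    fderiv ℝ kap ρ (fun i => X * ρ i - ρ i * X) = 0 := by
  have := d1_complete
  have hg : HasDerivAt (fun t : ℝ => 1 + t • X) X 0 := by
    simpa using ((hasDerivAt_id (0 : ℝ)).smul_const X).const_add 1
  have hi : HasDerivAt (fun t : ℝ => Ring.inverse (1 + t • X)) (-X) 0 := by
    have := (hasFDerivAt_ringInverse (𝕜 := ℝ) (1 : A4ˣ)).comp_hasDerivAt_of_eq (0 : ℝ) hg (by simp)
    simpa [Function.comp_def] using this
  refine d1_line (γ := fun t i => (1 + t • X) * ρ i * Ring.inverse (1 + t • X))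
    (analyticAt_kap ρ).differentiableAt (by funext i; simp) (hasDerivAt_pi.2 fun i => ?_) ?_
  · simpa [sub_eq_add_neg] using (hg.mul_const (ρ i)).fun_mul hi
  · refine (hasDerivAt_const (0 : ℝ) (kap ρ)).congr_of_eventuallyEq ?_
    have hu : IsUnit (1 + (0 : ℝ) • X) := by simp
    filter_upwards [hg.continuousAt.eventually (d1_open hu)] with t ht
    exact kap_conj ρ (Ring.mul_inverse_cancel _ ht) (Ring.inverse_mul_cancel _ ht)

theorem analyticAt_phi1 {ρ : V3} (h : ∀ i, IsUnit (ρ i)) : AnalyticAt ℝ phi1 ρ := by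
  have a := fun i => d1_pr i ρ
  refine analyticAt_pi_iff.2 fun k => ?_
  fin_cases k
  exacts [((a 0).mul (a 1)).mul (d1_inv (a 0) (h 0)), a 2,
    ((d1_inv (a 2) (h 2)).mul (a 0)).mul (a 2)]

theorem analyticAt_Phi {ρ : V3} (h : ∀ i, IsUnit (ρ i)) : AnalyticAt ℝ Phi ρ :=
  AnalyticAt.comp (f := fun z => phi1 (phi1 z)) (analyticAt_phi1 (isUnit_phi1 (isUnit_phi1 h)))
    ((analyticAt_phi1 (isUnit_phi1 h)).comp (analyticAt_phi1 h))

theorem analyticAt_Psi {ρ : V3} (h : ∀ i, IsUnit (ρ i)) (g : A4) : AnalyticAt ℝ (Psi g) ρ :=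
  analyticAt_pi_iff.2 fun i =>
    (analyticAt_const.mul (analyticAt_pi_iff.1 (analyticAt_Phi h) i)).mul analyticAt_const

theorem fderiv_kry (x y : A4) : fderiv ℝ kry x y = dkry x y := by
  have hg : HasDerivAt (fun t : ℝ => x + t • y) y 0 := by
    simpa using ((hasDerivAt_id (0 : ℝ)).smul_const y).const_add x
  refine d1_line (analyticAt_kry x).differentiableAt (by simp) hg ?_
  have := (((hg.mul_const (Matrix.single 0 1 1)).const_add (Matrix.single 0 0 1)).fun_add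
    ((hg.fun_mul hg).mul_const (Matrix.single 0 2 1))).fun_add
    (((hg.fun_mul hg).fun_mul hg).mul_const (Matrix.single 0 3 1))
  simp only [zero_smul, add_zero] at this
  exact this

section om

variable {X : Type} [NormedAddCommGroup X] [NormedSpace ℝ X] {y : X}

theorem d1_bet {x : X → A4} (hx : DifferentiableAt ℝ x y) (v w : X) : bet x y v w =
    betS (x y) (Ring.inverse (x y)) (Ring.inverse (kry (x y))) (fderiv ℝ x y v)
      (fderiv ℝ x y w) := by
  have e : ∀ u, xi x y u = dkry (x y) (fderiv ℝ x y u) * Ring.inverse (kry (x y)) := fun u => by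
    rw [xi, rm_apply, ← fderiv_kry, fderiv_fun_comp y (analyticAt_kry _).differentiableAt hx]
    rfl
  simp only [bet, neg_apply, wedge_apply, lm_apply, rm_apply, e, betS, neg_sub]

theorem d1_coc (g h : X → A4) (v w : X) : coc g h y v w =
    cocS (Ring.inverse (g y)) (fderiv ℝ g y v) (fderiv ℝ g y w) (Ring.inverse (h y))
      (fderiv ℝ h y v) (fderiv ℝ h y w) := rfl

theorem d1_fm {f g : X → A4} (hf : DifferentiableAt ℝ f y) (hg : DifferentiableAt ℝ g y) (v : X) :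
    fderiv ℝ (fun z => f z * g z) y v = fderiv ℝ f y v * g y + f y * fderiv ℝ g y v := by
  rw [fderiv_fun_mul' hf hg]
  simp [add_comm]

theorem d1_Om {s : X → V3} (hs : DifferentiableAt ℝ s y) {ρ v w : V3} {a b : X} (h0 : s y = ρ)
    (h1 : fderiv ℝ s y a = v) (h2 : fderiv ℝ s y b = w) : OmX s y a b =
    betS (ρ 0) (Ring.inverse (ρ 0)) (Ring.inverse (kry (ρ 0))) (v 0) (w 0) +
    betS (ρ 1) (Ring.inverse (ρ 1)) (Ring.inverse (kry (ρ 1))) (v 1) (w 1) +
    betS (ρ 2) (Ring.inverse (ρ 2)) (Ring.inverse (kry (ρ 2))) (v 2) (w 2) -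
    betS (prd ρ) (Ring.inverse (prd ρ)) (Ring.inverse (kry (prd ρ))) (dprd ρ v) (dprd ρ w) +
    cocS (Ring.inverse (ρ 0)) (v 0) (w 0) (Ring.inverse (ρ 1)) (v 1) (w 1) +
    cocS (Ring.inverse (ρ 0 * ρ 1)) (v 0 * ρ 1 + ρ 0 * v 1) (w 0 * ρ 1 + ρ 0 * w 1)
      (Ring.inverse (ρ 2)) (v 2) (w 2) := by
  subst h0 h1 h2
  have d := differentiableAt_pi.1 hs
  have e : ∀ i u, fderiv ℝ (fun z => s z i) y u = fderiv ℝ s y u i := fun i u => by
    rw [fderiv_apply hs]; rfl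
  have d01 : DifferentiableAt ℝ (fun z => s z 0 * s z 1) y := (d 0).mul (d 1)
  have dp : DifferentiableAt ℝ (fun z => prd (s z)) y := d01.mul (d 2)
  have ep : ∀ u, fderiv ℝ (fun z => prd (s z)) y u = dprd (s y) (fderiv ℝ s y u) := fun u => by
    simp only [prd, dprd, d1_fm d01 (d 2), d1_fm (d 0) (d 1), e]
  simp only [OmX, add_apply, sub_apply, d1_bet (d _),
    d1_bet dp, d1_coc, ep, d1_fm (d 0) (d 1), e]

end om

theorem Om_apply (ρ v w : V3) : Om ρ v w =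
    betS (ρ 0) (Ring.inverse (ρ 0)) (Ring.inverse (kry (ρ 0))) (v 0) (w 0) +
    betS (ρ 1) (Ring.inverse (ρ 1)) (Ring.inverse (kry (ρ 1))) (v 1) (w 1) +
    betS (ρ 2) (Ring.inverse (ρ 2)) (Ring.inverse (kry (ρ 2))) (v 2) (w 2) -
    betS (prd ρ) (Ring.inverse (prd ρ)) (Ring.inverse (kry (prd ρ))) (dprd ρ v) (dprd ρ w) +
    cocS (Ring.inverse (ρ 0)) (v 0) (w 0) (Ring.inverse (ρ 1)) (v 1) (w 1) +
    cocS (Ring.inverse (ρ 0 * ρ 1)) (v 0 * ρ 1 + ρ 0 * v 1) (w 0 * ρ 1 + ρ 0 * w 1)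
      (Ring.inverse (ρ 2)) (v 2) (w 2) :=
  d1_Om differentiableAt_fun_id rfl (by simp) (by simp)

theorem analyticAt_Om {ρ : V3} (h : Good ρ) : AnalyticAt ℝ Om ρ := by
  refine d1_clm fun v => d1_clm fun w => ?_
  simp only [Om_apply]
  have a := fun i => d1_pr i ρ
  have c : ∀ x : A4, AnalyticAt ℝ (fun _ : V3 => x) ρ := fun _ => analyticAt_const
  have b := fun i => d1_betS (a i) (d1_inv (a i) (h.1 i)) (d1_inv (d1_kry (a i)) (h.2.1 i))
    (c (v i)) (c (w i))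
  have m : ∀ u : V3, AnalyticAt ℝ (fun z : V3 => u 0 * z 1 + z 0 * u 1) ρ := fun u =>
    ((c _).mul (a 1)).add ((a 0).mul (c _))
  have d : ∀ u : V3, AnalyticAt ℝ (fun z => dprd z u) ρ := fun u =>
    ((m u).mul (a 2)).add (((a 0).mul (a 1)).mul (c _))
  exact (((((b 0).add (b 1)).add (b 2)).sub (d1_betS (d1_prd ρ)
    (d1_inv (d1_prd ρ) (((h.1 0).mul (h.1 1)).mul (h.1 2))) (d1_inv (d1_kry (d1_prd ρ)) h.2.2)
    (d v) (d w))).add (d1_cocS (d1_inv (a 0) (h.1 0)) (c _) (c _) (d1_inv (a 1) (h.1 1)) (c _)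
    (c _))).add (d1_cocS (d1_inv ((a 0).mul (a 1)) ((h.1 0).mul (h.1 1))) (m v) (m w)
    (d1_inv (a 2) (h.1 2)) (c _) (c _))

theorem Om_antisymm (ρ v w : V3) : Om ρ v w = -Om ρ w v := by
  simp only [Om_apply, betS, cocS]
  ring

/-- Chain rule. -/
theorem OmX_eq {X : Type} [NormedAddCommGroup X] [NormedSpace ℝ X] {s : X → V3} {y : X}
    (hs : DifferentiableAt ℝ s y) :
    OmX s y = (Om (s y)).bilinearComp (fderiv ℝ s y) (fderiv ℝ s y) := by
  ext a b
  rw [ContinuousLinearMap.bilinearComp_apply, Om_apply, d1_Om hs rfl rfl rfl]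

theorem norm_iota_le (X : T 15) : ‖iota X‖ ≤ 4 * ‖X‖ := by
  have e : ∀ i j, ‖iota X i j‖₊ ≤ ‖X‖₊ := fun i j => by
    rw [iota_apply]
    fin_cases i <;> fin_cases j <;> first | exact nnnorm_le_pi_nnnorm X _ | simp
  have h : (Finset.univ.sup fun i => ∑ j, ‖iota X i j‖₊) ≤ 4 * ‖X‖₊ :=
    Finset.sup_le fun i _ => (Finset.sum_le_sum fun j _ => e i j).trans_eq (by simp)
  exact (Matrix.linfty_opNorm_def (iota X)).trans_le (by exact_mod_cast h)

theorem finrank_U48 : Module.finrank ℝ U48 = Module.finrank ℝ V3 := by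
  simp [Module.finrank_prod, Module.finrank_pi_fintype, Module.finrank_matrix]

end Pool.Agent.MP_28624d_gt.K

end

end

-- part MP_28624d_gt.K.KF
section

section

/-!
Analytic inverse and implicit function statements, invariant forms of nonresonant rotations.
-/

set_option maxSynthPendingDepth 3

namespace Pool.Agent.MP_28624d_gt.K

open Real Filter Topology

variable {V W : Type} [NormedAddCommGroup V] [NormedSpace ℝ V] [FiniteDimensional ℝ V]
  [NormedAddCommGroup W] [NormedSpace ℝ W] [FiniteDimensional ℝ W]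

/-- ContDiffAt.localInverse with n = ω (contDiffAt_omega_iff_analyticAt,
ContDiffAt.to_localInverse, HasStrictFDerivAt.eventually_left_inverse and so on). -/
theorem exists_local_inverse {f : V → W} {x : V} (hf : AnalyticAt ℝ f x) (f' : V ≃L[ℝ] W)
    (hf' : fderiv ℝ f x = (f' : V →L[ℝ] W)) :
    ∃ g : W → V, AnalyticAt ℝ g (f x) ∧ g (f x) = x ∧ fderiv ℝ g (f x) = (f'.symm : W →L[ℝ] V) ∧
      (∀ᶠ y in 𝓝 x, g (f y) = y) ∧ ∀ᶠ y in 𝓝 (f x), f (g y) = y := by
  have := FiniteDimensional.complete ℝ V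
  have := FiniteDimensional.complete ℝ W
  have hc : ContDiffAt ℝ (⊤ : WithTop ℕ∞) f x := hf.contDiffAt
  have hd : HasFDerivAt f (f' : V →L[ℝ] W) x := hf' ▸ hf.differentiableAt.hasFDerivAt
  have hn : (⊤ : WithTop ℕ∞) ≠ 0 := by simp
  have hs : HasStrictFDerivAt f (f' : V →L[ℝ] W) x := hc.hasStrictFDerivAt' hd hn
  refine ⟨hs.localInverse f f' x, ?_, hs.localInverse_apply_image,
    hs.to_localInverse.hasFDerivAt.fderiv, hs.eventually_left_inverse,
    hs.eventually_right_inverse⟩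
  exact (hc.to_localInverse hd hn).analyticAt

theorem c2_equiv {A : V →L[ℝ] W} (hA : Function.Bijective A) :
    ∃ e : V ≃L[ℝ] W, (e : V →L[ℝ] W) = A :=
  ⟨(LinearEquiv.ofBijective (A : V →ₗ[ℝ] W) hA).toContinuousLinearEquiv, by
    ext v
    rfl⟩

/-- Invert (v, μ) ↦ (G (v, μ), μ); an injective endomorphism of V is bijective. -/
theorem exists_implicit {G : V × W → V} (hG : AnalyticAt ℝ G 0) (h0 : G 0 = 0)
    (hi : ∀ v, fderiv ℝ G 0 (v, 0) = 0 → v = 0) :
    ∃ z : W → V, AnalyticAt ℝ z 0 ∧ z 0 = 0 ∧ (∀ᶠ μ in 𝓝 (0 : W), G (z μ, μ) = 0) ∧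
      ∀ ν, fderiv ℝ G 0 (fderiv ℝ z 0 ν, ν) = 0 := by
  set F : V × W → V × W := fun x => (G x, x.2) with hF
  have hFa : AnalyticAt ℝ F 0 := hG.prod analyticAt_snd
  have hFd : HasFDerivAt F ((fderiv ℝ G 0).prod (ContinuousLinearMap.snd ℝ V W)) 0 :=
    hG.differentiableAt.hasFDerivAt.prodMk hasFDerivAt_snd
  have hinj : Function.Injective ((fderiv ℝ G 0).prod (ContinuousLinearMap.snd ℝ V W)) := by
    rw [injective_iff_map_eq_zero]
    rintro ⟨v, μ⟩ h
    have h1 : fderiv ℝ G 0 (v, μ) = 0 := congrArg Prod.fst h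
    have h2 : μ = 0 := congrArg Prod.snd h
    subst h2
    rw [hi v h1]
    rfl
  have hbij : Function.Bijective ((fderiv ℝ G 0).prod (ContinuousLinearMap.snd ℝ V W)) :=
    ⟨hinj, LinearMap.surjective_of_injective
      (f := (((fderiv ℝ G 0).prod (ContinuousLinearMap.snd ℝ V W) : V × W →L[ℝ] V × W) :
        V × W →ₗ[ℝ] V × W)) hinj⟩
  obtain ⟨e, he⟩ := c2_equiv hbij
  obtain ⟨g, hg, hg0, -, -, hr⟩ := exists_local_inverse hFa e (by rw [hFd.fderiv, he])
  have hF0 : F 0 = 0 := by simp [hF, h0]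
  rw [hF0] at hg hg0 hr
  have hin : AnalyticAt ℝ (fun μ : W => ((0 : V), μ)) 0 := analyticAt_const.prod analyticAt_id
  have hz : AnalyticAt ℝ (fun μ : W => (g (0, μ)).1) 0 :=
    analyticAt_fst.comp (hg.comp_of_eq hin rfl)
  have hz0 : (g ((0 : V), (0 : W))).1 = 0 := congrArg Prod.fst hg0
  have hev : ∀ᶠ μ in 𝓝 (0 : W), G ((g (0, μ)).1, μ) = 0 := by
    have ht : Tendsto (fun μ : W => ((0 : V), μ)) (𝓝 0) (𝓝 0) := hin.continuousAt
    filter_upwards [ht.eventually hr] with μ hμ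
    have h1 : G (g (0, μ)) = 0 := congrArg Prod.fst hμ
    have h2 : (g (0, μ)).2 = μ := congrArg Prod.snd hμ
    have h3 : ((g (0, μ)).1, μ) = g (0, μ) := Prod.ext rfl h2.symm
    rw [h3, h1]
  refine ⟨fun μ => (g (0, μ)).1, hz, hz0, hev, fun ν => ?_⟩
  have h1 : HasFDerivAt (fun μ : W => ((g (0, μ)).1, μ))
      ((fderiv ℝ (fun μ : W => (g (0, μ)).1) 0).prod (ContinuousLinearMap.id ℝ W)) 0 :=
    hz.differentiableAt.hasFDerivAt.prodMk (hasFDerivAt_id _)
  have h2 : HasFDerivAt G (fderiv ℝ G 0) ((g ((0 : V), (0 : W))).1, (0 : W)) := by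
    rw [hz0]
    exact hG.differentiableAt.hasFDerivAt
  have h3 := HasFDerivAt.comp (g := G) (f := fun μ : W => ((g (0, μ)).1, μ)) (0 : W) h2 h1
  have h4 : HasFDerivAt (G ∘ fun μ : W => ((g (0, μ)).1, μ)) (0 : W →L[ℝ] V) 0 :=
    (hasFDerivAt_const (0 : V) (0 : W)).congr_of_eventuallyEq hev
  exact congrArg (fun L : W →L[ℝ] V => L ν) (h3.unique h4)

/-- Invert μ ↦ (w μ, π μ), π a projection onto the kernel of the derivative; transport the kernel
to Fin n → ℝ (or keep any finite dimensional normed space). -/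
theorem exists_reparam {w : V → W} (hw : AnalyticAt ℝ w 0) (h0 : w 0 = 0)
    (hs : Function.Surjective (fderiv ℝ w 0)) :
    ∃ (n : ℕ) (b : W × (Fin n → ℝ) → V) (b' : (W × (Fin n → ℝ)) ≃L[ℝ] V), AnalyticAt ℝ b 0 ∧
      b 0 = 0 ∧ fderiv ℝ b 0 = (b' : W × (Fin n → ℝ) →L[ℝ] V) ∧
      ∀ᶠ y in 𝓝 (0 : W × (Fin n → ℝ)), w (b y) = y.1 := by
  set A : V →L[ℝ] W := fderiv ℝ w 0 with hA
  set K : Submodule ℝ V := LinearMap.ker (A : V →ₗ[ℝ] W) with hK
  obtain ⟨p, hp⟩ := LinearMap.exists_extend (p := K) (LinearMap.id : K →ₗ[ℝ] K)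
  have hp' : ∀ k : K, p k = k := fun k => congrArg (fun L : K →ₗ[ℝ] K => L k) hp
  set n := Module.finrank ℝ K with hn
  let e : K ≃ₗ[ℝ] (Fin n → ℝ) := LinearEquiv.ofFinrankEq _ _ (by simp [hn])
  let P : V →L[ℝ] (Fin n → ℝ) := LinearMap.toContinuousLinearMap (e.toLinearMap.comp p)
  have hP : ∀ v, P v = e (p v) := fun v => rfl
  have hbij : Function.Bijective (A.prod P) := by
    constructor
    · rw [injective_iff_map_eq_zero]
      intro v h
      have h1 : A v = 0 := congrArg Prod.fst h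
      have h2 : e (p v) = 0 := congrArg Prod.snd h
      have h3 : p v = 0 := by simpa using h2
      have h4 := hp' ⟨v, h1⟩
      rw [h3] at h4
      exact (congrArg Subtype.val h4).symm
    · rintro ⟨y, u⟩
      obtain ⟨v0, hv0⟩ := hs y
      refine ⟨v0 + ((e.symm u - p v0 : K) : V), Prod.ext ?_ ?_⟩
      · have h1 : A ((e.symm u - p v0 : K) : V) = 0 := (e.symm u - p v0 : K).2
        change A (v0 + _) = y
        rw [map_add, h1, hv0, add_zero]
      · change e (p (v0 + _)) = u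
        rw [map_add p, hp']
        simp
  obtain ⟨f', hf'⟩ := c2_equiv hbij
  set F : V → W × (Fin n → ℝ) := fun v => (w v, P v) with hF
  have hFa : AnalyticAt ℝ F 0 := hw.prod (P.analyticAt 0)
  have hFd : HasFDerivAt F (A.prod P) 0 :=
    hw.differentiableAt.hasFDerivAt.prodMk P.hasFDerivAt
  obtain ⟨g, hg, hg0, hgd, -, hr⟩ := exists_local_inverse hFa f' (by rw [hFd.fderiv, hf'])
  have hF0 : F 0 = 0 := by simp [hF, h0]
  rw [hF0] at hg hg0 hr hgd
  refine ⟨n, g, f'.symm, hg, hg0, hgd, ?_⟩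
  filter_upwards [hr] with y hy
  exact congrArg Prod.fst hy

variable {N : ℕ}

theorem c2_single (j : Fin N) (s : ℂ) :
    (Pi.single j s : Cn N) =
      s.re • (Pi.single j 1 : Cn N) + s.im • (Pi.single j Complex.I : Cn N) := by
  funext k
  by_cases h : k = j
  · subst h
    simp
  · simp [Pi.single_eq_of_ne h]

theorem c2_dg_single (l : Fin N → ℂ) (j : Fin N) (s : ℂ) :
    dg l (Pi.single j s) = Pi.single j (l j * s) := by
  funext k
  by_cases h : k = j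
  · subst h
    simp
  · simp [Pi.single_eq_of_ne h]

theorem c2_expand (J : Cn N →L[ℝ] Cn N →L[ℝ] ℝ) (j k : Fin N) (s t : ℂ) :
    J (Pi.single j s) (Pi.single k t) =
      s.re * t.re * J (Pi.single j 1) (Pi.single k 1) +
      s.re * t.im * J (Pi.single j 1) (Pi.single k Complex.I) +
      s.im * t.re * J (Pi.single j Complex.I) (Pi.single k 1) +
      s.im * t.im * J (Pi.single j Complex.I) (Pi.single k Complex.I) := by
  rw [c2_single j s, c2_single k t]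
  simp only [map_add, map_smul, _root_.add_apply, _root_.smul_apply,
    smul_eq_mul]
  ring

theorem c2_same {J : Cn N →L[ℝ] Cn N →L[ℝ] ℝ} (ha : ∀ v w, J v w = -J w v) (j : Fin N)
    (s t : ℂ) :
    J (Pi.single j s) (Pi.single j t) =
      J (Pi.single j 1) (Pi.single j Complex.I) * ((starRingEnd ℂ) s * t).im := by
  have h0 : ∀ v, J v v = 0 := fun v => by linarith [ha v v]
  rw [c2_expand, h0, h0, ha (Pi.single j Complex.I) (Pi.single j 1)]
  simp only [Complex.mul_im, Complex.conj_re, Complex.conj_im]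
  ring

theorem c2_off {J : Cn N →L[ℝ] Cn N →L[ℝ] ℝ} {l : Fin N → ℂ}
    (hi : ∀ v w, J (dg l v) (dg l w) = J v w) (hn : Nonres l) (h1 : ∀ j, ‖l j‖ = 1)
    {j k : Fin N} (hjk : j ≠ k) (s t : ℂ) : J (Pi.single j s) (Pi.single k t) = 0 := by
  set p := J (Pi.single j 1) (Pi.single k 1) with hp
  set q := J (Pi.single j 1) (Pi.single k Complex.I) with hq
  set r := J (Pi.single j Complex.I) (Pi.single k 1) with hr
  set u := J (Pi.single j Complex.I) (Pi.single k Complex.I) with hu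
  have key : ∀ s t : ℂ, J (Pi.single j (l j * s)) (Pi.single k (l k * t)) =
      J (Pi.single j s) (Pi.single k t) := fun s t => by
    rw [← c2_dg_single, ← c2_dg_single, hi]
  have e1 := key 1 1
  have e2 := key 1 Complex.I
  have e3 := key Complex.I 1
  have e4 := key Complex.I Complex.I
  rw [c2_expand] at e1 e2 e3 e4
  simp only [← hp, ← hq, ← hr, ← hu, mul_one, Complex.mul_re, Complex.mul_im, Complex.I_re,
    Complex.I_im, mul_zero, zero_sub, add_zero] at e1 e2 e3 e4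
  have hk : l k * (starRingEnd ℂ) (l k) = 1 := by
    rw [Complex.mul_conj, Complex.normSq_eq_norm_sq, h1 k]
    simp
  have ha : (⟨p - u, -(q + r)⟩ : ℂ) * (l j * l k - 1) = 0 := by
    apply Complex.ext
    · simp only [Complex.mul_re, Complex.mul_im, Complex.sub_re, Complex.sub_im, Complex.one_re,
        Complex.one_im, Complex.zero_re]
      linarith
    · simp only [Complex.mul_re, Complex.mul_im, Complex.sub_re, Complex.sub_im, Complex.one_re,
        Complex.one_im, Complex.zero_im]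
      linarith
  have hb : (⟨p + u, q - r⟩ : ℂ) * (l j * (starRingEnd ℂ) (l k) - 1) = 0 := by
    apply Complex.ext
    · simp only [Complex.mul_re, Complex.mul_im, Complex.sub_re, Complex.sub_im, Complex.one_re,
        Complex.one_im, Complex.zero_re, Complex.conj_re, Complex.conj_im]
      linarith
    · simp only [Complex.mul_re, Complex.mul_im, Complex.sub_re, Complex.sub_im, Complex.one_re,
        Complex.one_im, Complex.zero_im, Complex.conj_re, Complex.conj_im]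
      linarith
  have ha' : (⟨p - u, -(q + r)⟩ : ℂ) = 0 := by
    refine (mul_eq_zero.1 ha).resolve_right fun h => hn.2 j k ?_
    have h' : l j * l k = 1 := sub_eq_zero.1 h
    calc l j = l j * (l k * (starRingEnd ℂ) (l k)) := by rw [hk, mul_one]
      _ = (starRingEnd ℂ) (l k) := by rw [← mul_assoc, h', one_mul]
  have hb' : (⟨p + u, q - r⟩ : ℂ) = 0 := by
    refine (mul_eq_zero.1 hb).resolve_right fun h => hn.1 j k hjk ?_
    have h' : l j * (starRingEnd ℂ) (l k) = 1 := sub_eq_zero.1 h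
    calc l j = l j * (l k * (starRingEnd ℂ) (l k)) := by rw [hk, mul_one]
      _ = (l j * (starRingEnd ℂ) (l k)) * l k := by ring
      _ = l k := by rw [h', one_mul]
  have a1 : p - u = 0 := congrArg Complex.re ha'
  have a2 : -(q + r) = 0 := congrArg Complex.im ha'
  have b1 : p + u = 0 := congrArg Complex.re hb'
  have b2 : q - r = 0 := congrArg Complex.im hb'
  have hp0 : p = 0 := by linarith
  have hq0 : q = 0 := by linarith
  have hr0 : r = 0 := by linarith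
  have hu0 : u = 0 := by linarith
  rw [c2_expand, ← hp, ← hq, ← hr, ← hu, hp0, hq0, hr0, hu0]
  ring

theorem norm_eq_one_of_inv {J : Cn N →L[ℝ] Cn N →L[ℝ] ℝ} {l : Fin N → ℂ}
    (ha : ∀ v w, J v w = -J w v) (hi : ∀ v w, J (dg l v) (dg l w) = J v w) {j : Fin N}
    (hj : J (Pi.single j 1) (Pi.single j Complex.I) ≠ 0) : ‖l j‖ = 1 := by
  have h := hi (Pi.single j 1) (Pi.single j Complex.I)
  rw [c2_dg_single, c2_dg_single, c2_same ha] at h
  have h2 : ((starRingEnd ℂ) (l j * 1) * (l j * Complex.I)).im = ‖l j‖ ^ 2 := by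
    rw [← Complex.normSq_eq_norm_sq, Complex.normSq_apply]
    simp
  rw [h2] at h
  have h3 : ‖l j‖ ^ 2 = 1 := mul_left_cancel₀ hj (h.trans (mul_one _).symm)
  have h4 : 0 ≤ ‖l j‖ := norm_nonneg _
  nlinarith

/-- For j ≠ k the real bilinear form (s, t) ↦ J (single j s) (single k t) is
re (a * s * t + b * s * conj t) and invariance gives a * l j * l k = a, b * l j * conj (l k) = b. -/
theorem form_diag {J : Cn N →L[ℝ] Cn N →L[ℝ] ℝ} {l : Fin N → ℂ} (ha : ∀ v w, J v w = -J w v)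
    (hi : ∀ v w, J (dg l v) (dg l w) = J v w) (hn : Nonres l) (h1 : ∀ j, ‖l j‖ = 1) (v w : Cn N) :
    J v w = ∑ j, J (Pi.single j 1) (Pi.single j Complex.I) * ((starRingEnd ℂ) (v j) * w j).im := by
  have hv : v = ∑ j, (Pi.single j (v j) : Cn N) := (Finset.univ_sum_single v).symm
  have hw : w = ∑ j, (Pi.single j (w j) : Cn N) := (Finset.univ_sum_single w).symm
  have h : J v w = J (∑ j, (Pi.single j (v j) : Cn N)) (∑ j, (Pi.single j (w j) : Cn N)) := by
    rw [← hv, ← hw]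
  rw [h, map_sum J, _root_.sum_apply]
  refine Finset.sum_congr rfl fun j _ => ?_
  rw [map_sum, Finset.sum_eq_single j, c2_same ha]
  · intro k _ hk
    exact c2_off hi hn h1 (Ne.symm hk) _ _
  · intro hj
    exact absurd (Finset.mem_univ j) hj

/-- Analytic choice of arguments: w μ j = im (log (l μ j / l 0 j)). -/
theorem exists_arg {l : V → Fin N → ℂ} (hl : AnalyticAt ℝ l 0)
    (h1 : ∀ᶠ μ in 𝓝 (0 : V), ∀ j, ‖l μ j‖ = 1) :
    ∃ (ω0 : T N) (w : V → T N), AnalyticAt ℝ w 0 ∧ w 0 = 0 ∧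
      (∀ᶠ μ in 𝓝 (0 : V), dg (l μ) = rot (ω0 + w μ)) ∧
      ∀ ν j, fderiv ℝ w 0 ν j = ((starRingEnd ℂ) (l 0 j) * fderiv ℝ l 0 ν j).im := by
  have h0 : ∀ j, ‖l 0 j‖ = 1 := h1.self_of_nhds
  have hk : ∀ j, (starRingEnd ℂ) (l 0 j) * l 0 j = 1 := fun j => by
    rw [mul_comm, Complex.mul_conj, Complex.normSq_eq_norm_sq, h0 j]
    simp
  have hlj : ∀ j, AnalyticAt ℝ (fun μ => l μ j) 0 := fun j => analyticAt_pi_iff.1 hl j
  have hq : ∀ j, AnalyticAt ℝ (fun μ => (starRingEnd ℂ) (l 0 j) * l μ j) 0 := fun j =>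
    analyticAt_const.mul (hlj j)
  have hlog : AnalyticAt ℝ Complex.log 1 :=
    (analyticAt_clog Complex.one_mem_slitPlane).restrictScalars
  have hwj : ∀ j, AnalyticAt ℝ
      (fun μ => (Complex.log ((starRingEnd ℂ) (l 0 j) * l μ j)).im) 0 := fun j =>
    (Complex.imCLM.analyticAt _).comp (hlog.comp_of_eq (hq j) (hk j))
  refine ⟨fun j => Complex.arg (l 0 j),
    fun μ j => (Complex.log ((starRingEnd ℂ) (l 0 j) * l μ j)).im,
    analyticAt_pi_iff.2 hwj, ?_, ?_, fun ν j => ?_⟩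
  · funext j
    simp [hk j]
  · filter_upwards [h1] with μ hμ
    unfold rot
    congr 1
    funext j
    have hn : ‖(starRingEnd ℂ) (l 0 j) * l μ j‖ = 1 := by
      rw [norm_mul, Complex.norm_conj, h0 j, hμ j, one_mul]
    have e1 := Complex.norm_mul_exp_arg_mul_I (l 0 j)
    have e2 := Complex.norm_mul_exp_arg_mul_I ((starRingEnd ℂ) (l 0 j) * l μ j)
    rw [h0 j, Complex.ofReal_one, one_mul] at e1
    rw [hn, Complex.ofReal_one, one_mul] at e2
    rw [Pi.add_apply, Complex.ofReal_add, add_mul, Complex.exp_add, Complex.log_im, e1, e2,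
      ← mul_assoc, mul_comm (l 0 j), hk j, one_mul]
  · have d1 : HasFDerivAt (fun μ => l μ j)
        ((ContinuousLinearMap.proj j : (Fin N → ℂ) →L[ℝ] ℂ).comp (fderiv ℝ l 0)) 0 :=
      hasFDerivAt_pi'.1 hl.differentiableAt.hasFDerivAt j
    have d2 := d1.const_mul ((starRingEnd ℂ) (l 0 j))
    have d3 : HasFDerivAt Complex.log (ContinuousLinearMap.id ℝ ℂ)
        ((starRingEnd ℂ) (l 0 j) * l 0 j) := by
      rw [hk j]
      have := (Complex.hasStrictDerivAt_log Complex.one_mem_slitPlane).hasDerivAt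
      have h2 := this.hasFDerivAt.restrictScalars ℝ
      refine h2.congr_fderiv ?_
      ext
      simp
    have d4 := Complex.imCLM.hasFDerivAt.comp (0 : V) (d3.comp (0 : V) d2)
    have d5 : HasFDerivAt (fun μ => (Complex.log ((starRingEnd ℂ) (l 0 j) * l μ j)).im)
        ((ContinuousLinearMap.proj j : (Fin N → ℝ) →L[ℝ] ℝ).comp (fderiv ℝ
          (fun μ j => (Complex.log ((starRingEnd ℂ) (l 0 j) * l μ j)).im) 0)) 0 :=
      hasFDerivAt_pi'.1 (analyticAt_pi_iff.2 hwj).differentiableAt.hasFDerivAt j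
    exact congrArg (fun L : V →L[ℝ] ℝ => L ν) (d5.unique d4)

end Pool.Agent.MP_28624d_gt.K

end

section

/-!
Diagonalization of perturbations of a nonresonant diagonal map: analytic families, and a
quantitative version.
-/

set_option maxSynthPendingDepth 3

namespace Pool.Agent.MP_28624d_gt.K

open Real Filter Topology

variable {N : ℕ} {M : Type} [NormedAddCommGroup M] [NormedSpace ℝ M] [FiniteDimensional ℝ M]

/-- The complex linear coefficient. -/
noncomputable def c3_a (Y : Cn N →L[ℝ] Cn N) (j k : Fin N) : ℂ :=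
  (Y (Pi.single k 1) j - Complex.I * Y (Pi.single k Complex.I) j) / 2

/-- The antilinear coefficient. -/
noncomputable def c3_b (Y : Cn N →L[ℝ] Cn N) (j k : Fin N) : ℂ :=
  (Y (Pi.single k 1) j + Complex.I * Y (Pi.single k Complex.I) j) / 2

theorem c3_single (Y : Cn N →L[ℝ] Cn N) (j k : Fin N) (t : ℂ) :
    Y (Pi.single k t) j = c3_a Y j k * t + c3_b Y j k * (starRingEnd ℂ) t := by
  have h : (Pi.single k t : Cn N) = t.re • (Pi.single k 1 : Cn N) +
      t.im • (Pi.single k Complex.I : Cn N) := by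
    rw [← Pi.single_smul, ← Pi.single_smul, ← Pi.single_add]
    congr 1
    apply Complex.ext <;> simp
  rw [h, map_add, map_smul, map_smul]
  simp only [Pi.add_apply, Pi.smul_apply, c3_a, c3_b, Complex.real_smul]
  have h1 : t = t.re + t.im * Complex.I := (Complex.re_add_im t).symm
  have h2 : (starRingEnd ℂ) t = t.re - t.im * Complex.I := by
    apply Complex.ext <;> simp
  rw [h2]
  generalize Y (Pi.single k 1) j = u
  generalize Y (Pi.single k Complex.I) j = v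
  have h3 : Complex.I * Complex.I = -1 := Complex.I_mul_I
  conv_rhs => rw [h1]
  simp only [Complex.add_re, Complex.ofReal_re, Complex.mul_re, Complex.I_re, mul_zero,
    Complex.ofReal_im, Complex.I_im, mul_one, sub_self, add_zero, Complex.add_im, Complex.mul_im,
    zero_add]
  linear_combination (v * (t.im : ℂ)) * h3

theorem c3_uniq {Y : Cn N →L[ℝ] Cn N} {j k : Fin N} {a b : ℂ}
    (h : ∀ t, Y (Pi.single k t) j = a * t + b * (starRingEnd ℂ) t) :
    c3_a Y j k = a ∧ c3_b Y j k = b := by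
  have h3 : Complex.I * Complex.I = -1 := Complex.I_mul_I
  constructor
  · rw [c3_a, h, h]; simp only [map_one, Complex.conj_I]
    linear_combination (-(a - b) / 2) * h3
  · rw [c3_b, h, h]; simp only [map_one, Complex.conj_I]
    linear_combination ((a - b) / 2) * h3

theorem c3_apply (Y : Cn N →L[ℝ] Cn N) (z : Cn N) (j : Fin N) :
    Y z j = ∑ k, (c3_a Y j k * z k + c3_b Y j k * (starRingEnd ℂ) (z k)) := by
  conv_lhs => rw [← Finset.univ_sum_single z, map_sum, Finset.sum_apply]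
  exact Finset.sum_congr rfl fun k _ => c3_single Y j k (z k)

theorem c3_entry_le (Y : Cn N →L[ℝ] Cn N) (j k : Fin N) {t : ℂ} (ht : ‖t‖ = 1) :
    ‖Y (Pi.single k t) j‖ ≤ ‖Y‖ := by
  calc ‖Y (Pi.single k t) j‖ ≤ ‖Y (Pi.single k t)‖ := norm_le_pi_norm _ j
    _ ≤ ‖Y‖ * ‖(Pi.single k t : Cn N)‖ := Y.le_opNorm _
    _ = ‖Y‖ := by rw [Pi.norm_single, ht, mul_one]

theorem c3_a_le (Y : Cn N →L[ℝ] Cn N) (j k : Fin N) : ‖c3_a Y j k‖ ≤ ‖Y‖ := by
  have h1 := c3_entry_le Y j k (t := 1) norm_one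
  have h2 := c3_entry_le Y j k (t := Complex.I) Complex.norm_I
  have h3 := norm_sub_le (Y (Pi.single k 1) j) (Complex.I * Y (Pi.single k Complex.I) j)
  rw [norm_mul, Complex.norm_I, one_mul] at h3
  rw [c3_a, norm_div, Complex.norm_two]
  linarith

theorem c3_b_le (Y : Cn N →L[ℝ] Cn N) (j k : Fin N) : ‖c3_b Y j k‖ ≤ ‖Y‖ := by
  have h1 := c3_entry_le Y j k (t := 1) norm_one
  have h2 := c3_entry_le Y j k (t := Complex.I) Complex.norm_I
  have h3 := norm_add_le (Y (Pi.single k 1) j) (Complex.I * Y (Pi.single k Complex.I) j)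
  rw [norm_mul, Complex.norm_I, one_mul] at h3
  rw [c3_b, norm_div, Complex.norm_two]
  linarith

theorem c3_norm_le {Y : Cn N →L[ℝ] Cn N} {m : ℝ} (hm : 0 ≤ m) (ha : ∀ j k, ‖c3_a Y j k‖ ≤ m)
    (hb : ∀ j k, ‖c3_b Y j k‖ ≤ m) : ‖Y‖ ≤ 2 * N * m := by
  refine ContinuousLinearMap.opNorm_le_bound _ (by positivity) fun z => ?_
  refine (pi_norm_le_iff_of_nonneg (by positivity)).2 fun j => ?_
  rw [c3_apply]
  calc ‖∑ k, (c3_a Y j k * z k + c3_b Y j k * (starRingEnd ℂ) (z k))‖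
      ≤ ∑ k, ‖c3_a Y j k * z k + c3_b Y j k * (starRingEnd ℂ) (z k)‖ := norm_sum_le _ _
    _ ≤ ∑ _k : Fin N, 2 * m * ‖z‖ := by
        refine Finset.sum_le_sum fun k _ => ?_
        have h1 : ‖z k‖ ≤ ‖z‖ := norm_le_pi_norm z k
        have h2 := norm_add_le (c3_a Y j k * z k) (c3_b Y j k * (starRingEnd ℂ) (z k))
        rw [norm_mul, norm_mul, Complex.norm_conj] at h2
        have h3 := mul_le_mul (ha j k) h1 (norm_nonneg _) hm
        have h4 := mul_le_mul (hb j k) h1 (norm_nonneg _) hm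
        linarith
    _ = 2 * N * m * ‖z‖ := by simp; ring

theorem c3_dg_single (l : Fin N → ℂ) (k : Fin N) (t : ℂ) :
    dg l (Pi.single k t) = Pi.single k (l k * t) := by
  funext i
  rw [dg_apply]
  by_cases h : i = k
  · subst h; simp
  · simp [Pi.single_eq_of_ne h]

theorem c3_op (l m : Fin N → ℂ) (Y : Cn N →L[ℝ] Cn N) (j k : Fin N) :
    c3_a (dg l * Y - Y * dg l + dg m) j k =
        (l j - l k) * c3_a Y j k + (if j = k then m j else 0) ∧
      c3_b (dg l * Y - Y * dg l + dg m) j k = (l j - (starRingEnd ℂ) (l k)) * c3_b Y j k := by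
  apply c3_uniq
  intro t
  simp only [ContinuousLinearMap.add_apply, ContinuousLinearMap.sub_apply,
    ContinuousLinearMap.mul_apply, Pi.add_apply, Pi.sub_apply, dg_apply]
  rw [c3_dg_single, c3_single, c3_single, map_mul]
  by_cases h : j = k
  · subst h; simp; ring
  · simp [Pi.single_eq_of_ne h, h]; ring

theorem c3_dg_zero : dg (0 : Fin N → ℂ) = 0 := by
  ext z j; simp

/-- dg as a continuous linear map. -/
noncomputable def c3_dgL (N : ℕ) : (Fin N → ℂ) →L[ℝ] Cn N →L[ℝ] Cn N :=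
  LinearMap.toContinuousLinearMap
    { toFun := dg
      map_add' := fun a b => by ext z j; simp [add_mul]
      map_smul' := fun c a => by ext z j; simp [mul_assoc] }

theorem c3_dgL_apply (l : Fin N → ℂ) : c3_dgL N l = dg l := rfl

/-- dgc as a continuous linear map. -/
noncomputable def c3_dgcL (N : ℕ) : (Cn N →L[ℝ] Cn N) →L[ℝ] Fin N → ℂ :=
  LinearMap.toContinuousLinearMap
    { toFun := dgc
      map_add' := fun a b => by funext j; simp [dgc]; ring
      map_smul' := fun c a => by funext j; simp [dgc]; ring }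

theorem c3_dgcL_apply (Y : Cn N →L[ℝ] Cn N) : c3_dgcL N Y = dgc Y := rfl

/-- The diagonal projection. -/
noncomputable def c3_P (N : ℕ) : (Cn N →L[ℝ] Cn N) →L[ℝ] Cn N →L[ℝ] Cn N :=
  (c3_dgL N).comp (c3_dgcL N)

theorem c3_P_apply (Y : Cn N →L[ℝ] Cn N) : c3_P N Y = dg (dgc Y) := rfl

theorem c3_dg_comm (l m : Fin N → ℂ) : dg l * dg m = dg m * dg l := by
  ext z j
  simp only [ContinuousLinearMap.mul_apply, dg_apply]
  ring

theorem c3_norm_dg (l : Fin N → ℂ) : ‖dg l‖ ≤ ‖l‖ := by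
  refine ContinuousLinearMap.opNorm_le_bound _ (norm_nonneg _) fun z => ?_
  refine (pi_norm_le_iff_of_nonneg (by positivity)).2 fun j => ?_
  rw [dg_apply, norm_mul]
  exact mul_le_mul (norm_le_pi_norm l j) (norm_le_pi_norm z j) (norm_nonneg _) (norm_nonneg _)

theorem c3_norm_dgc (Y : Cn N →L[ℝ] Cn N) : ‖dgc Y‖ ≤ ‖Y‖ :=
  (pi_norm_le_iff_of_nonneg (norm_nonneg _)).2 fun j => c3_a_le Y j j

theorem c3_norm_P (Y : Cn N →L[ℝ] Cn N) : ‖c3_P N Y‖ ≤ ‖Y‖ :=
  (c3_norm_dg _).trans (c3_norm_dgc Y)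

/-- The homological operator. -/
noncomputable def c3_L (l : Fin N → ℂ) : (Cn N →L[ℝ] Cn N) →L[ℝ] Cn N →L[ℝ] Cn N :=
  ContinuousLinearMap.mul ℝ (Cn N →L[ℝ] Cn N) (dg l) -
    (ContinuousLinearMap.mul ℝ (Cn N →L[ℝ] Cn N)).flip (dg l) + c3_P N

theorem c3_L_apply (l : Fin N → ℂ) (Y : Cn N →L[ℝ] Cn N) :
    c3_L l Y = dg l * Y - Y * dg l + dg (dgc Y) := rfl

theorem c3_expand (A D Y Q : Cn N →L[ℝ] Cn N) (h : D * Q = Q * D) :
    A * (1 + Y - Q) - (1 + Y - Q) * (D - Q) =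
      (A - D) + (A - D) * (Y - Q) + (D * Y - Y * D + Q) + (Y - Q) * Q := by
  have : A * (1 + Y - Q) - (1 + Y - Q) * (D - Q) =
      (A - D) + (A - D) * (Y - Q) + (D * Y - Y * D + Q) + (Y - Q) * Q - (D * Q - Q * D) := by
    noncomm_ring
  rw [this, h, sub_self, sub_zero]

theorem dgc_dg (l : Fin N → ℂ) (j : Fin N) : dgc (dg l) j = l j := by
  have h3 : Complex.I * Complex.I = -1 := Complex.I_mul_I
  simp only [dgc, dg_apply, Pi.single_eq_same]
  linear_combination (-(l j) / 2) * h3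

/-- The diagonal part of a commutator with a diagonal map vanishes. -/
theorem dgc_comm (l : Fin N → ℂ) (Y : Cn N →L[ℝ] Cn N) (j : Fin N) :
    dgc (dg l * Y - Y * dg l) j = 0 := by
  have h := (c3_op l 0 Y j j).1
  rw [c3_dg_zero, add_zero] at h
  change c3_a _ j j = 0
  simpa using h

/-- The homological operator is bounded below. Every real linear Y has
Y z j = ∑ k, (a j k * z k + b j k * conj (z k)) with |a j k|, |b j k| ≤ ‖Y‖,
‖Y‖ ≤ 2 N max (|a|, |b|), dgc Y j = a j j; the operator multiplies a j k by l j - l k for j ≠ k,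
a j j by one, and b j k by l j - conj (l k). -/
theorem homological_lower {l : Fin N → ℂ} {g : ℝ} (hg : 0 < g) (hg1 : g ≤ 1)
    (h1 : ∀ j k, j ≠ k → g ≤ ‖l j - l k‖) (h2 : ∀ j k, g ≤ ‖l j - (starRingEnd ℂ) (l k)‖)
    (Y : Cn N →L[ℝ] Cn N) :
    g * ‖Y‖ ≤ 2 * N * ‖dg l * Y - Y * dg l + dg (dgc Y)‖ := by
  set Z := dg l * Y - Y * dg l + dg (dgc Y) with hZ
  have ha : ∀ j k, ‖c3_a Y j k‖ ≤ ‖Z‖ / g := by
    intro j k
    rw [le_div_iff₀ hg]
    have h := c3_a_le Z j k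
    rw [hZ, (c3_op l (dgc Y) Y j k).1, ← hZ] at h
    by_cases hjk : j = k
    · subst hjk
      have e : dgc Y j = c3_a Y j j := rfl
      simp only [sub_self, zero_mul, zero_add, if_true, e] at h
      nlinarith [norm_nonneg (c3_a Y j j)]
    · simp only [hjk, if_false, add_zero, norm_mul] at h
      nlinarith [norm_nonneg (c3_a Y j k), h1 j k hjk]
  have hb : ∀ j k, ‖c3_b Y j k‖ ≤ ‖Z‖ / g := by
    intro j k
    rw [le_div_iff₀ hg]
    have h := c3_b_le Z j k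
    rw [hZ, (c3_op l (dgc Y) Y j k).2, ← hZ, norm_mul] at h
    nlinarith [norm_nonneg (c3_b Y j k), h2 j k]
  have h := c3_norm_le (by positivity) ha hb
  calc g * ‖Y‖ ≤ g * (2 * N * (‖Z‖ / g)) := by gcongr
    _ = 2 * N * ‖Z‖ := by field_simp

theorem c3_inj {l : Fin N → ℂ} (hn : Nonres l) {Y : Cn N →L[ℝ] Cn N} (h : c3_L l Y = 0) :
    Y = 0 := by
  rw [c3_L_apply] at h
  have ha : ∀ j k, ‖c3_a Y j k‖ ≤ 0 := by
    intro j k
    have h1 := (c3_op l (dgc Y) Y j k).1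
    rw [h] at h1
    have h0 : c3_a (0 : Cn N →L[ℝ] Cn N) j k = 0 := by simp [c3_a]
    rw [h0] at h1
    by_cases hjk : j = k
    · subst hjk
      have e : dgc Y j = c3_a Y j j := rfl
      simp only [sub_self, zero_mul, zero_add, if_true, e] at h1
      rw [← h1]; simp
    · simp only [hjk, if_false, add_zero] at h1
      rcases mul_eq_zero.1 h1.symm with h2 | h2
      · exact absurd (sub_eq_zero.1 h2) (hn.1 j k hjk)
      · rw [h2]; simp
  have hb : ∀ j k, ‖c3_b Y j k‖ ≤ 0 := by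
    intro j k
    have h1 := (c3_op l (dgc Y) Y j k).2
    rw [h] at h1
    have h0 : c3_b (0 : Cn N →L[ℝ] Cn N) j k = 0 := by simp [c3_b]
    rw [h0] at h1
    rcases mul_eq_zero.1 h1.symm with h2 | h2
    · exact absurd (sub_eq_zero.1 h2) (hn.2 j k)
    · rw [h2]; simp
  have h1 := c3_norm_le le_rfl ha hb
  rw [mul_zero] at h1
  exact norm_le_zero_iff.1 h1

/-- Apply exists_implicit to G (Y, μ) = A μ * (1 + Y - Π Y) - (1 + Y - Π Y) * (dg l0 - Π Y) with
Π Y = dg (dgc Y); its partial derivative in Y is Y ↦ dg l0 * Y - Y * dg l0 + Π Y because Π Y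
commutes with dg l0. Put X = 1 + Y - Π Y, l = l0 - dgc Y. -/
theorem exists_diag {A : M → Cn N →L[ℝ] Cn N} {l0 : Fin N → ℂ} (hA : AnalyticAt ℝ A 0)
    (h0 : A 0 = dg l0) (hn : Nonres l0) :
    ∃ (X : M → Cn N →L[ℝ] Cn N) (l : M → Fin N → ℂ), AnalyticAt ℝ X 0 ∧ AnalyticAt ℝ l 0 ∧
      X 0 = 1 ∧ l 0 = l0 ∧ (∀ᶠ μ in 𝓝 (0 : M), A μ * X μ = X μ * dg (l μ)) ∧
      ∀ ν j, fderiv ℝ l 0 ν j = dgc (fderiv ℝ A 0 ν) j := by
  let W : (Cn N →L[ℝ] Cn N) →L[ℝ] Cn N →L[ℝ] Cn N := ContinuousLinearMap.id ℝ _ - c3_P N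
  have hW : ∀ Y, W Y = Y - c3_P N Y := fun Y => rfl
  let F := ContinuousLinearMap.fst ℝ (Cn N →L[ℝ] Cn N) M
  let E : (Cn N →L[ℝ] Cn N) × M → Cn N →L[ℝ] Cn N := fun x => A x.2 - dg l0
  let G : (Cn N →L[ℝ] Cn N) × M → Cn N →L[ℝ] Cn N := fun x =>
    E x + E x * (W.comp F) x + ((c3_L l0).comp F) x + (W.comp F) x * ((c3_P N).comp F) x
  have hE : AnalyticAt ℝ E 0 := by
    have h1 : AnalyticAt ℝ (fun x : (Cn N →L[ℝ] Cn N) × M => A x.2) 0 :=
      AnalyticAt.comp (g := A) (f := fun x : (Cn N →L[ℝ] Cn N) × M => x.2) hA analyticAt_snd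
    exact h1.sub analyticAt_const
  have hE0 : E 0 = 0 := by simp [E, h0]
  have hG : AnalyticAt ℝ G 0 :=
    ((hE.add (hE.mul ((W.comp F).analyticAt 0))).add (((c3_L l0).comp F).analyticAt 0)).add
      (((W.comp F).analyticAt 0).mul (((c3_P N).comp F).analyticAt 0))
  have hG0 : G 0 = 0 := by simp [G, hE0]
  have hEd : HasFDerivAt E ((fderiv ℝ A 0).comp (ContinuousLinearMap.snd ℝ _ M))
      (0 : (Cn N →L[ℝ] Cn N) × M) := by
    have h1 : HasFDerivAt (fun x : (Cn N →L[ℝ] Cn N) × M => A x.2)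
        ((fderiv ℝ A 0).comp (ContinuousLinearMap.snd ℝ _ M)) (0 : (Cn N →L[ℝ] Cn N) × M) :=
      HasFDerivAt.comp (g := A) (f := fun x : (Cn N →L[ℝ] Cn N) × M => x.2) 0
        hA.differentiableAt.hasFDerivAt hasFDerivAt_snd
    exact h1.sub_const _
  have hGd : ∀ v ν, fderiv ℝ G 0 (v, ν) = fderiv ℝ A 0 ν + c3_L l0 v := by
    intro v ν
    have h1 := ((hEd.add (hEd.mul' (W.comp F).hasFDerivAt)).add
      ((c3_L l0).comp F).hasFDerivAt).add
      ((W.comp F).hasFDerivAt.mul' ((c3_P N).comp F).hasFDerivAt)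
    have h2 : fderiv ℝ G 0 = _ := h1.fderiv
    rw [h2]
    simp [hE0, F]
  obtain ⟨z, hz, hz0, hzG, hzd⟩ := exists_implicit hG hG0 (fun v hv => by
    rw [hGd, map_zero, zero_add] at hv
    exact c3_inj hn hv)
  refine ⟨fun μ => 1 + W (z μ), fun μ => l0 - c3_dgcL N (z μ), ?_, ?_, ?_, ?_, ?_, ?_⟩
  · exact analyticAt_const.add ((W.analyticAt _).comp hz)
  · exact analyticAt_const.sub (((c3_dgcL N).analyticAt _).comp hz)
  · simp [hz0]
  · simp [hz0]
  · filter_upwards [hzG] with μ hμ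
    have h1 := c3_expand (A μ) (dg l0) (z μ) (dg (dgc (z μ))) (c3_dg_comm _ _)
    have h2 : dg (l0 - c3_dgcL N (z μ)) = dg l0 - dg (dgc (z μ)) := (c3_dgL N).map_sub _ _
    have h3 : 1 + W (z μ) = 1 + z μ - dg (dgc (z μ)) := by rw [hW, c3_P_apply, add_sub_assoc]
    rw [h2, h3, ← sub_eq_zero, h1]
    exact hμ
  · intro ν j
    have h1 : HasFDerivAt (fun μ => l0 - c3_dgcL N (z μ))
        (-((c3_dgcL N).comp (fderiv ℝ z 0))) 0 :=
      ((c3_dgcL N).hasFDerivAt.comp 0 hz.differentiableAt.hasFDerivAt).const_sub _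
    rw [h1.fderiv]
    have h2 := hzd ν
    rw [hGd, c3_L_apply] at h2
    have h3 := congrArg (fun Y => c3_dgcL N Y j) h2
    simp only [map_add, map_zero, Pi.add_apply, Pi.zero_apply] at h3
    simp only [c3_dgcL_apply, dgc_comm, dgc_dg, zero_add] at h3
    simp only [ContinuousLinearMap.neg_apply, ContinuousLinearMap.comp_apply, Pi.neg_apply,
      c3_dgcL_apply]
    linear_combination -h3

/-- A quantitative zero: a map which approximates an invertible linear map on a ball.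
ApproximatesLinearOn.surjOn_closedBall_of_nonlinearRightInverse, or a contraction. -/
theorem exists_zero {V : Type} [NormedAddCommGroup V] [NormedSpace ℝ V] [FiniteDimensional ℝ V]
    {G : V → V} {L : V →L[ℝ] V} {c r : ℝ} (hc : 0 < c) (hr : 0 ≤ r) (hL : ∀ v, c * ‖v‖ ≤ ‖L v‖)
    (hG : ∀ x y, ‖x‖ ≤ r → ‖y‖ ≤ r → ‖G x - G y - L (x - y)‖ ≤ c / 2 * ‖x - y‖)
    (h0 : ‖G 0‖ ≤ c / 2 * r) : ∃ x, ‖x‖ ≤ r ∧ G x = 0 := by
  have := FiniteDimensional.complete ℝ V
  have hinj : Function.Injective (L : V →ₗ[ℝ] V) := by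
    rw [← LinearMap.ker_eq_bot, LinearMap.ker_eq_bot']
    intro v hv
    have h1 := hL v
    have h2 : L v = 0 := hv
    rw [h2, norm_zero] at h1
    exact norm_le_zero_iff.1 (by nlinarith [norm_nonneg v])
  let e := LinearEquiv.ofInjectiveEndo (L : V →ₗ[ℝ] V) hinj
  have he : ∀ w, L (e.symm w) = w := fun w => e.apply_symm_apply w
  let Φ : V → V := fun x => x - e.symm (G x)
  have hΦ : ∀ x y, ‖x‖ ≤ r → ‖y‖ ≤ r → ‖Φ x - Φ y‖ ≤ 1 / 2 * ‖x - y‖ := by
    intro x y hx hy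
    have h1 := hL (Φ x - Φ y)
    have h2 : L (Φ x - Φ y) = -(G x - G y - L (x - y)) := by
      simp only [Φ, map_sub, he]; abel
    rw [h2, norm_neg] at h1
    have h3 := hG x y hx hy
    have h4 : c * ‖Φ x - Φ y‖ ≤ c * (1 / 2 * ‖x - y‖) := by linarith
    exact le_of_mul_le_mul_left h4 hc
  have hΦ0 : ‖Φ 0‖ ≤ r / 2 := by
    have h1 := hL (Φ 0)
    have h2 : L (Φ 0) = -G 0 := by simp only [Φ, he, zero_sub, map_neg]
    rw [h2, norm_neg] at h1
    have h4 : c * ‖Φ 0‖ ≤ c * (r / 2) := by linarith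
    exact le_of_mul_le_mul_left h4 hc
  have hmap : Set.MapsTo Φ (Metric.closedBall 0 r) (Metric.closedBall 0 r) := by
    intro x hx
    rw [mem_closedBall_zero_iff] at hx ⊢
    have h1 := hΦ x 0 hx (by simpa using hr)
    rw [sub_zero] at h1
    have h2 := norm_add_le (Φ x - Φ 0) (Φ 0)
    rw [sub_add_cancel] at h2
    linarith
  have hcon : ContractingWith (1 / 2) (hmap.restrict Φ _ _) := by
    refine ⟨by norm_num, LipschitzWith.of_dist_le_mul fun x y => ?_⟩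
    have h1 := hΦ x y (mem_closedBall_zero_iff.1 x.2) (mem_closedBall_zero_iff.1 y.2)
    rw [Subtype.dist_eq, Subtype.dist_eq, dist_eq_norm, dist_eq_norm]
    simpa using h1
  obtain ⟨x, hx, hfix, -⟩ := ContractingWith.exists_fixedPoint'
    Metric.isClosed_closedBall.isComplete hmap hcon (x := 0) (Metric.mem_closedBall_self hr)
    (edist_ne_top _ _)
  refine ⟨x, mem_closedBall_zero_iff.1 hx, ?_⟩
  have h1 : x - e.symm (G x) = x := hfix
  have h2 : e.symm (G x) = 0 := by simpa using h1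
  rw [← he (G x), h2, map_zero]

/-- exists_zero for the same G with c = g / (2 N) (treat N = 0 apart) and r = 8 N η / g;
‖Π Y‖ ≤ ‖Y‖. -/
theorem exists_diag_near {A : Cn N →L[ℝ] Cn N} {l0 : Fin N → ℂ} {g η : ℝ} (hg : 0 < g)
    (hg1 : g ≤ 1) (h1 : ∀ j k, j ≠ k → g ≤ ‖l0 j - l0 k‖)
    (h2 : ∀ j k, g ≤ ‖l0 j - (starRingEnd ℂ) (l0 k)‖) (hA : ‖A - dg l0‖ ≤ η)
    (hη : 1000 * (N + 1) ^ 2 * η ≤ g ^ 2) :
    ∃ (X : Cn N →L[ℝ] Cn N) (l : Fin N → ℂ), A * X = X * dg l ∧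
      ‖X - 1‖ ≤ 16 * (N + 1) * η / g ∧ ∀ j, ‖l j - l0 j‖ ≤ 16 * (N + 1) * η / g := by
  have hη0 : 0 ≤ η := (norm_nonneg _).trans hA
  have hN : (0 : ℝ) ≤ N := Nat.cast_nonneg N
  let W : (Cn N →L[ℝ] Cn N) →L[ℝ] Cn N →L[ℝ] Cn N := ContinuousLinearMap.id ℝ _ - c3_P N
  have hW : ∀ Y, W Y = Y - c3_P N Y := fun Y => rfl
  have hWn : ∀ Y, ‖W Y‖ ≤ 2 * ‖Y‖ := fun Y => by
    have h3 := norm_sub_le Y (c3_P N Y)
    have h4 := c3_norm_P Y
    rw [hW]; linarith
  set E := A - dg l0 with hE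
  set r := 8 * (N + 1) * η / g with hr
  have hr0 : 0 ≤ r := by positivity
  have hkey : 2 * η + 4 * r ≤ g / (2 * (N + 1)) / 2 := by
    rw [hr, div_div, le_div_iff₀ (by positivity)]
    have h3 : (2 * η + 4 * (8 * (N + 1) * η / g)) * (2 * (N + 1) * 2) =
        (8 * (N + 1) * η * g + 128 * (N + 1) ^ 2 * η) / g := by field_simp; ring
    rw [h3, div_le_iff₀ hg]
    have h4 : (N + 1) * η * g ≤ (N + 1) ^ 2 * η := by
      have : (N + 1) * η * g ≤ (N + 1) * η * (N + 1) := by gcongr; linarith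
      linarith
    have h5 : 0 ≤ ((N : ℝ) + 1) ^ 2 * η := by positivity
    nlinarith
  obtain ⟨Y, hY, hY0⟩ := exists_zero (V := Cn N →L[ℝ] Cn N)
    (G := fun Y => E + E * W Y + c3_L l0 Y + W Y * c3_P N Y) (L := c3_L l0)
    (c := g / (2 * (N + 1))) (r := r) (by positivity) hr0
    (fun v => by
      have h3 := homological_lower hg hg1 h1 h2 v
      rw [← c3_L_apply] at h3
      rw [div_mul_eq_mul_div, div_le_iff₀ (by positivity)]
      nlinarith [norm_nonneg (c3_L l0 v)])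
    (fun x y hx hy => by
      have h3 : E + E * W x + c3_L l0 x + W x * c3_P N x -
          (E + E * W y + c3_L l0 y + W y * c3_P N y) - c3_L l0 (x - y) =
          E * W (x - y) + W (x - y) * c3_P N x + W y * c3_P N (x - y) := by
        simp only [map_sub]; noncomm_ring
      rw [h3]
      have h4 : ‖E * W (x - y)‖ ≤ η * (2 * ‖x - y‖) :=
        (norm_mul_le _ _).trans (mul_le_mul hA (hWn _) (norm_nonneg _) hη0)
      have h5 : ‖W (x - y) * c3_P N x‖ ≤ (2 * ‖x - y‖) * r :=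
        (norm_mul_le _ _).trans (mul_le_mul (hWn _) ((c3_norm_P x).trans hx) (norm_nonneg _)
          (by positivity))
      have h6 : ‖W y * c3_P N (x - y)‖ ≤ (2 * r) * ‖x - y‖ :=
        (norm_mul_le _ _).trans (mul_le_mul ((hWn _).trans (by linarith)) (c3_norm_P _)
          (norm_nonneg _) (by positivity))
      have h7 := norm_add₃_le (a := E * W (x - y)) (b := W (x - y) * c3_P N x)
        (c := W y * c3_P N (x - y))
      have h8 := mul_le_mul_of_nonneg_right hkey (norm_nonneg (x - y))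
      linarith)
    (by
      simp only [map_zero, mul_zero, add_zero]
      have h3 : g / (2 * (N + 1)) / 2 * r = 2 * η := by rw [hr]; field_simp; ring
      rw [h3]; linarith)
  have hr2 : 16 * (N + 1) * η / g = 2 * r := by rw [hr]; ring
  refine ⟨1 + W Y, l0 - dgc Y, ?_, ?_, fun j => ?_⟩
  · have h3 := c3_expand A (dg l0) Y (dg (dgc Y)) (c3_dg_comm _ _)
    have h4 : dg (l0 - dgc Y) = dg l0 - dg (dgc Y) := (c3_dgL N).map_sub _ _
    have h5 : 1 + W Y = 1 + Y - dg (dgc Y) := by rw [hW, c3_P_apply, add_sub_assoc]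
    rw [h4, h5, ← sub_eq_zero, h3]
    exact hY0
  · rw [add_sub_cancel_left, hr2]
    exact (hWn Y).trans (by linarith)
  · have h3 : (l0 - dgc Y) j - l0 j = -dgc Y j := by simp
    rw [h3, norm_neg, hr2]
    have h4 := (norm_le_pi_norm (dgc Y) j).trans (c3_norm_dgc Y)
    linarith

end Pool.Agent.MP_28624d_gt.K

end

section

/-!
From an approximate to an exact linear normal form.
-/

set_option maxSynthPendingDepth 3

namespace Pool.Agent.MP_28624d_gt.K

open Filter Topology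

variable {V : Type} [NormedAddCommGroup V] [NormedSpace ℝ V] [FiniteDimensional ℝ V]

theorem f2_equiv {A : V →L[ℝ] V} {c : ℝ} (hc : 0 < c) (hA : ∀ v, c * ‖v‖ ≤ ‖A v‖) :
    ∃ Q : V ≃L[ℝ] V, ∀ v, Q v = A v := by
  have hinj : Function.Injective (A : V →ₗ[ℝ] V) := by
    rw [← LinearMap.ker_eq_bot, LinearMap.ker_eq_bot']
    intro v hv
    have h1 := hA v
    have h2 : A v = 0 := hv
    rw [h2, norm_zero] at h1
    exact norm_le_zero_iff.1 (by nlinarith [norm_nonneg v])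
  exact ⟨(LinearEquiv.ofInjectiveEndo (A : V →ₗ[ℝ] V) hinj).toContinuousLinearEquiv,
    fun v => rfl⟩

/-- A linear map close to the identity is invertible with inverse close to the identity. -/
theorem exists_equiv_near {A : V →L[ℝ] V} {η : ℝ} (h0 : 0 ≤ η) (h1 : η ≤ 1 / 2)
    (hA : ∀ v, ‖A v - v‖ ≤ η * ‖v‖) :
    ∃ Q : V ≃L[ℝ] V, (∀ v, Q v = A v) ∧ ∀ v, ‖Q.symm v - v‖ ≤ 2 * η * ‖v‖ := by
  have hl : ∀ v, 1 / 2 * ‖v‖ ≤ ‖A v‖ := fun v => by
    have h2 := hA v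
    have h3 := norm_sub_le (A v) (A v - v)
    rw [sub_sub_cancel] at h3
    nlinarith [norm_nonneg v]
  obtain ⟨Q, hQ⟩ := f2_equiv (by norm_num) hl
  refine ⟨Q, hQ, fun v => ?_⟩
  have h2 : A (Q.symm v) = v := by rw [← hQ, Q.apply_symm_apply]
  have h3 := hA (Q.symm v)
  have h4 := hl (Q.symm v)
  rw [h2] at h3 h4
  rw [norm_sub_rev]
  nlinarith [norm_nonneg v, norm_nonneg (Q.symm v)]

omit [NormedSpace ℝ V] [FiniteDimensional ℝ V] in
theorem f2_norm_le {A : V → V} {η : ℝ} (h1 : η ≤ 1) (hA : ∀ v, ‖A v - v‖ ≤ η * ‖v‖) (v : V) :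
    ‖A v‖ ≤ 2 * ‖v‖ := by
  have h2 := hA v
  have h3 := norm_add_le (A v - v) v
  rw [sub_add_cancel] at h3
  nlinarith [norm_nonneg v]

variable {N : ℕ} {G M : Type} [NormedAddCommGroup G] [NormedSpace ℝ G] [NormedAddCommGroup M]
  [NormedSpace ℝ M] [FiniteDimensional ℝ M]

theorem f2_dg_lower {l : Fin N → ℂ} {c : ℝ} (hc : 0 < c) (h : ∀ j, c ≤ ‖l j - 1‖) (z : Cn N) :
    c * ‖z‖ ≤ ‖z - dg l z‖ := by
  rw [← le_div_iff₀' hc]
  refine (pi_norm_le_iff_of_nonneg (by positivity)).2 fun j => ?_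
  rw [le_div_iff₀' hc]
  have h1 := norm_le_pi_norm (z - dg l z) j
  have h2 : (z - dg l z) j = -((l j - 1) * z j) := by
    rw [Pi.sub_apply, dg_apply]; ring
  rw [h2, norm_neg, norm_mul] at h1
  nlinarith [norm_nonneg (z j), h j]

/-- K1 (z, t) = (z, k (z, t)) is invertible; M1 = K1 ∘ snd ∘ Mh ∘ K1⁻¹ has the form
(z, t) ↦ (A z + e t, t) with ‖A - dg lt‖, ‖e‖ ≤ 20 η. Take X, l from exists_diag_near,
w = (1 - A)⁻¹ e (1 - A is bounded below by 1 / 2000 because of h3), Q2 (z, t) = (X z + w t, t) and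
Q = K1⁻¹ ∘ Q2. Then χ z + ζ t is the first component of Mh (Q (z, t)). -/
theorem normal_form {Mh : Cn N × M →L[ℝ] G × Cn N × M} {k : Cn N × M →L[ℝ] M} {ζt : M →L[ℝ] G}
    {lt : Fin N → ℂ} {g η η' C : ℝ} (hg : 0 < g) (hg1 : g ≤ 1) (hη0 : 0 ≤ η) (hC : 1 ≤ C)
    (hk : ∀ y, ‖k y - y.2‖ ≤ η * ‖y‖)
    (hM : ∀ y, ‖Mh y - (ζt y.2, dg lt y.1, y.2)‖ ≤ η * ‖y‖) (hkM : ∀ y, k (Mh y).2 = k y)
    (h0 : ∀ j, ‖lt j‖ ≤ 2) (h1 : ∀ j i, j ≠ i → g ≤ ‖lt j - lt i‖)
    (h2 : ∀ j i, g ≤ ‖lt j - (starRingEnd ℂ) (lt i)‖) (h3 : ∀ j, 1 / 1000 ≤ ‖lt j - 1‖)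
    (hζ : ∀ t, ‖ζt t‖ ≤ C * ‖t‖) (hη : 100000 * (N + 1) ^ 2 * η ≤ g ^ 2)
    (hη' : 1000000 * (N + 1) * η ≤ η' * g) (hη1 : η' ≤ 1 / 10) :
    ∃ (Q : (Cn N × M) ≃L[ℝ] (Cn N × M)) (χ : Cn N →L[ℝ] G) (ζ : M →L[ℝ] G) (l : Fin N → ℂ),
      (∀ y, ‖Q y - y‖ ≤ η' * ‖y‖) ∧ (∀ y, ‖Q.symm y - y‖ ≤ η' * ‖y‖) ∧ (∀ y, k (Q y) = y.2) ∧
      (∀ z t, Mh (Q (z, t)) = (χ z + ζ t, Q (dg l z, t))) ∧ (∀ z, ‖χ z‖ ≤ C * η' * ‖z‖) ∧
      (∀ t, ‖ζ t - ζt t‖ ≤ C * η' * ‖t‖) ∧ ∀ j, ‖l j - lt j‖ ≤ η' := by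
  have hN : (0 : ℝ) ≤ N := Nat.cast_nonneg N
  set θ := (N + 1) * η / g with hθ
  have hθ0 : 0 ≤ θ := by positivity
  have hθ1 : 1000000 * θ ≤ η' := by
    rw [hθ, ← mul_div_assoc, div_le_iff₀ hg]; linarith
  have hηθ : η ≤ θ := by
    rw [hθ, le_div_iff₀ hg]; nlinarith
  let K1 : Cn N × M →L[ℝ] Cn N × M := (ContinuousLinearMap.fst ℝ (Cn N) M).prod k
  have hK1 : ∀ y, ‖K1 y - y‖ ≤ η * ‖y‖ := fun y => by
    have h4 : K1 y - y = (0, k y - y.2) := by
      ext1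
      · simp [K1]
      · simp [K1]
    rw [h4, Prod.norm_mk, norm_zero]
    exact max_le (by positivity) (hk y)
  obtain ⟨K, hK, hKs⟩ := exists_equiv_near hη0 (by linarith) hK1
  have hKa : ∀ y, (K.symm y).1 = y.1 := fun y => by
    have h4 := congrArg Prod.fst (hK (K.symm y))
    rw [K.apply_symm_apply] at h4
    exact h4.symm
  have hKb : ∀ y, k (K.symm y) = y.2 := fun y => by
    have h4 := congrArg Prod.snd (hK (K.symm y))
    rw [K.apply_symm_apply] at h4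
    exact h4.symm
  have hKn : ∀ y, ‖K.symm y‖ ≤ 2 * ‖y‖ := f2_norm_le (by linarith) hKs
  let P : Cn N × M →L[ℝ] Cn N :=
    ((ContinuousLinearMap.fst ℝ (Cn N) M).comp
      ((ContinuousLinearMap.snd ℝ G (Cn N × M)).comp Mh)).comp (K.symm : Cn N × M →L[ℝ] Cn N × M)
  have hP : ∀ y, P y = (Mh (K.symm y)).2.1 := fun y => rfl
  have hPn : ∀ y, ‖P y - dg lt y.1‖ ≤ 2 * η * ‖y‖ := fun y => by
    have h4 := hM (K.symm y)
    have h5 := (norm_fst_le _).trans ((norm_snd_le _).trans h4)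
    simp only [Prod.snd_sub, Prod.fst_sub, hKa] at h5
    rw [hP]
    nlinarith [hKn y]
  let A : Cn N →L[ℝ] Cn N := P.comp (ContinuousLinearMap.inl ℝ (Cn N) M)
  let e : M →L[ℝ] Cn N := P.comp (ContinuousLinearMap.inr ℝ (Cn N) M)
  have hPA : ∀ z t, P (z, t) = A z + e t := fun z t => by
    have h4 : ((z, t) : Cn N × M) = (z, 0) + (0, t) := by simp
    rw [h4, map_add]; rfl
  have hA' : ∀ z, ‖A z - dg lt z‖ ≤ 2 * η * ‖z‖ := fun z => by
    have h4 := hPn (z, 0)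
    rw [Prod.norm_mk, norm_zero, max_eq_left (norm_nonneg _)] at h4
    exact h4
  have hA : ‖A - dg lt‖ ≤ 2 * η :=
    ContinuousLinearMap.opNorm_le_bound _ (by positivity) fun z => hA' z
  have he : ∀ t, ‖e t‖ ≤ 2 * η * ‖t‖ := fun t => by
    have h4 := hPn (0, t)
    rw [Prod.norm_mk, norm_zero, max_eq_right (norm_nonneg _), map_zero, sub_zero] at h4
    exact h4
  obtain ⟨X, l, hXl, hX, hl⟩ := exists_diag_near hg hg1 h1 h2 hA (by
    have : 0 ≤ ((N : ℝ) + 1) ^ 2 * η := by positivity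
    linarith)
  have h32 : 16 * (N + 1) * (2 * η) / g = 32 * θ := by rw [hθ]; ring
  rw [h32] at hX hl
  have hB : ∀ z, 1 / 2000 * ‖z‖ ≤ ‖(1 - A) z‖ := fun z => by
    have h4 := f2_dg_lower (by norm_num) h3 z
    have h5 := hA' z
    have h6 := norm_add_le ((1 - A) z) (A z - dg lt z)
    have h7 : (1 - A) z + (A z - dg lt z) = z - dg lt z := by simp
    rw [h7] at h6
    nlinarith [norm_nonneg z]
  obtain ⟨B, hB'⟩ := f2_equiv (by norm_num) hB
  let w : M →L[ℝ] Cn N := (B.symm : Cn N →L[ℝ] Cn N).comp e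
  have hw : ∀ t, w t - A (w t) = e t := fun t => by
    have h4 := hB' (w t)
    have h5 : B (w t) = e t := B.apply_symm_apply _
    rw [h5] at h4
    rw [h4]; rfl
  have hwn : ∀ t, ‖w t‖ ≤ 4000 * η * ‖t‖ := fun t => by
    have h4 := hB (w t)
    have h5 : (1 - A) (w t) = e t := hw t
    rw [h5] at h4
    linarith [he t]
  let Q2 : Cn N × M →L[ℝ] Cn N × M := (X.coprod w).prod (ContinuousLinearMap.snd ℝ (Cn N) M)
  have hQ2 : ∀ y, Q2 y = (X y.1 + w y.2, y.2) := fun y => rfl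
  have hQ2n : ∀ y, ‖Q2 y - y‖ ≤ 4032 * θ * ‖y‖ := fun y => by
    have h4 : Q2 y - y = ((X - 1) y.1 + w y.2, 0) := by
      rw [hQ2]
      ext1
      · simp only [Prod.fst_sub, ContinuousLinearMap.sub_apply, ContinuousLinearMap.one_apply]
        abel
      · simp
    rw [h4, Prod.norm_mk, norm_zero, max_eq_left (norm_nonneg _)]
    have h5 : ‖(X - 1) y.1‖ ≤ 32 * θ * ‖y‖ :=
      ((X - 1).le_opNorm _).trans (mul_le_mul hX (norm_fst_le y) (norm_nonneg _) (by positivity))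
    have h6 : ‖w y.2‖ ≤ 4000 * θ * ‖y‖ :=
      (hwn _).trans (mul_le_mul (by linarith) (norm_snd_le y) (norm_nonneg _) (by positivity))
    linarith [norm_add_le ((X - 1) y.1) (w y.2)]
  let Q1 : Cn N × M →L[ℝ] Cn N × M := (K.symm : Cn N × M →L[ℝ] Cn N × M).comp Q2
  have hQ1 : ∀ y, Q1 y = K.symm (Q2 y) := fun y => rfl
  have hQ1n : ∀ y, ‖Q1 y - y‖ ≤ 4036 * θ * ‖y‖ := fun y => by
    have h4 := hKs (Q2 y)
    have h5 := f2_norm_le (by linarith) hQ2n y
    have h6 := norm_add_le (K.symm (Q2 y) - Q2 y) (Q2 y - y)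
    rw [sub_add_sub_cancel] at h6
    have h7 : η * ‖Q2 y‖ ≤ θ * (2 * ‖y‖) := mul_le_mul hηθ h5 (norm_nonneg _) hθ0
    rw [hQ1]
    linarith [hQ2n y]
  obtain ⟨Q, hQ, hQs⟩ := exists_equiv_near (by positivity) (by linarith) hQ1n
  let F : Cn N × M →L[ℝ] G := ((ContinuousLinearMap.fst ℝ G (Cn N × M)).comp Mh).comp Q1
  have hF : ∀ y, F y = (Mh (Q1 y)).1 := fun y => rfl
  have hFn : ∀ y, ‖F y - ζt y.2‖ ≤ C * η' * ‖y‖ := fun y => by
    have h4 := (norm_fst_le _).trans (hM (Q1 y))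
    simp only [Prod.fst_sub] at h4
    have h5 := f2_norm_le (by linarith) hQ1n y
    have h6 := (norm_snd_le _).trans (hQ1n y)
    have h7 := hζ (Q1 y - y).2
    have h8 := norm_add_le ((Mh (Q1 y)).1 - ζt (Q1 y).2) (ζt (Q1 y - y).2)
    have h9 : (Mh (Q1 y)).1 - ζt (Q1 y).2 + ζt (Q1 y - y).2 = F y - ζt y.2 := by
      rw [hF, Prod.snd_sub, map_sub]; abel
    rw [h9] at h8
    have h10 : η * ‖Q1 y‖ ≤ θ * (2 * ‖y‖) := mul_le_mul hηθ h5 (norm_nonneg _) hθ0
    have h11 : C * ‖(Q1 y - y).2‖ ≤ C * (4036 * θ * ‖y‖) := by gcongr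
    have h12 : 0 ≤ θ * ‖y‖ := by positivity
    have h13 : θ * ‖y‖ ≤ C * (θ * ‖y‖) := by nlinarith
    have h14 : C * (1000000 * θ * ‖y‖) ≤ C * (η' * ‖y‖) := by gcongr
    nlinarith
  refine ⟨Q, F.comp (ContinuousLinearMap.inl ℝ (Cn N) M),
    F.comp (ContinuousLinearMap.inr ℝ (Cn N) M), l, fun y => ?_, fun y => ?_, fun y => ?_,
    fun z t => ?_, fun z => ?_, fun t => ?_, fun j => (hl j).trans (by linarith)⟩
  · rw [hQ]
    exact (hQ1n y).trans (mul_le_mul_of_nonneg_right (by linarith) (norm_nonneg _))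
  · exact (hQs y).trans (mul_le_mul_of_nonneg_right (by linarith) (norm_nonneg _))
  · rw [hQ, hQ1, hKb]; rfl
  · rw [hQ, hQ]
    ext1
    · have h4 : ((z, t) : Cn N × M) = (z, 0) + (0, t) := by simp
      rw [← hF, h4, map_add]; rfl
    · apply K.injective
      rw [hQ1, hQ1, K.apply_symm_apply, hK]
      ext1
      · change P (Q2 (z, t)) = _
        rw [hQ2, hQ2, hPA, map_add]
        have h4 : A (X z) = X (dg l z) := congrArg (fun T : Cn N →L[ℝ] Cn N => T z) hXl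
        rw [h4, ← hw t]
        simp only
        abel
      · change k (Mh (K.symm (Q2 (z, t)))).2 = _
        rw [hkM, hKb]; rfl
  · have h4 := hFn (z, 0)
    rw [Prod.norm_mk, norm_zero, max_eq_left (norm_nonneg _), map_zero, sub_zero] at h4
    exact h4
  · have h4 := hFn (0, t)
    rw [Prod.norm_mk, norm_zero, max_eq_right (norm_nonneg _)] at h4
    exact h4

/-- A matrix entrywise close to the identity gives a surjective map. -/
theorem surjective_of_near {F : M →ₗ[ℝ] Fin 9 → ℝ} {e : Fin 9 → M}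
    (h : ∀ j k, |F (e k) j - (if j = k then 1 else 0)| ≤ 1 / 20) : Function.Surjective F := by
  let E : (Fin 9 → ℝ) →ₗ[ℝ] M := Fintype.linearCombination ℝ e
  let A : (Fin 9 → ℝ) →L[ℝ] Fin 9 → ℝ := LinearMap.toContinuousLinearMap (F.comp E)
  have hA : ∀ v, ‖A v - v‖ ≤ 1 / 2 * ‖v‖ := fun v => by
    refine (pi_norm_le_iff_of_nonneg (by positivity)).2 fun j => ?_
    have h1 : (A v - v) j = ∑ k, v k * (F (e k) j - if j = k then 1 else 0) := by
      change F (E v) j - v j = _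
      simp only [E, Fintype.linearCombination_apply, map_sum, map_smul, Finset.sum_apply,
        Pi.smul_apply, smul_eq_mul, mul_sub, Finset.sum_sub_distrib, mul_ite, mul_one, mul_zero,
        Finset.sum_ite_eq, Finset.mem_univ, if_true]
    rw [h1]
    calc ‖∑ k, v k * (F (e k) j - if j = k then 1 else 0)‖
        ≤ ∑ k, ‖v k * (F (e k) j - if j = k then 1 else 0)‖ := norm_sum_le _ _
      _ ≤ ∑ _k : Fin 9, ‖v‖ * (1 / 20) := by
          refine Finset.sum_le_sum fun k _ => ?_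
          rw [norm_mul]
          exact mul_le_mul (norm_le_pi_norm v k) (h j k) (norm_nonneg _) (norm_nonneg _)
      _ ≤ 1 / 2 * ‖v‖ := by
          simp only [Finset.sum_const, Finset.card_univ, Fintype.card_fin, nsmul_eq_mul]
          push_cast
          linarith [norm_nonneg v]
  obtain ⟨Q, hQ, -⟩ := exists_equiv_near (by norm_num) le_rfl hA
  intro x
  exact ⟨E (Q.symm x), (hQ (Q.symm x)).symm.trans (Q.apply_symm_apply x)⟩

end Pool.Agent.MP_28624d_gt.K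

end

end
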