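import Pool.Agent.MP_28624d_gt.Mg.K_GB
import Pool.Agent.MP_28624d_gt.Mg.K_KF

section

/-!
Coordinates and the linear maps built from the data.
-/

set_option maxSynthPendingDepth 3

namespace Pool.Agent.MP_28624d_gt.K

theorem g6_a {r : ℕ} (h : r < 18) (u : U48) : coL r u =
    if r % 2 = 0 then (u.2.1 ⟨r / 2, by omega⟩).re else (u.2.1 ⟨r / 2, by omega⟩).im := by
  rw [coL, dif_pos h]
  split_ifs <;> rfl

theorem g6_b {r : ℕ} (h : ¬r < 18) (h' : r < 33) (u : U48) :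
    coL r u = u.2.2 ⟨r - 18, by omega⟩ := by
  rw [coL, dif_neg h, dif_pos h']
  rfl

theorem g6_c {r : ℕ} (h : ¬r < 33) (h' : r < 48) (u : U48) :
    coL r u = u.1 ⟨r - 33, by omega⟩ := by
  rw [coL, dif_neg (by omega), dif_neg h, dif_pos h']
  rfl

theorem g6_d {r : ℕ} (h : ¬r < 48) (u : U48) : coL r u = 0 := by
  rw [coL, dif_neg (by omega), dif_neg (by omega), dif_neg h]
  rfl

theorem g6_re (u : U48) (j : Fin 9) : coL (2 * j.val) u = (u.2.1 j).re := by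
  rw [g6_a (by omega), if_pos (by omega)]
  exact congrArg (fun k => (u.2.1 k).re) (Fin.ext (by dsimp only; omega))

theorem g6_im (u : U48) (j : Fin 9) : coL (2 * j.val + 1) u = (u.2.1 j).im := by
  rw [g6_a (by omega), if_neg (by omega)]
  exact congrArg (fun k => (u.2.1 k).im) (Fin.ext (by dsimp only; omega))

theorem g6_cas (u : U48) (m : Fin 15) : coL (18 + m.val) u = u.2.2 m := by
  rw [g6_b (by omega) (by omega)]
  exact congrArg u.2.2 (Fin.ext (by dsimp only; omega))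

theorem g6_gau (u : U48) (m : Fin 15) : coL (33 + m.val) u = u.1 m := by
  rw [g6_c (by omega) (by omega)]
  exact congrArg u.1 (Fin.ext (by dsimp only; omega))

theorem g6_ext {u v : U48} (h : ∀ r, r < 48 → coL r u = coL r v) : u = v := by
  refine Prod.ext (funext fun m => ?_)
    (Prod.ext (funext fun j => Complex.ext ?_ ?_) (funext fun m => ?_))
  · rw [← g6_gau, ← g6_gau, h _ (by omega)]
  · rw [← g6_re, ← g6_re, h _ (by omega)]
  · rw [← g6_im, ← g6_im, h _ (by omega)]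
  · rw [← g6_cas, ← g6_cas, h _ (by omega)]

theorem coL_un (a : ℕ → ℝ) {r : ℕ} (hr : r < 48) : coL r (un a) = a r := by
  by_cases h : r < 18
  · rw [g6_a h]
    split_ifs with h2
    · exact congrArg a (by dsimp only; omega)
    · exact congrArg a (by dsimp only; omega)
  · by_cases h' : r < 33
    · rw [g6_b h h']
      exact congrArg a (by dsimp only; omega)
    · rw [g6_c h' hr]
      exact congrArg a (by dsimp only; omega)

theorem coL_bs {r : ℕ} (hr : r < 48) (c : ℕ) : coL r (bs c) = if r = c then 1 else 0 :=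
  coL_un _ hr

theorem abs_coL_le (r : ℕ) (u : U48) : |coL r u| ≤ ‖u‖ := by
  have h1 : ∀ j, ‖u.2.1 j‖ ≤ ‖u‖ := fun j =>
    (norm_le_pi_norm u.2.1 j).trans ((norm_fst_le u.2).trans (norm_snd_le u))
  by_cases h : r < 18
  · rw [g6_a h]
    split_ifs
    · exact (Complex.abs_re_le_norm _).trans (h1 _)
    · exact (Complex.abs_im_le_norm _).trans (h1 _)
  · by_cases h' : r < 33
    · rw [g6_b h h']
      exact (norm_le_pi_norm u.2.2 _).trans ((norm_snd_le u.2).trans (norm_snd_le u))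
    · by_cases hr : r < 48
      · rw [g6_c h' hr]
        exact (norm_le_pi_norm u.1 _).trans (norm_fst_le u)
      · rw [g6_d hr, abs_zero]
        exact norm_nonneg _

theorem norm_le_of_coL {u : U48} {c : ℝ} (h : ∀ r, r < 48 → |coL r u| ≤ c) : ‖u‖ ≤ 2 * c := by
  have hc : 0 ≤ c := (abs_nonneg _).trans (h 0 (by omega))
  have h2 : 0 ≤ 2 * c := by linarith
  refine norm_prod_le_iff.2 ⟨(pi_norm_le_iff_of_nonneg h2).2 fun m => ?_, norm_prod_le_iff.2
    ⟨(pi_norm_le_iff_of_nonneg h2).2 fun j => ?_, (pi_norm_le_iff_of_nonneg h2).2 fun m => ?_⟩⟩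
  · have := h (33 + m.val) (by omega)
    rw [g6_gau] at this
    rw [Real.norm_eq_abs]
    linarith
  · have a := h (2 * j.val) (by omega)
    have b := h (2 * j.val + 1) (by omega)
    rw [g6_re] at a
    rw [g6_im] at b
    have := Complex.norm_le_abs_re_add_abs_im (u.2.1 j)
    linarith
  · have := h (18 + m.val) (by omega)
    rw [g6_cas] at this
    rw [Real.norm_eq_abs]
    linarith

theorem sum_bs (u : U48) : ∑ r ∈ Finset.range 48, coL r u • bs r = u := by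
  refine g6_ext fun s hs => ?_
  rw [map_sum]
  simp only [map_smul, coL_bs hs, smul_eq_mul, mul_ite, mul_one, mul_zero]
  rw [Finset.sum_ite_eq, if_pos (Finset.mem_range.2 hs)]

theorem coL_re (u : U48) (j : Fin 9) : coL (2 * j.val) u = (u.2.1 j).re := g6_re u j

theorem coL_im (u : U48) (j : Fin 9) : coL (2 * j.val + 1) u = (u.2.1 j).im := g6_im u j

theorem bs_re (j : Fin 9) : bs (2 * j.val) = (0, Pi.single j 1, 0) := by
  refine Prod.ext (funext fun m => if_neg (by omega))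
    (Prod.ext (funext fun k => ?_) (funext fun m => if_neg (by omega)))
  by_cases h : k = j
  · subst h
    refine Complex.ext ?_ ?_
    · simp [bs, un]
    · simp [bs, un]
  · have h' : k.val ≠ j.val := fun e => h (Fin.ext e)
    refine Eq.trans ?_ (Pi.single_eq_of_ne (M := fun _ => ℂ) h 1).symm
    exact Complex.ext (if_neg (by omega)) (if_neg (by omega))

theorem bs_im (j : Fin 9) : bs (2 * j.val + 1) = (0, Pi.single j Complex.I, 0) := by
  refine Prod.ext (funext fun m => if_neg (by omega))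
    (Prod.ext (funext fun k => ?_) (funext fun m => if_neg (by omega)))
  by_cases h : k = j
  · subst h
    refine Complex.ext ?_ ?_
    · simp [bs, un]
    · simp [bs, un]
  · have h' : k.val ≠ j.val := fun e => h (Fin.ext e)
    refine Eq.trans ?_ (Pi.single_eq_of_ne (M := fun _ => ℂ) h Complex.I).symm
    exact Complex.ext (if_neg (by omega)) (if_neg (by omega))

theorem bs_cas (m : Fin 15) : bs (18 + m.val) = (0, 0, Pi.single m 1) := by
  refine Prod.ext (funext fun m => if_neg (by omega))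
    (Prod.ext (funext fun k => Complex.ext (if_neg (by omega)) (if_neg (by omega)))
      (funext fun k => ?_))
  simp [bs, un, Pi.single_apply, Fin.ext_iff]

theorem bs_gauge (m : Fin 15) : bs (33 + m.val) = (Pi.single m 1, 0, 0) := by
  refine Prod.ext (funext fun k => ?_)
    (Prod.ext (funext fun k => Complex.ext (if_neg (by omega)) (if_neg (by omega)))
      (funext fun k => if_neg (by omega)))
  simp [bs, un, Pi.single_apply, Fin.ext_iff]

theorem g6_sum {W : Type} [NormedAddCommGroup W] [NormedSpace ℝ W] {ι : Type} (s : Finset ι)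
    {a : ι → ℝ} {w : ι → W} {c x : ℝ} (ha : ∀ k, |a k| ≤ x) (hw : ∀ k ∈ s, ‖w k‖ ≤ c) :
    ‖∑ k ∈ s, a k • w k‖ ≤ s.card * c * x := by
  refine (norm_sum_le _ _).trans ((Finset.sum_le_card_nsmul s _ (c * x) fun k hk => ?_).trans_eq ?_)
  · rw [norm_smul, Real.norm_eq_abs, mul_comm]
    exact mul_le_mul (hw k hk) (ha k) (abs_nonneg _) ((norm_nonneg _).trans (hw k hk))
  · rw [nsmul_eq_mul, mul_assoc]

theorem g6_33 (y : Cn 9 × T 15) : ∑ r ∈ Finset.range 33, coL r (0, y) • (bs r).2 = y := by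
  have h := congrArg Prod.snd (sum_bs (0, y))
  rw [Prod.snd_sum] at h
  refine Eq.trans (Finset.sum_subset (Finset.range_subset_range.2 (by omega : 33 ≤ 48))
    fun r h1 h2 => ?_) h
  rw [g6_c (fun e => h2 (Finset.mem_range.2 e)) (Finset.mem_range.1 h1)]
  exact zero_smul ℝ _

theorem bound48 {W : Type} [NormedAddCommGroup W] [NormedSpace ℝ W] (F : U48 →ₗ[ℝ] W) {c : ℝ}
    (h : ∀ k, k < 48 → ‖F (bs k)‖ ≤ c) (u : U48) : ‖F u‖ ≤ 48 * c * ‖u‖ := by
  have e : F u = ∑ r ∈ Finset.range 48, coL r u • F (bs r) := by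
    conv_lhs => rw [← sum_bs u]
    simp only [map_sum, map_smul]
  have := g6_sum (Finset.range 48) (fun r => abs_coL_le r u)
    fun k hk => h k (Finset.mem_range.1 hk)
  rw [← e, Finset.card_range] at this
  exact_mod_cast this

theorem bound33 {W : Type} [NormedAddCommGroup W] [NormedSpace ℝ W] (F : Cn 9 × T 15 →ₗ[ℝ] W)
    {c : ℝ} (h : ∀ k, k < 33 → ‖F (bs k).2‖ ≤ c) (y : Cn 9 × T 15) : ‖F y‖ ≤ 33 * c * ‖y‖ := by
  have e : F y = ∑ r ∈ Finset.range 33, coL r (0, y) • F (bs r).2 := by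
    conv_lhs => rw [← g6_33 y]
    simp only [map_sum, map_smul]
  have n : ‖((0, y) : U48)‖ = ‖y‖ := by
    rw [Prod.norm_mk, norm_zero, max_eq_right (norm_nonneg _)]
  have := g6_sum (Finset.range 33) (fun r => abs_coL_le r (0, y))
    fun k hk => h k (Finset.mem_range.1 hk)
  rw [← e, Finset.card_range, n] at this
  exact_mod_cast this

theorem bound15 {W : Type} [NormedAddCommGroup W] [NormedSpace ℝ W] (F : T 15 →ₗ[ℝ] W)
    {c : ℝ} (h : ∀ m : Fin 15, ‖F (Pi.single m 1)‖ ≤ c) (t : T 15) : ‖F t‖ ≤ 15 * c * ‖t‖ := by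
  have e : F t = ∑ m : Fin 15, t m • F (Pi.single m 1) := by
    conv_lhs => rw [pi_eq_sum_univ' t]
    simp only [map_sum, map_smul]
  have := g6_sum Finset.univ (fun m => norm_le_pi_norm t m) fun k _ => h k
  rw [← e, Finset.card_univ, Fintype.card_fin] at this
  exact_mod_cast this

theorem Bq_bs {k : ℕ} (hk : k < 33) : Bq (bs k).2 = (8192 : ℝ) • dir k := by
  have e : ((0, (bs k).2) : U48) = bs k :=
    Prod.ext (funext fun m => (if_neg (by omega)).symm) rfl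
  rw [Bq, sum_apply, Finset.sum_eq_single k]
  · rw [ContinuousLinearMap.smulRight_apply, ContinuousLinearMap.comp_apply,
      ContinuousLinearMap.inr_apply, e, coL_bs (by omega), if_pos rfl, one_smul]
  · intro r hr hrk
    rw [ContinuousLinearMap.smulRight_apply, ContinuousLinearMap.comp_apply,
      ContinuousLinearMap.inr_apply, e, coL_bs (by have := Finset.mem_range.1 hr; omega),
      if_neg hrk, zero_smul]
  · exact fun h => absurd (Finset.mem_range.2 hk) h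

theorem Bq_re (j : Fin 9) : Bq (Pi.single j 1, 0) = (8192 : ℝ) • dir (2 * j.val) := by
  rw [← Bq_bs (by omega), bs_re]

theorem Bq_im (j : Fin 9) :
    Bq (Pi.single j Complex.I, 0) = (8192 : ℝ) • dir (2 * j.val + 1) := by
  rw [← Bq_bs (by omega), bs_im]

theorem Bq_cas (m : Fin 15) : Bq (0, Pi.single m 1) = (8192 : ℝ) • dir (18 + m.val) := by
  rw [← Bq_bs (by omega), bs_cas]

theorem g6_iota (X : T 15) (a b : Fin 4) :
    iota X a b = if h : 4 * a.val + b.val < 15 then X ⟨4 * a.val + b.val, h⟩ else 0 := by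
  rw [iota_apply]
  fin_cases a <;> fin_cases b <;> rfl

theorem g6_single {W : Type} [NormedAddCommGroup W] [NormedSpace ℝ W] (f : Fin 15 → W)
    (t : T 15) : (∑ m : Fin 15, (ContinuousLinearMap.proj m : T 15 →L[ℝ] ℝ).smulRight (f m)) t =
      ∑ m : Fin 15, t m • f m := by
  rw [sum_apply]
  rfl

theorem g6_zeta (m : Fin 15) : zeta (Pi.single m 1) =
    fun m' : Fin 15 => 8192 * (zeE m.val m'.val : ℝ) / 2 ^ 490 := by
  rw [zeta, g6_single, Finset.sum_eq_single m]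
  · rw [Pi.single_eq_same, one_smul]
  · intro r _ hr
    rw [Pi.single_eq_of_ne hr, zero_smul]
  · exact fun h => absurd (Finset.mem_univ _) h

theorem iota_zeta (m : Fin 15) :
    iota (zeta (Pi.single m 1)) = (8192 : ℝ) • sc 490 (Z4.of (zeE m.val)) := by
  ext a b
  rw [g6_iota, g6_zeta, sc, Matrix.smul_apply, Matrix.smul_apply, r_apply, toM_of, smul_eq_mul,
    smul_eq_mul]
  split_ifs with h
  · dsimp only
    rw [mul_div_assoc, div_eq_inv_mul]
  · rw [zeE, Nat.ble_eq_true_of_le (by omega : 15 ≤ 4 * a.val + b.val), cond_true, Int.cast_zero, mul_zero,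
      mul_zero]

theorem iota_single (m : Fin 15) :
    iota (Pi.single m 1) = (Z4.of fun c => gaE (33 + m.val) c).r := by
  ext a b
  rw [g6_iota, r_apply, toM_of, gaE]
  generalize 4 * a.val + b.val = c
  by_cases e : c = m.val
  · subst e
    have h1 : Nat.beq (33 + m.val) (Nat.add 33 m.val) = true := Nat.beq_refl _
    have h2 : Nat.ble 15 m.val = false :=
      Bool.eq_false_iff.2 fun h => absurd (Nat.le_of_ble_eq_true h) (by omega)
    rw [dif_pos m.isLt, h1, h2, cond_true, cond_false, Int.cast_one]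
    exact Pi.single_eq_same (M := fun _ => ℝ) m 1
  · have h1 : Nat.beq (33 + m.val) (Nat.add 33 c) = false :=
      Bool.eq_false_iff.2 fun h => e (by
        have : 33 + m.val = 33 + c := Nat.eq_of_beq_eq_true h
        omega)
    rw [h1, cond_false, Int.cast_zero]
    split_ifs with h
    · exact Pi.single_eq_of_ne (M := fun _ => ℝ) (fun h' => e (congrArg Fin.val h')) 1
    · rfl

theorem coL_R0 {r : ℕ} (hr : r < 48) (v : V3) : coL r (R0 v) = rowL r v := by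
  rw [R0, sum_apply, map_sum]
  simp only [ContinuousLinearMap.smulRight_apply, map_smul, coL_bs hr, smul_eq_mul, mul_ite,
    mul_one, mul_zero]
  rw [Finset.sum_ite_eq, if_pos (Finset.mem_range.2 hr)]

theorem L0_apply (t : T 15) (r : Fin 15) :
    L0 t r = (∑ m : Fin 15, (lE r.val m.val : ℝ) * t m) / 2 ^ 40 := by
  rw [L0, g6_single, Finset.sum_apply, Finset.sum_div]
  refine Finset.sum_congr rfl fun m _ => ?_
  rw [Pi.smul_apply, smul_eq_mul, mul_div_assoc', mul_comm]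

set_option exponentiation.threshold 500 in
theorem norm_zeta_le (t : T 15) : ‖zeta t‖ ≤ 4000 * ‖t‖ := by
  have h := bound15 zeta.toLinearMap (c := 256) (fun m => ?_) t
  · have := norm_nonneg t
    rw [ContinuousLinearMap.coe_coe] at h
    linarith
  · rw [ContinuousLinearMap.coe_coe, g6_zeta]
    refine (pi_norm_le_iff_of_nonneg (by norm_num)).2 fun k => ?_
    have h2 : Nat.ble 15 k.val = false :=
      Bool.eq_false_iff.2 fun h => absurd (Nat.le_of_ble_eq_true h) (by omega)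
    have h3 : |zeE m.val k.val| ≤ 2 ^ 485 := by
      rw [zeE, h2, cond_false]
      exact abs_fld_le _ _ (by norm_num : 0 < 486)
    have h4 : |(zeE m.val k.val : ℝ)| ≤ 2 ^ 485 := by exact_mod_cast h3
    have h5 : (2 : ℝ) ^ 490 = 32 * 2 ^ 485 := by
      rw [show 490 = 5 + 485 from rfl, pow_add]
      norm_num
    have h6 : (0 : ℝ) < 2 ^ 485 := by positivity
    rw [Real.norm_eq_abs, h5]
    generalize (2 : ℝ) ^ 485 = P at h4 h6 ⊢
    rw [abs_div, abs_mul, abs_of_pos (by positivity : (0 : ℝ) < 32 * P),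
      abs_of_pos (by norm_num : (0 : ℝ) < 8192), div_le_iff₀ (by positivity)]
    linarith

theorem norm_Bq_le (h : ∀ k, ‖dir k‖ ≤ 1 / 3) (y : Cn 9 × T 15) : ‖Bq y‖ ≤ 10 ^ 5 * ‖y‖ := by
  have h1 := bound33 Bq.toLinearMap (c := 8192 / 3) (fun k hk => ?_) y
  · have := norm_nonneg y
    rw [ContinuousLinearMap.coe_coe] at h1
    linarith
  · rw [ContinuousLinearMap.coe_coe, Bq_bs hk, norm_smul, Real.norm_ofNat]
    have := h k
    linarith

/-- The frame as a linear map. -/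
noncomputable def TfL (B : Cn 9 × T 15 →L[ℝ] V3) (ρ : V3) : U48 →L[ℝ] V3 :=
  LinearMap.toContinuousLinearMap
    { toFun := Tf B ρ
      map_add' := fun u v => by
        funext i
        simp only [Tf, Prod.fst_add, Prod.snd_add, map_add, Pi.add_apply, add_mul, mul_add]
        abel
      map_smul' := fun c u => by
        funext i
        simp only [Tf, Prod.smul_fst, Prod.smul_snd, map_smul, Pi.add_apply, Pi.smul_apply,
          RingHom.id_apply, smul_add, smul_sub, smul_mul_assoc, mul_smul_comm] }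

theorem TfL_apply (B : Cn 9 × T 15 →L[ℝ] V3) (ρ : V3) (u : U48) : TfL B ρ u = Tf B ρ u := rfl

theorem norm_Tf_sub (B : Cn 9 × T 15 →L[ℝ] V3) (ρ ρ' : V3) (u : U48) :
    ‖Tf B ρ u - Tf B ρ' u‖ ≤ 8 * ‖ρ - ρ'‖ * ‖u‖ := by
  refine (pi_norm_le_iff_of_nonneg (by positivity)).2 fun i => ?_
  have e : (Tf B ρ u - Tf B ρ' u) i = iota u.1 * (ρ - ρ') i - (ρ - ρ') i * iota u.1 := by
    simp only [Tf, Pi.sub_apply, Pi.add_apply, mul_sub, sub_mul]
    abel
  have h1 : ‖iota u.1‖ ≤ 4 * ‖u‖ := (norm_iota_le _).trans (by have := norm_fst_le u; linarith)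
  have h2 := norm_le_pi_norm (ρ - ρ') i
  have h3 := mul_le_mul h1 h2 (norm_nonneg _) (by positivity)
  have h4 := norm_mul_le (iota u.1) ((ρ - ρ') i)
  have h5 := norm_mul_le ((ρ - ρ') i) (iota u.1)
  rw [e]
  refine (norm_sub_le _ _).trans ?_
  linarith [mul_comm ‖iota u.1‖ ‖(ρ - ρ') i‖]

/-- An exact left inverse from an approximate one (exists_equiv_near for S0 ∘ A). -/
theorem exists_left_inv {U W : Type} [NormedAddCommGroup U] [NormedSpace ℝ U]
    [FiniteDimensional ℝ U] [NormedAddCommGroup W] [NormedSpace ℝ W] {A : U →L[ℝ] W}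
    {S0 : W →L[ℝ] U} {ε c : ℝ} (h0 : 0 ≤ ε) (h1 : ε ≤ 1 / 2) (h : ∀ u, ‖S0 (A u) - u‖ ≤ ε * ‖u‖)
    (hc : ∀ v, ‖S0 v‖ ≤ c * ‖v‖) :
    ∃ S : W →L[ℝ] U, (∀ u, S (A u) = u) ∧ (∀ v, ‖S v‖ ≤ 2 * c * ‖v‖) ∧
      ∀ v, ‖S v - S0 v‖ ≤ 2 * ε * c * ‖v‖ := by
  obtain ⟨Q, q1, q2⟩ := exists_equiv_near (A := S0.comp A) h0 h1 h
  refine ⟨(Q.symm : U →L[ℝ] U).comp S0, fun u => ?_, fun v => ?_, fun v => ?_⟩
  · exact Q.symm_apply_eq.2 (q1 u).symm
  · have a := q2 (S0 v)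
    have b := norm_le_norm_add_norm_sub' (Q.symm (S0 v)) (S0 v)
    have d := hc v
    have n := norm_nonneg (S0 v)
    change ‖Q.symm (S0 v)‖ ≤ _
    nlinarith
  · have a := q2 (S0 v)
    have d := mul_le_mul_of_nonneg_left (hc v) (by linarith : 0 ≤ 2 * ε)
    change ‖Q.symm (S0 v) - S0 v‖ ≤ _
    linarith

end Pool.Agent.MP_28624d_gt.K

end

section

/-!
The base point.
-/

set_option maxSynthPendingDepth 3

namespace Pool.Agent.MP_28624d_gt.K

theorem g7_parts (h : chkBase = true) :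
    (∀ i, i < 6 → (xh i).nb (39 * 2 ^ 850 / 10) = true) ∧
    (xh 6).nb (49 * 2 ^ 850 / 10) = true ∧ (xh 7).nb (49 * 2 ^ 850 / 10) = true ∧
    (∀ i, i < 3 → ((xh i).mul (xh (3 + i)) - Z4.one.sl 1700).nb (2 ^ 855) = true) ∧
    ((xh 6).mul (xh 7) - Z4.one.sl 1700).nb (2 ^ 855) = true ∧
    (∀ i, i < 3 → ((xh (3 + i)).det - 2 ^ 3400).natAbs ≤ 2 ^ 3300) ∧
    ((xh 7).det - 2 ^ 3400).natAbs ≤ 2 ^ 3300 ∧
    ∀ i : Fin 3, (Fm (xh 6) (xh 7) (bp xh) i - (xh i.val).sl (850 * (deg i - 1))).nb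
      (2 ^ (850 * deg i - 800)) = true := by
  unfold chkBase at h
  simp only [Bool.and_eq_true, Nat.ble_eq] at h
  obtain ⟨⟨⟨⟨⟨⟨⟨h1, h2⟩, h3⟩, h4⟩, h5⟩, h6⟩, h7⟩, h8⟩ := h
  exact ⟨fun i hi => alln_sound h1 hi, h2, h3, fun i hi => alln_sound h4 hi, h5,
    fun i hi => Nat.le_of_ble_eq_true (alln_sound h6 hi), h7,
    fun i => all3_sound h8 i⟩

theorem g7_div (a k : ℕ) : ((a * 2 ^ k / 10 : ℕ) : ℝ) ≤ a / 10 * 2 ^ k := by
  refine Nat.cast_div_le.trans (le_of_eq ?_)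
  push_cast
  ring

theorem g7_pow (a b : ℕ) : ((2 ^ a : ℕ) : ℝ) ≤ 1 / 2 ^ b * 2 ^ (a + b) := by
  refine le_of_eq ?_
  push_cast
  rw [pow_add]
  field_simp

theorem g7_one (l : ℕ) : sc l (Z4.one.sl l) = 1 := by
  have := sc_sl 0 l Z4.one
  rw [zero_add] at this
  rw [this, sc, r_one, pow_zero, inv_one, one_smul]

theorem g7_inv {a b : Z4} (h : (a.mul b - Z4.one.sl 1700).nb (2 ^ 855) = true) :
    ‖sc 850 a * sc 850 b - 1‖ ≤ 1 / 2 ^ 845 := by
  have h1 := nb_sc (k := 855 + 845) h (g7_pow 855 845)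
  rw [Z4.sub_def, sc_sub] at h1
  rw [← sc_mul, ← g7_one 1700]
  exact h1

theorem base_norm (h : chkBase = true) : (∀ i, i < 6 → ‖sc 850 (xh i)‖ ≤ 39 / 10) ∧
    ‖sc 850 (xh 6)‖ ≤ 49 / 10 ∧ ‖sc 850 (xh 7)‖ ≤ 49 / 10 := by
  obtain ⟨h1, h2, h3, -⟩ := g7_parts h
  exact ⟨fun i hi => by simpa using nb_sc (h1 i hi) (g7_div 39 850),
    by simpa using nb_sc h2 (g7_div 49 850), by simpa using nb_sc h3 (g7_div 49 850)⟩

theorem g7_q {a a0 b0 : A4} {r e : ℝ} (h1 : ‖a - a0‖ ≤ r) (h2 : ‖a0 * b0 - 1‖ ≤ e)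
    (h3 : ‖b0‖ ≤ 49 / 10) : ‖a * b0 - 1‖ ≤ e + 49 / 10 * r := by
  have e1 : a * b0 - 1 = (a0 * b0 - 1) + (a - a0) * b0 := by noncomm_ring
  have h4 : ‖(a - a0) * b0‖ ≤ r * (49 / 10) :=
    (norm_mul_le _ _).trans (mul_le_mul h1 h3 (norm_nonneg _) ((norm_nonneg _).trans h1))
  rw [e1]
  linarith [norm_add_le (a0 * b0 - 1) ((a - a0) * b0)]

theorem g7_near {a a0 b0 : A4} {r e : ℝ} (hr : r ≤ 1 / 10 ^ 100) (he : e ≤ 1 / 100)
    (h1 : ‖a - a0‖ ≤ r) (h2 : ‖a0 * b0 - 1‖ ≤ e) (h3 : ‖b0‖ ≤ 49 / 10) :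
    ∃ b, a * b = 1 ∧ ‖b - b0‖ ≤ 50 * r + 32 * e := by
  have h0 : 0 ≤ r := (norm_nonneg _).trans h1
  have e0 : 0 ≤ e := (norm_nonneg _).trans h2
  have hr' : r ≤ 1 / 100 := hr.trans (by norm_num)
  obtain ⟨b, hb, hb'⟩ := inv_near (g7_q h1 h2 h3) (by linarith)
  refine ⟨b, hb, hb'.trans ?_⟩
  have : 2 * (e + 49 / 10 * r) * ‖b0‖ ≤ 2 * (e + 49 / 10 * r) * (49 / 10) :=
    mul_le_mul_of_nonneg_left h3 (by positivity)
  linarith

theorem g7_n1 : (1 : ℝ) / 2 ^ 845 ≤ 1 / 10 ^ 200 ∧ 32 * ((1 : ℝ) / 2 ^ 845) = 1 / 2 ^ 840 ∧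
    (1 : ℝ) / 2 ^ 840 ≤ 1 / 10 ^ 252 ∧ (4 : ℝ) / 2 ^ 560 ≤ 2 / 10 ^ 168 ∧
    (4 : ℝ) / 2 ^ 150 ≤ 3 / 10 ^ 45 ∧ (1 : ℝ) / 2 ^ 800 ≤ 1 / 10 ^ 240 := by
  refine ⟨?_, ?_, ?_, ?_, ?_, ?_⟩
  · rw [div_le_div_iff₀ (by positivity) (by positivity)]
    set_option exponentiation.threshold 1000 in norm_num
  · rw [show 845 = 840 + 5 from rfl, pow_add]
    generalize (2 : ℝ) ^ 840 = P
    by_cases hP : P = 0
    · simp [hP]
    · field_simp
      norm_num
  all_goals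
    rw [div_le_div_iff₀ (by positivity) (by positivity)]
    set_option exponentiation.threshold 1000 in norm_num

/-- inv_near with q = 1 / 2 ^ 845 + 49 / 10 * r. -/
theorem base_hi (h : chkBase = true) {r : ℝ} (h0 : 0 ≤ r) (h1 : r ≤ 1 / 10 ^ 100) {ρ : V3} {g : A4}
    (hρ : ‖ρ - rt‖ ≤ r) (hg : ‖g - gt‖ ≤ r) :
    ∃ y s, Lt 850 (50 * r + 1 / 2 ^ 840) xh ρ y g s := by
  obtain ⟨n1, n2, n3⟩ := base_norm h
  obtain ⟨-, -, -, p1, p2, -⟩ := g7_parts h
  obtain ⟨a1, a2, a3, -⟩ := g7_n1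
  have he : (1 : ℝ) / 2 ^ 845 ≤ 1 / 100 := a1.trans (by norm_num)
  have hx : ∀ i : Fin 3, ‖ρ i - sc 850 (xh i.val)‖ ≤ r := fun i =>
    (norm_le_pi_norm (ρ - rt) i).trans hρ
  choose y hy hy' using fun i : Fin 3 => g7_near h1 he (hx i) (g7_inv (p1 i.val i.isLt))
    ((n1 (3 + i.val) (by omega)).trans (by norm_num))
  obtain ⟨s, hs, hs'⟩ := g7_near h1 he hg (g7_inv p2) n3
  rw [a2] at hy' hs'
  have hp : (0 : ℝ) < 1 / 2 ^ 840 := by positivity
  have a4 : (1 : ℝ) / 2 ^ 840 ≤ 1 / 10000 := a3.trans (by norm_num)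
  have a5 : r ≤ 1 / 100000 := h1.trans (by norm_num)
  have hg' : ‖g - sc 850 (xh 6)‖ ≤ r := hg
  generalize (1 : ℝ) / 2 ^ 840 = e at *
  exact ⟨y, s, by linarith, by linarith, hy, hs, fun i => by linarith [hx i], hy', by linarith, hs',
    fun i hi => by linarith [n1 i hi], by linarith, by linarith⟩

/-- Lt.sr twice. -/
theorem base_lt (h : chkBase = true) {ρ : V3} {g : A4} (hρ : ‖ρ - rt‖ ≤ 1 / 10 ^ 165)
    (hg : ‖g - gt‖ ≤ 1 / 10 ^ 165) :
    ∃ y s, Lt 560 (6 / 10 ^ 164) xm ρ y g s ∧ Lt 150 (1 / 10 ^ 44) xl ρ y g s := by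
  obtain ⟨n1, n2, n3⟩ := base_norm h
  obtain ⟨y, s, hL⟩ := base_hi h (by positivity) (by norm_num) hρ hg
  obtain ⟨-, -, a3, a4, a5, -⟩ := g7_n1
  refine ⟨y, s, Lt.sr (K := 560) (l := 290) hL n1 n2 n3 ?_ (by norm_num),
    Lt.sr (K := 150) (l := 700) hL n1 n2 n3 ?_ (by norm_num)⟩
  · exact (add_le_add (add_le_add le_rfl a3) a4).trans (by norm_num)
  · exact (add_le_add (add_le_add le_rfl a3) a5).trans (by norm_num)

theorem rt_mid (i : Fin 3) : ‖rt i - sc 560 (xm i.val)‖ ≤ 4 / 2 ^ 560 :=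
  sr_close 560 290 (xh i.val)

theorem g7_xm (h : chkBase = true) (i : Fin 3) : ‖sc 560 (xm i.val)‖ ≤ 4 := by
  have h1 : ‖rt i‖ ≤ 39 / 10 := (base_norm h).1 i.val (by omega)
  have h2 := (rt_mid i).trans (g7_n1.2.2.2.1.trans (show _ ≤ (1 : ℝ) / 10 by norm_num))
  have h3 := norm_sub_norm_le (sc 560 (xm i.val)) (rt i)
  rw [norm_sub_rev] at h3
  linarith

theorem norm_dir (h : chkBase = true) (k : ℕ) : ‖dir k‖ ≤ 1 / 3 := by
  refine (pi_norm_le_iff_of_nonneg (by norm_num)).2 fun i => ?_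
  refine (norm_mul_le _ _).trans
    ((mul_le_mul (g7_xm h i) (norm_xiM k i.val) (norm_nonneg _) (by norm_num)).trans ?_)
  norm_num

/-- The low precision form of a perturbed direction. -/
theorem dir_low (h : chkBase = true) (k : ℕ) {v : V3}
    (hv : ‖v - (8192 : ℝ) • dir k‖ ≤ 1 / 10 ^ 32) (i : Fin 3) :
    ‖((8192 : ℝ)⁻¹ • v) i - sc 150 (xl i.val) * sc 150 (xlM k i.val)‖ ≤ 13 / 10 ^ 37 := by
  obtain ⟨-, -, -, a4, a5, -⟩ := g7_n1
  have h1 : ‖((8192 : ℝ)⁻¹ • v) i - dir k i‖ ≤ 8192⁻¹ * (1 / 10 ^ 32) := by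
    have e : ((8192 : ℝ)⁻¹ • v) i - dir k i = (8192 : ℝ)⁻¹ • (v - (8192 : ℝ) • dir k) i := by
      simp only [Pi.smul_apply, Pi.sub_apply, smul_sub, smul_smul]
      norm_num
    rw [e, norm_smul, Real.norm_of_nonneg (by norm_num)]
    exact mul_le_mul_of_nonneg_left ((norm_le_pi_norm _ i).trans hv) (by norm_num)
  have h2 : ‖rt i - sc 150 (xl i.val)‖ ≤ 3 / 10 ^ 45 := (sr_close 150 700 (xh i.val)).trans a5
  have h3 : ‖sc 490 (xiM k i.val) - sc 150 (xlM k i.val)‖ ≤ 3 / 10 ^ 45 := by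
    rw [xlM_eq]
    exact (sr_close 150 340 (xiM k i.val)).trans a5
  have h4 := (rt_mid i).trans (a4.trans (show _ ≤ (3 : ℝ) / 10 ^ 45 by norm_num))
  have h5 := g7_xm h i
  have h6 := norm_xlM k i.val
  have h7 : dir k i = sc 560 (xm i.val) * sc 490 (xiM k i.val) := rfl
  rw [h7] at h1
  generalize ((8192 : ℝ)⁻¹ • v) i = u at *
  generalize sc 560 (xm i.val) = A at *
  generalize sc 150 (xl i.val) = A' at *
  generalize sc 490 (xiM k i.val) = B at *
  generalize sc 150 (xlM k i.val) = B' at *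
  generalize rt i = C at *
  have h8 : ‖A - A'‖ ≤ 6 / 10 ^ 45 := by
    have := norm_sub_le_norm_sub_add_norm_sub A C A'
    rw [norm_sub_rev A C] at this
    linarith
  have e : u - A' * B' = (u - A * B) + (A * (B - B') + (A - A') * B') := by noncomm_ring
  have h9 : ‖A * (B - B')‖ ≤ 4 * (3 / 10 ^ 45) :=
    (norm_mul_le _ _).trans (mul_le_mul h5 h3 (norm_nonneg _) (by norm_num))
  have h10 : ‖(A - A') * B'‖ ≤ 6 / 10 ^ 45 * (1 / 15) :=
    (norm_mul_le _ _).trans (mul_le_mul h8 h6 (norm_nonneg _) (by norm_num))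
  rw [e]
  refine (norm_add_le _ _).trans
    ((add_le_add h1 ((norm_add_le _ _).trans (add_le_add h9 h10))).trans ?_)
  norm_num

theorem base_res (h : chkBase = true) {r : ℝ} (h0 : 0 ≤ r) (h1 : r ≤ 1 / 10 ^ 100) {ρ : V3}
    (hρ : ‖ρ - rt‖ ≤ r) : ‖Psi gt ρ - rt‖ ≤ 25 * 10 ^ 20 * r + 1 / 10 ^ 232 := by
  obtain ⟨y, s, hL⟩ := base_hi h h0 h1 hρ (g := gt) (by rwa [sub_self, norm_zero])
  obtain ⟨-, -, a3, -, -, a6⟩ := g7_n1
  rw [Psi_eq hL.inv hL.ts]
  refine (pi_norm_le_iff_of_nonneg (by positivity)).2 fun i => ?_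
  have h2 := hL.val i
  have hd := (deg_le i).1
  have h3 := nb_sc (k := 850 * deg i - 800 + 800) ((g7_parts h).2.2.2.2.2.2.2 i)
    (g7_pow (850 * deg i - 800) 800)
  have h4 := sc_sl 850 (850 * (deg i - 1)) (xh i.val)
  rw [show 850 + 850 * (deg i - 1) = 850 * deg i by omega] at h4
  rw [show 850 * deg i - 800 + 800 = 850 * deg i by omega, Z4.sub_def, sc_sub, h4] at h3
  have h5 := norm_sub_le_norm_sub_add_norm_sub (Fm gt s (ρ, y) i)
    (sc (850 * deg i) (Fm (xh 6) (xh 7) (bp xh) i)) (sc 850 (xh i.val))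
  have h6 : 5 * 10 ^ 19 * (1 / 10 ^ 252) + 1 / 10 ^ 240 ≤ (1 : ℝ) / 10 ^ 232 := by norm_num
  have h7 : 5 * 10 ^ 19 * (50 * r + 1 / 2 ^ 840) ≤ 25 * 10 ^ 20 * r + 5 * 10 ^ 19 * (1 / 10 ^ 252) := by
    generalize (1 : ℝ) / 2 ^ 840 = e at a3
    generalize (1 : ℝ) / 10 ^ 252 = e' at a3
    linarith
  exact h5.trans ((add_le_add (h2.trans h7) (h3.trans a6)).trans (by rw [add_assoc]; gcongr))

theorem g7_cast {z : ℤ} {a b : ℕ} (h : (z - 2 ^ (a + b)).natAbs ≤ 2 ^ a) :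
    |(z : ℝ) / 2 ^ (a + b) - 1| ≤ 1 / 2 ^ b := by
  have h1 : |z - 2 ^ (a + b)| ≤ 2 ^ a := by
    rw [Int.abs_eq_natAbs]
    exact_mod_cast h
  have h2 : |(z : ℝ) - 2 ^ (a + b)| ≤ 2 ^ a := by exact_mod_cast h1
  rw [div_sub_one (by positivity), abs_div, abs_of_pos (by positivity : (0 : ℝ) < 2 ^ (a + b)),
    div_le_div_iff₀ (by positivity) (by positivity), one_mul, pow_add]
  rw [pow_add] at h2
  exact mul_le_mul_of_nonneg_right h2 (by positivity)

theorem g7_det {a a0 : A4} {m : Z4} (h1 : ‖a - a0‖ ≤ 1 / 10 ^ 165)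
    (h2 : ‖a0 * sc 850 m - 1‖ ≤ 1 / 2 ^ 845) (h3 : ‖sc 850 m‖ ≤ 49 / 10)
    (h4 : (m.det - 2 ^ 3400).natAbs ≤ 2 ^ 3300) : |a.det - 1| ≤ 1 / 10 ^ 20 := by
  have h5 : ‖a * sc 850 m - 1‖ ≤ 1 / 10 ^ 100 :=
    (g7_q h1 (h2.trans g7_n1.1) h3).trans (by norm_num)
  have h6 := abs_det_one_add (h5.trans (by norm_num))
  rw [add_sub_cancel, Matrix.det_mul] at h6
  have h7 : |(sc 850 m).det - 1| ≤ 1 / 10 ^ 30 := by
    rw [det_sc]
    exact (g7_cast (a := 3300) (b := 100) h4).trans (by norm_num)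
  have h8 : |a.det * (sc 850 m).det - 1| ≤ 1 / 10 ^ 30 :=
    h6.trans ((mul_le_mul_of_nonneg_left h5 (by norm_num)).trans (by norm_num))
  generalize a.det = x at *
  generalize (sc 850 m).det = b at *
  rw [abs_le] at h7 h8 ⊢
  constructor <;> nlinarith [h7.1, h7.2, h8.1, h8.2]

/-- det ρ * det b = det (1 + n) for the approximate inverse b, whose determinant is within
1 / 2 ^ 100 of one. -/
theorem base_det (h : chkBase = true) {ρ : V3} (hρ : ‖ρ - rt‖ ≤ 1 / 10 ^ 165) (i : Fin 3) :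
    |(ρ i).det - 1| ≤ 1 / 10 ^ 20 := by
  obtain ⟨-, -, -, p1, -, p3, -⟩ := g7_parts h
  exact g7_det ((norm_le_pi_norm (ρ - rt) i).trans hρ) (g7_inv (p1 i.val i.isLt))
    (((base_norm h).1 (3 + i.val) (by omega)).trans (by norm_num)) (p3 i.val i.isLt)

theorem base_detg (h : chkBase = true) {g : A4} (hg : ‖g - gt‖ ≤ 1 / 10 ^ 165) : 0 < g.det := by
  obtain ⟨-, -, -, -, p2, -, p4, -⟩ := g7_parts h
  have := (abs_le.1 (g7_det hg (g7_inv p2) (base_norm h).2.2 p4)).1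
  have h2 : (1 : ℝ) / 10 ^ 20 ≤ 1 / 2 := by norm_num
  linarith

theorem g7_sq {z : ℂ} {a b : ℤ} {n : ℕ} (h1 : z.re = a / 2 ^ n) (h2 : z.im = b / 2 ^ n) :
    ‖z‖ ^ 2 * 2 ^ (n + n) = (sq2 a b : ℤ) := by
  rw [Complex.sq_norm, Complex.normSq_apply, h1, h2, sq2, pow_add]
  push_cast
  field_simp

theorem g7_up {z : ℂ} {a b : ℤ} {n : ℕ} (h1 : z.re = a / 2 ^ n) (h2 : z.im = b / 2 ^ n)
    (h : sq2 a b ≤ 4 * 2 ^ (n + n)) : ‖z‖ ≤ 2 := by
  have h3 : ((sq2 a b : ℤ) : ℝ) ≤ 4 * 2 ^ (n + n) := by exact_mod_cast h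
  rw [← g7_sq h1 h2] at h3
  have h4 := le_of_mul_le_mul_right h3 (by positivity)
  nlinarith [norm_nonneg z]

theorem g7_lo {z : ℂ} {a b : ℤ} {n c : ℕ} (h1 : z.re = a / 2 ^ n) (h2 : z.im = b / 2 ^ n)
    (h : 2 ^ (n + n) ≤ 10 ^ (c + c) * sq2 a b) : 1 / 10 ^ c ≤ ‖z‖ := by
  have h3 : (2 : ℝ) ^ (n + n) ≤ 10 ^ (c + c) * ((sq2 a b : ℤ) : ℝ) := by exact_mod_cast h
  rw [← g7_sq h1 h2, ← mul_assoc] at h3
  have h4 : 1 ≤ (10 : ℝ) ^ (c + c) * ‖z‖ ^ 2 :=
    le_of_mul_le_mul_right (by rwa [one_mul]) (by positivity : (0 : ℝ) < 2 ^ (n + n))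
  rw [div_le_iff₀ (by positivity)]
  refine (one_le_sq_iff₀ (by positivity)).1 (h4.trans (le_of_eq ?_))
  rw [pow_add]
  ring

theorem lam_sound (h : chkLam = true) : (∀ j, ‖lam j‖ ≤ 2) ∧ (∀ j, 1 / 1000 ≤ ‖lam j - 1‖) ∧
    (∀ j k, j ≠ k → 1 / 10 ^ 35 ≤ ‖lam j - lam k‖) ∧
    ∀ j k, 1 / 10 ^ 35 ≤ ‖lam j - (starRingEnd ℂ) (lam k)‖ := by
  have h1 := fun j : Fin 9 => alln_sound h j.isLt
  simp only [Bool.and_eq_true, decide_eq_true_eq] at h1
  have h2 := fun j k : Fin 9 => alln_sound (h1 j).2 k.isLt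
  simp only [Bool.and_eq_true, Bool.or_eq_true, decide_eq_true_eq, Nat.beq_eq] at h2
  have re : ∀ j : Fin 9, (lam j).re = laE (2 * j.val) / 2 ^ 490 := fun _ => rfl
  have im : ∀ j : Fin 9, (lam j).im = laE (2 * j.val + 1) / 2 ^ 490 := fun _ => rfl
  refine ⟨fun j => g7_up (n := 490) (re j) (im j) (h1 j).1.1, fun j => ?_, fun j k hjk => ?_,
    fun j k => ?_⟩
  · refine le_trans (by norm_num) (g7_lo (n := 490) (c := 3) ?_ ?_ (h1 j).1.2)
    · rw [Complex.sub_re, re, Complex.one_re, Int.cast_sub, Int.cast_pow, Int.cast_ofNat, sub_div,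
        div_self (by positivity)]
    · rw [Complex.sub_im, im, Complex.one_im, sub_zero]
  · refine g7_lo (n := 490) (c := 35) ?_ ?_ ((h2 j k).2.resolve_left fun e => hjk (Fin.ext e))
    · rw [Complex.sub_re, re, re, Int.cast_sub, sub_div]
    · rw [Complex.sub_im, im, im, Int.cast_sub, sub_div]
  · refine g7_lo (n := 490) (c := 35) ?_ ?_ (h2 j k).1
    · rw [Complex.sub_re, Complex.conj_re, re, re, Int.cast_sub, sub_div]
    · rw [Complex.sub_im, Complex.conj_im, im, im, Int.cast_add, add_div, sub_neg_eq_add]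

theorem norm_M0 (i : Fin 3) (a b : Fin 2) : ‖L4.M0 i a b‖ ≤ 3 := by
  have key : ∀ p q : ℤ, |p| + |q| ≤ 3 * 10 ^ 30 →
      ‖((L4.DD : ℂ)⁻¹) * (⟨p, q⟩ : ℂ)‖ ≤ 3 := by
    intro p q h
    have h1 := Complex.norm_le_abs_re_add_abs_im (⟨p, q⟩ : ℂ)
    have h2 : |(p : ℝ)| + |(q : ℝ)| ≤ 3 * 10 ^ 30 := by exact_mod_cast h
    have h3 : ‖(L4.DD : ℂ)‖ = 10 ^ 30 := by
      simp [L4.DD]
      norm_num
    rw [norm_mul, norm_inv, h3, inv_mul_le_iff₀ (by positivity)]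
    simp only at h1
    linarith
  fin_cases i <;> fin_cases a <;> fin_cases b <;> exact key _ _ (by decide +kernel)

end Pool.Agent.MP_28624d_gt.K

end

section

/-!
The first derivative and the inverse frame.
-/

set_option maxSynthPendingDepth 3

namespace Pool.Agent.MP_28624d_gt.K

theorem g8_tg1 {k : ℕ} (h : 18 ≤ k) (j : ℕ) : tgE k j = xiE k j * 2 ^ 490 := by
  rw [tgE, Nat.ble_eq.mpr h, cond_true]
  exact Int.shiftLeft_eq _ _

theorem g8_lt {k : ℕ} (h : k < 18) : Nat.ble 18 k = false :=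
  Bool.eq_false_iff.2 fun e => absurd (Nat.ble_eq.mp e) (by omega)

theorem g8_tg2 {k : ℕ} (h : k < 18) (h2 : k % 2 = 0) (j : ℕ) :
    tgE k j = laE k * xiE k j + laE (k + 1) * xiE (k + 1) j := by
  rw [tgE, g8_lt h, cond_false, show Nat.mod k 2 = 0 from h2]
  rfl

theorem g8_tg3 {k : ℕ} (h : k + 1 < 18) (h2 : k % 2 = 0) (j : ℕ) :
    tgE (k + 1) j = laE k * xiE (k + 1) j - laE (k + 1) * xiE k j := by
  rw [tgE, g8_lt h, cond_false, show Nat.mod (k + 1) 2 = 1 from (by omega : (k + 1) % 2 = 1)]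
  rfl

theorem g8_tg (k j : ℕ) : |tgE k j| ≤ 2 ^ 491 * 2 ^ 484 + 2 ^ 491 * 2 ^ 484 := by
  have a (k) : |xiE k j| ≤ 2 ^ 484 := abs_fld_le _ _ (by norm_num)
  have b (k l) : |laE k * xiE l j| ≤ 2 ^ 491 * 2 ^ 484 := by
    rw [abs_mul]
    exact mul_le_mul (abs_fld_le _ _ (by norm_num)) (a l) (abs_nonneg _) (by positivity)
  rcases le_or_gt 18 k with h | h
  · rw [g8_tg1 h, abs_mul, abs_of_pos (a := (2 : ℤ) ^ 490) (by positivity), mul_comm]
    exact le_add_of_le_of_nonneg (mul_le_mul (pow_le_pow_right₀ one_le_two (by norm_num)) (a k)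
      (abs_nonneg _) (by positivity)) (by positivity)
  rcases Nat.even_or_odd' k with ⟨m, rfl | rfl⟩
  · rw [g8_tg2 h (by omega)]
    exact (abs_add_le _ _).trans (add_le_add (b _ _) (b _ _))
  · rw [g8_tg3 h (by omega)]
    exact (abs_sub _ _).trans (add_le_add (b _ _) (b _ _))

theorem g8_sc (k : ℕ) (f : ℕ → ℤ) (a b : Fin 4) :
    sc k (Z4.of f) a b = ((2 : ℝ) ^ k)⁻¹ * f (4 * a.val + b.val) := by
  rw [sc, Matrix.smul_apply, r_apply, toM_of, smul_eq_mul]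

set_option exponentiation.threshold 1000 in
theorem g8_ntg (k : ℕ) (φ : ℕ → ℕ) : ‖sc 980 (Z4.of fun c => tgE k (φ c))‖ ≤ 4 * (1 / 16) :=
  norm_le_of_entries fun a b => by
    have h : |(tgE k (φ (4 * a.val + b.val)) : ℝ)| ≤ 2 ^ 491 * 2 ^ 484 + 2 ^ 491 * 2 ^ 484 := by
      exact_mod_cast g8_tg k _
    rw [g8_sc, abs_mul, abs_of_pos (a := ((2 : ℝ) ^ 980)⁻¹) (by positivity),
      inv_mul_le_iff₀ (by positivity)]
    exact h.trans (by norm_num)

theorem g8_zg0 {k : ℕ} (h : k < 18) : sc 490 (Z4.of (zgE k)) = 0 := by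
  ext a b
  rw [g8_sc, zgE, g8_lt h]
  simp

theorem g8_zg1 (m : ℕ) : zgE (18 + m) = zeE m := funext fun j => by
  rw [zgE, Nat.ble_eq.mpr (Nat.le_add_right 18 m), cond_true]
  exact congrArg (zeE · j) (Nat.add_sub_cancel_left 18 m)

theorem g8_nzg (k : ℕ) : ‖sc 490 (Z4.of (zgE k))‖ ≤ 1 / 8 := by
  rcases lt_or_ge k 18 with h | h
  · rw [g8_zg0 h, norm_zero]
    norm_num
  · obtain ⟨m, rfl⟩ := Nat.exists_eq_add_of_le h
    rw [g8_zg1]
    exact norm_zeM m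

theorem g8_alg (x t z Y : A4) {P u v : ℝ} (hP : P ≠ 0) (hu : u ≠ 0) (hv : v ≠ 0) :
    (P * u * (v * v)) • ((P * u * v)⁻¹ • Y - (u⁻¹ • x * (v * v)⁻¹ • t +
      (v⁻¹ • z * u⁻¹ • x - u⁻¹ • x * v⁻¹ • z))) = v • Y - P • (x * t + v • (z * x - x * z)) := by
  simp only [smul_mul_smul_comm, smul_sub, smul_add, smul_smul]
  congr 1
  · congr 1
    field_simp
  · congr 1
    · congr 1
      field_simp
    · congr 2 <;> field_simp

set_option exponentiation.threshold 1000 in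
/-- Lt.lin with p = pz w1 xiE n k0, ξ k i = sc 490 (xiM (k0 + k) i), v k = dir (k0 + k). The matrix
resL n k0 i packs 2 ^ (560 * deg i + 980) times the difference between the approximation and the
target; it has norm at most 2 * 5 ^ 27 * 2 ^ 16100 < 2 ^ 16199 (abs_fld_le bounds the data). -/
theorem lin_aux {n k0 : ℕ} (hl : chkLin n k0 = true) {ρ y : V3} {g s : A4}
    (h : Lt 560 (6 / 10 ^ 164) xm ρ y g s) (k : Fin n) (i : Fin 3) :
    ‖DF g s ρ y (dir (k0 + k.val)) i -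
      (sc 560 (xm i.val) * sc 980 (Z4.of fun c => tgE (k0 + k.val) (Nat.add (Nat.mul 16 i.val) c)) +
        (sc 490 (Z4.of (zgE (k0 + k.val))) * sc 560 (xm i.val) -
          sc 560 (xm i.val) * sc 490 (Z4.of (zgE (k0 + k.val)))))‖ ≤ 2 / 10 ^ 142 := by
  obtain ⟨Y, hY, H⟩ := h.lin (N := n) (w := w1) (q := 490) (p := pz w1 xiE n k0)
    (ξ := fun k i => sc 490 (xiM (k0 + k.val) i.val)) (v := fun k => dir (k0 + k.val))
    (fun i => (RepP.pz w1 xiE n k0 i.val).congr fun k => smul_sc _ _)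
    (fun k i => (norm_xiM _ _).trans (by norm_num))
    (fun k i => by rw [dir, sub_self, norm_zero]; exact h.d0) i
  obtain ⟨W, hW⟩ : ∃ W : Fin n → A4, W = fun k => sc 560 (xm i.val) *
    sc 980 (Z4.of fun c => tgE (k0 + k.val) (Nat.add (Nat.mul 16 i.val) c)) +
      (sc 490 (Z4.of (zgE (k0 + k.val))) * sc 560 (xm i.val) -
        sc 560 (xm i.val) * sc 490 (Z4.of (zgE (k0 + k.val)))) := ⟨_, rfl⟩
  have nW (k) : ‖W k‖ ≤ 2 := by
    have a := h.nx i.val (by omega)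
    rw [hW]
    refine (norm_add_le_of_le ((norm_mul_le _ _).trans (mul_le_mul a (g8_ntg _ _) (norm_nonneg _)
      (by norm_num))) (norm_sub_le_of_le ((norm_mul_le _ _).trans (mul_le_mul (g8_nzg _) a
        (norm_nonneg _) (by norm_num))) ((norm_mul_le _ _).trans (mul_le_mul a (g8_nzg _)
          (norm_nonneg _) (by norm_num))))).trans (by norm_num)
  have z : RepP w1 (pz w1 zgE n k0 0) fun k : Fin n => (Z4.of (zgE (k0 + k.val))).r :=
    (RepP.pz w1 zgE n k0 0).congr fun k => congrArg (fun f => (Z4.of f).r)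
      (funext fun c => congrArg _ (Nat.zero_add c).symm)
  have hc := all3_sound hl i
  have R := (hY.sl 490).sub ((((RepP.pz w1 tgE n k0 i.val).mulL (xm i.val)).add
    (((z.mulR (xm i.val)).sub (z.mulL (xm i.val))).sl 490)).sl (560 * (deg i - 1)))
  obtain ⟨d1, d2⟩ := deg_le i
  rw [resL] at hc
  generalize deg i = D at *
  obtain ⟨D, rfl⟩ : ∃ E, D = E + 1 := ⟨D - 1, by omega⟩
  have R' := R.congr (Y' := fun k => (2 : ℝ) ^ (560 * (D + 1) + 980) •
    (((2 : ℝ) ^ (560 * (D + 1) + 490))⁻¹ • Y k - W k)) fun k => by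
      have e : (2 : ℝ) ^ 980 = 2 ^ 490 * 2 ^ 490 := by rw [← pow_add]
      simp only [hW, sc]
      rw [Nat.add_sub_cancel, mul_add 560 D, mul_one, pow_add, pow_add, pow_add, pow_add, e]
      exact g8_alg _ _ _ _ (by positivity) (by positivity) (by positivity)
  have b := R'.dchk (by norm_num [w1]) (fun k => by
    rw [norm_smul, Real.norm_of_nonneg (by positivity)]
    refine (mul_le_mul (pow_le_pow_right₀ one_le_two (show 560 * (D + 1) + 980 ≤ 16100 by omega))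
      (norm_sub_le_of_le (H k).2.1 (nW k)) (norm_nonneg _) (by positivity)).trans_lt ?_
    rw [show w1 - 1 = 16100 + 99 from rfl, pow_add]
    exact mul_lt_mul_of_pos_left (by norm_num) (by positivity)) hc k
  rw [norm_smul, Real.norm_of_nonneg (by positivity), Nat.cast_pow, Nat.cast_ofNat,
    show 560 * (D + 1) + 980 = 475 + (560 * (D + 1) + 980 - 475) by omega, pow_add,
    Nat.add_sub_cancel_left, mul_right_comm, mul_le_mul_iff_left₀ (by positivity),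
    ← le_div_iff₀' (by positivity)] at b
  have c := norm_sub_le_norm_sub_add_norm_sub _ _ _ |>.trans (add_le_add (H k).2.2 b)
  rw [hW] at c
  exact c.trans (by norm_num)

theorem g8_dg (j : Fin 9) (z : ℂ) : (dg lam (Pi.single j z), (0 : T 15)) =
    (lam j * z).re • ((Pi.single j 1, 0) : Cn 9 × T 15) +
      (lam j * z).im • ((Pi.single j Complex.I, 0) : Cn 9 × T 15) := by
  refine Prod.ext (funext fun l => ?_) (by simp)
  by_cases e : l = j
  · subst e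
    simp only [dg_apply, Pi.single_eq_same, Prod.fst_add, Prod.smul_mk, Pi.add_apply,
      Pi.smul_apply, Complex.real_smul, mul_one, Complex.re_add_im]
  · simp [Pi.single_eq_of_ne e]

theorem g8_Tf {k : ℕ} (hk : k < 33) (i : Fin 3) :
    Tf Bq rt (zeta (bs k).2.2, dg lam (bs k).2.1, (bs k).2.2) i = (8192 : ℝ) •
      (sc 560 (xm i.val) * sc 980 (Z4.of fun c => tgE k (Nat.add (Nat.mul 16 i.val) c)) +
        (sc 490 (Z4.of (zgE k)) * rt i - rt i * sc 490 (Z4.of (zgE k)))) := by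
  have e : (2 : ℝ) ^ 980 = 2 ^ 490 * 2 ^ 490 := by rw [← pow_add]
  have p : (0 : ℝ) < 2 ^ 490 := by positivity
  rcases lt_or_ge k 18 with h | h
  · have key (j : Fin 9) (z : ℂ) (t : A4) (ht : t = (lam j * z).re • sc 490 (xiM (2 * j.val) i.val) +
        (lam j * z).im • sc 490 (xiM (2 * j.val + 1) i.val)) :
        Tf Bq rt (zeta 0, dg lam (Pi.single j z), 0) i = (8192 : ℝ) •
          (sc 560 (xm i.val) * t + (0 * rt i - rt i * 0)) := by
      simp only [Tf, g8_dg, map_zero, map_add, map_smul, Bq_re, Bq_im, Pi.add_apply, Pi.smul_apply,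
        dir, ht, zero_mul, mul_zero, sub_self, zero_add, add_zero, mul_add, mul_smul_comm, smul_add,
        smul_comm (8192 : ℝ)]
    rw [g8_zg0 h]
    rcases Nat.even_or_odd' k with ⟨m, rfl | rfl⟩
    · rw [bs_re ⟨m, by omega⟩]
      refine key _ _ _ (Matrix.ext fun a b => ?_)
      simp only [Matrix.add_apply, Matrix.smul_apply, xiM, g8_sc, g8_tg2 h (by omega), mul_one, lam,
        smul_eq_mul, e]
      generalize (2 : ℝ) ^ 490 = v at p
      push_cast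
      field_simp
    · rw [bs_im ⟨m, by omega⟩]
      refine key _ _ _ (Matrix.ext fun a b => ?_)
      simp only [Matrix.add_apply, Matrix.smul_apply, xiM, g8_sc, g8_tg3 h (by omega), lam,
        Complex.mul_I_re, Complex.mul_I_im, smul_eq_mul, e]
      generalize (2 : ℝ) ^ 490 = v at p
      push_cast
      field_simp
      ring
  · obtain ⟨m, rfl⟩ := Nat.exists_eq_add_of_le h
    have t : sc 980 (Z4.of fun c => tgE (18 + m) (Nat.add (Nat.mul 16 i.val) c)) =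
        sc 490 (xiM (18 + m) i.val) := Matrix.ext fun a b => by
      simp only [xiM, g8_sc, g8_tg1 h, e, Int.cast_mul, Int.cast_pow, Int.cast_ofNat]
      generalize (2 : ℝ) ^ 490 = v at p
      field_simp
    have u := bs_cas ⟨m, by omega⟩
    have v := Bq_cas ⟨m, by omega⟩
    have w := iota_zeta ⟨m, by omega⟩
    dsimp only at u v w
    rw [u, t, g8_zg1]
    simp only [Tf, map_zero, v, w, Pi.add_apply, Pi.smul_apply, dir, smul_add, smul_sub,
      smul_mul_assoc, mul_smul_comm]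
    rw [add_comm]

set_option exponentiation.threshold 1000 in
/-- Cases k = 2 j, k = 2 j + 1, k = 18 + m; dg lam (single j 1) = re • single j 1 + im • single j I.
DF is homogeneous in the direction by fderiv_Psi. -/
theorem lin_sound (hb : chkBase = true) (h1 : chkLin 18 0 = true) (h2 : chkLin 15 18 = true)
    {ρ : V3} {g : A4} (hρ : ‖ρ - rt‖ ≤ 1 / 10 ^ 165) (hg : ‖g - gt‖ ≤ 1 / 10 ^ 165)
    (y : Cn 9 × T 15) :
    ‖fderiv ℝ (Psi g) ρ (Bq y) - Tf Bq rt (zeta y.2, dg lam y.1, y.2)‖ ≤ 1 / 10 ^ 136 * ‖y‖ := by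
  obtain ⟨x, s, h, -⟩ := base_lt hb hρ hg
  obtain ⟨L, hL⟩ : ∃ L : Cn 9 × T 15 →ₗ[ℝ] V3, ∀ y, L y =
      fderiv ℝ (Psi g) ρ (Bq y) - Tf Bq rt (zeta y.2, dg lam y.1, y.2) :=
    ⟨((fderiv ℝ (Psi g) ρ).comp Bq - (TfL Bq rt).comp
      ((zeta.comp (ContinuousLinearMap.snd ℝ _ _)).prod
        (((dg lam).comp (ContinuousLinearMap.fst ℝ _ _)).prod
          (ContinuousLinearMap.snd ℝ _ _)))).toLinearMap, fun y => by
      simp only [ContinuousLinearMap.coe_coe, sub_apply,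
        ContinuousLinearMap.comp_apply, ContinuousLinearMap.prod_apply, TfL_apply,
        ContinuousLinearMap.coe_fst', ContinuousLinearMap.coe_snd']⟩
  rw [← hL]
  refine (bound33 (c := 8192 * (2 / 10 ^ 142 + (1 / 8 * (4 / 2 ^ 560) + 4 / 2 ^ 560 * (1 / 8))))
    L (fun k hk => ?_) y).trans (mul_le_mul_of_nonneg_right (by norm_num) (norm_nonneg _))
  rw [hL]
  refine (pi_norm_le_iff_of_nonneg (by positivity)).2 fun i => ?_
  have a : ‖DF g s ρ x (dir k) i -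
      (sc 560 (xm i.val) * sc 980 (Z4.of fun c => tgE k (Nat.add (Nat.mul 16 i.val) c)) +
        (sc 490 (Z4.of (zgE k)) * sc 560 (xm i.val) -
          sc 560 (xm i.val) * sc 490 (Z4.of (zgE k))))‖ ≤ 2 / 10 ^ 142 := by
    rcases lt_or_ge k 18 with l | l
    · simpa only [zero_add] using lin_aux h1 h ⟨k, l⟩ i
    · obtain ⟨m, rfl⟩ := Nat.exists_eq_add_of_le l
      exact lin_aux h2 h ⟨m, by omega⟩ i
  have b := rt_mid i
  have c := g8_nzg k
  rw [Pi.sub_apply, g8_Tf hk, Bq_bs hk, map_smul, fderiv_Psi h.inv h.ts, Pi.smul_apply, ← smul_sub,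
    norm_smul, Real.norm_of_nonneg (by norm_num)]
  generalize DF g s ρ x (dir k) i = F, rt i = r, sc 490 (Z4.of (zgE k)) = z,
    sc 980 (Z4.of fun c => tgE k (Nat.add (Nat.mul 16 i.val) c)) = t, sc 560 (xm i.val) = m
    at a b c ⊢
  rw [show F - (m * t + (z * r - r * z)) =
    F - (m * t + (z * m - m * z)) - (z * (r - m) - (r - m) * z) by noncomm_ring]
  exact mul_le_mul_of_nonneg_left (norm_sub_le_of_le a (norm_sub_le_of_le
    ((norm_mul_le _ _).trans (mul_le_mul c b (norm_nonneg _) (by norm_num)))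
    ((norm_mul_le _ _).trans (mul_le_mul b c (norm_nonneg _) (by positivity))))) (by norm_num)

end Pool.Agent.MP_28624d_gt.K

end

section

/-!
Continuation of G8.
-/

set_option maxSynthPendingDepth 3

namespace Pool.Agent.MP_28624d_gt.K

theorem g8b_split (h : chkInv = true) :
    (∀ r, r < 48 → dchk w2 48 (fun k => bif Nat.beq k r then 2 ^ 1250 else 0) (2 ^ 1070)
      (rowD r (colT 0) (colT 1) (colT 2)) = true) ∧
    (∀ r, r < 48 → ∀ v, |rowL r v| ≤ 6 * 10 ^ 18 * ‖v‖) ∧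
    ∀ r, r < 18 → ∀ v, |rowL r v| ≤ 340 * ‖v‖ := by
  unfold chkInv at h
  rw [Bool.and_eq_true, Bool.and_eq_true] at h
  obtain ⟨⟨h1, h2⟩, h3⟩ := h
  refine ⟨fun r hr => alln_sound h1 hr, fun r hr v => abs_rowL_le ?_ v,
    fun r hr v => abs_rowL_le ?_ v⟩
  · have := of_decide_eq_true (alln_sound h2 hr)
    generalize sumn (fun j => ((rE r j).natAbs : ℤ)) 48 = s at this ⊢
    exact_mod_cast this
  · have := of_decide_eq_true (alln_sound h3 hr)
    generalize sumn (fun j => ((rE r j).natAbs : ℤ)) 48 = s at this ⊢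
    exact_mod_cast this

theorem row_sound (h : chkInv = true) : (∀ v, ‖R0 v‖ ≤ 12 * 10 ^ 18 * ‖v‖) ∧
    ∀ r, r < 18 → ∀ v, |rowL r v| ≤ 340 * ‖v‖ := by
  obtain ⟨-, h2, h3⟩ := g8b_split h
  refine ⟨fun v => ?_, h3⟩
  have := norm_le_of_coL (u := R0 v) (c := 6 * 10 ^ 18 * ‖v‖) fun r hr => by
    rw [coL_R0 hr]
    exact h2 r hr v
  linarith

/-- The middle precision base point. -/
noncomputable def g8b_rm : V3 := fun i => sc 560 (xm i.val)

theorem g8b_of_zero {f : ℕ → ℤ} (h : ∀ c, f c = 0) : (Z4.of f).r = 0 := by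
  ext a b
  rw [r_apply, toM_of, h]
  simp

theorem g8b_pow (a b : ℕ) : (2 : ℝ) ^ (a + b) * (2 ^ a)⁻¹ = 2 ^ b := by
  rw [pow_add]
  field_simp

theorem g8b_a (X Y : A4) :
    (2 : ℝ) ^ 1050 • (8192 : ℝ) • ((((2 : ℝ) ^ 560)⁻¹ • X) * (((2 : ℝ) ^ 490)⁻¹ • Y)) =
      (2 : ℝ) ^ 13 • (X * Y) := by
  rw [smul_mul_smul_comm, smul_smul, smul_smul, mul_comm _ (8192 : ℝ), mul_assoc, ← mul_assoc _ _
    ((2 : ℝ) ^ 490)⁻¹, g8b_pow 560 490, mul_inv_cancel₀ (by positivity)]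
  norm_num

theorem g8b_b (X G : A4) :
    (2 : ℝ) ^ 1050 • (G * (((2 : ℝ) ^ 560)⁻¹ • X) - (((2 : ℝ) ^ 560)⁻¹ • X) * G) =
      (2 : ℝ) ^ 490 • (G * X - X * G) := by
  rw [mul_smul_comm, smul_mul_assoc, ← smul_sub, smul_smul, g8b_pow 560 490]

theorem g8b_beq {a b : ℕ} (h : a ≠ b) : Nat.beq a b = false := by
  rw [← Bool.not_eq_true]
  exact fun e => h (Nat.eq_of_beq_eq_true e)

theorem g8b_xi {k : ℕ} (hk : k < 33) : xi33 k = xiE k := by
  funext c
  rw [xi33, show Nat.ble 33 k = false from by rw [← Bool.not_eq_true, Nat.ble_eq]; omega,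
    cond_false]

theorem g8b_xi0 {k : ℕ} (hk : ¬k < 33) (c : ℕ) : xi33 k c = 0 := by
  rw [xi33, show Nat.ble 33 k = true from by rw [Nat.ble_eq]; omega, cond_true]

theorem g8b_Tf (B : Cn 9 × T 15 →L[ℝ] V3) (ρ : V3) (u : U48) (c : ℝ) (i : Fin 3) :
    (c • Tf B ρ u) i = c • (iota u.1 * ρ i - ρ i * iota u.1 + B u.2 i) := rfl

theorem g8b_z (B : Cn 9 × T 15 →L[ℝ] V3) {y : Cn 9 × T 15} (h : y = (0, 0)) : B y = 0 := by
  rw [h]
  exact map_zero B

theorem g8b_col (k : Fin 48) (i : Fin 3) :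
    ((2 : ℝ) ^ 1050 • Tf Bq g8b_rm (bs k.val)) i =
      (2 : ℝ) ^ 13 • ((xm i.val).r *
        (Z4.of fun c => xi33 (0 + k.val) (Nat.add (Nat.mul 16 i.val) c)).r) +
      (2 : ℝ) ^ 490 • ((Z4.of fun c => gaE (0 + k.val) (Nat.add (Nat.mul 16 0) c)).r *
        (xm i.val).r - (xm i.val).r *
          (Z4.of fun c => gaE (0 + k.val) (Nat.add (Nat.mul 16 0) c)).r) := by
  rw [zero_add, g8b_Tf]
  by_cases hk : k.val < 33
  · have z1 : (bs k.val).1 = 0 := by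
      funext m
      simp only [bs, un, Pi.zero_apply]
      rw [if_neg (by omega)]
    have z2 : (Z4.of fun c => gaE k.val (Nat.add (Nat.mul 16 0) c)).r = 0 :=
      g8b_of_zero fun c => by
        rw [gaE, g8b_beq (by simp only [Nat.add_eq]; omega), cond_false]
    rw [z2, g8b_xi hk, z1, map_zero, Bq_bs hk, zero_mul, mul_zero, sub_zero, zero_add, zero_mul,
      mul_zero, sub_zero, smul_zero, add_zero, Pi.smul_apply]
    exact g8b_a _ _
  · obtain ⟨m, hm⟩ : ∃ m : Fin 15, k.val = 33 + m.val :=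
      ⟨⟨k.val - 33, by omega⟩, by simp only; omega⟩
    have z2 : (Z4.of fun c => xi33 k.val (Nat.add (Nat.mul 16 i.val) c)).r = 0 :=
      g8b_of_zero fun c => g8b_xi0 hk _
    have z3 : (Z4.of fun c => gaE k.val (Nat.add (Nat.mul 16 0) c)).r =
        iota (Pi.single m 1) := by
      rw [iota_single, hm]
      simp only [Nat.add_eq, Nat.mul_eq, mul_zero, zero_add]
    have z4 : Bq (bs k.val).2 = 0 := by
      exact g8b_z _ (by rw [hm, bs_gauge])
    have z5 : (bs k.val).1 = Pi.single m 1 := by rw [hm, bs_gauge]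
    rw [z2, z3, z4, z5, mul_zero, smul_zero, zero_add, Pi.zero_apply, add_zero]
    exact g8b_b _ _

theorem g8b_rep (i : Fin 3) : RepP w2 (colT i.val)
    fun k : Fin 48 => ((2 : ℝ) ^ 1050 • Tf Bq g8b_rm (bs k.val)) i := by
  unfold colT
  rw [Z4.add_def, Z4.sub_def]
  exact ((((RepP.pz w2 xi33 48 0 i.val).mulL (xm i.val)).sl 13).add
    ((((RepP.pz w2 gaE 48 0 0).mulR (xm i.val)).sub
      ((RepP.pz w2 gaE 48 0 0).mulL (xm i.val))).sl 490)).congr fun k => g8b_col k i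

theorem g8b_mid : ‖rt - g8b_rm‖ ≤ 4 / 2 ^ 560 :=
  (pi_norm_le_iff_of_nonneg (by positivity)).2 fun i => rt_mid i

theorem g8b_bs (k : ℕ) : ‖bs k‖ ≤ 2 := by
  have := norm_le_of_coL (u := bs k) (c := 1) fun r hr => by
    rw [coL_bs hr]
    split_ifs <;> simp
  linarith

set_option exponentiation.threshold 2000 in
theorem g8b_norm (hb : chkBase = true) (k : ℕ) : ‖Tf Bq g8b_rm (bs k)‖ ≤ 10 ^ 6 := by
  have h1 : ‖rt‖ ≤ 39 / 10 := (pi_norm_le_iff_of_nonneg (by positivity)).2 fun i =>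
    (base_norm hb).1 i.val (by omega)
  have h2 : (4 : ℝ) / 2 ^ 560 ≤ 1 / 10 := by
    rw [div_le_div_iff₀ (by positivity) (by positivity)]; norm_num
  have h3 : ‖g8b_rm‖ ≤ 4 := by
    have := norm_sub_norm_le g8b_rm rt
    rw [norm_sub_rev] at this
    linarith [g8b_mid]
  have h4 := norm_Tf_sub Bq g8b_rm 0 (bs k)
  have h5 : Tf Bq 0 (bs k) = Bq (bs k).2 := by
    funext i
    simp [Tf]
  have h6 := norm_Bq_le (norm_dir hb) (bs k).2
  have h7 : ‖(bs k).2‖ ≤ 2 := (norm_snd_le _).trans (g8b_bs k)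
  rw [h5, sub_zero] at h4
  have h8 := norm_sub_norm_le (Tf Bq g8b_rm (bs k)) (Bq (bs k).2)
  have h9 : 8 * ‖g8b_rm‖ * ‖bs k‖ ≤ 8 * 4 * 2 := by
    have := g8b_bs k
    gcongr
  linarith

theorem g8b_lt (a b c : ℕ) {x : ℝ} (h : |x| < 2 ^ c) :
    |2 ^ a * (2 ^ b * x)| < 2 ^ (a + b + c) := by
  rw [← mul_assoc, ← pow_add, abs_mul, abs_of_pos (by positivity), pow_add _ _ c]
  exact mul_lt_mul_of_pos_left h (by positivity)

theorem g8b_le (a b c d : ℕ) (e : a + b = c + d) {x : ℝ} {k r : ℕ}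
    (h : |2 ^ a * (2 ^ b * x) - ((bif Nat.beq k r then 2 ^ (a + b) else 0 : ℤ) : ℝ)| ≤
      ((2 ^ c : ℕ) : ℝ)) : |x - if r = k then 1 else 0| ≤ 1 / 2 ^ d := by
  have e1 : ((bif Nat.beq k r then 2 ^ (a + b) else 0 : ℤ) : ℝ) =
      2 ^ (a + b) * if r = k then 1 else 0 := by
    by_cases hrk : r = k
    · rw [if_pos hrk, hrk, Nat.beq_refl, mul_one, cond_true, Int.cast_pow, Int.cast_ofNat]
    · rw [if_neg hrk, g8b_beq (Ne.symm hrk), cond_false, mul_zero, Int.cast_zero]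
  rw [e1, ← mul_assoc, ← pow_add, ← mul_sub, abs_mul, abs_of_pos (by positivity), e, pow_add,
    Nat.cast_pow, Nat.cast_ofNat, mul_assoc] at h
  rw [le_div_iff₀ (by positivity), mul_comm]
  exact le_of_mul_le_mul_left (h.trans_eq (mul_one _).symm) (by positivity)

theorem g8b_entry (hb : chkBase = true) (h : chkInv = true) {r k : ℕ} (hr : r < 48) (hk : k < 48) :
    |rowL r (Tf Bq g8b_rm (bs k)) - if r = k then 1 else 0| ≤ 1 / 2 ^ 180 := by
  obtain ⟨h1, h2, -⟩ := g8b_split h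
  have rep := RepP.rowD (Y := fun k : Fin 48 => (2 : ℝ) ^ 1050 • Tf Bq g8b_rm (bs k.val)) r
    (g8b_rep 0) (g8b_rep 1) (g8b_rep 2)
  have key := rep.dchk (by decide) (fun k => ?_) (h1 r hr) ⟨k, hk⟩
  · rewrite [map_smul, smul_eq_mul] at key
    exact g8b_le 200 1050 1070 180 rfl key
  · have a1 := h2 r hr (Tf Bq g8b_rm (bs k.val))
    have a2 := g8b_norm hb k.val
    rewrite [map_smul, smul_eq_mul]
    refine g8b_lt 200 1050 149 ?_
    have : (6 : ℝ) * 10 ^ 18 * 10 ^ 6 < 2 ^ 149 := by norm_num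
    linarith

theorem g8b_48 (R : V3 →L[ℝ] U48) (B : Cn 9 × T 15 →L[ℝ] V3) (ρ : V3) {c : ℝ}
    (h : ∀ k, k < 48 → ‖R (Tf B ρ (bs k)) - bs k‖ ≤ c) (u : U48) :
    ‖R (Tf B ρ u) - u‖ ≤ 48 * c * ‖u‖ :=
  bound48 ((R.comp (TfL B ρ) - ContinuousLinearMap.id ℝ U48 : U48 →L[ℝ] U48) : U48 →ₗ[ℝ] U48) h u

set_option exponentiation.threshold 2000 in
/-- colT i packs 2 ^ 1050 times the columns of Tf Bq (sc 560 ∘ xm); use RepP.rowD, RepS.dchk,
norm_Tf_sub with rt_mid, norm_le_of_coL and bound48. -/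
theorem inv_sound (hb : chkBase = true) (h : chkInv = true) (u : U48) :
    ‖R0 (Tf Bq rt u) - u‖ ≤ 2 / 10 ^ 52 * ‖u‖ := by
  have h1 := g8b_48 R0 Bq g8b_rm (c := 2 * (1 / 2 ^ 180)) (fun k hk => ?_) u
  · have h2 := (row_sound h).1 (Tf Bq rt u - Tf Bq g8b_rm u)
    have h3 := norm_Tf_sub Bq rt g8b_rm u
    have h4 : 8 * ‖rt - g8b_rm‖ * ‖u‖ ≤ 8 * (4 / 2 ^ 560) * ‖u‖ := by
      have := g8b_mid
      gcongr
    have h5 : R0 (Tf Bq rt u) - u =
        R0 (Tf Bq rt u - Tf Bq g8b_rm u) + (R0 (Tf Bq g8b_rm u) - u) := by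
      rw [map_sub]; abel
    have h6 : (4 : ℝ) / 2 ^ 560 ≤ 1 / 10 ^ 167 := by
      rw [div_le_div_iff₀ (by positivity) (by positivity)]; norm_num
    have h7 : (1 : ℝ) / 2 ^ 180 ≤ 1 / 10 ^ 54 := by
      rw [div_le_div_iff₀ (by positivity) (by positivity)]; norm_num
    have n0 := norm_nonneg u
    have h8 := mul_le_mul_of_nonneg_right h6 n0
    have h9 := mul_le_mul_of_nonneg_right h7 n0
    rw [h5]
    refine (norm_add_le _ _).trans ?_
    generalize (4 : ℝ) / 2 ^ 560 = a at *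
    generalize (1 : ℝ) / 2 ^ 180 = b at *
    linarith
  · refine norm_le_of_coL fun r hr => ?_
    rw [map_sub, coL_R0 hr, coL_bs hr]
    exact g8b_entry hb h hr hk

end Pool.Agent.MP_28624d_gt.K

end

section

/-!
The Casimir block.
-/

set_option maxSynthPendingDepth 3

namespace Pool.Agent.MP_28624d_gt.K

/-- The conclusion of dk_aux for a number p and a family f. -/
def g9_C {N : ℕ} (p : ℤ) (f : Fin N → ℝ) : Prop :=
  ∃ z : Fin N → ℝ, RepS w3 p z ∧ ∀ k, |z k| ≤ 10 ^ 8 * 2 ^ 5530 ∧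
    |f k - z k / 2 ^ 5530| ≤ 1 / 10 ^ 153

theorem g9_tr {N n : ℕ} {c e : ℝ} {X : Fin N → A4} {a : Z4} (h : AP w3 490 560 e n c X a)
    (cz : ℤ) (cr : ℝ) (l : ℕ) (hc : (cz : ℝ) = cr) (h0 : 0 ≤ cr) (hl : 5530 = l + (560 * n + 490))
    (hb : cr * (4 * (c * 5 ^ n)) ≤ 10 ^ 8) (he : cr * (4 * (c * n * 5 ^ n * e)) ≤ 1 / 10 ^ 153) :
    g9_C (Int.shiftLeft (Int.mul cz a.tr) l) fun k => cr * (X k).trace := by
  obtain ⟨y, hy, hk⟩ := h.trace
  refine ⟨_, (hy.mul cz).shl l, fun k => ?_⟩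
  obtain ⟨a1, a2⟩ := hk k
  rw [hc, hl, pow_add (2 : ℝ) l]
  have p1 : (0 : ℝ) < 2 ^ l := by positivity
  have p2 : (0 : ℝ) < 2 ^ (560 * n + 490) := by positivity
  generalize (2 : ℝ) ^ l = P at p1
  generalize (2 : ℝ) ^ (560 * n + 490) = Q at p2 a1 a2
  constructor
  · rw [abs_mul, abs_mul, abs_of_pos p1, abs_of_nonneg h0, mul_left_comm _ P Q]
    refine mul_le_mul_of_nonneg_left ((mul_le_mul_of_nonneg_left a1 h0).trans ?_) p1.le
    rw [← mul_assoc]
    exact mul_le_mul_of_nonneg_right hb p2.le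
  · have e1 : cr * (X k).trace - P * (cr * y k) / (P * Q) = cr * ((X k).trace - y k / Q) := by
      field_simp
    rw [e1, abs_mul, abs_of_nonneg h0]
    exact (mul_le_mul_of_nonneg_left a2 h0).trans he

theorem g9_tr1 {N n : ℕ} {c e : ℝ} {X : Fin N → A4} {a : Z4} (h : AP w3 490 560 e n c X a)
    (l : ℕ) (hl : 5530 = l + (560 * n + 490))
    (hb : 1 * (4 * (c * 5 ^ n)) ≤ 10 ^ 8) (he : 1 * (4 * (c * n * 5 ^ n * e)) ≤ 1 / 10 ^ 153) :
    g9_C (Int.shiftLeft a.tr l) fun k => (X k).trace := by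
  have := g9_tr h 1 1 l Int.cast_one zero_le_one hl hb he
  have e : Int.mul 1 a.tr = a.tr := Int.one_mul _
  simpa only [e, one_mul] using this

theorem g9_tr0 {N n : ℕ} {c e : ℝ} {X : Fin N → A4} {a : Z4} (h : AP w3 490 560 e n c X a)
    (cz : ℤ) (cr : ℝ) (hc : (cz : ℝ) = cr) (h0 : 0 ≤ cr) (hl : 5530 = 0 + (560 * n + 490))
    (hb : cr * (4 * (c * 5 ^ n)) ≤ 10 ^ 8) (he : cr * (4 * (c * n * 5 ^ n * e)) ≤ 1 / 10 ^ 153) :
    g9_C (Int.mul cz a.tr) fun k => cr * (X k).trace := by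
  have := g9_tr h cz cr 0 hc h0 hl hb he
  have e : ∀ p : ℤ, Int.shiftLeft p 0 = p := fun p => Int.shiftLeft_zero p
  rwa [e] at this

/-- The four traces for one generator. -/
theorem g9_one {N : ℕ} {X : A4} {a u : Z4} {V : Fin N → A4} (hx : A0 560 (12 / 10 ^ 165) 1 1 X a)
    (hv : AP w3 490 560 (12 / 10 ^ 165) 1 1 V u) :
    g9_C (Int.shiftLeft u.tr 4480) (fun k => (V k).trace) ∧
    g9_C (Int.shiftLeft (Int.mul 2 (a.mul u).tr) 3920) (fun k => 2 * (X * V k).trace) ∧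
    g9_C (Int.shiftLeft (Int.mul 3 ((a.mul a).mul u).tr) 3360)
      (fun k => 3 * (X * X * V k).trace) ∧
    g9_C (Int.shiftLeft (Int.mul 4 (((a.mul a).mul a).mul u).tr) 2800)
      (fun k => 4 * (X * X * X * V k).trace) := by
  have he : (0 : ℝ) ≤ 12 / 10 ^ 165 := by positivity
  exact ⟨g9_tr1 hv 4480 rfl (by norm_num) (by norm_num),
    g9_tr (AP.mulL he hx hv) 2 2 3920 (by norm_num) (by norm_num) rfl (by norm_num) (by norm_num),
    g9_tr (AP.mulL he (hx.mul he hx) hv) 3 3 3360 (by norm_num) (by norm_num) rfl (by norm_num)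
      (by norm_num),
    g9_tr (AP.mulL he ((hx.mul he hx).mul he hx) hv) 4 4 2800 (by norm_num) (by norm_num) rfl
      (by norm_num) (by norm_num)⟩

/-- The three traces for the product. -/
theorem g9_prd {N : ℕ} {c : ℝ} {X : A4} {a u : Z4} {V : Fin N → A4} (hc : c = 3)
    (hx : A0 560 (12 / 10 ^ 165) (1 + 1 + 1) (1 * 1 * 1) X a)
    (hv : AP w3 490 560 (12 / 10 ^ 165) (1 + 1 + 1) c V u) :
    g9_C (Int.shiftLeft u.tr 3360) (fun k => (V k).trace) ∧
    g9_C (Int.shiftLeft (Int.mul 2 (a.mul u).tr) 1680) (fun k => 2 * (X * V k).trace) ∧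
    g9_C (Int.mul 3 ((a.mul a).mul u).tr) (fun k => 3 * (X * X * V k).trace) := by
  have he : (0 : ℝ) ≤ 12 / 10 ^ 165 := by positivity
  subst hc
  exact ⟨g9_tr1 hv 3360 rfl (by norm_num) (by norm_num),
    g9_tr (AP.mulL he hx hv) 2 2 1680 (by norm_num) (by norm_num) rfl (by norm_num) (by norm_num),
    g9_tr0 (AP.mulL he (hx.mul he hx) hv) 3 3 (by norm_num) (by norm_num) rfl (by norm_num)
      (by norm_num)⟩

theorem g9_gen {N : ℕ} {x v : ℕ → Z4} {ρ : V3} {V : Fin N → V3}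
    (hx : ∀ i : Fin 3, A0 560 (12 / 10 ^ 165) 1 1 (ρ i) (x i.val))
    (hv : ∀ i : Fin 3, AP w3 490 560 (12 / 10 ^ 165) 1 1 (fun k => V k i) (v i.val)) (m : Fin 15) :
    g9_C (dkZ x v m.val) fun k => dkap ρ (V k) m := by
  have he : (0 : ℝ) ≤ 12 / 10 ^ 165 := by positivity
  obtain ⟨a0, a1, a2, a3⟩ := g9_one (hx 0) (hv 0)
  obtain ⟨b0, b1, b2, b3⟩ := g9_one (hx 1) (hv 1)
  obtain ⟨c0, c1, c2, c3⟩ := g9_one (hx 2) (hv 2)
  obtain ⟨d0, d1, d2⟩ := g9_prd (by norm_num) (((hx 0).mul he (hx 1)).mul he (hx 2))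
    ((AP.mulR he ((AP.mulR he (hv 0) (hx 1)).add (AP.mulL he (hx 0) (hv 1))) (hx 2)).add
      (AP.mulL he ((hx 0).mul he (hx 1)) (hv 2)))
  fin_cases m
  exacts [a0, a1, a2, a3, b0, b1, b2, b3, c0, c1, c2, c3, d0, d1, d2]

theorem g9_dir (hb : chkBase = true) (n k0 : ℕ) (i : Fin 3) :
    AP w3 490 560 (12 / 10 ^ 165) 1 1 (fun k : Fin n => dir (k0 + k.val) i) (dirP w3 n k0 i.val) := by
  refine ⟨_, (RepP.pz w3 xiE n k0 i.val).mulL (xm i.val), fun k => ?_⟩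
  have e : ((2 : ℝ) ^ (560 * 1 + 490))⁻¹ • ((xm i.val).r * (xiM (k0 + k.val) i.val).r) =
      dir (k0 + k.val) i := by
    rw [← r_mul]
    exact sc_mul 560 490 _ _
  have n1 : ‖dir (k0 + k.val) i‖ ≤ 1 * 5 ^ 1 :=
    (norm_le_pi_norm _ i).trans ((norm_dir hb _).trans (by norm_num))
  refine ⟨n1, (congrArg norm e).trans_le n1, ?_⟩
  refine (congrArg (fun z => ‖dir (k0 + k.val) i - z‖) e).trans_le ?_
  rw [sub_self, norm_zero]
  positivity

/-- For each m (interval_cases or fin_cases) build the AP statement with e = d / 5 from Lt.ax and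
the exact letter dirP (AP of degree one, c = 1), then AP.trace, RepS.mul, RepS.shl. -/
theorem dk_aux {n k0 : ℕ} {ρ y : V3} {g s : A4} (hb : chkBase = true)
    (h : Lt 560 (6 / 10 ^ 164) xm ρ y g s) (m : Fin 15) :
    ∃ z : Fin n → ℝ, RepS w3 (dkZ xm (dirP w3 n k0) m.val) z ∧ ∀ k, |z k| ≤ 10 ^ 8 * 2 ^ 5530 ∧
      |dkap ρ (dir (k0 + k.val)) m - z k / 2 ^ 5530| ≤ 1 / 10 ^ 153 :=
  g9_gen (V := fun k : Fin n => dir (k0 + k.val)) (h.ax (by norm_num)) (g9_dir hb n k0) m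

theorem g9_split (h : chkCas = true) :
    (∀ m, m < 15 → dchk w3 18 (fun _ => 0) (2 ^ (5530 - 475)) (dkZ xm (dirP w3 18 0) m) = true) ∧
    (∀ r, r < 15 → dchk w3 15 (fun k => bif Nat.beq k r then 2 ^ 5557 else 0) (2 ^ 5550)
      (sumn (fun m => Int.mul (lE r m) (dkZ xm (dirP w3 15 18) m)) 15) = true) ∧
    ∀ r, r < 15 → sumn (fun j => ((lE r j).natAbs : ℤ)) 15 ≤ 10 ^ 17 * 2 ^ 40 := by
  obtain ⟨h, h3⟩ := Bool.and_eq_true_iff.1 h
  obtain ⟨h1, h2⟩ := Bool.and_eq_true_iff.1 h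
  exact ⟨fun _ hm => alln_sound h1 hm, fun _ hm => alln_sound h2 hm,
    fun _ hm => of_decide_eq_true (alln_sound h3 hm)⟩

theorem g9_row (h : chkCas = true) (r : Fin 15) {t : Fin 15 → ℝ} {c : ℝ} (ht : ∀ m, |t m| ≤ c) :
    |∑ m : Fin 15, (lE r.val m.val : ℝ) * t m| ≤ 10 ^ 17 * 2 ^ 40 * c := by
  have a := (g9_split h).2.2 r.val r.isLt
  rw [sumn_eq, Finset.sum_range] at a
  have b : ∑ m : Fin 15, |(lE r.val m.val : ℝ)| ≤ 10 ^ 17 * 2 ^ 40 := by
    have := (Int.cast_le (R := ℝ)).2 a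
    simpa only [Int.cast_sum, Int.natCast_natAbs, Int.cast_abs, Int.cast_mul, Int.cast_pow,
      Int.cast_ofNat] using this
  have c0 : 0 ≤ c := (abs_nonneg _).trans (ht 0)
  refine (Finset.abs_sum_le_sum_abs _ _).trans (le_trans ?_ (mul_le_mul_of_nonneg_right b c0))
  rw [Finset.sum_mul]
  refine Finset.sum_le_sum fun m _ => ?_
  rw [abs_mul]
  exact mul_le_mul_of_nonneg_left (ht m) (abs_nonneg _)

theorem L0_bound (h : chkCas = true) (t : T 15) : ‖L0 t‖ ≤ 10 ^ 17 * ‖t‖ := by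
  refine (pi_norm_le_iff_of_nonneg (by positivity)).2 fun r => ?_
  rw [L0_apply, Real.norm_eq_abs, abs_div, abs_of_pos (by positivity : (0 : ℝ) < 2 ^ 40),
    div_le_iff₀ (by positivity), mul_right_comm]
  exact g9_row h r fun m => norm_le_pi_norm t m

theorem g9_lt {a c : ℝ} (h : a ≤ c * 2 ^ 5530) (hc : c < 2 ^ 169) : a < 2 ^ (w3 - 1) := by
  rw [show w3 - 1 = 169 + 5530 from rfl, pow_add]
  exact h.trans_lt (mul_lt_mul_of_pos_right hc (by positivity))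

theorem g9_rt (hb : chkBase = true) : ∃ y s, Lt 560 (6 / 10 ^ 164) xm rt y gt s := by
  obtain ⟨y, s, h, -⟩ := base_lt hb (ρ := rt) (g := gt)
    (by rw [sub_self, norm_zero]; positivity) (by rw [sub_self, norm_zero]; positivity)
  exact ⟨y, s, h⟩

theorem g9_kap (ρ : V3) (k : ℕ) (m : Fin 15) :
    fderiv ℝ kap ρ ((8192 : ℝ) • dir k) m = 8192 * dkap ρ (dir k) m := by
  rw [map_smul, fderiv_kap, Pi.smul_apply, smul_eq_mul]

theorem g9_num {S Z δ P : ℝ} (hP : 0 < P) (h1 : |S - Z / P| ≤ 10 ^ 17 * 2 ^ 40 * 1 / 10 ^ 153)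
    (h2 : |Z - δ * (2 ^ 27 * P)| ≤ 2 ^ 20 * P) : |8192 * S / 2 ^ 40 - δ| ≤ 1 / 30 := by
  have e : 8192 * S / 2 ^ 40 - δ = (S - Z / P) / 2 ^ 27 + (Z - δ * (2 ^ 27 * P)) / P / 2 ^ 27 := by
    field_simp
    ring
  have h3 : |(Z - δ * (2 ^ 27 * P)) / P| ≤ 2 ^ 20 := by
    rwa [abs_div, abs_of_pos hP, div_le_iff₀ hP]
  have h4 : (10 : ℝ) ^ 17 * 2 ^ 40 * 1 / 10 ^ 153 ≤ 1 := by norm_num
  rw [e]
  generalize (Z - δ * (2 ^ 27 * P)) / P = W at h3
  have a := abs_le.1 (h1.trans h4)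
  have b := abs_le.1 h3
  rw [abs_le]
  constructor <;> linarith [a.1, a.2, b.1, b.2]

theorem g9_col (hb : chkBase = true) (h : chkCas = true) (k r : Fin 15) :
    |L0 (fderiv ℝ kap rt ((8192 : ℝ) • dir (18 + k.val))) r - (if k = r then 1 else 0)| ≤ 1 / 30 := by
  obtain ⟨y, s, hl⟩ := g9_rt hb
  choose z hz hk using fun m => dk_aux (n := 15) (k0 := 18) hb hl m
  have a := (g9_split h).2.1 r.val r.isLt
  rw [sumn_eq, Finset.sum_range] at a
  have b := (RepS.sum Finset.univ fun m _ => (hz m).mul (lE r.val m.val)).dchk (by norm_num [w3])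
    (fun k => g9_lt ((g9_row h r fun m => (hk m k).1).trans_eq (mul_assoc _ _ _).symm)
      (by norm_num)) a k
  have e1 : (((bif Nat.beq k.val r.val then 2 ^ 5557 else 0 : ℤ)) : ℝ) =
      (if k = r then 1 else 0) * (2 ^ 27 * 2 ^ 5530) := by
    by_cases e : k = r
    · rw [if_pos e, e, Nat.beq_refl, cond_true, one_mul, ← pow_add, Int.cast_pow, Int.cast_ofNat]
    · have e' : Nat.beq k.val r.val = false := by
        rw [← Bool.not_eq_true, Nat.beq_eq]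
        exact fun e' => e (Fin.ext e')
      rw [if_neg e, e', cond_false, zero_mul, Int.cast_zero]
  have e2 : ((2 ^ 5550 : ℕ) : ℝ) = 2 ^ 20 * 2 ^ 5530 := by
    rw [← pow_add, Nat.cast_pow, Nat.cast_ofNat]
  have c := g9_row h r fun m => (hk m k).2
  simp only [mul_sub, Finset.sum_sub_distrib, ← mul_div_assoc, ← Finset.sum_div] at c
  simp only [L0_apply, g9_kap, mul_left_comm _ (8192 : ℝ), ← Finset.mul_sum]
  exact g9_num (by positivity) c ((congrArg (fun w => |_ - w|) e1).symm.trans_le (b.trans_eq e2))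

theorem g9_b15 (L : T 15 →L[ℝ] T 15) (D : V3 →L[ℝ] T 15) (B : Cn 9 × T 15 →L[ℝ] V3) {c : ℝ}
    (h : ∀ m : Fin 15, ‖L (D (B (0, Pi.single m 1))) - Pi.single m 1‖ ≤ c) (t : T 15) :
    ‖L (D (B (0, t))) - t‖ ≤ 15 * c * ‖t‖ :=
  bound15 (L.toLinearMap ∘ₗ D.toLinearMap ∘ₗ B.toLinearMap ∘ₗ LinearMap.inr ℝ (Cn 9) (T 15) -
    LinearMap.id) h t

theorem cas_inv (hb : chkBase = true) (h : chkCas = true) (t : T 15) :
    ‖L0 (fderiv ℝ kap rt (Bq (0, t))) - t‖ ≤ 1 / 2 * ‖t‖ := by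
  refine (g9_b15 L0 (fderiv ℝ kap rt) Bq (c := 1 / 30) (fun m => ?_) t).trans_eq (by norm_num)
  rw [Bq_cas]
  refine (pi_norm_le_iff_of_nonneg (by norm_num)).2 fun r => ?_
  rw [Pi.sub_apply, Pi.single_apply, Real.norm_eq_abs, if_congr eq_comm rfl rfl]
  exact g9_col hb h m r

theorem g9_leaf (hb : chkBase = true) (h : chkCas = true) {ρ y : V3} {g s : A4}
    (hl : Lt 560 (6 / 10 ^ 164) xm ρ y g s) (k : Fin 18) (m : Fin 15) :
    |8192 * dkap ρ (dir k.val) m| ≤ 3 / 10 ^ 136 := by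
  obtain ⟨z, hz, hk⟩ := dk_aux (n := 18) (k0 := 0) hb hl m
  have a := hz.dchk (by norm_num [w3]) (fun k => g9_lt (hk k).1 (by norm_num))
    ((g9_split h).1 m.val m.isLt) k
  have b := (hk k).2
  rw [Nat.zero_add] at b
  rw [Int.cast_zero, sub_zero, Nat.cast_pow, Nat.cast_ofNat] at a
  have c : |z k / 2 ^ 5530| ≤ 1 / 2 ^ 475 := by
    rw [abs_div, abs_of_pos (by positivity : (0 : ℝ) < 2 ^ 5530),
      div_le_div_iff₀ (by positivity) (by positivity), one_mul,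
      show 5530 = 5530 - 475 + 475 from rfl, pow_add]
    exact mul_le_mul_of_nonneg_right a (by positivity)
  have d : (1 : ℝ) / 2 ^ 475 ≤ 1 / 10 ^ 142 := by
    rw [div_le_div_iff₀ (by positivity) (by positivity), show 475 = 250 + 225 from rfl, pow_add]
    norm_num
  have e := c.trans d
  generalize z k / 2 ^ 5530 = W at b e
  have f := (abs_add_le _ _).trans (add_le_add b e)
  rw [sub_add_cancel] at f
  rw [abs_mul, abs_of_pos (by norm_num : (0 : ℝ) < 8192)]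
  exact (mul_le_mul_of_nonneg_left f (by norm_num)).trans (by norm_num)

theorem g9_cas (hb : chkBase = true) {ρ y ρ' y' : V3} {g s g' s' : A4}
    (hl : Lt 560 (6 / 10 ^ 164) xm ρ y g s) (hl' : Lt 560 (6 / 10 ^ 164) xm ρ' y' g' s')
    (k m : Fin 15) :
    |8192 * dkap ρ (dir (18 + k.val)) m - 8192 * dkap ρ' (dir (18 + k.val)) m| ≤ 3 / 10 ^ 136 := by
  obtain ⟨z, hz, hk⟩ := dk_aux (n := 15) (k0 := 18) hb hl m
  obtain ⟨z', hz', hk'⟩ := dk_aux (n := 15) (k0 := 18) hb hl' m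
  have e : z' k = z k :=
    (hz'.digit (by norm_num [w3]) (fun k => g9_lt (hk' k).1 (by norm_num)) k).symm.trans
      (hz.digit (by norm_num [w3]) (fun k => g9_lt (hk k).1 (by norm_num)) k)
  have a := (hk k).2
  have b := (hk' k).2
  rw [e, abs_sub_comm] at b
  have f := (abs_add_le _ _).trans (add_le_add a b)
  rw [sub_add_sub_cancel] at f
  rw [← mul_sub, abs_mul, abs_of_pos (by norm_num : (0 : ℝ) < 8192)]
  exact (mul_le_mul_of_nonneg_left f (by norm_num)).trans (by norm_num)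

theorem g9_b33 (D D' : V3 →L[ℝ] T 15) (B : Cn 9 × T 15 →L[ℝ] V3) {c : ℝ}
    (h : ∀ k, k < 33 → ‖D (B (bs k).2) - D' (B (0, (bs k).2.2))‖ ≤ c) (y : Cn 9 × T 15) :
    ‖D (B y) - D' (B (0, y.2))‖ ≤ 33 * c * ‖y‖ :=
  bound33 (D.toLinearMap ∘ₗ B.toLinearMap - D'.toLinearMap ∘ₗ B.toLinearMap ∘ₗ
    LinearMap.inr ℝ (Cn 9) (T 15) ∘ₗ LinearMap.snd ℝ (Cn 9) (T 15)) h y

/-- On leaf directions dkap ρ is small by the first check. On Casimir directions compare both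
dkap ρ and dkap rt with the digits of the same packed number (RepS.digit). -/
theorem cas_sound (hb : chkBase = true) (h : chkCas = true) {ρ : V3}
    (hρ : ‖ρ - rt‖ ≤ 1 / 10 ^ 165) (y : Cn 9 × T 15) :
    ‖fderiv ℝ kap ρ (Bq y) - fderiv ℝ kap rt (Bq (0, y.2))‖ ≤ 1 / 10 ^ 134 * ‖y‖ := by
  obtain ⟨y1, s1, hl, -⟩ := base_lt hb hρ (g := gt) (by rw [sub_self, norm_zero]; positivity)
  obtain ⟨y2, s2, hl'⟩ := g9_rt hb
  refine (g9_b33 (fderiv ℝ kap ρ) (fderiv ℝ kap rt) Bq (c := 3 / 10 ^ 136) (fun k hk => ?_) y).trans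
    (mul_le_mul_of_nonneg_right (by norm_num) (norm_nonneg _))
  refine (pi_norm_le_iff_of_nonneg (by positivity)).2 fun m => ?_
  rw [Bq_bs hk, Pi.sub_apply, g9_kap, Real.norm_eq_abs]
  by_cases h18 : k < 18
  · have e : ((0 : Cn 9), (bs k).2.2) = 0 := by
      refine Prod.ext rfl (funext fun j => ?_)
      exact if_neg (by omega)
    rw [e, map_zero, map_zero, Pi.zero_apply, sub_zero]
    exact g9_leaf hb h hl ⟨k, h18⟩ m
  · obtain ⟨j, rfl⟩ : ∃ j : Fin 15, k = 18 + j.val := ⟨⟨k - 18, by omega⟩, by simp only; omega⟩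
    rw [bs_cas, Bq_cas, g9_kap]
    exact g9_cas hb hl hl' j m

end Pool.Agent.MP_28624d_gt.K

end
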