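import Pool.Agent.MP_28624d_gt.Mg.K_GB

section

/-!
Kernel computations.
-/

set_option maxSynthPendingDepth 3

namespace Pool.Agent.MP_28624d_gt.K

theorem chkBase_true : chkBase = true := by decide +kernel

theorem chkLin_true1 : chkLin 18 0 = true := by decide +kernel

theorem chkLin_true2 : chkLin 15 18 = true := by decide +kernel

theorem chkInv_true : chkInv = true := by decide +kernel

theorem chkCas_true : chkCas = true := by decide +kernel

theorem chkLam_true : chkLam = true := by decide +kernel

theorem chkKry_true : chkKry = true := by decide +kernel

theorem chkKrein_true : chkKrein = true := by decide +kernel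

theorem chkNear_true : chkNear = true := by decide +kernel

end Pool.Agent.MP_28624d_gt.K

end

section

/-!
Kernel computations for the frequency matrix.
-/

set_option maxSynthPendingDepth 3

namespace Pool.Agent.MP_28624d_gt.K

theorem chkFrq_true0 : chkFrq 0 = true := by decide +kernel

theorem chkFrq_true1 : chkFrq 1 = true := by decide +kernel

theorem chkFrq_true2 : chkFrq 2 = true := by decide +kernel

theorem chkFrq_true3 : chkFrq 3 = true := by decide +kernel

theorem chkFrq_true4 : chkFrq 4 = true := by decide +kernel

theorem chkFrq_true5 : chkFrq 5 = true := by decide +kernel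

theorem chkFrq_true6 : chkFrq 6 = true := by decide +kernel

theorem chkFrq_true7 : chkFrq 7 = true := by decide +kernel

theorem chkFrq_true8 : chkFrq 8 = true := by decide +kernel

theorem chkFrq_true (k : Fin 9) : chkFrq k.val = true := by
  fin_cases k
  exacts [chkFrq_true0, chkFrq_true1, chkFrq_true2, chkFrq_true3, chkFrq_true4, chkFrq_true5,
    chkFrq_true6, chkFrq_true7, chkFrq_true8]

end Pool.Agent.MP_28624d_gt.K

end
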