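import Pool.Agent.MP_28624d_gt.Mg.K_KF

section

/-!
Basic closure properties of the class Bd.
-/

set_option maxSynthPendingDepth 3

namespace Pool.Agent.MP_28624d_gt.K

open Real Filter Topology

variable {N : ℕ} {Λ : Type} [PseudoMetricSpace Λ] {E F : Type} [NormedAddCommGroup E]
  [NormedSpace ℝ E] [NormedAddCommGroup F] [NormedSpace ℝ F] {ρ ρ' M M' : ℝ}
  {g h : Λ → T N → E}

theorem kn_nonneg (k : Fin N → ℤ) : 0 ≤ kn k :=
  Finset.sum_nonneg fun _ _ => abs_nonneg _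

theorem one_le_kn {k : Fin N → ℤ} (hk : k ≠ 0) : 1 ≤ kn k := by
  obtain ⟨j, hj⟩ := Function.ne_iff.1 hk
  have h1 : (1 : ℝ) ≤ |(k j : ℝ)| := by
    have := Int.one_le_abs hj
    exact_mod_cast this
  exact h1.trans (Finset.single_le_sum (f := fun j => |(k j : ℝ)|) (fun _ _ => abs_nonneg _)
    (Finset.mem_univ j))

theorem kn_add_le (k l : Fin N → ℤ) : kn (k + l) ≤ kn k + kn l := by
  unfold kn
  rw [← Finset.sum_add_distrib]
  refine Finset.sum_le_sum fun j _ => ?_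
  rw [Pi.add_apply, Int.cast_add]
  exact abs_add_le _ _

theorem kn_sub_le (k l : Fin N → ℤ) : kn (k - l) ≤ kn k + kn l := by
  unfold kn
  rw [← Finset.sum_add_distrib]
  refine Finset.sum_le_sum fun j _ => ?_
  rw [Pi.sub_apply, Int.cast_sub]
  exact abs_sub _ _

theorem abs_dot_le (k : Fin N → ℤ) (θ : T N) : |dot k θ| ≤ kn k * ‖θ‖ := by
  unfold dot kn
  rw [Finset.sum_mul]
  refine (Finset.abs_sum_le_sum_abs _ _).trans (Finset.sum_le_sum fun j _ => ?_)
  rw [abs_mul]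
  exact mul_le_mul_of_nonneg_left (by simpa using norm_le_pi_norm θ j) (abs_nonneg _)

theorem dot_add_right (k : Fin N → ℤ) (θ η : T N) : dot k (θ + η) = dot k θ + dot k η := by
  simp only [dot, Pi.add_apply, mul_add, Finset.sum_add_distrib]

theorem dot_sub_right (k : Fin N → ℤ) (θ η : T N) : dot k (θ - η) = dot k θ - dot k η := by
  simp only [dot, Pi.sub_apply, mul_sub, Finset.sum_sub_distrib]

theorem dot_add_left (k l : Fin N → ℤ) (θ : T N) : dot (k + l) θ = dot k θ + dot l θ := by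
  simp only [dot, Pi.add_apply, Int.cast_add, add_mul, Finset.sum_add_distrib]

theorem dot_sub_left (k l : Fin N → ℤ) (θ : T N) : dot (k - l) θ = dot k θ - dot l θ := by
  simp only [dot, Pi.sub_apply, Int.cast_sub, sub_mul, Finset.sum_sub_distrib]

theorem dot_zero_left (θ : T N) : dot (0 : Fin N → ℤ) θ = 0 := by
  simp [dot]

theorem a1_kn_zero : kn (0 : Fin N → ℤ) = 0 := by
  simp [kn]

theorem a1_kn_single (j : Fin N) : kn (Pi.single j 1 : Fin N → ℤ) = 1 := by
  unfold kn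
  rw [Finset.sum_eq_single j]
  · simp
  · intro b _ hb
    simp [Pi.single_eq_of_ne hb]
  · intro h
    exact absurd (Finset.mem_univ j) h

theorem a1_dot_single (j : Fin N) (θ : T N) : dot (Pi.single j 1 : Fin N → ℤ) θ = θ j := by
  unfold dot
  rw [Finset.sum_eq_single j]
  · simp
  · intro b _ hb
    simp [Pi.single_eq_of_ne hb]
  · intro h
    exact absurd (Finset.mem_univ j) h

theorem a1_norm_cos_smul (x : ℝ) (v : E) : ‖cos x • v‖ ≤ ‖v‖ := by
  rw [norm_smul, Real.norm_eq_abs]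
  exact mul_le_of_le_one_left (norm_nonneg _) (abs_cos_le_one x)

theorem a1_le_exp_div {ρ : ℝ} (hρ : 0 < ρ) (w : ℝ) : w ≤ exp (ρ * w) / ρ := by
  rw [le_div_iff₀ hρ]
  have := add_one_le_exp (ρ * w)
  linarith

/-- A family with a single atom. -/
theorem a1_atom (ρ : ℝ) (k : Fin N → ℤ) (φ w m : ℝ) (v : Λ → E) (hk : kn k ≤ w) (hm : 0 ≤ m)
    (h1 : ∀ p, ‖v p‖ ≤ m) (h2 : ∀ p q, ‖v p - v q‖ ≤ w * m * dist p q) :
    Bd ρ (fun p (θ : T N) => cos (dot k θ + φ) • v p) (m * exp (ρ * w)) := by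
  refine ⟨Unit, fun _ => k, fun _ => φ, fun _ => w, fun _ => m, fun _ => v, fun _ => hk,
    fun _ => hm, fun _ => h1, fun _ => h2, (hasSum_unique _).summable, ?_, fun p θ => ?_⟩
  · exact (hasSum_unique (fun _ : Unit => m * exp (ρ * w))).tsum_eq.le
  · exact hasSum_unique (fun _ : Unit => cos (dot k θ + φ) • v p)

theorem Bd.nonneg (hg : Bd ρ g M) : 0 ≤ M := by
  obtain ⟨I, k, φ, w, m, v, -, hm, -, -, -, hM, -⟩ := hg
  exact (tsum_nonneg fun i => mul_nonneg (hm i) (exp_pos _).le).trans hM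

theorem Bd.mono (hg : Bd ρ g M) (hρ : ρ' ≤ ρ) (hM : M ≤ M') : Bd ρ' g M' := by
  obtain ⟨I, k, φ, w, m, v, hk, hm, h1, h2, hs, hb, hg⟩ := hg
  have hle : ∀ i, m i * exp (ρ' * w i) ≤ m i * exp (ρ * w i) := fun i =>
    mul_le_mul_of_nonneg_left
      (exp_le_exp.2 (mul_le_mul_of_nonneg_right hρ ((kn_nonneg _).trans (hk i)))) (hm i)
  have hs' : Summable fun i => m i * exp (ρ' * w i) :=
    hs.of_nonneg_of_le (fun i => mul_nonneg (hm i) (exp_pos _).le) hle
  exact ⟨I, k, φ, w, m, v, hk, hm, h1, h2, hs', ((hs'.tsum_le_tsum hle hs).trans hb).trans hM, hg⟩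

theorem Bd.congr (hg : Bd ρ g M) (hh : ∀ p θ, h p θ = g p θ) : Bd ρ h M := by
  have : h = g := funext fun p => funext fun θ => hh p θ
  rw [this]
  exact hg

theorem Bd.norm_le (hg : Bd ρ g M) (hρ : 0 ≤ ρ) (p : Λ) (θ : T N) : ‖g p θ‖ ≤ M := by
  obtain ⟨I, k, φ, w, m, v, hk, hm, h1, h2, hs, hb, hg⟩ := hg
  refine ((hg p θ).norm_le_of_bounded hs.hasSum fun i => ?_).trans hb
  refine (a1_norm_cos_smul _ _).trans ((h1 i p).trans ?_)
  exact le_mul_of_one_le_right (hm i)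
    (one_le_exp (mul_nonneg hρ ((kn_nonneg _).trans (hk i))))

/-- Use w ≤ exp (ρ * w) / ρ. -/
theorem Bd.lip_par (hg : Bd ρ g M) (hρ : 0 < ρ) (p q : Λ) (θ : T N) :
    ‖g p θ - g q θ‖ ≤ M / ρ * dist p q := by
  obtain ⟨I, k, φ, w, m, v, hk, hm, h1, h2, hs, hb, hg⟩ := hg
  have hd : 0 ≤ dist p q / ρ := div_nonneg dist_nonneg hρ.le
  refine (((hg p θ).sub (hg q θ)).norm_le_of_bounded (hs.hasSum.mul_right (dist p q / ρ))
    fun i => ?_).trans ?_
  · rw [← smul_sub]
    refine (a1_norm_cos_smul _ _).trans ((h2 i p q).trans ?_)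
    calc w i * m i * dist p q ≤ exp (ρ * w i) / ρ * m i * dist p q :=
          mul_le_mul_of_nonneg_right
            (mul_le_mul_of_nonneg_right (a1_le_exp_div hρ _) (hm i)) dist_nonneg
      _ = m i * exp (ρ * w i) * (dist p q / ρ) := by ring
  · calc _ ≤ M * (dist p q / ρ) := mul_le_mul_of_nonneg_right hb hd
      _ = M / ρ * dist p q := by ring

theorem Bd.lip_ang (hg : Bd ρ g M) (hρ : 0 < ρ) (p : Λ) (θ η : T N) :
    ‖g p θ - g p η‖ ≤ M / ρ * ‖θ - η‖ := by
  obtain ⟨I, k, φ, w, m, v, hk, hm, h1, h2, hs, hb, hg⟩ := hg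
  have hd : 0 ≤ ‖θ - η‖ / ρ := div_nonneg (norm_nonneg _) hρ.le
  refine (((hg p θ).sub (hg p η)).norm_le_of_bounded (hs.hasSum.mul_right (‖θ - η‖ / ρ))
    fun i => ?_).trans ?_
  · rw [← sub_smul, norm_smul, Real.norm_eq_abs]
    have e1 : |cos (dot (k i) θ + φ i) - cos (dot (k i) η + φ i)| ≤ w i * ‖θ - η‖ := by
      refine (abs_cos_sub_cos_le _ _).trans ?_
      rw [add_sub_add_right_eq_sub, ← dot_sub_right]
      exact (abs_dot_le _ _).trans (mul_le_mul_of_nonneg_right (hk i) (norm_nonneg _))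
    have hw : 0 ≤ w i := (kn_nonneg _).trans (hk i)
    calc _ ≤ w i * ‖θ - η‖ * m i :=
          mul_le_mul e1 (h1 i p) (norm_nonneg _) (mul_nonneg hw (norm_nonneg _))
      _ ≤ exp (ρ * w i) / ρ * ‖θ - η‖ * m i :=
          mul_le_mul_of_nonneg_right
            (mul_le_mul_of_nonneg_right (a1_le_exp_div hρ _) (norm_nonneg _)) (hm i)
      _ = m i * exp (ρ * w i) * (‖θ - η‖ / ρ) := by ring
  · calc _ ≤ M * (‖θ - η‖ / ρ) := mul_le_mul_of_nonneg_right hb hd
      _ = M / ρ * ‖θ - η‖ := by ring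

theorem Bd.continuous (hg : Bd ρ g M) (hρ : 0 < ρ) (p : Λ) : Continuous (g p) := by
  have h0 : 0 ≤ M / ρ := div_nonneg hg.nonneg hρ.le
  refine (LipschitzWith.of_dist_le_mul (K := ⟨M / ρ, h0⟩) fun θ η => ?_).continuous
  rw [dist_eq_norm, dist_eq_norm]
  exact hg.lip_ang hρ p θ η

theorem Bd.per (hg : Bd ρ g M) (p : Λ) : Per (g p) := by
  obtain ⟨I, k, φ, w, m, v, hk, hm, h1, h2, hs, hb, hg⟩ := hg
  intro θ n
  refine (hg p _).unique ?_
  have e : ∀ i, cos (dot (k i) (θ + fun j => 2 * π * (n j : ℝ)) + φ i)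
      = cos (dot (k i) θ + φ i) := by
    intro i
    have e1 : dot (k i) (θ + fun j => 2 * π * (n j : ℝ)) + φ i
        = dot (k i) θ + φ i + ((∑ j, k i j * n j : ℤ) : ℝ) * (2 * π) := by
      rw [dot_add_right]
      have e2 : dot (k i) (fun j => 2 * π * (n j : ℝ))
          = ((∑ j, k i j * n j : ℤ) : ℝ) * (2 * π) := by
        unfold dot
        rw [Int.cast_sum, Finset.sum_mul]
        refine Finset.sum_congr rfl fun j _ => ?_
        rw [Int.cast_mul]
        ring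
      rw [e2]
      ring
    rw [e1, cos_add_int_mul_two_pi]
  simp only [e]
  exact hg p θ

/-- One atom with k = 0, w = 0. -/
theorem Bd.const (ρ : ℝ) (c : E) : Bd ρ (fun (_ : Λ) (_ : T N) => c) ‖c‖ := by
  have h := a1_atom (N := N) (Λ := Λ) ρ 0 0 0 ‖c‖ (fun _ => c) a1_kn_zero.le (norm_nonneg c)
    (fun _ => le_rfl) (fun _ _ => by simp)
  rw [mul_zero, exp_zero, mul_one] at h
  exact h.congr fun p θ => by simp [dot_zero_left]

theorem Bd.zero (ρ : ℝ) : Bd ρ (fun (_ : Λ) (_ : T N) => (0 : E)) 0 := by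
  have h := Bd.const (N := N) (Λ := Λ) ρ (0 : E)
  rwa [norm_zero] at h

/-- One atom with k = 0, w = 1. -/
theorem Bd.of_lip (ρ : ℝ) {c : Λ → E} {a : ℝ} (ha : 0 ≤ a) (h1 : ∀ p, ‖c p‖ ≤ a)
    (h2 : ∀ p q, ‖c p - c q‖ ≤ a * dist p q) :
    Bd ρ (fun p (_ : T N) => c p) (a * exp ρ) := by
  have h := a1_atom (N := N) ρ 0 0 1 a c (a1_kn_zero.le.trans zero_le_one) ha h1
    (fun p q => by rw [one_mul]; exact h2 p q)
  rw [mul_one] at h
  exact h.congr fun p θ => by simp [dot_zero_left]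

/-- A family of constants can be moved to any radius. -/
theorem Bd.reset {c : Λ → E} (hc : Bd ρ' (fun p (_ : T N) => c p) M) (h0 : 0 < ρ') (h1 : ρ' ≤ 1)
    (ρ : ℝ) : Bd ρ (fun p (_ : T N) => c p) (M / ρ' * exp ρ) := by
  refine Bd.of_lip ρ (div_nonneg hc.nonneg h0.le) (fun p => ?_) fun p q => hc.lip_par h0 p q 0
  refine (hc.norm_le h0.le p 0).trans ?_
  rw [le_div_iff₀ h0]
  exact mul_le_of_le_one_right hc.nonneg h1

theorem Bd.cos_atom (ρ : ℝ) (j : Fin N) (c : E) :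
    Bd ρ (fun (_ : Λ) (θ : T N) => cos (θ j) • c) (‖c‖ * exp ρ) := by
  have h := a1_atom (Λ := Λ) ρ (Pi.single j 1) 0 1 ‖c‖ (fun _ => c) (a1_kn_single j).le
    (norm_nonneg c) (fun _ => le_rfl) (fun p q => by
      rw [sub_self, norm_zero]
      exact mul_nonneg (mul_nonneg zero_le_one (norm_nonneg c)) dist_nonneg)
  rw [mul_one] at h
  exact h.congr fun p θ => by rw [a1_dot_single, add_zero]

theorem Bd.sin_atom (ρ : ℝ) (j : Fin N) (c : E) :
    Bd ρ (fun (_ : Λ) (θ : T N) => sin (θ j) • c) (‖c‖ * exp ρ) := by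
  have h := a1_atom (Λ := Λ) ρ (Pi.single j 1) (-(π / 2)) 1 ‖c‖ (fun _ => c) (a1_kn_single j).le
    (norm_nonneg c) (fun _ => le_rfl) (fun p q => by
      rw [sub_self, norm_zero]
      exact mul_nonneg (mul_nonneg zero_le_one (norm_nonneg c)) dist_nonneg)
  rw [mul_one] at h
  exact h.congr fun p θ => by rw [a1_dot_single, ← sub_eq_add_neg, cos_sub_pi_div_two]

/-- Index type I ⊕ J. -/
theorem Bd.add (hg : Bd ρ g M) (hh : Bd ρ h M') :
    Bd ρ (fun p θ => g p θ + h p θ) (M + M') := by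
  obtain ⟨I, k, φ, w, m, v, hk, hm, h1, h2, hs, hb, hg⟩ := hg
  obtain ⟨I', k', φ', w', m', v', hk', hm', h1', h2', hs', hb', hg'⟩ := hh
  have hsum : HasSum (fun i : I ⊕ I' => Sum.elim m m' i * exp (ρ * Sum.elim w w' i))
      ((∑' i, m i * exp (ρ * w i)) + ∑' i, m' i * exp (ρ * w' i)) :=
    HasSum.sum hs.hasSum hs'.hasSum
  refine ⟨I ⊕ I', Sum.elim k k', Sum.elim φ φ', Sum.elim w w', Sum.elim m m', Sum.elim v v',
    ?_, ?_, ?_, ?_, hsum.summable, ?_, fun p θ => ?_⟩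
  · rintro (i | i)
    exacts [hk i, hk' i]
  · rintro (i | i)
    exacts [hm i, hm' i]
  · rintro (i | i)
    exacts [h1 i, h1' i]
  · rintro (i | i)
    exacts [h2 i, h2' i]
  · rw [hsum.tsum_eq]
    exact add_le_add hb hb'
  · exact HasSum.sum (hg p θ) (hg' p θ)

theorem Bd.clm (hg : Bd ρ g M) (L : E →L[ℝ] F) {c : ℝ} (hc : ‖L‖ ≤ c) :
    Bd ρ (fun p θ => L (g p θ)) (c * M) := by
  obtain ⟨I, k, φ, w, m, v, hk, hm, h1, h2, hs, hb, hg⟩ := hg
  have hc0 : 0 ≤ c := (norm_nonneg L).trans hc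
  have hL : ∀ x, ‖L x‖ ≤ c * ‖x‖ := fun x => L.le_of_opNorm_le hc x
  have hsum : HasSum (fun i => c * m i * exp (ρ * w i)) (c * ∑' i, m i * exp (ρ * w i)) := by
    simp only [mul_assoc]
    exact hs.hasSum.mul_left c
  refine ⟨I, k, φ, w, fun i => c * m i, fun i p => L (v i p), hk,
    fun i => mul_nonneg hc0 (hm i), fun i p => ?_, fun i p q => ?_, hsum.summable, ?_,
    fun p θ => ?_⟩
  · exact (hL _).trans (mul_le_mul_of_nonneg_left (h1 i p) hc0)
  · rw [← map_sub]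
    refine (hL _).trans ((mul_le_mul_of_nonneg_left (h2 i p q) hc0).trans_eq ?_)
    ring
  · rw [hsum.tsum_eq]
    exact mul_le_mul_of_nonneg_left hb hc0
  · have := (hg p θ).mapL L
    simpa only [map_smul] using this

theorem Bd.neg (hg : Bd ρ g M) : Bd ρ (fun p θ => -g p θ) M := by
  have h := hg.clm (-ContinuousLinearMap.id ℝ E) (c := 1)
    (by rw [norm_neg]; exact ContinuousLinearMap.norm_id_le)
  rw [one_mul] at h
  exact h.congr fun p θ => rfl

theorem Bd.sub (hg : Bd ρ g M) (hh : Bd ρ h M') :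
    Bd ρ (fun p θ => g p θ - h p θ) (M + M') :=
  (hg.add hh.neg).congr fun _ _ => sub_eq_add_neg _ _

theorem Bd.sum {ι : Type} (s : Finset ι) {f : ι → Λ → T N → E} {m : ι → ℝ}
    (hf : ∀ i ∈ s, Bd ρ (f i) (m i)) :
    Bd ρ (fun p θ => ∑ i ∈ s, f i p θ) (∑ i ∈ s, m i) := by
  classical
  induction s using Finset.induction_on with
  | empty => simpa using Bd.zero (N := N) (Λ := Λ) (E := E) ρ
  | insert a s ha ih =>
    rw [Finset.sum_insert ha]
    exact ((hf a (Finset.mem_insert_self a s)).add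
      (ih fun i hi => hf i (Finset.mem_insert_of_mem hi))).congr
      fun p θ => Finset.sum_insert ha

end Pool.Agent.MP_28624d_gt.K

end

section

/-!
The average over the torus.
-/

set_option maxSynthPendingDepth 3

namespace Pool.Agent.MP_28624d_gt.K

open Real Filter Topology MeasureTheory

variable {N : ℕ} {Λ : Type} [PseudoMetricSpace Λ] {E F G : Type} [NormedAddCommGroup E]
  [NormedSpace ℝ E] [NormedAddCommGroup F] [NormedSpace ℝ F] [NormedAddCommGroup G]
  [NormedSpace ℝ G] {g h : T N → E}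

theorem a3_vol : volume (Set.pi Set.univ fun _ : Fin N => Set.Ico (0 : ℝ) 1) = 1 := by
  rw [volume_pi_pi]
  simp

instance a3_prob : IsProbabilityMeasure
    (volume.restrict (Set.pi Set.univ fun _ : Fin N => Set.Ico (0 : ℝ) 1)) :=
  ⟨by rw [Measure.restrict_apply_univ, a3_vol]⟩

theorem a3_meas : MeasurableSet (Set.pi Set.univ fun _ : Fin N => Set.Ico (0 : ℝ) 1) :=
  MeasurableSet.univ_pi fun _ => measurableSet_Ico

theorem a3_norm {x : T N} (hx : x ∈ Set.pi Set.univ fun _ : Fin N => Set.Ico (0 : ℝ) 1) :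
    ‖x‖ ≤ 1 :=
  (pi_norm_le_iff_of_nonneg zero_le_one).2 fun j => by
    have h := hx j trivial
    rw [Real.norm_of_nonneg h.1]
    exact h.2.le

omit [NormedSpace ℝ E] in
theorem a3_int (hg : Continuous g) : Integrable (fun x : T N => g ((2 * π) • x))
    (volume.restrict (Set.pi Set.univ fun _ : Fin N => Set.Ico (0 : ℝ) 1)) :=
  ((hg.comp (continuous_const_smul (2 * π))).continuousOn.integrableOn_compact
    (isCompact_closedBall (0 : T N) 1)).mono_set fun _ hx => mem_closedBall_zero_iff.2 (a3_norm hx)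

theorem avg_const [CompleteSpace E] (c : E) : avg (fun _ : T N => c) = c := by
  rw [avg, integral_const, probReal_univ, one_smul]

theorem avg_add (hg : Continuous g) (hh : Continuous h) :
    avg (fun θ => g θ + h θ) = avg g + avg h :=
  integral_add (a3_int hg) (a3_int hh)

theorem avg_neg (g : T N → E) : avg (fun θ => -g θ) = -avg g :=
  integral_neg _

theorem avg_sub (hg : Continuous g) (hh : Continuous h) :
    avg (fun θ => g θ - h θ) = avg g - avg h :=
  integral_sub (a3_int hg) (a3_int hh)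

theorem avg_clm [CompleteSpace E] [CompleteSpace F] (hg : Continuous g) (L : E →L[ℝ] F) :
    avg (fun θ => L (g θ)) = L (avg g) :=
  L.integral_comp_comm (a3_int hg)

theorem avg_app [CompleteSpace F] {A : T N → E →L[ℝ] F} (hA : Continuous A) (v : E) :
    avg (fun θ => A θ v) = avg A v :=
  avg_clm hA (ContinuousLinearMap.apply ℝ F v)

theorem norm_avg_le {a : ℝ} (ha : ∀ θ, ‖g θ‖ ≤ a) : ‖avg g‖ ≤ a := by
  have h := norm_integral_le_of_norm_le_const
    (μ := volume.restrict (Set.pi Set.univ fun _ : Fin N => Set.Ico (0 : ℝ) 1))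
    (f := fun x : T N => g ((2 * π) • x)) (.of_forall fun x => ha _)
  rwa [probReal_univ, mul_one] at h

theorem a3_sum {ι : Type} (s : Finset ι) {f : ι → T N → E} (hf : ∀ i, Continuous (f i)) :
    avg (fun θ => ∑ i ∈ s, f i θ) = ∑ i ∈ s, avg (f i) :=
  integral_finsetSum s fun i _ => a3_int (hf i)

/-- The average of a periodic function is shift invariant. -/
theorem avg_shift (hg : Per g) (η : T N) : avg (fun θ => g (θ + η)) = avg g := by
  have h1 := ZSpan.isAddFundamentalDomain' (Pi.basisFun ℝ (Fin N)) volume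
  rw [ZSpan.fundamentalDomain_pi_basisFun] at h1
  have : Countable (Submodule.span ℤ (Set.range (Pi.basisFun ℝ (Fin N)))).toAddSubgroup :=
    inferInstanceAs (Countable (Submodule.span ℤ (Set.range (Pi.basisFun ℝ (Fin N)))))
  have h2 := h1.vadd_of_comm ((2 * π)⁻¹ • η)
  have h3 := h2.setIntegral_eq h1 (f := fun x : T N => g ((2 * π) • x)) fun y x => by
    have h4 := ((Pi.basisFun ℝ (Fin N)).mem_span_iff_repr_mem ℤ y.1).1 y.2
    choose n hn using h4
    rw [← hg ((2 * π) • x) n, AddSubgroup.vadd_def, vadd_eq_add, smul_add, add_comm]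
    congr 2
    funext j
    have h5 := hn j
    rw [Pi.basisFun_repr, eq_intCast] at h5
    rw [Pi.smul_apply, smul_eq_mul, h5]
  rw [avg, avg, ← h3, ← Set.image_vadd, (measurePreserving_vadd ((2 * π)⁻¹ • η)
    volume).setIntegral_image_emb (measurableEmbedding_const_vadd _)]
  simp only [vadd_eq_add, smul_add, smul_inv_smul₀ two_pi_pos.ne', add_comm]

/-- The average of a derivative of a periodic function vanishes. -/
theorem avg_fderiv [CompleteSpace E] (hg : Per g) (hd : ContDiff ℝ 1 g) (v : T N) :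
    avg (fun θ => fderiv ℝ g θ v) = 0 := by
  have hc : Continuous fun θ => fderiv ℝ g θ v :=
    (hd.continuous_fderiv one_ne_zero).clm_apply continuous_const
  obtain ⟨C, hC⟩ := (isCompact_closedBall (0 : T N) (2 * π + ‖v‖)).exists_bound_of_continuousOn
    hc.continuousOn
  have hF : ∀ t : ℝ, Continuous fun θ => g (θ + t • v) := fun t =>
    hd.continuous.comp (continuous_add_const _)
  have h := (hasDerivAt_integral_of_dominated_loc_of_deriv_le
    (μ := volume.restrict (Set.pi Set.univ fun _ : Fin N => Set.Ico (0 : ℝ) 1))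
    (F := fun (t : ℝ) (x : T N) => g ((2 * π) • x + t • v))
    (F' := fun (t : ℝ) (x : T N) => fderiv ℝ g ((2 * π) • x + t • v) v) (x₀ := 0)
    (bound := fun _ => C) (Metric.ball_mem_nhds 0 one_pos)
    (.of_forall fun t => (a3_int (hF t)).aestronglyMeasurable) (a3_int (hF 0))
    (a3_int (hc.comp (continuous_add_const _))).aestronglyMeasurable
    ((ae_restrict_mem a3_meas).mono fun x hx t ht => hC _ (by
      rw [mem_closedBall_zero_iff]
      refine (norm_add_le _ _).trans (add_le_add ?_ ?_)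
      · rw [norm_smul, Real.norm_of_nonneg two_pi_pos.le]
        exact mul_le_of_le_one_right two_pi_pos.le (a3_norm hx)
      · rw [norm_smul]
        exact mul_le_of_le_one_left (norm_nonneg _) (mem_ball_zero_iff.1 ht).le))
    (integrable_const C) (.of_forall fun x t _ => by
      have h1 := (((hasDerivAt_id t).smul_const v).const_add ((2 * π) • x))
      rw [one_smul] at h1
      exact (hd.differentiable one_ne_zero _).hasFDerivAt.comp_hasDerivAt t h1)).2
  have h2 : (fun t : ℝ => ∫ x in Set.pi Set.univ fun _ : Fin N => Set.Ico (0 : ℝ) 1,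
      g ((2 * π) • x + t • v)) = fun _ => avg g := funext fun t => avg_shift hg (t • v)
  rw [h2] at h
  simpa only [avg, zero_smul, add_zero] using h.unique (hasDerivAt_const (0 : ℝ) (avg g))

/-- Integration by parts. -/
theorem avg_ibp [CompleteSpace G] {a : T N → E} {b : T N → F} (ha : Per a) (hb : Per b)
    (hda : ContDiff ℝ 1 a) (hdb : ContDiff ℝ 1 b) (B : E →L[ℝ] F →L[ℝ] G) (v : T N) :
    avg (fun θ => B (a θ) (fderiv ℝ b θ v)) = -avg (fun θ => B (fderiv ℝ a θ v) (b θ)) := by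
  have h := avg_fderiv (g := fun θ => B (a θ) (b θ)) (fun θ n => by
    dsimp only
    rw [ha θ n, hb θ n])
    ((B.contDiff.comp hda).clm_apply hdb) v
  have h1 : ∀ θ, fderiv ℝ (fun θ => B (a θ) (b θ)) θ v =
      B (a θ) (fderiv ℝ b θ v) + B (fderiv ℝ a θ v) (b θ) := fun θ => by
    rw [(B.hasFDerivAt_of_bilinear (hda.differentiable one_ne_zero θ).hasFDerivAt
      (hdb.differentiable one_ne_zero θ).hasFDerivAt).fderiv]
    rfl
  simp only [h1] at h
  exact eq_neg_of_add_eq_zero_left ((avg_add ((B.continuous.comp hda.continuous).clm_apply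
      ((hdb.continuous_fderiv one_ne_zero).clm_apply continuous_const))
    ((B.continuous.comp ((hda.continuous_fderiv one_ne_zero).clm_apply continuous_const)).clm_apply
      hdb.continuous)).symm.trans h)

/-- The average of a non-constant atom vanishes. -/
theorem avg_cos {k : Fin N → ℤ} (hk : k ≠ 0) (φ : ℝ) (c : E) :
    avg (fun θ : T N => cos (dot k θ + φ) • c) = 0 := by
  obtain ⟨j, hj⟩ := Function.ne_iff.1 hk
  have hj' : (k j : ℝ) ≠ 0 := Int.cast_ne_zero.2 hj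
  have hp : Per fun θ : T N => cos (dot k θ + φ) • c := fun θ n => by
    have h : dot k (fun j => 2 * π * (n j : ℝ)) = (∑ j, k j * n j : ℤ) * (2 * π) := by
      rw [dot, Int.cast_sum, Finset.sum_mul]
      refine Finset.sum_congr rfl fun j _ => ?_
      push_cast
      ring
    simp only [dot_add_right, h, add_right_comm _ _ φ, cos_add_int_mul_two_pi]
  have hη : dot k (Pi.single j (π / k j)) = π := by
    rw [dot, Finset.sum_eq_single j (fun i _ hi => by rw [Pi.single_eq_of_ne hi, mul_zero])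
      (fun h => absurd (Finset.mem_univ j) h), Pi.single_eq_same, mul_div_cancel₀ _ hj']
  have h := avg_shift hp (Pi.single j (π / k j))
  simp only [dot_add_right, hη, add_right_comm _ π φ, cos_add_pi, neg_smul] at h
  rw [avg_neg] at h
  have h2 : (2 : ℝ) • avg (fun θ : T N => cos (dot k θ + φ) • c) = 0 := by
    rw [two_smul]
    exact neg_eq_iff_add_eq_zero.1 h
  exact (smul_eq_zero.1 h2).resolve_left two_ne_zero

/-- The average of a sum of atoms is the sum of the atoms with k = 0. -/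
theorem hasSum_avg [CompleteSpace E] {I : Type} {k : I → Fin N → ℤ} {φ m : I → ℝ} {v : I → E}
    (hm : Summable m) (hv : ∀ i, ‖v i‖ ≤ m i)
    (hg : ∀ θ, HasSum (fun i => cos (dot (k i) θ + φ i) • v i) (g θ)) :
    HasSum (fun i => if k i = 0 then cos (φ i) • v i else 0) (avg g) := by
  have hc : ∀ i, Continuous fun θ : T N => cos (dot (k i) θ + φ i) • v i := fun i => by
    unfold dot
    fun_prop
  have hb : ∀ i (θ : T N), ‖cos (dot (k i) θ + φ i) • v i‖ ≤ m i := fun i θ => by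
    rw [norm_smul]
    exact (mul_le_of_le_one_left (norm_nonneg _) (abs_cos_le_one _)).trans (hv i)
  obtain rfl : g = fun θ => ∑' i, cos (dot (k i) θ + φ i) • v i :=
    funext fun θ => (hg θ).tsum_eq.symm
  have ha : ∀ i, (if k i = 0 then cos (φ i) • v i else 0) =
      avg fun θ : T N => cos (dot (k i) θ + φ i) • v i := fun i => by
    split_ifs with h
    · simp only [h, dot_zero_left, zero_add, avg_const]
    · exact (avg_cos h _ _).symm
  simp only [ha]
  refine Metric.tendsto_nhds.2 fun ε hε => ?_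
  filter_upwards [Metric.tendstoUniformly_iff.1 (tendstoUniformly_tsum hm hb) (ε / 2)
    (half_pos hε)] with s hs
  rw [← a3_sum s hc, dist_eq_norm, ← avg_sub (continuous_finsetSum s fun i _ => hc i)
    (continuous_tsum hc hm hb)]
  exact (norm_avg_le fun θ => by
    rw [← dist_eq_norm, dist_comm]
    exact (hs θ).le).trans_lt (half_lt_self hε)

theorem Bd.mean [CompleteSpace E] {ρ M : ℝ} {f : Λ → T N → E} (hρ : 0 ≤ ρ) (hf : Bd ρ f M) :
    Bd ρ (fun p (_ : T N) => avg (f p)) M := by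
  obtain ⟨I, k, φ, w, m, v, h1, h2, h3, h4, h5, h6, h7⟩ := hf
  have hw : ∀ i, 0 ≤ w i := fun i => (kn_nonneg _).trans (h1 i)
  have hm : Summable m := h5.of_nonneg_of_le h2 fun i =>
    le_mul_of_one_le_right (h2 i) (one_le_exp (mul_nonneg hρ (hw i)))
  refine ⟨I, fun _ => 0, φ, w, m, fun i p => if k i = 0 then v i p else 0, fun i => ?_, h2,
    fun i p => ?_, fun i p q => ?_, h5, h6, fun p θ => ?_⟩
  · simpa [kn] using hw i
  · dsimp only
    split_ifs
    exacts [h3 i p, norm_zero.trans_le (h2 i)]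
  · dsimp only
    split_ifs
    · exact h4 i p q
    · rw [sub_zero, norm_zero]
      exact mul_nonneg (mul_nonneg (hw i) (h2 i)) dist_nonneg
  · simpa only [dot_zero_left, zero_add, smul_ite, smul_zero] using
      hasSum_avg hm (fun i => h3 i p) (h7 p)

end Pool.Agent.MP_28624d_gt.K

end

section

/-!
The cohomological equation in the class Bd.
-/

set_option maxSynthPendingDepth 3

namespace Pool.Agent.MP_28624d_gt.K

open Real Filter Topology

variable {N : ℕ} {Λ : Type} [PseudoMetricSpace Λ] {E : Type} [NormedAddCommGroup E]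
  [NormedSpace ℝ E] [CompleteSpace E] {ρ M γ : ℝ} {τ : ℕ} {ω : Λ → T N}

/-- The small divisor constant. -/
noncomputable def sol (γ : ℝ) (τ : ℕ) (δ : ℝ) : ℝ :=
  2 * ((2 * τ).factorial : ℝ) / (γ ^ 2 * δ ^ (2 * τ))

theorem a4_summable {I : Type} {k : I → Fin N → ℤ} {w m : I → ℝ} (hw : ∀ i, kn (k i) ≤ w i)
    (hm : ∀ i, 0 ≤ m i) (hρ : 0 ≤ ρ) (hs : Summable fun i => m i * exp (ρ * w i)) :
    Summable m := by
  refine Summable.of_nonneg_of_le hm (fun i => ?_) hs
  have h1 : 0 ≤ w i := (kn_nonneg _).trans (hw i)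
  have h2 : 1 ≤ exp (ρ * w i) := one_le_exp (mul_nonneg hρ h1)
  nlinarith [hm i]

theorem a4_norm_atom (x : ℝ) {v : E} {a : ℝ} (hv : ‖v‖ ≤ a) : ‖cos x • v‖ ≤ a := by
  rw [norm_smul, Real.norm_eq_abs]
  have h1 := abs_cos_le_one x
  nlinarith [norm_nonneg v, abs_nonneg (cos x)]

theorem a4_hasSum {I : Type} (k : I → Fin N → ℤ) (φ : I → ℝ) {m : I → ℝ} {v : I → E}
    (hm : Summable m) (hv : ∀ i, ‖v i‖ ≤ m i) (θ : T N) :
    HasSum (fun i => cos (dot (k i) θ + φ i) • v i) (∑' i, cos (dot (k i) θ + φ i) • v i) :=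
  (Summable.of_norm_bounded hm fun i => a4_norm_atom _ (hv i)).hasSum

theorem a4_continuous {I : Type} (k : I → Fin N → ℤ) (φ : I → ℝ) {m : I → ℝ} {v : I → E}
    (hm : Summable m) (hv : ∀ i, ‖v i‖ ≤ m i) :
    Continuous fun θ : T N => ∑' i, cos (dot (k i) θ + φ i) • v i := by
  refine continuous_tsum (fun i => ?_) hm fun i θ => a4_norm_atom _ (hv i)
  unfold dot
  fun_prop

theorem a4_avg_zero {I : Type} (k : I → Fin N → ℤ) (φ : I → ℝ) {m : I → ℝ} {v : I → E}
    (hm : Summable m) (hv : ∀ i, ‖v i‖ ≤ m i) (h0 : ∀ i, k i = 0 → v i = 0) :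
    avg (fun θ : T N => ∑' i, cos (dot (k i) θ + φ i) • v i) = 0 := by
  have h := hasSum_avg hm hv (a4_hasSum k φ hm hv)
  have h2 : (fun i => if k i = 0 then cos (φ i) • v i else 0) = fun _ => (0 : E) := by
    funext i
    split_ifs with hi
    · rw [h0 i hi, smul_zero]
    · rfl
  rw [h2] at h
  exact h.unique hasSum_zero

theorem a4_pow_exp {w δ : ℝ} (hw : 0 ≤ w) (hδ : 0 < δ) (n : ℕ) :
    w ^ n * exp (-(δ * w)) ≤ (n.factorial : ℝ) / δ ^ n := by
  have h1 := Real.pow_div_factorial_le_exp (δ * w) (mul_nonneg hδ.le hw) n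
  have h2 : (0 : ℝ) < n.factorial := by exact_mod_cast n.factorial_pos
  have h3 : 0 < δ ^ n := pow_pos hδ n
  have h4 := exp_pos (δ * w)
  rw [div_le_iff₀ h2, mul_pow] at h1
  rw [exp_neg, le_div_iff₀ h3, ← div_eq_mul_inv, div_mul_eq_mul_div, div_le_iff₀ h4]
  nlinarith

theorem a4_trig (x s : ℝ) (hs : sin s ≠ 0) :
    cos x * (1 / 2) + cos (x - π / 2) * (-(cos s / sin s) / 2) -
      (cos (x + 2 * s) * (1 / 2) + cos (x + 2 * s - π / 2) * (-(cos s / sin s) / 2)) = cos x := by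
  rw [cos_sub_pi_div_two, cos_sub_pi_div_two, cos_add, sin_add, cos_two_mul, sin_two_mul]
  have h := sin_sq_add_cos_sq s
  field_simp
  linear_combination (2 * sin x * cos s) * h

theorem a4_inv_sin {s c : ℝ} (hγ : 0 < γ) (h : γ ≤ c * |sin s|) :
    sin s ≠ 0 ∧ |sin s|⁻¹ ≤ c / γ := by
  have h0 : sin s ≠ 0 := by
    intro h0
    rw [h0, abs_zero, mul_zero] at h
    linarith
  refine ⟨h0, ?_⟩
  have h1 : 0 < |sin s| := abs_pos.2 h0
  rw [inv_eq_one_div, div_le_div_iff₀ h1 hγ]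
  linarith

theorem a4_cot_le {s c : ℝ} (hγ : 0 < γ) (h : γ ≤ c * |sin s|) :
    |-(cos s / sin s) / 2| ≤ c / γ / 2 := by
  obtain ⟨h0, h1⟩ := a4_inv_sin hγ h
  rw [abs_div, abs_neg, abs_div, abs_two, div_eq_mul_inv |cos s|]
  have h2 := abs_cos_le_one s
  have h3 : 0 ≤ |sin s|⁻¹ := by positivity
  have h4 : |cos s| * |sin s|⁻¹ ≤ 1 * |sin s|⁻¹ := mul_le_mul_of_nonneg_right h2 h3
  linarith

theorem a4_cot_lip {s t c : ℝ} (hγ : 0 < γ) (hs : γ ≤ c * |sin s|) (ht : γ ≤ c * |sin t|) :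
    |-(cos s / sin s) / 2 - -(cos t / sin t) / 2| ≤ (c / γ) ^ 2 / 2 * |s - t| := by
  obtain ⟨h0, h1⟩ := a4_inv_sin hγ hs
  obtain ⟨h0', h1'⟩ := a4_inv_sin hγ ht
  have e : -(cos s / sin s) / 2 - -(cos t / sin t) / 2 =
      sin (s - t) * (sin s)⁻¹ * (sin t)⁻¹ / 2 := by
    rw [sin_sub]
    field_simp
    ring
  rw [e, abs_div, abs_mul, abs_mul, abs_inv, abs_inv, abs_two]
  have h2 : |sin (s - t)| ≤ |s - t| := abs_sin_le_abs
  have h3 : 0 ≤ |sin s|⁻¹ := by positivity
  have h4 : 0 ≤ |sin t|⁻¹ := by positivity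
  have h6 : 0 ≤ c / γ := h3.trans h1
  have h5 : |sin (s - t)| * |sin s|⁻¹ * |sin t|⁻¹ ≤ |s - t| * (c / γ) * (c / γ) := by
    gcongr
  nlinarith

/-- For an atom with k ≠ 0 put a = dot k (ω p) and x = dot k θ + φ. Then cos x = U x - U (x + a)
for U x = cos x / 2 - cot (a / 2) / 2 * sin x, and sin x = cos (x - π / 2): two atoms, of sizes
m / 2 and m * w ^ (2 τ) / γ ^ 2 (use |cot s - cot t| ≤ |s - t| / (|sin s| |sin t|),
1 ≤ kn k ≤ w, and w ^ n * exp (-δ w) ≤ n ! / δ ^ n). Atoms with k = 0 are dropped. -/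
theorem Bd.solve {g : Λ → T N → E} (hω : Dio ω γ τ) (hg : Bd ρ g M) {δ : ℝ} (hδ : 0 < δ)
    (hδ1 : δ ≤ 1) (hρ : δ ≤ ρ) :
    ∃ u : Λ → T N → E, Bd (ρ - δ) u (sol γ τ δ * M) ∧
      (∀ p θ, u p θ - u p (θ + ω p) = g p θ - avg (g p)) ∧ ∀ p, avg (u p) = 0 := by
  obtain ⟨hω1, hγ, hγ1, hω2⟩ := hω
  have hM := hg.nonneg
  obtain ⟨I, k, φ, w, m, v, hw, hm, hv, hl, hs, hsum, hgs⟩ := hg
  have hw0 : ∀ i, 0 ≤ w i := fun i => (kn_nonneg _).trans (hw i)
  have hρ0 : 0 ≤ ρ := hδ.le.trans hρ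
  have hρδ : 0 ≤ ρ - δ := sub_nonneg.2 hρ
  set K : ℝ := ((2 * τ).factorial : ℝ) / (γ ^ 2 * δ ^ (2 * τ)) with hK
  have hK1 : 1 ≤ K := by
    rw [hK, le_div_iff₀ (by positivity), one_mul]
    have h1 : γ ^ 2 ≤ 1 := pow_le_one₀ hγ.le hγ1
    have h2 : δ ^ (2 * τ) ≤ 1 := pow_le_one₀ hδ.le hδ1
    have h3 : (1 : ℝ) ≤ (2 * τ).factorial := by exact_mod_cast (2 * τ).factorial_pos
    have h4 : γ ^ 2 * δ ^ (2 * τ) ≤ 1 := mul_le_one₀ h1 (by positivity) h2
    linarith
  have hms : Summable m := a4_summable hw hm hρ0 hs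
  let s : I → Λ → ℝ := fun i p => dot (k i) (ω p) / 2
  let β : I → Λ → ℝ := fun i p => -(cos (s i p) / sin (s i p)) / 2
  let v1 : I → Λ → E := fun i p => if k i = 0 then 0 else (1 / 2 : ℝ) • v i p
  let v2 : I → Λ → E := fun i p => if k i = 0 then 0 else β i p • v i p
  let m2 : I → ℝ := fun i => m i * (w i ^ (2 * τ) / γ ^ 2)
  have hm2 : ∀ i, 0 ≤ m2 i := fun i => mul_nonneg (hm i) (by have := hw0 i; positivity)
  have hd : ∀ i p, k i ≠ 0 → γ ≤ w i ^ τ * |sin (s i p)| := fun i p hi =>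
    (hω2 p (k i) hi).trans (mul_le_mul_of_nonneg_right
      (pow_le_pow_left₀ (kn_nonneg _) (hw i) τ) (abs_nonneg _))
  have hc1 : ∀ i, k i ≠ 0 → 1 ≤ w i ^ τ / γ := fun i hi => by
    rw [le_div_iff₀ hγ, one_mul]
    exact hγ1.trans (one_le_pow₀ ((one_le_kn hi).trans (hw i)))
  have hc2 : ∀ i, w i ^ (2 * τ) / γ ^ 2 = (w i ^ τ / γ) ^ 2 := fun i => by
    rw [div_pow, ← pow_mul, mul_comm τ 2]
  have hv1 : ∀ i p, ‖v1 i p‖ ≤ m i := fun i p => by
    simp only [v1]
    split_ifs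
    · simpa using hm i
    · rw [norm_smul]
      have := hv i p
      have := norm_nonneg (v i p)
      norm_num
      linarith
  have hl1 : ∀ i p q, ‖v1 i p - v1 i q‖ ≤ w i * m i * dist p q := fun i p q => by
    simp only [v1]
    split_ifs
    · rw [sub_self, norm_zero]
      exact mul_nonneg (mul_nonneg (hw0 i) (hm i)) dist_nonneg
    · rw [← smul_sub, norm_smul]
      have := hl i p q
      have := norm_nonneg (v i p - v i q)
      norm_num
      linarith
  have hv2 : ∀ i p, ‖v2 i p‖ ≤ m2 i := fun i p => by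
    simp only [v2]
    split_ifs with hi
    · simpa using hm2 i
    · rw [norm_smul, Real.norm_eq_abs]
      have h1 := a4_cot_le hγ (hd i p hi)
      have h2 := hc1 i hi
      simp only [m2, hc2]
      have h3 : |β i p| ≤ (w i ^ τ / γ) ^ 2 := by
        simp only [β]
        nlinarith
      rw [mul_comm (m i)]
      exact mul_le_mul h3 (hv i p) (norm_nonneg _) (by positivity)
  have hl2 : ∀ i p q, ‖v2 i p - v2 i q‖ ≤ w i * m2 i * dist p q := fun i p q => by
    simp only [v2]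
    split_ifs with hi
    · rw [sub_self, norm_zero]
      exact mul_nonneg (mul_nonneg (hw0 i) (hm2 i)) dist_nonneg
    · have e : β i p • v i p - β i q • v i q =
          β i p • (v i p - v i q) + (β i p - β i q) • v i q := by
        rw [smul_sub, sub_smul]
        abel
      have h1 : |β i p| ≤ w i ^ τ / γ / 2 := a4_cot_le hγ (hd i p hi)
      have h2 := hc1 i hi
      have h3 : |β i p - β i q| ≤ (w i ^ τ / γ) ^ 2 / 2 * |s i p - s i q| :=
        a4_cot_lip hγ (hd i p hi) (hd i q hi)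
      have h4 : |s i p - s i q| ≤ w i * dist p q := by
        simp only [s]
        rw [← sub_div, ← dot_sub_right, abs_div, abs_two]
        have h5 := abs_dot_le (k i) (ω p - ω q)
        have h6 : kn (k i) * ‖ω p - ω q‖ ≤ w i * dist p q :=
          mul_le_mul (hw i) (hω1 p q) (norm_nonneg _) (hw0 i)
        have h7 := abs_nonneg (dot (k i) (ω p - ω q))
        linarith
      set c := w i ^ τ / γ with hc
      have h5 : |β i p| ≤ c ^ 2 / 2 := by nlinarith
      have h6 : |β i p - β i q| ≤ c ^ 2 / 2 * (w i * dist p q) :=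
        h3.trans (mul_le_mul_of_nonneg_left h4 (by positivity))
      have h7 : ‖β i p • (v i p - v i q)‖ ≤ c ^ 2 / 2 * (w i * m i * dist p q) := by
        rw [norm_smul, Real.norm_eq_abs]
        exact mul_le_mul h5 (hl i p q) (norm_nonneg _) (by positivity)
      have h8 : ‖(β i p - β i q) • v i q‖ ≤ c ^ 2 / 2 * (w i * dist p q) * m i := by
        rw [norm_smul, Real.norm_eq_abs]
        exact mul_le_mul h6 (hv i q) (norm_nonneg _)
          (mul_nonneg (by positivity) (mul_nonneg (hw0 i) dist_nonneg))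
      rw [e]
      refine (norm_add_le _ _).trans ?_
      simp only [m2, hc2]
      rw [← hc]
      nlinarith
  have hb1 : ∀ i, m i * exp ((ρ - δ) * w i) ≤ m i * exp (ρ * w i) := fun i =>
    mul_le_mul_of_nonneg_left (exp_le_exp.2 (by nlinarith [hw0 i])) (hm i)
  have hb2 : ∀ i, m2 i * exp ((ρ - δ) * w i) ≤ K * (m i * exp (ρ * w i)) := fun i => by
    have h1 := a4_pow_exp (hw0 i) hδ (2 * τ)
    have e1 : exp ((ρ - δ) * w i) = exp (ρ * w i) * exp (-(δ * w i)) := by
      rw [← exp_add]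
      ring_nf
    have e2 : K = ((2 * τ).factorial : ℝ) / δ ^ (2 * τ) / γ ^ 2 := by
      rw [hK, div_div, mul_comm (γ ^ 2)]
    have h2 : w i ^ (2 * τ) * exp (-(δ * w i)) / γ ^ 2 ≤ K := by
      rw [e2]
      exact div_le_div_of_nonneg_right h1 (by positivity)
    have h3 : 0 ≤ m i * exp (ρ * w i) := mul_nonneg (hm i) (exp_pos _).le
    calc m2 i * exp ((ρ - δ) * w i)
        = w i ^ (2 * τ) * exp (-(δ * w i)) / γ ^ 2 * (m i * exp (ρ * w i)) := by
          simp only [m2, e1]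
          ring
      _ ≤ _ := mul_le_mul_of_nonneg_right h2 h3
  have hs1 : Summable fun i => m i * exp ((ρ - δ) * w i) :=
    Summable.of_nonneg_of_le (fun i => mul_nonneg (hm i) (exp_pos _).le) hb1 hs
  have hs2 : Summable fun i => m2 i * exp ((ρ - δ) * w i) :=
    Summable.of_nonneg_of_le (fun i => mul_nonneg (hm2 i) (exp_pos _).le) hb2 (hs.mul_left K)
  have hms2 : Summable m2 := a4_summable hw hm2 hρδ hs2
  let u1 : Λ → T N → E := fun p θ => ∑' i, cos (dot (k i) θ + φ i) • v1 i p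
  let u2 : Λ → T N → E := fun p θ => ∑' i, cos (dot (k i) θ + (φ i - π / 2)) • v2 i p
  have hu1 : ∀ p θ, HasSum (fun i => cos (dot (k i) θ + φ i) • v1 i p) (u1 p θ) :=
    fun p θ => a4_hasSum k φ hms (fun i => hv1 i p) θ
  have hu2 : ∀ p θ, HasSum (fun i => cos (dot (k i) θ + (φ i - π / 2)) • v2 i p) (u2 p θ) :=
    fun p θ => a4_hasSum k (fun i => φ i - π / 2) hms2 (fun i => hv2 i p) θ
  have hB1 : Bd (ρ - δ) u1 M :=
    ⟨I, k, φ, w, m, v1, hw, hm, hv1, hl1, hs1, (hs1.tsum_le_tsum hb1 hs).trans hsum, hu1⟩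
  have hB2 : Bd (ρ - δ) u2 (K * M) := by
    refine ⟨I, k, fun i => φ i - π / 2, w, m2, v2, hw, hm2, hv2, hl2, hs2, ?_, hu2⟩
    refine (hs2.tsum_le_tsum hb2 (hs.mul_left K)).trans ?_
    rw [tsum_mul_left]
    exact mul_le_mul_of_nonneg_left hsum (by linarith)
  refine ⟨fun p θ => u1 p θ + u2 p θ, (hB1.add hB2).mono le_rfl ?_, fun p θ => ?_, fun p => ?_⟩
  · have e : sol γ τ δ = 2 * K := by
      rw [sol, hK, mul_div_assoc]
    rw [e]
    nlinarith
  · have h1 := ((hu1 p θ).add (hu2 p θ)).sub ((hu1 p (θ + ω p)).add (hu2 p (θ + ω p)))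
    have h2 := (hgs p θ).sub (hasSum_avg hms (fun i => hv i p) (hgs p))
    refine h1.unique ?_
    convert h2 using 2 with i
    simp only [v1, v2]
    split_ifs with hi
    · rw [hi, dot_zero_left, zero_add]
      simp
    · have h3 := a4_trig (dot (k i) θ + φ i) (s i p) (a4_inv_sin hγ (hd i p hi)).1
      have e1 : dot (k i) (θ + ω p) + φ i = dot (k i) θ + φ i + 2 * s i p := by
        simp only [s]
        rw [dot_add_right]
        ring
      have e2 : dot (k i) (θ + ω p) + (φ i - π / 2) = dot (k i) θ + φ i + 2 * s i p - π / 2 := by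
        rw [← e1]
        ring
      rw [e1, e2, ← add_sub_assoc, smul_smul, smul_smul, smul_smul, smul_smul, ← add_smul,
        ← add_smul, ← sub_smul, sub_zero]
      simp only [β]
      rw [h3]
  · rw [avg_add (a4_continuous k φ hms fun i => hv1 i p)
      (a4_continuous k (fun i => φ i - π / 2) hms2 fun i => hv2 i p),
      a4_avg_zero k φ hms (fun i => hv1 i p) fun i hi => by simp only [v1, if_pos hi],
      a4_avg_zero k (fun i => φ i - π / 2) hms2 (fun i => hv2 i p) fun i hi => by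
        simp only [v2, if_pos hi], add_zero]

/-- Solve g - avg g = u - u (· + ω) with u bounded and sum along the orbit. -/
theorem Bd.eq_avg {g : Λ → T N → E} (hω : Dio ω γ τ) (hg : Bd ρ g M) (hρ : 0 < ρ) (p : Λ)
    (hi : ∀ θ, g p (θ + ω p) = g p θ) (θ : T N) : g p θ = avg (g p) := by
  obtain ⟨u, hu, h1, -⟩ := Bd.solve hω hg (lt_min hρ one_pos) (min_le_right _ _) (min_le_left _ _)
  have hb := hu.norm_le (sub_nonneg.2 (min_le_left _ _)) p
  set C := sol γ τ (min ρ 1) * M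
  have h2 : ∀ n : ℕ, g p (θ + (n : ℝ) • ω p) = g p θ := fun n => by
    induction n with
    | zero => simp
    | succ n ih => rw [Nat.cast_succ, add_smul, one_smul, ← add_assoc, hi, ih]
  have h3 : ∀ n : ℕ, u p θ - u p (θ + (n : ℝ) • ω p) = (n : ℝ) • (g p θ - avg (g p)) :=
    fun n => by
      induction n with
      | zero => simp
      | succ n ih =>
        have h4 := h1 p (θ + (n : ℝ) • ω p)
        rw [h2] at h4
        rw [Nat.cast_succ, add_smul, one_smul, ← add_assoc, add_smul, one_smul, ← ih, ← h4]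
        abel
  by_contra hne
  have h5 : 0 < ‖g p θ - avg (g p)‖ := norm_pos_iff.2 (sub_ne_zero.2 hne)
  obtain ⟨n, hn⟩ := exists_nat_gt (2 * C / ‖g p θ - avg (g p)‖)
  rw [div_lt_iff₀ h5] at hn
  have h6 := norm_sub_le (u p θ) (u p (θ + (n : ℝ) • ω p))
  rw [h3, norm_smul, Real.norm_natCast] at h6
  linarith [hb θ, hb (θ + (n : ℝ) • ω p)]

/-- A solution of average zero which lies in some class is the one given by Bd.solve. -/
theorem Bd.of_cohom {g u : Λ → T N → E} (hω : Dio ω γ τ) (hg : Bd ρ g M) {δ : ℝ} (hδ : 0 < δ)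
    (hδ1 : δ ≤ 1) (hρ : δ < ρ) {ρ' M' : ℝ} (hρ' : 0 < ρ') (hu : Bd ρ' u M')
    (h1 : ∀ p θ, u p θ - u p (θ + ω p) = g p θ - avg (g p)) (h2 : ∀ p, avg (u p) = 0) :
    Bd (ρ - δ) u (sol γ τ δ * M) := by
  obtain ⟨u0, hu0, h3, h4⟩ := Bd.solve hω hg hδ hδ1 hρ.le
  have hρδ : 0 < ρ - δ := sub_pos.2 hρ
  have hd := (hu.mono (min_le_left ρ' (ρ - δ)) le_rfl).sub
    (hu0.mono (min_le_right ρ' (ρ - δ)) le_rfl)
  refine hu0.congr fun p θ => ?_
  have h5 := Bd.eq_avg hω hd (lt_min hρ' hρδ) p (fun θ => by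
    have h6 := (h1 p θ).trans (h3 p θ).symm
    rw [sub_eq_sub_iff_sub_eq_sub] at h6
    exact h6.symm) θ
  rw [avg_sub (hu.continuous hρ' p) (hu0.continuous hρδ p), h2, h4, sub_self] at h5
  exact sub_eq_zero.1 h5

end Pool.Agent.MP_28624d_gt.K

end

section

/-!
Products, infinite sums, shifts and derivatives in the class Bd.
-/

set_option maxSynthPendingDepth 3

namespace Pool.Agent.MP_28624d_gt.K

open Real Filter Topology

variable {N : ℕ} {Λ : Type} [PseudoMetricSpace Λ] {E F G : Type} [NormedAddCommGroup E]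
  [NormedSpace ℝ E] [NormedAddCommGroup F] [NormedSpace ℝ F] [NormedAddCommGroup G]
  [NormedSpace ℝ G] {ρ M M' : ℝ}

theorem a2_summable {I : Type} {w m : I → ℝ} (hρ : 0 ≤ ρ) (hw : ∀ i, 0 ≤ w i)
    (hm : ∀ i, 0 ≤ m i) (hs : Summable fun i => m i * exp (ρ * w i)) : Summable m := by
  refine Summable.of_nonneg_of_le hm (fun i => ?_) hs
  exact le_mul_of_one_le_right (hm i) (one_le_exp (mul_nonneg hρ (hw i)))

theorem a2_cos_smul (x : ℝ) (v : E) : ‖cos x • v‖ ≤ ‖v‖ := by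
  rw [norm_smul]
  exact mul_le_of_le_one_left (norm_nonneg v) (abs_cos_le_one x)

theorem a2_sin_smul (x : ℝ) (v : E) : ‖sin x • v‖ ≤ ‖v‖ := by
  rw [norm_smul]
  exact mul_le_of_le_one_left (norm_nonneg v) (abs_sin_le_one x)

theorem a2_atoms [CompleteSpace E] {I : Type} {m : I → ℝ} (hm : Summable m) {v : I → E}
    (hv : ∀ i, ‖v i‖ ≤ m i) (x : I → ℝ) : Summable fun i => cos (x i) • v i :=
  Summable.of_norm_bounded hm fun i => (a2_cos_smul _ _).trans (hv i)

theorem a2_mk [CompleteSpace E] (hρ : 0 ≤ ρ) {I : Type} (k : I → Fin N → ℤ) (φ w m : I → ℝ)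
    (v : I → Λ → E) (h1 : ∀ i, kn (k i) ≤ w i) (h2 : ∀ i, 0 ≤ m i) (h3 : ∀ i p, ‖v i p‖ ≤ m i)
    (h4 : ∀ i p q, ‖v i p - v i q‖ ≤ w i * m i * dist p q)
    (h5 : Summable fun i => m i * exp (ρ * w i)) (h6 : ∑' i, m i * exp (ρ * w i) ≤ M) :
    Bd ρ (fun p θ => ∑' i, cos (dot (k i) θ + φ i) • v i p) M :=
  ⟨I, k, φ, w, m, v, h1, h2, h3, h4, h5, h6, fun p _ =>
    (a2_atoms (a2_summable hρ (fun i => (kn_nonneg _).trans (h1 i)) h2 h5)
      (fun i => h3 i p) _).hasSum⟩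

theorem a2_hasSum_bilin {I J : Type} {a : I → E} {b : J → F} {x : E} {y : F}
    (ha : HasSum a x) (hb : HasSum b y) (B : E →L[ℝ] F →L[ℝ] G)
    (hs : Summable fun z : I × J => B (a z.1) (b z.2)) :
    HasSum (fun z : I × J => B (a z.1) (b z.2)) (B x y) := by
  have h1 : HasSum (fun i => B (a i) y) (∑' z : I × J, B (a z.1) (b z.2)) :=
    hs.hasSum.prod_fiberwise fun i => (B (a i)).hasSum hb
  have h2 : HasSum (fun i => B (a i) y) (B x y) := (B.flip y).hasSum ha
  rw [← h1.unique h2]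
  exact hs.hasSum

theorem a2_bil_le (B : E →L[ℝ] F →L[ℝ] G) {c a b : ℝ} (hc : ‖B‖ ≤ c) {x : E} {y : F}
    (hx : ‖x‖ ≤ a) (hy : ‖y‖ ≤ b) : ‖B x y‖ ≤ c * a * b := by
  have h0 : 0 ≤ c := (norm_nonneg B).trans hc
  have h1 : 0 ≤ a := (norm_nonneg x).trans hx
  refine (B.le_opNorm₂ x y).trans ?_
  gcongr

/-- Index type (I × J) × Bool, from cos x cos y = (cos (x + y) + cos (x - y)) / 2; weights add,
sizes are c * m i * m' j / 2. -/
theorem Bd.bilin [CompleteSpace G] {g : Λ → T N → E} {h : Λ → T N → F} (hρ : 0 ≤ ρ)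
    (hg : Bd ρ g M) (hh : Bd ρ h M') (B : E →L[ℝ] F →L[ℝ] G) {c : ℝ} (hc : ‖B‖ ≤ c) :
    Bd ρ (fun p θ => B (g p θ) (h p θ)) (c * M * M') := by
  have hM := hg.nonneg
  obtain ⟨I, k, φ, w, m, v, h1, h2, h3, h4, h5, h6, h7⟩ := hg
  obtain ⟨J, l, ψ, w', m', u, g1, g2, g3, g4, g5, g6, g7⟩ := hh
  have h0 : 0 ≤ c := (norm_nonneg B).trans hc
  have hw : ∀ i, 0 ≤ w i := fun i => (kn_nonneg _).trans (h1 i)
  have hw' : ∀ i, 0 ≤ w' i := fun i => (kn_nonneg _).trans (g1 i)
  have e1 : ∀ i, 0 ≤ m i * exp (ρ * w i) := fun i => mul_nonneg (h2 i) (exp_pos _).le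
  have e2 : ∀ i, 0 ≤ m' i * exp (ρ * w' i) := fun i => mul_nonneg (g2 i) (exp_pos _).le
  have s0 : Summable fun z : I × J => (m z.1 * exp (ρ * w z.1)) * (m' z.2 * exp (ρ * w' z.2)) :=
    h5.mul_of_nonneg g5 e1 e2
  have e3 : (fun z : I × J => c / 2 * m z.1 * m' z.2 * exp (ρ * (w z.1 + w' z.2))) =
      fun z : I × J => c / 2 * ((m z.1 * exp (ρ * w z.1)) * (m' z.2 * exp (ρ * w' z.2))) := by
    funext z
    rw [mul_add, exp_add]
    ring
  have s1 : Summable fun z : I × J => c / 2 * m z.1 * m' z.2 * exp (ρ * (w z.1 + w' z.2)) := by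
    rw [e3]
    exact s0.mul_left _
  have s2 : ∑' z : I × J, c / 2 * m z.1 * m' z.2 * exp (ρ * (w z.1 + w' z.2)) ≤
      c / 2 * M * M' := by
    rw [e3, tsum_mul_left, ← h5.tsum_mul_tsum g5 s0, mul_assoc]
    exact mul_le_mul_of_nonneg_left (mul_le_mul h6 g6 (tsum_nonneg e2) hM) (by positivity)
  have hB : ‖(1 / 2 : ℝ) • B‖ ≤ c / 2 := by
    rw [norm_smul, Real.norm_of_nonneg (by norm_num)]
    linarith
  have n0 : ∀ z : I × J, 0 ≤ c / 2 * m z.1 * m' z.2 := fun z =>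
    mul_nonneg (mul_nonneg (by positivity) (h2 _)) (g2 _)
  have n1 : ∀ (z : I × J) p, ‖((1 / 2 : ℝ) • B) (v z.1 p) (u z.2 p)‖ ≤ c / 2 * m z.1 * m' z.2 :=
    fun z p => a2_bil_le _ hB (h3 _ _) (g3 _ _)
  have n2 : ∀ (z : I × J) p q, ‖((1 / 2 : ℝ) • B) (v z.1 p) (u z.2 p) -
      ((1 / 2 : ℝ) • B) (v z.1 q) (u z.2 q)‖ ≤
      (w z.1 + w' z.2) * (c / 2 * m z.1 * m' z.2) * dist p q := by
    intro z p q
    have e : ((1 / 2 : ℝ) • B) (v z.1 p) (u z.2 p) - ((1 / 2 : ℝ) • B) (v z.1 q) (u z.2 q) =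
        ((1 / 2 : ℝ) • B) (v z.1 p - v z.1 q) (u z.2 p) +
          ((1 / 2 : ℝ) • B) (v z.1 q) (u z.2 p - u z.2 q) := by
      rw [map_sub, map_sub, _root_.sub_apply]
      abel
    rw [e]
    refine (norm_add_le_of_le (a2_bil_le _ hB (h4 _ p q) (g3 _ _))
      (a2_bil_le _ hB (h3 _ _) (g4 _ p q))).trans (le_of_eq ?_)
    ring
  have b1 := a2_mk (M := c / 2 * M * M') hρ (fun z : I × J => k z.1 + l z.2)
    (fun z => φ z.1 + ψ z.2) (fun z => w z.1 + w' z.2) (fun z => c / 2 * m z.1 * m' z.2)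
    (fun z p => ((1 / 2 : ℝ) • B) (v z.1 p) (u z.2 p))
    (fun z => (kn_add_le _ _).trans (add_le_add (h1 _) (g1 _))) n0 n1 n2 s1 s2
  have b2 := a2_mk (M := c / 2 * M * M') hρ (fun z : I × J => k z.1 - l z.2)
    (fun z => φ z.1 - ψ z.2) (fun z => w z.1 + w' z.2) (fun z => c / 2 * m z.1 * m' z.2)
    (fun z p => ((1 / 2 : ℝ) • B) (v z.1 p) (u z.2 p))
    (fun z => (kn_sub_le _ _).trans (add_le_add (h1 _) (g1 _))) n0 n1 n2 s1 s2
  have s3 : Summable fun z : I × J => c / 2 * m z.1 * m' z.2 :=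
    a2_summable hρ (fun z => add_nonneg (hw _) (hw' _)) n0 s1
  refine ((b1.add b2).mono le_rfl (le_of_eq (by ring))).congr fun p θ => ?_
  have t1 := a2_atoms s3 (fun z => n1 z p) fun z => dot (k z.1 + l z.2) θ + (φ z.1 + ψ z.2)
  have t2 := a2_atoms s3 (fun z => n1 z p) fun z => dot (k z.1 - l z.2) θ + (φ z.1 - ψ z.2)
  have t3 := t1.hasSum.add t2.hasSum
  have e4 : (fun z : I × J =>
      cos (dot (k z.1 + l z.2) θ + (φ z.1 + ψ z.2)) • ((1 / 2 : ℝ) • B) (v z.1 p) (u z.2 p) +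
      cos (dot (k z.1 - l z.2) θ + (φ z.1 - ψ z.2)) • ((1 / 2 : ℝ) • B) (v z.1 p) (u z.2 p)) =
      fun z : I × J => B (cos (dot (k z.1) θ + φ z.1) • v z.1 p)
        (cos (dot (l z.2) θ + ψ z.2) • u z.2 p) := by
    funext z
    have a1 : dot (k z.1 + l z.2) θ + (φ z.1 + ψ z.2) =
        (dot (k z.1) θ + φ z.1) + (dot (l z.2) θ + ψ z.2) := by
      rw [dot_add_left]
      ring
    have a2 : dot (k z.1 - l z.2) θ + (φ z.1 - ψ z.2) =
        (dot (k z.1) θ + φ z.1) - (dot (l z.2) θ + ψ z.2) := by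
      rw [dot_sub_left]
      ring
    rw [a1, a2, cos_add, cos_sub]
    simp only [_root_.smul_apply, map_smul, smul_smul, ← add_smul]
    congr 1
    ring
  rw [e4] at t3
  exact (a2_hasSum_bilin (h7 p θ) (g7 p θ) B t3.summable).unique t3

theorem Bd.app [CompleteSpace F] {A : Λ → T N → E →L[ℝ] F} {h : Λ → T N → E} (hρ : 0 ≤ ρ)
    (hA : Bd ρ A M) (hh : Bd ρ h M') : Bd ρ (fun p θ => A p θ (h p θ)) (M * M') := by
  have := hA.bilin hρ hh (ContinuousLinearMap.id ℝ (E →L[ℝ] F)) ContinuousLinearMap.norm_id_le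
  rw [one_mul] at this
  exact this

theorem Bd.comp [CompleteSpace G] {A : Λ → T N → F →L[ℝ] G} {B : Λ → T N → E →L[ℝ] F}
    (hρ : 0 ≤ ρ) (hA : Bd ρ A M) (hB : Bd ρ B M') :
    Bd ρ (fun p θ => (A p θ).comp (B p θ)) (M * M') := by
  have := hA.bilin hρ hB (ContinuousLinearMap.compL ℝ E F G)
    (ContinuousLinearMap.norm_compL_le ℝ E F G)
  rw [one_mul] at this
  exact this

/-- Index type the sigma type of the index types. -/
theorem Bd.series [CompleteSpace E] (hρ : 0 ≤ ρ) {f : ℕ → Λ → T N → E} {m : ℕ → ℝ}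
    (hf : ∀ n, Bd ρ (f n) (m n)) (hm : Summable m) :
    Bd ρ (fun p θ => ∑' n, f n p θ) (∑' n, m n) := by
  choose I k φ w a v h1 h2 h3 h4 h5 h6 h7 using hf
  have e1 : ∀ n i, 0 ≤ a n i * exp (ρ * w n i) := fun n i => mul_nonneg (h2 n i) (exp_pos _).le
  have s0 : Summable fun n => ∑' i, a n i * exp (ρ * w n i) :=
    Summable.of_nonneg_of_le (fun n => tsum_nonneg (e1 n)) h6 hm
  have s1 : Summable fun z : (Σ n, I n) => a z.1 z.2 * exp (ρ * w z.1 z.2) :=
    (summable_sigma_of_nonneg fun z => e1 z.1 z.2).2 ⟨h5, s0⟩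
  have s2 : ∑' z : (Σ n, I n), a z.1 z.2 * exp (ρ * w z.1 z.2) ≤ ∑' n, m n := by
    rw [s1.tsum_sigma]
    exact s0.tsum_le_tsum h6 hm
  have s3 : Summable fun z : (Σ n, I n) => a z.1 z.2 :=
    a2_summable hρ (fun z => (kn_nonneg _).trans (h1 z.1 z.2)) (fun z => h2 z.1 z.2) s1
  refine (a2_mk hρ (fun z : (Σ n, I n) => k z.1 z.2) (fun z => φ z.1 z.2) (fun z => w z.1 z.2)
    (fun z => a z.1 z.2) (fun z => v z.1 z.2) (fun z => h1 z.1 z.2) (fun z => h2 z.1 z.2)
    (fun z => h3 z.1 z.2) (fun z => h4 z.1 z.2) s1 s2).congr fun p θ => ?_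
  have t1 := a2_atoms s3 (fun z => h3 z.1 z.2 p) fun z => dot (k z.1 z.2) θ + φ z.1 z.2
  exact (t1.hasSum.sigma fun n => h7 n p θ).tsum_eq

theorem a2_lip {c : ℝ → ℝ} (c1 : ∀ x, |c x| ≤ 1) (c2 : ∀ x y, |c x - c y| ≤ |x - y|)
    {k : Fin N → ℤ} {w m d : ℝ} (hk : kn k ≤ w) {a b : T N} (hab : ‖a - b‖ ≤ d) {x y : E}
    (hy : ‖y‖ ≤ m) (hxy : ‖x - y‖ ≤ w * m * d) :
    ‖c (dot k a) • x - c (dot k b) • y‖ ≤ w * (2 * m) * d := by
  have e : c (dot k a) • x - c (dot k b) • y =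
      c (dot k a) • (x - y) + (c (dot k a) - c (dot k b)) • y := by
    rw [smul_sub, sub_smul]
    abel
  have hw : 0 ≤ w := (kn_nonneg k).trans hk
  have h1 : ‖c (dot k a) • (x - y)‖ ≤ w * m * d := by
    rw [norm_smul]
    exact (mul_le_of_le_one_left (norm_nonneg _) (c1 _)).trans hxy
  have h2 : |c (dot k a) - c (dot k b)| ≤ w * d := by
    refine (c2 _ _).trans ?_
    rw [← dot_sub_right]
    exact (abs_dot_le _ _).trans (mul_le_mul hk hab (norm_nonneg _) hw)
  have h3 : ‖(c (dot k a) - c (dot k b)) • y‖ ≤ w * d * m := by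
    rw [norm_smul]
    exact mul_le_mul h2 hy (norm_nonneg _) ((abs_nonneg _).trans h2)
  rw [e]
  refine (norm_add_le_of_le h1 h3).trans (le_of_eq ?_)
  ring

/-- cos (x + a) = cos a * cos x + sin a * cos (x + π / 2): two atoms of size 2 * m i each. -/
theorem Bd.shift [CompleteSpace E] {g : Λ → T N → E} (hρ : 0 ≤ ρ) (hg : Bd ρ g M) {ω : Λ → T N}
    (hω : ∀ p q, ‖ω p - ω q‖ ≤ dist p q) : Bd ρ (fun p θ => g p (θ + ω p)) (4 * M) := by
  obtain ⟨I, k, φ, w, m, v, h1, h2, h3, h4, h5, h6, h7⟩ := hg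
  have e3 : (fun i => 2 * m i * exp (ρ * w i)) = fun i => 2 * (m i * exp (ρ * w i)) := by
    funext i
    ring
  have s1 : Summable fun i => 2 * m i * exp (ρ * w i) := by
    rw [e3]
    exact h5.mul_left _
  have s2 : ∑' i, 2 * m i * exp (ρ * w i) ≤ 2 * M := by
    rw [e3, tsum_mul_left]
    linarith
  have n0 : ∀ i, 0 ≤ 2 * m i := fun i => mul_nonneg (by norm_num) (h2 i)
  have n1 : ∀ i p, ‖cos (dot (k i) (ω p)) • v i p‖ ≤ 2 * m i := fun i p => by
    linarith [a2_cos_smul (dot (k i) (ω p)) (v i p), h3 i p, h2 i]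
  have n2 : ∀ i p, ‖sin (dot (k i) (ω p)) • v i p‖ ≤ 2 * m i := fun i p => by
    linarith [a2_sin_smul (dot (k i) (ω p)) (v i p), h3 i p, h2 i]
  have b1 := a2_mk hρ k φ w (fun i => 2 * m i) (fun i p => cos (dot (k i) (ω p)) • v i p) h1 n0 n1
    (fun i p q => a2_lip abs_cos_le_one abs_cos_sub_cos_le (h1 i) (hω p q) (h3 i q) (h4 i p q))
    s1 s2
  have b2 := a2_mk hρ k (fun i => φ i + π / 2) w (fun i => 2 * m i)
    (fun i p => sin (dot (k i) (ω p)) • v i p) h1 n0 n2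
    (fun i p q => a2_lip abs_sin_le_one abs_sin_sub_sin_le (h1 i) (hω p q) (h3 i q) (h4 i p q))
    s1 s2
  have s3 : Summable fun i => 2 * m i :=
    a2_summable hρ (fun i => (kn_nonneg _).trans (h1 i)) n0 s1
  refine ((b1.add b2).mono le_rfl (le_of_eq (by ring))).congr fun p θ => ?_
  have t1 := a2_atoms s3 (fun i => n1 i p) fun i => dot (k i) θ + φ i
  have t2 := a2_atoms s3 (fun i => n2 i p) fun i => dot (k i) θ + (φ i + π / 2)
  refine (h7 p (θ + ω p)).unique ?_
  convert t1.hasSum.add t2.hasSum using 2 with i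
  have a1 : dot (k i) (θ + ω p) + φ i = (dot (k i) θ + φ i) + dot (k i) (ω p) := by
    rw [dot_add_right]
    ring
  rw [a1, cos_add, ← add_assoc, cos_add_pi_div_two, smul_smul, smul_smul, ← add_smul]
  congr 1
  ring

/-- The pairing with k as a continuous linear form. -/
noncomputable def a2_dotL (k : Fin N → ℤ) : T N →L[ℝ] ℝ :=
  ∑ j, (k j : ℝ) • ContinuousLinearMap.proj j

theorem a2_dotL_apply (k : Fin N → ℤ) (θ : T N) : a2_dotL k θ = dot k θ := by
  simp [a2_dotL, dot]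

theorem a2_dotL_norm (k : Fin N → ℤ) : ‖a2_dotL k‖ ≤ kn k :=
  ContinuousLinearMap.opNorm_le_bound _ (kn_nonneg k) fun θ => by
    rw [a2_dotL_apply]
    exact abs_dot_le k θ

theorem a2_smulRight_le {k : Fin N → ℤ} {w a : ℝ} (hk : kn k ≤ w) {x : E} (hx : ‖x‖ ≤ a) :
    ‖(a2_dotL k).smulRight x‖ ≤ w * a := by
  rw [ContinuousLinearMap.norm_smulRight_apply]
  exact mul_le_mul ((a2_dotL_norm k).trans hk) hx (norm_nonneg _) ((kn_nonneg k).trans hk)

theorem a2_atom_der (k : Fin N → ℤ) (φ : ℝ) (x : E) (θ : T N) :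
    HasFDerivAt (fun η => cos (dot k η + φ) • x)
      (cos (dot k θ + (φ + π / 2)) • (a2_dotL k).smulRight x) θ := by
  have h1 : HasFDerivAt (fun η => dot k η + φ) (a2_dotL k) θ := by
    have := ((a2_dotL k).hasFDerivAt (x := θ)).add_const φ
    simpa only [a2_dotL_apply] using this
  refine (h1.cos.smul_const x).congr_fderiv (ContinuousLinearMap.ext fun η => ?_)
  simp [← add_assoc, cos_add_pi_div_two, smul_smul]

theorem a2_w_le {δ : ℝ} (hδ : 0 < δ) (ρ w : ℝ) :
    w * exp ((ρ - δ) * w) ≤ exp (ρ * w) / δ := by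
  have h1 : δ * w ≤ exp (δ * w) := by linarith [add_one_le_exp (δ * w)]
  have h2 : exp (ρ * w) = exp (δ * w) * exp ((ρ - δ) * w) := by
    rw [← exp_add]
    congr 1
    ring
  rw [le_div_iff₀ hδ, h2]
  nlinarith [exp_pos ((ρ - δ) * w)]

theorem a2_der [CompleteSpace E] {g : Λ → T N → E} (hg : Bd ρ g M) {δ : ℝ} (hδ : 0 < δ)
    (hρ : δ ≤ ρ) : ∃ D : Λ → T N → T N →L[ℝ] E, Bd (ρ - δ) D (M / δ) ∧
      ∀ p θ, HasFDerivAt (g p) (D p θ) θ := by
  obtain ⟨I, k, φ, w, m, v, h1, h2, h3, h4, h5, h6, h7⟩ := hg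
  have hw : ∀ i, 0 ≤ w i := fun i => (kn_nonneg _).trans (h1 i)
  have n0 : ∀ i, 0 ≤ w i * m i := fun i => mul_nonneg (hw i) (h2 i)
  have n1 : ∀ i p, ‖(a2_dotL (k i)).smulRight (v i p)‖ ≤ w i * m i := fun i p =>
    a2_smulRight_le (h1 i) (h3 i p)
  have n2 : ∀ i p q, ‖(a2_dotL (k i)).smulRight (v i p) - (a2_dotL (k i)).smulRight (v i q)‖ ≤
      w i * (w i * m i) * dist p q := by
    intro i p q
    have e : (a2_dotL (k i)).smulRight (v i p) - (a2_dotL (k i)).smulRight (v i q) =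
        (a2_dotL (k i)).smulRight (v i p - v i q) := by
      ext η
      simp [smul_sub]
    rw [e, mul_assoc]
    exact a2_smulRight_le (h1 i) (h4 i p q)
  have n3 : ∀ i, w i * m i * exp ((ρ - δ) * w i) ≤ m i * exp (ρ * w i) / δ := fun i => by
    have := mul_le_mul_of_nonneg_left (a2_w_le hδ ρ (w i)) (h2 i)
    rw [mul_div_assoc]
    linarith
  have s1 : Summable fun i => w i * m i * exp ((ρ - δ) * w i) :=
    Summable.of_nonneg_of_le (fun i => mul_nonneg (n0 i) (exp_pos _).le) n3 (h5.div_const δ)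
  have s2 : ∑' i, w i * m i * exp ((ρ - δ) * w i) ≤ M / δ := by
    refine (s1.tsum_le_tsum n3 (h5.div_const δ)).trans ?_
    rw [tsum_div_const]
    exact div_le_div_of_nonneg_right h6 hδ.le
  have s3 : Summable fun i => w i * m i := a2_summable (sub_nonneg.2 hρ) hw n0 s1
  refine ⟨_, a2_mk (sub_nonneg.2 hρ) k (fun i => φ i + π / 2) w (fun i => w i * m i)
    (fun i p => (a2_dotL (k i)).smulRight (v i p)) h1 n0 n1 n2 s1 s2, fun p θ => ?_⟩
  have e : g p = fun η => ∑' i, cos (dot (k i) η + φ i) • v i p :=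
    funext fun η => (h7 p η).tsum_eq.symm
  rw [e]
  exact hasFDerivAt_tsum s3 (fun i η => a2_atom_der (k i) (φ i) (v i p) η)
    (fun i η => (a2_cos_smul _ _).trans (n1 i p)) (h7 p θ).summable θ

/-- Use hasFDerivAt_tsum. -/
theorem Bd.differentiable [CompleteSpace E] {g : Λ → T N → E} (hg : Bd ρ g M) (hρ : 0 < ρ)
    (p : Λ) : Differentiable ℝ (g p) := by
  obtain ⟨D, -, hD⟩ := a2_der hg hρ le_rfl
  exact fun θ => (hD p θ).differentiableAt

/-- The atoms are cos (k.θ + φ + π / 2) • (k.smulRight (v p)) with sizes w i * m i. -/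
theorem Bd.der [CompleteSpace E] {g : Λ → T N → E} (hg : Bd ρ g M) {δ : ℝ} (hδ : 0 < δ)
    (hρ : δ ≤ ρ) : Bd (ρ - δ) (fun p θ => fderiv ℝ (g p) θ) (M / δ) := by
  obtain ⟨D, hB, hD⟩ := a2_der hg hδ hρ
  exact hB.congr fun p θ => (hD p θ).fderiv

theorem Bd.contDiff_one [CompleteSpace E] {g : Λ → T N → E} (hg : Bd ρ g M) (hρ : 0 < ρ)
    (p : Λ) : ContDiff ℝ 1 (g p) :=
  contDiff_one_iff_fderiv.2 ⟨hg.differentiable hρ p,
    (hg.der (half_pos hρ) (half_le_self hρ.le)).continuous (by linarith) p⟩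

theorem Bd.contDiff_two [CompleteSpace E] {g : Λ → T N → E} (hg : Bd ρ g M) (hρ : 0 < ρ)
    (p : Λ) : ContDiff ℝ 2 (g p) := by
  rw [← one_add_one_eq_two, contDiff_succ_iff_fderiv]
  exact ⟨hg.differentiable hρ p, by simp,
    (hg.der (half_pos hρ) (half_le_self hρ.le)).contDiff_one (by linarith) p⟩

end Pool.Agent.MP_28624d_gt.K

end

section

/-!
Composition with analytic maps in the class Bd.
-/

set_option maxSynthPendingDepth 3

namespace Pool.Agent.MP_28624d_gt.K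

open Real Filter Topology

variable {N : ℕ} {X F : Type} [NormedAddCommGroup X] [NormedSpace ℝ X] [NormedAddCommGroup F]
  [NormedSpace ℝ F] [CompleteSpace F]

theorem a5_curry {Λ : Type} [PseudoMetricSpace Λ] {ρ a b : ℝ} (hρ : 0 ≤ ρ) {n : ℕ}
    {P : Λ → T N → ContinuousMultilinearMap ℝ (fun _ : Fin (n + 1) => X) F} {Z : Λ → T N → X}
    (hP : Bd ρ P a) (hZ : Bd ρ Z b) :
    Bd ρ (fun p θ => ((P p θ).curryLeft (Z p θ) :
      ContinuousMultilinearMap ℝ (fun _ : Fin n => X) F)) (a * b) := by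
  have h1 := hP.clm
    (continuousMultilinearCurryLeftEquiv ℝ (fun _ : Fin (n + 1) => X) F).toLinearIsometry.toContinuousLinearMap
    (c := 1) (LinearIsometry.norm_toContinuousLinearMap_le _)
  have h2 := Bd.app hρ h1 hZ
  rw [one_mul] at h2
  exact h2.congr fun p θ => rfl

omit [CompleteSpace F] in
theorem a5_cons {n : ℕ} (P : ContinuousMultilinearMap ℝ (fun _ : Fin (n + 1) => X) F) (y : X) :
    P (fun _ => y) = P.curryLeft y (fun _ => y) := by
  rw [ContinuousMultilinearMap.curryLeft_apply]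
  congr 1
  funext i
  refine Fin.cases ?_ (fun j => ?_) i <;> simp

/-- Induction on n, generalizing F-valued P, with curryLeft
(continuousMultilinearCurryLeftEquiv is a linear isometry). -/
theorem Bd.multilin {Λ : Type} [PseudoMetricSpace Λ] {ρ a b : ℝ} (hρ : 0 ≤ ρ) (n : ℕ)
    {P : Λ → T N → ContinuousMultilinearMap ℝ (fun _ : Fin n => X) F} {Y : Λ → T N → X}
    (hP : Bd ρ P a) (hY : Bd ρ Y b) :
    Bd ρ (fun p θ => P p θ (fun _ => Y p θ)) (a * b ^ n) := by
  induction n generalizing a with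
  | zero =>
    have h1 := hP.clm
      (continuousMultilinearCurryFin0 ℝ X F).toLinearIsometry.toContinuousLinearMap
      (c := 1) (LinearIsometry.norm_toContinuousLinearMap_le _)
    rw [one_mul] at h1
    rw [pow_zero, mul_one]
    refine h1.congr fun p θ => ?_
    change _ = P p θ 0
    congr 1
    exact Subsingleton.elim _ _
  | succ n ih =>
    have h1 := ih (a5_curry hρ hP hY)
    have e : a * b ^ (n + 1) = a * b * b ^ n := by ring
    rw [e]
    exact h1.congr fun p θ => a5_cons _ _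

/-- The derivative of x ↦ P (x, ..., x) at y in the direction h. -/
noncomputable def a5_D {n : ℕ} (P : ContinuousMultilinearMap ℝ (fun _ : Fin n => X) F)
    (y h : X) : F :=
  ∑ i, P (Function.update (fun _ => y) i h)

omit [CompleteSpace F] in
theorem a5_D_zero (P : ContinuousMultilinearMap ℝ (fun _ : Fin 0 => X) F) (y h : X) :
    a5_D P y h = 0 := by
  simp [a5_D]

omit [CompleteSpace F] in
theorem a5_D_succ {n : ℕ} (P : ContinuousMultilinearMap ℝ (fun _ : Fin (n + 1) => X) F)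
    (y h : X) : a5_D P y h = P.curryLeft h (fun _ => y) + a5_D (P.curryLeft y) y h := by
  unfold a5_D
  rw [Fin.sum_univ_succ]
  congr 1
  · rw [ContinuousMultilinearMap.curryLeft_apply]
    congr 1
    funext i
    refine Fin.cases ?_ (fun j => ?_) i
    · simp
    · simp
  · refine Finset.sum_congr rfl fun j _ => ?_
    rw [ContinuousMultilinearMap.curryLeft_apply]
    congr 1
    funext i
    refine Fin.cases ?_ (fun l => ?_) i
    · simp [Function.update_of_ne (Fin.succ_ne_zero j).symm]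
    · simp [Function.update_apply]

theorem a5_first {Λ : Type} [PseudoMetricSpace Λ] {ρ a b c r : ℝ} (hρ : 0 ≤ ρ) (hr : 0 < r)
    (n : ℕ) {P : Λ → T N → ContinuousMultilinearMap ℝ (fun _ : Fin n => X) F}
    {Y H : Λ → T N → X} (hP : Bd ρ P c) (hY : Bd ρ Y a) (hH : Bd ρ H b) (ha : a ≤ r)
    (hb : b ≤ r) :
    Bd ρ (fun p θ => P p θ (fun _ => Y p θ + H p θ) - P p θ (fun _ => Y p θ))
      (c * (b / r) * (3 * r) ^ n) := by
  have ha0 := hY.nonneg
  have hb0 := hH.nonneg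
  induction n generalizing c with
  | zero =>
    have hc0 := hP.nonneg
    refine ((Bd.zero ρ).mono le_rfl (by positivity)).congr fun p θ => ?_
    rw [sub_eq_zero]
    congr 1
    exact Subsingleton.elim _ _
  | succ n ih =>
    have hc0 := hP.nonneg
    have h1 := ih (a5_curry hρ hP hY)
    have h2 := Bd.multilin hρ n (a5_curry hρ hP hH) (hY.add hH)
    refine ((h1.add h2).mono le_rfl ?_).congr fun p θ => ?_
    · have e1 : (a + b) ^ n ≤ (3 * r) ^ n := pow_le_pow_left₀ (by positivity) (by linarith) n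
      have e2 : c * b * (a + b) ^ n ≤ c * (b / r) * (3 * r) ^ n * r := by
        have : c * (b / r) * (3 * r) ^ n * r = c * b * (3 * r) ^ n := by field_simp
        rw [this]
        exact mul_le_mul_of_nonneg_left e1 (by positivity)
      have e3 : c * a * (b / r) * (3 * r) ^ n ≤ c * (b / r) * (3 * r) ^ n * r := by
        have : c * a * (b / r) * (3 * r) ^ n = c * (b / r) * (3 * r) ^ n * a := by ring
        rw [this]
        exact mul_le_mul_of_nonneg_left ha (by positivity)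
      have e4 : 0 ≤ c * (b / r) * (3 * r) ^ n * r := by positivity
      rw [pow_succ]
      nlinarith
    · rw [a5_cons (P p θ) (Y p θ + H p θ), a5_cons (P p θ) (Y p θ), map_add,
        add_apply]
      abel

theorem a5_second {Λ : Type} [PseudoMetricSpace Λ] {ρ a b c r : ℝ} (hρ : 0 ≤ ρ) (hr : 0 < r)
    (n : ℕ) {P : Λ → T N → ContinuousMultilinearMap ℝ (fun _ : Fin n => X) F}
    {Y H : Λ → T N → X} (hP : Bd ρ P c) (hY : Bd ρ Y a) (hH : Bd ρ H b) (ha : a ≤ r)
    (hb : b ≤ r) :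
    Bd ρ (fun p θ => P p θ (fun _ => Y p θ + H p θ) - P p θ (fun _ => Y p θ)
      - a5_D (P p θ) (Y p θ) (H p θ)) (c * (b / r) ^ 2 * (3 * r) ^ n) := by
  have ha0 := hY.nonneg
  have hb0 := hH.nonneg
  induction n generalizing c with
  | zero =>
    have hc0 := hP.nonneg
    refine ((Bd.zero ρ).mono le_rfl (by positivity)).congr fun p θ => ?_
    rw [a5_D_zero, sub_zero, sub_eq_zero]
    congr 1
    exact Subsingleton.elim _ _
  | succ n ih =>
    have hc0 := hP.nonneg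
    have h1 := ih (a5_curry hρ hP hY)
    have h2 := a5_first hρ hr n (a5_curry hρ hP hH) hY hH ha hb
    refine ((h1.add h2).mono le_rfl ?_).congr fun p θ => ?_
    · have e2 : c * b * (b / r) * (3 * r) ^ n = c * (b / r) ^ 2 * (3 * r) ^ n * r := by
        field_simp
      have e3 : c * a * (b / r) ^ 2 * (3 * r) ^ n ≤ c * (b / r) ^ 2 * (3 * r) ^ n * r := by
        have : c * a * (b / r) ^ 2 * (3 * r) ^ n = c * (b / r) ^ 2 * (3 * r) ^ n * a := by ring
        rw [this]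
        exact mul_le_mul_of_nonneg_left ha (by positivity)
      have e4 : 0 ≤ c * (b / r) ^ 2 * (3 * r) ^ n * r := by positivity
      rw [pow_succ (3 * r), e2]
      nlinarith
    · rw [a5_cons (P p θ) (Y p θ + H p θ), a5_cons (P p θ) (Y p θ), map_add,
        add_apply, a5_D_succ]
      abel

omit [CompleteSpace F] in
theorem a5_D_le {r : ℝ} (hr : 0 < r) (n : ℕ)
    (P : ContinuousMultilinearMap ℝ (fun _ : Fin n => X) F) {y : X} (hy : ‖y‖ ≤ r) (h : X) :
    ‖a5_D P y h‖ ≤ ‖P‖ / r * (3 * r) ^ n * ‖h‖ := by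
  induction n with
  | zero =>
    rw [a5_D_zero, norm_zero]
    positivity
  | succ n ih =>
    rw [a5_D_succ]
    have h1 := ih (P.curryLeft y)
    have h2 : ‖P.curryLeft y‖ ≤ ‖P‖ * r := by
      refine ((P.curryLeft).le_opNorm y).trans ?_
      rw [ContinuousMultilinearMap.curryLeft_norm]
      exact mul_le_mul_of_nonneg_left hy (norm_nonneg _)
    have h3 : ‖P.curryLeft h‖ ≤ ‖P‖ * ‖h‖ := by
      refine ((P.curryLeft).le_opNorm h).trans ?_
      rw [ContinuousMultilinearMap.curryLeft_norm]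
    have h4 : ‖P.curryLeft h (fun _ => y)‖ ≤ ‖P‖ * ‖h‖ * (3 * r) ^ n := by
      refine ((P.curryLeft h).le_opNorm _).trans ?_
      rw [Finset.prod_const, Finset.card_univ, Fintype.card_fin]
      exact mul_le_mul h3 (pow_le_pow_left₀ (norm_nonneg _) (by linarith) n) (by positivity)
        (by positivity)
    have h5 : ‖P.curryLeft y‖ / r * (3 * r) ^ n * ‖h‖ ≤ ‖P‖ * ‖h‖ * (3 * r) ^ n := by
      have : ‖P.curryLeft y‖ / r ≤ ‖P‖ := by rw [div_le_iff₀ hr]; exact h2
      calc _ ≤ ‖P‖ * (3 * r) ^ n * ‖h‖ := by gcongr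
        _ = _ := by ring
    have h6 : ‖P‖ / r * (3 * r) ^ (n + 1) * ‖h‖ = 3 * (‖P‖ * ‖h‖ * (3 * r) ^ n) := by
      rw [pow_succ]
      field_simp
    have h7 : 0 ≤ ‖P‖ * ‖h‖ * (3 * r) ^ n := by positivity
    rw [h6]
    refine (norm_add_le _ _).trans ?_
    linarith

/-- The derivative of x ↦ P (x, ..., x) at y. -/
noncomputable def a5_L {n : ℕ} (P : ContinuousMultilinearMap ℝ (fun _ : Fin n => X) F)
    (y : X) : X →L[ℝ] F :=
  (P.linearDeriv (fun _ => y)).comp (ContinuousLinearMap.pi fun _ => ContinuousLinearMap.id ℝ X)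

omit [CompleteSpace F] in
theorem a5_L_apply {n : ℕ} (P : ContinuousMultilinearMap ℝ (fun _ : Fin n => X) F) (y h : X) :
    a5_L P y h = a5_D P y h := by
  simp [a5_L, a5_D]

omit [CompleteSpace F] in
theorem a5_L_deriv {n : ℕ} (P : ContinuousMultilinearMap ℝ (fun _ : Fin n => X) F) (y : X) :
    HasFDerivAt (fun x => P (fun _ => x)) (a5_L P y) y :=
  (P.hasFDerivAt (fun _ => y)).comp y
    (ContinuousLinearMap.pi fun _ : Fin n => ContinuousLinearMap.id ℝ X).hasFDerivAt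

set_option linter.unusedSectionVars false in
theorem Tay.mono {G : X → F} {r C r' C' : ℝ} (h : Tay N G r C) (h0 : 0 < r') (hr : r' ≤ r)
    (hC : C ≤ C') : Tay N G r' C' := by
  obtain ⟨-, h2, h3, h4⟩ := h
  refine ⟨h0, h2.trans hC, fun x hx => h3 x (by linarith), ?_⟩
  intro Λ _ ρ a b Y H hρ hY hH ha hb
  obtain ⟨k1, k2, k3⟩ := h4 Λ ρ a b Y H hρ hY hH (ha.trans hr) (hb.trans hr)
  have hb0 := hH.nonneg
  exact ⟨k1.mono le_rfl hC, k2.mono le_rfl (mul_le_mul_of_nonneg_right hC hb0),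
    k3.mono le_rfl (mul_le_mul_of_nonneg_right hC (by positivity))⟩

/-- Take a power series p on a ball; expand G, G (y + h) - G y and the second order remainder
term by term, bound the terms by Bd.multilin, a5_first, a5_second and sum with Bd.series. -/
theorem exists_tay (N : ℕ) {G : X → F} (hG : AnalyticAt ℝ G 0) : ∃ r C, Tay N G r C := by
  obtain ⟨q, R, hq⟩ := hG
  obtain ⟨s, hs0, hsR⟩ := ENNReal.lt_iff_exists_nnreal_btwn.1 hq.r_pos
  have hs : (0 : ℝ) < s := by exact_mod_cast hs0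
  obtain ⟨r, hr⟩ : ∃ r : ℝ, (s : ℝ) = 3 * r := ⟨s / 3, by ring⟩
  have hr0 : 0 < r := by linarith
  have hsum : Summable fun n => ‖q n‖ * (3 * r) ^ n := by
    rw [← hr]
    exact q.summable_norm_mul_pow (hsR.trans_le hq.r_le)
  have hmem : ∀ x : X, ‖x‖ < r → x ∈ Metric.eball (0 : X) R := by
    intro x hx
    rw [Metric.mem_eball, edist_zero_right]
    refine lt_trans ?_ hsR
    rw [enorm_eq_nnnorm, ENNReal.coe_lt_coe, ← NNReal.coe_lt_coe, coe_nnnorm]
    linarith
  have hG0 : ∀ x : X, ‖x‖ < r → HasSum (fun n => q n (fun _ => x)) (G x) := by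
    intro x hx
    have := hq.hasSum (hmem x hx)
    rwa [zero_add] at this
  have hL : ∀ (n : ℕ) (x : X), x ∈ Metric.ball (0 : X) r →
      ‖a5_L (q n) x‖ ≤ ‖q n‖ * (3 * r) ^ n / r := by
    intro n x hx
    rw [mem_ball_zero_iff] at hx
    refine ContinuousLinearMap.opNorm_le_bound _ (by positivity) fun h => ?_
    rw [a5_L_apply]
    refine (a5_D_le hr0 n (q n) hx.le h).trans (le_of_eq ?_)
    ring
  have hD : ∀ x : X, ‖x‖ < r → HasFDerivAt G (∑' n, a5_L (q n) x) x := by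
    intro x hx
    have h1 := hasFDerivAt_tsum_of_isPreconnected (hsum.div_const r) Metric.isOpen_ball
      (convex_ball (0 : X) r).isPreconnected (f := fun n y => q n (fun _ => y))
      (fun n y _ => a5_L_deriv (q n) y) hL (Metric.mem_ball_self hr0)
      (hG0 0 (by simpa using hr0)).summable (mem_ball_zero_iff.2 hx)
    refine h1.congr_of_eventuallyEq ?_
    filter_upwards [Metric.isOpen_ball.mem_nhds (mem_ball_zero_iff.2 hx)] with y hy
    exact (hG0 y (mem_ball_zero_iff.1 hy)).tsum_eq.symm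
  have hD' : ∀ x h : X, ‖x‖ < r → HasSum (fun n => a5_D (q n) x h) (fderiv ℝ G x h) := by
    intro x h hx
    have h1 : Summable fun n => a5_L (q n) x :=
      Summable.of_norm_bounded (hsum.div_const r) fun n => hL n x (mem_ball_zero_iff.2 hx)
    have h2 := (ContinuousLinearMap.apply ℝ F h).hasSum h1.hasSum
    rw [(hD x hx).fderiv]
    simpa [a5_L_apply] using h2
  obtain ⟨S, hS⟩ : ∃ S, S = ∑' n, ‖q n‖ * (3 * r) ^ n := ⟨_, rfl⟩
  have hS0 : 0 ≤ S := hS ▸ tsum_nonneg fun n => by positivity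
  have i1 : 0 ≤ S / r := by positivity
  have i2 : 0 ≤ S / r ^ 2 := by positivity
  refine ⟨r / 4, S + S / r + S / r ^ 2, by positivity, by positivity,
    fun x hx => (hD x (by linarith)).differentiableAt, ?_⟩
  intro Λ _ ρ a b Y H hρ hY hH ha hb
  have ha0 := hY.nonneg
  have hb0 := hH.nonneg
  have hY1 : ∀ p θ, ‖Y p θ‖ < r := fun p θ => (hY.norm_le hρ p θ).trans_lt (by linarith)
  have hY2 : ∀ p θ, ‖Y p θ + H p θ‖ < r := fun p θ =>
    ((hY.add hH).norm_le hρ p θ).trans_lt (by linarith)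
  refine ⟨?_, ?_, ?_⟩
  · have h1 := Bd.series hρ (fun n => (Bd.multilin hρ n (Bd.const ρ (q n)) hY).mono le_rfl
      (mul_le_mul_of_nonneg_left (pow_le_pow_left₀ ha0 (by linarith : a ≤ 3 * r) n)
        (norm_nonneg _))) hsum
    rw [← hS] at h1
    exact (h1.mono le_rfl (by linarith)).congr fun p θ => (hG0 _ (hY1 p θ)).tsum_eq.symm
  · have h1 := Bd.series hρ (m := fun n => ‖q n‖ * (3 * r) ^ n * (b / r))
      (fun n => (a5_first hρ hr0 n (Bd.const ρ (q n)) hY hH (by linarith)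
        (by linarith)).mono le_rfl (le_of_eq (by ring))) (hsum.mul_right _)
    rw [tsum_mul_right, ← hS] at h1
    refine (h1.mono le_rfl ?_).congr fun p θ =>
      ((hG0 _ (hY2 p θ)).sub (hG0 _ (hY1 p θ))).tsum_eq.symm
    have e : S * (b / r) = S / r * b := by ring
    rw [e]
    exact mul_le_mul_of_nonneg_right (by linarith) hb0
  · have h1 := Bd.series hρ (m := fun n => ‖q n‖ * (3 * r) ^ n * (b / r) ^ 2)
      (fun n => (a5_second hρ hr0 n (Bd.const ρ (q n)) hY hH (by linarith)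
        (by linarith)).mono le_rfl (le_of_eq (by ring))) (hsum.mul_right _)
    rw [tsum_mul_right, ← hS] at h1
    refine (h1.mono le_rfl ?_).congr fun p θ =>
      (((hG0 _ (hY2 p θ)).sub (hG0 _ (hY1 p θ))).sub (hD' _ _ (hY1 p θ))).tsum_eq.symm
    have e : S * (b / r) ^ 2 = S / r ^ 2 * b ^ 2 := by ring
    rw [e]
    exact mul_le_mul_of_nonneg_right (by linarith) (by positivity)

/-- Inverses of small perturbations of the identity: compose with x ↦ Ring.inverse (1 + x), which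
is analytic at 0; take r < 1. -/
theorem exists_inv (N : ℕ) (V : Type) [NormedAddCommGroup V] [NormedSpace ℝ V] [CompleteSpace V] :
    ∃ r C : ℝ, 0 < r ∧ 0 ≤ C ∧ ∀ (Λ : Type) [PseudoMetricSpace Λ] (ρ : ℝ)
      (x : Λ → T N → V →L[ℝ] V), 0 ≤ ρ → Bd ρ x r →
        Bd ρ (fun p θ => Ring.inverse (1 + x p θ)) C ∧
        ∀ p θ, (1 + x p θ) * Ring.inverse (1 + x p θ) = 1 ∧
          Ring.inverse (1 + x p θ) * (1 + x p θ) = 1 := by
  have h0 : AnalyticAt ℝ (fun x : V →L[ℝ] V => Ring.inverse (1 + x)) 0 := by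
    have h1 : AnalyticAt ℝ (Ring.inverse : (V →L[ℝ] V) → V →L[ℝ] V)
        ((fun x : V →L[ℝ] V => 1 + x) 0) := by
      have := analyticAt_inverse (𝕜 := ℝ) (1 : (V →L[ℝ] V)ˣ)
      simpa using this
    exact h1.comp (analyticAt_const.add analyticAt_id)
  obtain ⟨r, C, hT⟩ := exists_tay N h0
  have hr := hT.1
  have hT' : Tay N (fun x : V →L[ℝ] V => Ring.inverse (1 + x)) (min r (1 / 2)) C :=
    hT.mono (by positivity) (min_le_left _ _) le_rfl
  refine ⟨min r (1 / 2), C, hT'.1, hT'.2.1, ?_⟩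
  intro Λ _ ρ x hρ hx
  refine ⟨(hT'.2.2.2 Λ ρ _ _ x x hρ hx hx le_rfl le_rfl).1, fun p θ => ?_⟩
  have h1 : ‖-x p θ‖ < 1 := by
    rw [norm_neg]
    exact (hx.norm_le hρ p θ).trans_lt ((min_le_right _ _).trans_lt (by norm_num))
  have h2 : IsUnit (1 + x p θ) := by
    have := (Units.oneSub (-x p θ) h1).isUnit
    simpa using this
  exact ⟨Ring.mul_inverse_cancel _ h2, Ring.inverse_mul_cancel _ h2⟩

end Pool.Agent.MP_28624d_gt.K

end
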