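import Pool.Agent.MP_28624d_gt.Mg.K_KB
import Pool.Agent.MP_28624d_gt.Mg.K_KF

-- part MP_28624d_gt.K.KC
section

section

/-!
Objects of the Newton step of the parameterization method.
-/

set_option maxSynthPendingDepth 3

namespace Pool.Agent.MP_28624d_gt.K

open Real Filter Topology

/-- The extended space of points (ε, u, m, ν). -/
abbrev XX (N : ℕ) (E P : Type) : Type := ℝ × E × T N × P

variable {N : ℕ} {Λ : Type} {E P : Type} [NormedAddCommGroup E] [NormedSpace ℝ E]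
  [NormedAddCommGroup P] [NormedSpace ℝ P]

/-- The inclusion of the phase space. -/
def iu (N : ℕ) (E P : Type) [NormedAddCommGroup E] [NormedSpace ℝ E] [NormedAddCommGroup P]
    [NormedSpace ℝ P] : E →L[ℝ] XX N E P :=
  (ContinuousLinearMap.inr ℝ ℝ (E × T N × P)).comp (ContinuousLinearMap.inl ℝ E (T N × P))

/-- The inclusion of the frequency parameters. -/
def im (N : ℕ) (E P : Type) [NormedAddCommGroup E] [NormedSpace ℝ E] [NormedAddCommGroup P]
    [NormedSpace ℝ P] : T N →L[ℝ] XX N E P :=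
  (ContinuousLinearMap.inr ℝ ℝ (E × T N × P)).comp
    ((ContinuousLinearMap.inr ℝ E (T N × P)).comp (ContinuousLinearMap.inl ℝ (T N) P))

@[simp] theorem iu_apply (u : E) : iu N E P u = (0, u, 0, 0) := rfl

@[simp] theorem im_apply (m : T N) : im N E P m = (0, 0, m, 0) := rfl

theorem norm_iu_le : ‖iu N E P‖ ≤ 1 :=
  ContinuousLinearMap.opNorm_le_bound _ zero_le_one fun u => by simp [Prod.norm_def]

theorem norm_im_le : ‖im N E P‖ ≤ 1 :=
  ContinuousLinearMap.opNorm_le_bound _ zero_le_one fun u => by simp [Prod.norm_def]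

/-- A linear form on T N as the vector of its values on the basis. -/
noncomputable def vec (N : ℕ) : (T N →L[ℝ] ℝ) →L[ℝ] T N :=
  ContinuousLinearMap.pi fun i => ContinuousLinearMap.apply ℝ ℝ (Pi.single i 1)

@[simp] theorem vec_apply (a : T N →L[ℝ] ℝ) (i : Fin N) : vec N a i = a (Pi.single i 1) := rfl

theorem norm_vec_le : ‖vec N‖ ≤ 1 :=
  ContinuousLinearMap.opNorm_le_bound _ zero_le_one fun a => by
    rw [one_mul]
    refine (pi_norm_le_iff_of_nonneg (norm_nonneg _)).2 fun i => ?_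
    simpa [Pi.norm_single] using a.le_opNorm (Pi.single i 1)

/-- flat Z v i = Z (e i) v. -/
noncomputable def flat (N : ℕ) (E : Type) [NormedAddCommGroup E] [NormedSpace ℝ E] :
    (T N →L[ℝ] E →L[ℝ] ℝ) →L[ℝ] E →L[ℝ] T N :=
  ((ContinuousLinearMap.compL ℝ E (T N →L[ℝ] ℝ) (T N)) (vec N)).comp
    (ContinuousLinearMap.flipₗᵢ ℝ (T N) E ℝ).toLinearIsometry.toContinuousLinearMap

@[simp] theorem flat_apply (Z : T N →L[ℝ] E →L[ℝ] ℝ) (v : E) (i : Fin N) :
    flat N E Z v i = Z (Pi.single i 1) v := rfl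

theorem norm_flat_le : ‖flat N E‖ ≤ 1 :=
  ContinuousLinearMap.opNorm_le_bound _ zero_le_one fun Z => by
    rw [one_mul]
    refine ContinuousLinearMap.opNorm_le_bound _ (norm_nonneg _) fun v => ?_
    refine (pi_norm_le_iff_of_nonneg (by positivity)).2 fun i => ?_
    simpa [Pi.norm_single] using Z.le_opNorm₂ (Pi.single i 1) v

/-- The torus in the extended space. -/
def Yf (ε : ℝ) (K : Λ → T N → E) (m : Λ → T N) (ν : Λ → P) (p : Λ) (θ : T N) : XX N E P :=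
  (ε, K p θ, m p, ν p)

/-- The tangent frame. -/
noncomputable def Lf (K : Λ → T N → E) (p : Λ) (θ : T N) : T N →L[ℝ] E := fderiv ℝ (K p) θ

/-- The derivative in the phase space direction. -/
noncomputable def Au (F : XX N E P → E) (y : XX N E P) : E →L[ℝ] E :=
  (fderiv ℝ F y).comp (iu N E P)

/-- The derivative in the direction of the frequency parameters. -/
noncomputable def Bm (F : XX N E P → E) (y : XX N E P) : T N →L[ℝ] E :=
  (fderiv ℝ F y).comp (im N E P)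

/-- The pairing with the tangent frame. -/
noncomputable def Uf (Ω : XX N E P → E →L[ℝ] E →L[ℝ] ℝ) (y : XX N E P) (L : T N →L[ℝ] E) :
    E →L[ℝ] T N :=
  flat N E ((Ω y).comp L)

/-- The invariance error. -/
def Ef (F : XX N E P → E) (ω : Λ → T N) (ε : ℝ) (K : Λ → T N → E) (m : Λ → T N) (ν : Λ → P)
    (p : Λ) (θ : T N) : E :=
  F (Yf ε K m ν p θ) - K p (θ + ω p)

/-- Analytic data: Taylor bounds for the map, the primitive and the form; dα = Ω. -/
structure An (F : XX N E P → E) (α : XX N E P → E →L[ℝ] ℝ)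
    (Ω : XX N E P → E →L[ℝ] E →L[ℝ] ℝ) (r C : ℝ) : Prop where
  tF : Tay N F r C
  tDF : Tay N (fderiv ℝ F) r C
  tα : Tay N α r C
  tDα : Tay N (fderiv ℝ α) r C
  tΩ : Tay N Ω r C
  dα : ∀ x : XX N E P, ‖x‖ ≤ r → ∀ v w,
    Ω x v w = fderiv ℝ α x (iu N E P v) w - fderiv ℝ α x (iu N E P w) v

/-- The map at level ε is exact symplectic on the ball of radius r. -/
structure Ex (F : XX N E P → E) (α : XX N E P → E →L[ℝ] ℝ)
    (Ω : XX N E P → E →L[ℝ] E →L[ℝ] ℝ) (r ε : ℝ) : Prop where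
  inv : ∀ (u : E) (m : T N) (ν : P), ‖((ε, u, m, ν) : XX N E P)‖ ≤ r → ∀ v w,
    Ω (ε, F (ε, u, m, ν), m, ν) (Au F (ε, u, m, ν) v) (Au F (ε, u, m, ν) w) = Ω (ε, u, m, ν) v w
  exact : ∀ (m : T N) (ν : P), ∃ S : E → ℝ, ∀ u : E, ‖((ε, u, m, ν) : XX N E P)‖ ≤ r →
    HasFDerivAt S ((α (ε, F (ε, u, m, ν), m, ν)).comp (Au F (ε, u, m, ν)) - α (ε, u, m, ν)) u

variable [PseudoMetricSpace Λ]

/-- Frames adapted to the torus (K, m), with bound D at radius ρ. -/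
structure Fr (F : XX N E P → E) (Ω : XX N E P → E →L[ℝ] E →L[ℝ] ℝ) (ω : Λ → T N) (ε : ℝ)
    (K : Λ → T N → E) (m : Λ → T N) (ν : Λ → P) (ρ D : ℝ) (Nn : Λ → T N → T N →L[ℝ] E)
    (Q : Λ → T N → E →L[ℝ] T N × T N) (ub : Λ → T N → T N →L[ℝ] T N)
    (Ti : Λ → T N →L[ℝ] T N) : Prop where
  bL : Bd ρ (Lf K) D
  bN : Bd ρ Nn D
  bQ : Bd ρ Q D
  bT : Bd ρ (fun p (_ : T N) => Ti p) D
  bu : ∃ ρ' M, 0 < ρ' ∧ Bd ρ' ub M
  un : ∀ p θ v, Uf Ω (Yf ε K m ν p θ) (Lf K p θ) (Nn p θ v) = v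
  pq : ∀ p θ v, Lf K p θ (Q p θ v).1 + Nn p θ (Q p θ v).2 = v
  u1 : ∀ p θ, ub p θ - ub p (θ + ω p) =
    -((ContinuousLinearMap.snd ℝ (T N) (T N)).comp
        ((Q p (θ + ω p)).comp (Bm F (Yf ε K m ν p θ)))) -
      avg fun η => -((ContinuousLinearMap.snd ℝ (T N) (T N)).comp
        ((Q p (η + ω p)).comp (Bm F (Yf ε K m ν p η))))
  u2 : ∀ p, avg (ub p) = 0
  ti : ∀ p v, avg (fun θ => (ContinuousLinearMap.fst ℝ (T N) (T N)).comp ((Q p (θ + ω p)).comp
      (Bm F (Yf ε K m ν p θ) + (Au F (Yf ε K m ν p θ)).comp ((Nn p θ).comp (ub p θ)))))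
        (Ti p v) = v

/-- The unperturbed family of invariant tori with its frames. -/
structure Base (F : XX N E P → E) (Ω : XX N E P → E →L[ℝ] E →L[ℝ] ℝ) (ω : Λ → T N)
    (K0 : Λ → T N → E) (m0 : Λ → T N) (ν : Λ → P) (r C : ℝ) (N0 : Λ → T N → T N →L[ℝ] E)
    (Q0 : Λ → T N → E →L[ℝ] T N × T N) (W0 : Λ → T N → T N →L[ℝ] T N) : Prop where
  bY : Bd 1 (Yf 0 K0 m0 ν) (r / 16)
  bL : Bd 1 (Lf K0) C
  bN : Bd 1 N0 C
  bQ : Bd 1 Q0 C
  bW : Bd 1 W0 C
  pq : ∀ p θ v, Lf K0 p θ (Q0 p θ v).1 + N0 p θ (Q0 p θ v).2 = v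
  qp : ∀ p θ a b, Q0 p θ (Lf K0 p θ a + N0 p θ b) = (a, b)
  w1 : ∀ p θ v, Uf Ω (Yf 0 K0 m0 ν p θ) (Lf K0 p θ) (N0 p θ (W0 p θ v)) = v
  w2 : ∀ p θ v, W0 p θ (Uf Ω (Yf 0 K0 m0 ν p θ) (Lf K0 p θ) (N0 p θ v)) = v
  f0 : ∀ p θ, F (Yf 0 K0 m0 ν p θ) = K0 p (θ + ω p)
  b0 : ∀ p θ, Bm F (Yf 0 K0 m0 ν p θ) = Lf K0 p (θ + ω p)

end Pool.Agent.MP_28624d_gt.K

end

section

/-!
Bookkeeping for the Newton step, the Lagrangian defect and the vanishing lemma.
-/

set_option maxSynthPendingDepth 3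

namespace Pool.Agent.MP_28624d_gt.K

open Real Filter Topology

/-- The constants of one Newton step. -/
structure B1c (N : ℕ) (Λ : Type) [PseudoMetricSpace Λ] where
  ρ : ℝ
  δ : ℝ
  D : ℝ
  e : ℝ
  r : ℝ
  γ : ℝ
  τ : ℕ
  ω : Λ → T N
  dio : Dio ω γ τ
  δ0 : 0 < δ
  δ1 : δ ≤ 1
  δρ : 10 * δ ≤ ρ
  D4 : 4 ≤ D
  Dδ : 1 / δ ≤ D
  Ds : sol γ τ δ ≤ D
  e0 : 0 ≤ e
  e1 : e ≤ 1
  sm : D ^ 99 * e ≤ r / 8

variable {N : ℕ} {Λ : Type} [PseudoMetricSpace Λ] {c : B1c N Λ}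

section book

variable {E F G : Type} [NormedAddCommGroup E] [NormedSpace ℝ E] [NormedAddCommGroup F]
  [NormedSpace ℝ F] [NormedAddCommGroup G] [NormedSpace ℝ G] {l l' a a' j j' : ℕ}

/-- Level l, size D ^ a * e ^ j. -/
def B1k (c : B1c N Λ) (l a j : ℕ) (g : Λ → T N → E) : Prop :=
  l ≤ 9 ∧ Bd (c.ρ - l * c.δ) g (c.D ^ a * c.e ^ j)

theorem B1c.lev (c : B1c N Λ) (h : l ≤ l') : c.ρ - l' * c.δ ≤ c.ρ - l * c.δ := by
  have : (l : ℝ) ≤ l' := by exact_mod_cast h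
  nlinarith [c.δ0]

theorem B1c.two (c : B1c N Λ) (h : l ≤ 8) : 2 * c.δ ≤ c.ρ - l * c.δ := by
  have := c.lev h
  have := c.δρ
  push_cast at *
  linarith

theorem B1c.pos (c : B1c N Λ) (h : l ≤ 9) : 0 < c.ρ - l * c.δ := by
  have := c.lev h
  have := c.δρ
  have := c.δ0
  push_cast at *
  linarith

theorem B1c.one (c : B1c N Λ) : 1 ≤ c.D := by linarith [c.D4]

theorem B1c.nn (c : B1c N Λ) (a j : ℕ) : 0 ≤ c.D ^ a * c.e ^ j :=
  mul_nonneg (pow_nonneg (by linarith [c.D4]) _) (pow_nonneg c.e0 _)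

theorem B1c.le (c : B1c N Λ) (ha : a ≤ a') (hj : j' ≤ j) :
    c.D ^ a * c.e ^ j ≤ c.D ^ a' * c.e ^ j' :=
  mul_le_mul (pow_le_pow_right₀ c.one ha) (pow_le_pow_of_le_one c.e0 c.e1 hj)
    (pow_nonneg c.e0 _) (pow_nonneg (by linarith [c.D4]) _)

theorem B1c.up (c : B1c N Λ) {x : ℝ} (hx : x ≤ c.D) (a j : ℕ) :
    x * (c.D ^ a * c.e ^ j) ≤ c.D ^ (a + 1) * c.e ^ j := by
  rw [pow_succ]
  nlinarith [c.nn a j]

theorem B1c.small (c : B1c N Λ) (ha : a ≤ 99) (hj : 1 ≤ j) : c.D ^ a * c.e ^ j ≤ c.r / 8 := by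
  have := c.le ha hj
  rw [pow_one] at this
  exact this.trans c.sm

theorem B1c.succ (c : B1c N Λ) (l : ℕ) :
    c.ρ - ((l + 1 : ℕ) : ℝ) * c.δ = c.ρ - l * c.δ - c.δ := by
  push_cast
  ring

variable {g h : Λ → T N → E}

theorem B1k.mono (hg : B1k c l a j g) (H : l ≤ l' ∧ l' ≤ 9 ∧ a ≤ a' ∧ j' ≤ j) :
    B1k c l' a' j' g :=
  ⟨H.2.1, hg.2.mono (c.lev H.1) (c.le H.2.2.1 H.2.2.2)⟩

theorem B1k.congr (hg : B1k c l a j g) (hh : ∀ p θ, h p θ = g p θ) : B1k c l a j h :=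
  ⟨hg.1, hg.2.congr hh⟩

theorem B1k.cont (hg : B1k c l a j g) (p : Λ) : Continuous (g p) :=
  hg.2.continuous (c.pos hg.1) p

theorem B1k.per (hg : B1k c l a j g) (p : Λ) : Per (g p) := hg.2.per p

theorem B1k.c1 [CompleteSpace E] (hg : B1k c l a j g) (p : Λ) : ContDiff ℝ 1 (g p) :=
  hg.2.contDiff_one (c.pos hg.1) p

theorem B1k.ofD (hg : Bd c.ρ g c.D) : B1k c 0 1 0 g :=
  ⟨by decide, hg.mono (by simp) (by simp)⟩

theorem B1k.const (c : B1c N Λ) {v : E} (hv : ‖v‖ ≤ 1) : B1k c 0 0 0 (fun _ _ => v) :=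
  ⟨by decide, (Bd.const _ v).mono le_rfl (by simpa using hv)⟩

theorem B1k.add (hg : B1k c l a j g) (hh : B1k c l' a' j' h) :
    B1k c (max l l') (max a a' + 1) (min j j') (fun p θ => g p θ + h p θ) := by
  have hl := max_le hg.1 hh.1
  have h1 := (hg.mono ⟨le_max_left l l', hl, le_max_left a a', min_le_left j j'⟩).2
  have h2 := (hh.mono ⟨le_max_right l l', hl, le_max_right a a', min_le_right j j'⟩).2
  refine ⟨hl, (h1.add h2).mono le_rfl ?_⟩
  have := c.up (x := 2) (by linarith [c.D4]) (max a a') (min j j')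
  linarith

theorem B1k.neg (hg : B1k c l a j g) : B1k c l a j (fun p θ => -g p θ) := ⟨hg.1, hg.2.neg⟩

theorem B1k.sub (hg : B1k c l a j g) (hh : B1k c l' a' j' h) :
    B1k c (max l l') (max a a' + 1) (min j j') (fun p θ => g p θ - h p θ) :=
  (hg.add hh.neg).congr fun _ _ => sub_eq_add_neg _ _

theorem B1k.clm (hg : B1k c l a j g) (L : E →L[ℝ] F) (hL : ‖L‖ ≤ 1) :
    B1k c l a j (fun p θ => L (g p θ)) :=
  ⟨hg.1, (hg.2.clm L hL).mono le_rfl (by rw [one_mul])⟩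

theorem B1k.app [CompleteSpace F] {A : Λ → T N → E →L[ℝ] F} (hA : B1k c l a j A)
    (hh : B1k c l' a' j' h) :
    B1k c (max l l') (a + a') (j + j') (fun p θ => A p θ (h p θ)) := by
  have hl := max_le hA.1 hh.1
  refine ⟨hl, (Bd.app (c.pos hl).le (hA.2.mono (c.lev (le_max_left l l')) le_rfl)
    (hh.2.mono (c.lev (le_max_right l l')) le_rfl)).mono le_rfl (le_of_eq ?_)⟩
  ring

theorem B1k.comp [CompleteSpace G] {A : Λ → T N → F →L[ℝ] G} {B : Λ → T N → E →L[ℝ] F}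
    (hA : B1k c l a j A) (hB : B1k c l' a' j' B) :
    B1k c (max l l') (a + a') (j + j') (fun p θ => (A p θ).comp (B p θ)) := by
  have hl := max_le hA.1 hB.1
  refine ⟨hl, (Bd.comp (c.pos hl).le (hA.2.mono (c.lev (le_max_left l l')) le_rfl)
    (hB.2.mono (c.lev (le_max_right l l')) le_rfl)).mono le_rfl (le_of_eq ?_)⟩
  ring

theorem B1k.fst {g : Λ → T N → E × F} (hg : B1k c l a j g) :
    B1k c l a j (fun p θ => (g p θ).1) :=
  hg.clm (ContinuousLinearMap.fst ℝ E F) (ContinuousLinearMap.norm_fst_le ℝ E F)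

theorem B1k.snd {g : Λ → T N → E × F} (hg : B1k c l a j g) :
    B1k c l a j (fun p θ => (g p θ).2) :=
  hg.clm (ContinuousLinearMap.snd ℝ E F) (ContinuousLinearMap.norm_snd_le ℝ E F)

variable [CompleteSpace E]

theorem B1k.shift (hg : B1k c l a j g) : B1k c l (a + 1) j (fun p θ => g p (θ + c.ω p)) :=
  ⟨hg.1, (hg.2.shift (c.pos hg.1).le c.dio.1).mono le_rfl (c.up c.D4 a j)⟩

theorem B1k.der (hg : B1k c l a j g) (hl : l ≤ 8) :
    B1k c (l + 1) (a + 1) j (fun p θ => fderiv ℝ (g p) θ) := by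
  refine ⟨by omega, ?_⟩
  rw [c.succ]
  refine (hg.2.der c.δ0 (by linarith [c.two hl, c.δ0])).mono le_rfl ?_
  rw [div_eq_inv_mul, ← one_div]
  exact c.up c.Dδ a j

theorem B1k.solve (hg : B1k c l a j g) (hl : l ≤ 8) : ∃ u : Λ → T N → E,
    B1k c (l + 1) (a + 1) j u ∧ ∀ p θ, u p θ - u p (θ + c.ω p) = g p θ - avg (g p) := by
  obtain ⟨u, h1, h2, -⟩ := hg.2.solve c.dio c.δ0 c.δ1 (by linarith [c.two hl, c.δ0])
  refine ⟨u, ⟨by omega, ?_⟩, h2⟩
  rw [c.succ]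
  exact h1.mono le_rfl (c.up c.Ds a j)

theorem B1k.cohom (hg : B1k c l a j g) (hl : l ≤ 8) {u : Λ → T N → E} {ρ' M' : ℝ} (hρ' : 0 < ρ')
    (hu : Bd ρ' u M') (h1 : ∀ p θ, u p θ - u p (θ + c.ω p) = g p θ - avg (g p))
    (h2 : ∀ p, avg (u p) = 0) : B1k c (l + 1) (a + 1) j u := by
  refine ⟨by omega, ?_⟩
  rw [c.succ]
  exact (hg.2.of_cohom c.dio c.δ0 c.δ1 (by linarith [c.two hl, c.δ0]) hρ' hu h1 h2).mono le_rfl
    (c.up c.Ds a j)

theorem B1k.mean (hg : B1k c l a j g) : B1k c l a j (fun p (_ : T N) => avg (g p)) :=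
  ⟨hg.1, hg.2.mean (c.pos hg.1).le⟩

omit [CompleteSpace E]

theorem b1_tay0 {Φ : E → F} (hΦ : Tay N Φ c.r c.D) (hl : l ≤ 9)
    (hY : Bd (c.ρ - l * c.δ) g c.r) : B1k c l 1 0 (fun p θ => Φ (g p θ)) :=
  ⟨hl, (hΦ.2.2.2 Λ _ _ _ _ _ (c.pos hl).le hY (Bd.zero _) le_rfl hΦ.1.le).1.mono le_rfl (by simp)⟩

theorem b1_tay {Φ : E → F} (hΦ : Tay N Φ c.r c.D) (hY : Bd (c.ρ - l * c.δ) g c.r)
    (hh : B1k c l a 1 h) (ha : a ≤ 99) :
    B1k c l (a + 1) 1 (fun p θ => Φ (g p θ + h p θ) - Φ (g p θ)) ∧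
    B1k c l (2 * a + 1) 2
      (fun p θ => Φ (g p θ + h p θ) - Φ (g p θ) - fderiv ℝ Φ (g p θ) (h p θ)) := by
  have := (hΦ.2.2.2 Λ _ _ _ _ _ (c.pos hh.1).le hY hh.2 le_rfl
    (by linarith [c.small ha le_rfl, hΦ.1])).2
  exact ⟨⟨hh.1, this.1.mono le_rfl (c.up le_rfl a 1)⟩,
    hh.1, this.2.mono le_rfl (le_of_eq (by ring))⟩

theorem b1_per_fderiv {f : T N → E} (hf : Per f) : Per (fderiv ℝ f) := by
  intro θ n
  rw [← fderiv_comp_add_right]
  congr 1
  exact funext fun η => hf η n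

theorem b1_lag0 {f : T N → E →L[ℝ] ℝ} {K : T N → E} (hf : Per f) (hf1 : ContDiff ℝ 1 f)
    (hK : Per K) (hK2 : ContDiff ℝ 2 K) (v w : T N) :
    avg (fun θ => fderiv ℝ f θ v (fderiv ℝ K θ w)) =
      avg (fun θ => fderiv ℝ f θ w (fderiv ℝ K θ v)) := by
  have h1 : ContDiff ℝ 1 (fderiv ℝ K) := hK2.fderiv_right (by norm_num)
  have key : ∀ v w : T N, avg (fun θ => f θ (fderiv ℝ (fderiv ℝ K) θ v w)) =
      -avg (fun θ => fderiv ℝ f θ v (fderiv ℝ K θ w)) := by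
    intro v w
    have := avg_ibp (b := fun θ => fderiv ℝ K θ w) hf
      (fun θ n => by simp only [b1_per_fderiv hK θ n]) hf1 (h1.clm_apply contDiff_const)
      (ContinuousLinearMap.id ℝ (E →L[ℝ] ℝ)) v
    simp only [ContinuousLinearMap.id_apply] at this
    rw [← this]
    congr 1
    funext θ
    rw [fderiv_clm_apply (h1.differentiable one_ne_zero θ) (differentiableAt_const w)]
    simp
  rw [← neg_inj, ← key, ← key]
  congr 1
  funext θ
  rw [(hK2.contDiffAt.isSymmSndFDerivAt (by simp)).eq v w]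

theorem b1_avg5 {u q f1 f2 f3 f4 f5 : T N → ℝ} (cq : Continuous q) (c1 : Continuous f1)
    (c2 : Continuous f2) (c3 : Continuous f3) (c4 : Continuous f4) (c5 : Continuous f5)
    (h12 : avg (fun θ => f1 θ - f2 θ) = 0) (h23 : avg f3 = avg f2) (h45 : avg f4 = -avg f5)
    (h : ∀ θ, u θ = q θ - (f1 θ - f3 θ) + (f4 θ + f5 θ)) : avg u = avg q := by
  rw [funext h, avg_add (by fun_prop) (by fun_prop), avg_sub cq (by fun_prop), avg_sub c1 c3,
    avg_add c4 c5]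
  rw [avg_sub c1 c2] at h12
  linarith

end book

variable {E P : Type} [NormedAddCommGroup E] [NormedSpace ℝ E] [CompleteSpace E]
  [NormedAddCommGroup P] [NormedSpace ℝ P] [CompleteSpace P] {F : XX N E P → E}
  {α : XX N E P → E →L[ℝ] ℝ} {Ω : XX N E P → E →L[ℝ] E →L[ℝ] ℝ} {ε : ℝ} {K : Λ → T N → E}
  {m : Λ → T N} {ν : Λ → P} {ρ M : ℝ}

omit [CompleteSpace E] [CompleteSpace P] in
theorem b1_K (hY : Bd ρ (Yf ε K m ν) M) : Bd ρ K M := by
  have := (hY.clm _ (ContinuousLinearMap.norm_snd_le ℝ ℝ (E × T N × P))).clm _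
    (ContinuousLinearMap.norm_fst_le ℝ E (T N × P))
  exact this.mono le_rfl (by simp)

omit [CompleteSpace P] in
theorem b1_dY (hY : Bd ρ (Yf ε K m ν) M) (hρ : 0 < ρ) (p : Λ) (θ : T N) :
    HasFDerivAt (Yf ε K m ν p) ((iu N E P).comp (Lf K p θ)) θ := by
  have h1 := ((iu N E P).hasFDerivAt.comp θ
    ((b1_K hY).differentiable hρ p θ).hasFDerivAt).add_const ((ε, 0, m p, ν p) : XX N E P)
  have h2 : Yf ε K m ν p = fun y => (iu N E P ∘ K p) y + ((ε, 0, m p, ν p) : XX N E P) := by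
    funext y
    simp [Yf]
  rw [h2]
  exact h1

omit [CompleteSpace P] in
theorem b1_chain {r C : ℝ} (hF : Tay N F r C) (hY : Bd ρ (Yf ε K m ν) M) (hρ : 0 < ρ) (hM : M ≤ r)
    (ω : Λ → T N) (p : Λ) (θ v : T N) : Au F (Yf ε K m ν p θ) (Lf K p θ v) =
      Lf K p (θ + ω p) v + fderiv ℝ (Ef F ω ε K m ν p) θ v := by
  have h1 := (hF.2.2.1 _ (by linarith [hY.norm_le hρ.le p θ, hF.1])).hasFDerivAt.comp θ
    (b1_dY hY hρ p θ)
  have h2 : HasFDerivAt (fun y => K p (y + ω p)) (Lf K p (θ + ω p)) θ :=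
    hasFDerivAt_comp_add_right _ |>.2 ((b1_K hY).differentiable hρ p _).hasFDerivAt
  have h3 : HasFDerivAt (Ef F ω ε K m ν p) _ θ := h1.sub h2
  rw [h3.fderiv]
  simp [Au]

omit [CompleteSpace E] [CompleteSpace P] [PseudoMetricSpace Λ] [NormedSpace ℝ P] in
theorem b1_FY [NormedSpace ℝ P] (ω : Λ → T N) (p : Λ) (θ : T N) :
    ((ε, F (ε, K p θ, m p, ν p), m p, ν p) : XX N E P) =
      Yf ε K m ν p (θ + ω p) + iu N E P (Ef F ω ε K m ν p θ) := by
  simp [Yf, Ef]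

/-- The vanishing lemma. -/
theorem b1_van (hA : An F α Ω c.r c.D) (hX : Ex F α Ω c.r ε)
    (hY : Bd (c.ρ - (3 : ℕ) * c.δ) (Yf ε K m ν) (c.r / 4)) {a b : ℕ} (hb : b ≤ 99)
    (hL : B1k c 3 a 0 (Lf K)) (hE : B1k c 3 b 1 (Ef F c.ω ε K m ν)) :
    ∃ q : Λ → T N → T N, B1k c 4 (a + 3 * b + 5) 2 q ∧ ∀ p,
      avg (fun θ => Uf Ω (Yf ε K m ν p (θ + c.ω p)) (Lf K p (θ + c.ω p))
        (Ef F c.ω ε K m ν p θ)) = avg (q p) := by
  have hr := hA.tF.1
  have hρ := c.pos (l := 3) (by decide)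
  have hZ : Bd (c.ρ - (3 : ℕ) * c.δ) (fun p θ => Yf ε K m ν p (θ + c.ω p)) c.r :=
    (hY.shift hρ.le c.dio.1).mono le_rfl (by linarith)
  have hn : ∀ p θ, ‖Yf ε K m ν p θ‖ ≤ c.r := fun p θ => by linarith [hY.norm_le hρ.le p θ]
  have hiE := hE.clm (iu N E P) norm_iu_le
  obtain ⟨t1, t2⟩ := b1_tay hA.tα hZ hiE hb
  have hDE := hE.der (by decide)
  have hAL := hL.shift.add hDE
  have haZ := b1_tay0 hA.tα (by decide) hZ
  have haY := b1_tay0 hA.tα (by decide) (hY.mono le_rfl (by linarith))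
  have hDa := b1_tay0 hA.tDα (by decide) hZ
  have hq := (t2.comp hAL).add ((hDa.app hiE).comp hDE)
  have hU := (((b1_tay0 hA.tΩ (by decide) hZ).comp hL.shift).clm _ norm_flat_le).app hE
  refine ⟨_, (hq.clm _ norm_vec_le).mono (by omega), fun p => ?_⟩
  funext i
  set v : T N := Pi.single i 1 with hv
  have e1 := avg_clm (hU.cont p) (ContinuousLinearMap.proj (R := ℝ) (φ := fun _ : Fin N => ℝ) i)
  have e2 := avg_clm ((hq.clm _ norm_vec_le).cont p)
    (ContinuousLinearMap.proj (R := ℝ) (φ := fun _ : Fin N => ℝ) i)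
  simp only [ContinuousLinearMap.proj_apply] at e1 e2
  refine e1.symm.trans (Eq.trans ?_ e2)
  obtain ⟨S, hS⟩ := hX.exact (m p) (ν p)
  have hKd := (b1_K hY).differentiable hρ p
  have hw := ((t1.add haZ).comp hAL).sub (haY.comp hL)
  have hd : ∀ θ, HasFDerivAt (fun θ => S (K p θ))
      ((α (Yf ε K m ν p (θ + c.ω p) + iu N E P (Ef F c.ω ε K m ν p θ)) -
        α (Yf ε K m ν p (θ + c.ω p)) + α (Yf ε K m ν p (θ + c.ω p))).comp
          (Lf K p (θ + c.ω p) + fderiv ℝ (Ef F c.ω ε K m ν p) θ) -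
        (α (Yf ε K m ν p θ)).comp (Lf K p θ)) θ := by
    intro θ
    refine ((hS (K p θ) (hn p θ)).comp θ (hKd θ).hasFDerivAt).congr_fderiv ?_
    ext1 w
    have := b1_chain hA.tF hY hρ (by linarith) c.ω p θ w
    simp only [sub_add_cancel, sub_apply, ContinuousLinearMap.comp_apply,
      add_apply, ← this, b1_FY c.ω]
    rfl
  have e3 := avg_fderiv (g := fun θ => S (K p θ)) (fun θ n => by simp only [(b1_K hY).per p θ n])
    (contDiff_one_iff_fderiv.2 ⟨fun θ => (hd θ).differentiableAt, by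
      rw [funext fun θ => (hd θ).fderiv]
      exact hw.cont p⟩) v
  simp only [(hd _).fderiv] at e3
  have cv : ∀ {l a j : ℕ} {g : Λ → T N → T N →L[ℝ] ℝ}, B1k c l a j g →
      Continuous fun θ => g p θ v := fun hg => (hg.cont p).clm_apply continuous_const
  have e4 := avg_shift (g := fun θ => (α (Yf ε K m ν p θ)).comp (Lf K p θ) v)
    (fun θ n => by simp only [(haY.comp hL).per p θ n]) (c.ω p)
  have e5 := avg_ibp (haZ.per p) (hE.per p) (haZ.c1 p) (hE.c1 p)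
    (ContinuousLinearMap.id ℝ (E →L[ℝ] ℝ)) v
  have e6 : ∀ θ, fderiv ℝ (fun θ => α (Yf ε K m ν p (θ + c.ω p))) θ v =
      fderiv ℝ α (Yf ε K m ν p (θ + c.ω p)) (iu N E P (Lf K p (θ + c.ω p) v)) := by
    intro θ
    have h1 := (hA.tα.2.2.1 _ (by linarith [hn p (θ + c.ω p)])).hasFDerivAt.comp θ
      ((hasFDerivAt_comp_add_right _).2 (b1_dY hY hρ p (θ + c.ω p)))
    exact congrArg (fun L => L v) h1.fderiv
  simp only [ContinuousLinearMap.id_apply, e6] at e5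
  have c1 := cv ((t1.add haZ).comp hAL)
  have c2 := cv (haY.comp hL)
  have c3 := cv (haZ.comp hL.shift)
  have c4 := cv (haZ.comp hDE)
  have c5 : Continuous fun θ => fderiv ℝ α (Yf ε K m ν p (θ + c.ω p))
      (iu N E P (Lf K p (θ + c.ω p) v)) (Ef F c.ω ε K m ν p θ) :=
    ((hDa.cont p).clm_apply ((iu N E P).continuous.comp
      ((hL.shift.cont p).clm_apply continuous_const))).clm_apply (hE.cont p)
  have c6 := cv hq
  refine b1_avg5 c6 c1 c2 c3 c4 c5 e3 e4 e5 fun θ => ?_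
  simp only [flat_apply, ContinuousLinearMap.comp_apply, add_apply, sub_apply, ← hv,
    hA.dα _ (hn p (θ + c.ω p)), map_add, sub_add_cancel, vec_apply]
  ring

variable {Nn : Λ → T N → T N →L[ℝ] E} {Q : Λ → T N → E →L[ℝ] T N × T N}
  {ub : Λ → T N → T N →L[ℝ] T N} {Ti : Λ → T N →L[ℝ] T N}

omit [CompleteSpace P] in
theorem b1_A {l : ℕ} (hA : An F α Ω c.r c.D) (hl : l ≤ 9)
    (hY : Bd (c.ρ - l * c.δ) (Yf ε K m ν) c.r) :
    B1k c l 1 0 (fun p θ => Au F (Yf ε K m ν p θ)) ∧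
      B1k c l 1 0 (fun p θ => Bm F (Yf ε K m ν p θ)) :=
  ⟨((b1_tay0 hA.tDF hl hY).comp (B1k.const c norm_iu_le)).mono (by omega),
    ((b1_tay0 hA.tDF hl hY).comp (B1k.const c norm_im_le)).mono (by omega)⟩

/-- The defect of the normal part of the reduced cocycle. -/
theorem b1_W (hA : An F α Ω c.r c.D) (hX : Ex F α Ω c.r ε) (hY : Bd c.ρ (Yf ε K m ν) (c.r / 8))
    (hF : Fr F Ω c.ω ε K m ν c.ρ c.D Nn Q ub Ti) (hE : B1k c 0 0 1 (Ef F c.ω ε K m ν)) :
    ∃ W : Λ → T N → T N →L[ℝ] T N, B1k c 2 15 1 W ∧ ∀ p θ v,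
      (Q p (θ + c.ω p) (Au F (Yf ε K m ν p θ) (Nn p θ v))).2 = v + W p θ v := by
  have hr := hA.tF.1
  have hρ : 0 < c.ρ := by linarith [c.δρ, c.δ0]
  have hY0 : Bd (c.ρ - (0 : ℕ) * c.δ) (Yf ε K m ν) c.r := hY.mono (by simp) (by linarith)
  have hZ : Bd (c.ρ - (0 : ℕ) * c.δ) (fun p θ => Yf ε K m ν p (θ + c.ω p)) c.r :=
    (hY.shift hρ.le c.dio.1).mono (by simp) (by linarith)
  have hn : ∀ p θ, ‖Yf ε K m ν p θ‖ ≤ c.r := fun p θ => by linarith [hY.norm_le hρ.le p θ]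
  have hL := B1k.ofD hF.bL
  have hN := B1k.ofD hF.bN
  have hQ := (B1k.ofD hF.bQ).shift
  have hAu := (b1_A hA (by decide) hY0).1
  have hDE := hE.der (by decide)
  have hU := ((b1_tay0 hA.tΩ (by decide) hY0).comp hL).clm _ norm_flat_le
  have hch := b1_chain hA.tF hY hρ (by linarith) c.ω
  obtain ⟨D1, hD1, eD1⟩ : ∃ D1 : Λ → T N → E →L[ℝ] T N, B1k c 1 4 1 D1 ∧ ∀ p θ w,
      Uf Ω (Yf ε K m ν p θ) (Lf K p θ) w =
        Uf Ω (Yf ε K m ν p (θ + c.ω p)) (Lf K p (θ + c.ω p)) (Au F (Yf ε K m ν p θ) w) +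
          D1 p θ (Au F (Yf ε K m ν p θ) w) := by
    have t1 := (b1_tay hA.tΩ hZ (hE.clm (iu N E P) norm_iu_le) (by decide)).1
    refine ⟨_, (((t1.comp (hAu.comp hL)).clm _ norm_flat_le).add
      (((b1_tay0 hA.tΩ (by decide) hZ).comp hDE).clm _ norm_flat_le)).mono (by decide),
      fun p θ w => ?_⟩
    funext i
    have := hX.inv (K p θ) (m p) (ν p) (hn p θ) (Lf K p θ (Pi.single i 1)) w
    rw [b1_FY c.ω] at this
    simp only [Uf, flat_apply, ContinuousLinearMap.comp_apply, add_apply, sub_apply, Pi.add_apply]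
    refine this.symm.trans ?_
    change Ω _ (Au F (Yf ε K m ν p θ) _) (Au F (Yf ε K m ν p θ) _) = _
    rw [hch p θ (Pi.single i 1)]
    simp only [map_add, add_apply]
    ring
  have hLag : B1k c 2 9 1 (fun p θ => (Uf Ω (Yf ε K m ν p θ) (Lf K p θ)).comp (Lf K p θ)) := by
    have hg := (hU.shift.comp hDE).add (hD1.comp (hAu.comp hL))
    have hu := hU.comp hL
    have e1 : ∀ p θ, (Uf Ω (Yf ε K m ν p θ) (Lf K p θ)).comp (Lf K p θ) -
        (Uf Ω (Yf ε K m ν p (θ + c.ω p)) (Lf K p (θ + c.ω p))).comp (Lf K p (θ + c.ω p)) =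
        (Uf Ω (Yf ε K m ν p (θ + c.ω p)) (Lf K p (θ + c.ω p))).comp
          (fderiv ℝ (Ef F c.ω ε K m ν p) θ) +
        (D1 p θ).comp ((Au F (Yf ε K m ν p θ)).comp (Lf K p θ)) := by
      intro p θ
      ext1 v
      simp only [ContinuousLinearMap.comp_apply, add_apply, sub_apply]
      rw [eD1, sub_eq_iff_eq_add]
      nth_rewrite 1 [hch]
      rw [map_add]
      abel
    refine (hg.cohom (by decide) (c.pos hu.1) hu.2 (fun p θ => ?_) fun p => ?_).mono (by decide)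
    · have e2 := avg_sub (hu.cont p) (hu.shift.cont p)
      rw [avg_shift (hu.per p), sub_self] at e2
      have e3 := funext (e1 p)
      simp only [Uf] at e3
      rw [← e3, e2, sub_zero]
      exact e1 p θ
    · ext1 w
      funext i
      have ha := b1_tay0 hA.tα (by decide) hY0
      have e2 := b1_lag0 (ha.per p) (ha.c1 p) ((b1_K hY).per p) ((b1_K hY).contDiff_two hρ p)
        (Pi.single i 1) w
      have e3 : ∀ θ v, fderiv ℝ (fun θ => α (Yf ε K m ν p θ)) θ v =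
          fderiv ℝ α (Yf ε K m ν p θ) (iu N E P (Lf K p θ v)) := by
        intro θ v
        have h1 := (hA.tα.2.2.1 _ (by linarith [hn p θ])).hasFDerivAt.comp θ (b1_dY hY hρ p θ)
        exact congrArg (fun L => L v) h1.fderiv
      have cc : ∀ v w, Continuous fun θ =>
          fderiv ℝ α (Yf ε K m ν p θ) (iu N E P (Lf K p θ v)) (Lf K p θ w) := fun v w =>
        (((b1_tay0 hA.tDα (by decide) hY0).cont p).clm_apply ((iu N E P).continuous.comp
          ((hL.cont p).clm_apply continuous_const))).clm_apply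
            ((hL.cont p).clm_apply continuous_const)
      simp only [e3] at e2
      have e4 := avg_clm ((hu.cont p).clm_apply (continuous_const (y := w)))
        (ContinuousLinearMap.proj (R := ℝ) (φ := fun _ : Fin N => ℝ) i)
      rw [avg_app (hu.cont p)] at e4
      refine e4.symm.trans ?_
      simp only [ContinuousLinearMap.proj_apply, flat_apply, ContinuousLinearMap.comp_apply,
        hA.dα _ (hn p _)]
      rw [avg_sub (cc _ _) (cc _ _)]
      exact sub_eq_zero.2 e2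
  have hS := (B1k.const c (ContinuousLinearMap.norm_fst_le ℝ (T N) (T N))).comp
    (hQ.comp (hAu.comp hN))
  refine ⟨_, ((hD1.comp (hAu.comp hN)).neg.sub (hLag.shift.comp hS)).mono (by decide),
    fun p θ v => ?_⟩
  have e1 := congrArg (Uf Ω (Yf ε K m ν p (θ + c.ω p)) (Lf K p (θ + c.ω p)))
    (hF.pq p (θ + c.ω p) (Au F (Yf ε K m ν p θ) (Nn p θ v)))
  have e2 := eD1 p θ (Nn p θ v)
  rw [map_add, hF.un] at e1
  rw [hF.un, ← e1] at e2
  simp only [ContinuousLinearMap.comp_apply, sub_apply, neg_apply,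
    ContinuousLinearMap.coe_fst']
  rw [← sub_eq_zero] at e2 ⊢
  rw [← neg_eq_zero, ← e2]
  abel

end Pool.Agent.MP_28624d_gt.K

end

section

/-!
The Newton step.
-/

set_option maxSynthPendingDepth 3

namespace Pool.Agent.MP_28624d_gt.K

open Real Filter Topology

variable {N : ℕ} {Λ : Type} [PseudoMetricSpace Λ] {E P : Type} [NormedAddCommGroup E]
  [NormedSpace ℝ E] [CompleteSpace E] [NormedAddCommGroup P] [NormedSpace ℝ P] [CompleteSpace P]

theorem b1_main {c : B1c N Λ} {F : XX N E P → E} {α : XX N E P → E →L[ℝ] ℝ}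
    {Ω : XX N E P → E →L[ℝ] E →L[ℝ] ℝ} {ε : ℝ} {K : Λ → T N → E} {m : Λ → T N} {ν : Λ → P}
    {Nn : Λ → T N → T N →L[ℝ] E} {Q : Λ → T N → E →L[ℝ] T N × T N}
    {ub : Λ → T N → T N →L[ℝ] T N} {Ti : Λ → T N →L[ℝ] T N}
    (hA : An F α Ω c.r c.D) (hX : Ex F α Ω c.r ε) (hY : Bd c.ρ (Yf ε K m ν) (c.r / 8))
    (hF : Fr F Ω c.ω ε K m ν c.ρ c.D Nn Q ub Ti) (hE : B1k c 0 0 1 (Ef F c.ω ε K m ν)) :
    ∃ (K' : Λ → T N → E) (m' : Λ → T N),
      B1k c 8 999 1 (fun p θ => K' p θ - K p θ) ∧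
      B1k c 8 999 1 (fun p θ => Lf K' p θ - Lf K p θ) ∧
      B1k c 8 999 1 (fun p (_ : T N) => m' p - m p) ∧
      B1k c 8 999 2 (Ef F c.ω ε K' m' ν) := by
  have hr := hA.tF.1
  have hρ : 0 < c.ρ := by linarith [c.δρ, c.δ0]
  have hYl : ∀ l : ℕ, Bd (c.ρ - l * c.δ) (Yf ε K m ν) c.r := fun l =>
    hY.mono (sub_le_self _ (mul_nonneg l.cast_nonneg c.δ0.le)) (by linarith)
  have hL := B1k.ofD hF.bL
  have hN := B1k.ofD hF.bN
  have hQ := (B1k.ofD hF.bQ).shift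
  have hT := B1k.ofD hF.bT
  obtain ⟨hAu, hB⟩ := b1_A hA (by decide) (hYl 0)
  have hDE := hE.der (by decide)
  have hch := b1_chain hA.tF hY hρ (by linarith) c.ω
  obtain ⟨W, hW, eW⟩ := b1_W hA hX hY hF hE
  have hη := hQ.app hE
  have hb2 := (B1k.const c (ContinuousLinearMap.norm_snd_le ℝ (T N) (T N))).comp (hQ.comp hB)
  obtain ⟨uη, huη, euη⟩ := hη.snd.neg.solve (by decide)
  have hub : B1k c 1 4 0 ub := by
    obtain ⟨ρ', M, h1, h2⟩ := hF.bu
    exact (hb2.neg.cohom (by decide) h1 h2 hF.u1 hF.u2).mono (by decide)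
  have hx := hη.fst.add (hQ.app (hAu.app (hN.app huη))).fst
  obtain ⟨dm, hdm, edm⟩ : ∃ dm : Λ → T N, B1k c 1 9 1 (fun p (_ : T N) => dm p) ∧ ∀ p,
      dm p = -Ti p (avg fun θ => (Q p (θ + c.ω p) (Ef F c.ω ε K m ν p θ)).1 +
        (Q p (θ + c.ω p) (Au F (Yf ε K m ν p θ) (Nn p θ (uη p θ)))).1) :=
    ⟨_, (hT.app hx.mean).neg.mono (by decide), fun _ => rfl⟩
  obtain ⟨cc, hcc, ξ2, hξ2, eξ2, eξ2'⟩ : ∃ cc : Λ → T N, B1k c 1 14 1 (fun p (_ : T N) => cc p) ∧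
      ∃ ξ2 : Λ → T N → T N, B1k c 1 14 1 ξ2 ∧ (∀ p θ, ξ2 p θ = uη p θ + ub p θ (dm p)) ∧ ∀ p θ,
        ξ2 p (θ + c.ω p) = ξ2 p θ + (Q p (θ + c.ω p) (Ef F c.ω ε K m ν p θ)).2 +
          (Q p (θ + c.ω p) (Bm F (Yf ε K m ν p θ) (dm p))).2 - cc p := by
    refine ⟨_, (hη.snd.neg.mean.add (hb2.neg.mean.app hdm)).neg.mono (by decide), _,
      (huη.add (hub.app hdm)).mono (by decide), fun _ _ => rfl, fun p θ => ?_⟩
    have e1 := euη p θ
    have e2 := congrArg (fun L => L (dm p)) (hF.u1 p θ)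
    simp only [sub_apply, neg_apply, ContinuousLinearMap.comp_apply,
      ContinuousLinearMap.coe_snd'] at e2
    linear_combination (norm := abel1) -e1 - e2
  have hg1 := (hη.fst.add (hQ.app (hB.app hdm)).fst).add (hQ.app (hAu.app (hN.app hξ2))).fst
  obtain ⟨ξ1, hξ1, eξ1⟩ : ∃ ξ1 : Λ → T N → T N, B1k c 2 20 1 ξ1 ∧ ∀ p θ,
      ξ1 p (θ + c.ω p) = ξ1 p θ + ((Q p (θ + c.ω p) (Ef F c.ω ε K m ν p θ)).1 +
        (Q p (θ + c.ω p) (Bm F (Yf ε K m ν p θ) (dm p))).1 +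
        (Q p (θ + c.ω p) (Au F (Yf ε K m ν p θ) (Nn p θ (ξ2 p θ)))).1) := by
    obtain ⟨ξ1, h1, h2⟩ := hg1.neg.solve (by decide)
    refine ⟨ξ1, h1.mono (by decide), fun p θ => ?_⟩
    have hM := (B1k.const c (ContinuousLinearMap.norm_fst_le ℝ (T N) (T N))).comp
      (hQ.comp (hB.add (hAu.comp (hN.comp hub))))
    have e1 := avg_add (hx.cont p) ((hM.cont p).clm_apply (continuous_const (y := dm p)))
    rw [avg_app (hM.cont p)] at e1
    nth_rewrite 2 [edm] at e1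
    rw [map_neg, hF.ti, add_neg_cancel] at e1
    have e2 := h2 p θ
    rw [avg_neg, (congrArg avg (funext fun θ => ?_)).trans e1] at e2
    · linear_combination (norm := abel1) -e2
    · simp only [eξ2, map_add, Prod.fst_add, ContinuousLinearMap.comp_apply, add_apply,
        ContinuousLinearMap.coe_fst']
      abel
  obtain ⟨dK, hdK, edK⟩ : ∃ dK : Λ → T N → E, B1k c 2 22 1 dK ∧ ∀ p θ,
      dK p θ = Lf K p θ (ξ1 p θ) + Nn p θ (ξ2 p θ) :=
    ⟨_, ((hL.app hξ1).add (hN.app hξ2)).mono (by decide), fun _ _ => rfl⟩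
  have hH : B1k c 2 23 1 (fun p θ => iu N E P (dK p θ) + im N E P (dm p)) := by
    have h1 := (hdK.clm (iu N E P) norm_iu_le).add (hdm.clm (im N E P) norm_im_le)
    exact h1.mono (by decide)
  have eY : ∀ p θ, Yf ε (fun p θ => K p θ + dK p θ) (fun p => m p + dm p) ν p θ =
      Yf ε K m ν p θ + (iu N E P (dK p θ) + im N E P (dm p)) := fun p θ => by simp [Yf]
  have hY' : Bd (c.ρ - (3 : ℕ) * c.δ)
      (Yf ε (fun p θ => K p θ + dK p θ) (fun p => m p + dm p) ν) (c.r / 4) := by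
    have h1 : Bd (c.ρ - (3 : ℕ) * c.δ) (Yf ε K m ν) (c.r / 8) :=
      hY.mono (sub_le_self _ (mul_nonneg (Nat.cast_nonneg _) c.δ0.le)) le_rfl
    have h2 : B1k c 3 23 1 (fun p θ => iu N E P (dK p θ) + im N E P (dm p)) := hH.mono (by decide)
    have h3 := Bd.add h1 h2.2
    have h4 := c.small (a := 23) (j := 1) (by decide) le_rfl
    exact Bd.mono (Bd.congr h3 eY) le_rfl (by linarith)
  have hDK := hdK.der (by decide)
  have eL : ∀ p θ, Lf (fun p θ => K p θ + dK p θ) p θ = Lf K p θ + fderiv ℝ (dK p) θ :=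
    fun p θ => fderiv_fun_add ((b1_K hY).differentiable hρ p θ)
      ((hdK.c1 p).differentiable one_ne_zero θ)
  have hL' : B1k c 3 24 0 (Lf fun p θ => K p θ + dK p θ) :=
    ((hL.add hDK).congr eL).mono (by decide)
  obtain ⟨q, hq, eq⟩ : ∃ q : Λ → T N → E, B1k c 2 49 2 q ∧ ∀ p θ,
      Ef F c.ω ε (fun p θ => K p θ + dK p θ) (fun p => m p + dm p) ν p θ =
        q p θ + Nn p (θ + c.ω p) (cc p) := by
    refine ⟨_, (((b1_tay hA.tF (hYl 2) hH (by decide)).2.add (hDE.app hξ1)).add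
      (hN.shift.app (hW.app hξ2))).mono (by decide), fun p θ => ?_⟩
    have e1 := hF.pq p (θ + c.ω p) (Ef F c.ω ε K m ν p θ)
    have e2 := hF.pq p (θ + c.ω p) (Bm F (Yf ε K m ν p θ) (dm p))
    have e3 := hF.pq p (θ + c.ω p) (Au F (Yf ε K m ν p θ) (Nn p θ (ξ2 p θ)))
    have e4 := hch p θ (ξ1 p θ)
    have e5 : fderiv ℝ F (Yf ε K m ν p θ) (iu N E P (dK p θ) + im N E P (dm p)) =
        Au F (Yf ε K m ν p θ) (dK p θ) + Bm F (Yf ε K m ν p θ) (dm p) := map_add _ _ _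
    have e6 : Ef F c.ω ε K m ν p θ = F (Yf ε K m ν p θ) - K p (θ + c.ω p) := rfl
    rw [eW, map_add] at e3
    rw [edK p θ, map_add (Au F _), ← edK p θ] at e5
    rw [Ef, eY, e5, edK p (θ + c.ω p), eξ1, eξ2']
    simp only [map_add, map_sub]
    linear_combination (norm := abel1) -e1 - e2 - e3 + e4 - e6
  have hE' : B1k c 3 50 1 (Ef F c.ω ε (fun p θ => K p θ + dK p θ) (fun p => m p + dm p) ν) :=
    ((hq.add (hN.shift.app hcc)).congr eq).mono (by decide)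
  obtain ⟨q2, hq2, eq2⟩ := b1_van hA hX hY' (by decide) hL' hE'
  have hU' := (((b1_tay0 hA.tΩ (by decide) (hY'.mono le_rfl (by linarith))).comp hL').clm _
    norm_flat_le).shift
  have hdU := ((((b1_tay hA.tΩ (hYl 2) hH (by decide)).1.comp hL').clm _ norm_flat_le).add
    (((b1_tay0 hA.tΩ (by decide) (hYl 0)).comp hDK).clm _ norm_flat_le)).shift
  have hz := (hU'.app hq).add (hdU.app (hN.shift.app hcc))
  have hc2 : B1k c 4 300 2 (fun p (_ : T N) => cc p) := by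
    refine ((hq2.mean.sub hz.mean).congr fun p _ => ?_).mono (by decide)
    have e0 := avg_add (continuous_const (y := cc p)) (hz.cont p)
    rw [avg_const] at e0
    rw [← eq2, eq_sub_iff_add_eq, ← e0]
    congr 1
    funext θ
    have e1 := hF.un p (θ + c.ω p) (cc p)
    rw [eq, map_add]
    funext i
    replace e1 := congrFun e1 i
    simp only [Uf, flat_apply, ContinuousLinearMap.comp_apply, add_apply, sub_apply,
      Pi.add_apply, eY, eL, map_add] at e1 ⊢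
    linarith
  exact ⟨_, _, (hdK.congr fun _ _ => add_sub_cancel_left _ _).mono (by decide),
    (hDK.congr fun p θ => by rw [eL, add_sub_cancel_left]).mono (by decide),
    (hdm.congr fun _ _ => add_sub_cancel_left _ _).mono (by decide),
    ((hq.add (hN.shift.app hc2)).congr eq).mono (by decide)⟩

/-- The Newton step. The exponent is a universal number (take it large, e.g. what comes out).

BOOKKEEPING. Fix ρ δ D e and define Bk l a j g := Bd (ρ - l * δ) g (D ^ a * e ^ j) for natural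
numbers l a j. Prove closure lemmas whose output exponents are closed terms (max l l', a + a' + 1,
j + j', min j j', ...): mono (l ≤ l', a ≤ a', j' ≤ j, using 1 ≤ D, 0 ≤ e ≤ 1), add, sub, neg, clm
(norm ≤ 1), app, comp, shift (4 ≤ D), der (l + 1), solve and of_cohom (l + 1), mean, and Taylor
lemmas of order 0, 1, 2 (side condition D ^ a * e ^ j ≤ D ^ A * e ≤ r / 8 for a ≤ A, 1 ≤ j).
Chain them with have and finish with mono (by decide / norm_num). Levels stay ≤ 5.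

ALGEBRA (p fixed, g₊ θ = g (θ + ω p)). Y = Yf ε K m ν, L = Lf K, A = Au F Y, B = Bm F Y,
U = Uf Ω Y L, Er = Ef, DE = fderiv Er = A L - L₊ (chain rule, K = proj ∘ Y is in the class).
(ε, F Y, m, ν) = Y₊ + iu Er.
D1 = flat ((Ω (Y₊ + iu Er) - Ω Y₊) ∘ (A L)) + flat (Ω Y₊ ∘ DE) has order e, and Ex.inv says
U = (U₊ + D1) ∘ A. Lag = U ∘ L satisfies Lag - Lag₊ = U₊ DE + D1 A L =: g, avg g = 0 (avg_shift),
avg Lag = 0: the entry (i, j) is Ω Y (L e i) (L e j) = (D (α ∘ Y) e i) (L e j) - (D (α ∘ Y) e j) (L e i)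
by An.dα; use avg_ibp twice and the symmetry of the second derivative of K. So Lag has order e
(of_cohom). S = fst Q₊ A Nn, A2 = snd Q₊ A Nn, A Nn = L₊ S + Nn₊ A2 (Fr.pq), and
A2 - 1 = - D1 A Nn - Lag₊ S (apply U₊, use Fr.un twice). η = Q₊ Er, b = Q₊ B.
uη = solve (- η.2); ub has order 0 at level 1 by of_cohom; dm = - Ti (avg (η.1 + S uη));
ξ2 = uη + ub dm; g1 = η.1 + b.1 dm + S ξ2 has average zero by Fr.ti; ξ1 = solve (- g1);
dK = L ξ1 + Nn ξ2; c = avg η.2 + (avg b.2) dm, so ξ2 - ξ2₊ + η.2 + b.2 dm = c.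
K' = K + dK, m' = m + dm, H = iu dK + im dm, Y' = Y + H, and
Er' = q + Nn₊ c with q = (F (Y + H) - F Y - DF Y H) + DE ξ1 + Nn₊ (A2 - 1) ξ2 of order e ^ 2.
VANISHING LEMMA. Z = Y'₊, L' = L + D dK, U' = Uf Ω Y' L', DE' = fderiv Er' (Er' has order e).
By Ex.exact, avg_fderiv for S ∘ K' (contDiff_one_iff_fderiv) and avg_shift,
avg (α (Z + iu Er') ∘ (L'₊ + DE') - α Z ∘ L'₊) = 0. Expand α (Z + iu Er') by Taylor of order two,
integrate α Z (DE' e j) by parts (avg_ibp), and use An.dα at Z: avg (U'₊ Er') = avg q2 with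
q2 = vec ((α (Z + iu Er') - α Z - Dα Z (iu Er')) ∘ (L'₊ + DE') + (Dα Z (iu Er')) ∘ DE') of order
e ^ 2. Since U₊ Nn₊ c = c, c = avg (q2 - U'₊ q - (U' - U)₊ Nn₊ c) has order e ^ 2, where
U' - U = flat ((Ω (Y + H) - Ω Y) ∘ L') + flat (Ω Y ∘ D dK).
It is best to split into lemmas (Lagrangian defect, vanishing lemma, pointwise algebra) and into
two files if the file gets slow. -/
theorem newton_step : ∃ A : ℕ, ∀ {N : ℕ} {Λ : Type} [PseudoMetricSpace Λ] {E P : Type}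
    [NormedAddCommGroup E] [NormedSpace ℝ E] [CompleteSpace E] [NormedAddCommGroup P]
    [NormedSpace ℝ P] [CompleteSpace P] {F : XX N E P → E} {α : XX N E P → E →L[ℝ] ℝ}
    {Ω : XX N E P → E →L[ℝ] E →L[ℝ] ℝ} {r ε γ ρ δ D e : ℝ} {τ : ℕ} {ω : Λ → T N}
    {K : Λ → T N → E} {m : Λ → T N} {ν : Λ → P} {Nn : Λ → T N → T N →L[ℝ] E}
    {Q : Λ → T N → E →L[ℝ] T N × T N} {ub : Λ → T N → T N →L[ℝ] T N}
    {Ti : Λ → T N →L[ℝ] T N}, An F α Ω r D → Ex F α Ω r ε → Dio ω γ τ →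
    0 < δ → δ ≤ 1 → 10 * δ ≤ ρ → 4 ≤ D → 1 / δ ≤ D → sol γ τ δ ≤ D → e ≤ 1 →
    D ^ A * e ≤ r / 8 → Bd ρ (Yf ε K m ν) (r / 8) → Fr F Ω ω ε K m ν ρ D Nn Q ub Ti →
    Bd ρ (Ef F ω ε K m ν) e →
    ∃ (K' : Λ → T N → E) (m' : Λ → T N),
      Bd (ρ - 8 * δ) (fun p θ => K' p θ - K p θ) (D ^ A * e) ∧
      Bd (ρ - 8 * δ) (fun p θ => Lf K' p θ - Lf K p θ) (D ^ A * e) ∧
      Bd (ρ - 8 * δ) (fun p (_ : T N) => m' p - m p) (D ^ A * e) ∧
      Bd (ρ - 8 * δ) (Ef F ω ε K' m' ν) (D ^ A * e ^ 2) := by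
  refine ⟨999, ?_⟩
  intro N Λ _ E P _ _ _ _ _ _ F α Ω r ε γ ρ δ D e τ ω K m ν Nn Q ub Ti hA hX hω h1 h2 h3 h4 h5 h6
    h7 h8 hY hF hE
  have h9 : D ^ 99 * e ≤ r / 8 :=
    (mul_le_mul_of_nonneg_right (pow_le_pow_right₀ (by linarith) (by decide)) hE.nonneg).trans h8
  obtain ⟨K', m', a1, a2, a3, a4⟩ := b1_main
    (c := ⟨ρ, δ, D, e, r, γ, τ, ω, hω, h1, h2, h3, h4, h5, h6, hE.nonneg, h7, h9⟩) hA hX hY hF
    ⟨by decide, hE.mono (by simp) (by simp)⟩
  exact ⟨K', m', by simpa using a1.2, by simpa using a2.2, by simpa using a3.2,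
    by simpa using a4.2⟩

end Pool.Agent.MP_28624d_gt.K

end

section

/-!
Adapted frames exist for all tori near the unperturbed ones.
-/

set_option maxSynthPendingDepth 3

namespace Pool.Agent.MP_28624d_gt.K

open Real Filter Topology

section order

variable {N : ℕ} {Λ : Type} [PseudoMetricSpace Λ] {Z : Type} {V W X : Type}
  [NormedAddCommGroup V] [NormedSpace ℝ V] [NormedAddCommGroup W] [NormedSpace ℝ W]
  [NormedAddCommGroup X] [NormedSpace ℝ X]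

/-- The family g has order j in the small quantity κ, at radius ρ. -/
def B2O (κ ρ : Z → ℝ) (j : ℕ) (g : Z → Λ → T N → V) : Prop :=
  ∃ D, 0 ≤ D ∧ ∀ᶠ z in comap κ (𝓝[>] 0), Bd (ρ z) (g z) (D * κ z ^ j)

variable {κ ρ ρ' : Z → ℝ} {j j' : ℕ} {g h : Z → Λ → T N → V}

theorem b2_small (κ : Z → ℝ) (D : ℝ) {r : ℝ} (hr : 0 < r) :
    ∀ᶠ z in comap κ (𝓝[>] 0), D * κ z ^ 1 ≤ r ∧ 0 < κ z := by
  have h1 : Tendsto (fun k : ℝ => D * k ^ 1) (𝓝[>] 0) (𝓝 (D * 0 ^ 1)) :=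
    (Continuous.tendsto (by fun_prop) 0).mono_left nhdsWithin_le_nhds
  exact tendsto_comap.eventually ((h1.eventually_le_const (by simpa using hr)).and
    self_mem_nhdsWithin)

theorem B2O.lt (hg : B2O κ ρ 1 g) {r : ℝ} (hr : 0 < r) :
    ∀ᶠ z in comap κ (𝓝[>] 0), Bd (ρ z) (g z) r := by
  obtain ⟨D, -, h⟩ := hg
  filter_upwards [h, b2_small κ D hr] with z a b using a.mono le_rfl b.1

theorem B2O.of_ev {D : ℝ} (hD : 0 ≤ D) (h : ∀ᶠ z in comap κ (𝓝[>] 0), Bd (ρ z) (g z) D) :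
    B2O κ ρ 0 g := ⟨D, hD, by simpa using h⟩

theorem B2O.weak (hg : B2O κ ρ 1 g) : B2O κ ρ 0 g := B2O.of_ev zero_le_one (hg.lt one_pos)

theorem B2O.top (hg : B2O κ ρ 0 g) :
    ∀ᶠ D in atTop, ∀ᶠ z in comap κ (𝓝[>] 0), Bd (ρ z) (g z) D := by
  obtain ⟨D, -, h⟩ := hg
  filter_upwards [eventually_ge_atTop D] with D' hD using
    h.mono fun z a => a.mono le_rfl (by simpa using hD)

theorem B2O.rad (hg : B2O κ ρ j g) (h : ∀ z, ρ' z ≤ ρ z) : B2O κ ρ' j g :=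
  let ⟨D, h0, h1⟩ := hg
  ⟨D, h0, h1.mono fun z a => a.mono (h z) le_rfl⟩

theorem B2O.congr (hg : B2O κ ρ j g)
    (hh : ∀ᶠ z in comap κ (𝓝[>] 0), ∀ p θ, h z p θ = g z p θ) : B2O κ ρ j h := by
  obtain ⟨D, h0, h1⟩ := hg
  exact ⟨D, h0, by filter_upwards [h1, hh] with z a b using a.congr b⟩

theorem B2O.const (c : V) : B2O κ ρ 0 (fun _ (_ : Λ) (_ : T N) => c) :=
  B2O.of_ev (norm_nonneg c) (Eventually.of_forall fun z => Bd.const (ρ z) c)

theorem B2O.base {g : Λ → T N → V} {C : ℝ} (hg : Bd 1 g C) (h : ∀ z, ρ z ≤ 1) :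
    B2O κ ρ 0 (fun _ => g) :=
  B2O.of_ev hg.nonneg (Eventually.of_forall fun z => hg.mono (h z) le_rfl)

theorem B2O.add (hg : B2O κ ρ j g) (hh : B2O κ ρ j h) :
    B2O κ ρ j (fun z p θ => g z p θ + h z p θ) := by
  obtain ⟨D, h0, h1⟩ := hg
  obtain ⟨D', h0', h1'⟩ := hh
  exact ⟨D + D', by positivity, by
    filter_upwards [h1, h1'] with z a b using (a.add b).mono le_rfl (by rw [add_mul])⟩

theorem B2O.neg (hg : B2O κ ρ j g) : B2O κ ρ j (fun z p θ => -g z p θ) :=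
  let ⟨D, h0, h1⟩ := hg
  ⟨D, h0, h1.mono fun _ a => a.neg⟩

theorem B2O.clm (hg : B2O κ ρ j g) (L : V →L[ℝ] W) : B2O κ ρ j (fun z p θ => L (g z p θ)) :=
  let ⟨D, h0, h1⟩ := hg
  ⟨‖L‖ * D, by positivity, h1.mono fun _ a => (a.clm L le_rfl).mono le_rfl (by rw [mul_assoc])⟩

theorem B2O.comp [CompleteSpace X] {A : Z → Λ → T N → W →L[ℝ] X} {B : Z → Λ → T N → V →L[ℝ] W}
    (hA : B2O κ ρ j A) (hρ : ∀ z, 0 ≤ ρ z) (hB : B2O κ ρ j' B) :
    B2O κ ρ (j + j') (fun z p θ => (A z p θ).comp (B z p θ)) := by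
  obtain ⟨D, h0, h1⟩ := hA
  obtain ⟨D', h0', h1'⟩ := hB
  exact ⟨D * D', by positivity, by
    filter_upwards [h1, h1'] with z a b using (a.comp (hρ z) b).mono le_rfl (le_of_eq (by ring))⟩

variable [CompleteSpace V]

theorem B2O.shift (hg : B2O κ ρ j g) (hρ : ∀ z, 0 ≤ ρ z) {ω : Λ → T N}
    (hω : ∀ p q, ‖ω p - ω q‖ ≤ dist p q) : B2O κ ρ j (fun z p θ => g z p (θ + ω p)) :=
  let ⟨D, h0, h1⟩ := hg
  ⟨4 * D, by positivity, h1.mono fun z a => (a.shift (hρ z) hω).mono le_rfl (by rw [mul_assoc])⟩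

theorem B2O.mean (hg : B2O κ ρ j g) (hρ : ∀ z, 0 ≤ ρ z) :
    B2O κ ρ j (fun z p (_ : T N) => avg (g z p)) :=
  let ⟨D, h0, h1⟩ := hg
  ⟨D, h0, h1.mono fun z a => a.mean (hρ z)⟩

theorem B2O.inv {x : Z → Λ → T N → V →L[ℝ] V} (hx : B2O κ ρ 1 x) (hρ : ∀ z, 0 ≤ ρ z) :
    B2O κ ρ 0 (fun z p θ => Ring.inverse (1 + x z p θ)) ∧ ∀ᶠ z in comap κ (𝓝[>] 0), ∀ p θ v,
      Ring.inverse (1 + x z p θ) v + x z p θ (Ring.inverse (1 + x z p θ) v) = v ∧
      Ring.inverse (1 + x z p θ) (v + x z p θ v) = v := by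
  obtain ⟨r, C, hr, hC, h⟩ := exists_inv N V
  refine ⟨B2O.of_ev hC ((hx.lt hr).mono fun z a => (h Λ _ _ (hρ z) a).1),
    (hx.lt hr).mono fun z a p θ v => ?_⟩
  obtain ⟨h1, h2⟩ := (h Λ _ _ (hρ z) a).2 p θ
  exact ⟨DFunLike.congr_fun h1 v, DFunLike.congr_fun h2 v⟩

theorem B2O.inv' {x : Z → Λ → T N → V →L[ℝ] V} (hx : B2O κ ρ 1 x) (hρ : ∀ z, 0 ≤ ρ z) :
    ∃ i : Z → Λ → T N → V →L[ℝ] V, B2O κ ρ 0 i ∧ ∀ᶠ z in comap κ (𝓝[>] 0), ∀ p θ v,
      i z p θ v + x z p θ (i z p θ v) = v ∧ i z p θ (v + x z p θ v) = v :=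
  ⟨_, hx.inv hρ⟩

theorem B2O.solve (hg : B2O κ ρ j g) (hρ : ∀ z, 1 / 2 ≤ ρ z) {ω : Λ → T N} {γ : ℝ} {τ : ℕ}
    (hω : Dio ω γ τ) : ∃ u : Z → Λ → T N → V, B2O κ (fun _ => 1 / 4) j u ∧
      ∀ᶠ z in comap κ (𝓝[>] 0), (∀ p θ, u z p θ - u z p (θ + ω p) = g z p θ - avg (g z p)) ∧
        ∀ p, avg (u z p) = 0 := by
  obtain ⟨D, h0, h1⟩ := hg
  have h : ∀ z, ∃ u : Λ → T N → V, Bd (ρ z) (g z) (D * κ z ^ j) →
      Bd (ρ z - 1 / 4) u (sol γ τ (1 / 4) * (D * κ z ^ j)) ∧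
      (∀ p θ, u p θ - u p (θ + ω p) = g z p θ - avg (g z p)) ∧ ∀ p, avg (u p) = 0 := fun z => by
    by_cases a : Bd (ρ z) (g z) (D * κ z ^ j)
    · obtain ⟨u, hu⟩ := a.solve hω (δ := 1 / 4) (by norm_num) (by norm_num) (by linarith [hρ z])
      exact ⟨u, fun _ => hu⟩
    · exact ⟨0, fun b => absurd b a⟩
  choose u hu using h
  have hs : 0 ≤ sol γ τ (1 / 4) := by
    unfold sol
    positivity
  exact ⟨u, ⟨sol γ τ (1 / 4) * D, by positivity, h1.mono fun z a =>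
    (hu z a).1.mono (by linarith [hρ z]) (by rw [mul_assoc])⟩, h1.mono fun z a => (hu z a).2⟩

omit [CompleteSpace V] in
theorem B2O.reset {c : Z → Λ → V} (hc : B2O κ (fun _ => 1 / 4) 0 (fun z p (_ : T N) => c z p))
    (hρ : ∀ z, ρ z ≤ 1) : B2O κ ρ 0 (fun z p (_ : T N) => c z p) := by
  obtain ⟨D, h0, h1⟩ := hc
  refine B2O.of_ev (D := D / (1 / 4) * exp 1) (by positivity) (h1.mono fun z a => ?_)
  rw [pow_zero, mul_one] at a
  exact (a.reset (by norm_num) (by norm_num) 1).mono (hρ z) le_rfl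

omit [CompleteSpace V] in
theorem B2O.tay {G : V → W} {r C : ℝ} (hG : Tay N G r C) {Y : Λ → T N → V} (hY : Bd 1 Y (r / 16))
    (hg : B2O κ ρ 1 (fun z p θ => g z p θ - Y p θ)) (hρ : ∀ z, 0 ≤ ρ z) (hρ' : ∀ z, ρ z ≤ 1) :
    B2O κ ρ 0 (fun _ p θ => G (Y p θ)) ∧ B2O κ ρ 1 (fun z p θ => G (g z p θ) - G (Y p θ)) := by
  obtain ⟨hr, hC, -, h⟩ := hG
  obtain ⟨D, h0, h1⟩ := hg
  refine ⟨B2O.base (h Λ 1 _ _ Y Y zero_le_one hY hY (by linarith) (by linarith)).1 hρ',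
    C * D, by positivity, ?_⟩
  filter_upwards [h1, b2_small κ D hr] with z a b
  refine ((h Λ _ _ _ Y _ (hρ z) (hY.mono (hρ' z) le_rfl) a (by linarith) b.1).2.1.mono le_rfl
    (by rw [mul_assoc])).congr fun p θ => ?_
  rw [add_sub_cancel]

end order

variable {N : ℕ} {Λ : Type} [PseudoMetricSpace Λ] {E P : Type} [NormedAddCommGroup E]
  [NormedSpace ℝ E] [CompleteSpace E] [NormedAddCommGroup P] [NormedSpace ℝ P] [CompleteSpace P]

omit [CompleteSpace P] in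
theorem b2_frames {F : XX N E P → E} {α : XX N E P → E →L[ℝ] ℝ}
    {Ω : XX N E P → E →L[ℝ] E →L[ℝ] ℝ}
    {r C γ : ℝ} {τ : ℕ} {ω : Λ → T N} {K0 : Λ → T N → E} {m0 : Λ → T N} {ν : Λ → P}
    {N0 : Λ → T N → T N →L[ℝ] E} {Q0 : Λ → T N → E →L[ℝ] T N × T N}
    {W0 : Λ → T N → T N →L[ℝ] T N} (hA : An F α Ω r C) (hω : Dio ω γ τ)
    (hB : Base F Ω ω K0 m0 ν r C N0 Q0 W0) {Z : Type} {κ ρ ε : Z → ℝ} {K : Z → Λ → T N → E}
    {m : Z → Λ → T N} (r1 : ∀ z, 1 / 2 ≤ ρ z) (r2 : ∀ z, ρ z ≤ 1) (hε : ∀ z, |ε z| ≤ κ z)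
    (hK : ∀ z, Bd (ρ z) (fun p θ => K z p θ - K0 p θ) (κ z))
    (hL : ∀ z, Bd (ρ z) (fun p θ => Lf (K z) p θ - Lf K0 p θ) (κ z))
    (hm : ∀ z, Bd (ρ z) (fun p (_ : T N) => m z p - m0 p) (κ z)) :
    ∃ D, ∀ᶠ z in comap κ (𝓝[>] 0), Bd (ρ z) (Yf (ε z) (K z) (m z) ν) (r / 8) ∧
      ∃ Nn Q ub Ti, Fr F Ω ω (ε z) (K z) (m z) ν (ρ z) D Nn Q ub Ti := by
  have r0 : ∀ z, 0 ≤ ρ z := fun z => by linarith [r1 z]
  have r4 : ∀ z, (1 : ℝ) / 4 ≤ ρ z := fun z => by linarith [r1 z]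
  have q0 : ∀ _ : Z, (0 : ℝ) ≤ 1 / 4 := fun _ => by norm_num
  have oH : B2O κ ρ 1 (fun z p θ => Yf (ε z) (K z) (m z) ν p θ - Yf 0 K0 m0 ν p θ) := by
    refine ⟨3, by norm_num, Eventually.of_forall fun z => ?_⟩
    refine ((((Bd.const (ρ z) ((ε z, 0) : XX N E P)).add ((hK z).clm _ norm_iu_le)).add
      ((hm z).clm _ norm_im_le)).mono le_rfl ?_).congr fun p θ => by simp [Yf]
    have : ‖((ε z, 0) : XX N E P)‖ = |ε z| := by simp [Prod.norm_def]
    linarith [hε z]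
  have odL : B2O κ ρ 1 (fun z p θ => Lf (K z) p θ - Lf K0 p θ) :=
    ⟨1, zero_le_one, Eventually.of_forall fun z => by simpa using hL z⟩
  have oL : B2O κ ρ 0 (fun z => Lf (K z)) :=
    ((B2O.base hB.bL r2).add odL.weak).congr (Eventually.of_forall fun z p θ => by simp)
  have oN0 := B2O.base (κ := κ) hB.bN r2
  have oQ0 := B2O.base (κ := κ) hB.bQ r2
  have oW0 := B2O.base (κ := κ) hB.bW r2
  obtain ⟨oΩ0, odΩ⟩ := B2O.tay hA.tΩ hB.bY oH r0 r2
  obtain ⟨oF0, odF⟩ := B2O.tay hA.tDF hB.bY oH r0 r2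
  obtain ⟨U, hU⟩ : ∃ U : Z → Λ → T N → E →L[ℝ] T N,
      ∀ z p θ, Uf Ω (Yf (ε z) (K z) (m z) ν p θ) (Lf (K z) p θ) = U z p θ := ⟨_, fun _ _ _ => rfl⟩
  have odU : B2O κ ρ 1 (fun z p θ => U z p θ - Uf Ω (Yf 0 K0 m0 ν p θ) (Lf K0 p θ)) := by
    refine (((odΩ.comp r0 oL).add (oΩ0.comp r0 odL)).clm (flat N E)).congr
      (Eventually.of_forall fun z p θ => ?_)
    rw [← hU, Uf, Uf, ← map_sub, ContinuousLinearMap.sub_comp, ContinuousLinearMap.comp_sub,
      sub_add_sub_cancel]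
  have oU : B2O κ ρ 0 U := (((oΩ0.comp r0 (B2O.base hB.bL r2)).clm (flat N E)).add odU.weak).congr
    (Eventually.of_forall fun z p θ => by simp [Uf])
  have c1 := B2O.const (κ := κ) (ρ := ρ) (N := N) (Λ := Λ) (ContinuousLinearMap.fst ℝ (T N) (T N))
  have c2 := B2O.const (κ := κ) (ρ := ρ) (N := N) (Λ := Λ) (ContinuousLinearMap.snd ℝ (T N) (T N))
  obtain ⟨i1, o1, e1⟩ := (odU.comp r0 (oN0.comp r0 oW0)).inv' r0
  obtain ⟨i2, o2, e2⟩ := (odL.comp r0 (c1.comp r0 oQ0)).inv' r0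
  obtain ⟨Nn, oN, eN⟩ : ∃ Nn : Z → Λ → T N → T N →L[ℝ] E, B2O κ ρ 0 Nn ∧
      ∀ᶠ z in comap κ (𝓝[>] 0), ∀ p θ v, U z p θ (Nn z p θ v) = v ∧
        Nn z p θ (U z p θ (N0 p θ v)) = N0 p θ v := by
    refine ⟨_, oN0.comp r0 (oW0.comp r0 o1), e1.mono fun z a p θ v => ⟨?_, ?_⟩⟩
    · have := (a p θ v).1
      simp only [ContinuousLinearMap.comp_apply, sub_apply, hB.w1] at this ⊢
      rwa [add_sub_cancel] at this
    · have := (a p θ (Uf Ω (Yf 0 K0 m0 ν p θ) (Lf K0 p θ) (N0 p θ v))).2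
      simp only [ContinuousLinearMap.comp_apply, sub_apply, hB.w2] at this ⊢
      rw [add_sub_cancel] at this
      rw [this, hB.w2]
  obtain ⟨Q, oQ, eQ⟩ : ∃ Q : Z → Λ → T N → E →L[ℝ] T N × T N, B2O κ ρ 0 Q ∧
      ∀ᶠ z in comap κ (𝓝[>] 0), ∀ p θ,
        (∀ v, Lf (K z) p θ (Q z p θ v).1 + Nn z p θ (Q z p θ v).2 = v) ∧
        ∀ a, Q z p θ (Lf (K z) p θ a) = (a, 0) := by
    refine ⟨_, ((B2O.const (ContinuousLinearMap.inl ℝ (T N) (T N))).comp r0
      (c1.comp r0 (oQ0.comp r0 o2))).add ((B2O.const (ContinuousLinearMap.inr ℝ (T N) (T N))).comp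
        r0 (oU.comp r0 (oN0.comp r0 (c2.comp r0 (oQ0.comp r0 o2))))), ?_⟩
    filter_upwards [e2, eN] with z a b p θ
    refine ⟨fun v => ?_, fun v => ?_⟩
    · have h1 := (a p θ v).1
      have h2 := hB.pq p θ (i2 z p θ v)
      simp only [ContinuousLinearMap.comp_apply, sub_apply,
        add_apply, ContinuousLinearMap.coe_fst', ContinuousLinearMap.coe_snd',
        ContinuousLinearMap.inl_apply, ContinuousLinearMap.inr_apply, Prod.mk_add_mk, add_zero,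
        zero_add, (b p θ _).2] at h1 ⊢
      linear_combination (norm := abel1) h1 + h2
    · have h1 := (a p θ (Lf K0 p θ v)).2
      have h2 := hB.qp p θ v 0
      rw [map_zero, add_zero] at h2
      simp only [ContinuousLinearMap.comp_apply, sub_apply, h2,
        ContinuousLinearMap.coe_fst', add_sub_cancel] at h1
      simp [h1, h2]
  have oQs := oQ.shift r0 hω.1
  have oR : B2O κ ρ 1 (fun z p θ => Bm F (Yf (ε z) (K z) (m z) ν p θ) - Lf (K z) p (θ + ω p)) := by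
    refine ((odF.comp r0 (B2O.const (im N E P))).add (odL.shift r0 hω.1).neg).congr
      (Eventually.of_forall fun z p θ => ?_)
    rw [ContinuousLinearMap.sub_comp, ← hB.b0, Bm, Bm]
    abel
  have og : B2O κ ρ 1 (fun z p θ => -((ContinuousLinearMap.snd ℝ (T N) (T N)).comp
      ((Q z p (θ + ω p)).comp (Bm F (Yf (ε z) (K z) (m z) ν p θ))))) := by
    refine (c2.comp r0 (oQs.comp r0 oR)).neg.congr (eQ.mono fun z a p θ => ?_)
    ext1 v
    simp [(a p _).2]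
  obtain ⟨u, ou, eu⟩ := og.solve r1 hω
  have oA : B2O κ ρ 0 (fun z p θ => Au F (Yf (ε z) (K z) (m z) ν p θ)) :=
    ((oF0.add odF.weak).comp r0 (B2O.const (iu N E P))).congr
      (Eventually.of_forall fun z p θ => by rw [add_sub_cancel, Au])
  have os := (c1.rad r4).comp q0 ((oQs.rad r4).comp q0 ((oR.rad r4).add ((oA.rad r4).comp q0
    ((oN.rad r4).comp q0 ou))))
  obtain ⟨o3, e3⟩ := (os.mean q0).inv q0
  obtain ⟨D, hD⟩ := (oL.top.and (oN.top.and (oQ.top.and (o3.reset r2).top))).exists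
  refine ⟨D, ?_⟩
  filter_upwards [hD.1, hD.2.1, hD.2.2.1, hD.2.2.2, eN, eQ, eu, e3, ou.lt one_pos, os.lt one_pos,
    oH.lt (show 0 < r / 16 by linarith [hA.tF.1])] with z a1 a2 a3 a4 a5 a6 a7 a8 a9 a10 a11
  refine ⟨(((hB.bY.mono (r2 z) le_rfl).add a11).mono le_rfl (by linarith)).congr
    fun p θ => by rw [add_sub_cancel], Nn z, Q z, u z, _, a1, a2, a3, a4,
    ⟨_, _, by norm_num, a9⟩, fun p θ v => by rw [hU]; exact (a5 p θ v).1,
    fun p θ => (a6 p θ).1, a7.1, a7.2, fun p v => ?_⟩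
  refine Eq.trans ?_ (a8 p 0 v).1
  have h1 := avg_add (g := fun _ : T N => (1 : T N →L[ℝ] T N)) continuous_const
    (a10.continuous (by norm_num) p)
  rw [avg_const] at h1
  refine Eq.trans ?_ (DFunLike.congr_fun h1 _)
  congr 2
  funext θ
  ext1 w
  simp only [ContinuousLinearMap.comp_apply, add_apply, sub_apply, map_add, map_sub, (a6 p _).2,
    ContinuousLinearMap.coe_fst', one_apply_eq_self]
  abel

/-- Adapted frames near the unperturbed tori. -/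
theorem frames {F : XX N E P → E} {α : XX N E P → E →L[ℝ] ℝ} {Ω : XX N E P → E →L[ℝ] E →L[ℝ] ℝ}
    {r C γ : ℝ} {τ : ℕ} {ω : Λ → T N} {K0 : Λ → T N → E} {m0 : Λ → T N} {ν : Λ → P}
    {N0 : Λ → T N → T N →L[ℝ] E} {Q0 : Λ → T N → E →L[ℝ] T N × T N}
    {W0 : Λ → T N → T N →L[ℝ] T N} (hA : An F α Ω r C) (hω : Dio ω γ τ)
    (hB : Base F Ω ω K0 m0 ν r C N0 Q0 W0) :
    ∃ κ D : ℝ, 0 < κ ∧ ∀ (ρ ε : ℝ) (K : Λ → T N → E) (m : Λ → T N), 1 / 2 ≤ ρ → ρ ≤ 1 → |ε| ≤ κ →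
      Bd ρ (fun p θ => K p θ - K0 p θ) κ → Bd ρ (fun p θ => Lf K p θ - Lf K0 p θ) κ →
      Bd ρ (fun p (_ : T N) => m p - m0 p) κ →
      Bd ρ (Yf ε K m ν) (r / 8) ∧ ∃ Nn Q ub Ti, Fr F Ω ω ε K m ν ρ D Nn Q ub Ti := by
  obtain ⟨D, hD⟩ := b2_frames hA hω hB
    (Z := {z : ℝ × ℝ × ℝ × (Λ → T N → E) × (Λ → T N) // 1 / 2 ≤ z.2.1 ∧ z.2.1 ≤ 1 ∧
      |z.2.2.1| ≤ z.1 ∧ Bd z.2.1 (fun p θ => z.2.2.2.1 p θ - K0 p θ) z.1 ∧
      Bd z.2.1 (fun p θ => Lf z.2.2.2.1 p θ - Lf K0 p θ) z.1 ∧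
      Bd z.2.1 (fun p (_ : T N) => z.2.2.2.2 p - m0 p) z.1})
    (κ := fun z => z.1.1) (ρ := fun z => z.1.2.1) (ε := fun z => z.1.2.2.1)
    (K := fun z => z.1.2.2.2.1) (m := fun z => z.1.2.2.2.2) (fun z => z.2.1) (fun z => z.2.2.1)
    (fun z => z.2.2.2.1) (fun z => z.2.2.2.2.1) (fun z => z.2.2.2.2.2.1) fun z => z.2.2.2.2.2.2
  obtain ⟨κ, h1, h2⟩ := ((eventually_comap.1 hD).and self_mem_nhdsWithin).exists
  exact ⟨κ, D, h2, fun ρ ε K m a b c d e f => h1 ⟨(κ, ρ, ε, K, m), a, b, c, d, e, f⟩ rfl⟩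

end Pool.Agent.MP_28624d_gt.K

end

section

/-!
The Newton iteration.
-/

set_option maxSynthPendingDepth 3

namespace Pool.Agent.MP_28624d_gt.K

open Real Filter Topology

variable {N : ℕ} {Λ : Type} [PseudoMetricSpace Λ] {E P : Type} [NormedAddCommGroup E]
  [NormedSpace ℝ E] [CompleteSpace E] [NormedAddCommGroup P] [NormedSpace ℝ P] [CompleteSpace P]

omit [CompleteSpace P] in
theorem b3_an_mono {F : XX N E P → E} {α : XX N E P → E →L[ℝ] ℝ}
    {Ω : XX N E P → E →L[ℝ] E →L[ℝ] ℝ} {r C C' : ℝ} (h : An F α Ω r C) (hC : C ≤ C') :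
    An F α Ω r C' :=
  ⟨h.tF.mono h.tF.1 le_rfl hC, h.tDF.mono h.tF.1 le_rfl hC, h.tα.mono h.tF.1 le_rfl hC,
    h.tDα.mono h.tF.1 le_rfl hC, h.tΩ.mono h.tF.1 le_rfl hC, h.dα⟩

omit [CompleteSpace E] [CompleteSpace P] in
theorem b3_fr_mono {F : XX N E P → E} {Ω : XX N E P → E →L[ℝ] E →L[ℝ] ℝ} {ω : Λ → T N} {ε : ℝ}
    {K : Λ → T N → E} {m : Λ → T N} {ν : Λ → P} {ρ D D' : ℝ} {Nn : Λ → T N → T N →L[ℝ] E}
    {Q : Λ → T N → E →L[ℝ] T N × T N} {ub : Λ → T N → T N →L[ℝ] T N}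
    {Ti : Λ → T N →L[ℝ] T N} (h : Fr F Ω ω ε K m ν ρ D Nn Q ub Ti) (hD : D ≤ D') :
    Fr F Ω ω ε K m ν ρ D' Nn Q ub Ti :=
  ⟨h.bL.mono le_rfl hD, h.bN.mono le_rfl hD, h.bQ.mono le_rfl hD, h.bT.mono le_rfl hD, h.bu, h.un,
    h.pq, h.u1, h.u2, h.ti⟩

theorem b3_lim {V : Type} [NormedAddCommGroup V] [CompleteSpace V] {a : ℕ → V} {s : ℝ}
    (h : ∀ n, ‖a (n + 1) - a n‖ ≤ s * (1 / 2) ^ n) :
    Tendsto a atTop (𝓝 (a 0 + ∑' n, (a (n + 1) - a n))) := by
  have h1 : Summable fun n => a (n + 1) - a n :=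
    Summable.of_norm_bounded (summable_geometric_two.mul_left s) h
  refine (h1.hasSum.tendsto_sum_nat.const_add (a 0)).congr fun n => ?_
  rw [Finset.sum_range_sub, add_sub_cancel]

theorem b3_series {V : Type} [NormedAddCommGroup V] [NormedSpace ℝ V] [CompleteSpace V]
    {a : ℕ → Λ → T N → V} {s : ℝ}
    (h : ∀ n, Bd (1 / 2) (fun p θ => a (n + 1) p θ - a n p θ) (s * (1 / 2) ^ n)) :
    Bd (1 / 2) (fun p θ => (a 0 p θ + ∑' n, (a (n + 1) p θ - a n p θ)) - a 0 p θ) (2 * s) := by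
  have h1 := Bd.series (by norm_num) h (summable_geometric_two.mul_left s)
  rw [tsum_mul_left, tsum_geometric_two, mul_comm] at h1
  exact h1.congr fun p θ => add_sub_cancel_left _ _

theorem b3_tri {V : Type} [NormedAddCommGroup V] [NormedSpace ℝ V] {a b c : Λ → T N → V}
    {s x : ℝ} (hx : 0 ≤ x) (h1 : Bd (1 / 2 + x / 2) (fun p θ => b p θ - a p θ) (2 * s * (1 - x)))
    (h2 : Bd (1 / 2 + x * (1 / 2) / 2) (fun p θ => c p θ - b p θ) (s * x)) :
    Bd (1 / 2 + x * (1 / 2) / 2) (fun p θ => c p θ - a p θ) (2 * s * (1 - x * (1 / 2))) :=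
  ((h2.add (h1.mono (by linarith) le_rfl)).congr fun _ _ => (sub_add_sub_cancel _ _ _).symm).mono
    le_rfl (le_of_eq (by ring))

theorem b3_rec {Z : Type} {I : ℕ → Z → Prop} {R : ℕ → Z → Z → Prop} {z0 : Z} (h0 : I 0 z0)
    (h : ∀ n z, I n z → ∃ z', I (n + 1) z' ∧ R n z z') :
    ∃ z : ℕ → Z, z 0 = z0 ∧ ∀ n, I n (z n) ∧ R n (z n) (z (n + 1)) := by
  choose f hf using h
  let z : ∀ n, {z // I n z} := fun n =>
    Nat.rec ⟨z0, h0⟩ (fun n w => ⟨f n w.1 w.2, (hf n w.1 w.2).1⟩) n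
  exact ⟨fun n => (z n).1, rfl, fun n => ⟨(z n).2, (hf n (z n).1 (z n).2).2⟩⟩

theorem b3_sol {γ : ℝ} (hγ : 0 < γ) (τ n : ℕ) :
    sol γ τ ((1 / 2) ^ n / 32) ≤ sol γ τ (1 / 32) * (2 ^ (2 * τ + 1)) ^ n := by
  have h1 : sol γ τ ((1 / 2) ^ n / 32) = sol γ τ (1 / 32) * (2 ^ (2 * τ)) ^ n := by
    unfold sol
    generalize 2 * τ = k
    rw [← pow_mul, mul_comm k n, pow_mul]
    simp only [div_pow, one_pow]
    field_simp
  have h2 : 0 ≤ sol γ τ (1 / 32) := by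
    unfold sol
    positivity
  rw [h1]
  gcongr
  · norm_num
  · omega

/-- The Newton iteration converges to a family of invariant tori. -/
theorem kam_core {F : XX N E P → E} {α : XX N E P → E →L[ℝ] ℝ}
    {Ω : XX N E P → E →L[ℝ] E →L[ℝ] ℝ} {r C γ : ℝ} {τ : ℕ} {ω : Λ → T N} {K0 : Λ → T N → E}
    {m0 : Λ → T N} {ν : Λ → P} {N0 : Λ → T N → T N →L[ℝ] E}
    {Q0 : Λ → T N → E →L[ℝ] T N × T N} {W0 : Λ → T N → T N →L[ℝ] T N} (hA : An F α Ω r C)
    (hω : Dio ω γ τ) (hB : Base F Ω ω K0 m0 ν r C N0 Q0 W0) :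
    ∃ ε0 C1 : ℝ, 0 < ε0 ∧ ∀ ε : ℝ, |ε| ≤ ε0 → Ex F α Ω r ε →
      ∃ (K : Λ → T N → E) (m : Λ → T N), Bd (1 / 2) (fun p θ => K p θ - K0 p θ) (C1 * |ε|) ∧
        Bd (1 / 2) (fun p (_ : T N) => m p - m0 p) (C1 * |ε|) ∧
        ∀ p θ, F (ε, K p θ, m p, ν p) = K p (θ + ω p) := by
  obtain ⟨A, hstep⟩ := newton_step
  obtain ⟨κ, D, hκ, hfr⟩ := frames hA hω hB
  have hr : 0 < r := hA.tF.1
  have hC : 0 ≤ C := hA.tF.2.1
  obtain ⟨D0, d1, d2, d3, d4⟩ : ∃ D0 : ℝ, 32 ≤ D0 ∧ C ≤ D0 ∧ D ≤ D0 ∧ sol γ τ (1 / 32) ≤ D0 :=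
    ⟨max (max 32 C) (max D (sol γ τ (1 / 32))), le_max_of_le_left (le_max_left _ _),
      le_max_of_le_left (le_max_right _ _), le_max_of_le_right (le_max_left _ _),
      le_max_of_le_right (le_max_right _ _)⟩
  obtain ⟨b, hb⟩ : ∃ b : ℝ, b = 2 ^ (2 * τ + 1) := ⟨_, rfl⟩
  have hb2 : 2 ≤ b := hb ▸ le_self_pow₀ one_le_two (by omega)
  have hc : 1 ≤ D0 ^ A := one_le_pow₀ (by linarith)
  have hl : 1 ≤ b ^ A := one_le_pow₀ (by linarith)
  have hcC : 0 ≤ D0 ^ A * C := by positivity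
  obtain ⟨η, hη, η1, η2, η3⟩ : ∃ η : ℝ, 0 < η ∧ η ≤ 1 / (2 * b ^ A) ∧ η ≤ r / 8 ∧ η ≤ κ / 2 :=
    ⟨min (1 / (2 * b ^ A)) (min (r / 8) (κ / 2)), by positivity, min_le_left _ _,
      min_le_of_right_le (min_le_left _ _), min_le_of_right_le (min_le_right _ _)⟩
  refine ⟨min (min κ r) (η / (D0 ^ A * C + 1)), 2 * (D0 ^ A * C), by positivity,
    fun ε hε hE => ?_⟩
  obtain ⟨⟨ε1, ε2⟩, ε3⟩ : (|ε| ≤ κ ∧ |ε| ≤ r) ∧ |ε| ≤ η / (D0 ^ A * C + 1) := by
    simpa only [le_min_iff] using hε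
  obtain ⟨e0, he0⟩ : ∃ e0 : ℝ, e0 = C * |ε| := ⟨_, rfl⟩
  obtain ⟨s, hs⟩ : ∃ s : ℝ, s = D0 ^ A * e0 := ⟨_, rfl⟩
  have he00 : 0 ≤ e0 := he0 ▸ by positivity
  have hs0 : 0 ≤ s := hs ▸ by positivity
  have hsη : s ≤ η := by
    rw [le_div_iff₀ (by positivity)] at ε3
    rw [hs, he0]
    linear_combination ε3 + abs_nonneg ε
  have hs1 : s * (2 * b ^ A) ≤ 1 := by
    rw [← le_div_iff₀ (by positivity)]
    exact hsη.trans η1
  have he1 : e0 ≤ 1 :=
    (le_mul_of_one_le_left he00 hc).trans (hs.ge.trans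
      ((le_mul_of_one_le_right hs0 (by linarith)).trans hs1))
  have hx0 : ∀ n : ℕ, (0 : ℝ) < (1 / 2) ^ n := fun n => by positivity
  have hx1 : ∀ n : ℕ, (1 / 2 : ℝ) ^ n ≤ 1 := fun n => pow_le_one₀ (by norm_num) (by norm_num)
  have hen : ∀ n : ℕ, e0 * (1 / 2) ^ n / (b ^ A) ^ n ≤ e0 * (1 / 2) ^ n := fun n =>
    div_le_self (by positivity) (one_le_pow₀ hl)
  let I : ℕ → (Λ → T N → E) × (Λ → T N) → Prop := fun n z =>
    Bd (1 / 2 + (1 / 2) ^ n / 2) (fun p θ => z.1 p θ - K0 p θ) (2 * s * (1 - (1 / 2) ^ n)) ∧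
    Bd (1 / 2 + (1 / 2) ^ n / 2) (fun p θ => Lf z.1 p θ - Lf K0 p θ) (2 * s * (1 - (1 / 2) ^ n)) ∧
    Bd (1 / 2 + (1 / 2) ^ n / 2) (fun p (_ : T N) => z.2 p - m0 p) (2 * s * (1 - (1 / 2) ^ n)) ∧
    Bd (1 / 2 + (1 / 2) ^ n / 2) (Ef F ω ε z.1 z.2 ν) (e0 * (1 / 2) ^ n / (b ^ A) ^ n)
  let R : ℕ → (Λ → T N → E) × (Λ → T N) → (Λ → T N → E) × (Λ → T N) → Prop := fun n z z' =>
    Bd (1 / 2) (Yf ε z.1 z.2 ν) (r / 8) ∧
    Bd (1 / 2) (fun p θ => z'.1 p θ - z.1 p θ) (s * (1 / 2) ^ n) ∧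
    Bd (1 / 2) (fun p (_ : T N) => z'.2 p - z.2 p) (s * (1 / 2) ^ n)
  have h0 : I 0 (K0, m0) := by
    have hn : ‖((ε, 0, 0, 0) : XX N E P)‖ = |ε| := by simp [Prod.norm_def]
    have h1 := (hA.tF.2.2.2 Λ 1 _ _ _ _ zero_le_one hB.bY (Bd.const 1 ((ε, 0, 0, 0) : XX N E P))
      (by linarith) (hn ▸ ε2)).2.1
    refine ⟨((Bd.zero _).congr fun p θ => sub_self _).mono le_rfl (by simp),
      ((Bd.zero _).congr fun p θ => sub_self _).mono le_rfl (by simp),
      ((Bd.zero _).congr fun p θ => sub_self _).mono le_rfl (by simp),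
      (h1.congr fun p θ => ?_).mono (by norm_num) (by simp [hn, he0])⟩
    rw [hB.f0]
    simp [Ef, Yf]
  have hS : ∀ n z, I n z → ∃ z', I (n + 1) z' ∧ R n z z' := by
    rintro n ⟨K, m⟩ ⟨i1, i2, i3, i4⟩
    have x0 := hx0 n
    have x1 := hx1 n
    have hsx : s * (1 / 2) ^ n ≤ s := mul_le_of_le_one_right hs0 x1
    have hk : 2 * s * (1 - (1 / 2) ^ n) ≤ κ := by
      linear_combination 2 * hsη + 2 * η3 + 2 * mul_nonneg hs0 x0.le
    obtain ⟨hY, Nn, Q, ub, Ti, hF⟩ := hfr _ ε K m (by linarith) (by linarith) ε1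
      (i1.mono le_rfl hk) (i2.mono le_rfl hk) (i3.mono le_rfl hk)
    have hbn : (2 : ℝ) ^ n ≤ b ^ n := pow_le_pow_left₀ (by norm_num) hb2 n
    have hb1 : 1 ≤ b ^ n := one_le_pow₀ (by linarith)
    have hD : D0 ≤ D0 * b ^ n := le_mul_of_one_le_right (by linarith) hb1
    have hp : (D0 * b ^ n) ^ A * (e0 * (1 / 2) ^ n / (b ^ A) ^ n) = s * (1 / 2) ^ n := by
      rw [hs, mul_pow, ← pow_mul, mul_comm n A, pow_mul]
      field_simp
    obtain ⟨K', m', j1, j2, j3, j4⟩ := hstep (δ := (1 / 2) ^ n / 32) (D := D0 * b ^ n)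
      (b3_an_mono hA (d2.trans hD)) hE hω (by positivity) (by linarith) (by linarith) (by linarith)
      (by
        rw [show 1 / ((1 / 2 : ℝ) ^ n / 32) = 32 * 2 ^ n by rw [div_pow, one_pow]; field_simp]
        exact mul_le_mul d1 hbn (by positivity) (by linarith))
      ((b3_sol hω.2.1 τ n).trans (hb ▸ mul_le_mul_of_nonneg_right d4 (by positivity)))
      ((hen n).trans ((mul_le_of_le_one_right he00 x1).trans he1))
      (hp.le.trans (hsx.trans (hsη.trans η2))) hY (b3_fr_mono hF (d3.trans hD)) i4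
    have hρ : (1 / 2 + (1 / 2) ^ n / 2 - 8 * ((1 / 2) ^ n / 32) : ℝ) =
        1 / 2 + (1 / 2) ^ n * (1 / 2) / 2 := by ring
    rw [hρ, hp] at j1 j2 j3
    rw [hρ, sq, ← mul_assoc, hp] at j4
    refine ⟨(K', m'), ?_, hY.mono (by linarith) le_rfl, j1.mono (by linarith) le_rfl,
      j3.mono (by linarith) le_rfl⟩
    simp only [I, pow_succ]
    refine ⟨b3_tri x0.le i1 j1, b3_tri x0.le i2 j2,
      b3_tri (a := fun p _ => m0 p) (b := fun p _ => m p) (c := fun p _ => m' p) x0.le i3 j3,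
      j4.mono le_rfl ?_⟩
    have h1 : s * (1 / 2) ^ n ≤ 1 / (2 * b ^ A) := hsx.trans (hsη.trans η1)
    refine (mul_le_mul_of_nonneg_right h1 (by positivity)).trans (le_of_eq ?_)
    field_simp
  obtain ⟨z, z0, hz⟩ := b3_rec h0 hS
  have hK0 : (z 0).1 = K0 := by rw [z0]
  have hm0 : (z 0).2 = m0 := by rw [z0]
  have hCs : 2 * s = 2 * (D0 ^ A * C) * |ε| := by
    rw [hs, he0]
    ring
  have l1 := fun p θ => b3_lim (a := fun n => (z n).1 p θ) fun n =>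
    (hz n).2.2.1.norm_le (by norm_num) p θ
  have l2 := fun p => b3_lim (a := fun n => (z n).2 p) fun n =>
    (hz n).2.2.2.norm_le (by norm_num) p 0
  refine ⟨fun p θ => (z 0).1 p θ + ∑' n, ((z (n + 1)).1 p θ - (z n).1 p θ),
    fun p => (z 0).2 p + ∑' n, ((z (n + 1)).2 p - (z n).2 p), ?_, ?_, fun p θ => ?_⟩
  · rw [← hCs, ← hK0]
    exact b3_series (a := fun n => (z n).1) fun n => (hz n).2.2.1
  · rw [← hCs, ← hm0]
    exact b3_series (a := fun n p _ => (z n).2 p) fun n => (hz n).2.2.2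
  · have l3 := (tendsto_const_nhds (x := ε)).prodMk_nhds ((l1 p θ).prodMk_nhds
      ((l2 p).prodMk_nhds (tendsto_const_nhds (x := ν p))))
    have l4 := le_of_tendsto' l3.norm fun n => (hz n).2.1.norm_le (by norm_num) p θ
    have l5 := ((hA.tF.2.2.1 _ (l4.trans (by linarith))).continuousAt.tendsto.comp l3).sub
      (l1 p (θ + ω p))
    have l6 : Tendsto (fun n => e0 * (1 / 2 : ℝ) ^ n) atTop (𝓝 0) := by
      simpa using (tendsto_pow_atTop_nhds_zero_of_lt_one (r := (1 / 2 : ℝ)) (by norm_num)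
        (by norm_num)).const_mul e0
    exact sub_eq_zero.1 (tendsto_nhds_unique l5 (squeeze_zero_norm
      (fun n => ((hz n).1.2.2.2.norm_le (by positivity) p θ).trans (hen n)) l6))

end Pool.Agent.MP_28624d_gt.K

end

end

-- part MP_28624d_gt.K.KD
section

section

/-!
Sets of positive measure.
-/

set_option maxSynthPendingDepth 3

namespace Pool.Agent.MP_28624d_gt.K

open Real Filter Topology MeasureTheory

variable {V W : Type} [NormedAddCommGroup V] [NormedSpace ℝ V] [FiniteDimensional ℝ V]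
  [NormedAddCommGroup W] [NormedSpace ℝ W] [FiniteDimensional ℝ W]

/-- Any two additive Haar measures have the same null sets. -/
theorem pos_iff [MeasurableSpace V] [BorelSpace V] (μ : Measure V) [μ.IsAddHaarMeasure]
    (S : Set V) : Pos S ↔ μ S ≠ 0 := by
  rename_i m hb _
  obtain rfl : m = borel V := hb.measurable_eq
  let := borel V
  unfold Pos
  exact not_congr
    ⟨fun h => Measure.absolutelyContinuous_isAddHaarMeasure μ μH[Module.finrank ℝ V] h,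
      fun h => Measure.absolutelyContinuous_isAddHaarMeasure μH[Module.finrank ℝ V] μ h⟩

theorem Pos.mono {S S' : Set V} (h : Pos S) (hs : S ⊆ S') : Pos S' :=
  fun h' => h (measure_mono_null hs h')

theorem Pos.of_nhds {U : Set V} {x : V} (hU : U ∈ 𝓝 x) : Pos U := by
  borelize V
  exact (pos_iff Measure.addHaar U).2 (Measure.measure_pos_of_mem_nhds _ hU).ne'

theorem Pos.prod {S : Set V} {S' : Set W} (h : Pos S) (h' : Pos S') : Pos (S ×ˢ S') := by
  borelize V W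
  have := Measure.prod.instIsAddHaarMeasure (Measure.addHaar : Measure V)
    (Measure.addHaar : Measure W)
  rw [pos_iff ((Measure.addHaar : Measure V).prod (Measure.addHaar : Measure W)),
    Measure.prod_prod]
  exact mul_ne_zero ((pos_iff _ S).1 h) ((pos_iff _ S').1 h')

/-- The inverse map is Lipschitz on the image. -/
theorem Pos.image {S : Set V} (h : Pos S) (hd : Module.finrank ℝ V = Module.finrank ℝ W)
    {f : V → W} {c : ℝ} (hc : 0 < c) (hf : ∀ x ∈ S, ∀ y ∈ S, c * ‖x - y‖ ≤ ‖f x - f y‖) :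
    Pos (f '' S) := by
  borelize V W
  have hinj : Set.InjOn f S := fun x hx y hy e => by
    have h1 := hf x hx y hy
    rw [e, sub_self, norm_zero] at h1
    exact sub_eq_zero.1 (norm_le_zero_iff.1 (nonpos_of_mul_nonpos_right h1 hc))
  have hg : ∀ x ∈ S, Function.invFunOn f S (f x) = x := fun x hx => hinj.leftInvOn_invFunOn hx
  have hL : LipschitzOnWith (Real.toNNReal c⁻¹) (Function.invFunOn f S) (f '' S) := by
    refine LipschitzOnWith.of_dist_le' ?_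
    rintro _ ⟨x, hx, rfl⟩ _ ⟨y, hy, rfl⟩
    rw [hg x hx, hg y hy, dist_eq_norm, dist_eq_norm, le_inv_mul_iff₀ hc]
    exact hf x hx y hy
  intro h0
  have h1 := hL.hausdorffMeasure_image_le (d := (Module.finrank ℝ W : ℝ)) (Nat.cast_nonneg _)
  rw [hinj.invFunOn_image subset_rfl, h0, mul_zero, ← hd] at h1
  exact h (le_antisymm h1 zero_le)

/-- A map with invertible strict derivative keeps positive measure near the point. -/
theorem pos_local {f : V → W} {x : V} {f' : V ≃L[ℝ] W}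
    (hf : HasStrictFDerivAt f (f' : V →L[ℝ] W) x) :
    ∃ U ∈ 𝓝 x, ∀ S ⊆ U, Pos S → Pos (f '' S) := by
  set K := ‖(f'.symm : W →L[ℝ] V)‖ + 1 with hK
  have hK0 : 0 < K := by positivity
  have h1 := hf.isLittleO.bound (show 0 < 1 / (2 * K) by positivity)
  rw [nhds_prod_eq] at h1
  obtain ⟨U, hU, h2⟩ := Filter.mem_prod_self_iff.1 h1
  refine ⟨U, hU, fun S hS h => h.image f'.toLinearEquiv.finrank_eq
    (c := 1 / (2 * K)) (by positivity) fun y hy z hz => ?_⟩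
  have h3 : ‖f y - f z - f' (y - z)‖ ≤ 1 / (2 * K) * ‖y - z‖ :=
    h2 (Set.mk_mem_prod (hS hy) (hS hz))
  have h4 : ‖y - z‖ ≤ K * ‖f' (y - z)‖ := by
    have h5 := (f'.symm : W →L[ℝ] V).le_opNorm (f' (y - z))
    rw [ContinuousLinearEquiv.coe_coe, f'.symm_apply_apply] at h5
    refine h5.trans (mul_le_mul_of_nonneg_right (by linarith) (norm_nonneg _))
  have h6 : 2 * (1 / (2 * K) * ‖y - z‖) ≤ ‖f' (y - z)‖ := by
    rw [show 2 * (1 / (2 * K) * ‖y - z‖) = K⁻¹ * ‖y - z‖ by field_simp, inv_mul_le_iff₀ hK0]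
    exact h4
  have h7 := norm_sub_norm_le (f' (y - z)) (f y - f z)
  rw [norm_sub_rev (f' (y - z))] at h7
  linarith

/-- Polar coordinates are antilipschitz on a small sector. -/
theorem polar_antilip {a b s t : ℝ} (ha : a ∈ Set.Icc (1 : ℝ) 3) (hb : b ∈ Set.Icc (1 : ℝ) 3)
    (hs : |s| ≤ 1) (ht : |t| ≤ 1) :
    1 / 10 * max |a - b| |s - t| ≤
      ‖(a : ℂ) * Complex.exp ((s : ℂ) * Complex.I) - (b : ℂ) * Complex.exp ((t : ℂ) * Complex.I)‖ := by
  have e : (a : ℂ) * Complex.exp ((s : ℂ) * Complex.I) - (b : ℂ) * Complex.exp ((t : ℂ) * Complex.I) =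
      ((a * cos s - b * cos t : ℝ) : ℂ) + ((a * sin s - b * sin t : ℝ) : ℂ) * Complex.I := by
    rw [Complex.exp_mul_I, Complex.exp_mul_I]
    push_cast
    ring
  have e2 : (a * cos s - b * cos t) ^ 2 + (a * sin s - b * sin t) ^ 2 =
      (a - b) ^ 2 + 2 * (a * b) * (1 - cos (s - t)) := by
    rw [cos_sub]
    linear_combination a ^ 2 * sin_sq_add_cos_sq s + b ^ 2 * sin_sq_add_cos_sq t
  have hst : |s - t| ≤ π := (abs_sub s t).trans (by linarith [pi_gt_three])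
  have h1 := cos_le_one_sub_mul_cos_sq hst
  have h2 : 1 / 8 ≤ 2 / π ^ 2 := by
    rw [div_le_div_iff₀ (by norm_num) (by positivity)]
    have := pow_le_pow_left₀ pi_pos.le pi_le_four 2
    linarith
  have h3 := mul_le_mul_of_nonneg_right h2 (sq_nonneg (s - t))
  have h4 : 1 ≤ a * b := one_le_mul_of_one_le_of_one_le ha.1 hb.1
  have h5 := mul_le_mul_of_nonneg_right h4 (show 0 ≤ 1 - cos (s - t) by linarith [cos_le_one (s - t)])
  refine (sq_le_sq₀ (by positivity) (norm_nonneg _)).1 ?_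
  rw [e, Complex.sq_norm, Complex.normSq_add_mul_I, e2, mul_pow]
  rcases max_choice |a - b| |s - t| with h | h <;> rw [h, sq_abs] <;>
    linarith [sq_nonneg (a - b), sq_nonneg (s - t)]

end Pool.Agent.MP_28624d_gt.K

end

section

/-!
Diophantine vectors have positive measure in every ball.
-/

set_option maxSynthPendingDepth 3

namespace Pool.Agent.MP_28624d_gt.K

open Real Filter Topology MeasureTheory

theorem b4d_summable_int : Summable fun n : ℤ => (1 + (n : ℝ) ^ 2)⁻¹ := by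
  have h1 : Summable fun n : ℤ => 1 / (n : ℝ) ^ 2 := summable_one_div_int_pow.2 one_lt_two
  have h2 : Summable fun n : ℤ => if n = 0 then (1 : ℝ) else 0 := (hasSum_ite_eq 0 1).summable
  refine Summable.of_nonneg_of_le (fun n => by positivity) (fun n => ?_) (h1.add h2)
  split_ifs with hn
  · simp [hn]
  · have h3 : (0 : ℝ) < (n : ℝ) ^ 2 := by
      have : (n : ℝ) ≠ 0 := by exact_mod_cast hn
      positivity
    rw [add_zero, one_div]
    exact inv_anti₀ h3 (by linarith)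

theorem b4d_summable (N : ℕ) :
    Summable fun k : Fin N → ℤ => ∏ j, (1 + (k j : ℝ) ^ 2)⁻¹ := by
  induction N with
  | zero => exact Summable.of_finite
  | succ N ih =>
    rw [← (Fin.consEquiv fun _ : Fin (N + 1) => ℤ).summable_iff]
    have h := b4d_summable_int.mul_of_nonneg ih (fun n => by positivity)
      (fun k => Finset.prod_nonneg fun j _ => by positivity)
    refine h.congr fun x => ?_
    simp [Fin.prod_univ_succ, Fin.consEquiv, mul_comm]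

theorem b4d_one_le_kn {N : ℕ} {k : Fin N → ℤ} (hk : k ≠ 0) : 1 ≤ kn k := by
  obtain ⟨j, hj⟩ := Function.ne_iff.1 hk
  have h1 : (1 : ℝ) ≤ |(k j : ℝ)| := by
    have : (1 : ℤ) ≤ |k j| := Int.one_le_abs hj
    exact_mod_cast this
  exact h1.trans (Finset.single_le_sum (f := fun j => |(k j : ℝ)|)
    (fun j _ => abs_nonneg _) (Finset.mem_univ j))

theorem b4d_inv_le {N : ℕ} {k : Fin N → ℤ} (hk : k ≠ 0) :
    (kn k ^ (2 * N))⁻¹ ≤ 2 ^ N * ∏ j, (1 + (k j : ℝ) ^ 2)⁻¹ := by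
  have h1 := b4d_one_le_kn hk
  have h2 : ∀ j, (kn k ^ 2)⁻¹ ≤ 2 * (1 + (k j : ℝ) ^ 2)⁻¹ := fun j => by
    have h3 : |(k j : ℝ)| ≤ kn k := Finset.single_le_sum (f := fun j => |(k j : ℝ)|)
      (fun j _ => abs_nonneg _) (Finset.mem_univ j)
    have h4 : (k j : ℝ) ^ 2 ≤ kn k ^ 2 := by
      rw [← sq_abs]
      exact pow_le_pow_left₀ (abs_nonneg _) h3 2
    rw [← div_eq_mul_inv, inv_eq_one_div, div_le_div_iff₀ (by positivity) (by positivity)]
    nlinarith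
  calc (kn k ^ (2 * N))⁻¹ = ∏ _j : Fin N, (kn k ^ 2)⁻¹ := by
        simp [pow_mul]
    _ ≤ ∏ j : Fin N, 2 * (1 + (k j : ℝ) ^ 2)⁻¹ :=
        Finset.prod_le_prod (fun j _ => by positivity) fun j _ => h2 j
    _ = _ := by
        rw [Finset.prod_mul_distrib]
        simp

theorem b4d_far {a t η : ℝ} (h1 : 2 * π * η ≤ |t|) (h2 : |t| ≤ π) (ha : |sin (a / 2)| < η)
    (hb : |sin ((a + t) / 2)| < η) : False := by
  have h3 : |t / 2| ≤ π / 2 := by
    rw [abs_div, abs_two]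
    linarith
  have h4 := mul_abs_le_abs_sin h3
  have e : sin (t / 2) = sin ((a + t) / 2) * cos (a / 2) - cos ((a + t) / 2) * sin (a / 2) := by
    rw [← sin_sub]
    ring_nf
  have h5 : |sin (t / 2)| ≤ |sin ((a + t) / 2)| + |sin (a / 2)| := by
    rw [e]
    refine (abs_sub _ _).trans ?_
    rw [abs_mul, abs_mul]
    have := abs_cos_le_one (a / 2)
    have := abs_cos_le_one ((a + t) / 2)
    have := abs_nonneg (sin (a / 2))
    have := abs_nonneg (sin ((a + t) / 2))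
    nlinarith
  have h6 : 2 * η ≤ 2 / π * |t / 2| := by
    rw [abs_div, abs_two, div_mul_eq_mul_div, le_div_iff₀ pi_pos]
    linarith
  linarith

theorem b4d_slab {N : ℕ} (ω0 : T N) {r0 : ℝ} (hr : 0 < r0) {k : Fin N → ℤ} (hk : k ≠ 0) {η : ℝ}
    (hη : 0 < η) :
    volume {x : T N | ‖x‖ ≤ 1 ∧ |sin (dot k (ω0 + r0 • x) / 2)| < η} ≤
      ENNReal.ofReal (2 * η * volume.real (Metric.closedBall (0 : T N) (1 + π / r0))) := by
  obtain ⟨j, hj⟩ := Function.ne_iff.1 hk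
  have hj0 : (k j : ℝ) ≠ 0 := by exact_mod_cast hj
  have hj1 : (1 : ℝ) ≤ |(k j : ℝ)| := by
    have : (1 : ℤ) ≤ |k j| := Int.one_le_abs hj
    exact_mod_cast this
  set S := {x : T N | ‖x‖ ≤ 1 ∧ |sin (dot k (ω0 + r0 • x) / 2)| < η} with hS
  set B := Metric.closedBall (0 : T N) (1 + π / r0) with hB
  let e : ℝ → T N := fun t => Pi.single j (t / (r0 * k j))
  have he : ∀ t x, dot k (ω0 + r0 • (x + e t)) = dot k (ω0 + r0 • x) + t := fun t x => by
    have h1 : ∑ i, (k i : ℝ) * (r0 * e t i) = t := by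
      rw [Finset.sum_eq_single j]
      · simp only [e, Pi.single_eq_same]
        field_simp
      · intro i _ hi
        simp [e, Pi.single_eq_of_ne hi]
      · simp
    simp only [dot, Pi.add_apply, Pi.smul_apply, smul_eq_mul]
    conv_rhs => rw [← h1, ← Finset.sum_add_distrib]
    exact Finset.sum_congr rfl fun i _ => by ring
  have hen : ∀ t, |t| ≤ π → ‖e t‖ ≤ π / r0 := fun t ht => by
    simp only [e]
    rw [Pi.norm_single, Real.norm_eq_abs, abs_div, abs_mul, abs_of_pos hr,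
      div_le_div_iff₀ (by positivity) hr]
    have h1 : |t| * r0 ≤ π * r0 := mul_le_mul_of_nonneg_right ht hr.le
    have h2 : π * r0 * 1 ≤ π * r0 * |(k j : ℝ)| :=
      mul_le_mul_of_nonneg_left hj1 (by positivity)
    nlinarith
  have hSm : MeasurableSet S := by
    have h1 : Continuous fun x : T N => |sin (dot k (ω0 + r0 • x) / 2)| := by
      unfold dot
      fun_prop
    have h2 : MeasurableSet {x : T N | |sin (dot k (ω0 + r0 • x) / 2)| < η} :=
      (isOpen_lt h1 continuous_const).measurableSet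
    have h3 : MeasurableSet {x : T N | ‖x‖ ≤ 1} :=
      (isClosed_le continuous_norm continuous_const).measurableSet
    exact h3.inter h2
  set n := ⌊1 / (2 * η)⌋₊ with hn
  let tt : ℕ → ℝ := fun m => m * (2 * π * η)
  have htt : ∀ m ∈ Finset.range (n + 1), 0 ≤ tt m ∧ tt m ≤ π := fun m hm => by
    refine ⟨by positivity, ?_⟩
    have h1 : (m : ℝ) ≤ n := by exact_mod_cast Nat.lt_succ_iff.1 (Finset.mem_range.1 hm)
    have h2 : (n : ℝ) ≤ 1 / (2 * η) := Nat.floor_le (by positivity)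
    have h3 := h1.trans h2
    rw [le_div_iff₀ (by positivity)] at h3
    simp only [tt]
    nlinarith [pi_pos]
  let A : ℕ → Set (T N) := fun m => (fun x => x + e (tt m)) ⁻¹' S
  have hA : ∀ m, volume (A m) = volume S := fun m => measure_preimage_add_right _ _ _
  have hd : (↑(Finset.range (n + 1)) : Set ℕ).PairwiseDisjoint A := by
    intro a ha b hb hab
    refine Set.disjoint_left.2 fun x hxa hxb => ?_
    have h1 := hxa.2
    have h2 := hxb.2
    rw [he] at h1 h2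
    obtain ⟨ha0, ha1⟩ := htt a ha
    obtain ⟨hb0, hb1⟩ := htt b hb
    refine b4d_far (a := dot k (ω0 + r0 • x) + tt a) (t := tt b - tt a) (η := η) ?_ ?_ h1 ?_
    · have h3 : (1 : ℝ) ≤ |(b : ℝ) - a| := by
        have : (1 : ℤ) ≤ |(b : ℤ) - a| := Int.one_le_abs (by omega)
        exact_mod_cast this
      simp only [tt]
      rw [← sub_mul, abs_mul, abs_of_pos (a := 2 * π * η) (by positivity)]
      have : 0 < 2 * π * η := by positivity
      nlinarith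
    · rw [abs_le]
      constructor <;> linarith
    · rwa [add_add_sub_cancel]
  have hsub : (⋃ m ∈ Finset.range (n + 1), A m) ⊆ B := by
    intro x hx
    obtain ⟨m, hm, hx⟩ := Set.mem_iUnion₂.1 hx
    obtain ⟨h0, h1⟩ := htt m hm
    have h2 := hen (tt m) (by rwa [abs_of_nonneg h0])
    have h3 := norm_sub_le (x + e (tt m)) (e (tt m))
    rw [add_sub_cancel_right] at h3
    rw [hB, mem_closedBall_zero_iff]
    have h4 : ‖x + e (tt m)‖ ≤ 1 := hx.1
    linarith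
  have hBf : volume B ≠ ⊤ := measure_closedBall_lt_top.ne
  have h1 := measure_mono (μ := volume) hsub
  rw [measure_biUnion_finset hd fun m _ => hSm.preimage (by fun_prop)] at h1
  simp only [hA, Finset.sum_const, Finset.card_range, nsmul_eq_mul] at h1
  have h2 : 1 ≤ 2 * η * ((n + 1 : ℕ) : ℝ) := by
    have h3 := Nat.lt_floor_add_one (1 / (2 * η))
    rw [div_lt_iff₀ (by positivity)] at h3
    push_cast
    linarith
  calc volume S = ENNReal.ofReal 1 * volume S := by simp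
    _ ≤ ENNReal.ofReal (2 * η * ((n + 1 : ℕ) : ℝ)) * volume S := by gcongr
    _ = ENNReal.ofReal (2 * η) * (((n + 1 : ℕ) : ENNReal) * volume S) := by
        rw [ENNReal.ofReal_mul (by positivity), ENNReal.ofReal_natCast, mul_assoc]
    _ ≤ ENNReal.ofReal (2 * η) * volume B := by gcongr
    _ = _ := by
        rw [ENNReal.ofReal_mul (p := 2 * η) (by positivity), ofReal_measureReal hBf]

/-- For k ≠ 0 and 0 < η the set of x in the unit ball with |sin (dot k (ω0 + r0 • x) / 2)| < η has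
volume at most C * η with C independent of k and η. One way: pick j with k j ≠ 0; the translates of
the set by multiples of (2 π η / (r0 * k j)) • e j are pairwise disjoint as long as the total
shift of dot k (..) is below 2 π - 2 π η, and they lie in a fixed ball; or use Fubini in the
coordinate j. Then take η = γ / kn k ^ τ with τ = 2 N + 2 (any τ for which ∑ 1 / kn k ^ τ
converges; you choose it), sum over k and take γ small. -/
theorem exists_dio (N : ℕ) (ω0 : T N) {r0 : ℝ} (hr : 0 < r0) :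
    ∃ (γ : ℝ) (τ : ℕ), 0 < γ ∧ γ ≤ 1 ∧ Pos {x : T N | ‖x‖ ≤ 1 ∧ ∀ k : Fin N → ℤ, k ≠ 0 →
      γ ≤ kn k ^ τ * |sin (dot k (ω0 + r0 • x) / 2)|} := by
  by_contra hne
  set V := volume.real (Metric.closedBall (0 : T N) (1 + π / r0)) with hV
  have hV0 : 0 ≤ V := measureReal_nonneg
  let c : (Fin N → ℤ) → ℝ := fun k => 2 * V * 2 ^ N * ∏ j, (1 + (k j : ℝ) ^ 2)⁻¹
  have hc0 : ∀ k, 0 ≤ c k := fun k =>
    mul_nonneg (by positivity) (Finset.prod_nonneg fun j _ => by positivity)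
  have hc : Summable c := (b4d_summable N).mul_left _
  have hA0 : 0 ≤ ∑' k, c k := tsum_nonneg hc0
  set A := ∑' k, c k with hA
  have key : ∀ γ : ℝ, 0 < γ → γ ≤ 1 →
      volume (Metric.closedBall (0 : T N) 1) ≤ ENNReal.ofReal (γ * A) := by
    intro γ hγ hγ1
    let G := {x : T N | ‖x‖ ≤ 1 ∧ ∀ k : Fin N → ℤ, k ≠ 0 →
      γ ≤ kn k ^ (2 * N) * |sin (dot k (ω0 + r0 • x) / 2)|}
    have hG : volume G = 0 := by
      by_contra hG
      exact hne ⟨γ, 2 * N, hγ, hγ1, (pos_iff volume G).2 hG⟩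
    let S : (Fin N → ℤ) → Set (T N) := fun k => {x : T N | k ≠ 0 ∧ ‖x‖ ≤ 1 ∧
      |sin (dot k (ω0 + r0 • x) / 2)| < γ / kn k ^ (2 * N)}
    have hS : ∀ k, volume (S k) ≤ ENNReal.ofReal (γ * c k) := fun k => by
      by_cases hk : k = 0
      · simp [S, hk]
      · have h1 : 0 < kn k ^ (2 * N) := pow_pos (one_pos.trans_le (b4d_one_le_kn hk)) _
        refine (measure_mono fun x hx => hx.2).trans
          ((b4d_slab ω0 hr hk (div_pos hγ h1)).trans (ENNReal.ofReal_le_ofReal ?_))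
        have h2 := mul_le_mul_of_nonneg_left (b4d_inv_le hk)
          (show 0 ≤ 2 * γ * V by positivity)
        simp only [c]
        rw [div_eq_mul_inv, ← hV]
        linarith
    have hsub : Metric.closedBall (0 : T N) 1 ⊆ G ∪ ⋃ k, S k := by
      intro x hx
      rw [mem_closedBall_zero_iff] at hx
      by_cases hxG : x ∈ G
      · exact Or.inl hxG
      · have h1 : ∃ k : Fin N → ℤ, k ≠ 0 ∧
            kn k ^ (2 * N) * |sin (dot k (ω0 + r0 • x) / 2)| < γ := by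
          by_contra h
          exact hxG ⟨hx, fun k hk => not_lt.1 fun h2 => h ⟨k, hk, h2⟩⟩
        obtain ⟨k, hk, h2⟩ := h1
        have h3 : 0 < kn k ^ (2 * N) := pow_pos (one_pos.trans_le (b4d_one_le_kn hk)) _
        refine Or.inr (Set.mem_iUnion.2 ⟨k, hk, hx, ?_⟩)
        rw [lt_div_iff₀ h3, mul_comm]
        exact h2
    calc volume (Metric.closedBall (0 : T N) 1) ≤ volume G + volume (⋃ k, S k) :=
          (measure_mono hsub).trans (measure_union_le _ _)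
      _ ≤ ∑' k, ENNReal.ofReal (γ * c k) := by
          rw [hG, zero_add]
          exact (measure_iUnion_le _).trans (ENNReal.tsum_le_tsum hS)
      _ = ENNReal.ofReal (γ * A) := by
          rw [← ENNReal.ofReal_tsum_of_nonneg (fun k => mul_nonneg hγ.le (hc0 k))
            (hc.mul_left γ), tsum_mul_left]
  set b := volume.real (Metric.closedBall (0 : T N) 1) with hb
  have hb0 : 0 < b := ENNReal.toReal_pos
    (Metric.measure_closedBall_pos volume (0 : T N) one_pos).ne' measure_closedBall_lt_top.ne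
  have hγ : 0 < min 1 (b / (A + 1)) := lt_min one_pos (by positivity)
  have h1 : b ≤ min 1 (b / (A + 1)) * A :=
    ENNReal.toReal_le_of_le_ofReal (by positivity) (key _ hγ (min_le_left _ _))
  have h2 : min 1 (b / (A + 1)) * (A + 1) ≤ b :=
    (le_div_iff₀ (by positivity)).1 (min_le_right _ _)
  nlinarith

end Pool.Agent.MP_28624d_gt.K

end

section

/-!
Analytic Hadamard lemma and Poincaré lemmas on balls.
-/

set_option maxSynthPendingDepth 3

namespace Pool.Agent.MP_28624d_gt.K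

open Real Filter Topology MeasureTheory

variable {E M F : Type} [NormedAddCommGroup E] [NormedSpace ℝ E] [NormedAddCommGroup M]
  [NormedSpace ℝ M] [NormedAddCommGroup F] [NormedSpace ℝ F] [CompleteSpace F]

omit [NormedSpace ℝ M] in
theorem b5_norm {t : ℝ} (ht : t ∈ Set.uIcc (0 : ℝ) 1) (x : E × M) : ‖(t • x.1, x.2)‖ ≤ ‖x‖ := by
  rw [Set.uIcc_of_le zero_le_one] at ht
  refine max_le_max ((norm_smul_le _ _).trans (mul_le_of_le_one_left (norm_nonneg _) ?_)) le_rfl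
  rw [Real.norm_of_nonneg ht.1]
  exact ht.2

omit [CompleteSpace F] in
theorem b5_ap {X : ℝ → E →L[ℝ] F} (h : ContinuousOn X (Set.uIcc 0 1)) (v : E) :
    (∫ t in (0 : ℝ)..1, X t) v = ∫ t in (0 : ℝ)..1, X t v ∧
      ContinuousOn (fun t => X t v) (Set.uIcc 0 1) :=
  ⟨ContinuousLinearMap.intervalIntegral_apply h.intervalIntegrable v,
    h.clm_apply continuousOn_const⟩

omit [CompleteSpace F] in
theorem b5_ev {X : ℝ → E →L[ℝ] F} {X' : E →L[ℝ] F} {t : ℝ} (h : HasDerivAt X X' t) (v : E) :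
    HasDerivAt (fun t => X t v) (X' v) t :=
  (h.clm_apply (hasDerivAt_const t v)).congr_deriv (by simp only [map_zero, add_zero])

omit [CompleteSpace F] in
theorem b5_deriv [FiniteDimensional ℝ E] {Ω : E → F} {R : ℝ}
    (hΩ : ∀ u, ‖u‖ < R → ContDiffAt ℝ 1 Ω u) {u : E} (hu : ‖u‖ < R) :
    HasFDerivAt (fun z => ∫ t in (0 : ℝ)..1, t • Ω (t • z))
      (∫ t in (0 : ℝ)..1, t • t • fderiv ℝ Ω (t • u)) u ∧
    ContinuousOn (fun t : ℝ => t • Ω (t • u)) (Set.uIcc 0 1) ∧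
    ContinuousOn (fun t : ℝ => t • t • fderiv ℝ Ω (t • u)) (Set.uIcc 0 1) ∧
    ∀ t ∈ Set.uIcc (0 : ℝ) 1, ‖t • u‖ < R := by
  have := FiniteDimensional.proper_real E
  have t1 : ∀ t ∈ Set.uIcc (0 : ℝ) 1, ‖t‖ ≤ 1 := fun t ht => by
    rw [Set.uIcc_of_le zero_le_one] at ht
    rw [Real.norm_of_nonneg ht.1]
    exact ht.2
  have hm : ∀ t ∈ Set.uIcc (0 : ℝ) 1, ∀ x : E, ‖t • x‖ ≤ ‖x‖ := fun t ht x =>
    (norm_smul_le _ _).trans (mul_le_of_le_one_left (norm_nonneg _) (t1 t ht))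
  have cD : ∀ x, ‖x‖ < R → ContinuousAt (fderiv ℝ Ω) x := fun x hx =>
    ((hΩ x hx).fderiv_right (m := 0) (by norm_num)).continuousAt
  have c1 : ∀ x, ‖x‖ < R → ContinuousOn (fun t : ℝ => t • Ω (t • x)) (Set.uIcc 0 1) :=
    fun x hx t ht => (continuousAt_id.smul ((hΩ _ ((hm t ht x).trans_lt hx)).continuousAt.comp
      (f := fun t : ℝ => t • x) (by fun_prop))).continuousWithinAt
  have c2 : ContinuousOn (fun t : ℝ => t • t • fderiv ℝ Ω (t • u)) (Set.uIcc 0 1) :=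
    fun t ht => (continuousAt_id.smul (continuousAt_id.smul ((cD _ ((hm t ht u).trans_lt hu)).comp
      (f := fun t : ℝ => t • u) (by fun_prop)))).continuousWithinAt
  obtain ⟨R', h1, h2⟩ := exists_between hu
  obtain ⟨C, hC⟩ := (isCompact_closedBall (0 : E) R').exists_bound_of_continuousOn
    fun x hx => (cD x ((mem_closedBall_zero_iff.1 hx).trans_lt h2)).continuousWithinAt
  have hs : Metric.ball (0 : E) R' ∈ 𝓝 u := Metric.isOpen_ball.mem_nhds (mem_ball_zero_iff.2 h1)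
  refine ⟨intervalIntegral.hasFDerivAt_integral_of_dominated_of_fderiv_le
    (F' := fun x t => t • t • fderiv ℝ Ω (t • x)) (bound := fun _ => C) hs ?_
    (c1 u hu).intervalIntegrable c2.intervalIntegrable.def'.aestronglyMeasurable
    (Eventually.of_forall fun t ht x hx => ?_) intervalIntegrable_const
    (Eventually.of_forall fun t ht x hx => ?_), c1 u hu, c2, fun t ht => (hm t ht u).trans_lt hu⟩
  · filter_upwards [hs] with x hx
    exact (c1 x ((mem_ball_zero_iff.1 hx).trans h2)).intervalIntegrable.def'.aestronglyMeasurable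
  · have ht' := Set.uIoc_subset_uIcc ht
    refine (norm_smul_le _ _).trans ((mul_le_of_le_one_left (norm_nonneg _) (t1 t ht')).trans ?_)
    refine (norm_smul_le _ _).trans ((mul_le_of_le_one_left (norm_nonneg _) (t1 t ht')).trans ?_)
    exact hC _ (mem_closedBall_zero_iff.2 ((hm t ht' x).trans (mem_ball_zero_iff.1 hx).le))
  · have h3 := ((hΩ _ ((hm t (Set.uIoc_subset_uIcc ht) x).trans_lt
      ((mem_ball_zero_iff.1 hx).trans h2))).differentiableAt one_ne_zero).hasFDerivAt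
    refine ((h3.comp x ((hasFDerivAt_id x).const_smul t)).const_smul t).congr_fderiv ?_
    ext v
    simp

/-- If p is the power series of G, the series of the integral has coefficients
∫ t in 0..1, t ^ n • (p k).compContinuousLinearMap (fun _ => L t), L t (z, μ) = (t • z, μ), of norm
at most ‖p k‖; exchange sum and integral (intervalIntegral.hasSum_integral_of_summable_norm or
hasSum_integral_of_summable_integral_norm). -/
theorem analyticAt_radial {G : E × M → F} (hG : AnalyticAt ℝ G 0) (n : ℕ) :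
    AnalyticAt ℝ (fun x : E × M => ∫ t in (0 : ℝ)..1, t ^ n • G (t • x.1, x.2)) 0 := by
  obtain ⟨p, r, hp⟩ := hG
  obtain ⟨L, cL, hL⟩ : ∃ L : ℝ → E × M →L[ℝ] E × M, Continuous L ∧
      ∀ t x, L t x = (t • x.1, x.2) :=
    ⟨fun t => t • (ContinuousLinearMap.inl ℝ E M).comp (ContinuousLinearMap.fst ℝ E M) +
      (ContinuousLinearMap.inr ℝ E M).comp (ContinuousLinearMap.snd ℝ E M),
      (continuous_id.smul continuous_const).add continuous_const, fun t x => by simp⟩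
  have hn : ∀ t ∈ Set.uIoc (0 : ℝ) 1, ∀ x, ‖L t x‖ ≤ ‖x‖ := fun t ht x => by
    rw [hL]
    exact b5_norm (Set.uIoc_subset_uIcc ht) x
  have ht1 : ∀ t ∈ Set.uIoc (0 : ℝ) 1, ‖t ^ n‖ ≤ 1 := fun t ht => by
    rw [Set.uIoc_of_le zero_le_one] at ht
    rw [norm_pow, Real.norm_of_nonneg ht.1.le]
    exact pow_le_one₀ ht.1.le ht.2
  have c : ∀ k, Continuous fun t : ℝ => t ^ n • (p k).compContinuousLinearMap fun _ => L t :=
    fun k => (continuous_pow n).smul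
      ((p k).compContinuousLinearMapLRight.cont.comp (continuous_pi fun _ => cL))
  refine ⟨fun k => ∫ t in (0 : ℝ)..1, t ^ n • (p k).compContinuousLinearMap fun _ => L t, r,
    hp.r_le.trans (FormalMultilinearSeries.radius_le_of_le fun k => ?_), hp.r_pos,
    fun {y} hy => ?_⟩
  · refine (intervalIntegral.norm_integral_le_of_norm_le_const (C := ‖p k‖)
      fun t ht => ?_).trans_eq (by simp)
    refine (norm_smul_le _ _).trans ((mul_le_of_le_one_left (norm_nonneg _) (ht1 t ht)).trans ?_)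
    refine ((p k).norm_compContinuousLinearMap_le _).trans (mul_le_of_le_one_right (norm_nonneg _)
      (Finset.prod_le_one (fun _ _ => norm_nonneg _) fun _ _ => ?_))
    exact (L t).opNorm_le_bound zero_le_one fun x => by simpa using hn t ht x
  · have e : ∀ k, (∫ t in (0 : ℝ)..1, t ^ n • (p k).compContinuousLinearMap fun _ => L t)
        (fun _ => y) = ∫ t in (0 : ℝ)..1, t ^ n • p k fun _ => L t y := fun k =>
      ((ContinuousMultilinearMap.apply ℝ (fun _ : Fin k => E × M) F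
        fun _ => y).intervalIntegral_comp_comm ((c k).intervalIntegrable 0 1)).symm
    simp only [e, zero_add, ← hL]
    have hy' : (‖y‖₊ : ENNReal) < r := mem_eball_zero_iff.1 hy
    have hs := p.summable_norm_mul_pow (hy'.trans_le hp.r_le)
    rw [coe_nnnorm] at hs
    refine intervalIntegral.hasSum_integral_of_dominated_convergence
      (fun k _ => ‖p k‖ * ‖y‖ ^ k) (fun k => Continuous.aestronglyMeasurable ?_)
      (fun k => Eventually.of_forall fun t ht => ?_)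
      (Eventually.of_forall fun t _ => hs)
      intervalIntegrable_const (Eventually.of_forall fun t ht => ?_)
    · exact (continuous_pow n).smul
        ((p k).cont.comp (continuous_pi fun _ => cL.clm_apply continuous_const))
    · refine (norm_smul_le _ _).trans ((mul_le_of_le_one_left (norm_nonneg _) (ht1 t ht)).trans ?_)
      exact (p k).le_opNorm_mul_pow_of_le ((pi_norm_le_iff_of_nonneg (norm_nonneg y)).2
        fun _ => hn t ht y)
    · have h1 : L t y ∈ Metric.eball (0 : E × M) r := by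
        rw [mem_eball_zero_iff]
        exact lt_of_le_of_lt (ENNReal.coe_le_coe.2 (hn t ht y)) hy'
      simpa only [zero_add] using (hp.hasSum h1).const_smul (t ^ n)

/-- G x = ∫ t in 0..1, (fderiv f (t • x.1, x.2)).comp inl; fundamental theorem of calculus. -/
theorem exists_hadamard [CompleteSpace E] {f : E × M → E} (hf : AnalyticAt ℝ f 0)
    (h0 : ∀ᶠ μ in 𝓝 (0 : M), f (0, μ) = 0) :
    ∃ G : E × M → E →L[ℝ] E, AnalyticAt ℝ G 0 ∧ (∀ᶠ x in 𝓝 (0 : E × M), f x = G x x.1) ∧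
      ∀ᶠ μ in 𝓝 (0 : M), G (0, μ) = (fderiv ℝ f (0, μ)).comp (ContinuousLinearMap.inl ℝ E M) := by
  have hD : AnalyticAt ℝ (fun x => (fderiv ℝ f x).comp (ContinuousLinearMap.inl ℝ E M)) 0 :=
    (((ContinuousLinearMap.compL ℝ E (E × M) E).flip
      (ContinuousLinearMap.inl ℝ E M)).analyticAt _).comp hf.fderiv
  refine ⟨_, analyticAt_radial hD 0, ?_, Eventually.of_forall fun μ => by simp⟩
  have h1 : ∀ᶠ x in 𝓝 (0 : E × M), f (0, x.2) = 0 :=
    (continuous_snd.tendsto' (0 : E × M) 0 rfl).eventually (p := fun μ => f (0, μ) = 0) h0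
  obtain ⟨ε, hε, hb⟩ := Metric.eventually_nhds_iff.1
    (hf.eventually_analyticAt.and hD.eventually_analyticAt)
  filter_upwards [h1, Metric.ball_mem_nhds 0 hε] with x hx hx'
  have hm : ∀ t ∈ Set.uIcc (0 : ℝ) 1, dist (t • x.1, x.2) (0 : E × M) < ε := fun t ht => by
    rw [dist_zero_right]
    exact (b5_norm ht x).trans_lt (mem_ball_zero_iff.1 hx')
  have hc : ContinuousOn (fun t : ℝ =>
      (fderiv ℝ f (t • x.1, x.2)).comp (ContinuousLinearMap.inl ℝ E M)) (Set.uIcc 0 1) :=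
    fun t ht => ((hb (hm t ht)).2.continuousAt.comp (f := fun t : ℝ => (t • x.1, x.2))
      (by fun_prop)).continuousWithinAt
  simp only [pow_zero, one_smul]
  rw [(b5_ap hc x.1).1, intervalIntegral.integral_eq_sub_of_hasDerivAt
    (f := fun t : ℝ => f (t • x.1, x.2)) (fun t ht => ?_) (b5_ap hc x.1).2.intervalIntegrable]
  · simp [hx]
  · have h2 : HasDerivAt (fun t : ℝ => (t • x.1, x.2)) (x.1, 0) t := by
      simpa using ((hasDerivAt_id t).smul_const x.1).prodMk (hasDerivAt_const t x.2)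
    exact (hb (hm t ht)).1.differentiableAt.hasFDerivAt.comp_hasDerivAt t h2

/-- Poincaré lemma for a closed two form on a ball: differentiate under the integral
(intervalIntegral.hasFDerivAt_integral_of_dominated_of_fderiv_le, the derivative is bounded on
the compact set closedBall 0 R' with ‖u‖ < R' < R); the integrand of the antisymmetrized
derivative is the t derivative of t ^ 2 * Ω (t • u) v w. -/
theorem poincare_two [FiniteDimensional ℝ E] {Ω : E → E →L[ℝ] E →L[ℝ] ℝ} {R : ℝ}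
    (hΩ : ∀ u, ‖u‖ < R → ContDiffAt ℝ 1 Ω u) (ha : ∀ u, ‖u‖ < R → ∀ v w, Ω u v w = -Ω u w v)
    (hc : ∀ x, ‖x‖ < R → ∀ u v w,
      fderiv ℝ Ω x u v w - fderiv ℝ Ω x v u w + fderiv ℝ Ω x w u v = 0)
    {u : E} (hu : ‖u‖ < R) :
    DifferentiableAt ℝ (fun z => (∫ t in (0 : ℝ)..1, t • Ω (t • z)) z) u ∧ ∀ v w,
      fderiv ℝ (fun z => (∫ t in (0 : ℝ)..1, t • Ω (t • z)) z) u v w -
        fderiv ℝ (fun z => (∫ t in (0 : ℝ)..1, t • Ω (t • z)) z) u w v = Ω u v w := by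
  obtain ⟨h1, c1, c2, h2⟩ := b5_deriv hΩ hu
  have h3 := h1.clm_apply (hasFDerivAt_id u)
  refine ⟨h3.differentiableAt, fun v w => ?_⟩
  have e1 : ∀ v w, (∫ t in (0 : ℝ)..1, t • Ω (t • u)) v w = ∫ t in (0 : ℝ)..1, t * Ω (t • u) v w ∧
      IntervalIntegrable (fun t : ℝ => t * Ω (t • u) v w) volume 0 1 := fun v w => by
    have a := b5_ap c1 v
    have b := b5_ap a.2 w
    exact ⟨by rw [a.1, b.1]; rfl, b.2.intervalIntegrable⟩
  have e2 : ∀ v w, (∫ t in (0 : ℝ)..1, t • t • fderiv ℝ Ω (t • u)) v u w =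
      ∫ t in (0 : ℝ)..1, t * (t * fderiv ℝ Ω (t • u) v u w) ∧
      IntervalIntegrable (fun t : ℝ => t * (t * fderiv ℝ Ω (t • u) v u w)) volume 0 1 :=
    fun v w => by
      have a := b5_ap c2 v
      have b := b5_ap a.2 u
      have c := b5_ap b.2 w
      exact ⟨by rw [a.1, b.1, c.1]; rfl, c.2.intervalIntegrable⟩
  have e3 : ∀ v w, fderiv ℝ (fun z => (∫ t in (0 : ℝ)..1, t • Ω (t • z)) z) u v w =
      ∫ t in (0 : ℝ)..1, (t * Ω (t • u) v w + t * (t * fderiv ℝ Ω (t • u) v u w)) := fun v w => by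
    rw [intervalIntegral.integral_add (e1 v w).2 (e2 v w).2, ← (e1 v w).1, ← (e2 v w).1]
    exact congrArg (fun L : E →L[ℝ] E →L[ℝ] ℝ => L v w) h3.fderiv
  have i1 := fun v w => (e1 v w).2.add (e2 v w).2
  rw [e3, e3, ← intervalIntegral.integral_sub (i1 v w) (i1 w v),
    intervalIntegral.integral_eq_sub_of_hasDerivAt (f := fun t : ℝ => t * t * Ω (t • u) v w)
      (fun t ht => ?_) ((i1 v w).sub (i1 w v))]
  · simp
  · have h4 : HasDerivAt (fun t : ℝ => t • u) u t := by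
      simpa using (hasDerivAt_id t).smul_const u
    have h5 : HasDerivAt (fun t : ℝ => Ω (t • u) v w) (fderiv ℝ Ω (t • u) u v w) t := by
      have a : HasFDerivAt Ω (fderiv ℝ Ω (t • u)) (t • u) :=
        ((hΩ _ (h2 t ht)).differentiableAt one_ne_zero).hasFDerivAt
      have b := HasFDerivAt.comp_hasDerivAt (f := fun t : ℝ => t • u) t a h4
      exact b5_ev (F := ℝ) (b5_ev (F := E →L[ℝ] ℝ) b v) w
    refine (((hasDerivAt_id' t).mul (hasDerivAt_id' t)).mul h5).congr_deriv ?_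
    simp only [Pi.mul_apply]
    linear_combination t * ha _ (h2 t ht) v w + t * t * hc _ (h2 t ht) u v w

/-- A map preserving dα on a ball is exact: the one form (α ∘ f) ∘ Df - α has a symmetric
derivative (ContDiffAt.isSymmSndFDerivAt for f); use
Convex.exists_forall_hasFDerivAt_of_fderiv_symmetric. -/
theorem poincare_one [CompleteSpace E] {f : E → E} {α : E → E →L[ℝ] ℝ} {R : ℝ}
    (hf : ∀ u, ‖u‖ < R → ContDiffAt ℝ 2 f u)
    (hα : ∀ u, ‖u‖ < R → DifferentiableAt ℝ α u ∧ DifferentiableAt ℝ α (f u))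
    (hi : ∀ u, ‖u‖ < R → ∀ v w,
      fderiv ℝ α (f u) (fderiv ℝ f u v) (fderiv ℝ f u w) -
        fderiv ℝ α (f u) (fderiv ℝ f u w) (fderiv ℝ f u v) =
      fderiv ℝ α u v w - fderiv ℝ α u w v) :
    ∃ S : E → ℝ, ∀ u, ‖u‖ < R → HasFDerivAt S ((α (f u)).comp (fderiv ℝ f u) - α u) u := by
  have hd : ∀ u, ‖u‖ < R → HasFDerivAt (fun u => (α (f u)).comp (fderiv ℝ f u) - α u) _ u :=
    fun u hu => ((((hα u hu).2.hasFDerivAt.comp u
      ((hf u hu).differentiableAt two_ne_zero).hasFDerivAt).clm_comp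
        (((hf u hu).fderiv_right (m := 1) (by norm_num)).differentiableAt
          one_ne_zero).hasFDerivAt).sub (hα u hu).1.hasFDerivAt)
  obtain ⟨S, hS⟩ := (convex_ball (0 : E) R).exists_forall_hasFDerivAt_of_fderiv_symmetric
    Metric.isOpen_ball (ω := fun u => (α (f u)).comp (fderiv ℝ f u) - α u)
    (fun u hu => (hd u (mem_ball_zero_iff.1 hu)).differentiableAt.differentiableWithinAt)
    fun u hu v w => by
      have hu' := mem_ball_zero_iff.1 hu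
      have h1 := (hf u hu').isSymmSndFDerivAt (by simp) v w
      have h2 := hi u hu' v w
      rw [(hd u hu').fderiv]
      simp only [sub_apply, add_apply,
        ContinuousLinearMap.comp_apply, ContinuousLinearMap.flip_apply,
        ContinuousLinearMap.compL_apply, h1]
      linarith
  exact ⟨S, fun u hu => hS u (mem_ball_zero_iff.2 hu)⟩

end Pool.Agent.MP_28624d_gt.K

end

section

/-!
Fibrewise affine changes of coordinates.
-/

set_option maxSynthPendingDepth 3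

namespace Pool.Agent.MP_28624d_gt.K

open Real Filter Topology

variable {E M M' : Type} [NormedAddCommGroup E] [NormedSpace ℝ E] [FiniteDimensional ℝ E]
  [NormedAddCommGroup M] [NormedSpace ℝ M] [FiniteDimensional ℝ M]
  [NormedAddCommGroup M'] [NormedSpace ℝ M'] [FiniteDimensional ℝ M']

/-- The change of coordinates. -/
def chg (b : M' → M) (z : M' → E) (A : M' → E →L[ℝ] E) (x : E × M') : E × M :=
  (z x.2 + A x.2 x.1, b x.2)

/-- The map in the new coordinates. -/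
noncomputable def cf (f : E × M → E) (b : M' → M) (z : M' → E) (A : M' → E →L[ℝ] E)
    (x : E × M') : E :=
  Ring.inverse (A x.2) (f (chg b z A x) - z x.2)

/-- The form in the new coordinates. -/
noncomputable def cΩ (Ω : E × M → E →L[ℝ] E →L[ℝ] ℝ) (b : M' → M) (z : M' → E)
    (A : M' → E →L[ℝ] E) (x : E × M') : E →L[ℝ] E →L[ℝ] ℝ :=
  (Ω (chg b z A x)).bilinearComp (A x.2) (A x.2)

variable {f : E × M → E} {Ω : E × M → E →L[ℝ] E →L[ℝ] ℝ} {b : M' → M} {z : M' → E}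
  {A : M' → E →L[ℝ] E}

section Aux

variable {X F G H : Type} [NormedAddCommGroup X] [NormedSpace ℝ X] [NormedAddCommGroup F]
  [NormedSpace ℝ F] [NormedAddCommGroup G] [NormedSpace ℝ G] [NormedAddCommGroup H]
  [NormedSpace ℝ H]

theorem c1_app {a : X → F →L[ℝ] G} {v : X → F} {x : X} (ha : AnalyticAt ℝ a x)
    (hv : AnalyticAt ℝ v x) : AnalyticAt ℝ (fun y => a y (v y)) x :=
  ((ContinuousLinearMap.id ℝ (F →L[ℝ] G)).analyticAt_bilinear _).comp₂ ha hv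

theorem c1_comp {a : X → G →L[ℝ] H} {c : X → F →L[ℝ] G} {x : X} (ha : AnalyticAt ℝ a x)
    (hc : AnalyticAt ℝ c x) : AnalyticAt ℝ (fun y => (a y).comp (c y)) x :=
  ((ContinuousLinearMap.compL ℝ F G H).analyticAt_bilinear _).comp₂ ha hc

theorem c1_flip {a : X → F →L[ℝ] G →L[ℝ] H} {x : X} (ha : AnalyticAt ℝ a x) :
    AnalyticAt ℝ (fun y => (a y).flip) x :=
  ((ContinuousLinearMap.flipₗᵢ ℝ F G H).toContinuousLinearEquiv.analyticAt _).comp ha

theorem c1_snd {a : G → H} (ha : AnalyticAt ℝ a 0) :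
    AnalyticAt ℝ (fun y : F × G => a y.2) 0 :=
  ha.comp_of_eq analyticAt_snd rfl

/-- The derivative in the fibre direction is the derivative of the restriction to the fibre. -/
theorem c1_dir {g : F × G → H} {x : F × G} (hg : DifferentiableAt ℝ g x) {D : F →L[ℝ] H}
    (h : HasFDerivAt (fun u => g (u, x.2)) D x.1) (v : F) : fderiv ℝ g x (v, 0) = D v := by
  have h1 : HasFDerivAt (fun u => g (u, x.2))
      ((fderiv ℝ g x).comp (ContinuousLinearMap.inl ℝ F G)) x.1 :=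
    HasFDerivAt.comp (f := fun u => (u, x.2)) x.1 hg.hasFDerivAt (hasFDerivAt_prodMk_left _ _)
  rw [← h1.unique h]
  rfl

theorem c1_ev {Θ : X → F →L[ℝ] F →L[ℝ] ℝ} {x : X} (h : DifferentiableAt ℝ Θ x) (v w : F) :
    HasFDerivAt (fun y => Θ y v w) (((ContinuousLinearMap.apply ℝ ℝ w).comp
      (ContinuousLinearMap.apply ℝ (F →L[ℝ] ℝ) v)).comp (fderiv ℝ Θ x)) x :=
  ((ContinuousLinearMap.apply ℝ ℝ w).comp
    (ContinuousLinearMap.apply ℝ (F →L[ℝ] ℝ) v)).hasFDerivAt.comp x h.hasFDerivAt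

omit [FiniteDimensional ℝ E] [FiniteDimensional ℝ M] [NormedAddCommGroup M'] [NormedSpace ℝ M']
  [FiniteDimensional ℝ M'] in
theorem c1_fib {g : E × M → H} {x : E × M'} {D : E × M →L[ℝ] H}
    (hg : HasFDerivAt g D (chg b z A x)) :
    HasFDerivAt (fun u => g (chg b z A (u, x.2)))
      (D.comp ((ContinuousLinearMap.inl ℝ E M).comp (A x.2))) x.1 := by
  have h1 : HasFDerivAt (fun u => chg b z A (u, x.2))
      ((ContinuousLinearMap.inl ℝ E M).comp (A x.2)) x.1 :=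
    HasFDerivAt.comp (g := fun u => (u, b x.2)) x.1 (hasFDerivAt_prodMk_left _ _)
      ((A x.2).hasFDerivAt.const_add (z x.2))
  exact HasFDerivAt.comp (f := fun u => chg b z A (u, x.2)) x.1 hg h1

end Aux

omit [FiniteDimensional ℝ E] [FiniteDimensional ℝ M] [FiniteDimensional ℝ M'] in
theorem c1_chg_an (hb : AnalyticAt ℝ b 0) (hz : AnalyticAt ℝ z 0) (hA : AnalyticAt ℝ A 0) :
    AnalyticAt ℝ (chg b z A) 0 :=
  ((c1_snd hz).add (c1_app (c1_snd hA) analyticAt_fst)).prod (c1_snd hb)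

omit [FiniteDimensional ℝ E] [FiniteDimensional ℝ M] [FiniteDimensional ℝ M'] [NormedSpace ℝ M]
  [NormedSpace ℝ M'] in
theorem c1_chg_zero (b0 : b 0 = 0) (z0 : z 0 = 0) : chg b z A 0 = 0 := by
  simp [chg, b0, z0]

omit [FiniteDimensional ℝ E] [FiniteDimensional ℝ M] [FiniteDimensional ℝ M'] in
theorem c1_tendsto (hb : AnalyticAt ℝ b 0) (hz : AnalyticAt ℝ z 0) (hA : AnalyticAt ℝ A 0)
    (b0 : b 0 = 0) (z0 : z 0 = 0) : Tendsto (chg b z A) (𝓝 0) (𝓝 0) := by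
  have := (c1_chg_an hb hz hA).continuousAt.tendsto
  rwa [c1_chg_zero b0 z0] at this

omit [FiniteDimensional ℝ M'] in
theorem c1_unit (hA : AnalyticAt ℝ A 0) (A0 : A 0 = 1) : ∀ᶠ x in 𝓝 (0 : E × M'),
    A x.2 * Ring.inverse (A x.2) = 1 ∧ Ring.inverse (A x.2) * A x.2 = 1 := by
  have := FiniteDimensional.complete ℝ E
  have h1 : Tendsto (fun x : E × M' => A x.2) (𝓝 0) (𝓝 (A 0)) := (c1_snd hA).continuousAt.tendsto
  rw [A0] at h1
  filter_upwards [h1.eventually (Units.isOpen.mem_nhds isUnit_one)] with x hx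
  exact ⟨Ring.mul_inverse_cancel _ hx, Ring.inverse_mul_cancel _ hx⟩

omit [FiniteDimensional ℝ E] [FiniteDimensional ℝ M] [FiniteDimensional ℝ M'] [NormedSpace ℝ M]
  [NormedSpace ℝ M'] [NormedAddCommGroup M] [NormedAddCommGroup M'] in
/-- chg conjugates the two fibred maps. -/
theorem c1_conj {x : E × M'} (hx : A x.2 * Ring.inverse (A x.2) = 1) :
    chg b z A (cf f b z A x, x.2) = (f (chg b z A x), (chg b z A x).2) := by
  refine Prod.ext ?_ rfl
  show z x.2 + (A x.2 * Ring.inverse (A x.2)) (f (chg b z A x) - z x.2) = f (chg b z A x)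
  rw [hx, one_apply_eq_self, add_sub_cancel]

theorem analyticAt_cf (hf : AnalyticAt ℝ f 0) (hb : AnalyticAt ℝ b 0) (hz : AnalyticAt ℝ z 0)
    (hA : AnalyticAt ℝ A 0) (b0 : b 0 = 0) (z0 : z 0 = 0) (A0 : A 0 = 1) :
    AnalyticAt ℝ (cf f b z A) 0 := by
  have := FiniteDimensional.complete ℝ E
  have h1 : AnalyticAt ℝ (fun μ => Ring.inverse (A μ)) 0 :=
    (analyticAt_inverse (𝕜 := ℝ) (1 : (E →L[ℝ] E)ˣ)).comp_of_eq hA A0
  exact c1_app (c1_snd h1)
    ((hf.comp_of_eq (c1_chg_an hb hz hA) (c1_chg_zero b0 z0)).sub (c1_snd hz))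

theorem analyticAt_cΩ (hΩ : AnalyticAt ℝ Ω 0) (hb : AnalyticAt ℝ b 0) (hz : AnalyticAt ℝ z 0)
    (hA : AnalyticAt ℝ A 0) (b0 : b 0 = 0) (z0 : z 0 = 0) : AnalyticAt ℝ (cΩ Ω b z A) 0 :=
  c1_flip (c1_comp (c1_flip (c1_comp (hΩ.comp_of_eq (c1_chg_an hb hz hA) (c1_chg_zero b0 z0))
    (c1_snd hA))) (c1_snd hA))

/-- The derivative of cf in the fibre direction, near the origin. -/
theorem fderiv_cf (hf : AnalyticAt ℝ f 0) (hb : AnalyticAt ℝ b 0) (hz : AnalyticAt ℝ z 0)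
    (hA : AnalyticAt ℝ A 0) (b0 : b 0 = 0) (z0 : z 0 = 0) (A0 : A 0 = 1) :
    ∀ᶠ x in 𝓝 (0 : E × M'), A x.2 * Ring.inverse (A x.2) = 1 ∧ Ring.inverse (A x.2) * A x.2 = 1 ∧
      ∀ v, fderiv ℝ (cf f b z A) x (v, 0) =
        Ring.inverse (A x.2) (fderiv ℝ f (chg b z A x) (A x.2 v, 0)) := by
  have := FiniteDimensional.complete ℝ E
  filter_upwards [c1_unit hA A0, (analyticAt_cf hf hb hz hA b0 z0 A0).eventually_analyticAt,
    (c1_tendsto hb hz hA b0 z0).eventually hf.eventually_analyticAt] with x h1 h2 h3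
  refine ⟨h1.1, h1.2, fun v => ?_⟩
  have h4 := (Ring.inverse (A x.2)).hasFDerivAt.comp x.1
    ((c1_fib h3.differentiableAt.hasFDerivAt).sub_const (z x.2))
  rw [c1_dir h2.differentiableAt h4]
  simp

omit [FiniteDimensional ℝ E] [FiniteDimensional ℝ M] [FiniteDimensional ℝ M'] in
theorem c1_dΩ {x : E × M'} (h1 : DifferentiableAt ℝ (cΩ Ω b z A) x)
    (h2 : DifferentiableAt ℝ Ω (chg b z A x)) (u v w : E) :
    fderiv ℝ (cΩ Ω b z A) x (u, 0) v w =
      fderiv ℝ Ω (chg b z A x) (A x.2 u, 0) (A x.2 v) (A x.2 w) := by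
  have h3 := c1_ev h1 v w
  have h4 := c1_dir h3.differentiableAt (c1_fib (c1_ev h2 (A x.2 v) (A x.2 w))) u
  rw [h3.fderiv] at h4
  simpa using h4

/-- The change of coordinates preserves Symp. -/
theorem Symp.chg (hS : Symp f Ω) (hf : AnalyticAt ℝ f 0) (hΩ : AnalyticAt ℝ Ω 0)
    (hb : AnalyticAt ℝ b 0) (hz : AnalyticAt ℝ z 0) (hA : AnalyticAt ℝ A 0) (b0 : b 0 = 0)
    (z0 : z 0 = 0) (A0 : A 0 = 1) : Symp (cf f b z A) (cΩ Ω b z A) := by
  have ht := c1_tendsto hb hz hA b0 z0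
  filter_upwards [fderiv_cf hf hb hz hA b0 z0 A0, ht.eventually hS,
    (analyticAt_cΩ hΩ hb hz hA b0 z0).eventually_analyticAt,
    ht.eventually hΩ.eventually_analyticAt] with x h1 h2 h3 h4
  refine ⟨fun v w => h2.1 _ _, fun u v w => ?_, fun v w => ?_⟩
  · rw [c1_dΩ h3.differentiableAt h4.differentiableAt, c1_dΩ h3.differentiableAt
      h4.differentiableAt, c1_dΩ h3.differentiableAt h4.differentiableAt]
    exact h2.2.1 _ _ _
  · have e : ∀ y, A x.2 (Ring.inverse (A x.2) y) = y := fun y => by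
      rw [← mul_apply_eq_comp, h1.1, one_apply_eq_self]
    rw [h1.2.2, h1.2.2, cΩ, ContinuousLinearMap.bilinearComp_apply, c1_conj h1.1, e, e]
    exact h2.2.2 _ _

/-- chg has an invertible strict derivative at the origin and conjugates the two fibred maps near
the origin. -/
theorem Concl.of_chg (h : Concl (cf f b z A)) (hb : AnalyticAt ℝ b 0) (hz : AnalyticAt ℝ z 0)
    (hA : AnalyticAt ℝ A 0) (b0 : b 0 = 0) (z0 : z 0 = 0) (A0 : A 0 = 1) (b' : M' ≃L[ℝ] M)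
    (hb' : fderiv ℝ b 0 = (b' : M' →L[ℝ] M)) : Concl f := by
  intro U hU
  have s1 : ∀ {H : Type} [NormedAddCommGroup H] [NormedSpace ℝ H] {a : M' → H},
      AnalyticAt ℝ a 0 → HasStrictFDerivAt (fun y : E × M' => a y.2)
        ((fderiv ℝ a 0).comp (ContinuousLinearMap.snd ℝ E M')) 0 := fun ha =>
    HasStrictFDerivAt.comp (f := Prod.snd) 0 ha.hasStrictFDerivAt hasStrictFDerivAt_snd
  have d1 := ((s1 hz).add ((s1 hA).clm_apply hasStrictFDerivAt_fst)).prodMk (s1 hb)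
  have d2 : HasStrictFDerivAt (K.chg b z A)
      ((((ContinuousLinearEquiv.prodComm ℝ E M').trans
        (b'.skewProd (ContinuousLinearEquiv.refl ℝ E) (fderiv ℝ z 0))).trans
        (ContinuousLinearEquiv.prodComm ℝ M E) : (E × M') ≃L[ℝ] (E × M)) :
          E × M' →L[ℝ] E × M) 0 := by
    refine d1.congr_fderiv (ContinuousLinearMap.ext fun y => ?_)
    simp [A0, hb', add_comm]
  obtain ⟨W, hW, hpos⟩ := pos_local d2
  obtain ⟨S, hS, h1, h2, h3⟩ := h _ (inter_mem (inter_mem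
    ((c1_tendsto hb hz hA b0 z0) hU) hW) (c1_unit hA A0))
  refine ⟨K.chg b z A '' S, ?_, hpos S (fun x hx => (hS hx).1.2) h1, ?_, ?_⟩
  · rintro _ ⟨x, hx, rfl⟩
    exact (hS hx).1.1
  · rintro _ ⟨x, hx, rfl⟩
    exact ⟨_, h2 x hx, c1_conj (hS hx).2.1⟩
  · rintro _ ⟨x, hx, rfl⟩
    obtain ⟨y, hy, rfl⟩ := h3 x hx
    exact ⟨_, ⟨y, hy, rfl⟩, (c1_conj (hS hy).2.1).symm⟩

end Pool.Agent.MP_28624d_gt.K

end

end
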