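import Pool.Agent.MP_28624d_gt.Mg.K_KD

section

/-!
Rescaling: from a fibred map with a line of elliptic fixed points to the data of the Newton scheme.
-/

set_option maxSynthPendingDepth 3

namespace Pool.Agent.MP_28624d_gt.K

open Real Filter Topology

variable {N : ℕ} {E P : Type} [NormedAddCommGroup E] [NormedSpace ℝ E] [FiniteDimensional ℝ E]
  [NormedAddCommGroup P] [NormedSpace ℝ P] [FiniteDimensional ℝ P]

omit [FiniteDimensional ℝ E] [FiniteDimensional ℝ P] in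
theorem b6_slice {Y : Type} [NormedAddCommGroup Y] [NormedSpace ℝ Y] {g : XX N E P → Y} {ε : ℝ}
    {u : E} {μ : T N × P} (hg : DifferentiableAt ℝ g (ε, u, μ)) :
    HasFDerivAt (fun z : E => g (ε, z, μ)) ((fderiv ℝ g (ε, u, μ)).comp (iu N E P)) u := by
  have h1 : HasFDerivAt (fun z : E => ((ε, z, μ) : XX N E P)) (iu N E P) u := by
    have h2 := ((iu N E P).hasFDerivAt (x := u)).const_add ((ε, 0, μ) : XX N E P)
    refine h2.congr_of_eventuallyEq (Eventually.of_forall fun z => ?_)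
    obtain ⟨m, ν⟩ := μ
    simp
  exact hg.hasFDerivAt.comp u h1

omit [FiniteDimensional ℝ E] [FiniteDimensional ℝ P] in
theorem b6_slice' {Y : Type} [NormedAddCommGroup Y] [NormedSpace ℝ Y] {g : E × (T N × P) → Y}
    {ε : ℝ} {u : E} {μ : T N × P} (hg : DifferentiableAt ℝ g (ε • u, μ)) :
    HasFDerivAt (fun z : E => g (ε • z, μ))
      (ε • (fderiv ℝ g (ε • u, μ)).comp (ContinuousLinearMap.inl ℝ E (T N × P))) u := by
  have h1 : HasFDerivAt (fun z : E => ((ε • z, μ) : E × (T N × P)))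
      (ε • ContinuousLinearMap.inl ℝ E (T N × P)) u := by
    have h2 := ((ε • ContinuousLinearMap.inl ℝ E (T N × P)).hasFDerivAt (x := u)).const_add
      ((0, μ) : E × (T N × P))
    refine h2.congr_of_eventuallyEq (Eventually.of_forall fun z => ?_)
    simp
  have h3 := hg.hasFDerivAt.comp u h1
  rw [ContinuousLinearMap.comp_smul] at h3
  exact h3

omit [FiniteDimensional ℝ E] [FiniteDimensional ℝ P] in
theorem b6_sig (x : XX N E P) :
    AnalyticAt ℝ (fun x : XX N E P => ((x.1 • x.2.1, x.2.2) : E × (T N × P))) x :=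
  (analyticAt_fst.smul (analyticAt_fst.comp analyticAt_snd)).prod
    (analyticAt_snd.comp analyticAt_snd)

omit [FiniteDimensional ℝ E] [FiniteDimensional ℝ P] [NormedSpace ℝ P] in
theorem b6_norm {x : XX N E P} {R : ℝ} (h1 : R ≤ 1) (hx : ‖x‖ < R) :
    ‖((x.1 • x.2.1, x.2.2) : E × (T N × P))‖ < R := by
  obtain ⟨ε, u, μ⟩ := x
  simp only [Prod.norm_def, max_lt_iff] at hx ⊢
  refine ⟨?_, hx.2.2⟩
  rw [norm_smul]
  have := norm_nonneg u
  have := norm_nonneg ε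
  nlinarith [hx.1, hx.2.1]

omit [FiniteDimensional ℝ E] [FiniteDimensional ℝ P] [NormedSpace ℝ P] [NormedSpace ℝ E] in
theorem b6_norm' {ε : ℝ} {u z : E} {μ : T N × P} {R : ℝ}
    (hx : ‖((ε, u, μ) : XX N E P)‖ < R) (hz : ‖z‖ < R) : ‖((ε, z, μ) : XX N E P)‖ < R := by
  simp only [Prod.norm_def, max_lt_iff] at hx ⊢
  exact ⟨hx.1, hz, hx.2.2⟩

omit [FiniteDimensional ℝ P] in
/-- The primitive of the rescaled form. -/
theorem b6_da {Ω : E × (T N × P) → E →L[ℝ] E →L[ℝ] ℝ} {R : ℝ} (h1 : R ≤ 1)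
    (hΩ : ∀ y : E × (T N × P), ‖y‖ < R → AnalyticAt ℝ Ω y)
    (ha : ∀ y : E × (T N × P), ‖y‖ < R → ∀ v w, Ω y v w = -Ω y w v)
    (hc : ∀ y : E × (T N × P), ‖y‖ < R → ∀ u v w,
      fderiv ℝ Ω y (u, 0) v w - fderiv ℝ Ω y (v, 0) u w + fderiv ℝ Ω y (w, 0) u v = 0)
    {α : XX N E P → E →L[ℝ] ℝ}
    (hα : ∀ x, α x = (∫ t in (0 : ℝ)..1, t ^ 1 • Ω (t • x.1 • x.2.1, x.2.2)) x.2.1)
    {x : XX N E P} (hx : ‖x‖ < R) (hd : DifferentiableAt ℝ α x) (v w : E) :
    Ω (x.1 • x.2.1, x.2.2) v w =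
      fderiv ℝ α x (iu N E P v) w - fderiv ℝ α x (iu N E P w) v := by
  obtain ⟨ε, u, μ⟩ := x
  have hu : ‖u‖ < R := by
    simp only [Prod.norm_def, max_lt_iff] at hx
    exact hx.2.1
  have hn : ∀ z : E, ‖z‖ < R → ‖((ε • z, μ) : E × (T N × P))‖ < R := fun z hz =>
    b6_norm (x := (ε, z, μ)) h1 (b6_norm' hx hz)
  have key := poincare_two (Ω := fun z : E => Ω (ε • z, μ)) (R := R)
    (fun z hz => by
      have h2 : AnalyticAt ℝ (fun z : E => ((ε • z, μ) : E × (T N × P))) z := by fun_prop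
      exact (AnalyticAt.comp (f := fun z : E => ((ε • z, μ) : E × (T N × P))) (hΩ _ (hn z hz))
        h2).contDiffAt)
    (fun z hz => ha _ (hn z hz))
    (fun z hz a b c => by
      rw [(b6_slice' (hΩ _ (hn z hz)).differentiableAt).fderiv]
      have h3 := hc _ (hn z hz) a b c
      simp only [smul_apply, ContinuousLinearMap.comp_apply,
        ContinuousLinearMap.inl_apply, smul_eq_mul]
      rw [← mul_sub, ← mul_add, h3, mul_zero])
    hu
  have he : (fun z : E => (∫ t in (0 : ℝ)..1, t • Ω (ε • t • z, μ)) z) =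
      fun z : E => α (ε, z, μ) := by
    funext z
    rw [hα]
    simp only [pow_one, smul_comm ε]
  rw [he, (b6_slice hd).fderiv] at key
  exact (key.2 v w).symm

/-- F (ε, u, μ) = G (ε • u, μ) u with G from exists_hadamard, Ω' (ε, u, μ) = Ω (ε • u, μ),
α (ε, u, μ) = (∫ t in 0..1, t • Ω (t • ε • u, μ)) u (analyticAt_radial with n = 1). All five
functions of An are analytic at 0 (exists_tay, Tay.mono). An.dα is poincare_two for
u ↦ Ω (ε • u, μ), for fixed (ε, μ); for ε ≠ 0, ε • F (ε, u, μ) = f (ε • u, μ) near every point of a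
small ball, so Au F = D_z f, which gives Ex.inv; Ex.exact is poincare_one. Choose r so small that
all eventual statements hold on the open ball of radius 2 r and at the images (ε, F x, μ). -/
theorem rescale {f : E × (T N × P) → E} {Ω : E × (T N × P) → E →L[ℝ] E →L[ℝ] ℝ}
    (hf : AnalyticAt ℝ f 0) (hΩ : AnalyticAt ℝ Ω 0)
    (h0 : ∀ᶠ μ in 𝓝 (0 : T N × P), f (0, μ) = 0) (hS : Symp f Ω) :
    ∃ (F : XX N E P → E) (α : XX N E P → E →L[ℝ] ℝ) (r C : ℝ),
      An F α (fun x => Ω (x.1 • x.2.1, x.2.2)) r C ∧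
      (∀ ε : ℝ, ε ≠ 0 → Ex F α (fun x => Ω (x.1 • x.2.1, x.2.2)) r ε) ∧
      (∀ x : XX N E P, ‖x‖ ≤ r → x.1 • F x = f (x.1 • x.2.1, x.2.2)) ∧
      ∀ (u : E) (μ : T N × P), ‖((0, u, μ) : XX N E P)‖ ≤ r →
        F (0, u, μ) = fderiv ℝ f (0, μ) (u, 0) := by
  haveI := FiniteDimensional.complete ℝ E
  obtain ⟨G, hG, hfG, hG0⟩ := exists_hadamard hf h0
  have hA := analyticAt_radial hΩ 1
  set A : E × (T N × P) → E →L[ℝ] E →L[ℝ] ℝ :=
    fun y => ∫ t in (0 : ℝ)..1, t ^ 1 • Ω (t • y.1, y.2) with hAdef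
  have hev := (hf.eventually_analyticAt.and (hΩ.eventually_analyticAt.and
    (hG.eventually_analyticAt.and (hA.eventually_analyticAt.and (hfG.and hS)))))
  obtain ⟨R0, hR0, hb0⟩ := Metric.eventually_nhds_iff.1 hev
  obtain ⟨R1, hR1, hb1⟩ := Metric.eventually_nhds_iff.1 hG0
  simp only [dist_zero_right] at hb0 hb1
  set R : ℝ := min 1 (min R0 R1) with hRdef
  have hR : 0 < R := by positivity
  have hRa : R ≤ 1 := min_le_left _ _
  have hRb : R ≤ R0 := (min_le_right _ _).trans (min_le_left _ _)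
  have hRc : R ≤ R1 := (min_le_right _ _).trans (min_le_right _ _)
  have hb : ∀ x : XX N E P, ‖x‖ < R → _ := fun x hx => hb0 ((b6_norm hRa hx).trans_le hRb)
  set F : XX N E P → E := fun x => G (x.1 • x.2.1, x.2.2) x.2.1 with hFdef
  set α : XX N E P → E →L[ℝ] ℝ := fun x => A (x.1 • x.2.1, x.2.2) x.2.1 with hαdef
  have hu' : ∀ x : XX N E P, AnalyticAt ℝ (fun x : XX N E P => x.2.1) x := fun x =>
    analyticAt_fst.comp analyticAt_snd
  have aF : ∀ x : XX N E P, ‖x‖ < R → AnalyticAt ℝ F x := fun x hx => by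
    have h1 := AnalyticAt.comp (f := fun x : XX N E P => ((x.1 • x.2.1, x.2.2) : E × (T N × P)))
      (hb x hx).2.2.1 (b6_sig x)
    exact ((ContinuousLinearMap.id ℝ (E →L[ℝ] E)).analyticAt_bilinear _).comp₂ h1 (hu' x)
  have aα : ∀ x : XX N E P, ‖x‖ < R → AnalyticAt ℝ α x := fun x hx => by
    have h1 := AnalyticAt.comp (f := fun x : XX N E P => ((x.1 • x.2.1, x.2.2) : E × (T N × P)))
      (hb x hx).2.2.2.1 (b6_sig x)
    exact ((ContinuousLinearMap.id ℝ (E →L[ℝ] E →L[ℝ] ℝ)).analyticAt_bilinear _).comp₂ h1 (hu' x)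
  have aΩ : ∀ x : XX N E P, ‖x‖ < R →
      AnalyticAt ℝ (fun x : XX N E P => Ω (x.1 • x.2.1, x.2.2)) x := fun x hx =>
    AnalyticAt.comp (f := fun x : XX N E P => ((x.1 • x.2.1, x.2.2) : E × (T N × P)))
      (hb x hx).2.1 (b6_sig x)
  have hsc : ∀ x : XX N E P, ‖x‖ < R → x.1 • F x = f (x.1 • x.2.1, x.2.2) := fun x hx => by
    rw [(hb x hx).2.2.2.2.1, hFdef]
    simp only [map_smul]
  have hda : ∀ x : XX N E P, ‖x‖ < R → ∀ v w, Ω (x.1 • x.2.1, x.2.2) v w =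
      fderiv ℝ α x (iu N E P v) w - fderiv ℝ α x (iu N E P w) v := fun x hx v w =>
    b6_da hRa (fun y hy => (hb0 (hy.trans_le hRb)).2.1)
      (fun y hy => (hb0 (hy.trans_le hRb)).2.2.2.2.2.1)
      (fun y hy => (hb0 (hy.trans_le hRb)).2.2.2.2.2.2.1) (fun _ => rfl) hx
      (aα x hx).differentiableAt v w
  have hinv : ∀ (ε : ℝ) (u : E) (μ : T N × P), ε ≠ 0 → ‖((ε, u, μ) : XX N E P)‖ < R → ∀ v w,
      Ω (ε • F (ε, u, μ), μ) (Au F (ε, u, μ) v) (Au F (ε, u, μ) w) = Ω (ε • u, μ) v w := by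
    intro ε u μ hε hx v w
    have hu : ‖u‖ < R := by
      simp only [Prod.norm_def, max_lt_iff] at hx
      exact hx.2.1
    have h1 := (b6_slice (aF _ hx).differentiableAt).const_smul ε
    have h2 := b6_slice' (ε := ε) (u := u) (μ := μ) (hb _ hx).1.differentiableAt
    have h3 : (ε • fun z : E => F (ε, z, μ)) =ᶠ[𝓝 u] fun z : E => f (ε • z, μ) := by
      have h4 : ∀ᶠ z in 𝓝 u, ‖z‖ < R := (continuous_norm.tendsto u).eventually_lt_const hu
      filter_upwards [h4] with z hz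
      exact hsc (ε, z, μ) (b6_norm' hx hz)
    have h5 := (h1.congr_of_eventuallyEq h3.symm).unique h2
    have h6 : Au F (ε, u, μ) =
        (fderiv ℝ f (ε • u, μ)).comp (ContinuousLinearMap.inl ℝ E (T N × P)) :=
      smul_right_injective _ hε h5
    have h7 := (hb _ hx).2.2.2.2.2.2.2 v w
    have h8 := hsc _ hx
    simp only at h7 h8
    rw [h6, h8]
    exact h7
  have hz : ‖(0 : XX N E P)‖ < R := by simpa using hR
  have hF0 : F 0 = 0 := by simp [hFdef]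
  obtain ⟨R2, hR2, hb2⟩ := Metric.continuousAt_iff.1 (aF 0 hz).continuousAt R hR
  simp only [dist_zero_right, hF0] at hb2
  obtain ⟨r1, C1, t1⟩ := exists_tay N (aF 0 hz)
  obtain ⟨r2, C2, t2⟩ := exists_tay N (aF 0 hz).fderiv
  obtain ⟨r3, C3, t3⟩ := exists_tay N (aα 0 hz)
  obtain ⟨r4, C4, t4⟩ := exists_tay N (aα 0 hz).fderiv
  obtain ⟨r5, C5, t5⟩ := exists_tay N (aΩ 0 hz)
  have p1 := t1.1
  have p2 := t2.1
  have p3 := t3.1
  have p4 := t4.1
  have p5 := t5.1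
  set R3 : ℝ := min R R2 with hR3def
  have hR3 : 0 < R3 := by positivity
  have hR3a : R3 ≤ R := min_le_left _ _
  have hR3b : R3 ≤ R2 := min_le_right _ _
  set r : ℝ := min (R3 / 2) (min r1 (min r2 (min r3 (min r4 r5)))) with hrdef
  have hr : 0 < r := by positivity
  have hr3 : r < R3 := (min_le_left _ _).trans_lt (by linarith)
  have hrR : r < R := hr3.trans_le hR3a
  set C : ℝ := max C1 (max C2 (max C3 (max C4 C5))) with hCdef
  refine ⟨F, α, r, C, ⟨t1.mono hr (by simp [hrdef]) (by simp [hCdef]),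
    t2.mono hr (by simp [hrdef]) (by simp [hCdef]), t3.mono hr (by simp [hrdef]) (by simp [hCdef]),
    t4.mono hr (by simp [hrdef]) (by simp [hCdef]), t5.mono hr (by simp [hrdef]) (by simp [hCdef]),
    fun x hx => hda x (hx.trans_lt hrR)⟩, fun ε hε => ⟨fun u m ν hx =>
      hinv ε u (m, ν) hε (hx.trans_lt hrR), fun m ν => ?_⟩,
    fun x hx => hsc x (hx.trans_lt hrR), fun u μ hx => ?_⟩
  · by_cases hex : ∃ u : E, ‖((ε, u, m, ν) : XX N E P)‖ ≤ r
    · obtain ⟨u0, hu0⟩ := hex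
      have hx3 : ∀ z : E, ‖z‖ < R3 → ‖((ε, z, m, ν) : XX N E P)‖ < R3 := fun z hz =>
        b6_norm' (μ := (m, ν)) (hu0.trans_lt hr3) hz
      have hxR : ∀ z : E, ‖z‖ < R3 → ‖((ε, z, m, ν) : XX N E P)‖ < R := fun z hz =>
        (hx3 z hz).trans_le hR3a
      have hyR : ∀ z : E, ‖z‖ < R3 → ‖((ε, F (ε, z, m, ν), m, ν) : XX N E P)‖ < R := fun z hz =>
        b6_norm' (μ := (m, ν)) (hxR z hz) (hb2 ((hx3 z hz).trans_le hR3b))
      have hDF : ∀ z : E, ‖z‖ < R3 →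
          fderiv ℝ (fun z : E => F (ε, z, m, ν)) z = Au F (ε, z, m, ν) := fun z hz =>
        (b6_slice (μ := (m, ν)) (aF _ (hxR z hz)).differentiableAt).fderiv
      obtain ⟨S, hS'⟩ := poincare_one (f := fun z : E => F (ε, z, m, ν))
        (α := fun z : E => α (ε, z, m, ν)) (R := R3)
        (fun z hz => by
          have h2 : AnalyticAt ℝ (fun z : E => ((ε, z, m, ν) : XX N E P)) z := by fun_prop
          exact (AnalyticAt.comp (f := fun z : E => ((ε, z, m, ν) : XX N E P))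
            (aF _ (hxR z hz)) h2).contDiffAt)
        (fun z hz => ⟨(b6_slice (μ := (m, ν)) (aα _ (hxR z hz)).differentiableAt).differentiableAt,
          (b6_slice (μ := (m, ν)) (aα _ (hyR z hz)).differentiableAt).differentiableAt⟩)
        (fun z hz v w => by
          rw [hDF z hz, (b6_slice (μ := (m, ν)) (aα _ (hxR z hz)).differentiableAt).fderiv,
            (b6_slice (μ := (m, ν)) (aα _ (hyR z hz)).differentiableAt).fderiv]
          simp only [ContinuousLinearMap.comp_apply]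
          rw [← hda _ (hxR z hz), ← hda _ (hyR z hz)]
          exact hinv ε z (m, ν) hε (hxR z hz) v w)
      refine ⟨S, fun u hu => ?_⟩
      have hu3 : ‖u‖ < R3 := by
        have := hu.trans_lt hr3
        simp only [Prod.norm_def, max_lt_iff] at this
        exact this.2.1
      have h9 := hS' u hu3
      rw [hDF u hu3] at h9
      exact h9
    · exact ⟨0, fun u hu => (hex ⟨u, hu⟩).elim⟩
  · have hμ : ‖μ‖ < R1 := by
      have := (hx.trans_lt hrR).trans_le hRc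
      simp only [Prod.norm_def, max_lt_iff] at this
      simpa [Prod.norm_def] using this.2.2
    simp only [hFdef, zero_smul]
    rw [hb1 hμ]
    rfl

end Pool.Agent.MP_28624d_gt.K

end

section

/-!
The unperturbed tori of a family of rotations.
-/

set_option maxSynthPendingDepth 3

namespace Pool.Agent.MP_28624d_gt.K

open Real Filter Topology

variable {N : ℕ} {P : Type} [NormedAddCommGroup P] [NormedSpace ℝ P] [CompleteSpace P]

section aux

variable {Λ : Type} [PseudoMetricSpace Λ] {E F G : Type} [NormedAddCommGroup E]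
  [NormedSpace ℝ E] [NormedAddCommGroup F] [NormedSpace ℝ F] [NormedAddCommGroup G]
  [NormedSpace ℝ G]

theorem b7_pull {Λ' : Type} [PseudoMetricSpace Λ'] {ρ M : ℝ} {g : Λ → T N → E} (hg : Bd ρ g M)
    (f : Λ' → Λ) (hf : ∀ p q, dist (f p) (f q) = dist p q) : Bd ρ (fun p => g (f p)) M := by
  obtain ⟨I, k, φ, w, m, v, h1, h2, h3, h4, h5, h6, h7⟩ := hg
  exact ⟨I, k, φ, w, m, fun i p => v i (f p), h1, h2, fun i p => h3 i _,
    fun i p q => hf p q ▸ h4 i (f p) (f q), h5, h6, fun p θ => h7 _ θ⟩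

theorem b7_smul {ρ M t : ℝ} {g : Λ → T N → E} (hg : Bd ρ g M) (ht : 0 ≤ t) :
    Bd ρ (fun p θ => t • g p θ) (t * M) := by
  refine (hg.clm (t • ContinuousLinearMap.id ℝ E) ?_).congr fun p θ => rfl
  rw [norm_smul, Real.norm_of_nonneg ht]
  exact mul_le_of_le_one_right ht ContinuousLinearMap.norm_id_le

/-- The family has some bound at radius one. -/
def b7E (g : Λ → T N → E) : Prop := ∃ k, Bd 1 g k

theorem b7E_const (c : E) : b7E (fun (_ : Λ) (_ : T N) => c) := ⟨_, Bd.const 1 c⟩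

theorem b7E.congr {g h : Λ → T N → E} (hg : b7E g) (hh : ∀ p θ, h p θ = g p θ) : b7E h :=
  ⟨_, hg.choose_spec.congr hh⟩

theorem b7E.add {g h : Λ → T N → E} (hg : b7E g) (hh : b7E h) :
    b7E (fun p θ => g p θ + h p θ) := ⟨_, hg.choose_spec.add hh.choose_spec⟩

theorem b7E.clm {g : Λ → T N → E} (hg : b7E g) (L : E →L[ℝ] F) : b7E (fun p θ => L (g p θ)) :=
  ⟨_, hg.choose_spec.clm L le_rfl⟩

theorem b7E.smul {g : Λ → T N → E} (hg : b7E g) (t : ℝ) : b7E (fun p θ => t • g p θ) :=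
  (hg.clm (t • ContinuousLinearMap.id ℝ E)).congr fun _ _ => rfl

theorem b7E.app [CompleteSpace F] {A : Λ → T N → E →L[ℝ] F} {h : Λ → T N → E} (hA : b7E A)
    (hh : b7E h) : b7E (fun p θ => A p θ (h p θ)) :=
  ⟨_, Bd.app zero_le_one hA.choose_spec hh.choose_spec⟩

theorem b7E.comp [CompleteSpace G] {A : Λ → T N → F →L[ℝ] G} {B : Λ → T N → E →L[ℝ] F}
    (hA : b7E A) (hB : b7E B) : b7E (fun p θ => (A p θ).comp (B p θ)) :=
  ⟨_, Bd.comp zero_le_one hA.choose_spec hB.choose_spec⟩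

theorem b7_rot_apply (θ : T N) (z : Cn N) (j : Fin N) :
    rot θ z j = Complex.exp ((θ j : ℂ) * Complex.I) * z j := rfl

theorem b7_trig (A B : Fin N → E) :
    b7E (fun (_ : Λ) (θ : T N) => ∑ j, (cos (θ j) • A j + sin (θ j) • B j)) :=
  ⟨_, Bd.sum Finset.univ fun j _ => (Bd.cos_atom 1 j (A j)).add (Bd.sin_atom 1 j (B j))⟩

theorem b7_rot : b7E (fun (_ : Λ) (θ : T N) => rot θ) := by
  refine (b7_trig (fun j => dg (Pi.single j 1)) fun j => dg (Pi.single j Complex.I)).congr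
    fun _ θ => ?_
  ext z j : 2
  rw [b7_rot_apply, Complex.exp_mul_I]
  simp [Finset.sum_apply, Pi.single_apply, Finset.sum_add_distrib, add_mul, mul_assoc]

theorem b7_rot' : b7E (fun (_ : Λ) (θ : T N) => rot (-θ)) := by
  refine (b7_trig (fun j => dg (Pi.single j 1)) fun j => dg (Pi.single j (-Complex.I))).congr
    fun _ θ => ?_
  ext z j : 2
  rw [b7_rot_apply, Complex.exp_mul_I]
  simp [Finset.sum_apply, Pi.single_apply, Finset.sum_add_distrib, add_mul, mul_assoc]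

end aux

/-- Real vectors as complex vectors. -/
noncomputable def b7i (N : ℕ) : T N →L[ℝ] Cn N :=
  ContinuousLinearMap.pi fun j => Complex.ofRealCLM.comp (ContinuousLinearMap.proj j)

/-- The real part. -/
noncomputable def b7re (N : ℕ) : Cn N →L[ℝ] T N :=
  ContinuousLinearMap.pi fun j => Complex.reCLM.comp (ContinuousLinearMap.proj j)

/-- The imaginary part. -/
noncomputable def b7im (N : ℕ) : Cn N →L[ℝ] T N :=
  ContinuousLinearMap.pi fun j => Complex.imCLM.comp (ContinuousLinearMap.proj j)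

theorem b7i_apply (v : T N) (j : Fin N) : b7i N v j = (v j : ℂ) := rfl

theorem b7re_apply (v : Cn N) (j : Fin N) : b7re N v j = (v j).re := rfl

theorem b7im_apply (v : Cn N) (j : Fin N) : b7im N v j = (v j).im := rfl

/-- The normal frame. -/
noncomputable def b7N (θ : T N) : T N →L[ℝ] Cn N := (rot θ).comp (b7i N)

/-- The tangent frame for the radii a. -/
noncomputable def b7L (a θ : T N) : T N →L[ℝ] Cn N :=
  (rot θ).comp (((dg fun _ => Complex.I).comp (b7i N)).comp (ContinuousLinearMap.mul ℝ (T N) a))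

/-- The inverse frame; b is the vector of the inverse radii. -/
noncomputable def b7Q (b θ : T N) : Cn N →L[ℝ] T N × T N :=
  ((ContinuousLinearMap.inl ℝ (T N) (T N)).comp
      ((ContinuousLinearMap.mul ℝ (T N) b).comp (b7im N)) +
    (ContinuousLinearMap.inr ℝ (T N) (T N)).comp (b7re N)).comp (rot (-θ))

theorem b7N_apply (θ v : T N) (j : Fin N) :
    b7N θ v j = Complex.exp ((θ j : ℂ) * Complex.I) * (v j : ℂ) := rfl

theorem b7L_apply (a θ v : T N) (j : Fin N) :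
    b7L a θ v j = Complex.exp ((θ j : ℂ) * Complex.I) * (Complex.I * ((a j * v j : ℝ) : ℂ)) := rfl

theorem b7Q_fst (b θ : T N) (v : Cn N) (j : Fin N) :
    (b7Q b θ v).1 j = b j * (Complex.exp (-((θ j : ℂ) * Complex.I)) * v j).im := by
  simp [b7Q, b7im_apply, b7_rot_apply]

theorem b7Q_snd (b θ : T N) (v : Cn N) (j : Fin N) :
    (b7Q b θ v).2 j = (Complex.exp (-((θ j : ℂ) * Complex.I)) * v j).re := by
  simp [b7Q, b7re_apply, b7_rot_apply]

theorem b7_pq {a b : T N} (h : ∀ j, a j * b j = 1) (θ : T N) (v : Cn N) :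
    b7L a θ (b7Q b θ v).1 + b7N θ (b7Q b θ v).2 = v := by
  funext j
  rw [Pi.add_apply, b7L_apply, b7N_apply, b7Q_fst, b7Q_snd, ← mul_assoc (a j), h j, one_mul,
    ← mul_add, add_comm, mul_comm Complex.I, Complex.re_add_im, ← mul_assoc, ← Complex.exp_add,
    add_neg_cancel, Complex.exp_zero, one_mul]

theorem b7_qp {a b : T N} (h : ∀ j, a j * b j = 1) (θ x y : T N) :
    b7Q b θ (b7L a θ x + b7N θ y) = (x, y) := by
  have e : ∀ j, Complex.exp (-((θ j : ℂ) * Complex.I)) * (b7L a θ x + b7N θ y) j =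
      Complex.I * ((a j * x j : ℝ) : ℂ) + (y j : ℂ) := fun j => by
    rw [Pi.add_apply, b7L_apply, b7N_apply, ← mul_add, ← mul_assoc, ← Complex.exp_add,
      neg_add_cancel, Complex.exp_zero, one_mul]
  refine Prod.ext (funext fun j => ?_) (funext fun j => ?_)
  · rw [b7Q_fst, e, Complex.add_im, Complex.I_mul_im, Complex.ofReal_re, Complex.ofReal_im,
      add_zero, ← mul_assoc, mul_comm (b j), h j, one_mul]
  · rw [b7Q_snd, e, Complex.add_re, Complex.I_mul_re, Complex.ofReal_re, Complex.ofReal_im,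
      neg_zero, zero_add]

theorem b7_form {c : Fin N → ℝ} {J : Cn N →L[ℝ] Cn N →L[ℝ] ℝ}
    (hJ : ∀ v w, J v w = ∑ j, c j * ((starRingEnd ℂ) (v j) * w j).im) (a θ v : T N) :
    flat N (Cn N) (J.comp (b7L a θ)) (b7N θ v) = -(c * a * v) := by
  funext i
  rw [flat_apply, ContinuousLinearMap.comp_apply, hJ, Finset.sum_eq_single i]
  · have e : (starRingEnd ℂ) (Complex.exp ((θ i : ℂ) * Complex.I)) *
        Complex.exp ((θ i : ℂ) * Complex.I) = 1 := by
      rw [← Complex.exp_conj, ← Complex.exp_add]; simp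
    rw [b7L_apply, b7N_apply, map_mul, mul_mul_mul_comm, e]
    simp [mul_assoc]
  · intro j _ hj
    rw [b7L_apply, Pi.single_eq_of_ne hj]
    simp
  · simp

/-- The circle of radius r0 * (2 + s j) in the j-th plane. -/
noncomputable def circ (r0 : ℝ) (s θ : T N) : Cn N :=
  fun j => ((r0 * (2 + s j) : ℝ) : ℂ) * Complex.exp ((θ j : ℂ) * Complex.I)

theorem b7_circ (r0 : ℝ) (s θ : T N) : circ r0 s θ = r0 • b7N θ (2 + s) := by
  funext j
  rw [Pi.smul_apply, b7N_apply]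
  simp [circ]
  ring

theorem b7_rot_circ (r0 : ℝ) (s θ ω : T N) : rot ω (circ r0 s θ) = circ r0 s (θ + ω) := by
  funext j
  rw [b7_rot_apply]
  simp only [circ, Pi.add_apply, Complex.ofReal_add, add_mul, Complex.exp_add]
  ring

theorem b7_der (r0 : ℝ) (s θ : T N) : HasFDerivAt (circ r0 s) (b7L (r0 • (2 + s)) θ) θ := by
  rw [hasFDerivAt_pi']
  intro j
  have h1 : HasFDerivAt (fun θ : T N => (θ j : ℂ) * Complex.I)
      (Complex.I • Complex.ofRealCLM.comp (ContinuousLinearMap.proj j)) θ :=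
    (Complex.ofRealCLM.comp (ContinuousLinearMap.proj j : T N →L[ℝ] ℝ)).hasFDerivAt.mul_const _
  refine (h1.cexp.const_mul ((r0 * (2 + s j) : ℝ) : ℂ)).congr_fderiv ?_
  ext v
  rw [ContinuousLinearMap.comp_apply, ContinuousLinearMap.proj_apply, b7L_apply]
  simp
  ring

theorem b7L_smul (t : ℝ) (a θ : T N) : b7L (t • a) θ = t • b7L a θ := by
  simp [b7L]

/-- The unit ball of parameters. -/
abbrev b7B (N : ℕ) (P : Type) [NormedAddCommGroup P] : Set (T N × T N × P) := {p | ‖p‖ ≤ 1}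

omit [CompleteSpace P] [NormedSpace ℝ P] in
theorem b7_one_le (p : b7B N P) (j : Fin N) : 1 ≤ 2 + p.1.2.1 j := by
  have h1 : |p.1.2.1 j| ≤ 1 := (norm_le_pi_norm p.1.2.1 j).trans
    ((norm_fst_le p.1.2).trans ((norm_snd_le p.1).trans p.2))
  linarith [(abs_le.1 h1).1]

omit [CompleteSpace P] in
theorem b7_id : b7E (fun (p : b7B N P) (_ : T N) => p.1) :=
  ⟨_, Bd.of_lip 1 zero_le_one (fun p => p.2) fun p q => by
    rw [one_mul, Subtype.dist_eq, dist_eq_norm]⟩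

omit [CompleteSpace P] in
theorem b7_a : b7E (fun (p : b7B N P) (_ : T N) => 2 + p.1.2.1) :=
  (b7E_const 2).add (b7_id.clm ((ContinuousLinearMap.fst ℝ (T N) P).comp
    (ContinuousLinearMap.snd ℝ (T N) (T N × P))))

omit [CompleteSpace P] [NormedSpace ℝ P] in
theorem b7_b : b7E (fun (p : b7B N P) (_ : T N) => (2 + p.1.2.1)⁻¹) := by
  refine ⟨_, Bd.of_lip 1 zero_le_one (fun p => ?_) fun p q => ?_⟩
  · refine (pi_norm_le_iff_of_nonneg zero_le_one).2 fun j => ?_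
    have h := b7_one_le p j
    show |(2 + p.1.2.1 j)⁻¹| ≤ 1
    rw [abs_of_nonneg (by positivity)]
    exact inv_le_one_of_one_le₀ h
  · rw [one_mul]
    refine (pi_norm_le_iff_of_nonneg dist_nonneg).2 fun j => ?_
    have h1 := b7_one_le p j
    have h2 := b7_one_le q j
    have h3 : |p.1.2.1 j - q.1.2.1 j| ≤ dist p q := by
      rw [Subtype.dist_eq, dist_eq_norm]
      exact (norm_le_pi_norm (p.1 - q.1).2.1 j).trans
        ((norm_fst_le (p.1 - q.1).2).trans (norm_snd_le (p.1 - q.1)))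
    show |(2 + p.1.2.1 j)⁻¹ - (2 + q.1.2.1 j)⁻¹| ≤ _
    rw [inv_sub_inv (by positivity) (by positivity), abs_div, add_sub_add_left_eq_sub,
      abs_sub_comm, abs_of_nonneg (a := _ * _) (by positivity)]
    exact (div_le_self (abs_nonneg _) (one_le_mul_of_one_le_of_one_le h1 h2)).trans h3

omit [CompleteSpace P] in
theorem b7_base {F : XX N (Cn N) P → Cn N} {α : XX N (Cn N) P → Cn N →L[ℝ] ℝ}
    {Ω : XX N (Cn N) P → Cn N →L[ℝ] Cn N →L[ℝ] ℝ} {r C : ℝ} (hA : An F α Ω r C) {ω0 : T N}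
    {c : Fin N → ℝ} (hc : ∀ j, c j ≠ 0)
    (hJ : ∀ v w, Ω 0 v w = ∑ j, c j * ((starRingEnd ℂ) (v j) * w j).im)
    (hF : ∀ (u : Cn N) (m : T N) (ν : P), ‖((0, u, m, ν) : XX N (Cn N) P)‖ ≤ r →
      F (0, u, m, ν) = rot (ω0 + m) u) :
    ∃ r1 : ℝ, 0 < r1 ∧ ∀ r0 : ℝ, 0 < r0 → r0 ≤ r1 → ∃ C' : ℝ, C ≤ C' ∧ ∃ N0 Q0 W0,
        Base F Ω (fun p : b7B N P => ω0 + r0 • p.1.1) (fun (p : b7B N P) θ => circ r0 p.1.2.1 θ)
          (fun p : b7B N P => r0 • p.1.1) (fun p : b7B N P => r0 • p.1.2.2) r C' N0 Q0 W0 := by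
  obtain ⟨hr, hC, -, hΩ⟩ := hA.tΩ
  obtain ⟨ri, Ci, hri, -, hinv⟩ := exists_inv N (T N)
  have eN : b7E (fun (_ : b7B N P) (θ : T N) => b7N θ) := b7_rot.comp (b7E_const _)
  have eL : b7E (fun (p : b7B N P) (θ : T N) => b7L (2 + p.1.2.1) θ) :=
    b7_rot.comp ((b7E_const _).comp (b7_a.clm (ContinuousLinearMap.mul ℝ (T N))))
  have eV : b7E (fun (p : b7B N P) (_ : T N) =>
      ContinuousLinearMap.mul ℝ (T N) (-c⁻¹ * (2 + p.1.2.1)⁻¹)) :=
    (b7_b.clm (ContinuousLinearMap.mul ℝ (T N) (-c⁻¹))).clm (ContinuousLinearMap.mul ℝ (T N))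
  have eY : b7E (fun (p : b7B N P) (θ : T N) =>
      ((0, b7N θ (2 + p.1.2.1), p.1.1, p.1.2.2) : XX N (Cn N) P)) := by
    refine (((eN.app b7_a).clm (iu N (Cn N) P)).add (b7_id.clm
      ((0 : (T N × T N × P) →L[ℝ] ℝ).prod ((0 : (T N × T N × P) →L[ℝ] Cn N).prod
        ((ContinuousLinearMap.fst ℝ (T N) (T N × P)).prod ((ContinuousLinearMap.snd ℝ (T N) P).comp
          (ContinuousLinearMap.snd ℝ (T N) (T N × P)))))))).congr fun p θ => ?_
    simp
  obtain ⟨kY, hY⟩ := eY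
  obtain ⟨kN, hN⟩ := eN
  obtain ⟨kL, hL⟩ := eL
  obtain ⟨kV, hV⟩ := eV
  have hY0 := hY.nonneg
  have hN0 := hN.nonneg
  have hL0 := hL.nonneg
  have hV0 := hV.nonneg
  refine ⟨min (r / 16 / (kY + 1)) (ri / (C * kY * kL * kN * kV + 1)), by positivity,
    fun r0 h0 h1 => ?_⟩
  have s1 : r0 * kY ≤ r / 16 := by
    have := (le_div_iff₀ (by positivity)).1 (h1.trans (min_le_left _ _))
    linarith
  have s2 : 1 * (C * (r0 * kY) * kL) * kN * kV ≤ ri := by
    have := (le_div_iff₀ (by positivity)).1 (h1.trans (min_le_right _ _))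
    linarith
  set Y := Yf 0 (fun (p : b7B N P) θ => circ r0 p.1.2.1 θ) (fun p : b7B N P => r0 • p.1.1)
    (fun p : b7B N P => r0 • p.1.2.2) with hYd
  have bY0 : Bd 1 Y (r0 * kY) := (b7_smul hY h0.le).congr fun p θ => by
    simp [hYd, Yf, b7_circ]
  have bY : Bd 1 Y (r / 16) := bY0.mono le_rfl s1
  have nY : ∀ p θ, ‖Y p θ‖ < r := fun p θ => (bY.norm_le zero_le_one p θ).trans_lt (by linarith)
  have eLf : ∀ (p : b7B N P) θ, Lf (fun (p : b7B N P) θ => circ r0 p.1.2.1 θ) p θ =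
      b7L (r0 • (2 + p.1.2.1)) θ := fun p θ => (b7_der r0 p.1.2.1 θ).fderiv
  have bΩ : Bd 1 (fun p θ => Ω (Y p θ) - Ω 0) (C * (r0 * kY)) :=
    (hΩ (b7B N P) 1 0 (r0 * kY) (fun _ _ => 0) Y zero_le_one (Bd.zero 1) bY0 hr.le
      (by linarith)).2.1.congr fun p θ => by rw [zero_add]
  set x : b7B N P → T N → T N →L[ℝ] T N := fun p θ =>
    ((flat N (Cn N) ((Ω (Y p θ) - Ω 0).comp (b7L (2 + p.1.2.1) θ))).comp (b7N θ)).comp
      (ContinuousLinearMap.mul ℝ (T N) (-c⁻¹ * (2 + p.1.2.1)⁻¹)) with hx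
  have bx : Bd 1 x ri := (Bd.comp zero_le_one (Bd.comp zero_le_one
    ((Bd.comp zero_le_one bΩ hL).clm _ norm_flat_le) hN) hV).mono le_rfl s2
  obtain ⟨bI, hI⟩ := hinv (b7B N P) 1 x zero_le_one bx
  have ha : ∀ (p : b7B N P) j, 2 + p.1.2.1 j ≠ 0 := fun p j =>
    (zero_lt_one.trans_le (b7_one_le p j)).ne'
  have hab : ∀ (p : b7B N P) j, (r0 • (2 + p.1.2.1)) j * (r0⁻¹ • (2 + p.1.2.1)⁻¹) j = 1 := by
    intro p j
    have := ha p j
    show r0 * (2 + p.1.2.1 j) * (r0⁻¹ * (2 + p.1.2.1 j)⁻¹) = 1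
    field_simp
  have hVW : ∀ (p : b7B N P) (v : T N),
      -c⁻¹ * (2 + p.1.2.1)⁻¹ * -(c * (2 + p.1.2.1) * v) = v := fun p v => by
    funext j
    have := ha p j
    have := hc j
    show -(c j)⁻¹ * (2 + p.1.2.1 j)⁻¹ * -(c j * (2 + p.1.2.1 j) * v j) = v j
    field_simp
  have hW : ∀ (p : b7B N P) θ v, Uf Ω (Y p θ) (b7L (r0 • (2 + p.1.2.1)) θ) (b7N θ v) =
      r0 • (1 + x p θ) (-(c * (2 + p.1.2.1) * v)) := fun p θ v => by
    rw [_root_.add_apply, one_apply_eq_self, hx]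
    simp only [ContinuousLinearMap.comp_apply, ContinuousLinearMap.mul_apply']
    rw [hVW, ← b7_form hJ _ θ, ← _root_.add_apply, ← map_add,
      ← ContinuousLinearMap.add_comp, add_sub_cancel, b7L_smul, Uf, ContinuousLinearMap.comp_smul,
      map_smul, _root_.smul_apply]
  obtain ⟨kQ, hQ⟩ : b7E (fun (p : b7B N P) (θ : T N) => b7Q (r0⁻¹ • (2 + p.1.2.1)⁻¹) θ) :=
    (((b7E_const _).comp (((b7_b.smul r0⁻¹).clm (ContinuousLinearMap.mul ℝ (T N))).comp
      (b7E_const _))).add (b7E_const _)).comp b7_rot'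
  have bW := b7_smul (Bd.comp zero_le_one hV bI) (inv_nonneg.2 h0.le)
  have bL := b7_smul hL h0.le
  have n1 := bW.nonneg
  have n2 := bL.nonneg
  have n3 := hQ.nonneg
  refine ⟨C + r0 * kL + kN + kQ + r0⁻¹ * (kV * Ci), by linarith, _, _, _, bY,
    (bL.mono le_rfl (by linarith)).congr fun p θ => by rw [eLf, b7L_smul],
    hN.mono le_rfl (by linarith), hQ.mono le_rfl (by linarith), bW.mono le_rfl (by linarith),
    fun p θ v => ?_, fun p θ a b => ?_, fun p θ v => ?_, fun p θ v => ?_, fun p θ => ?_,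
    fun p θ => ?_⟩
  · rw [eLf]; exact b7_pq (hab p) θ v
  · rw [eLf]; exact b7_qp (hab p) θ a b
  · rw [eLf, hW, _root_.smul_apply, mul_smul_comm, ← smul_neg, map_smul, smul_smul,
      mul_inv_cancel₀ h0.ne', one_smul, ContinuousLinearMap.comp_apply,
      ContinuousLinearMap.mul_apply', mul_left_comm, ← mul_neg, hVW]
    exact DFunLike.congr_fun (hI p θ).1 v
  · rw [eLf, hW, _root_.smul_apply, map_smul, smul_smul, inv_mul_cancel₀ h0.ne',
      one_smul, ContinuousLinearMap.comp_apply, ContinuousLinearMap.mul_apply']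
    exact (congrArg _ (DFunLike.congr_fun (hI p θ).2 _)).trans (hVW p v)
  · exact (hF _ _ _ (nY p θ).le).trans (b7_rot_circ _ _ _ _)
  · have d1 : HasFDerivAt (fun m : T N => ((0, circ r0 p.1.2.1 θ, m, r0 • p.1.2.2) : XX N (Cn N) P))
        (im N (Cn N) P) (r0 • p.1.1) := by
      refine ((im N (Cn N) P).hasFDerivAt.add_const
        ((0, circ r0 p.1.2.1 θ, 0, r0 • p.1.2.2) : XX N (Cn N) P)).congr_of_eventuallyEq
        (Eventually.of_forall fun m => ?_)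
      simp
    have d2 := HasFDerivAt.comp (g := F) (r0 • p.1.1)
      (hA.tF.2.2.1 _ (show ‖Y p θ‖ ≤ 2 * r by linarith [nY p θ])).hasFDerivAt d1
    have d3 := (b7_der r0 p.1.2.1 (θ + (ω0 + r0 • p.1.1))).comp (r0 • p.1.1)
      (((hasFDerivAt_id (r0 • p.1.1)).const_add ω0).const_add θ)
    rw [eLf]
    refine d2.unique (d3.congr_of_eventuallyEq ?_)
    filter_upwards [d1.continuousAt.norm.eventually (gt_mem_nhds (nY p θ))] with m hm
    exact (hF _ _ _ hm.le).trans (b7_rot_circ _ _ _ _)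

/-- Parameters p = (frequency, radius, other), in any subset Λ of the unit ball. With
R θ = rot θ = ∑ j, (cos (θ j) • A j + sin (θ j) • B j) (in the class by Bd.cos_atom, Bd.sin_atom,
Bd.sum), a j = r0 * (2 + s j): K0 = R θ a, Lf K0 ξ = R θ (I * a * ξ), N0 ξ = R θ ξ,
Q0 v = (im (R (-θ) v) / a, re (R (-θ) v)). The matrix W = Uf Ω Y0 (Lf K0) ∘ N0 equals
W00 + flat ((Ω Y0 - Ω 0) ∘ Lf K0) ∘ N0 with W00 = diag (- c j * a j); here Ω Y0 - Ω 0 has bound
C * (bound of Y0) = O(r0) by An.tΩ of order one at Y = 0, Lf K0 = O(r0) and W00⁻¹ = O(1 / r0), so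
W = (1 + x) W00 with x = O(r0); W0 = W00⁻¹ (1 + x)⁻¹ by exists_inv. It is cleanest to write
Lf K0 = r0 • L1 and W00⁻¹ = r0⁻¹ • V1 with L1, V1 bounded independently of r0. Base.b0: F is
differentiable at Y0, and m ↦ F (0, u, m, ν) = rot (ω0 + m) u near m0. -/
theorem exists_base {F : XX N (Cn N) P → Cn N} {α : XX N (Cn N) P → Cn N →L[ℝ] ℝ}
    {Ω : XX N (Cn N) P → Cn N →L[ℝ] Cn N →L[ℝ] ℝ} {r C : ℝ} (hA : An F α Ω r C) {ω0 : T N}
    {c : Fin N → ℝ} (hc : ∀ j, c j ≠ 0)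
    (hJ : ∀ v w, Ω 0 v w = ∑ j, c j * ((starRingEnd ℂ) (v j) * w j).im)
    (hF : ∀ (u : Cn N) (m : T N) (ν : P), ‖((0, u, m, ν) : XX N (Cn N) P)‖ ≤ r →
      F (0, u, m, ν) = rot (ω0 + m) u) :
    ∃ r1 : ℝ, 0 < r1 ∧ ∀ r0 : ℝ, 0 < r0 → r0 ≤ r1 → ∃ C' : ℝ, C ≤ C' ∧
      ∀ Λ : Set (T N × T N × P), (∀ p ∈ Λ, ‖p‖ ≤ 1) → ∃ N0 Q0 W0,
        Base F Ω (fun p : Λ => ω0 + r0 • p.1.1) (fun (p : Λ) θ => circ r0 p.1.2.1 θ)
          (fun p : Λ => r0 • p.1.1) (fun p : Λ => r0 • p.1.2.2) r C' N0 Q0 W0 := by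
  obtain ⟨r1, h1, h⟩ := b7_base hA hc hJ hF
  refine ⟨r1, h1, fun r0 h0 hr => ?_⟩
  obtain ⟨C', hC, N0, Q0, W0, hB⟩ := h r0 h0 hr
  refine ⟨C', hC, fun Λ hΛ => ?_⟩
  let f : Λ → b7B N P := fun p => ⟨p.1, hΛ p.1 p.2⟩
  have hf : ∀ p q, dist (f p) (f q) = dist p q := fun _ _ => rfl
  exact ⟨fun p => N0 (f p), fun p => Q0 (f p), fun p => W0 (f p), b7_pull hB.bY f hf,
    b7_pull hB.bL f hf, b7_pull hB.bN f hf, b7_pull hB.bQ f hf, b7_pull hB.bW f hf,
    fun p => hB.pq (f p), fun p => hB.qp (f p), fun p => hB.w1 (f p), fun p => hB.w2 (f p),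
    fun p => hB.f0 (f p), fun p => hB.b0 (f p)⟩

end Pool.Agent.MP_28624d_gt.K

end

section

/-!
The KAM theorem for a fibred map in linear normal form whose frequencies are parameters.
-/

set_option maxSynthPendingDepth 3

namespace Pool.Agent.MP_28624d_gt.K

open Real Filter Topology

variable {N : ℕ} {P : Type} [NormedAddCommGroup P] [NormedSpace ℝ P] [FiniteDimensional ℝ P]

theorem b8_an_mono {E Q : Type} [NormedAddCommGroup E] [NormedSpace ℝ E] [CompleteSpace E]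
    [NormedAddCommGroup Q] [NormedSpace ℝ Q] {F : XX N E Q → E} {α : XX N E Q → E →L[ℝ] ℝ}
    {Ω : XX N E Q → E →L[ℝ] E →L[ℝ] ℝ} {r C r' C' : ℝ} (h : An F α Ω r C) (h0 : 0 < r')
    (hr : r' ≤ r) (hC : C ≤ C') : An F α Ω r' C' :=
  ⟨h.tF.mono h0 hr hC, h.tDF.mono h0 hr hC, h.tα.mono h0 hr hC, h.tDα.mono h0 hr hC,
    h.tΩ.mono h0 hr hC, fun x hx => h.dα x (hx.trans hr)⟩

theorem b8_ex_mono {E Q : Type} [NormedAddCommGroup E] [NormedSpace ℝ E]
    [NormedAddCommGroup Q] [NormedSpace ℝ Q] {F : XX N E Q → E} {α : XX N E Q → E →L[ℝ] ℝ}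
    {Ω : XX N E Q → E →L[ℝ] E →L[ℝ] ℝ} {r r' ε : ℝ} (h : Ex F α Ω r ε) (hr : r' ≤ r) :
    Ex F α Ω r' ε :=
  ⟨fun u m ν hx => h.inv u m ν (hx.trans hr), fun m ν =>
    (h.exact m ν).imp fun _ hS u hx => hS u (hx.trans hr)⟩

theorem b8_circ {r0 : ℝ} (hr : 0 < r0) {s s' θ θ' : T N} (hs : ‖s‖ ≤ 1) (hs' : ‖s'‖ ≤ 1)
    (hθ : ‖θ‖ ≤ 1) (hθ' : ‖θ'‖ ≤ 1) :
    r0 / 10 * ‖s - s'‖ ≤ ‖circ r0 s θ - circ r0 s' θ'‖ ∧
      r0 / 10 * ‖θ - θ'‖ ≤ ‖circ r0 s θ - circ r0 s' θ'‖ := by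
  have hb : ∀ {x : T N}, ‖x‖ ≤ 1 → ∀ j, |x j| ≤ 1 := fun {x} hx j =>
    (norm_le_pi_norm x j).trans hx
  have key : ∀ j, r0 / 10 * max |s j - s' j| |θ j - θ' j| ≤ ‖circ r0 s θ - circ r0 s' θ'‖ := by
    intro j
    have h1 := abs_le.mp (hb hs j)
    have h2 := abs_le.mp (hb hs' j)
    have h3 := polar_antilip (a := 2 + s j) (b := 2 + s' j) (s := θ j) (t := θ' j)
      ⟨by linarith [h1.1], by linarith [h1.2]⟩ ⟨by linarith [h2.1], by linarith [h2.2]⟩
      (hb hθ j) (hb hθ' j)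
    rw [add_sub_add_left_eq_sub] at h3
    refine le_trans ?_ (norm_le_pi_norm (circ r0 s θ - circ r0 s' θ') j)
    have e : (circ r0 s θ - circ r0 s' θ') j = (r0 : ℂ) *
        (((2 + s j : ℝ) : ℂ) * Complex.exp ((θ j : ℂ) * Complex.I) -
          ((2 + s' j : ℝ) : ℂ) * Complex.exp ((θ' j : ℂ) * Complex.I)) := by
      simp only [Pi.sub_apply, circ]
      push_cast
      ring
    rw [e, norm_mul, Complex.norm_real, Real.norm_of_nonneg hr.le]
    have h4 := mul_le_mul_of_nonneg_left h3 hr.le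
    linarith
  have fin : ∀ x : T N, (∀ j, r0 / 10 * |x j| ≤ ‖circ r0 s θ - circ r0 s' θ'‖) →
      r0 / 10 * ‖x‖ ≤ ‖circ r0 s θ - circ r0 s' θ'‖ := by
    intro x hx
    have h10 : 0 < r0 / 10 := by positivity
    rw [← le_div_iff₀' h10]
    refine (pi_norm_le_iff_of_nonneg (by positivity)).2 fun j => ?_
    rw [le_div_iff₀' h10]
    exact hx j
  have h10 : 0 ≤ r0 / 10 := by positivity
  exact ⟨fin _ fun j => le_trans (mul_le_mul_of_nonneg_left (le_max_left _ _) h10) (key j),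
    fin _ fun j => le_trans (mul_le_mul_of_nonneg_left (le_max_right _ _) h10) (key j)⟩

theorem b8_rank : Module.finrank ℝ (T N × (T N × T N × P)) =
    Module.finrank ℝ (Cn N × (T N × P)) := by
  simp only [Module.finrank_prod, Module.finrank_pi_fintype, Complex.finrank_real_complex,
    Module.finrank_self, Finset.sum_const, Finset.card_univ, Fintype.card_fin, smul_eq_mul]
  ring

theorem b8_pos {Λ : Set (T N × T N × P)} (hΛ : Pos Λ) (h1 : ∀ p ∈ Λ, ‖p‖ ≤ 1) {r0 ε e : ℝ}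
    (hr : 0 < r0) (hε : 0 < ε) (hε1 : ε ≤ 1) (he : e ≤ r0 / 80) {K : Λ → T N → Cn N}
    {m : Λ → T N} (hK : Bd (1 / 2) (fun (p : Λ) θ => K p θ - circ r0 p.1.2.1 θ) e)
    (hm : Bd (1 / 2) (fun (p : Λ) (_ : T N) => m p - r0 • p.1.1) e) :
    Pos {z : Cn N × (T N × P) | ∃ (p : Λ) (θ : T N), z = (ε • K p θ, m p, r0 • p.1.2.2)} := by
  classical
  have hb : Pos (Metric.closedBall (0 : T N) 1) :=
    Pos.of_nhds (Metric.closedBall_mem_nhds 0 one_pos)
  have he0 : 0 ≤ e := hK.nonneg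
  refine Pos.mono (Pos.image (hb.prod hΛ) b8_rank
    (f := fun x : T N × (T N × T N × P) => if h : x.2 ∈ Λ then
      ((ε • K ⟨x.2, h⟩ x.1, m ⟨x.2, h⟩, r0 • x.2.2.2) : Cn N × (T N × P)) else 0)
    (c := ε * (r0 / 20)) (by positivity) ?_) ?_
  · rintro ⟨θ, p⟩ ⟨hθ, hp⟩ ⟨η, q⟩ ⟨hη, hq⟩
    simp only at hθ hp hη hq
    simp only [dif_pos hp, dif_pos hq]
    rw [mem_closedBall_zero_iff] at hθ hη
    set R := ‖((ε • K ⟨p, hp⟩ θ, m ⟨p, hp⟩, r0 • p.2.2) : Cn N × (T N × P)) -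
      (ε • K ⟨q, hq⟩ η, m ⟨q, hq⟩, r0 • q.2.2)‖ with hR
    set d := ‖((θ, p) : T N × (T N × T N × P)) - (η, q)‖ with hd
    have hd0 : 0 ≤ d := norm_nonneg _
    have hR0 : 0 ≤ R := norm_nonneg _
    have d1 : ‖θ - η‖ ≤ d := norm_fst_le (((θ, p) : T N × (T N × T N × P)) - (η, q))
    have d2 : dist (⟨p, hp⟩ : Λ) ⟨q, hq⟩ ≤ d := by
      rw [Subtype.dist_eq, dist_eq_norm]
      exact norm_snd_le (((θ, p) : T N × (T N × T N × P)) - (η, q))
    have R1 : ε * ‖K ⟨p, hp⟩ θ - K ⟨q, hq⟩ η‖ ≤ R := by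
      have h := norm_fst_le (((ε • K ⟨p, hp⟩ θ, m ⟨p, hp⟩, r0 • p.2.2) : Cn N × (T N × P)) -
        (ε • K ⟨q, hq⟩ η, m ⟨q, hq⟩, r0 • q.2.2))
      rwa [Prod.fst_sub, ← smul_sub, norm_smul, Real.norm_of_nonneg hε.le] at h
    have R23 := norm_snd_le (((ε • K ⟨p, hp⟩ θ, m ⟨p, hp⟩, r0 • p.2.2) : Cn N × (T N × P)) -
        (ε • K ⟨q, hq⟩ η, m ⟨q, hq⟩, r0 • q.2.2))
    have R2 : ‖m ⟨p, hp⟩ - m ⟨q, hq⟩‖ ≤ R := (norm_fst_le _).trans R23
    have R3 : r0 * ‖p.2.2 - q.2.2‖ ≤ R := by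
      have h := (norm_snd_le _).trans R23
      rwa [Prod.snd_sub, Prod.snd_sub, ← smul_sub, norm_smul, Real.norm_of_nonneg hr.le] at h
    have k1 := hK.lip_par (by norm_num) ⟨p, hp⟩ ⟨q, hq⟩ θ
    have k2 := hK.lip_ang (by norm_num) ⟨q, hq⟩ θ η
    have k3 := hm.lip_par (by norm_num) ⟨p, hp⟩ ⟨q, hq⟩ θ
    simp only at k1 k2 k3
    have he2 : 0 ≤ e / (1 / 2) := by positivity
    have k1' := k1.trans (mul_le_mul_of_nonneg_left d2 he2)
    have k2' := k2.trans (mul_le_mul_of_nonneg_left d1 he2)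
    have k3' := k3.trans (mul_le_mul_of_nonneg_left d2 he2)
    have hed : e / (1 / 2) * d ≤ r0 / 40 * d :=
      mul_le_mul_of_nonneg_right (by linarith) hd0
    have c0 : ‖circ r0 p.2.1 θ - circ r0 q.2.1 η‖ ≤
        ‖K ⟨p, hp⟩ θ - K ⟨q, hq⟩ η‖ + r0 / 20 * d := by
      have e1 : circ r0 p.2.1 θ - circ r0 q.2.1 η = (K ⟨p, hp⟩ θ - K ⟨q, hq⟩ η) -
          ((K ⟨p, hp⟩ θ - circ r0 p.2.1 θ - (K ⟨q, hq⟩ θ - circ r0 q.2.1 θ)) +
            (K ⟨q, hq⟩ θ - circ r0 q.2.1 θ - (K ⟨q, hq⟩ η - circ r0 q.2.1 η))) := by abel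
      rw [e1]
      refine (norm_sub_le _ _).trans (add_le_add le_rfl ((norm_add_le _ _).trans ?_))
      linarith
    have m0 : r0 * ‖p.1 - q.1‖ ≤ ‖m ⟨p, hp⟩ - m ⟨q, hq⟩‖ + r0 / 20 * d := by
      have e1 : r0 • (p.1 - q.1) = (m ⟨p, hp⟩ - m ⟨q, hq⟩) -
          (m ⟨p, hp⟩ - r0 • p.1 - (m ⟨q, hq⟩ - r0 • q.1)) := by
        rw [smul_sub]; abel
      have e2 : r0 * ‖p.1 - q.1‖ = ‖r0 • (p.1 - q.1)‖ := by
        rw [norm_smul, Real.norm_of_nonneg hr.le]
      rw [e2, e1]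
      refine (norm_sub_le _ _).trans (add_le_add le_rfl ?_)
      have : 0 ≤ r0 / 40 * d := by positivity
      linarith
    have hc := b8_circ hr ((norm_fst_le _).trans ((norm_snd_le _).trans (h1 p hp)))
      ((norm_fst_le _).trans ((norm_snd_le _).trans (h1 q hq))) hθ hη
    have hεR : ε * R ≤ R := mul_le_of_le_one_left hR0 hε1
    have hrd : 0 ≤ ε * (r0 / 20 * d) := by positivity
    have hB : ∀ t : ℝ, 0 ≤ t → ε * (r0 / 10 * t) ≤ R + ε * (r0 / 20 * d) →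
        t ≤ (R + ε * (r0 / 20 * d)) / (ε * (r0 / 10)) := fun t _ h => by
      rw [le_div_iff₀ (by positivity)]
      linarith
    have b1 := hB _ (norm_nonneg (θ - η)) (by
      have := mul_le_mul_of_nonneg_left (hc.2.trans c0) hε.le
      linarith)
    have b2 := hB _ (norm_nonneg (p.2.1 - q.2.1)) (by
      have := mul_le_mul_of_nonneg_left (hc.1.trans c0) hε.le
      linarith)
    have b3 := hB _ (norm_nonneg (p.1 - q.1)) (by
      have h5 := mul_le_mul_of_nonneg_left (m0.trans (add_le_add R2 le_rfl)) hε.le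
      have h6 : 0 ≤ ε * (r0 * ‖p.1 - q.1‖) := by positivity
      linarith)
    have b4 := hB _ (norm_nonneg (p.2.2 - q.2.2)) (by
      have h5 := mul_le_mul_of_nonneg_left R3 hε.le
      have h6 : 0 ≤ ε * (r0 * ‖p.2.2 - q.2.2‖) := by positivity
      linarith)
    have hdd : d ≤ (R + ε * (r0 / 20 * d)) / (ε * (r0 / 10)) := by
      refine le_trans (le_of_eq hd) ?_
      exact max_le b1 (max_le b3 (max_le b2 b4))
    rw [le_div_iff₀ (by positivity)] at hdd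
    linarith
  · rintro _ ⟨⟨θ, p⟩, ⟨-, hp⟩, rfl⟩
    simp only at hp
    exact ⟨⟨p, hp⟩, θ, by simp only [dif_pos hp]⟩

/-- Given U, shrink r (An and Ex are monotone in r) so that the hypothesis h0 holds on the ball and
the ball of radius r lies in U. Take F, α from rescale, r0 = min r1 1 from exists_base, γ, τ from
exists_dio, Λ = D ×ˢ closedBall 0 1 ×ˢ closedBall 0 1 (D the Diophantine set), ε0, C1 from
kam_core and 0 < ε ≤ 1 with C1 * ε much smaller than r0 and r. S is the set of all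
(ε • K p θ, m p, r0 • p.2.2). Invariance: θ ↦ θ + ω p and θ ↦ θ - ω p. Positive measure: on
closedBall 0 1 ×ˢ Λ ⊆ T N × (T N × T N × P) the map (θ, p) ↦ (K p θ, m p, r0 • p.2.2) (extended
by a dependent if) is antilipschitz: the unperturbed map has constant r0 / 10 (polar_antilip) and
the perturbation is Lipschitz with constant 4 * C1 * ε (Bd.lip_par, Bd.lip_ang at radius 1 / 2);
then Pos.prod, Pos.image (finrank (Cn N) = 2 N), and Pos.image again for the scaling by ε. -/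
theorem kam0 {f : Cn N × (T N × P) → Cn N} {Ω : Cn N × (T N × P) → Cn N →L[ℝ] Cn N →L[ℝ] ℝ}
    {ω0 : T N} {c : Fin N → ℝ} (hf : AnalyticAt ℝ f 0) (hΩ : AnalyticAt ℝ Ω 0)
    (h0 : ∀ᶠ μ in 𝓝 (0 : T N × P), f (0, μ) = 0 ∧
      ∀ u, fderiv ℝ f (0, μ) (u, 0) = rot (ω0 + μ.1) u)
    (hS : Symp f Ω) (hc : ∀ j, c j ≠ 0)
    (hJ : ∀ v w, Ω 0 v w = ∑ j, c j * ((starRingEnd ℂ) (v j) * w j).im) : Concl f := by
  intro U hU
  have := FiniteDimensional.complete ℝ P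
  obtain ⟨F, α, r, C, hA, hE, hFf, hF0⟩ := rescale hf hΩ (h0.mono fun _ h => h.1) hS
  obtain ⟨δ, hδ, hδU⟩ := Metric.mem_nhds_iff.mp hU
  obtain ⟨δ', hδ', hδ0⟩ := Metric.mem_nhds_iff.mp h0
  have hr : 0 < r := hA.tF.1
  obtain ⟨s, hs, hsr, hsδ, hsδ'⟩ : ∃ s : ℝ, 0 < s ∧ s ≤ r ∧ s < δ ∧ s < δ' :=
    ⟨min r (min (δ / 2) (δ' / 2)), by positivity, min_le_left _ _,
      ((min_le_right _ _).trans (min_le_left _ _)).trans_lt (by linarith),
      ((min_le_right _ _).trans (min_le_right _ _)).trans_lt (by linarith)⟩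
  obtain ⟨r1, hr1, hB⟩ := exists_base (ω0 := ω0) (b8_an_mono hA hs hsr le_rfl) hc
    (fun v w => by
      have e : (((0 : XX N (Cn N) P).1 • (0 : XX N (Cn N) P).2.1, (0 : XX N (Cn N) P).2.2) :
        Cn N × (T N × P)) = 0 := by
        simp only [Prod.fst_zero, Prod.snd_zero, smul_zero, Prod.mk_zero_zero]
      simp only [e]
      exact hJ v w)
    (fun u m ν h => by
      rw [hF0 u (m, ν) (h.trans hsr)]
      refine (hδ0 (a := (m, ν)) ?_).2 u
      rw [mem_ball_zero_iff]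
      exact ((norm_snd_le _).trans ((norm_snd_le _).trans h)).trans_lt hsδ')
  have hr0 : 0 < min r1 1 := lt_min hr1 one_pos
  have hr01 : min r1 1 ≤ 1 := min_le_right _ _
  obtain ⟨C', hC, hB⟩ := hB (min r1 1) hr0 (min_le_left _ _)
  generalize min r1 1 = r0 at hr0 hr01 hB
  obtain ⟨γ, τ, hγ, hγ1, hD⟩ := exists_dio N ω0 hr0
  have hΛ := hD.prod ((Pos.of_nhds (Metric.closedBall_mem_nhds (0 : T N) one_pos)).prod
    (Pos.of_nhds (Metric.closedBall_mem_nhds (0 : P) one_pos)))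
  obtain ⟨Λ, hΛ, h1, h2⟩ : ∃ Λ : Set (T N × T N × P), Pos Λ ∧ (∀ p ∈ Λ, ‖p‖ ≤ 1) ∧
      ∀ p ∈ Λ, ∀ k : Fin N → ℤ, k ≠ 0 → γ ≤ kn k ^ τ * |sin (dot k (ω0 + r0 • p.1) / 2)| :=
    ⟨_, hΛ, fun p hp => max_le hp.1.1 (max_le (mem_closedBall_zero_iff.mp hp.2.1)
      (mem_closedBall_zero_iff.mp hp.2.2)), fun p hp => hp.1.2⟩
  obtain ⟨N0, Q0, W0, hB⟩ := hB Λ h1
  have hω : Dio (fun p : Λ => ω0 + r0 • p.1.1) γ τ := by
    refine ⟨fun p q => ?_, hγ, hγ1, fun p => h2 p.1 p.2⟩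
    rw [add_sub_add_left_eq_sub, ← smul_sub, norm_smul, Real.norm_of_nonneg hr0.le,
      Subtype.dist_eq, dist_eq_norm]
    exact (mul_le_of_le_one_left (norm_nonneg _) hr01).trans (norm_fst_le (p.1 - q.1))
  obtain ⟨ε0, C1, hε0, hK⟩ := kam_core (b8_an_mono hA hs hsr hC) hω hB
  obtain ⟨ε, hε, e1, e2, e3, e4, e5⟩ : ∃ ε : ℝ, 0 < ε ∧ ε ≤ ε0 ∧ ε ≤ 1 ∧ ε ≤ s ∧
      C1 * ε ≤ r0 / 80 ∧ C1 * ε ≤ s / 2 := by
    have hp : 0 < |C1| + 1 := by positivity
    have hq : ∀ t ε : ℝ, 0 < ε → ε ≤ t / (|C1| + 1) → C1 * ε ≤ t := fun t ε h h' => by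
      rw [le_div_iff₀ hp] at h'
      have := mul_le_mul_of_nonneg_right (le_abs_self C1) h.le
      linarith
    have h3 : 0 < min (min ε0 (min 1 s)) (min (r0 / 80 / (|C1| + 1)) (s / 2 / (|C1| + 1))) := by
      positivity
    exact ⟨_, h3, (min_le_left _ _).trans (min_le_left _ _),
      (min_le_left _ _).trans ((min_le_right _ _).trans (min_le_left _ _)),
      (min_le_left _ _).trans ((min_le_right _ _).trans (min_le_right _ _)),
      hq _ _ h3 ((min_le_right _ _).trans (min_le_left _ _)),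
      hq _ _ h3 ((min_le_right _ _).trans (min_le_right _ _))⟩
  obtain ⟨K, m, bK, bm, hinv⟩ := hK ε (by rwa [abs_of_pos hε]) (b8_ex_mono (hE ε hε.ne') hsr)
  rw [abs_of_pos hε] at bK bm
  have hn : ∀ (p : Λ) (θ : T N), ‖K p θ‖ ≤ s ∧ ‖((m p, r0 • p.1.2.2) : T N × P)‖ ≤ s := by
    intro p θ
    have y0 := hB.bY.norm_le zero_le_one p θ
    have y1 : ‖circ r0 p.1.2.1 θ‖ ≤ s / 16 := (norm_fst_le _).trans ((norm_snd_le _).trans y0)
    have y2 : ‖r0 • p.1.1‖ ≤ s / 16 :=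
      (norm_fst_le _).trans ((norm_snd_le _).trans ((norm_snd_le _).trans y0))
    have y3 : ‖r0 • p.1.2.2‖ ≤ s / 16 :=
      (norm_snd_le _).trans ((norm_snd_le _).trans ((norm_snd_le _).trans y0))
    have z1 := bK.norm_le (by norm_num) p θ
    have z2 := bm.norm_le (by norm_num) p θ
    have w1 := norm_le_norm_sub_add (K p θ) (circ r0 p.1.2.1 θ)
    have w2 := norm_le_norm_sub_add (m p) (r0 • p.1.1)
    exact ⟨by linarith, max_le (by linarith) (by linarith)⟩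
  have hstep : ∀ (p : Λ) (θ : T N),
      f (ε • K p θ, m p, r0 • p.1.2.2) = ε • K p (θ + (ω0 + r0 • p.1.1)) := by
    intro p θ
    have h := hFf (ε, K p θ, m p, r0 • p.1.2.2) (le_trans
      (max_le (by rwa [Real.norm_of_nonneg hε.le]) (max_le (hn p θ).1 (hn p θ).2)) hsr)
    rw [← hinv p θ]
    exact h.symm
  refine ⟨_, ?_, b8_pos hΛ h1 hr0 hε e2 e4 bK bm, ?_, ?_⟩
  · rintro _ ⟨p, θ, rfl⟩
    refine hδU ?_
    rw [mem_ball_zero_iff]
    refine lt_of_le_of_lt (max_le ?_ (hn p θ).2) hsδ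
    rw [norm_smul, Real.norm_of_nonneg hε.le]
    exact (mul_le_of_le_one_left (norm_nonneg _) e2).trans (hn p θ).1
  · rintro _ ⟨p, θ, rfl⟩
    exact ⟨p, θ + (ω0 + r0 • p.1.1), by rw [hstep]⟩
  · rintro _ ⟨p, θ, rfl⟩
    exact ⟨_, ⟨p, θ - (ω0 + r0 • p.1.1), rfl⟩, by rw [hstep, sub_add_cancel]⟩

end Pool.Agent.MP_28624d_gt.K

end
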