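import Pool.Agent.MP_28624d_gt.Mg.K_KE
import Pool.Agent.MP_28624d_gt.Mg.K_KD
import Pool.Agent.MP_28624d_gt.Mg.K_KF
import Pool.Agent.MP_28624d_gt.L4.Stmt
import Pool.Agent.MP_28624d_gt.L4.LA

-- part MP_28624d_gt.K.KG
section

section

/-!
The KAM theorem near a nonresonant elliptic fixed point with a submersive frequency map.
-/

set_option maxSynthPendingDepth 3

namespace Pool.Agent.MP_28624d_gt.K

open Real Filter Topology

variable {N : ℕ} {M : Type} [NormedAddCommGroup M] [NormedSpace ℝ M] [FiniteDimensional ℝ M]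

theorem c4_fix {l0 : Fin N → ℂ} (hn : Nonres l0) {v : Cn N} (h : dg l0 v - v = 0) : v = 0 := by
  funext j
  have h1 := congrFun h j
  simp only [Pi.sub_apply, dg_apply, Pi.zero_apply] at h1
  have h2 : l0 j ≠ 1 := fun h => hn.2 j j (by rw [h]; simp)
  have h3 : (l0 j - 1) * v j = 0 := by rw [← h1]; ring
  rcases mul_eq_zero.1 h3 with h4 | h4
  · exact absurd (sub_eq_zero.1 h4) h2
  · exact h4

/-- The analytic family of fixed points. -/
theorem c4_fixed {f : Cn N × M → Cn N} {l0 : Fin N → ℂ} (hf : AnalyticAt ℝ f 0) (h0 : f 0 = 0)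
    (hD : ∀ z μ, fderiv ℝ f 0 (z, μ) = dg l0 z) (hn : Nonres l0) :
    ∃ z : M → Cn N, AnalyticAt ℝ z 0 ∧ z 0 = 0 ∧ (∀ᶠ μ in 𝓝 (0 : M), f (z μ, μ) = z μ) ∧
      fderiv ℝ z 0 = 0 := by
  have hG : AnalyticAt ℝ (fun x : Cn N × M => f x - x.1) 0 := hf.sub analyticAt_fst
  have hd : ∀ v μ, fderiv ℝ (fun x : Cn N × M => f x - x.1) 0 (v, μ) = dg l0 v - v := by
    intro v μ
    have h1 : HasFDerivAt (fun x : Cn N × M => f x - x.1)
        (fderiv ℝ f 0 - ContinuousLinearMap.fst ℝ (Cn N) M) 0 :=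
      hf.differentiableAt.hasFDerivAt.sub hasFDerivAt_fst
    rw [h1.fderiv]
    simp [hD]
  obtain ⟨z, hz, z0, hz1, hz2⟩ := exists_implicit hG (by simp [h0])
    (fun v hv => c4_fix hn (by rw [← hd v 0]; exact hv))
  refine ⟨z, hz, z0, hz1.mono fun μ h => sub_eq_zero.1 h, ?_⟩
  ext1 ν
  exact c4_fix hn (by rw [← hd _ ν]; exact hz2 ν)

omit [FiniteDimensional ℝ M] in
/-- The linearization along the family of fixed points. -/
theorem c4_lin {f : Cn N × M → Cn N} (hf : AnalyticAt ℝ f 0) {z : M → Cn N}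
    (hz : AnalyticAt ℝ z 0) (z0 : z 0 = 0) (dz : fderiv ℝ z 0 = 0) :
    AnalyticAt ℝ (fun μ => (fderiv ℝ f (z μ, μ)).comp (ContinuousLinearMap.inl ℝ (Cn N) M)) 0 ∧
      ∀ ν, fderiv ℝ (fun μ => (fderiv ℝ f (z μ, μ)).comp (ContinuousLinearMap.inl ℝ (Cn N) M)) 0 ν =
        (fderiv ℝ (fderiv ℝ f) 0 (0, ν)).comp (ContinuousLinearMap.inl ℝ (Cn N) M) := by
  let L : (Cn N × M →L[ℝ] Cn N) →L[ℝ] Cn N →L[ℝ] Cn N :=
    (ContinuousLinearMap.compL ℝ (Cn N) (Cn N × M) (Cn N)).flip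
      (ContinuousLinearMap.inl ℝ (Cn N) M)
  have hL : ∀ B, L B = B.comp (ContinuousLinearMap.inl ℝ (Cn N) M) := fun B => rfl
  have hp : AnalyticAt ℝ (fun μ : M => (z μ, μ)) 0 := hz.prod analyticAt_id
  have e0 : (z 0, (0 : M)) = 0 := by rw [z0]; rfl
  have hf' : AnalyticAt ℝ (fderiv ℝ f) (z 0, (0 : M)) := by rw [e0]; exact hf.fderiv
  have h1 : AnalyticAt ℝ (fun μ : M => fderiv ℝ f (z μ, μ)) 0 :=
    AnalyticAt.comp (f := fun μ : M => (z μ, μ)) hf' hp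
  refine ⟨(L.analyticAt _).comp h1, fun ν => ?_⟩
  have h2 : HasFDerivAt (fun μ : M => (z μ, μ))
      ((fderiv ℝ z 0).prod (ContinuousLinearMap.id ℝ M)) 0 :=
    hz.differentiableAt.hasFDerivAt.prodMk (hasFDerivAt_id 0)
  have h3 := HasFDerivAt.comp (f := fun μ : M => (z μ, μ)) (0 : M)
    hf'.differentiableAt.hasFDerivAt h2
  have h4 := L.hasFDerivAt.comp (0 : M) h3
  have h5 : HasFDerivAt
      (fun μ => (fderiv ℝ f (z μ, μ)).comp (ContinuousLinearMap.inl ℝ (Cn N) M)) _ 0 := h4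
  rw [h5.fderiv, dz, e0]
  rfl

/-- Fixed points z μ by exists_implicit for f - fst (l0 j ≠ 1 because l0 j ≠ conj (l0 j)); hD gives
fderiv z 0 = 0. A μ = (fderiv f (z μ, μ)).comp inl has derivative
ν ↦ (fderiv (fderiv f) 0 (0, ν)).comp inl. Take X, l from exists_diag; the form
(Ω (z μ, μ)).bilinearComp (X μ) (X μ) is invariant under dg (l μ), so ‖l μ j‖ = 1 near 0
(norm_eq_one_of_inv, continuity of the Krein numbers). Take ω0, w from exists_arg and b from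
exists_reparam; apply kam0 to cf f b (z ∘ b) (X ∘ b), cΩ Ω b (z ∘ b) (X ∘ b) (form_diag at the
origin) and Concl.of_chg. -/
theorem kam1 {f : Cn N × M → Cn N} {Ω : Cn N × M → Cn N →L[ℝ] Cn N →L[ℝ] ℝ} {l0 : Fin N → ℂ}
    (hf : AnalyticAt ℝ f 0) (hΩ : AnalyticAt ℝ Ω 0) (h0 : f 0 = 0)
    (hD : ∀ z μ, fderiv ℝ f 0 (z, μ) = dg l0 z) (hn : Nonres l0) (hS : Symp f Ω)
    (hc : ∀ j, Ω 0 (Pi.single j 1) (Pi.single j Complex.I) ≠ 0)
    (hfr : Function.Surjective fun (ν : M) (j : Fin N) => ((starRingEnd ℂ) (l0 j) *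
      dgc ((fderiv ℝ (fderiv ℝ f) 0 (0, ν)).comp (ContinuousLinearMap.inl ℝ (Cn N) M)) j).im) :
    Concl f := by
  obtain ⟨z, hz, z0, hfz, dz⟩ := c4_fixed hf h0 hD hn
  obtain ⟨hA, dA⟩ := c4_lin hf hz z0 dz
  set A : M → Cn N →L[ℝ] Cn N :=
    fun μ => (fderiv ℝ f (z μ, μ)).comp (ContinuousLinearMap.inl ℝ (Cn N) M) with hAdef
  have e0 : (z 0, (0 : M)) = 0 := by rw [z0]; rfl
  have A0 : A 0 = dg l0 := by
    ext1 v
    show fderiv ℝ f (z 0, 0) (v, 0) = _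
    rw [e0, hD]
  obtain ⟨X, l, hX, hl, X0, hl0, hXl, dl⟩ := exists_diag hA A0 hn
  have hp : Tendsto (fun μ : M => (z μ, μ)) (𝓝 0) (𝓝 0) := by
    have h1 := (hz.continuousAt.prodMk continuousAt_id).tendsto
    simpa only [id, e0] using h1
  -- invariance of the form at the fixed points
  have hinv : ∀ᶠ μ in 𝓝 (0 : M), (∀ v w, Ω (z μ, μ) v w = -Ω (z μ, μ) w v) ∧
      ∀ v w, Ω (z μ, μ) (A μ v) (A μ w) = Ω (z μ, μ) v w := by
    filter_upwards [hp.eventually hS, hfz] with μ h1 h2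
    refine ⟨h1.1, fun v w => ?_⟩
    have h3 := h1.2.2 v w
    rw [h2] at h3
    exact h3
  have hK : ∀ᶠ μ in 𝓝 (0 : M), ∀ j,
      Ω (z μ, μ) (X μ (Pi.single j 1)) (X μ (Pi.single j Complex.I)) ≠ 0 := by
    rw [eventually_all]
    intro j
    have h1 : ContinuousAt (fun μ : M => Ω (z μ, μ)) 0 := by
      refine ContinuousAt.comp (f := fun μ : M => (z μ, μ)) ?_
        (hz.continuousAt.prodMk continuousAt_id)
      rw [e0]
      exact hΩ.continuousAt
    have h2 : ContinuousAt (fun μ : M =>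
        Ω (z μ, μ) (X μ (Pi.single j 1)) (X μ (Pi.single j Complex.I))) 0 :=
      (h1.clm_apply (hX.continuousAt.clm_apply continuousAt_const)).clm_apply
        (hX.continuousAt.clm_apply continuousAt_const)
    refine h2.eventually_ne ?_
    rw [e0, X0]
    exact hc j
  have hone : ∀ᶠ μ in 𝓝 (0 : M), ∀ j, ‖l μ j‖ = 1 := by
    filter_upwards [hinv, hK, hXl] with μ h1 h2 h3 j
    refine norm_eq_one_of_inv (J := (Ω (z μ, μ)).bilinearComp (X μ) (X μ)) (fun v w => h1.1 _ _)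
      (fun v w => ?_) (h2 j)
    have h4 : ∀ v, X μ (dg (l μ) v) = A μ (X μ v) := fun v =>
      (congrArg (fun B : Cn N →L[ℝ] Cn N => B v) h3).symm
    show Ω (z μ, μ) (X μ (dg (l μ) v)) (X μ (dg (l μ) w)) = Ω (z μ, μ) (X μ v) (X μ w)
    rw [h4, h4, h1.2]
  obtain ⟨ω0, w, hw, w0, hrot, dw⟩ := exists_arg hl hone
  have hs : Function.Surjective (fderiv ℝ w 0) := by
    intro y
    obtain ⟨ν, hν⟩ := hfr y
    refine ⟨ν, ?_⟩
    rw [← hν]
    funext j
    rw [dw, dl, dA, hl0]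
  obtain ⟨n, b, b', hb, b0, db, hwb⟩ := exists_reparam hw w0 hs
  have hzb : AnalyticAt ℝ (z ∘ b) 0 := AnalyticAt.comp (by rw [b0]; exact hz) hb
  have hXb : AnalyticAt ℝ (X ∘ b) 0 := AnalyticAt.comp (by rw [b0]; exact hX) hb
  have zb0 : (z ∘ b) 0 = 0 := by rw [Function.comp_apply, b0, z0]
  have Xb0 : (X ∘ b) 0 = 1 := by rw [Function.comp_apply, b0, X0]
  have tb : Tendsto b (𝓝 0) (𝓝 0) := by
    have h1 := hb.continuousAt.tendsto
    rwa [b0] at h1
  have ti : Tendsto (fun μ : T N × (Fin n → ℝ) => ((0 : Cn N), μ)) (𝓝 0) (𝓝 0) :=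
    (continuous_const.prodMk continuous_id).tendsto' 0 0 rfl
  refine Concl.of_chg (b := b) (z := z ∘ b) (A := X ∘ b) ?_ hb hzb hXb b0 zb0 Xb0 b' db
  refine kam0 (Ω := cΩ Ω b (z ∘ b) (X ∘ b)) (ω0 := ω0)
    (c := fun j => Ω 0 (Pi.single j 1) (Pi.single j Complex.I))
    (analyticAt_cf hf hb hzb hXb b0 zb0 Xb0) (analyticAt_cΩ hΩ hb hzb hXb b0 zb0) ?_
    (hS.chg hf hΩ hb hzb hXb b0 zb0 Xb0) hc ?_
  · filter_upwards [ti.eventually (fderiv_cf hf hb hzb hXb b0 zb0 Xb0), tb.eventually hfz,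
      tb.eventually hXl, tb.eventually hrot, hwb] with μ h1 h2 h3 h4 h5
    have e1 : chg b (z ∘ b) (X ∘ b) (0, μ) = (z (b μ), b μ) := by simp [chg]
    refine ⟨?_, fun u => ?_⟩
    · unfold cf
      rw [e1, h2]
      simp
    · rw [h1.2.2 u, e1, ← h5, ← h4]
      have h6 : A (b μ) (X (b μ) u) = X (b μ) (dg (l (b μ)) u) :=
        congrArg (fun B : Cn N →L[ℝ] Cn N => B u) h3
      have h7 : Ring.inverse (X (b μ)) (X (b μ) (dg (l (b μ)) u)) = dg (l (b μ)) u :=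
        congrArg (fun B : Cn N →L[ℝ] Cn N => B (dg (l (b μ)) u)) h1.2.1
      rw [← h7, ← h6]
      rfl
  · intro v u
    have e1 : chg b (z ∘ b) (X ∘ b) 0 = 0 := by
      unfold chg
      simp [b0, z0]
    have e2 : cΩ Ω b (z ∘ b) (X ∘ b) 0 v u = Ω 0 v u := by
      unfold cΩ
      rw [e1]
      show Ω 0 ((X ∘ b) 0 v) ((X ∘ b) 0 u) = _
      rw [Xb0]
      rfl
    have h1 := hinv.self_of_nhds
    have h2 := hone.self_of_nhds
    rw [e0, A0] at h1
    rw [hl0] at h2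
    rw [e2]
    exact form_diag h1.1 h1.2 hn h2 v u

end Pool.Agent.MP_28624d_gt.K

end

section

/-!
Invariance of the two form under the braid action and under conjugation.
-/

set_option maxSynthPendingDepth 3

namespace Pool.Agent.MP_28624d_gt.K

open Filter Topology

/-- Jets of invertible matrix valued functions with a central coordinate. -/
@[ext] structure SJ where
  g : A4ˣ
  d1 : A4
  d2 : A4
  b : ℝ

namespace SJ

theorem tr_cyc (a b : A4) : (a * b).trace = (b * a).trace := Matrix.trace_mul_comm a b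

theorem tr_conj (u : A4ˣ) (a : A4) : ((u⁻¹ : A4ˣ) * (a * u) : A4).trace = a.trace := by
  rw [tr_cyc, mul_assoc, Units.mul_inv, mul_one]

theorem tr_conj' (u : A4ˣ) (a : A4) : (u * (a * (u⁻¹ : A4ˣ)) : A4).trace = a.trace := by
  rw [tr_cyc, mul_assoc, Units.inv_mul, mul_one]

noncomputable instance : Mul SJ :=
  ⟨fun p q => ⟨p.g * q.g, p.d1 * q.g + p.g * q.d1, p.d2 * q.g + p.g * q.d2,
    p.b + q.b + cocS (p.g⁻¹ : A4ˣ) p.d1 p.d2 (q.g⁻¹ : A4ˣ) q.d1 q.d2⟩⟩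

instance : One SJ := ⟨⟨1, 0, 0, 0⟩⟩

noncomputable instance : Inv SJ :=
  ⟨fun p => ⟨p.g⁻¹, -((p.g⁻¹ : A4ˣ) * p.d1 * (p.g⁻¹ : A4ˣ)),
    -((p.g⁻¹ : A4ˣ) * p.d2 * (p.g⁻¹ : A4ˣ)), -p.b⟩⟩

theorem mul_g (p q : SJ) : (p * q).g = p.g * q.g := rfl
theorem mul_d1 (p q : SJ) : (p * q).d1 = p.d1 * q.g + p.g * q.d1 := rfl
theorem mul_d2 (p q : SJ) : (p * q).d2 = p.d2 * q.g + p.g * q.d2 := rfl
theorem mul_b (p q : SJ) : (p * q).b =
    p.b + q.b + cocS (p.g⁻¹ : A4ˣ) p.d1 p.d2 (q.g⁻¹ : A4ˣ) q.d1 q.d2 := rfl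
theorem one_g : (1 : SJ).g = 1 := rfl
theorem one_d1 : (1 : SJ).d1 = 0 := rfl
theorem one_d2 : (1 : SJ).d2 = 0 := rfl
theorem one_b : (1 : SJ).b = 0 := rfl
theorem inv_g (p : SJ) : p⁻¹.g = p.g⁻¹ := rfl
theorem inv_d1 (p : SJ) : p⁻¹.d1 = -((p.g⁻¹ : A4ˣ) * p.d1 * (p.g⁻¹ : A4ˣ)) := rfl
theorem inv_d2 (p : SJ) : p⁻¹.d2 = -((p.g⁻¹ : A4ˣ) * p.d2 * (p.g⁻¹ : A4ˣ)) := rfl
theorem inv_b (p : SJ) : p⁻¹.b = -p.b := rfl

theorem coc_aux (g h k : A4ˣ) (d e1 e2 f : A4) :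
    (((g * h)⁻¹ : A4ˣ) * (d * h + g * e1) * (f * (k⁻¹ : A4ˣ)) : A4).trace +
      ((g⁻¹ : A4ˣ) * d * (e2 * (h⁻¹ : A4ˣ)) : A4).trace =
    ((h⁻¹ : A4ˣ) * e1 * (f * (k⁻¹ : A4ˣ)) : A4).trace +
      ((g⁻¹ : A4ˣ) * d * ((e2 * k + h * f) * ((h * k)⁻¹ : A4ˣ)) : A4).trace := by
  have e : ((h⁻¹ : A4ˣ) * ((g⁻¹ : A4ˣ) * (d * (h * (f * (k⁻¹ : A4ˣ))))) : A4).trace =
      ((g⁻¹ : A4ˣ) * (d * (h * (f * ((k⁻¹ : A4ˣ) * (h⁻¹ : A4ˣ))))) : A4).trace := by
    rw [tr_cyc]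
    simp only [mul_assoc]
  simp only [mul_inv_rev, Units.val_mul, mul_add, add_mul, mul_assoc, Matrix.trace_add,
    Units.inv_mul_cancel_left, Units.mul_inv_cancel_left, e]
  ring

noncomputable instance : Group SJ :=
  Group.ofLeftAxioms
    (fun p q r => by
      ext1
      · exact mul_assoc _ _ _
      · simp only [mul_g, mul_d1, Units.val_mul, mul_add, add_mul, mul_assoc, add_assoc]
      · simp only [mul_g, mul_d2, Units.val_mul, mul_add, add_mul, mul_assoc, add_assoc]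
      · have h1 := coc_aux p.g q.g r.g p.d1 q.d1 q.d2 r.d2
        have h2 := coc_aux p.g q.g r.g p.d2 q.d2 q.d1 r.d1
        simp only [mul_g, mul_d1, mul_d2, mul_b, cocS]
        linarith)
    (fun p => by
      ext1
      · exact one_mul _
      · simp only [mul_d1, one_g, one_d1, Units.val_one, zero_mul, one_mul, zero_add]
      · simp only [mul_d2, one_g, one_d2, Units.val_one, zero_mul, one_mul, zero_add]
      · simp only [mul_b, one_b, one_d1, one_d2, cocS, mul_zero, zero_mul, Matrix.trace_zero,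
          sub_zero, zero_add, add_zero])
    (fun p => by
      ext1
      · exact inv_mul_cancel _
      · simp only [mul_d1, inv_g, inv_d1, one_d1, neg_mul, mul_assoc, Units.inv_mul, mul_one,
          neg_add_cancel]
      · simp only [mul_d2, inv_g, inv_d2, one_d2, neg_mul, mul_assoc, Units.inv_mul, mul_one,
          neg_add_cancel]
      · have h := tr_cyc (p.d1 * (p.g⁻¹ : A4ˣ)) (p.d2 * (p.g⁻¹ : A4ˣ))
        simp only [mul_b, inv_g, inv_d1, inv_d2, inv_b, one_b, cocS, inv_inv, neg_mul, mul_neg,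
          mul_assoc, Units.mul_inv_cancel_left, Matrix.trace_neg] at h ⊢
        linarith)

/-- The jet of a constant. -/
def cst (C : A4ˣ) : SJ := ⟨C, 0, 0, 0⟩

/-- The central elements. -/
def z (β : ℝ) : SJ := ⟨1, 0, 0, β⟩

theorem mul_z (p : SJ) (β : ℝ) : p * z β = ⟨p.g, p.d1, p.d2, p.b + β⟩ := by
  ext1
  · exact mul_one _
  · simp only [mul_d1, z, Units.val_one, mul_one, mul_zero, add_zero]
  · simp only [mul_d2, z, Units.val_one, mul_one, mul_zero, add_zero]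
  · simp only [mul_b, z, cocS, mul_zero, zero_mul, Matrix.trace_zero, sub_zero, add_zero]

theorem z_comm (p : SJ) (β : ℝ) : z β * p = p * z β := by
  rw [mul_z]
  ext1
  · exact one_mul _
  · simp only [mul_d1, z, Units.val_one, one_mul, zero_mul, zero_add]
  · simp only [mul_d2, z, Units.val_one, one_mul, zero_mul, zero_add]
  · simp only [mul_b, z, cocS, mul_zero, zero_mul, Matrix.trace_zero, sub_zero, add_zero,
      add_comm]

/-- The fourth component of a lift. -/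
def bt (x : A4ˣ) (ξ1 ξ2 : A4) : ℝ :=
  ((x⁻¹ : A4ˣ) * (ξ2 * x) * ξ1 : A4).trace - ((x⁻¹ : A4ˣ) * (ξ1 * x) * ξ2 : A4).trace

theorem conj_cst (h : SJ) (C : A4ˣ) : h * cst C * h⁻¹ =
    ⟨h.g * C * h.g⁻¹,
      h.d1 * (h.g⁻¹ : A4ˣ) * (h.g * C * h.g⁻¹ : A4ˣ) - (h.g * C * h.g⁻¹ : A4ˣ) * (h.d1 * (h.g⁻¹ : A4ˣ)),
      h.d2 * (h.g⁻¹ : A4ˣ) * (h.g * C * h.g⁻¹ : A4ˣ) - (h.g * C * h.g⁻¹ : A4ˣ) * (h.d2 * (h.g⁻¹ : A4ˣ)),
      bt (h.g * C * h.g⁻¹) (h.d1 * (h.g⁻¹ : A4ˣ)) (h.d2 * (h.g⁻¹ : A4ˣ))⟩ := by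
  have e : ∀ a b : A4, ((C⁻¹ : A4ˣ) * ((h.g⁻¹ : A4ˣ) * (a * (C * ((h.g⁻¹ : A4ˣ) * b)))) : A4).trace =
      (h.g * ((C⁻¹ : A4ˣ) * ((h.g⁻¹ : A4ˣ) * (a * (C * ((h.g⁻¹ : A4ˣ) *
        (b * (h.g⁻¹ : A4ˣ))))))) : A4).trace := fun a b => by
    rw [← tr_conj' h.g]
    simp only [mul_assoc]
  ext1
  · rfl
  · simp only [mul_g, mul_d1, inv_g, inv_d1, cst]
    simp only [Units.val_mul, mul_zero, add_zero, mul_neg, mul_assoc, Units.inv_mul_cancel_left,
      sub_eq_add_neg]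
  · simp only [mul_g, mul_d2, inv_g, inv_d2, cst]
    simp only [Units.val_mul, mul_zero, add_zero, mul_neg, mul_assoc, Units.inv_mul_cancel_left,
      sub_eq_add_neg]
  · simp only [mul_g, mul_d1, mul_d2, mul_b, inv_g, inv_d1, inv_d2, inv_b, cst]
    simp only [bt, cocS, Units.val_mul, mul_zero, zero_mul, add_zero, mul_neg, neg_mul, mul_assoc,
      inv_inv, mul_inv_rev, Units.inv_mul_cancel_left, Units.inv_mul, mul_one, Matrix.trace_zero,
      Matrix.trace_neg, e]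
    ring

theorem bt_congr (x : A4ˣ) {a b a' b' : A4} (ha : a * x - x * a = a' * x - x * a')
    (hb : b * x - x * b = b' * x - x * b') : bt x a b = bt x a' b' := by
  have key : ∀ {s s' : A4}, s * x - x * s = s' * x - x * s' → ∀ t : A4,
      ((x⁻¹ : A4ˣ) * (t * x) * s : A4).trace - ((x⁻¹ : A4ˣ) * (s * x) * t : A4).trace =
      ((x⁻¹ : A4ˣ) * (t * x) * s' : A4).trace - ((x⁻¹ : A4ˣ) * (s' * x) * t : A4).trace := by
    intro s s' h t
    have h1 : (s - s') * x = x * (s - s') := by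
      rw [sub_mul, mul_sub, sub_eq_sub_iff_sub_eq_sub, h]
    have h2 : ((x⁻¹ : A4ˣ) * (t * x) * (s - s') : A4).trace = (t * (s - s')).trace := by
      rw [mul_assoc, mul_assoc, ← h1, ← mul_assoc t, tr_conj]
    have h3 : ((x⁻¹ : A4ˣ) * ((s - s') * x) * t : A4).trace = (t * (s - s')).trace := by
      rw [h1, Units.inv_mul_cancel_left, tr_cyc]
    simp only [mul_sub, sub_mul, Matrix.trace_sub] at h2 h3
    linarith
  have h1 := key ha b
  have h2 := key hb a'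
  unfold bt
  linarith

/-- Conjugates of constant jets. -/
def Lift (a : SJ) : Prop := ∃ (h : SJ) (C : A4ˣ), a = h * cst C * h⁻¹

theorem Lift.conj {a : SJ} (ha : Lift a) (g : SJ) : Lift (g * a * g⁻¹) := by
  obtain ⟨h, C, rfl⟩ := ha
  exact ⟨g * h, C, by simp only [mul_inv_rev, mul_assoc]⟩

theorem Lift.eq {a a' : SJ} (ha : Lift a) (ha' : Lift a') (h0 : a.g = a'.g) (h1 : a.d1 = a'.d1)
    (h2 : a.d2 = a'.d2) : a = a' := by
  obtain ⟨h, C, rfl⟩ := ha
  obtain ⟨h', C', rfl⟩ := ha'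
  refine SJ.ext h0 h1 h2 ?_
  rw [conj_cst, conj_cst] at h0 h1 h2 ⊢
  simp only at h0 h1 h2 ⊢
  rw [← h0] at h1 h2 ⊢
  exact bt_congr _ h1 h2

/-- The value of a triple of lifts. -/
def Val (a b c : SJ) (β : ℝ) : Prop := Lift a ∧ Lift b ∧ Lift c ∧ Lift (a * b * c * z (-β))

theorem Val.unique {a b c : SJ} {β β' : ℝ} (h : Val a b c β) (h' : Val a b c β') : β = β' := by
  have e := h.2.2.2.eq h'.2.2.2 (by rw [mul_z, mul_z]) (by rw [mul_z, mul_z])
    (by rw [mul_z, mul_z])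
  rw [mul_z, mul_z] at e
  have := congrArg SJ.b e
  simp only at this
  linarith

theorem Val.move {a b c : SJ} {β : ℝ} (h : Val a b c β) : Val (a * b * a⁻¹) c (c⁻¹ * a * c) β := by
  refine ⟨h.2.1.conj a, h.2.2.1, by simpa only [inv_inv] using h.1.conj c⁻¹, ?_⟩
  have e : a * b * a⁻¹ * c * (c⁻¹ * a * c) = a * b * c := by group
  rw [e]
  exact h.2.2.2

theorem Val.conj {a b c : SJ} {β : ℝ} (h : Val a b c β) (g : SJ) :
    Val (g * a * g⁻¹) (g * b * g⁻¹) (g * c * g⁻¹) β := by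
  refine ⟨h.1.conj g, h.2.1.conj g, h.2.2.1.conj g, ?_⟩
  have e : g * a * g⁻¹ * (g * b * g⁻¹) * (g * c * g⁻¹) * z (-β) =
      g * (a * b * c * z (-β)) * g⁻¹ := by
    rw [mul_assoc g (a * b * c * z (-β)), mul_assoc (a * b * c), z_comm]
    group
  rw [e]
  exact h.2.2.2.conj g

variable {X : Type} [NormedAddCommGroup X] [NormedSpace ℝ X] {y v w : X}

/-- The jet a represents the function x at y in the directions v and w. -/
def Rep (y v w : X) (a : SJ) (x : X → A4) : Prop :=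
  ∃ D : X →L[ℝ] A4, HasFDerivAt x D y ∧ (a.g : A4) = x y ∧ a.d1 = D v ∧ a.d2 = D w

theorem Rep.mul {a b : SJ} {x x' : X → A4} (ha : Rep y v w a x) (hb : Rep y v w b x') :
    Rep y v w (a * b) fun t => x t * x' t := by
  obtain ⟨D, h, h0, h1, h2⟩ := ha
  obtain ⟨D', h', h0', h1', h2'⟩ := hb
  refine ⟨_, h.mul' h', ?_, ?_, ?_⟩
  · rw [mul_g, Units.val_mul, h0, h0']
  · rw [mul_d1, h0, h0', h1, h1', add_comm]
    rfl
  · rw [mul_d2, h0, h0', h2, h2', add_comm]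
    rfl

theorem Rep.inv {a : SJ} {x : X → A4} (ha : Rep y v w a x) :
    Rep y v w a⁻¹ fun t => Ring.inverse (x t) := by
  obtain ⟨D, h, h0, h1, h2⟩ := ha
  have h3 := hasFDerivAt_ringInverse (𝕜 := ℝ) a.g
  rw [h0] at h3
  refine ⟨_, h3.comp y h, ?_, ?_, ?_⟩
  · rw [inv_g, ← Ring.inverse_unit, h0]
  · rw [inv_d1, h1]
    rfl
  · rw [inv_d2, h2]
    rfl

theorem Rep.congr {a : SJ} {x x' : X → A4} (ha : Rep y v w a x) (h : ∀ᶠ t in 𝓝 y, x' t = x t) :
    Rep y v w a x' := by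
  obtain ⟨D, hD, h0, h1, h2⟩ := ha
  exact ⟨D, hD.congr_of_eventuallyEq h, h0.trans h.self_of_nhds.symm, h1, h2⟩

theorem Rep.unique {a a' : SJ} {x : X → A4} (ha : Rep y v w a x) (ha' : Rep y v w a' x) :
    a.g = a'.g ∧ a.d1 = a'.d1 ∧ a.d2 = a'.d2 := by
  obtain ⟨D, hD, h0, h1, h2⟩ := ha
  obtain ⟨D', hD', h0', h1', h2'⟩ := ha'
  rw [hD.unique hD'] at h1 h2
  exact ⟨Units.ext (h0.trans h0'.symm), h1.trans h1'.symm, h2.trans h2'.symm⟩

theorem Rep.const (C : A4ˣ) : Rep y v w (cst C) fun _ => (C : A4) :=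
  ⟨0, hasFDerivAt_const _ _, rfl, rfl, rfl⟩

theorem exists_lift {x : X → A4} {D : X →L[ℝ] A4} (hx : HasFDerivAt x D y) (hu : IsUnit (x y))
    (hk : ∀ᶠ t in 𝓝 y, IsUnit (kry (x t)) ∧ cmp (x t) = cmp (x y)) :
    ∃ a : SJ, Lift a ∧ Rep y v w a x ∧ (a.g : A4) = x y ∧ a.d1 = D v ∧ a.d2 = D w ∧
      a.b = betS (x y) (Ring.inverse (x y)) (Ring.inverse (kry (x y))) (D v) (D w) := by
  obtain ⟨k, hk0⟩ := hk.self_of_nhds.1
  obtain ⟨u, hu0⟩ := hu
  have hh : Rep y v w ⟨k, dkry (x y) (D v), dkry (x y) (D w), 0⟩ fun t => kry (x t) :=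
    ⟨_, (analyticAt_kry (x y)).differentiableAt.hasFDerivAt.comp y hx, hk0,
      (fderiv_kry _ _).symm, (fderiv_kry _ _).symm⟩
  have hC : ((k⁻¹ * u * k : A4ˣ) : A4) = cmp (x y) := by
    rw [cmp, ← hk0, ← hu0, Ring.inverse_unit, Units.val_mul, Units.val_mul]
  have hr := ((hh.mul (Rep.const (k⁻¹ * u * k))).mul hh.inv).congr (x' := x) (hk.mono fun t ht => by
    rw [hC, ← ht.2, cmp, ← mul_assoc, ← mul_assoc, Ring.mul_inverse_cancel _ ht.1, one_mul,
      Ring.mul_inverse_cancel_right _ _ ht.1])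
  obtain ⟨e0, e1, e2⟩ := hr.unique (a' := ⟨u, D v, D w, 0⟩) ⟨D, hx, hu0, rfl, rfl⟩
  refine ⟨_, ⟨_, _, rfl⟩, hr, (congrArg Units.val e0).trans hu0, e1, e2, ?_⟩
  rw [conj_cst] at e0 ⊢
  simp only at e0 ⊢
  rw [e0, ← hk0, ← hu0, Ring.inverse_unit, Ring.inverse_unit]
  rfl

theorem exists_val {s : X → V3} (hs : DifferentiableAt ℝ s y) (h : Good (s y))
    (hk : ∀ᶠ x in 𝓝 y, kap (s x) = kap (s y)) (v w : X) :
    ∃ a b c : SJ, Rep y v w a (fun t => s t 0) ∧ Rep y v w b (fun t => s t 1) ∧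
      Rep y v w c (fun t => s t 2) ∧
      Val a b c (Om (s y) (fderiv ℝ s y v) (fderiv ℝ s y w)) := by
  have hG : ∀ᶠ t in 𝓝 y, Good (s t) := hs.continuousAt.eventually h.eventually
  have hc := (hG.and hk).mono fun t ht => cmp_eq_of_kap ht.1 h ht.2
  have hi : ∀ i, ∃ a : SJ, Lift a ∧ Rep y v w a (fun t => s t i) ∧ (a.g : A4) = s y i ∧
      a.d1 = fderiv ℝ s y v i ∧ a.d2 = fderiv ℝ s y w i ∧
      a.b = betS (s y i) (Ring.inverse (s y i)) (Ring.inverse (kry (s y i)))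
        (fderiv ℝ s y v i) (fderiv ℝ s y w i) := fun i =>
    exists_lift (hasFDerivAt_pi'.1 hs.hasFDerivAt i) (h.1 i)
      ((hG.and hc).mono fun t ht => ⟨ht.1.2.1 i, ht.2.1 i⟩)
  obtain ⟨a, la, ra, a0, a1, a2, a3⟩ := hi 0
  obtain ⟨b, lb, rb, b0, b1, b2, b3⟩ := hi 1
  obtain ⟨c, lc, rc, c0, c1, c2, c3⟩ := hi 2
  have rp : Rep y v w (a * b * c) fun t => prd (s t) := (ra.mul rb).mul rc
  obtain ⟨D, hD, p0, p1, p2⟩ := id rp
  obtain ⟨d, ld, rd, -, -, -, d3⟩ := exists_lift (v := v) (w := w) hD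
    (((h.1 0).mul (h.1 1)).mul (h.1 2)) ((hG.and hc).mono fun t ht => ⟨ht.1.2.2, ht.2.2⟩)
  refine ⟨a, b, c, ra, rb, rc, la, lb, lc, ?_⟩
  obtain ⟨e0, e1, e2⟩ := rp.unique rd
  have q1 : D v = dprd (s y) (fderiv ℝ s y v) := by
    rw [← p1, mul_d1, mul_d1, mul_g, Units.val_mul, a0, b0, c0, a1, b1, c1, dprd]
  have q2 : D w = dprd (s y) (fderiv ℝ s y w) := by
    rw [← p2, mul_d2, mul_d2, mul_g, Units.val_mul, a0, b0, c0, a2, b2, c2, dprd]
  have e : a * b * c * z (-Om (s y) (fderiv ℝ s y v) (fderiv ℝ s y w)) = d := by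
    rw [mul_z]
    refine SJ.ext e0 e1 e2 ?_
    simp only
    rw [d3, q1, q2, Om_apply, mul_b, mul_b, mul_d1, mul_d2, ← Ring.inverse_unit,
      ← Ring.inverse_unit, ← Ring.inverse_unit, ← Ring.inverse_unit, mul_g, Units.val_mul,
      a0, b0, c0, a1, b1, c1, a2, b2, c2, a3, b3, c3]
    ring
  rw [e]
  exact ld

theorem rep_move {s : X → V3} {a b c : SJ} (ha : Rep y v w a fun t => s t 0)
    (hb : Rep y v w b fun t => s t 1) (hc : Rep y v w c fun t => s t 2) :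
    Rep y v w (a * b * a⁻¹) (fun t => phi1 (s t) 0) ∧ Rep y v w c (fun t => phi1 (s t) 1) ∧
      Rep y v w (c⁻¹ * a * c) fun t => phi1 (s t) 2 :=
  ⟨(ha.mul hb).mul ha.inv, hc, (hc.inv.mul ha).mul hc⟩

end SJ

/-- Define the group SJ of jets (g : A4ˣ, d1 d2 : A4, b : ℝ) with product
(g h, d1 h + g e1, d2 h + g e2, b + b' + cocS g⁻¹ d1 d2 h⁻¹ e1 e2), unit (1, 0, 0, 0) and inverse
(g⁻¹, - g⁻¹ d1 g⁻¹, - g⁻¹ d2 g⁻¹, - b) (associativity is the cocycle identity; use Matrix.trace_mul_comm).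
A lift is an element h * (C, 0, 0, 0) * h⁻¹; lifts are closed under conjugation. Such an element is
(x, ξ1 x - x ξ1, ξ2 x - x ξ2, tr (x⁻¹ ξ2 x ξ1) - tr (x⁻¹ ξ1 x ξ2)) with x = h C h⁻¹, ξ i = d i h⁻¹, and
a lift is determined by its first three components (if ζ commutes with x the last component does not
change when ζ is added to ξ1 or ξ2). The elements (1, 0, 0, β) are central. Say that three lifts
a, b, c have value β if a * b * c = d * (1, 0, 0, β) for a lift d; β is unique. The moves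
(a, b, c) ↦ (a b a⁻¹, c, c⁻¹ a c) and simultaneous conjugation by any jet keep the value. For a
family s with constant kap, cmp (s x i) and cmp (prd (s x)) are eventually constant
(cmp_eq_of_kap, Good.eventually), so s x i = kry * C * kry⁻¹ near y and the jets of s x i with
fourth component betS are lifts with value Om (s y) (Ds v) (Ds w) (Om_apply; cocS of d with d⁻¹ is
not needed in this formulation). The first three components of a product of jets are the jets of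
the product of the functions (product rule; derivative of Ring.inverse), which identifies the jets
of s' with the conjugates by (g, Dg v, Dg w, 0) of the three moves applied to the jets of s. -/
theorem om_inv {X : Type} [NormedAddCommGroup X] [NormedSpace ℝ X] {s s' : X → V3}
    {g gi : X → A4} {y : X} (hs : DifferentiableAt ℝ s y) (hs' : DifferentiableAt ℝ s' y)
    (hg : DifferentiableAt ℝ g y) (hgi : DifferentiableAt ℝ gi y) (h : Good (s y))
    (h' : Good (s' y)) (hk : ∀ᶠ x in 𝓝 y, kap (s x) = kap (s y))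
    (hk' : ∀ᶠ x in 𝓝 y, kap (s' x) = kap (s' y))
    (hr : ∀ᶠ x in 𝓝 y, g x * gi x = 1 ∧ gi x * g x = 1 ∧ ∀ i, s' x i = g x * Phi (s x) i * gi x)
    (v w : X) : Om (s' y) (fderiv ℝ s' y v) (fderiv ℝ s' y w) =
      Om (s y) (fderiv ℝ s y v) (fderiv ℝ s y w) := by
  obtain ⟨a, b, c, ra, rb, rc, hv⟩ := SJ.exists_val hs h hk v w
  obtain ⟨a', b', c', ra', rb', rc', hv'⟩ := SJ.exists_val hs' h' hk' v w
  obtain ⟨ra1, rb1, rc1⟩ := SJ.rep_move ra rb rc
  obtain ⟨ra2, rb2, rc2⟩ := SJ.rep_move (s := fun t => phi1 (s t)) ra1 rb1 rc1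
  obtain ⟨ra3, rb3, rc3⟩ := SJ.rep_move (s := fun t => phi1 (phi1 (s t))) ra2 rb2 rc2
  have h0 := hr.self_of_nhds
  have rg : SJ.Rep y v w ⟨⟨g y, gi y, h0.1, h0.2.1⟩, fderiv ℝ g y v, fderiv ℝ g y w, 0⟩ g :=
    ⟨_, hg.hasFDerivAt, rfl, rfl, rfl⟩
  have hv3 := hv.move.move.move.conj
    ⟨⟨g y, gi y, h0.1, h0.2.1⟩, fderiv ℝ g y v, fderiv ℝ g y w, 0⟩
  have he : ∀ i, ∀ᶠ t in 𝓝 y, s' t i = g t * phi1 (phi1 (phi1 (s t))) i * Ring.inverse (g t) :=
    fun i => hr.mono fun t ht => by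
      have e : Ring.inverse (g t) = gi t := Ring.inverse_unit ⟨g t, gi t, ht.1, ht.2.1⟩
      rw [e]
      exact ht.2.2 i
  obtain ⟨x0, x1, x2⟩ := ra'.unique (((rg.mul ra3).mul rg.inv).congr (he 0))
  obtain ⟨y0, y1, y2⟩ := rb'.unique (((rg.mul rb3).mul rg.inv).congr (he 1))
  obtain ⟨z0, z1, z2⟩ := rc'.unique (((rg.mul rc3).mul rg.inv).congr (he 2))
  rw [← hv'.1.eq hv3.1 x0 x1 x2, ← hv'.2.1.eq hv3.2.1 y0 y1 y2,
    ← hv'.2.2.1.eq hv3.2.2.1 z0 z1 z2] at hv3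
  exact hv'.unique hv3

end Pool.Agent.MP_28624d_gt.K

end

section

/-!
The two form is closed along the leaves (Polyakov-Wiegmann identity).
-/

set_option maxSynthPendingDepth 3

namespace Pool.Agent.MP_28624d_gt.K

open Filter Topology

variable {X : Type} [NormedAddCommGroup X] [NormedSpace ℝ X]

theorem d3_flip {E F G : Type} [NormedAddCommGroup E] [NormedSpace ℝ E] [NormedAddCommGroup F]
    [NormedSpace ℝ F] [NormedAddCommGroup G] [NormedSpace ℝ G] {f : X → E →L[ℝ] F →L[ℝ] G}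
    {y : X} (hf : DifferentiableAt ℝ f y) : DifferentiableAt ℝ (fun z => (f z).flip) y :=
  ((ContinuousLinearMap.flipₗᵢ ℝ E F G).toContinuousLinearEquiv.differentiableAt).comp y hf

theorem d3_wedge {p q : X → X →L[ℝ] A4} {y : X} (hp : DifferentiableAt ℝ p y)
    (hq : DifferentiableAt ℝ q y) : DifferentiableAt ℝ (fun z => wedge (p z) (q z)) y := by
  have h : DifferentiableAt ℝ (fun z => (((ContinuousLinearMap.compL ℝ A4 A4 ℝ) trL).comp
      (ContinuousLinearMap.mul ℝ A4)).bilinearComp (p z) (q z)) y :=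
    d3_flip ((d3_flip ((differentiableAt_const _).clm_comp hp)).clm_comp hq)
  exact h.sub (d3_flip h)

theorem d3_lm {a : X → A4} {p : X → X →L[ℝ] A4} {y : X} (ha : DifferentiableAt ℝ a y)
    (hp : DifferentiableAt ℝ p y) : DifferentiableAt ℝ (fun z => lm (a z) (p z)) y :=
  ((ContinuousLinearMap.mul ℝ A4).differentiableAt.comp y ha).clm_comp hp

theorem d3_rm {a : X → A4} {p : X → X →L[ℝ] A4} {y : X} (hp : DifferentiableAt ℝ p y)
    (ha : DifferentiableAt ℝ a y) : DifferentiableAt ℝ (fun z => rm (p z) (a z)) y :=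
  ((ContinuousLinearMap.mul ℝ A4).flip.differentiableAt.comp y ha).clm_comp hp

theorem d3_eval {β : X → X →L[ℝ] X →L[ℝ] ℝ} {y : X} (hβ : DifferentiableAt ℝ β y) (u v w : X) :
    fderiv ℝ β y u v w = fderiv ℝ (fun z => β z v w) y u := by
  have h1 : DifferentiableAt ℝ (fun z => β z v) y := hβ.clm_apply (differentiableAt_const _)
  rw [fderiv_clm_apply h1 (differentiableAt_const _),
    fderiv_clm_apply hβ (differentiableAt_const _)]
  simp

theorem d3_mul {a b : X → A4} {y : X} (ha : DifferentiableAt ℝ a y) (hb : DifferentiableAt ℝ b y)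
    (u : X) : fderiv ℝ (fun z => a z * b z) y u = fderiv ℝ a y u * b y + a y * fderiv ℝ b y u := by
  rw [(ha.hasFDerivAt.fun_mul' hb.hasFDerivAt).fderiv]
  simp [add_comm]

theorem d3_invH {a : X → A4} {y : X} (ha : DifferentiableAt ℝ a y) (ua : IsUnit (a y)) :
    HasFDerivAt (fun z => Ring.inverse (a z))
      ((-ContinuousLinearMap.mulLeftRight ℝ A4 (Ring.inverse (a y)) (Ring.inverse (a y))).comp
        (fderiv ℝ a y)) y := by
  have := FiniteDimensional.complete ℝ A4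
  obtain ⟨x, hx⟩ := ua
  have h := hasFDerivAt_ringInverse (𝕜 := ℝ) x
  rw [hx] at h
  have h2 := h.comp y ha.hasFDerivAt
  rw [← hx, Ring.inverse_unit]
  exact h2

theorem d3_invD {a : X → A4} {y : X} (ha : DifferentiableAt ℝ a y) (ua : IsUnit (a y)) :
    DifferentiableAt ℝ (fun z => Ring.inverse (a z)) y := (d3_invH ha ua).differentiableAt

theorem d3_inv {a : X → A4} {y : X} (ha : DifferentiableAt ℝ a y) (ua : IsUnit (a y)) (u : X) :
    fderiv ℝ (fun z => Ring.inverse (a z)) y u =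
      -(Ring.inverse (a y) * fderiv ℝ a y u * Ring.inverse (a y)) := by
  rw [(d3_invH ha ua).fderiv]
  simp

theorem d3_trD {a : X → A4} {y : X} (ha : DifferentiableAt ℝ a y) :
    DifferentiableAt ℝ (fun z => (a z).trace) y := trL.differentiableAt.comp y ha

theorem d3_tr {a : X → A4} {y : X} (ha : DifferentiableAt ℝ a y) (u : X) :
    fderiv ℝ (fun z => (a z).trace) y u = (fderiv ℝ a y u).trace := by
  have h : HasFDerivAt (fun z => (a z).trace) (trL.comp (fderiv ℝ a y)) y :=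
    trL.hasFDerivAt.comp y ha.hasFDerivAt
  rw [h.fderiv]
  rfl

theorem d3_fd {g : X → A4} {y : X} (hg : ContDiffAt ℝ 2 g y) :
    DifferentiableAt ℝ (fderiv ℝ g) y :=
  (hg.fderiv_right (m := 1) (by norm_num)).differentiableAt (by norm_num)

theorem d3_sndD {g : X → A4} {y : X} (hg : ContDiffAt ℝ 2 g y) (v : X) :
    DifferentiableAt ℝ (fun z => fderiv ℝ g z v) y :=
  (d3_fd hg).clm_apply (differentiableAt_const _)

theorem d3_snd {g : X → A4} {y : X} (hg : ContDiffAt ℝ 2 g y) (u v : X) :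
    fderiv ℝ (fun z => fderiv ℝ g z v) y u = fderiv ℝ (fderiv ℝ g) y u v := by
  rw [fderiv_clm_apply (d3_fd hg) (differentiableAt_const _)]
  simp

theorem d3_symm {g : X → A4} {y : X} (hg : ContDiffAt ℝ 2 g y) (u v : X) :
    fderiv ℝ (fderiv ℝ g) y u v = fderiv ℝ (fderiv ℝ g) y v u :=
  hg.isSymmSndFDerivAt (by simp) u v

/-- The exterior derivative of a two form on three vectors. -/
noncomputable def dd (β : X → X →L[ℝ] X →L[ℝ] ℝ) (y u v w : X) : ℝ :=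
  fderiv ℝ β y u v w - fderiv ℝ β y v u w + fderiv ℝ β y w u v

/-- The Cartan three form pulled back by g. -/
noncomputable def chi (g : X → A4) (y u v w : X) : ℝ :=
  (Ring.inverse (g y) * fderiv ℝ g y u * (Ring.inverse (g y) * fderiv ℝ g y v) *
      (Ring.inverse (g y) * fderiv ℝ g y w)).trace -
    (Ring.inverse (g y) * fderiv ℝ g y u * (Ring.inverse (g y) * fderiv ℝ g y w) *
      (Ring.inverse (g y) * fderiv ℝ g y v)).trace

theorem d3_conj {a b : A4} (h : b * a = 1) (p q r : A4) :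
    (a * p * b * (a * q * b) * (a * r * b)).trace = (p * q * r).trace := by
  have e : a * p * b * (a * q * b) * (a * r * b) = a * (p * (b * a) * q * (b * a) * r) * b := by
    simp only [mul_assoc]
  rw [e, h, Matrix.trace_mul_cycle, h]
  simp

theorem d3_term {g h : X → A4} {y : X} (hg : ContDiffAt ℝ 2 g y) (hh : ContDiffAt ℝ 2 h y)
    (ug : IsUnit (g y)) (uh : IsUnit (h y)) (v w : X) :
    DifferentiableAt ℝ (fun z => (Ring.inverse (g z) * fderiv ℝ g z v *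
      (fderiv ℝ h z w * Ring.inverse (h z))).trace) y ∧ ∀ u,
    fderiv ℝ (fun z => (Ring.inverse (g z) * fderiv ℝ g z v *
      (fderiv ℝ h z w * Ring.inverse (h z))).trace) y u =
      -(Ring.inverse (g y) * fderiv ℝ g y u * (Ring.inverse (g y) * fderiv ℝ g y v) *
          (fderiv ℝ h y w * Ring.inverse (h y))).trace +
        (Ring.inverse (g y) * fderiv ℝ (fderiv ℝ g) y u v *
          (fderiv ℝ h y w * Ring.inverse (h y))).trace +
        (Ring.inverse (g y) * fderiv ℝ g y v *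
          (fderiv ℝ (fderiv ℝ h) y u w * Ring.inverse (h y))).trace -
        (Ring.inverse (g y) * fderiv ℝ g y v * (fderiv ℝ h y w * Ring.inverse (h y)) *
          (fderiv ℝ h y u * Ring.inverse (h y))).trace := by
  have dg : DifferentiableAt ℝ g y := hg.differentiableAt (by norm_num)
  have dh : DifferentiableAt ℝ h y := hh.differentiableAt (by norm_num)
  have d1 : DifferentiableAt ℝ (fun z => Ring.inverse (g z) * fderiv ℝ g z v) y :=
    (d3_invD dg ug).mul (d3_sndD hg v)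
  have d2 : DifferentiableAt ℝ (fun z => fderiv ℝ h z w * Ring.inverse (h z)) y :=
    (d3_sndD hh w).mul (d3_invD dh uh)
  have d3 : DifferentiableAt ℝ (fun z => Ring.inverse (g z) * fderiv ℝ g z v *
      (fderiv ℝ h z w * Ring.inverse (h z))) y := d1.mul d2
  refine ⟨d3_trD d3, fun u => ?_⟩
  rw [d3_tr d3, d3_mul d1 d2, d3_mul (d3_invD dg ug) (d3_sndD hg v),
    d3_mul (d3_sndD hh w) (d3_invD dh uh), d3_inv dg ug, d3_inv dh uh, d3_snd hg, d3_snd hh]
  simp only [mul_add, add_mul, mul_neg, neg_mul, Matrix.trace_add, Matrix.trace_neg, mul_assoc]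
  ring

theorem d3_alg (a b c p q r : A4) :
    -(a * b * r).trace - (b * r * p).trace + (a * c * q).trace + (c * q * p).trace +
      (b * a * r).trace + (a * r * q).trace - (b * c * p).trace - (c * p * q).trace -
      (c * a * q).trace - (a * q * r).trace + (c * b * p).trace + (b * p * r).trace =
    ((a * b * c).trace - (a * c * b).trace) + ((p * q * r).trace - (p * r * q).trace) -
      (((a + p) * (b + q) * (c + r)).trace - ((a + p) * (c + r) * (b + q)).trace) := by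
  simp only [mul_add, add_mul, Matrix.trace_add]
  have h1 := Matrix.trace_mul_cycle a q c
  have h2 := Matrix.trace_mul_cycle b c p
  have h3 := Matrix.trace_mul_cycle b r p
  have h4 := Matrix.trace_mul_cycle p q c
  have h5 := Matrix.trace_mul_cycle a r b
  have h6 := Matrix.trace_mul_cycle c b p
  have h7 := Matrix.trace_mul_cycle c q p
  have h8 := Matrix.trace_mul_cycle p r b
  linarith

theorem d3_chi_mul {g h : X → A4} {y : X} (dg : DifferentiableAt ℝ g y)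
    (dh : DifferentiableAt ℝ h y) (ug : IsUnit (g y)) (uh : IsUnit (h y)) (u : X) :
    Ring.inverse (g y * h y) * fderiv ℝ (fun z => g z * h z) y u =
      Ring.inverse (h y) * (Ring.inverse (g y) * fderiv ℝ g y u +
        fderiv ℝ h y u * Ring.inverse (h y)) * h y := by
  have e1 : Ring.inverse (g y * h y) = Ring.inverse (h y) * Ring.inverse (g y) := by
    obtain ⟨a, ha⟩ := ug
    obtain ⟨b, hb⟩ := uh
    rw [← ha, ← hb, ← Units.val_mul, Ring.inverse_unit, Ring.inverse_unit, Ring.inverse_unit,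
      mul_inv_rev, Units.val_mul]
  rw [d3_mul dg dh, e1]
  simp only [mul_add, add_mul, mul_assoc, Ring.inverse_mul_cancel _ uh, mul_one,
    Ring.inverse_mul_cancel_left _ _ ug]

/-- With θ i = g⁻¹ D_i g and φ i = D_i h h⁻¹: D_i θ j = - θ i θ j + g⁻¹ D_ij g,
D_i φ j = D_ij h h⁻¹ - φ j φ i, the second derivatives are symmetric
(ContDiffAt.isSymmSndFDerivAt), (g h)⁻¹ D_i (g h) = h⁻¹ (θ i + φ i) h and h⁻¹ D_i h = h⁻¹ φ i h.
What remains is an identity between traces of cubic words, up to cyclic permutation. -/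
theorem dd_coc {g h : X → A4} {y : X} (hg : ContDiffAt ℝ 2 g y) (hh : ContDiffAt ℝ 2 h y)
    (ug : IsUnit (g y)) (uh : IsUnit (h y)) (u v w : X) :
    DifferentiableAt ℝ (coc g h) y ∧
      dd (coc g h) y u v w = chi g y u v w + chi h y u v w - chi (fun z => g z * h z) y u v w := by
  have dg : DifferentiableAt ℝ g y := hg.differentiableAt (by norm_num)
  have dh : DifferentiableAt ℝ h y := hh.differentiableAt (by norm_num)
  have hd : DifferentiableAt ℝ (coc g h) y :=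
    d3_wedge (d3_lm (d3_invD dg ug) (d3_fd hg)) (d3_rm (d3_fd hh) (d3_invD dh uh))
  refine ⟨hd, ?_⟩
  have key : ∀ a b c : X, fderiv ℝ (coc g h) y a b c =
      fderiv ℝ (fun z => (Ring.inverse (g z) * fderiv ℝ g z b *
        (fderiv ℝ h z c * Ring.inverse (h z))).trace) y a -
      fderiv ℝ (fun z => (Ring.inverse (g z) * fderiv ℝ g z c *
        (fderiv ℝ h z b * Ring.inverse (h z))).trace) y a := by
    intro a b c
    rw [d3_eval hd, ← sub_apply,
      ← fderiv_fun_sub (d3_term hg hh ug uh b c).1 (d3_term hg hh ug uh c b).1]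
    rfl
  have hb : h y * Ring.inverse (h y) = 1 := Ring.mul_inverse_cancel _ uh
  have e2 : ∀ a : X, Ring.inverse (h y) * fderiv ℝ h y a =
      Ring.inverse (h y) * (fderiv ℝ h y a * Ring.inverse (h y)) * h y := by
    intro a
    simp only [mul_assoc, Ring.inverse_mul_cancel _ uh, mul_one]
  have e3 : chi h y u v w = (fderiv ℝ h y u * Ring.inverse (h y) *
      (fderiv ℝ h y v * Ring.inverse (h y)) * (fderiv ℝ h y w * Ring.inverse (h y))).trace -
      (fderiv ℝ h y u * Ring.inverse (h y) *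
      (fderiv ℝ h y w * Ring.inverse (h y)) * (fderiv ℝ h y v * Ring.inverse (h y))).trace := by
    rw [chi, e2 u, e2 v, e2 w, d3_conj hb, d3_conj hb]
  rw [e3, dd, key, key, key, chi, chi, d3_chi_mul dg dh ug uh, d3_chi_mul dg dh ug uh,
    d3_chi_mul dg dh ug uh, d3_conj hb, d3_conj hb, ← d3_alg]
  simp only [(d3_term hg hh ug uh _ _).2]
  rw [d3_symm hg v u, d3_symm hg w u, d3_symm hg w v, d3_symm hh v u, d3_symm hh w u,
    d3_symm hh w v]
  ring

theorem d3_inv_mul {a b : A4} (ua : IsUnit a) (ub : IsUnit b) :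
    Ring.inverse (a * b) = Ring.inverse b * Ring.inverse a := by
  obtain ⟨a, rfl⟩ := ua
  obtain ⟨b, rfl⟩ := ub
  rw [← Units.val_mul, Ring.inverse_unit, Ring.inverse_unit, Ring.inverse_unit,
    mul_inv_rev, Units.val_mul]

theorem d3_inv_unit {a : A4} (ua : IsUnit a) : IsUnit (Ring.inverse a) := by
  obtain ⟨a, rfl⟩ := ua
  rw [Ring.inverse_unit]
  exact Units.isUnit _

theorem d3_inv_inv {a : A4} (ua : IsUnit a) : Ring.inverse (Ring.inverse a) = a := by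
  obtain ⟨a, rfl⟩ := ua
  rw [Ring.inverse_unit, Ring.inverse_unit, inv_inv]

omit [NormedSpace ℝ X] in
theorem d3_unit_ev {a : X → A4} {y : X} (ha : ContinuousAt a y) (ua : IsUnit (a y)) :
    ∀ᶠ z in 𝓝 y, IsUnit (a z) := by
  have := FiniteDimensional.complete ℝ A4
  exact ha.eventually (Units.isOpen.mem_nhds ua)

theorem d3_chi_congr {a b : X → A4} {y : X} (h : a =ᶠ[𝓝 y] b) (u v w : X) :
    chi a y u v w = chi b y u v w := by
  rw [chi, chi, h.fderiv_eq, h.eq_of_nhds]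

theorem d3_chi_const {h : X → A4} {y : X} (dh : DifferentiableAt ℝ h y) (uh : IsUnit (h y))
    {C : A4} (uC : IsUnit C) (u v w : X) : chi (fun z => h z * C) y u v w = chi h y u v w := by
  have e : ∀ a : X, Ring.inverse (h y * C) * fderiv ℝ (fun z => h z * C) y a =
      Ring.inverse C * (Ring.inverse (h y) * fderiv ℝ h y a) * C := by
    intro a
    rw [d3_mul dh (differentiableAt_const _), d3_inv_mul uh uC]
    simp [mul_assoc]
  have hb : C * Ring.inverse C = 1 := Ring.mul_inverse_cancel _ uC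
  rw [chi, e, e, e, d3_conj hb, d3_conj hb, chi]

theorem d3_chi_inv {h : X → A4} {y : X} (dh : DifferentiableAt ℝ h y) (uh : IsUnit (h y))
    (u v w : X) : chi (fun z => Ring.inverse (h z)) y u v w = -chi h y u v w := by
  have e : ∀ a : X, Ring.inverse (Ring.inverse (h y)) *
      fderiv ℝ (fun z => Ring.inverse (h z)) y a =
      h y * (-(Ring.inverse (h y) * fderiv ℝ h y a)) * Ring.inverse (h y) := by
    intro a
    rw [d3_inv dh uh, d3_inv_inv uh]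
    simp only [mul_assoc, neg_mul]
  have hb : Ring.inverse (h y) * h y = 1 := Ring.inverse_mul_cancel _ uh
  rw [chi, e, e, e, d3_conj hb, d3_conj hb, chi]
  simp only [mul_neg, neg_mul, neg_neg, Matrix.trace_neg]
  ring

theorem d3_bet_alg {k C : A4} (uk : IsUnit k) (uC : IsUnit C) (p q : A4) :
    (Ring.inverse (k * C * Ring.inverse k) * (p * Ring.inverse k * (k * C * Ring.inverse k)) *
      (q * Ring.inverse k)).trace =
    -(Ring.inverse (k * C) * (p * C) * (-(Ring.inverse k * q * Ring.inverse k) *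
      Ring.inverse (Ring.inverse k))).trace := by
  rw [d3_inv_mul (uk.mul uC) (d3_inv_unit uk), d3_inv_inv uk]
  simp only [mul_neg, neg_mul, Matrix.trace_neg, neg_neg, mul_assoc,
    Ring.inverse_mul_cancel _ uk, mul_one, Ring.inverse_mul_cancel_left _ _ uk]
  rw [Matrix.trace_mul_comm]
  simp only [mul_assoc, Ring.inverse_mul_cancel _ uk, mul_one]

/-- If cmp (x z) = C near y, then with h = kry ∘ x we have x = (h C) h⁻¹ and
bet x = coc (h C) h⁻¹ near y; chi (h C) = chi h and chi h⁻¹ = - chi h. -/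
theorem dd_bet {x : X → A4} {y : X} (hx : ContDiffAt ℝ 2 x y) (ux : IsUnit (x y))
    (uk : IsUnit (kry (x y))) (hc : ∀ᶠ z in 𝓝 y, cmp (x z) = cmp (x y)) (u v w : X) :
    DifferentiableAt ℝ (bet x) y ∧ dd (bet x) y u v w = -chi x y u v w := by
  have := FiniteDimensional.complete ℝ A4
  have hh : ContDiffAt ℝ 2 (fun z => kry (x z)) y := (analyticAt_kry (x y)).contDiffAt.comp y hx
  have dh : DifferentiableAt ℝ (fun z => kry (x z)) y := hh.differentiableAt (by norm_num)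
  have uC : IsUnit (cmp (x y)) := ((d3_inv_unit uk).mul ux).mul uk
  have hi : ContDiffAt ℝ 2 (fun z => Ring.inverse (kry (x z))) y := by
    obtain ⟨k, hk⟩ := uk
    have h1 : ContDiffAt ℝ 2 Ring.inverse (kry (x y)) := hk ▸ contDiffAt_ringInverse ℝ k
    exact h1.comp y hh
  have ev1 := d3_unit_ev hh.continuousAt uk
  have ev2 := hh.eventually (by simp)
  have ex : x =ᶠ[𝓝 y] fun z => kry (x z) * cmp (x y) * Ring.inverse (kry (x z)) := by
    filter_upwards [ev1, hc] with z h1 h2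
    rw [← h2, cmp]
    simp only [mul_assoc, Ring.mul_inverse_cancel _ h1, mul_one,
      Ring.mul_inverse_cancel_left _ _ h1]
  have eb : bet x =ᶠ[𝓝 y]
      coc (fun z => kry (x z) * cmp (x y)) (fun z => Ring.inverse (kry (x z))) := by
    filter_upwards [ev1, ev2, ex] with z h1 h2 h3
    have dz : DifferentiableAt ℝ (fun z => kry (x z)) z := h2.differentiableAt (by norm_num)
    ext a b
    have e1 : ∀ c : X, fderiv ℝ (fun z => kry (x z) * cmp (x y)) z c =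
        fderiv ℝ (fun z => kry (x z)) z c * cmp (x y) := by
      intro c
      rw [d3_mul dz (differentiableAt_const _)]
      simp
    have e2 := d3_bet_alg h1 uC (fderiv ℝ (fun z => kry (x z)) z a)
      (fderiv ℝ (fun z => kry (x z)) z b)
    have e3 := d3_bet_alg h1 uC (fderiv ℝ (fun z => kry (x z)) z b)
      (fderiv ℝ (fun z => kry (x z)) z a)
    rw [← h3] at e2 e3
    simp only [bet, coc, xi, neg_apply, wedge_apply, lm_apply, rm_apply, e1, d3_inv dz h1]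
    rw [e2, e3]
    ring
  obtain ⟨c1, c2⟩ := dd_coc (g := fun z => kry (x z) * cmp (x y))
    (h := fun z => Ring.inverse (kry (x z))) (hh.mul contDiffAt_const) hi (uk.mul uC)
    (d3_inv_unit uk) u v w
  refine ⟨eb.differentiableAt_iff.2 c1, ?_⟩
  rw [d3_chi_const dh uk uC, d3_chi_inv dh uk, ← d3_chi_congr ex] at c2
  rw [dd, eb.fderiv_eq, ← dd, c2]
  ring

theorem d3_dd_add {β γ : X → X →L[ℝ] X →L[ℝ] ℝ} {y : X} (hβ : DifferentiableAt ℝ β y)
    (hγ : DifferentiableAt ℝ γ y) (u v w : X) :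
    dd (fun z => β z + γ z) y u v w = dd β y u v w + dd γ y u v w := by
  simp only [dd, fderiv_fun_add hβ hγ, add_apply]
  ring

theorem d3_dd_sub {β γ : X → X →L[ℝ] X →L[ℝ] ℝ} {y : X} (hβ : DifferentiableAt ℝ β y)
    (hγ : DifferentiableAt ℝ γ y) (u v w : X) :
    dd (fun z => β z - γ z) y u v w = dd β y u v w - dd γ y u v w := by
  simp only [dd, fderiv_fun_sub hβ hγ, sub_apply]
  ring

theorem om_closed {s : X → V3} {y : X} (hs : ContDiffAt ℝ 2 s y) (h : Good (s y))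
    (hk : ∀ᶠ x in 𝓝 y, kap (s x) = kap (s y)) (u v w : X) :
    dd (fun x => (Om (s x)).bilinearComp (fderiv ℝ s x) (fderiv ℝ s x)) y u v w = 0 := by
  have e : (fun x => (Om (s x)).bilinearComp (fderiv ℝ s x) (fderiv ℝ s x)) =ᶠ[𝓝 y] OmX s := by
    filter_upwards [hs.eventually (by simp)] with z hz
    exact (OmX_eq (hz.differentiableAt (by norm_num))).symm
  have hi : ∀ i, ContDiffAt ℝ 2 (fun z => s z i) y := fun i => contDiffAt_pi.1 hs i
  have h01 : ContDiffAt ℝ 2 (fun z => s z 0 * s z 1) y := (hi 0).mul (hi 1)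
  have hp : ContDiffAt ℝ 2 (fun z => prd (s z)) y := h01.mul (hi 2)
  have hc : ∀ᶠ z in 𝓝 y, (∀ i, cmp (s z i) = cmp (s y i)) ∧ cmp (prd (s z)) = cmp (prd (s y)) := by
    filter_upwards [hk, hs.continuousAt.eventually h.eventually] with z h1 h2
    exact cmp_eq_of_kap h2 h h1
  have u01 : IsUnit (s y 0 * s y 1) := (h.1 0).mul (h.1 1)
  have b := fun i => dd_bet (hi i) (h.1 i) (h.2.1 i) (hc.mono fun z hz => hz.1 i) u v w
  have bp := dd_bet hp (u01.mul (h.1 2)) h.2.2 (hc.mono fun z hz => hz.2) u v w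
  have c1 := dd_coc (hi 0) (hi 1) (h.1 0) (h.1 1) u v w
  have c2 := dd_coc h01 (hi 2) u01 (h.1 2) u v w
  have d1 := (b 0).1.fun_add (b 1).1
  have d2 := d1.fun_add (b 2).1
  have d3 := d2.fun_sub bp.1
  have d4 := d3.fun_add c1.1
  have e2 : dd (OmX s) y u v w = 0 := by
    have e3 : OmX s = fun z => bet (fun z => s z 0) z + bet (fun z => s z 1) z +
        bet (fun z => s z 2) z - bet (fun z => prd (s z)) z +
        coc (fun z => s z 0) (fun z => s z 1) z +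
        coc (fun z => s z 0 * s z 1) (fun z => s z 2) z := rfl
    have e4 : chi (fun z => prd (s z)) y u v w = chi (fun z => s z 0 * s z 1 * s z 2) y u v w := rfl
    rw [e3, d3_dd_add d4 c2.1, d3_dd_add d3 c1.1, d3_dd_sub d2 bp.1, d3_dd_add d1 (b 2).1,
      d3_dd_add (b 0).1 (b 1).1, (b 0).2, (b 1).2, (b 2).2, bp.2, c1.2, c2.2, e4]
    ring
  rw [dd, e.fderiv_eq, ← dd, e2]

end Pool.Agent.MP_28624d_gt.K

end

section

/-!
Charts: a slice for the conjugation action fibred by the Casimirs, and the return of the KAM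
conclusion to the space of triples.
-/

set_option maxSynthPendingDepth 3

namespace Pool.Agent.MP_28624d_gt.K

open Filter Topology

/-- The exact linear normal form at a fixed point of Psi g0. -/
structure Lin (ρ0 : V3) (g0 : A4) (L : T 15 →L[ℝ] T 15) (Th : U48 ≃L[ℝ] V3)
    (χ : Cn 9 →L[ℝ] T 15) (ζ : T 15 →L[ℝ] T 15) (l : Fin 9 → ℂ) : Prop where
  good : Good ρ0
  unit : IsUnit g0
  det : 0 < g0.det
  fix : Psi g0 ρ0 = ρ0
  inj : Function.Injective L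
  orb : ∀ X, Th (X, 0, 0) = fun i => iota X * ρ0 i - ρ0 i * iota X
  cas : ∀ u, L (fderiv ℝ kap ρ0 (Th u)) = u.2.2
  lin : ∀ z t, fderiv ℝ (Psi g0) ρ0 (Th (0, z, t)) = Th (χ z + ζ t, dg l z, t)

/-- The slice σ, the induced map f and the gauge correction c. -/
structure Chart (ρ0 : V3) (g0 : A4) (L : T 15 →L[ℝ] T 15) (Th : U48 ≃L[ℝ] V3)
    (σ : Cn 9 × T 15 → V3) (f : Cn 9 × T 15 → Cn 9) (c : Cn 9 × T 15 → T 15) : Prop where
  aσ : AnalyticAt ℝ σ 0
  af : AnalyticAt ℝ f 0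
  ac : AnalyticAt ℝ c 0
  σ0 : σ 0 = ρ0
  f0 : f 0 = 0
  c0 : c 0 = 0
  dσ : ∀ z μ, fderiv ℝ σ 0 (z, μ) = Th (0, z, μ)
  pσ : ∀ x, (Th.symm (σ x - ρ0)).1 = 0 ∧ (Th.symm (σ x - ρ0)).2.1 = x.1
  kσ : ∀ᶠ x in 𝓝 (0 : Cn 9 × T 15), L (kap (σ x) - kap ρ0) = x.2
  rel : ∀ᶠ x in 𝓝 (0 : Cn 9 × T 15), ∀ i,
    Psi g0 (σ x) i * (1 + iota (c x)) = (1 + iota (c x)) * σ (f x, x.2) i

/-- Conjugation by 1 + iota X. -/
noncomputable def e1cj (p : T 15 × V3) : V3 :=
  fun i => (1 + iota p.1) * p.2 i * Ring.inverse (1 + iota p.1)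

theorem e1cj_zero (ρ : V3) : e1cj (0, ρ) = ρ := by
  funext i
  simp [e1cj]

theorem e1_analytic (ρ : V3) : AnalyticAt ℝ e1cj (0, ρ) := by
  have := FiniteDimensional.complete ℝ A4
  have h1 : AnalyticAt ℝ (fun p : T 15 × V3 => 1 + iota p.1) (0, ρ) :=
    analyticAt_const.add ((iota.analyticAt _).comp analyticAt_fst)
  have h2 : AnalyticAt ℝ (fun p : T 15 × V3 => Ring.inverse (1 + iota p.1)) (0, ρ) :=
    AnalyticAt.comp_of_eq (analyticAt_inverse (𝕜 := ℝ) (1 : A4ˣ)) h1 (by simp)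
  refine AnalyticAt.pi fun i => (h1.mul ?_).mul h2
  exact ((ContinuousLinearMap.proj (R := ℝ) (φ := fun _ : Fin 3 => A4) i).analyticAt _).comp
    analyticAt_snd

theorem e1_fderiv (ρ : V3) (X : T 15) (v : V3) :
    fderiv ℝ e1cj (0, ρ) (X, v) = (fun i => iota X * ρ i - ρ i * iota X) + v := by
  have := FiniteDimensional.complete ℝ A4
  have h1 : HasFDerivAt (fun p : T 15 × V3 => 1 + iota p.1)
      (iota.comp (ContinuousLinearMap.fst ℝ (T 15) V3)) (0, ρ) :=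
    (iota.comp (ContinuousLinearMap.fst ℝ (T 15) V3)).hasFDerivAt.const_add 1
  have h0 := hasFDerivAt_ringInverse (𝕜 := ℝ) (1 : A4ˣ)
  have e : ((1 : A4ˣ) : A4) = (fun p : T 15 × V3 => 1 + iota p.1) (0, ρ) := by simp
  rw [e] at h0
  have h2 := h0.comp (0, ρ) h1
  have h3 : ∀ i, HasFDerivAt (fun p : T 15 × V3 => p.2 i)
      ((ContinuousLinearMap.proj (R := ℝ) (φ := fun _ : Fin 3 => A4) i).comp
        (ContinuousLinearMap.snd ℝ (T 15) V3)) (0, ρ) := fun i =>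
    ((ContinuousLinearMap.proj (R := ℝ) (φ := fun _ : Fin 3 => A4) i).comp
      (ContinuousLinearMap.snd ℝ (T 15) V3)).hasFDerivAt
  have h4 := hasFDerivAt_pi.2 fun i => (h1.mul' (h3 i)).mul' h2
  have h5 : fderiv ℝ e1cj (0, ρ) = _ := h4.fderiv
  rw [h5]
  funext i
  simp
  abel

theorem e1_comp {ρ0 : V3} {Th : U48 ≃L[ℝ] V3}
    (orb : ∀ X, Th (X, 0, 0) = fun i => iota X * ρ0 i - ρ0 i * iota X) {s : Cn 9 × T 15 → V3}
    (hs : AnalyticAt ℝ s 0) (s0 : s 0 = ρ0) (ds : ∀ z μ, fderiv ℝ s 0 (z, μ) = Th (0, z, μ)) :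
    AnalyticAt ℝ (fun u : U48 => e1cj (u.1, s u.2)) 0 ∧
      fderiv ℝ (fun u : U48 => e1cj (u.1, s u.2)) 0 = (Th : U48 →L[ℝ] V3) := by
  have h1 : AnalyticAt ℝ (fun u : U48 => s u.2) 0 := hs.comp_of_eq analyticAt_snd rfl
  have h2 : AnalyticAt ℝ (fun u : U48 => (u.1, s u.2)) 0 := analyticAt_fst.prod h1
  have e : (fun u : U48 => (u.1, s u.2)) 0 = (0, ρ0) := by simp [s0]
  refine ⟨(e1_analytic ρ0).comp_of_eq h2 e, ?_⟩
  have h3 : HasFDerivAt (fun u : U48 => s u.2)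
      ((fderiv ℝ s 0).comp (ContinuousLinearMap.snd ℝ (T 15) (Cn 9 × T 15))) 0 :=
    HasFDerivAt.comp (0 : U48) (g := s) hs.differentiableAt.hasFDerivAt hasFDerivAt_snd
  have h4 := (e1_analytic ρ0).differentiableAt.hasFDerivAt
  rw [← e] at h4
  have h5 := h4.comp (0 : U48) (hasFDerivAt_fst.prodMk h3)
  have h6 : fderiv ℝ (fun u : U48 => e1cj (u.1, s u.2)) 0 = _ := h5.fderiv
  rw [h6, e]
  refine ContinuousLinearMap.ext fun ⟨X, z, μ⟩ => ?_
  simp only [ContinuousLinearMap.comp_apply, ContinuousLinearMap.prod_apply,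
    ContinuousLinearMap.coe_fst', ContinuousLinearMap.coe_snd', ContinuousLinearEquiv.coe_coe]
  rw [e1_fderiv, ds, ← orb, ← map_add]
  simp

theorem e1_small : ∀ᶠ X in 𝓝 (0 : T 15), IsUnit (1 + iota X) ∧ 0 < (1 + iota X).det := by
  have h : Continuous fun X : T 15 => (1 + iota X).det :=
    Continuous.matrix_det (A := fun X : T 15 => 1 + iota X) (continuous_const.add iota.continuous)
  have h1 : ∀ᶠ X in 𝓝 (0 : T 15), 0 < (1 + iota X).det :=
    h.continuousAt.eventually (lt_mem_nhds (by simp))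
  exact h1.mono fun X hX => ⟨(Matrix.isUnit_iff_isUnit_det _).2 hX.ne'.isUnit, hX⟩

theorem e1_det_inv {g : A4} (hg : IsUnit g) (h : 0 < g.det) : 0 < (Ring.inverse g).det := by
  have := congrArg Matrix.det (Ring.inverse_mul_cancel g hg)
  rw [Matrix.det_mul, Matrix.det_one] at this
  exact pos_of_mul_pos_left (by rw [this]; exact one_pos) h.le

theorem e1_orbit {α : Type} {F : α → α} {S : Set α} (h1 : ∀ x ∈ S, F x ∈ S)
    (h2 : ∀ x ∈ S, ∃ y ∈ S, F y = x) {x : α} (hx : x ∈ S) :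
    ∃ o : ℤ → α, o 0 = x ∧ ∀ n, o n ∈ S ∧ o (n + 1) = F (o n) := by
  choose! b hb hb' using h2
  have hf : ∀ n : ℕ, F^[n] x ∈ S := fun n => by
    induction n with
    | zero => exact hx
    | succ n ih => rw [Function.iterate_succ_apply']; exact h1 _ ih
  have hg : ∀ n : ℕ, b^[n] x ∈ S := fun n => by
    induction n with
    | zero => exact hx
    | succ n ih => rw [Function.iterate_succ_apply']; exact hb _ ih
  refine ⟨fun n => Int.casesOn n (fun m => F^[m] x) fun m => b^[m + 1] x, rfl, fun n => ?_⟩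
  rcases n with n | n
  · exact ⟨hf n, Function.iterate_succ_apply' F n x⟩
  · refine ⟨hg _, ?_⟩
    rcases n with _ | n
    · exact (hb' x hx).symm
    · change b^[n + 1] x = F (b^[n + 1 + 1] x)
      rw [Function.iterate_succ_apply' b (n + 1), hb' _ (hg _)]

variable {ρ0 : V3} {g0 : A4} {L : T 15 →L[ℝ] T 15} {Th : U48 ≃L[ℝ] V3} {χ : Cn 9 →L[ℝ] T 15}
  {ζ : T 15 →L[ℝ] T 15} {l : Fin 9 → ℂ} {σ : Cn 9 × T 15 → V3} {f : Cn 9 × T 15 → Cn 9}
  {c : Cn 9 × T 15 → T 15}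

/-- exists_local_inverse twice. H (X, z, t) i = (1 + iota X) * (ρ0 + Th (0, z, t)) i * (1 + iota X)⁻¹
has derivative Th at 0; k (z, t) = (z, L (kap (ρ0 + Th (0, z, t)) - kap ρ0)) has derivative the
identity. Put σ x = ρ0 + Th (0, x.1, (k⁻¹ x).2) and (c x, f x, t' x) = H⁻¹ (Psi g0 (σ x)). By
kap_Psi and kap_conj, k (f x, t' x) = (f x, x.2), so t' x = (k⁻¹ (f x, x.2)).2. -/
theorem exists_chart (h : Lin ρ0 g0 L Th χ ζ l) : ∃ σ f c, Chart ρ0 g0 L Th σ f c := by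
  obtain ⟨J, hJ⟩ : ∃ J : Cn 9 × T 15 →L[ℝ] V3, ∀ x, J x = Th (0, x) :=
    ⟨(Th : U48 →L[ℝ] V3).comp (ContinuousLinearMap.inr ℝ (T 15) (Cn 9 × T 15)), fun _ => rfl⟩
  obtain ⟨s, hs⟩ : ∃ s : Cn 9 × T 15 → V3, s = fun x => ρ0 + J x := ⟨_, rfl⟩
  have s0 : s 0 = ρ0 := by simp [hs]
  have as : ∀ x, AnalyticAt ℝ s x := fun x => hs ▸ analyticAt_const.add (J.analyticAt x)
  have ds : ∀ x, HasFDerivAt s J x := fun x => hs ▸ J.hasFDerivAt.const_add ρ0
  obtain ⟨k, hk⟩ : ∃ k : Cn 9 × T 15 → Cn 9 × T 15,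
    k = fun x => (x.1, L (kap (s x) - kap ρ0)) := ⟨_, rfl⟩
  have k0 : k 0 = 0 := by simp [hk, s0]
  have ak : AnalyticAt ℝ k 0 := hk ▸ analyticAt_fst.prod ((L.analyticAt _).comp
    (((analyticAt_kap _).comp (as 0)).sub analyticAt_const))
  have dk : fderiv ℝ k 0 = (ContinuousLinearEquiv.refl ℝ (Cn 9 × T 15) :
      Cn 9 × T 15 →L[ℝ] Cn 9 × T 15) := by
    have h1 := (analyticAt_kap (s 0)).differentiableAt.hasFDerivAt.comp 0 (ds 0)
    have h2 := (hasFDerivAt_fst (𝕜 := ℝ) (p := (0 : Cn 9 × T 15))).prodMk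
      (L.hasFDerivAt.comp 0 (h1.sub_const (kap ρ0)))
    have h3 : fderiv ℝ k 0 = _ := hk ▸ h2.fderiv
    rw [h3, s0]
    refine ContinuousLinearMap.ext fun x => ?_
    simp only [ContinuousLinearMap.comp_apply, ContinuousLinearMap.prod_apply,
      ContinuousLinearMap.coe_fst', ContinuousLinearEquiv.coe_coe, hJ, h.cas,
      ContinuousLinearEquiv.refl_apply]
  obtain ⟨ki, a1, a2, a3, a4, a5⟩ := exists_local_inverse ak _ dk
  rw [k0] at a1 a2 a3 a5
  obtain ⟨aH, dH⟩ := e1_comp h.orb (as 0) s0 fun z μ => by rw [(ds 0).fderiv, hJ]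
  obtain ⟨Hi, b1, b2, -, -, b5⟩ := exists_local_inverse aH _ dH
  have H0 : e1cj ((0 : U48).1, s (0 : U48).2) = ρ0 := by
    rw [Prod.fst_zero, Prod.snd_zero, s0, e1cj_zero]
  rw [H0] at b1 b2 b5
  obtain ⟨σ, hσ⟩ : ∃ σ : Cn 9 × T 15 → V3, σ = fun x => s (x.1, (ki x).2) := ⟨_, rfl⟩
  have σ0 : σ 0 = ρ0 := by
    simp only [hσ, a2]
    exact s0
  have aq : AnalyticAt ℝ (fun x : Cn 9 × T 15 => (x.1, (ki x).2)) 0 :=
    analyticAt_fst.prod (analyticAt_snd.comp a1)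
  have aσ : AnalyticAt ℝ σ 0 := hσ ▸ (as _).comp aq
  have aP : AnalyticAt ℝ (fun x => Psi g0 (σ x)) 0 :=
    (analyticAt_Psi h.good.1 g0).comp_of_eq aσ σ0
  have P0 : Psi g0 (σ 0) = ρ0 := by rw [σ0, h.fix]
  obtain ⟨W, hW⟩ : ∃ W : Cn 9 × T 15 → U48, W = fun x => Hi (Psi g0 (σ x)) := ⟨_, rfl⟩
  have aW : AnalyticAt ℝ W 0 := hW ▸ b1.comp_of_eq aP P0
  have W0 : W 0 = 0 := by simp only [hW, P0, b2]
  have kσ : ∀ᶠ x in 𝓝 (0 : Cn 9 × T 15), L (kap (σ x) - kap ρ0) = x.2 := by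
    refine a5.mono fun x hx => ?_
    rw [hk] at hx
    have h1 : (ki x).1 = x.1 := (Prod.ext_iff.1 hx).1
    simp only [hσ, ← h1]
    exact (Prod.ext_iff.1 hx).2
  refine ⟨σ, fun x => (W x).2.1, fun x => (W x).1, aσ, analyticAt_fst.comp (analyticAt_snd.comp aW),
    analyticAt_fst.comp aW, σ0, by simp [W0], by simp [W0], fun z μ => ?_, fun x => ?_, kσ, ?_⟩
  · have h1 := a1.differentiableAt.hasFDerivAt
    rw [a3] at h1
    have h2 := (ds _).comp 0 ((hasFDerivAt_fst (𝕜 := ℝ) (p := (0 : Cn 9 × T 15))).prodMk h1.snd)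
    have h3 : fderiv ℝ (fun x => s (x.1, (ki x).2)) 0 = _ := h2.fderiv
    rw [hσ, h3]
    simp [hJ]
  · simp [hσ, hs, hJ]
  · have tP : Tendsto (fun x => Psi g0 (σ x)) (𝓝 0) (𝓝 ρ0) := P0 ▸ aP.continuousAt
    have tσ : Tendsto σ (𝓝 0) (𝓝 ρ0) := σ0 ▸ aσ.continuousAt
    have tW : Tendsto W (𝓝 0) (𝓝 0) := by simpa only [ContinuousAt, W0] using aW.continuousAt
    have t1 : Tendsto (fun x => (W x).1) (𝓝 0) (𝓝 0) := (continuous_fst.tendsto _).comp tW
    have t2 : Tendsto (fun x => (W x).2) (𝓝 0) (𝓝 0) := (continuous_snd.tendsto _).comp tW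
    filter_upwards [tP.eventually b5, tσ.eventually h.good.eventually, t1.eventually e1_small,
      t2.eventually a4, kσ] with x c1 c2 c3 c4 c5 i
    have c6 : e1cj ((W x).1, s (W x).2) = Psi g0 (σ x) := by rw [hW]; exact c1
    have c7 : kap (s (W x).2) = kap (σ x) := by
      rw [← kap_Psi c2.1 h.unit, ← c6]
      exact (kap_conj _ (Ring.mul_inverse_cancel _ c3.1) (Ring.inverse_mul_cancel _ c3.1)).symm
    have c8 : k (W x).2 = ((W x).2.1, x.2) := by simp only [hk, c7, c5]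
    rw [c8] at c4
    have c9 : σ ((W x).2.1, x.2) = s (W x).2 := by simp only [hσ, c4]
    rw [c9, ← c6, e1cj, Ring.inverse_mul_cancel_right _ _ c3.1]

/-- Ξ (X, x) i = (1 + iota X) * σ x i * (1 + iota X)⁻¹ is analytic at 0 with derivative Th, so
pos_local applies; S' = Ξ '' (small ball ×ˢ S) (Pos.prod, Pos.of_nhds). Through every x ∈ S there
is a two sided orbit x n ∈ S of the fibred map (forward iterates, backward by recursion and
choice); y n = σ (x n). det (1 + iota X) > 0 for small X by continuity. -/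
theorem stab_of_concl (h : Lin ρ0 g0 L Th χ ζ l) (hc : Chart ρ0 g0 L Th σ f c) (hf : Concl f) :
    Stab ρ0 := by
  intro U hU
  obtain ⟨aΞ, dΞ⟩ := e1_comp h.orb hc.aσ hc.σ0 hc.dσ
  obtain ⟨U0, hU0, hp⟩ := pos_local (f' := Th) (dΞ ▸ aΞ.hasStrictFDerivAt)
  obtain ⟨A, hA, B, hB, hAB⟩ := mem_nhds_prod_iff.1 hU0
  have tσ : Tendsto σ (𝓝 0) (𝓝 ρ0) := hc.σ0 ▸ hc.aσ.continuousAt
  have tc : Tendsto c (𝓝 0) (𝓝 0) := by simpa only [ContinuousAt, hc.c0] using hc.ac.continuousAt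
  obtain ⟨S, hS, pS, f1, f2⟩ := hf _ (inter_mem hB (inter_mem (tσ hU)
    (inter_mem (tc.eventually e1_small) hc.rel)))
  refine ⟨_, hp ((A ∩ {X | IsUnit (1 + iota X) ∧ 0 < (1 + iota X).det}) ×ˢ S)
    (fun u hu => hAB ⟨hu.1.1, (hS hu.2).1⟩) ((Pos.of_nhds (inter_mem hA e1_small)).prod pS), ?_⟩
  rintro _ ⟨⟨X, x⟩, ⟨⟨-, u1, u2⟩, hx⟩, rfl⟩
  obtain ⟨o, o0, ho⟩ := e1_orbit (F := fun x => (f x, x.2)) f1 f2 hx
  refine ⟨fun n => σ (o n), ⟨_, _, Ring.inverse_mul_cancel _ u1, Ring.mul_inverse_cancel _ u1,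
    e1_det_inv u1 u2, fun i => ?_⟩, fun n => ?_⟩
  · simp only [e1cj, o0, ← mul_assoc]
    rw [Ring.inverse_mul_cancel _ u1, one_mul, Ring.inverse_mul_cancel_right _ _ u1]
  · obtain ⟨-, v1, ⟨v2, v3⟩, v4⟩ := hS (ho n).1
    refine ⟨v1, Ring.inverse (1 + iota (c (o n))) * g0, Ring.inverse g0 * (1 + iota (c (o n))),
      ?_, ?_, ?_, fun i => ?_⟩
    · rw [mul_assoc, Ring.mul_inverse_cancel_left _ _ h.unit, Ring.inverse_mul_cancel _ v2]
    · rw [mul_assoc, Ring.mul_inverse_cancel_left _ _ v2, Ring.inverse_mul_cancel _ h.unit]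
    · rw [Matrix.det_mul]
      exact mul_pos (e1_det_inv v2 v3) h.det
    · have := v4 i
      simp only [Psi, mul_assoc] at this
      simp only [(ho n).2, mul_assoc]
      rw [this, Ring.inverse_mul_cancel_left _ _ v2]

end Pool.Agent.MP_28624d_gt.K

end

section

/-!
The induced map on the slice preserves a closed two form.
-/

set_option maxSynthPendingDepth 3

namespace Pool.Agent.MP_28624d_gt.K

open Filter Topology

/-- The two form on the slice. -/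
noncomputable def Osl (σ : Cn 9 × T 15 → V3) (x : Cn 9 × T 15) : Cn 9 →L[ℝ] Cn 9 →L[ℝ] ℝ :=
  (Om (σ x)).bilinearComp ((fderiv ℝ σ x).comp (ContinuousLinearMap.inl ℝ (Cn 9) (T 15)))
    ((fderiv ℝ σ x).comp (ContinuousLinearMap.inl ℝ (Cn 9) (T 15)))

variable {ρ0 : V3} {g0 : A4} {L : T 15 →L[ℝ] T 15} {Th : U48 ≃L[ℝ] V3} {χ : Cn 9 →L[ℝ] T 15}
  {ζ : T 15 →L[ℝ] T 15} {l : Fin 9 → ℂ} {σ : Cn 9 × T 15 → V3} {f : Cn 9 × T 15 → Cn 9}
  {c : Cn 9 × T 15 → T 15}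

section Aux

variable {X F G H : Type} [NormedAddCommGroup X] [NormedSpace ℝ X] [NormedAddCommGroup F]
  [NormedSpace ℝ F] [NormedAddCommGroup G] [NormedSpace ℝ G] [NormedAddCommGroup H]
  [NormedSpace ℝ H]

theorem e2_comp {a : X → G →L[ℝ] H} {b : X → F →L[ℝ] G} {x : X} (ha : AnalyticAt ℝ a x)
    (hb : AnalyticAt ℝ b x) : AnalyticAt ℝ (fun y => (a y).comp (b y)) x :=
  ((ContinuousLinearMap.compL ℝ F G H).analyticAt_bilinear _).comp₂ ha hb

theorem e2_flip {a : X → F →L[ℝ] G →L[ℝ] H} {x : X} (ha : AnalyticAt ℝ a x) :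
    AnalyticAt ℝ (fun y => (a y).flip) x :=
  ((ContinuousLinearMap.flipₗᵢ ℝ F G H).toContinuousLinearEquiv.analyticAt _).comp ha

theorem e2_bil {a : X → G →L[ℝ] G →L[ℝ] ℝ} {b : X → F →L[ℝ] G} {x : X} (ha : AnalyticAt ℝ a x)
    (hb : AnalyticAt ℝ b x) : AnalyticAt ℝ (fun y => (a y).bilinearComp (b y) (b y)) x :=
  e2_flip (e2_comp (e2_flip (e2_comp ha hb)) hb)

theorem e2_fib {g : F × G → H} {z : F} {μ : G} (hg : DifferentiableAt ℝ g (z, μ)) :
    HasFDerivAt (fun u => g (u, μ))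
      ((fderiv ℝ g (z, μ)).comp (ContinuousLinearMap.inl ℝ F G)) z :=
  HasFDerivAt.comp (f := fun u => (u, μ)) z hg.hasFDerivAt (hasFDerivAt_prodMk_left _ _)

theorem e2_an {g : F × G → H} {z : F} {μ : G} (hg : AnalyticAt ℝ g (z, μ)) :
    AnalyticAt ℝ (fun u => g (u, μ)) z :=
  AnalyticAt.comp (f := fun u => (u, μ)) hg (analyticAt_id.prod analyticAt_const)

/-- The fibre derivative of a two form which is a pull back along the fibres. -/
theorem e2_dform {σ : F × G → H} {ω : H → H →L[ℝ] H →L[ℝ] ℝ} {z : F} {μ : G}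
    (hσ : ∀ᶠ y in 𝓝 z, DifferentiableAt ℝ σ (y, μ))
    (hO : DifferentiableAt ℝ (fun x => (ω (σ x)).bilinearComp
      ((fderiv ℝ σ x).comp (ContinuousLinearMap.inl ℝ F G))
      ((fderiv ℝ σ x).comp (ContinuousLinearMap.inl ℝ F G))) (z, μ)) (u : F) :
    fderiv ℝ (fun x => (ω (σ x)).bilinearComp
      ((fderiv ℝ σ x).comp (ContinuousLinearMap.inl ℝ F G))
      ((fderiv ℝ σ x).comp (ContinuousLinearMap.inl ℝ F G))) (z, μ) (u, 0) =
    fderiv ℝ (fun y => (ω (σ (y, μ))).bilinearComp (fderiv ℝ (fun u => σ (u, μ)) y)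
      (fderiv ℝ (fun u => σ (u, μ)) y)) z u := by
  have h1 := (e2_fib hO).congr_of_eventuallyEq (f₁ := fun y => (ω (σ (y, μ))).bilinearComp
    (fderiv ℝ (fun u => σ (u, μ)) y) (fderiv ℝ (fun u => σ (u, μ)) y))
    (hσ.mono fun y hy => by simp only [(e2_fib hy).fderiv])
  rw [h1.fderiv]
  rfl

end Aux

theorem e2_conj {u g p q : A4} (hu : IsUnit u)
    (h : g * p * Ring.inverse g * u = u * q) :
    q = Ring.inverse u * g * p * (Ring.inverse g * u) := by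
  rw [mul_assoc, mul_assoc, ← mul_assoc p, ← mul_assoc g, ← mul_assoc g, h,
    Ring.inverse_mul_cancel_left _ _ hu]

theorem e2_cancel {u g : A4} (hu : IsUnit u) (hg : IsUnit g) :
    Ring.inverse u * g * (Ring.inverse g * u) = 1 ∧
      Ring.inverse g * u * (Ring.inverse u * g) = 1 := by
  constructor
  · rw [mul_assoc, Ring.mul_inverse_cancel_left _ _ hg, Ring.inverse_mul_cancel _ hu]
  · rw [mul_assoc, Ring.mul_inverse_cancel_left _ _ hu, Ring.inverse_mul_cancel _ hg]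

theorem analyticAt_Osl (h : Lin ρ0 g0 L Th χ ζ l) (hc : Chart ρ0 g0 L Th σ f c) :
    AnalyticAt ℝ (Osl σ) 0 :=
  e2_bil ((analyticAt_Om h.good).comp_of_eq hc.aσ hc.σ0) (e2_comp hc.aσ.fderiv analyticAt_const)

/-- The properties of a point near the origin that are used. -/
structure E2P (ρ0 : V3) (g0 : A4) (L : T 15 →L[ℝ] T 15) (σ : Cn 9 × T 15 → V3)
    (f : Cn 9 × T 15 → Cn 9) (c : Cn 9 × T 15 → T 15) (x : Cn 9 × T 15) : Prop where
  aσ : AnalyticAt ℝ σ x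
  af : AnalyticAt ℝ f x
  ac : AnalyticAt ℝ c x
  aO : AnalyticAt ℝ (Osl σ) x
  good : Good (σ x)
  kσ : L (kap (σ x) - kap ρ0) = x.2
  rel : ∀ i, Psi g0 (σ x) i * (1 + iota (c x)) = (1 + iota (c x)) * σ (f x, x.2) i
  unit : IsUnit (1 + iota (c x))

theorem e2_ev (h : Lin ρ0 g0 L Th χ ζ l) (hc : Chart ρ0 g0 L Th σ f c) :
    ∀ᶠ x in 𝓝 (0 : Cn 9 × T 15), E2P ρ0 g0 L σ f c x := by
  have := FiniteDimensional.complete ℝ A4
  have t1 : Tendsto σ (𝓝 0) (𝓝 ρ0) := hc.σ0 ▸ hc.aσ.continuousAt.tendsto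
  have t2 : Tendsto (fun x => 1 + iota (c x)) (𝓝 0) (𝓝 (1 + iota (c 0))) :=
    ((iota.continuous.tendsto _).comp hc.ac.continuousAt.tendsto).const_add 1
  rw [hc.c0, map_zero, add_zero] at t2
  filter_upwards [hc.aσ.eventually_analyticAt, hc.af.eventually_analyticAt,
    hc.ac.eventually_analyticAt, (analyticAt_Osl h hc).eventually_analyticAt,
    t1.eventually h.good.eventually, hc.kσ, hc.rel,
    t2.eventually (Units.isOpen.mem_nhds isUnit_one)] with x h1 h2 h3 h4 h5 h6 h7 h8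
  exact ⟨h1, h2, h3, h4, h5, h6, h7, h8⟩

/-- The slice form is closed along the fibres and invariant. -/
theorem symp_Osl (h : Lin ρ0 g0 L Th χ ζ l) (hc : Chart ρ0 g0 L Th σ f c) : Symp f (Osl σ) := by
  have := FiniteDimensional.complete ℝ A4
  have t1 : Tendsto (fun x : Cn 9 × T 15 => (f x, x.2)) (𝓝 0) (𝓝 (f 0, 0)) :=
    hc.af.continuousAt.tendsto.prodMk_nhds continuous_snd.continuousAt.tendsto
  rw [hc.f0] at t1
  filter_upwards [((e2_ev h hc).and (t1.eventually (e2_ev h hc))).eventually_nhds]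
  rintro ⟨z, μ⟩ hx
  obtain ⟨p, q⟩ := hx.self_of_nhds
  have hz : ∀ᶠ y in 𝓝 z, E2P ρ0 g0 L σ f c (y, μ) ∧ E2P ρ0 g0 L σ f c (f (y, μ), μ) :=
    (Continuous.prodMk_left μ).continuousAt.tendsto.eventually hx
  have k1 : ∀ᶠ y in 𝓝 z, kap (σ (y, μ)) = kap (σ (z, μ)) :=
    hz.mono fun y hy => sub_left_inj.1 (h.inj (hy.1.kσ.trans p.kσ.symm))
  have k2 : ∀ᶠ y in 𝓝 z, kap (σ (f (y, μ), μ)) = kap (σ (f (z, μ), μ)) :=
    hz.mono fun y hy => sub_left_inj.1 (h.inj (hy.2.kσ.trans q.kσ.symm))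
  refine ⟨fun v w => Om_antisymm _ _ _, fun u v w => ?_, fun v w => ?_⟩
  · have e := e2_dform (ω := Om) (hz.mono fun y hy => hy.1.aσ.differentiableAt)
      p.aO.differentiableAt
    have h1 := om_closed (s := fun y => σ (y, μ)) (e2_an p.aσ).contDiffAt p.good k1 u v w
    rw [dd, ← e, ← e, ← e] at h1
    exact h1
  · have d1 := e2_fib p.aσ.differentiableAt
    have d2 := (e2_fib q.aσ.differentiableAt).comp z (e2_fib p.af.differentiableAt)
    have d3 : DifferentiableAt ℝ (fun y => 1 + iota (c (y, μ))) z :=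
      (iota.differentiableAt.comp z (e2_fib p.ac.differentiableAt).differentiableAt).const_add 1
    have h1 := om_inv (s := fun y => σ (y, μ)) (s' := fun y => σ (f (y, μ), μ))
      (g := fun y => Ring.inverse (1 + iota (c (y, μ))) * g0)
      (gi := fun y => Ring.inverse g0 * (1 + iota (c (y, μ)))) d1.differentiableAt
      d2.differentiableAt ((d3.inverse p.unit).mul_const g0) (d3.const_mul _) p.good q.good k1 k2
      (hz.mono fun y hy => ⟨(e2_cancel hy.1.unit h.unit).1, (e2_cancel hy.1.unit h.unit).2,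
        fun i => e2_conj hy.1.unit (hy.1.rel i)⟩) v w
    rw [d1.fderiv, show fderiv ℝ (fun y => σ (f (y, μ), μ)) z = _ from d2.fderiv] at h1
    exact h1

end Pool.Agent.MP_28624d_gt.K

end

section

/-!
First and second derivatives of the induced map; the reduction theorem.
-/

set_option maxSynthPendingDepth 3

namespace Pool.Agent.MP_28624d_gt.K

open Filter Topology

section aux

variable {X Y Z : Type} [NormedAddCommGroup X] [NormedSpace ℝ X] [NormedAddCommGroup Y]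
  [NormedSpace ℝ Y] [NormedAddCommGroup Z] [NormedSpace ℝ Z]

theorem e3_eval [CompleteSpace Y] {p : X → Y} {x : X} (hp : AnalyticAt ℝ p x) (u v : X) :
    fderiv ℝ (fderiv ℝ p) x u v = fderiv ℝ (fun y => fderiv ℝ p y v) x u := by
  rw [fderiv_clm_apply hp.fderiv.differentiableAt (differentiableAt_const v)]
  simp

theorem e3_has [CompleteSpace Y] {p : X → Y} {x : X} (hp : AnalyticAt ℝ p x) (v : X) :
    HasFDerivAt (fun y => fderiv ℝ p y v) ((fderiv ℝ (fderiv ℝ p) x).flip v) x := by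
  have h := hp.fderiv.differentiableAt.hasFDerivAt.clm_apply (hasFDerivAt_const v x)
  refine h.congr_fderiv ?_
  ext u
  simp

theorem e3_comp1 {g : Y → Z} {p : X → Y} {x : X} (hg : AnalyticAt ℝ g (p x))
    (hp : AnalyticAt ℝ p x) (v : X) :
    fderiv ℝ (fun y => g (p y)) x v = fderiv ℝ g (p x) (fderiv ℝ p x v) := by
  rw [fderiv_fun_comp x hg.differentiableAt hp.differentiableAt]
  rfl

theorem e3_comp2 [CompleteSpace Y] [CompleteSpace Z] {g : Y → Z} {p : X → Y} {x : X}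
    (hg : AnalyticAt ℝ g (p x)) (hp : AnalyticAt ℝ p x) (u v : X) :
    fderiv ℝ (fderiv ℝ fun y => g (p y)) x u v =
      fderiv ℝ (fderiv ℝ g) (p x) (fderiv ℝ p x u) (fderiv ℝ p x v) +
        fderiv ℝ g (p x) (fderiv ℝ (fderiv ℝ p) x u v) := by
  have h1 : (fun y => fderiv ℝ (fun y => g (p y)) y v) =ᶠ[𝓝 x]
      fun y => fderiv ℝ g (p y) (fderiv ℝ p y v) := by
    filter_upwards [hp.eventually_analyticAt,
      hp.continuousAt.eventually hg.eventually_analyticAt] with y h1 h2 using e3_comp1 h2 h1 v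
  have h2 : AnalyticAt ℝ (fun y => g (p y)) x := hg.comp hp
  rw [e3_eval h2, h1.fderiv_eq]
  have h3 := ((hg.fderiv.differentiableAt.hasFDerivAt.comp x
    hp.differentiableAt.hasFDerivAt).clm_apply (e3_has hp v)).fderiv
  simp only [Function.comp_def] at h3
  rw [h3]
  simp [add_comm]

theorem e3_clm1 (g : Y →L[ℝ] Z) {p : X → Y} {x : X} (hp : AnalyticAt ℝ p x) (v : X) :
    fderiv ℝ (fun y => g (p y)) x v = g (fderiv ℝ p x v) := by
  rw [e3_comp1 (g.analyticAt _) hp, g.fderiv]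

theorem e3_clm2 [CompleteSpace Y] [CompleteSpace Z] (g : Y →L[ℝ] Z) {p : X → Y} {x : X}
    (hp : AnalyticAt ℝ p x) (u v : X) :
    fderiv ℝ (fderiv ℝ fun y => g (p y)) x u v = g (fderiv ℝ (fderiv ℝ p) x u v) := by
  have h1 : fderiv ℝ g = fun _ => g := funext fun _ => g.fderiv
  rw [e3_comp2 (g.analyticAt _) hp, h1]
  simp

variable {A : Type} [NormedRing A] [NormedAlgebra ℝ A]

theorem e3_mul1 {p q : X → A} {x : X} (hp : AnalyticAt ℝ p x) (hq : AnalyticAt ℝ q x) (v : X) :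
    fderiv ℝ (fun y => p y * q y) x v = fderiv ℝ p x v * q x + p x * fderiv ℝ q x v := by
  have h := (hp.differentiableAt.hasFDerivAt.fun_mul' hq.differentiableAt.hasFDerivAt).fderiv
  rw [h]
  simp [add_comm]

theorem e3_mul2 [CompleteSpace A] {p q : X → A} {x : X} (hp : AnalyticAt ℝ p x)
    (hq : AnalyticAt ℝ q x) (u v : X) :
    fderiv ℝ (fderiv ℝ fun y => p y * q y) x u v =
      fderiv ℝ (fderiv ℝ p) x u v * q x + fderiv ℝ p x v * fderiv ℝ q x u +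
        (fderiv ℝ p x u * fderiv ℝ q x v + p x * fderiv ℝ (fderiv ℝ q) x u v) := by
  have h1 : (fun y => fderiv ℝ (fun y => p y * q y) y v) =ᶠ[𝓝 x]
      fun y => fderiv ℝ p y v * q y + p y * fderiv ℝ q y v := by
    filter_upwards [hp.eventually_analyticAt, hq.eventually_analyticAt] with y h1 h2
      using e3_mul1 h1 h2 v
  have h2 : AnalyticAt ℝ (fun y => p y * q y) x := hp.mul hq
  rw [e3_eval h2, h1.fderiv_eq]
  have h3 := (((e3_has hp v).fun_mul' hq.differentiableAt.hasFDerivAt).fun_add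
    (hp.differentiableAt.hasFDerivAt.fun_mul' (e3_has hq v))).fderiv
  rw [h3]
  simp [add_comm]

theorem e3_one1 {p : X → A} (x v : X) :
    fderiv ℝ (fun y => 1 + p y) x v = fderiv ℝ p x v := by
  rw [fderiv_const_add]

theorem e3_one2 {p : X → A} (x u v : X) :
    fderiv ℝ (fderiv ℝ fun y => 1 + p y) x u v = fderiv ℝ (fderiv ℝ p) x u v := by
  have h : (fderiv ℝ fun y => 1 + p y) = fderiv ℝ p := funext fun y => fderiv_const_add _
  rw [h]

/-- The relation P (1 + G) = (1 + G) y differentiated once and twice. -/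
theorem e3_rel [CompleteSpace A] {P G y : X → A} {x : X} (hP : AnalyticAt ℝ P x)
    (hG : AnalyticAt ℝ G x) (hy : AnalyticAt ℝ y x) (h0 : G x = 0)
    (h : ∀ᶠ z in 𝓝 x, P z * (1 + G z) = (1 + G z) * y z) (u v : X) :
    fderiv ℝ P x v = fderiv ℝ G x v * y x - P x * fderiv ℝ G x v + fderiv ℝ y x v ∧
    fderiv ℝ (fderiv ℝ y) x u v = fderiv ℝ (fderiv ℝ P) x u v +
      fderiv ℝ P x u * fderiv ℝ G x v + fderiv ℝ P x v * fderiv ℝ G x u -
      fderiv ℝ G x u * fderiv ℝ y x v - fderiv ℝ G x v * fderiv ℝ y x u -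
      (fderiv ℝ (fderiv ℝ G) x u v * y x - P x * fderiv ℝ (fderiv ℝ G) x u v) := by
  have h' : (fun z => P z * (1 + G z)) =ᶠ[𝓝 x] fun z => (1 + G z) * y z := h
  have hG' : AnalyticAt ℝ (fun z => 1 + G z) x := analyticAt_const.add hG
  have h1 := congrArg (fun D : X →L[ℝ] A => D v) h'.fderiv_eq
  have h2 := congrArg (fun D : X →L[ℝ] X →L[ℝ] A => D u v) h'.fderiv.fderiv_eq
  simp only [e3_mul1 hP hG', e3_mul1 hG' hy, e3_mul2 hP hG', e3_mul2 hG' hy, e3_one1, e3_one2,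
    h0, add_zero, mul_one, one_mul] at h1 h2
  constructor
  · rw [← sub_eq_zero] at h1 ⊢
    rw [← h1]
    abel
  · rw [← sub_eq_zero] at h2 ⊢
    rw [← neg_eq_zero, ← h2]
    abel

end aux

variable {ρ0 : V3} {g0 : A4} {L : T 15 →L[ℝ] T 15} {Th : U48 ≃L[ℝ] V3} {χ : Cn 9 →L[ℝ] T 15}
  {ζ : T 15 →L[ℝ] T 15} {l : Fin 9 → ℂ} {σ : Cn 9 × T 15 → V3} {f : Cn 9 × T 15 → Cn 9}
  {c : Cn 9 × T 15 → T 15}

theorem e3_an (h : Lin ρ0 g0 L Th χ ζ l) (hc : Chart ρ0 g0 L Th σ f c) :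
    AnalyticAt ℝ (Psi g0) (σ 0) ∧ AnalyticAt ℝ (fun x => Psi g0 (σ x)) 0 ∧
      AnalyticAt ℝ (fun x => iota (c x)) 0 ∧ AnalyticAt ℝ (fun x => σ (f x, x.2)) 0 ∧
      σ (f 0, (0 : Cn 9 × T 15).2) = ρ0 ∧
      ∀ a, fderiv ℝ (fun x => σ (f x, x.2)) 0 a = Th (0, fderiv ℝ f 0 a, a.2) := by
  have h1 : AnalyticAt ℝ (Psi g0) (σ 0) := hc.σ0 ▸ analyticAt_Psi h.good.1 g0
  have h2 : AnalyticAt ℝ (fun x : Cn 9 × T 15 => (f x, x.2)) 0 := hc.af.prod analyticAt_snd
  have h3 : (f 0, (0 : Cn 9 × T 15).2) = 0 := by rw [hc.f0]; rfl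
  have h4 : AnalyticAt ℝ σ (f 0, (0 : Cn 9 × T 15).2) := by rw [h3]; exact hc.aσ
  refine ⟨h1, h1.comp hc.aσ, (iota.analyticAt _).comp hc.ac,
    AnalyticAt.comp (f := fun x : Cn 9 × T 15 => (f x, x.2)) h4 h2, by rw [h3, hc.σ0], fun a => ?_⟩
  rw [e3_comp1 (p := fun x : Cn 9 × T 15 => (f x, x.2)) h4 h2, h3,
    (hc.af.differentiableAt.hasFDerivAt.prodMk hasFDerivAt_snd).fderiv, ← hc.dσ]
  rfl

/-- The relation of the chart differentiated once and twice, for triples. -/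
theorem e3_chart (h : Lin ρ0 g0 L Th χ ζ l) (hc : Chart ρ0 g0 L Th σ f c) (u v : Cn 9 × T 15)
    (i : Fin 3) :
    fderiv ℝ (Psi g0) ρ0 (fderiv ℝ σ 0 v) i =
      iota (fderiv ℝ c 0 v) * ρ0 i - ρ0 i * iota (fderiv ℝ c 0 v) +
        Th (0, fderiv ℝ f 0 v, v.2) i ∧
    fderiv ℝ (fderiv ℝ fun x => σ (f x, x.2)) 0 u v i =
      (fderiv ℝ (fderiv ℝ (Psi g0)) ρ0 (fderiv ℝ σ 0 u) (fderiv ℝ σ 0 v) i +
        fderiv ℝ (Psi g0) ρ0 (fderiv ℝ (fderiv ℝ σ) 0 u v) i) +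
      fderiv ℝ (Psi g0) ρ0 (fderiv ℝ σ 0 u) i * iota (fderiv ℝ c 0 v) +
      fderiv ℝ (Psi g0) ρ0 (fderiv ℝ σ 0 v) i * iota (fderiv ℝ c 0 u) -
      iota (fderiv ℝ c 0 u) * Th (0, fderiv ℝ f 0 v, v.2) i -
      iota (fderiv ℝ c 0 v) * Th (0, fderiv ℝ f 0 u, u.2) i -
      (iota (fderiv ℝ (fderiv ℝ c) 0 u v) * ρ0 i - ρ0 i * iota (fderiv ℝ (fderiv ℝ c) 0 u v)) := by
  have : CompleteSpace A4 := FiniteDimensional.complete ℝ A4
  obtain ⟨a1, a2, a3, a4, a5, a6⟩ := e3_an h hc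
  let π : V3 →L[ℝ] A4 := ContinuousLinearMap.proj i
  have hπ : ∀ ρ : V3, π ρ = ρ i := fun _ => rfl
  have h1 := e3_rel (P := fun x => π (Psi g0 (σ x))) (G := fun x => iota (c x))
    (y := fun x => π (σ (f x, x.2))) ((π.analyticAt _).comp a2) a3 ((π.analyticAt _).comp a4)
    (by rw [hc.c0, map_zero]) (hc.rel.mono fun x hx => hx i) u v
  rw [e3_clm2 π a2, e3_clm2 π a4, e3_clm2 iota hc.ac, e3_comp2 a1 hc.aσ] at h1
  simp only [e3_clm1 π a2, e3_clm1 π a4, e3_clm1 iota hc.ac, e3_comp1 a1 hc.aσ, a6] at h1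
  simp only [a5, hc.σ0, h.fix, hπ, Pi.add_apply] at h1
  exact h1

/-- Differentiate Chart.rel at 0 and compare coordinates with Lin.lin and Lin.orb. -/
theorem fderiv_chart (h : Lin ρ0 g0 L Th χ ζ l) (hc : Chart ρ0 g0 L Th σ f c) (z : Cn 9)
    (μ : T 15) : fderiv ℝ f 0 (z, μ) = dg l z ∧ fderiv ℝ c 0 (z, μ) = χ z + ζ μ := by
  have h1 : Th (χ z + ζ μ, dg l z, μ) =
      Th (fderiv ℝ c 0 (z, μ), 0, 0) + Th (0, fderiv ℝ f 0 (z, μ), μ) := by
    rw [← h.lin, h.orb, ← hc.dσ]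
    funext i
    exact (e3_chart h hc 0 (z, μ) i).1
  rw [← map_add] at h1
  have h2 := Th.injective h1
  simp only [Prod.mk_add_mk, add_zero, zero_add, Prod.mk.injEq] at h2
  exact ⟨h2.2.1.symm, h2.1.symm⟩

/-- With P x = Psi g0 (σ x), X x = iota (c x), y x = σ (f x, x.2): P (1 + X) = (1 + X) y near 0.
Differentiate in the direction x2 = (v, 0) at points near 0 and then in x1 = (0, ν) at 0:
P12 + P2 X1 + P1 X2 + ρ0 X12 = X12 ρ0 + X2 y1 + X1 y2 + y12. Let π be the middle component of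
Th.symm. By Chart.pσ, π (y x - ρ0) = f x, so π y12 = f12, and the second derivative σ12 has the
form Th (0, 0, t), so π kills DPsi σ12 (Lin.lin) in P12 = D²Psi τ s + DPsi σ12; π kills
X12 ρ0 - ρ0 X12 (Lin.orb); y1 = τ and y2 = P2 - (X2 ρ0 - ρ0 X2). -/
theorem fderiv2_chart (h : Lin ρ0 g0 L Th χ ζ l) (hc : Chart ρ0 g0 L Th σ f c) (ν : T 15)
    (v : Cn 9) : fderiv ℝ (fderiv ℝ f) 0 (0, ν) (v, 0) =
      (Th.symm (Yv g0 ρ0 (Th (0, 0, ν)) (Th (0, v, 0)) (iota (ζ ν)) (iota (χ v)))).2.1 := by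
  have : CompleteSpace A4 := FiniteDimensional.complete ℝ A4
  obtain ⟨-, -, -, a4, -, -⟩ := e3_an h hc
  let p1 : V3 →L[ℝ] T 15 := (ContinuousLinearMap.fst ℝ _ _).comp (Th.symm : V3 →L[ℝ] U48)
  let p2 : V3 →L[ℝ] Cn 9 := (ContinuousLinearMap.fst ℝ _ _).comp
    ((ContinuousLinearMap.snd ℝ _ _).comp (Th.symm : V3 →L[ℝ] U48))
  have hp1 : ∀ ρ, p1 ρ = (Th.symm ρ).1 := fun _ => rfl
  have hp2 : ∀ ρ, p2 ρ = (Th.symm ρ).2.1 := fun _ => rfl
  have e1 : (fun x => p1 (σ x)) = fun _ => p1 ρ0 := funext fun x => by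
    rw [← sub_eq_zero, ← map_sub, hp1]
    exact (hc.pσ x).1
  have e2 : ∀ x, p2 (σ x) = x.1 + p2 ρ0 := fun x => by
    rw [← sub_eq_iff_eq_add, ← map_sub, hp2]
    exact (hc.pσ x).2
  have e3 : (fderiv ℝ fun x => p2 (σ (f x, x.2))) = fderiv ℝ f := funext fun x => by
    simp only [e2]
    exact fderiv_add_const _
  have e4 : (fderiv ℝ fun x => p2 (σ x)) = fun _ => ContinuousLinearMap.fst ℝ _ _ :=
    funext fun x => by
      simp only [e2]
      rw [fderiv_add_const]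
      exact fderiv_fst
  have h1 := e3_clm2 p1 hc.aσ (0, ν) (v, 0)
  have h2 := e3_clm2 p2 hc.aσ (0, ν) (v, 0)
  have h3 := e3_clm2 p2 a4 (0, ν) (v, 0)
  rw [e1] at h1
  rw [e4, hp2] at h2
  rw [e3] at h3
  simp only [fderiv_fun_const, Pi.zero_apply, zero_apply] at h2
  have h1' : (Th.symm (fderiv ℝ (fderiv ℝ σ) 0 (0, ν) (v, 0))).1 = 0 := by
    rw [← hp1, ← h1]
    simp
  obtain ⟨t, ht⟩ : ∃ t, fderiv ℝ (fderiv ℝ σ) 0 (0, ν) (v, 0) = Th (0, 0, t) :=
    ⟨(Th.symm (fderiv ℝ (fderiv ℝ σ) 0 (0, ν) (v, 0))).2.2, by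
      rw [← Th.symm_apply_eq]
      exact Prod.ext h1' (Prod.ext h2.symm rfl)⟩
  have h4 : fderiv ℝ (fderiv ℝ fun x => σ (f x, x.2)) 0 (0, ν) (v, 0) =
      Yv g0 ρ0 (Th (0, 0, ν)) (Th (0, v, 0)) (iota (ζ ν)) (iota (χ v)) +
        fderiv ℝ (Psi g0) ρ0 (Th (0, 0, t)) - Th (fderiv ℝ (fderiv ℝ c) 0 (0, ν) (v, 0), 0, 0) := by
    funext i
    obtain ⟨k1, k2⟩ := e3_chart h hc (0, ν) (v, 0) i
    simp only [hc.dσ, ht, (fderiv_chart h hc _ _).1, (fderiv_chart h hc _ _).2, map_zero,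
      zero_add, add_zero] at k1 k2
    have k3 : Th (0, dg l v, 0) i = fderiv ℝ (Psi g0) ρ0 (Th (0, v, 0)) i -
        (iota (χ v) * ρ0 i - ρ0 i * iota (χ v)) := by
      rw [k1]
      abel
    rw [k2, k3, h.orb]
    simp only [Yv, Pi.add_apply, Pi.sub_apply]
    abel
  rw [h3, h4, h.lin, map_sub, map_add]
  simp [hp2]

/-- exists_chart, kam1 with Osl σ, stab_of_concl. -/
theorem stab_of_lin (h : Lin ρ0 g0 L Th χ ζ l) (hn : Nonres l)
    (hc : ∀ j, Om ρ0 (Th (0, Pi.single j 1, 0)) (Th (0, Pi.single j Complex.I, 0)) ≠ 0)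
    (hfr : Function.Surjective fun (ν : T 15) (j : Fin 9) => frq (l j)
      ((Th.symm (Yv g0 ρ0 (Th (0, 0, ν)) (Th (0, Pi.single j 1, 0)) (iota (ζ ν))
        (iota (χ (Pi.single j 1))))).2.1 j)
      ((Th.symm (Yv g0 ρ0 (Th (0, 0, ν)) (Th (0, Pi.single j Complex.I, 0)) (iota (ζ ν))
        (iota (χ (Pi.single j Complex.I))))).2.1 j)) : Stab ρ0 := by
  obtain ⟨σ, f, c, hch⟩ := exists_chart h
  refine stab_of_concl h hch (kam1 (Ω := Osl σ) hch.af (analyticAt_Osl h hch) hch.f0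
    (fun z μ => (fderiv_chart h hch z μ).1) hn (symp_Osl h hch) (fun j => ?_) ?_)
  · have h1 : ∀ a b, Osl σ 0 a b = Om ρ0 (Th (0, a, 0)) (Th (0, b, 0)) := fun a b => by
      rw [← hch.dσ, ← hch.dσ, ← hch.σ0]
      rfl
    rw [h1]
    exact hc j
  · convert hfr using 3 with ν j
    rw [← fderiv2_chart h hch, ← fderiv2_chart h hch]
    rfl

end Pool.Agent.MP_28624d_gt.K

end

end

-- part MP_28624d_gt.K.KH
section

section

/-!
The exact fixed point near the numerical one.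
-/

set_option maxSynthPendingDepth 3

namespace Pool.Agent.MP_28624d_gt.K

open Filter Topology

theorem f1_mvt {Y V W W' : Type} [NormedAddCommGroup Y] [NormedSpace ℝ Y] [NormedAddCommGroup V]
    [NormedSpace ℝ V] [NormedAddCommGroup W] [NormedSpace ℝ W] [NormedAddCommGroup W']
    [NormedSpace ℝ W'] {F : V → W} (A : W →L[ℝ] W') (B : Y →L[ℝ] V) (φ : Y →L[ℝ] W') {b : V}
    {r η : ℝ} (hη : 0 ≤ η) (hF : ∀ y, ‖y‖ ≤ r → DifferentiableAt ℝ F (b + B y))
    (hb : ∀ y, ‖y‖ ≤ r → ∀ v, ‖A (fderiv ℝ F (b + B y) (B v)) - φ v‖ ≤ η * ‖v‖) {x y : Y}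
    (hx : ‖x‖ ≤ r) (hy : ‖y‖ ≤ r) :
    ‖A (F (b + B x)) - A (F (b + B y)) - φ (x - y)‖ ≤ η * ‖x - y‖ :=
  (convex_closedBall (0 : Y) r).norm_image_sub_le_of_norm_hasFDerivWithin_le'
    (f := fun y => A (F (b + B y))) (f' := fun y => A.comp ((fderiv ℝ F (b + B y)).comp B))
    (fun y hy => (A.hasFDerivAt.comp y ((hF y (mem_closedBall_zero_iff.1 hy)).hasFDerivAt.comp y
      (B.hasFDerivAt.const_add b))).hasFDerivWithinAt)
    (fun y hy => ContinuousLinearMap.opNorm_le_bound _ hη (hb y (mem_closedBall_zero_iff.1 hy)))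
    (mem_closedBall_zero_iff.2 hy) (mem_closedBall_zero_iff.2 hx)

theorem f1_left (X : T 15) (v : V3) : ‖fun i => iota X * v i‖ ≤ 4 * ‖X‖ * ‖v‖ :=
  (pi_norm_le_iff_of_nonneg (by positivity)).2 fun i => (norm_mul_le _ _).trans
    (mul_le_mul (norm_iota_le X) (norm_le_pi_norm v i) (norm_nonneg _) (by positivity))

theorem f1_right (X : T 15) (v : V3) : ‖fun i => v i * iota X‖ ≤ 4 * ‖X‖ * ‖v‖ :=
  (pi_norm_le_iff_of_nonneg (by positivity)).2 fun i => (norm_mul_le _ _).trans (by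
    rw [mul_comm]
    exact mul_le_mul (norm_iota_le X) (norm_le_pi_norm v i) (norm_nonneg _) (by positivity))

theorem f1_inj {B : Cn 9 × T 15 →L[ℝ] V3} {R : V3 →L[ℝ] U48} {ρ : V3} {η : ℝ} (hη : η < 1)
    (h : ∀ u, ‖R (Tf B ρ u) - u‖ ≤ η * ‖u‖) : Function.Injective R := by
  let Tl : U48 →ₗ[ℝ] V3 :=
    { toFun := Tf B ρ
      map_add' := fun u v => by
        funext i
        simp only [Tf, Prod.fst_add, Prod.snd_add, map_add, Pi.add_apply]
        noncomm_ring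
      map_smul' := fun c u => by
        funext i
        simp [Tf, smul_sub] }
  have h1 : Function.Injective (R.toLinearMap ∘ₗ Tl) := by
    refine (injective_iff_map_eq_zero _).2 fun u hu => norm_le_zero_iff.1 ?_
    have := h u
    rw [show R (Tf B ρ u) = 0 from hu, zero_sub, norm_neg] at this
    nlinarith [norm_nonneg u]
  exact (LinearMap.injective_iff_surjective_of_finrank_eq_finrank (f := R.toLinearMap)
    finrank_U48.symm).2 (Function.Surjective.of_comp (LinearMap.injective_iff_surjective.1 h1))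

/-- The exact fixed point, by a quantitative inverse function argument. -/
theorem exists_fixed {ρt : V3} {gt : A4} {B : Cn 9 × T 15 →L[ℝ] V3} {R : V3 →L[ℝ] U48}
    {L ζt : T 15 →L[ℝ] T 15} {lt : Fin 9 → ℂ} {C CY gap η δ0 r0 r1 r2 r : ℝ}
    (h : NF ρt gt B R L ζt lt C CY gap η δ0 r0 r1 r2) (hC : 1 ≤ C) (hr : 0 ≤ r) (hη0 : 0 ≤ η)
    (hη : η ≤ 1 / 100000) (h1 : C * r1 ≤ 1 / 100000) (h2 : C * C * r ≤ 1 / 1000000)
    (h3 : 4 * C * r ≤ r0) (h4 : r0 ≤ r1) (h5 : 2000 * C * δ0 ≤ r) :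
    ∃ (ρ0 : V3) (g0 : A4), ‖ρ0 - ρt‖ ≤ r0 ∧ ‖g0 - gt‖ ≤ r0 ∧ Psi g0 ρ0 = ρ0 := by
  have a0 : 0 ≤ C * r := by positivity
  have a1 : r ≤ C * r := le_mul_of_one_le_left hr hC
  have a2 : C * r ≤ C * C * r := by nlinarith
  have hB : ∀ y, ‖y‖ ≤ r → ‖ρt + B y - ρt‖ ≤ C * r := fun y hy => by
    rw [add_sub_cancel_left]
    exact (h.nB y).trans (mul_le_mul_of_nonneg_left hy (by linarith))
  have hB1 : ∀ y, ‖y‖ ≤ r → ‖ρt + B y - ρt‖ ≤ r1 := fun y hy => (hB y hy).trans (by linarith)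
  have hg : ‖gt - gt‖ ≤ r1 := by rw [sub_self, norm_zero]; linarith
  have hd : ∀ y, ‖y‖ ≤ r → DifferentiableAt ℝ (Psi gt) (ρt + B y) := fun y hy =>
    (analyticAt_Psi (h.unit _ _ (hB1 y hy) hg).1.1 gt).differentiableAt
  have hi := h.inv ρt (by rw [sub_self, norm_zero]; linarith)
  have hz : ∀ x : U48, ‖((x.2.1, 0) : Cn 9 × T 15)‖ ≤ ‖x‖ := fun x => by
    simpa using (norm_fst_le x.2).trans (norm_snd_le x)
  obtain ⟨x, hx, h0⟩ := exists_zero (c := 1 / 1000) (G := fun x : U48 => R fun i =>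
      (1 + iota x.1) * Psi gt (ρt + B (x.2.1, 0)) i - (ρt + B x.2) i * (1 + iota x.1))
    (L := (ContinuousLinearMap.id ℝ _).prodMap ((dg lt - ContinuousLinearMap.id ℝ _).prodMap
      (-ContinuousLinearMap.id ℝ _))) (by norm_num) hr (fun v => by
      have b1 : ‖v.2.1‖ ≤ 1000 * ‖dg lt v.2.1 - v.2.1‖ :=
        (pi_norm_le_iff_of_nonneg (by positivity)).2 fun j => by
          have := norm_le_pi_norm (dg lt v.2.1 - v.2.1) j
          rw [Pi.sub_apply, dg_apply, ← sub_one_mul, norm_mul] at this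
          nlinarith [h.gap3 j, norm_nonneg (v.2.1 j)]
      change _ ≤ max ‖v.1‖ (max ‖dg lt v.2.1 - v.2.1‖ ‖-v.2.2‖)
      rw [norm_neg, div_mul_eq_mul_div, one_mul, div_le_iff₀ (by norm_num)]
      have := le_max_left ‖v.1‖ (max ‖dg lt v.2.1 - v.2.1‖ ‖v.2.2‖)
      have := le_max_right ‖v.1‖ (max ‖dg lt v.2.1 - v.2.1‖ ‖v.2.2‖)
      have := le_max_left ‖dg lt v.2.1 - v.2.1‖ ‖v.2.2‖
      have := le_max_right ‖dg lt v.2.1 - v.2.1‖ ‖v.2.2‖
      have := norm_nonneg v.1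
      exact max_le (by linarith) (max_le (by linarith) (by linarith)))
    (fun x y hx hy => by
      have b1 := f1_mvt R B ((ζt.comp (ContinuousLinearMap.snd ℝ _ _)).prod
        ((dg lt).prodMap (ContinuousLinearMap.id ℝ _))) hη0 hd
        (fun y hy v => (h.lin _ _ (hB1 y hy) hg v).1) ((hz x).trans hx) ((hz y).trans hy)
      have b2 := f1_mvt (ContinuousLinearMap.id ℝ _) B 0 (zero_le_one.trans hC) hd
        (fun y hy v => by simpa using (h.lin _ _ (hB1 y hy) hg v).2)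
        ((hz x).trans hx) ((hz y).trans hy)
      have b3 := h.res1 _ ((hB _ ((hz x).trans hx)).trans (by linarith))
      have b4 := hi ((x - y).1, -(x - y).2)
      have b5 := hz (x - y)
      have b6 : ‖((x - y).1, -(x - y).2)‖ = ‖x - y‖ := by rw [Prod.norm_mk, norm_neg]; rfl
      have b7 := h.nB (x - y).2
      have b8 := (h.nB x.2).trans (mul_le_mul_of_nonneg_left ((norm_snd_le x).trans hx)
        (by linarith))
      rw [show ((x.2.1, 0) - (y.2.1, 0) : Cn 9 × T 15) = ((x - y).2.1, 0) by simp] at b1 b2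
      rw [b6] at b4
      simp only [ContinuousLinearMap.id_apply, zero_apply, sub_zero] at b2
      generalize Psi gt (ρt + B (x.2.1, 0)) = P at *
      generalize Psi gt (ρt + B (y.2.1, 0)) = Q at *
      have c1 := norm_fst_le (x - y)
      have c2 := norm_snd_le (x - y)
      have c3 := (norm_fst_le y).trans hy
      have c4 := norm_nonneg (x - y)
      have d1 := (f1_left (x - y).1 (P - ρt)).trans
        (show _ ≤ 4 * ‖x - y‖ * r1 by gcongr)
      have d2 := (f1_left y.1 (P - Q)).trans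
        (show _ ≤ 4 * r * (C * ‖x - y‖) by gcongr; exact b2.trans (by gcongr))
      have d3 := (f1_right (x - y).1 (B x.2)).trans
        (show _ ≤ 4 * ‖x - y‖ * (C * r) by gcongr)
      have d4 := (f1_right y.1 (B (x - y).2)).trans
        (show _ ≤ 4 * r * (C * ‖x - y‖) by gcongr; exact b7.trans (by gcongr))
      have d5 := (h.nR _).trans (mul_le_mul_of_nonneg_left ((norm_sub_le _ _).trans (add_le_add
        ((norm_add_le _ _).trans (add_le_add d1 d2)) ((norm_add_le _ _).trans (add_le_add d3 d4))))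
        (by linarith))
      refine le_trans (le_of_eq_of_le (congrArg norm ?_) (norm_add₃_le.trans
        (add_le_add_three (b1.trans (mul_le_mul_of_nonneg_left b5 hη0)) b4 d5))) (by nlinarith)
      rw [sub_add_sub_comm, sub_add_eq_add_sub, ← map_sub, ← map_sub, ← map_add, ← map_add]
      congr 1
      · congr 1
        funext i
        simp only [Tf, Prod.fst_sub, Prod.snd_sub, map_sub, map_neg, Pi.add_apply, Pi.sub_apply,
          Pi.neg_apply]
        noncomm_ring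
      · ext <;> simp [sub_eq_add_neg])
    (by
      refine (h.nR _).trans ?_
      have := mul_le_mul_of_nonneg_left h.res0 (show 0 ≤ C by linarith)
      simp only [Prod.fst_zero, Prod.snd_zero, Prod.mk_zero_zero, map_zero, add_zero, one_mul,
        mul_one]
      exact this.trans (by linarith))
  have b1 := (map_eq_zero_iff R (f1_inj (by linarith) hi)).1 h0
  have b2 := (norm_iota_le x.1).trans
    (mul_le_mul_of_nonneg_left ((norm_fst_le x).trans hx) (by norm_num))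
  have b8 : ‖-iota x.1‖ < 1 := by rw [norm_neg]; linarith
  obtain ⟨u, hu⟩ : IsUnit (1 + iota x.1) := ⟨Units.oneSub _ b8, sub_neg_eq_add _ _⟩
  obtain ⟨b3, ⟨g, rfl⟩, -⟩ := h.unit _ _ (hB1 _ ((hz x).trans hx)) hg
  have b4 : Psi (u * g : A4ˣ) (ρt + B (x.2.1, 0)) = ρt + B x.2 := funext fun i => by
    have := sub_eq_zero.1 (congrFun b1 i)
    rw [← hu, ← Units.mul_inv_eq_iff_eq_mul, Psi, Ring.inverse_unit] at this
    rw [← this, Psi, Ring.inverse_unit, mul_inv_rev]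
    simp only [Units.val_mul, mul_assoc]
  have b5 := f1_mvt L B (ContinuousLinearMap.snd ℝ _ _) hη0
    (fun y _ => (analyticAt_kap _).differentiableAt) (fun y hy v => h.cas _ (hB1 y hy) v)
    ((norm_snd_le x).trans hx) ((hz x).trans hx)
  rw [← b4, kap_Psi b3.1 (Units.isUnit _), sub_self, zero_sub, norm_neg] at b5
  have b6 : x.2 - (x.2.1, 0) = (0, x.2.2) := by ext <;> simp
  rw [b6] at b5
  have b7 : x.2.2 = 0 := norm_le_zero_iff.1 (by
    simp only [ContinuousLinearMap.coe_snd', Prod.norm_mk, norm_zero,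
      max_eq_right (norm_nonneg _)] at b5
    nlinarith [norm_nonneg x.2.2])
  refine ⟨_, _, (hB _ ((hz x).trans hx)).trans (by linarith), ?_, b4.trans (by rw [← b7])⟩
  rw [Units.val_mul, hu, add_mul, one_mul, add_sub_cancel_left]
  exact (norm_mul_le _ _).trans ((mul_le_mul b2 h.ng (norm_nonneg _) (by linarith)).trans
    (by linarith))

end Pool.Agent.MP_28624d_gt.K

end

section

/-!
From the numerical facts to stability.
-/

set_option maxSynthPendingDepth 3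

namespace Pool.Agent.MP_28624d_gt.K

open Filter Topology

/-- The frame as a linear map. -/
noncomputable def f3T (B : Cn 9 × T 15 →L[ℝ] V3) (ρ : V3) : U48 →ₗ[ℝ] V3 where
  toFun := Tf B ρ
  map_add' u v := by
    funext i
    simp only [Tf, Prod.fst_add, Prod.snd_add, map_add, Pi.add_apply, add_mul, mul_add]
    abel
  map_smul' c u := by
    funext i
    simp only [Tf, Prod.smul_fst, Prod.smul_snd, map_smul, Pi.add_apply, Pi.smul_apply,
      RingHom.id_apply, smul_add, smul_sub, smul_mul_assoc, mul_smul_comm]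

theorem f3_frame {B : Cn 9 × T 15 →L[ℝ] V3} {R : V3 →L[ℝ] U48} {ρ : V3} {η : ℝ} (h0 : 0 ≤ η)
    (h1 : η ≤ 1 / 2) (h : ∀ u, ‖R (Tf B ρ u) - u‖ ≤ η * ‖u‖) :
    ∃ T0 : U48 ≃L[ℝ] V3, (∀ u, T0 u = Tf B ρ u) ∧ ∀ v, ‖T0.symm v - R v‖ ≤ 2 * η * ‖R v‖ := by
  obtain ⟨N, hN, hN'⟩ := exists_equiv_near
    (A := R.comp (LinearMap.toContinuousLinearMap (f3T B ρ))) h0 h1 h
  have hN2 : ∀ u, N u = R (Tf B ρ u) := hN
  have hinj : Function.Injective (f3T B ρ) := by
    intro u v huv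
    have e : Tf B ρ u = Tf B ρ v := huv
    exact N.injective (by rw [hN2, hN2, e])
  refine ⟨((f3T B ρ).linearEquivOfInjective hinj finrank_U48).toContinuousLinearEquiv,
    fun u => rfl, fun v => ?_⟩
  obtain ⟨u, rfl⟩ :=
    ((f3T B ρ).linearEquivOfInjective hinj finrank_U48).toContinuousLinearEquiv.surjective v
  rw [ContinuousLinearEquiv.symm_apply_apply]
  have e : R (((f3T B ρ).linearEquivOfInjective hinj finrank_U48).toContinuousLinearEquiv u) =
      N u := (hN2 u).symm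
  have h2 := hN' (N u)
  rw [ContinuousLinearEquiv.symm_apply_apply] at h2
  rw [e]
  exact h2

theorem f3_kap_Tf (B : Cn 9 × T 15 →L[ℝ] V3) (ρ : V3) (u : U48) :
    fderiv ℝ kap ρ (Tf B ρ u) = fderiv ℝ kap ρ (B u.2) := by
  rw [Tf, map_add, fderiv_kap_comm, zero_add]

theorem f3_kap_D {ρ : V3} {g : A4} (hρ : Good ρ) (hg : IsUnit g) (hf : Psi g ρ = ρ) (v : V3) :
    fderiv ℝ kap ρ (fderiv ℝ (Psi g) ρ v) = fderiv ℝ kap ρ v := by
  have e : (kap ∘ Psi g) =ᶠ[𝓝 ρ] kap := hρ.eventually.mono fun ρ' h' => kap_Psi h'.1 hg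
  have h1 := fderiv_comp (𝕜 := ℝ) ρ (analyticAt_kap (Psi g ρ)).differentiableAt
    (analyticAt_Psi hρ.1 g).differentiableAt
  rw [e.fderiv_eq, hf] at h1
  conv_rhs => rw [h1]
  rfl

theorem f3_norm_dg {N : ℕ} {l : Fin N → ℂ} {c : ℝ} (hc : 0 ≤ c) (h : ∀ j, ‖l j‖ ≤ c) (z : Cn N) :
    ‖dg l z‖ ≤ c * ‖z‖ := by
  refine (pi_norm_le_iff_of_nonneg (by positivity)).2 fun j => ?_
  rw [dg_apply, norm_mul]
  exact mul_le_mul (h j) (norm_le_pi_norm z j) (norm_nonneg _) hc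

theorem f3_Yv_add (g : A4) (ρ τ τ' s : V3) (X1 X1' X2 : A4) :
    Yv g ρ (τ + τ') s (X1 + X1') X2 = Yv g ρ τ s X1 X2 + Yv g ρ τ' s X1' X2 := by
  funext i
  simp only [Yv, map_add, _root_.add_apply, Pi.add_apply, add_mul, mul_add]
  abel

theorem f3_Yv_smul (g : A4) (ρ τ s : V3) (X1 X2 : A4) (c : ℝ) :
    Yv g ρ (c • τ) s (c • X1) X2 = c • Yv g ρ τ s X1 X2 := by
  funext i
  simp only [Yv, map_smul, _root_.smul_apply, Pi.smul_apply, smul_add, smul_sub,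
    smul_mul_assoc, mul_smul_comm]

theorem f3_frq_add (l a b a' b' : ℂ) : frq l (a + a') (b + b') = frq l a b + frq l a' b' := by
  rw [frq, frq, frq, ← Complex.add_im]
  congr 1
  ring

theorem f3_frq_smul (l a b : ℂ) (c : ℝ) : frq l (c • a) (c • b) = c * frq l a b := by
  rw [frq, frq, ← Complex.im_ofReal_mul, Complex.real_smul, Complex.real_smul]
  congr 1
  ring

theorem f3_frq_sub {l a b a' b' : ℂ} {c e : ℝ} (hl : ‖l‖ ≤ c) (ha : ‖a - a'‖ ≤ e)
    (hb : ‖b - b'‖ ≤ e) : |frq l a b - frq l a' b'| ≤ c * e := by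
  have e1 : frq l a b - frq l a' b' =
      ((starRingEnd ℂ) l * (((a - a') - Complex.I * (b - b')) / 2)).im := by
    rw [frq, frq, ← Complex.sub_im]
    congr 1
    ring
  rw [e1]
  refine (Complex.abs_im_le_norm _).trans ?_
  rw [norm_mul, Complex.norm_conj, norm_div]
  have h1 := norm_sub_le (a - a') (Complex.I * (b - b'))
  rw [norm_mul, Complex.norm_I, one_mul] at h1
  have h2 : ‖(2 : ℂ)‖ = 2 := by simp
  refine mul_le_mul hl ?_ (by positivity) ((norm_nonneg _).trans hl)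
  rw [h2]
  linarith

/-- The frequency map as a linear map. -/
noncomputable def f3F (g : A4) (ρ : V3) (Th : U48 ≃L[ℝ] V3) (ζ : T 15 →L[ℝ] T 15)
    (l : Fin 9 → ℂ) (s s' : Fin 9 → V3) (X X' : Fin 9 → A4) : T 15 →ₗ[ℝ] Fin 9 → ℝ where
  toFun ν j := frq (l j)
    ((Th.symm (Yv g ρ (Th (0, 0, ν)) (s j) (iota (ζ ν)) (X j))).2.1 j)
    ((Th.symm (Yv g ρ (Th (0, 0, ν)) (s' j) (iota (ζ ν)) (X' j))).2.1 j)
  map_add' ν μ := by
    funext j
    have e : ((0, 0, ν + μ) : U48) = (0, 0, ν) + (0, 0, μ) := by simp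
    rw [e, map_add, map_add, map_add, f3_Yv_add, f3_Yv_add, map_add, map_add]
    exact f3_frq_add _ _ _ _ _
  map_smul' c ν := by
    funext j
    have e : ((0, 0, c • ν) : U48) = c • (0, 0, ν) := by simp
    rw [e, map_smul, map_smul, map_smul, f3_Yv_smul, f3_Yv_smul, map_smul, map_smul]
    exact f3_frq_smul _ _ _ _

theorem f3_norm_e15 (k : Fin 9) : ‖e15 k‖ = 1 := by
  simp [e15, Pi.norm_single]

theorem f3_nonres {l lt : Fin 9 → ℂ} {gap e : ℝ} (hg : 0 < gap) (he : 10 * e ≤ gap)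
    (h1 : ∀ j k, j ≠ k → gap ≤ ‖lt j - lt k‖) (h2 : ∀ j k, gap ≤ ‖lt j - (starRingEnd ℂ) (lt k)‖)
    (hl : ∀ j, ‖l j - lt j‖ ≤ e) : Nonres l := by
  refine ⟨fun j k hjk hh => ?_, fun j k hh => ?_⟩
  · have e1 : lt j - lt k = (l k - lt k) - (l j - lt j) := by
      rw [hh]
      ring
    have h3 := norm_sub_le (l k - lt k) (l j - lt j)
    rw [← e1] at h3
    linarith [h1 j k hjk, hl j, hl k]
  · have e1 : lt j - (starRingEnd ℂ) (lt k) = (starRingEnd ℂ) (l k - lt k) - (l j - lt j) := by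
      rw [hh, map_sub]
      ring
    have h3 := norm_sub_le ((starRingEnd ℂ) (l k - lt k)) (l j - lt j)
    rw [← e1, Complex.norm_conj] at h3
    linarith [h2 j k, hl j, hl k]

theorem f3_inj {L : T 15 →L[ℝ] T 15} {k : Cn 9 × T 15 →L[ℝ] T 15}
    {D : Cn 9 × T 15 → T 15} (hk : ∀ y, k y = L (D y)) {Q : Cn 9 × T 15 → Cn 9 × T 15}
    (hQ : ∀ y, k (Q y) = y.2) : Function.Injective L := by
  have hs : Function.Surjective L := fun t => ⟨D (Q (0, t)), by rw [← hk, hQ]⟩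
  exact (LinearMap.injective_iff_surjective (f := (L : T 15 →ₗ[ℝ] T 15))).2 hs

/-- The exact linear normal form with its distance to the numerical one. -/
theorem f3_lin {ρt : V3} {gt : A4} {B : Cn 9 × T 15 →L[ℝ] V3} {R : V3 →L[ℝ] U48}
    {L ζt : T 15 →L[ℝ] T 15} {lt : Fin 9 → ℂ} {C CY gap η η' δ0 r0 r1 r2 : ℝ}
    (h : NF ρt gt B R L ζt lt C CY gap η δ0 r0 r1 r2) (hC : 1 ≤ C) (hη0 : 0 ≤ η)
    (hη : η ≤ 1 / 100000) (hg : 0 < gap) (hg1 : gap ≤ 1)
    (h6 : 100000000 * C * η ≤ gap ^ 2) (h7 : 100000000 * C * η ≤ η' * gap)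
    (h9 : 10 * η' ≤ gap) {ρ0 : V3} {g0 : A4} (hρ : ‖ρ0 - ρt‖ ≤ r1) (hg0 : ‖g0 - gt‖ ≤ r1)
    (hf : Psi g0 ρ0 = ρ0) :
    ∃ (Th : U48 ≃L[ℝ] V3) (χ : Cn 9 →L[ℝ] T 15) (ζ : T 15 →L[ℝ] T 15) (l : Fin 9 → ℂ),
      Lin ρ0 g0 L Th χ ζ l ∧ (∀ y, ‖Th (0, y) - B y‖ ≤ C * η' * ‖y‖) ∧
      (∀ v, ‖(Th.symm v).2 - (R v).2‖ ≤ 4 * η' * ‖R v‖) ∧ (∀ z, ‖χ z‖ ≤ C * η' * ‖z‖) ∧
      (∀ t, ‖ζ t - ζt t‖ ≤ C * η' * ‖t‖) ∧ ∀ j, ‖l j - lt j‖ ≤ η' := by
  obtain ⟨hgood, hunit, hdet⟩ := h.unit ρ0 g0 hρ hg0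
  obtain ⟨T0, hT, hT'⟩ := f3_frame hη0 (by linarith) (h.inv ρ0 hρ)
  have hCη : η ≤ C * η := le_mul_of_one_le_left hη0 hC
  have hη'0 : 0 ≤ η' := by
    by_contra hneg
    have := mul_neg_of_neg_of_pos (not_le.1 hneg) hg
    nlinarith
  have hη'1 : 100000000 * η ≤ η' := by
    have := mul_le_of_le_one_right hη'0 hg1
    nlinarith
  have hM : ∀ y : Cn 9 × T 15, ‖((T0.symm : V3 →L[ℝ] U48).comp ((fderiv ℝ (Psi g0) ρ0).comp B)) y -
      (ζt y.2, dg lt y.1, y.2)‖ ≤ 10 * C * η * ‖y‖ := by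
    intro y
    have a1 := (h.lin ρ0 g0 hρ hg0 y).1
    have a2 := hT' (fderiv ℝ (Psi g0) ρ0 (B y))
    have hy := norm_nonneg y
    have hCy : ‖y‖ ≤ C * ‖y‖ := le_mul_of_one_le_left hy hC
    have a3 : ‖((ζt y.2, dg lt y.1, y.2) : U48)‖ ≤ 2 * (C * ‖y‖) := by
      have b1 := norm_fst_le y
      have b2 := norm_snd_le y
      have b3 := (h.nζ y.2).trans (mul_le_mul_of_nonneg_left b2 (by linarith))
      have b4 := f3_norm_dg (by norm_num) h.nl y.1
      rw [Prod.norm_def, Prod.norm_def]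
      refine max_le ?_ (max_le ?_ ?_) <;> dsimp only <;> linarith
    have a4 := norm_le_norm_add_norm_sub' (R (fderiv ℝ (Psi g0) ρ0 (B y)))
      (ζt y.2, dg lt y.1, y.2)
    have a5 := norm_sub_le_norm_sub_add_norm_sub (T0.symm (fderiv ℝ (Psi g0) ρ0 (B y)))
      (R (fderiv ℝ (Psi g0) ρ0 (B y))) (ζt y.2, dg lt y.1, y.2)
    have a6 : η * ‖y‖ ≤ ‖y‖ := mul_le_of_le_one_left hy (by linarith)
    have a7 : 2 * η * ‖R (fderiv ℝ (Psi g0) ρ0 (B y))‖ ≤ 2 * η * (3 * (C * ‖y‖)) :=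
      mul_le_mul_of_nonneg_left (by linarith) (by linarith)
    have a8 : η * ‖y‖ ≤ η * (C * ‖y‖) := mul_le_mul_of_nonneg_left hCy hη0
    have a9 : 0 ≤ η * (C * ‖y‖) := by positivity
    change ‖T0.symm (fderiv ℝ (Psi g0) ρ0 (B y)) - (ζt y.2, dg lt y.1, y.2)‖ ≤ _
    nlinarith
  have hk : ∀ y : Cn 9 × T 15, ‖(L.comp ((fderiv ℝ kap ρ0).comp B)) y - y.2‖ ≤
      10 * C * η * ‖y‖ := by
    intro y
    refine (h.cas ρ0 hρ y).trans (mul_le_mul_of_nonneg_right ?_ (norm_nonneg y))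
    nlinarith
  have hkM : ∀ y : Cn 9 × T 15, (L.comp ((fderiv ℝ kap ρ0).comp B))
      (((T0.symm : V3 →L[ℝ] U48).comp ((fderiv ℝ (Psi g0) ρ0).comp B)) y).2 =
      (L.comp ((fderiv ℝ kap ρ0).comp B)) y := by
    intro y
    change L (fderiv ℝ kap ρ0 (B (T0.symm (fderiv ℝ (Psi g0) ρ0 (B y))).2)) =
      L (fderiv ℝ kap ρ0 (B y))
    rw [← f3_kap_Tf, ← hT, ContinuousLinearEquiv.apply_symm_apply, f3_kap_D hgood hunit hf]
  obtain ⟨Q, χ, ζ, l, q1, q2, q3, q4, q5, q6, q7⟩ := normal_form (η' := η') hg hg1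
    (by positivity) hC hk hM hkM h.nl h.gap1 h.gap2 h.gap3 h.nζ (by push_cast; linarith)
    (by push_cast; linarith) (by linarith)
  have hTh : ∀ u : U48, (((ContinuousLinearEquiv.refl ℝ (T 15)).prodCongr Q).trans T0) u =
      T0 (u.1, Q u.2) := fun u => rfl
  have hTh' : ∀ v : V3, ((((ContinuousLinearEquiv.refl ℝ (T 15)).prodCongr Q).trans T0).symm v).2 =
      Q.symm (T0.symm v).2 := fun v => rfl
  generalize ((ContinuousLinearEquiv.refl ℝ (T 15)).prodCongr Q).trans T0 = Th at hTh hTh'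
  have hT0 : ∀ y, T0 (0, y) = B y := by
    intro y
    rw [hT]
    funext i
    simp [Tf]
  refine ⟨Th, χ, ζ, l, ⟨hgood, hunit, hdet, hf,
    f3_inj (D := fun y => fderiv ℝ kap ρ0 (B y)) (fun y => rfl) q3, fun X => ?_, fun u => ?_,
    fun z t => ?_⟩, fun y => ?_, fun v => ?_, q5, q6, q7⟩
  · have e : ((0, 0) : Cn 9 × T 15) = 0 := rfl
    rw [hTh, hT, Tf]
    dsimp only
    rw [e, map_zero, map_zero, add_zero]
  · rw [hTh, hT, f3_kap_Tf]
    exact q3 u.2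
  · rw [hTh, hTh, hT0]
    dsimp only
    rw [← q4 z t]
    exact (T0.apply_symm_apply _).symm
  · rw [hTh, hT0, ← map_sub]
    refine (h.nB _).trans ?_
    rw [mul_assoc]
    exact mul_le_mul_of_nonneg_left (q1 y) (by linarith)
  · rw [hTh']
    have a1 := hT' v
    have a2 := q2 (T0.symm v).2
    have a3 : ‖(T0.symm v).2 - (R v).2‖ ≤ ‖T0.symm v - R v‖ := norm_snd_le (T0.symm v - R v)
    have a4 := norm_sub_le_norm_sub_add_norm_sub (Q.symm (T0.symm v).2) (T0.symm v).2 (R v).2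
    have a5 := norm_snd_le (T0.symm v)
    have a6 := norm_le_norm_add_norm_sub' (T0.symm v) (R v)
    have hv := norm_nonneg (R v)
    have a7 : 2 * η * ‖R v‖ ≤ ‖R v‖ := mul_le_of_le_one_left hv (by linarith)
    have a8 : η' * ‖(T0.symm v).2‖ ≤ η' * (2 * ‖R v‖) :=
      mul_le_mul_of_nonneg_left (by linarith) hη'0
    have a9 : 2 * η * ‖R v‖ ≤ η' * ‖R v‖ := mul_le_mul_of_nonneg_right (by linarith) hv
    have a10 : 0 ≤ η' * ‖R v‖ := by positivity
    nlinarith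

/-- Take ρ0, g0 from exists_fixed, the exact normal form from f3_lin, and apply stab_of_lin. -/
theorem stab_of_nf {ρt : V3} {gt : A4} {B : Cn 9 × T 15 →L[ℝ] V3} {R : V3 →L[ℝ] U48}
    {L ζt : T 15 →L[ℝ] T 15} {lt : Fin 9 → ℂ} {C CY gap η η' δ0 r0 r1 r2 r : ℝ}
    (h : NF ρt gt B R L ζt lt C CY gap η δ0 r0 r1 r2) (hC : 1 ≤ C) (hr : 0 ≤ r) (hη0 : 0 ≤ η)
    (hη : η ≤ 1 / 100000) (h1 : C * r1 ≤ 1 / 100000) (h2 : C * C * r ≤ 1 / 1000000)
    (h3 : 4 * C * r ≤ r0) (h4 : r0 ≤ r1) (h5 : 2000 * C * δ0 ≤ r) (hg : 0 < gap) (hg1 : gap ≤ 1)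
    (h6 : 100000000 * C * η ≤ gap ^ 2) (h7 : 100000000 * C * η ≤ η' * gap)
    (h8 : 4 * C * η' ≤ r2) (h9 : 10 * η' ≤ gap) (hY : 0 ≤ CY) (h10 : 2000 * η' * C * CY ≤ 1) :
    ∃ ρ0 : V3, ‖ρ0 - ρt‖ ≤ r0 ∧ Good ρ0 ∧ Stab ρ0 := by
  obtain ⟨ρ0, g0, hρ0, hg0, hf⟩ := exists_fixed h hC hr hη0 hη h1 h2 h3 h4 h5
  have hρ := hρ0.trans h4
  have hg' := hg0.trans h4
  obtain ⟨Th, χ, ζ, l, hL, p1, p2, p3, p4, p5⟩ := f3_lin h hC hη0 hη hg hg1 h6 h7 h9 hρ hg' hf
  have hη'0 : 0 ≤ η' := (norm_nonneg _).trans (p5 0)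
  have hCη : η' ≤ C * η' := le_mul_of_one_le_left hη'0 hC
  have n1 : ∀ j : Fin 9, ‖(Pi.single j 1 : Cn 9)‖ = 1 := fun j => by simp [Pi.norm_single]
  have nI : ∀ j : Fin 9, ‖(Pi.single j Complex.I : Cn 9)‖ = 1 := fun j => by
    simp [Pi.norm_single]
  have s1 : ∀ z : Cn 9, ‖z‖ = 1 → ‖Th (0, z, 0) - B (z, 0)‖ ≤ r2 := fun z hz => by
    have a1 := p1 (z, 0)
    have e : ‖((z, 0) : Cn 9 × T 15)‖ = 1 := by simp [Prod.norm_def, hz]
    rw [e] at a1
    linarith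
  have s2 : ∀ k, ‖Th (0, 0, e15 k) - B (0, e15 k)‖ ≤ r2 := fun k => by
    have a1 := p1 (0, e15 k)
    have e : ‖((0, e15 k) : Cn 9 × T 15)‖ = 1 := by simp [Prod.norm_def, f3_norm_e15]
    rw [e] at a1
    linarith
  have s3 : ∀ k, ‖iota (ζ (e15 k)) - iota (ζt (e15 k))‖ ≤ r2 := fun k => by
    have a1 := p4 (e15 k)
    have a2 := norm_iota_le (ζ (e15 k) - ζt (e15 k))
    rw [f3_norm_e15] at a1
    rw [map_sub] at a2
    linarith
  have s4 : ∀ z : Cn 9, ‖z‖ = 1 → ‖iota (χ z)‖ ≤ r2 := fun z hz => by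
    have a1 := p3 z
    have a2 := norm_iota_le (χ z)
    rw [hz] at a1
    linarith
  have s5 : ∀ (v : V3) (j : Fin 9), ‖v‖ ≤ CY → ‖(Th.symm v).2.1 j - (R v).2.1 j‖ ≤ 1 / 500 := by
    intro v j hv
    have a1 : ‖(Th.symm v).2.1 j - (R v).2.1 j‖ ≤ ‖(Th.symm v).2 - (R v).2‖ :=
      (norm_le_pi_norm ((Th.symm v).2 - (R v).2).1 j).trans (norm_fst_le _)
    have a2 : ‖R v‖ ≤ C * CY := (h.nR v).trans (mul_le_mul_of_nonneg_left hv (by linarith))
    have a3 : 4 * η' * ‖R v‖ ≤ 4 * η' * (C * CY) := mul_le_mul_of_nonneg_left a2 (by linarith)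
    have a4 := p2 v
    linarith
  refine ⟨ρ0, hρ0, hL.good, stab_of_lin hL (f3_nonres hg h9 h.gap1 h.gap2 p5)
    (fun j => h.krein ρ0 hρ j _ _ (s1 _ (n1 j)) (s1 _ (nI j))) ?_⟩
  refine surjective_of_near (F := f3F g0 ρ0 Th ζ l (fun j => Th (0, Pi.single j 1, 0))
    (fun j => Th (0, Pi.single j Complex.I, 0)) (fun j => iota (χ (Pi.single j 1)))
    (fun j => iota (χ (Pi.single j Complex.I)))) (e := e15) fun j k => ?_
  have b1 := h.freq ρ0 g0 hρ hg' j k _ _ _ _ _ _ (l j) (s2 k) (s1 _ (n1 j)) (s1 _ (nI j)) (s3 k)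
    (s4 _ (n1 j)) (s4 _ (nI j)) ((p5 j).trans (by linarith))
  have b2 := h.size ρ0 g0 hρ hg' j k _ _ _ _ (s2 k) (Or.inl (s1 _ (n1 j))) (s3 k) (s4 _ (n1 j))
  have b3 := h.size ρ0 g0 hρ hg' j k _ _ _ _ (s2 k) (Or.inr (s1 _ (nI j))) (s3 k) (s4 _ (nI j))
  have b4 : ‖l j‖ ≤ 3 := by
    have := norm_le_norm_add_norm_sub' (l j) (lt j)
    linarith [p5 j, h.nl j]
  have b5 := f3_frq_sub b4 (s5 _ j b2) (s5 _ j b3)
  refine (abs_sub_le _ _ _).trans ((add_le_add b5 b1).trans (by norm_num))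

end Pool.Agent.MP_28624d_gt.K

end

section

/-!
From Lebesgue measure on triples of matrices to Haar measure on triples in SL(4,R).
-/

set_option maxSynthPendingDepth 3

namespace Pool.Agent.MP_28624d_gt.K

open Filter Topology MeasureTheory

/-- The fourth root. -/
noncomputable def r4 (d : ℝ) : ℝ := √(√d)

theorem r4_pos {d : ℝ} (h : 0 < d) : 0 < r4 d := Real.sqrt_pos.2 (Real.sqrt_pos.2 h)

theorem r4_pow {d : ℝ} (h : 0 ≤ d) : r4 d ^ 4 = d := by
  have e : r4 d ^ 4 = (r4 d ^ 2) ^ 2 := by ring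
  rw [e, r4, Real.sq_sqrt (Real.sqrt_nonneg _), Real.sq_sqrt h]

theorem r4_of {c : ℝ} (h : 0 ≤ c) : r4 (c ^ 4) = c := by
  have e : c ^ 4 = (c ^ 2) ^ 2 := by ring
  rw [e, r4, Real.sqrt_sq (sq_nonneg c), Real.sqrt_sq h]

theorem r4_det {x : A4} (h : 0 < x.det) : ((r4 x.det)⁻¹ • x).det = 1 := by
  rw [Matrix.det_smul, Fintype.card_fin, inv_pow, r4_pow h.le, inv_mul_cancel₀ h.ne']

open Classical in
/-- Normalization of the determinants. -/
noncomputable def nrm (ρ : V3) : Fin 3 → L4.G :=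
  if h : ∀ i, 0 < (ρ i).det then fun i => ⟨(r4 (ρ i).det)⁻¹ • ρ i, r4_det (h i)⟩ else 1

theorem nrm_val {ρ : V3} (h : ∀ i, 0 < (ρ i).det) (i : Fin 3) :
    (nrm ρ i).1 = (r4 (ρ i).det)⁻¹ • ρ i := by
  rw [nrm, dif_pos h]

theorem nrm_eq {ρ : V3} {x : Fin 3 → L4.G} (h : ∀ i, ∃ c : ℝ, 0 < c ∧ ρ i = c • (x i).1) :
    nrm ρ = x := by
  choose c hc hx using h
  have hd : ∀ i, (ρ i).det = c i ^ 4 := fun i => by
    rw [hx, Matrix.det_smul, Fintype.card_fin, (x i).2, mul_one]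
  funext i
  apply Subtype.ext
  rw [nrm_val fun i => (hd i).symm ▸ pow_pos (hc i) 4, hd, r4_of (hc i).le, hx, smul_smul,
    inv_mul_cancel₀ (hc i).ne', one_smul]

theorem h1_det : Continuous fun x : A4 => x.det := continuous_id.matrix_det

theorem h1_emb : IsClosedEmbedding (Subtype.val : L4.G → A4) :=
  (isClosed_eq h1_det continuous_const).isClosedEmbedding_subtypeVal

theorem h1_open : IsOpen {ρ : V3 | ∀ i, 0 < (ρ i).det} := by
  rw [Set.ofPred_forall]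
  exact isOpen_iInter_of_finite fun i =>
    isOpen_lt continuous_const (h1_det.comp (continuous_apply i))

theorem nrm_contOn : ContinuousOn nrm {ρ : V3 | ∀ i, 0 < (ρ i).det} := by
  refine continuousOn_pi.2 fun i => h1_emb.isInducing.continuousOn_iff.2 ?_
  have h1 : Continuous fun ρ : V3 => r4 (ρ i).det :=
    (h1_det.comp (continuous_apply i)).sqrt.sqrt
  have h2 : ContinuousOn (fun ρ : V3 => (r4 (ρ i).det)⁻¹) {ρ : V3 | ∀ i, 0 < (ρ i).det} :=
    h1.continuousOn.inv₀ fun ρ h => (r4_pos (h i)).ne'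
  exact (h2.smul (continuous_apply i).continuousOn).congr fun ρ h => nrm_val h i

/-- A positive set of triples of matrices normalizes to a set of positive Haar measure. -/
theorem haar_pos [MeasurableSpace L4.G] [BorelSpace L4.G] (μ : Measure L4.G) [μ.IsHaarMeasure]
    {S : Set V3} (hS : Pos S) {W : Set (Fin 3 → L4.G)}
    (h : ∀ ρ ∈ S, ∃ x ∈ W, ∀ i, ∃ c : ℝ, 0 < c ∧ ρ i = c • (x i).1) :
    (Measure.pi fun _ : Fin 3 => μ) W ≠ 0 := by
  intro h0
  let : MeasurableSpace V3 := borel V3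
  have : BorelSpace V3 := ⟨rfl⟩
  have : ProperSpace A4 := FiniteDimensional.proper ℝ A4
  have : LocallyCompactSpace L4.G := h1_emb.locallyCompactSpace
  have : SecondCountableTopology L4.G := h1_emb.isEmbedding.secondCountableTopology
  obtain ⟨W', hW, mW, h0'⟩ := exists_measurable_superset_of_null h0
  set ν : Measure (Fin 3 → L4.G) := Measure.pi fun _ : Fin 3 => μ with hν
  let vol : Measure V3 := Measure.addHaar
  have hm : Measurable nrm := by
    classical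
    have h2 : ContinuousOn nrm {ρ : V3 | ∀ i, 0 < (ρ i).det}ᶜ :=
      continuousOn_const.congr fun ρ h => dif_neg h
    have := nrm_contOn.measurable_piecewise h2 h1_open.measurableSet
    rwa [Set.piecewise_same] at this
  have h1 : ∀ᵐ g ∂ν, ∀ᵐ ρ ∂vol, g * nrm ρ ∉ W' := by
    refine (Measure.ae_ae_comm (p := fun g ρ => g * nrm ρ ∉ W') ?_).2
      (Eventually.of_forall fun ρ => ?_)
    · exact (measurable_fst.mul (hm.comp measurable_snd)) mW.compl
    · exact (measure_mul_right_null ν (nrm ρ)).2 h0' |> measure_mono_null fun g hg => not_not.1 hg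
  obtain ⟨g, hg⟩ := h1.exists
  let Lg : V3 →ₗ[ℝ] V3 :=
    LinearMap.pi fun i => (LinearMap.mulLeft ℝ (g i).1).comp (LinearMap.proj i)
  have h3 : vol (Lg '' {ρ | ¬g * nrm ρ ∉ W'}) = 0 := by
    rw [Measure.addHaar_image_linearMap, ae_iff.1 hg, mul_zero]
  refine (pos_iff vol S).1 hS (measure_mono_null (fun ρ hρ => ?_) h3)
  obtain ⟨x, hx, hc⟩ := h ρ hρ
  refine ⟨fun i => ((g i)⁻¹).1 * ρ i, ?_, ?_⟩
  · have e : nrm (fun i => ((g i)⁻¹).1 * ρ i) = g⁻¹ * x := nrm_eq fun i => by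
      obtain ⟨c, c0, hc⟩ := hc i
      exact ⟨c, c0, by rw [hc, Matrix.mul_smul]; rfl⟩
    rw [Set.mem_ofPred_eq, not_not, e, mul_inv_cancel_left]
    exact hW hx
  · funext i
    change (g i).1 * (((g i)⁻¹).1 * ρ i) = ρ i
    rw [← mul_assoc, ← Matrix.SpecialLinearGroup.coe_mul, mul_inv_cancel,
      Matrix.SpecialLinearGroup.coe_one, one_mul]

end Pool.Agent.MP_28624d_gt.K

end

section

/-!
From stability near a fixed point to the set W.
-/

set_option maxSynthPendingDepth 3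

namespace Pool.Agent.MP_28624d_gt.K

open Filter Topology MeasureTheory

/-- Up to conjugation and unit complex scalars the triple is entrywise close to the reference. -/
def NearV (η : ℝ) (ρ : V3) : Prop :=
  ∃ ρ' : V3, Cj ρ ρ' ∧ ∀ i, ∃ u : ℂ, ‖u‖ = 1 ∧ ∀ a b, |ρ' i a b - L4.rl (u • L4.M0 i) a b| ≤ η

theorem h2_mul (x y : L4.G) : (x * y).1 = x.1 * y.1 := rfl

theorem h2_inv (x : L4.G) {c : ℝ} (hc : 0 < c) : Ring.inverse (c • x.1) = c⁻¹ • (x⁻¹).1 := by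
  refine Ring.inverse_unit ⟨c • x.1, c⁻¹ • (x⁻¹).1, ?_, ?_⟩
  · rw [smul_mul_smul_comm, mul_inv_cancel₀ hc.ne', one_smul, ← h2_mul, mul_inv_cancel]
    rfl
  · rw [smul_mul_smul_comm, inv_mul_cancel₀ hc.ne', one_smul, ← h2_mul, inv_mul_cancel]
    rfl

theorem h2_sc {ρ : V3} (h : ∀ i, 0 < (ρ i).det) (i : Fin 3) :
    ρ i = r4 (ρ i).det • (nrm ρ i).1 := by
  rw [nrm_val h, smul_smul, mul_inv_cancel₀ (r4_pos (h i)).ne', one_smul]

/-- The braid on triples of group elements. -/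
def h2ph (x : Fin 3 → L4.G) : Fin 3 → L4.G := ![x 0 * x 1 * (x 0)⁻¹, x 2, (x 2)⁻¹ * x 0 * x 2]

theorem h2_lift (x : Fin 3 → L4.G) (w : L4.F) :
    FreeGroup.lift x (L4.phi w) = FreeGroup.lift (h2ph x) w := by
  have e : (FreeGroup.lift x).comp L4.phiF = FreeGroup.lift (h2ph x) := by
    refine FreeGroup.ext_hom _ _ fun i => ?_
    fin_cases i <;> simp [L4.phiF, h2ph]
  exact DFunLike.congr_fun e w

theorem h2_phi1 {c : Fin 3 → ℝ} (hc : ∀ i, 0 < c i) (x : Fin 3 → L4.G) (i : Fin 3) :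
    ∃ j, phi1 (fun i => c i • (x i).1) i = c j • (h2ph x i).1 := by
  fin_cases i
  · refine ⟨1, ?_⟩
    change c 0 • (x 0).1 * c 1 • (x 1).1 * Ring.inverse (c 0 • (x 0).1) =
      c 1 • ((x 0).1 * (x 1).1 * ((x 0)⁻¹).1)
    rw [h2_inv _ (hc 0), smul_mul_smul_comm, smul_mul_smul_comm, mul_right_comm,
      mul_inv_cancel₀ (hc 0).ne', one_mul]
  · exact ⟨2, rfl⟩
  · refine ⟨0, ?_⟩
    change Ring.inverse (c 2 • (x 2).1) * c 0 • (x 0).1 * c 2 • (x 2).1 =
      c 0 • (((x 2)⁻¹).1 * (x 0).1 * (x 2).1)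
    rw [h2_inv _ (hc 2), smul_mul_smul_comm, smul_mul_smul_comm, mul_right_comm,
      inv_mul_cancel₀ (hc 2).ne', one_mul]

theorem h2_step {ρ : V3} (h : ∀ i, 0 < (ρ i).det) :
    nrm (phi1 ρ) = h2ph (nrm ρ) ∧ ∀ i, ∃ j, (phi1 ρ i).det = (ρ j).det := by
  have e : ρ = fun i => r4 (ρ i).det • (nrm ρ i).1 := funext (h2_sc h)
  have k := h2_phi1 (fun i => r4_pos (h i)) (nrm ρ)
  rw [← e] at k
  refine ⟨nrm_eq fun i => ?_, fun i => ?_⟩
  · obtain ⟨j, hj⟩ := k i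
    exact ⟨_, r4_pos (h j), hj⟩
  · obtain ⟨j, hj⟩ := k i
    exact ⟨j, by rw [hj, Matrix.det_smul, Fintype.card_fin, (h2ph (nrm ρ) i).2, mul_one,
      r4_pow (h j).le]⟩

theorem h2_iter (r : ℕ) : ∀ {ρ : V3}, (∀ i, 0 < (ρ i).det) →
    (∀ w, FreeGroup.lift (nrm ρ) ((L4.phi ^ r) w) = FreeGroup.lift (nrm (phi1^[r] ρ)) w) ∧
      ∀ i, ∃ j, (phi1^[r] ρ i).det = (ρ j).det := by
  induction r with
  | zero => exact fun _ => ⟨fun w => rfl, fun i => ⟨i, rfl⟩⟩
  | succ r ih =>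
    intro ρ h
    obtain ⟨h1, h2⟩ := h2_step h
    obtain ⟨h3, h4⟩ := ih (ρ := phi1 ρ) fun i => by
      obtain ⟨j, hj⟩ := h2 i
      exact hj ▸ h j
    refine ⟨fun w => ?_, fun i => ?_⟩
    · rw [pow_succ', MulAut.mul_apply, h2_lift, ← h1, h3]
      rfl
    · obtain ⟨j, hj⟩ := h4 i
      obtain ⟨l, hl⟩ := h2 j
      exact ⟨l, hj.trans hl⟩

theorem h2_cj_det {ρ ρ' : V3} (h : Cj ρ ρ') (i : Fin 3) : (ρ' i).det = (ρ i).det := by
  obtain ⟨g, gi, h1, -, -, h4⟩ := h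
  have e : g.det * gi.det = 1 := by rw [← Matrix.det_mul, h1, Matrix.det_one]
  rw [h4, Matrix.det_mul, Matrix.det_mul, mul_right_comm, e, one_mul]

theorem h2_cj {ρ ρ' : V3} (h : Cj ρ ρ') (hp : ∀ i, 0 < (ρ i).det) :
    ∃ g : L4.G, ∀ w, FreeGroup.lift (nrm ρ') w = g * FreeGroup.lift (nrm ρ) w * g⁻¹ := by
  obtain ⟨g, gi, h1, h2, h3, h4⟩ := h
  let g' : L4.G := ⟨(r4 g.det)⁻¹ • g, r4_det h3⟩
  have e1 : g = r4 g.det • g'.1 := by
    rw [smul_smul, mul_inv_cancel₀ (r4_pos h3).ne', one_smul]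
  have e2 : gi = (r4 g.det)⁻¹ • (g'⁻¹).1 := by
    rw [← h2_inv g' (r4_pos h3), ← e1]
    exact (Ring.inverse_unit ⟨g, gi, h1, h2⟩).symm
  have e3 : nrm ρ' = fun i => g' * nrm ρ i * g'⁻¹ := nrm_eq fun i => ⟨_, r4_pos (hp i), by
    rw [h4, e2]
    conv_lhs => rw [h2_sc hp i, e1]
    rw [smul_mul_smul_comm, smul_mul_smul_comm, ← e1, mul_right_comm,
      mul_inv_cancel₀ (r4_pos h3).ne', one_mul]
    rfl⟩
  have e4 : FreeGroup.lift (nrm ρ') =
      (MulAut.conj g').toMonoidHom.comp (FreeGroup.lift (nrm ρ)) := by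
    refine FreeGroup.ext_hom _ _ fun i => ?_
    simp [e3]
  exact ⟨g', fun w => by rw [e4]; rfl⟩

theorem h2_orbit {σ : L4.F →* L4.G} {τ : ℤ → L4.F →* L4.G} {f : MulAut L4.F}
    (h0 : ∃ g, ∀ w, τ 0 w = g * σ w * g⁻¹)
    (h1 : ∀ n, ∃ g, ∀ w, τ (n + 1) w = g * τ n (f w) * g⁻¹) (q : ℤ) :
    ∃ g, ∀ w, τ q w = g * σ ((f ^ q) w) * g⁻¹ := by
  induction q using Int.induction_on with
  | zero => exact h0
  | succ n ih =>
    obtain ⟨g, hg⟩ := ih
    obtain ⟨g', hg'⟩ := h1 n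
    refine ⟨g' * g, fun w => ?_⟩
    rw [hg', hg, zpow_add_one, MulAut.mul_apply]
    group
  | pred n ih =>
    obtain ⟨g, hg⟩ := ih
    obtain ⟨g', hg'⟩ := h1 (-n - 1)
    refine ⟨g'⁻¹ * g, fun w => ?_⟩
    have e := hg' (f⁻¹ w)
    rw [sub_add_cancel, hg, MulAut.apply_inv_self] at e
    rw [zpow_sub_one, MulAut.mul_apply, mul_inv_rev, inv_inv]
    calc τ (-n - 1) w = g'⁻¹ * (g' * τ (-n - 1) w * g'⁻¹) * g' := by group
      _ = _ := by rw [← e]; group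

theorem h2_rl {M : Matrix (Fin 2) (Fin 2) ℂ} (h : ∀ a b, ‖M a b‖ ≤ 3) (a b : Fin 4) :
    |L4.rl M a b| ≤ 3 := by
  have h1 := fun a b => (Complex.abs_re_le_norm (M a b)).trans (h a b)
  have h2 := fun a b => (Complex.abs_im_le_norm (M a b)).trans (h a b)
  fin_cases a <;> fin_cases b <;> simp [L4.rl, h1, h2]

theorem h2_est {e d x m : ℝ} (he1 : e ≤ 1) (hd : |d - 1| < e / 500) (hm : |m| ≤ 3)
    (hx : |x - m| < e / 2) : |(r4 d)⁻¹ * x - m| ≤ e := by
  obtain ⟨d1, d2⟩ := abs_lt.1 hd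
  have d0 : 0 < d := by linarith
  have t0 := r4_pos d0
  have t4 := r4_pow d0.le
  set t := r4 d
  have h1 : |t - 1| ≤ |d - 1| := by
    have e1 : d - 1 = (t - 1) * (t ^ 3 + t ^ 2 + t + 1) := by rw [← t4]; ring
    rw [e1, abs_mul]
    refine le_mul_of_one_le_right (abs_nonneg _) ((le_abs_self _).trans' ?_)
    have : 0 ≤ t ^ 3 + t ^ 2 + t := by positivity
    linarith
  obtain ⟨t1, t2⟩ := abs_lt.1 (h1.trans_lt hd)
  have e2 : t⁻¹ * x - m = t⁻¹ * ((x - m) - (t - 1) * m) := by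
    field_simp
    ring
  have h3 : |(t - 1) * m| ≤ e / 500 * 3 := by
    rw [abs_mul]
    exact mul_le_mul (h1.trans hd.le) hm (abs_nonneg _) (by linarith)
  rw [e2, abs_mul, abs_of_pos (inv_pos.2 t0), inv_mul_le_iff₀ t0]
  have h4 := abs_sub (x - m) ((t - 1) * m)
  nlinarith

/-- Stability near a triple close to the reference gives the set W positive measure. -/
theorem kam_of_stab [MeasurableSpace L4.G] [BorelSpace L4.G] (μ : Measure L4.G) [μ.IsHaarMeasure]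
    {ρ0 : V3} (hg : Good ρ0) (hs : Stab ρ0) (he : 0 < L4.eta) (he1 : L4.eta ≤ 1)
    (hM : ∀ i a b, ‖L4.M0 i a b‖ ≤ 3) (hd : ∀ i, |(ρ0 i).det - 1| ≤ L4.eta / 1000)
    (hn : ∀ r : Fin 3, NearV (L4.eta / 4) (phi1^[r] ρ0)) :
    (Measure.pi fun _ : Fin 3 => μ) L4.W ≠ 0 := by
  unfold NearV Cj at hn
  choose ρ' hρ' u hu1 hu2 using hn
  choose g gi g1 g2 g3 g4 using hρ'
  have hc : ∀ r : ℕ, ContinuousAt (phi1^[r]) ρ0 ∧ ∀ i, IsUnit (phi1^[r] ρ0 i) := by
    intro r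
    induction r with
    | zero => exact ⟨continuousAt_id, hg.1⟩
    | succ r ih =>
      rw [Function.iterate_succ']
      exact ⟨(analyticAt_phi1 ih.2).continuousAt.comp ih.1, isUnit_phi1 ih.2⟩
  have hU : {ρ : V3 | (∀ i, |(ρ i).det - 1| < L4.eta / 500) ∧ ∀ (r : Fin 3) i a b,
      |(g r * phi1^[r] ρ i * gi r) a b - L4.rl (u r i • L4.M0 i) a b| < L4.eta / 2} ∈ 𝓝 ρ0 := by
    refine Eventually.and (eventually_all.2 fun i => ?_) (eventually_all.2 fun r =>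
      eventually_all.2 fun i => eventually_all.2 fun a => eventually_all.2 fun b => ?_)
    · exact ((h1_det.comp (continuous_apply i)).sub continuous_const).abs.continuousAt.eventually_lt
        continuousAt_const ((hd i).trans_lt (by linarith))
    · have c1 : Continuous fun x : A4 => x a b := continuous_id.matrix_elem a b
      have c2 : Continuous fun ρ : V3 => g r * ρ i * gi r :=
        (continuous_const.mul (continuous_apply i)).mul continuous_const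
      refine (((c1.comp c2).continuousAt.comp (hc r).1).sub
        continuousAt_const).abs.eventually_lt continuousAt_const ?_
      have := hu2 r i a b
      rw [g4] at this
      exact this.trans_lt (by linarith)
  obtain ⟨S, hS, hS'⟩ := hs _ hU
  refine haar_pos μ hS fun ρ hρ => ?_
  obtain ⟨y, hy0, hy⟩ := hS' ρ hρ
  have yp : ∀ n i, 0 < (y n i).det := fun n i => by
    have := (abs_lt.1 ((hy n).1.1 i)).1
    linarith
  have ρp : ∀ i, 0 < (ρ i).det := fun i => h2_cj_det hy0 i ▸ yp 0 i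
  refine ⟨nrm ρ, fun k => ?_, fun i => ⟨_, r4_pos (ρp i), h2_sc ρp i⟩⟩
  have itp : ∀ n (r : ℕ) i, 0 < (phi1^[r] (y n) i).det := fun n r i => by
    obtain ⟨j, hj⟩ := (h2_iter r (yp n)).2 i
    exact hj ▸ yp n j
  obtain ⟨h, hh⟩ := h2_orbit (σ := FreeGroup.lift (nrm ρ)) (τ := fun n => FreeGroup.lift (nrm (y n)))
    (f := L4.phi ^ 3) (h2_cj hy0 ρp) (fun n => by
      obtain ⟨g', hg'⟩ := h2_cj (hy n).2 (itp n 3)
      exact ⟨g', fun w => by rw [hg', (h2_iter 3 (yp n)).1]; rfl⟩) (k / 3)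
  set q := k / 3 with hq
  obtain ⟨r, hr⟩ : ∃ r : Fin 3, k = 3 * q + (r : ℕ) :=
    ⟨⟨(k % 3).toNat, by omega⟩, by simp only; omega⟩
  have cj : Cj (phi1^[r] (y q)) fun i => g r * phi1^[r] (y q) i * gi r :=
    ⟨g r, gi r, g1 r, g2 r, g3 r, fun i => rfl⟩
  obtain ⟨h', hh'⟩ := h2_cj cj (itp q r)
  refine ⟨h' * h, fun i => ⟨u r i, hu1 r i, fun a b => ?_⟩⟩
  have e : h' * h * ((FreeGroup.lift (nrm ρ)).comp (L4.phi ^ k).toMonoidHom) (FreeGroup.of i) *
      (h' * h)⁻¹ = nrm (fun i => g r * phi1^[r] (y q) i * gi r) i := by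
    have e1 : L4.phi ^ k = (L4.phi ^ 3) ^ q * L4.phi ^ (r : ℕ) := by
      rw [hr, zpow_add, zpow_natCast, zpow_mul]
      rfl
    rw [← FreeGroup.lift_apply_of (f := nrm fun i => g r * phi1^[r] (y q) i * gi r), hh',
      ← (h2_iter r (yp q)).1, hh, e1]
    change h' * h * FreeGroup.lift (nrm ρ) (((L4.phi ^ 3) ^ q) ((L4.phi ^ (r : ℕ)) _)) * _ = _
    group
  rw [e, nrm_val fun i => (h2_cj_det cj i).symm ▸ itp q r i]
  obtain ⟨j, hj⟩ := (h2_iter r (yp q)).2 i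
  refine h2_est he1 ?_ (h2_rl (fun a b => ?_) a b) ((hy q).1.2 r i a b)
  · rw [h2_cj_det cj i, hj]
    exact (hy q).1.1 j
  · rw [Matrix.smul_apply, smul_eq_mul, norm_mul, hu1, one_mul]
    exact hM i a b

end Pool.Agent.MP_28624d_gt.K

end

end
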