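import Pool.Agent.MP_28624d_gt.Mg.K_GB
import Pool.Agent.MP_28624d_gt.Mg.K_GE
import Pool.Agent.MP_28624d_gt.Mg.K_KH
import Pool.Agent.MP_28624d_gt.Mg.K_GK
import Pool.Agent.MP_28624d_gt.L4.LB
import Pool.Agent.MP_28624d_gt.Mg.L4_D1
import Pool.Agent.MP_28624d_gt.Mg.L4_DSt
import Pool.Agent.MP_28624d_gt.L4.LD

section

/-!
The frequency matrix.
-/

set_option maxSynthPendingDepth 3

namespace Pool.Agent.MP_28624d_gt.K

theorem g10_hp (N k0 : ℕ) (i : Fin 3) : RepP w4 (pz w4 xlE N k0 i.val)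
    fun k : Fin N => (2 : ℝ) ^ 150 • sc 150 (xlM (k0 + k.val) i.val) :=
  (RepP.pz w4 xlE N k0 i.val).congr fun _ => smul_sc _ _

theorem g10_weak {K : ℕ} {d d' : ℝ} {x : ℕ → Z4} {ρ y : V3} {t s : A4} (h : Lt K d x ρ y t s)
    (h1 : d ≤ d') (h2 : d' ≤ 1 / 1000) : Lt K d' x ρ y t s :=
  ⟨h.d0.trans h1, h2, h.inv, h.ts, fun i => (h.cx i).trans h1, fun i => (h.cy i).trans h1,
    h.ct.trans h1, h.cs.trans h1, h.nx, h.nt, h.ns⟩

theorem g10_com {A X : A4} {P Q : ℝ} (hA : ‖A‖ ≤ P) (hX : ‖X‖ ≤ Q) :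
    ‖A * X - X * A‖ ≤ 2 * P * Q := by
  have h0 := norm_nonneg X
  have h1 : ‖A‖ * ‖X‖ ≤ P * Q := mul_le_mul hA hX h0 ((norm_nonneg A).trans hA)
  have h2 := norm_sub_le (A * X) (X * A)
  have h3 := norm_mul_le A X
  have h4 := norm_mul_le X A
  linarith [mul_comm ‖X‖ ‖A‖]

theorem g10_nb {A B X : A4} {P : ℝ} (hA : ‖A‖ ≤ P) (hB : ‖B‖ ≤ P) (hX : ‖X‖ ≤ 1 / 7) :
    ‖B + (A * X - X * A)‖ ≤ 2 * P := by
  have h1 := g10_com hA hX
  have h2 := norm_add_le B (A * X - X * A)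
  have h3 := (norm_nonneg A).trans hA
  linarith

theorem g10_est {A B a b X Z : A4} {P e d : ℝ} (ha : ‖a‖ ≤ P) (hAa : ‖A - a‖ ≤ e)
    (hBb : ‖B - b‖ ≤ e) (hX : ‖X‖ ≤ 1 / 7) (hXZ : ‖X - Z‖ ≤ d) :
    ‖B + (A * X - X * A) - (b + (a * Z - Z * a))‖ ≤ 2 * e + 2 * P * d := by
  have e1 : B + (A * X - X * A) - (b + (a * Z - Z * a)) =
      B - b + (((A - a) * X - X * (A - a)) + (a * (X - Z) - (X - Z) * a)) := by noncomm_ring
  have h1 := g10_com hAa hX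
  have h2 := g10_com ha hXZ
  have h3 := (norm_nonneg _).trans hAa
  rw [e1]
  refine (norm_add_le _ _).trans ?_
  have h4 := norm_add_le ((A - a) * X - X * (A - a)) (a * (X - Z) - (X - Z) * a)
  linarith

theorem g10_X (k : ℕ) {X : A4} (hX : ‖X - (8192 : ℝ) • sc 490 (Z4.of (zeE k))‖ ≤ 1 / 10 ^ 32) :
    ‖(8192 : ℝ)⁻¹ • X‖ ≤ 1 / 7 ∧ ‖sc 150 (zl k)‖ ≤ 1 / 7 ∧
      ‖(8192 : ℝ)⁻¹ • X - sc 150 (zl k)‖ ≤ 13 / 10 ^ 37 := by
  have h1 := norm_zeM k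
  have h2 : ‖sc 490 (Z4.of (zeE k)) - sc 150 (zl k)‖ ≤ 4 / 2 ^ 150 := sr_close 150 340 _
  generalize sc 490 (Z4.of (zeE k)) = W at *
  generalize sc 150 (zl k) = Z at *
  have h3 : ‖(8192 : ℝ)⁻¹ • X - W‖ ≤ 8192⁻¹ * (1 / 10 ^ 32) := by
    have e : (8192 : ℝ)⁻¹ • X - W = (8192 : ℝ)⁻¹ • (X - (8192 : ℝ) • W) := by
      rw [smul_sub, smul_smul]
      norm_num
    rw [e, norm_smul, Real.norm_of_nonneg (by norm_num)]
    exact mul_le_mul_of_nonneg_left hX (by norm_num)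
  have h4 : (4 : ℝ) / 2 ^ 150 ≤ 1 / 10 ^ 44 := by
    rw [div_le_div_iff₀ (by positivity) (by positivity)]
    norm_num
  have h5 := norm_add_le ((8192 : ℝ)⁻¹ • X - W) W
  have h6 := norm_sub_le W (W - Z)
  have h7 := norm_add_le ((8192 : ℝ)⁻¹ • X - W) (W - Z)
  rw [sub_add_cancel] at h5
  rw [sub_sub_cancel] at h6
  rw [sub_add_sub_cancel] at h7
  refine ⟨by linarith, by linarith, by linarith⟩

theorem g10_sc {n : ℕ} (hn : n ≤ 27) (Y1 Y2 : A4) (z : Z4) :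
    (2 : ℝ) ^ 4350 • (((2 : ℝ) ^ (150 * n + 2 * 150))⁻¹ • Y2 +
      (((2 : ℝ) ^ (150 * n + 150))⁻¹ • Y1 * sc 150 z -
        sc 150 z * ((2 : ℝ) ^ (150 * n + 150))⁻¹ • Y1)) =
      (2 : ℝ) ^ (150 * (27 - n)) • (Y2 + (Y1 * z.r - z.r * Y1)) := by
  have e : (2 : ℝ) ^ 4350 = 2 ^ (150 * (27 - n)) * (2 ^ (150 * n + 150) * 2 ^ 150) := by
    rw [← pow_add, ← pow_add]
    exact congrArg _ (by omega)
  have e' : (2 : ℝ) ^ (150 * n + 2 * 150) = 2 ^ (150 * n + 150) * 2 ^ 150 := by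
    rw [← pow_add]
  have p1 : (2 : ℝ) ^ (150 * n + 150) ≠ 0 := by positivity
  have p2 : (2 : ℝ) ^ 150 ≠ 0 := by positivity
  rw [e, e', sc]
  generalize (2 : ℝ) ^ (150 * n + 150) = a at *
  generalize (2 : ℝ) ^ 150 = b at *
  generalize (2 : ℝ) ^ (150 * (27 - n)) = c
  simp only [smul_mul_assoc, mul_smul_comm, smul_add, smul_sub, smul_smul]
  have f1 : c * (a * b) * (a * b)⁻¹ = c := by field_simp
  have f2 : c * (a * b) * (a⁻¹ * b⁻¹) = c := by field_simp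
  have f3 : c * (a * b) * (b⁻¹ * a⁻¹) = c := by field_simp
  simp only [f1, f2, f3]

theorem g10_big {t : ℝ} (ht : |t| ≤ 340 * (2 * 5 ^ 27)) :
    |(2 : ℝ) ^ 200 * (2 ^ 4350 * t)| < 2 ^ (w4 - 1) := by
  have e : (2 : ℝ) ^ (w4 - 1) = 2 ^ 200 * (2 ^ 4350 * 2 ^ 349) := by
    rw [← pow_add, ← pow_add]
    rfl
  have h : |t| < 2 ^ 349 := ht.trans_lt ((by norm_num : (340 * (2 * 5 ^ 27) : ℝ) < 2 ^ 80).trans_le
    (pow_le_pow_right₀ (by norm_num) (by norm_num)))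
  rw [e, abs_mul, abs_mul, abs_of_pos (by positivity : (0 : ℝ) < 2 ^ 200),
    abs_of_pos (by positivity : (0 : ℝ) < 2 ^ 4350)]
  exact mul_lt_mul_of_pos_left (mul_lt_mul_of_pos_left h (by positivity)) (by positivity)

theorem g10_div (t : ℝ) : (2 : ℝ) ^ 200 * (2 ^ 4350 * t) / 2 ^ 4524 = 2 ^ 26 * t := by
  have e : (2 : ℝ) ^ 200 * 2 ^ 4350 = 2 ^ 26 * 2 ^ 4524 := by rw [← pow_add, ← pow_add]
  have p : (2 : ℝ) ^ 4524 ≠ 0 := by positivity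
  rw [← mul_assoc, e, mul_right_comm, mul_div_cancel_right₀ _ p]

/-- Lt.quad with d = 13 / 10 ^ 37 (weaken Lt), the family v which is the given vector at the slot c
and 8192 • dir k at the other slots, scaled by 1 / 8192 (dir_low). mainZ k i packs 2 ^ 4350 times
the approximation of mainY; the matrix X differs from sc 150 (zl k) by at most 13 / 10 ^ 37
(sr_close) and has norm at most 1 / 7. The value of row r is bounded by
340 * 2 ^ 200 * 2 * 5 ^ 27 * 2 ^ 4350 < 2 ^ 4899, so RepS.digit applies. -/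
theorem main_aux (hb : chkBase = true) (hr : ∀ r, r < 18 → ∀ v, |rowL r v| ≤ 340 * ‖v‖) {ρ y : V3}
    {g s : A4} (h : Lt 150 (1 / 10 ^ 44) xl ρ y g s) (k : Fin 9) {c : ℕ} (hc : c < 18) {τ v : V3}
    {X : A4} (hτ : ‖τ - (8192 : ℝ) • dir (18 + k.val)‖ ≤ 1 / 10 ^ 32)
    (hv : ‖v - (8192 : ℝ) • dir c‖ ≤ 1 / 10 ^ 32)
    (hX : ‖X - (8192 : ℝ) • sc 490 (Z4.of (zeE k.val))‖ ≤ 1 / 10 ^ 32) :
    ‖mainY g s ρ y ((8192 : ℝ)⁻¹ • τ) ((8192 : ℝ)⁻¹ • v) ((8192 : ℝ)⁻¹ • X)‖ ≤ 2 * 5 ^ 27 ∧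
      ‖DF g s ρ y ((8192 : ℝ)⁻¹ • τ)‖ ≤ 5 ^ 27 ∧ ∀ r, r < 18 →
      |2 ^ 26 * rowL r (mainY g s ρ y ((8192 : ℝ)⁻¹ • τ) ((8192 : ℝ)⁻¹ • v) ((8192 : ℝ)⁻¹ • X)) -
        (valZ k.val r c : ℝ) / 2 ^ 4524| ≤ 1 / 1000 := by
  have h' : Lt 150 (13 / 10 ^ 37) xl ρ y g s := g10_weak h (by norm_num) (by norm_num)
  obtain ⟨x1, x2, x3⟩ := g10_X k.val hX
  have hu := dir_low hb (18 + k.val) hτ
  have hV : ∀ (j : Fin 18) (i : Fin 3),
      ‖((8192 : ℝ)⁻¹ • (if j.val = c then v else (8192 : ℝ) • dir j.val)) i -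
        sc 150 (xl i.val) * sc 150 (xlM (0 + j.val) i.val)‖ ≤ 13 / 10 ^ 37 := fun j i => by
    rw [Nat.zero_add]
    refine dir_low hb j.val ?_ i
    split_ifs with e
    · rw [e]
      exact hv
    · rw [sub_self, norm_zero]
      positivity
  have Q := fun i => h'.quad (q := 150) (m := xlM (18 + k.val))
    (ξ := fun (j : Fin 18) (i : Fin 3) => sc 150 (xlM (0 + j.val) i.val))
    (v := fun j : Fin 18 => (8192 : ℝ)⁻¹ • (if j.val = c then v else (8192 : ℝ) • dir j.val))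
    (u := (8192 : ℝ)⁻¹ • τ) (g10_hp 18 0) (fun _ _ => norm_xlM _ _) hV (fun _ => norm_xlM _ _) hu i
  choose Y1 Y2 r1 r2 Q using Q
  generalize (8192 : ℝ)⁻¹ • X = X' at *
  have hZ : ∀ i, RepP w4 (mainZ k.val i) fun j : Fin 18 => ((2 : ℝ) ^ 4350 • fun i : Fin 3 =>
      ((2 : ℝ) ^ (150 * deg i + 2 * 150))⁻¹ • Y2 i j +
      (((2 : ℝ) ^ (150 * deg i + 150))⁻¹ • Y1 i j * sc 150 (zl k.val) -
        sc 150 (zl k.val) * ((2 : ℝ) ^ (150 * deg i + 150))⁻¹ • Y1 i j)) i := fun i =>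
    (((r2 i).add (((r1 i).mulR (zl k.val)).sub ((r1 i).mulL (zl k.val)))).sl
      (150 * (27 - deg i))).congr fun j => g10_sc (deg_le i).2 _ _ _
  have Qc := fun i => Q i ⟨c, hc⟩
  simp only [if_true] at Qc
  refine ⟨pi_norm_le_iff_of_nonneg (by positivity) |>.2 fun i => g10_nb (Qc i).1 (Qc i).2.1 x1,
    pi_norm_le_iff_of_nonneg (by positivity) |>.2 fun i => ?_, fun r hr' => ?_⟩
  · obtain ⟨_, -, hY⟩ := h'.lin (q := 150)
      (ξ := fun (j : Fin 1) (i : Fin 3) => sc 150 (xlM (18 + k.val + j.val) i.val))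
      (v := fun _ : Fin 1 => (8192 : ℝ)⁻¹ • τ) (g10_hp 1 (18 + k.val)) (fun _ _ => norm_xlM _ _)
      (fun j i => by rw [Fin.val_eq_zero j]; exact hu i) i
    exact (hY 0).1
  · have hS := (RepP.rowD r (hZ 0) (hZ 1) (hZ 2)).digit (by decide) (fun j => by
      rw [map_smul, smul_eq_mul]
      refine g10_big ((hr r hr' _).trans (mul_le_mul_of_nonneg_left ?_ (by norm_num)))
      exact (pi_norm_le_iff_of_nonneg (by positivity)).2 fun i =>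
        g10_nb (Q i j).2.2.1 (Q i j).2.2.2.1 x2) ⟨c, hc⟩
    rw [map_smul, smul_eq_mul] at hS
    rw [valZ, hS, g10_div, ← mul_sub, ← map_sub, abs_mul, abs_of_pos (by positivity)]
    have hd := (hr r hr' _).trans (mul_le_mul_of_nonneg_left
      ((pi_norm_le_iff_of_nonneg (x := mainY g s ρ y ((8192 : ℝ)⁻¹ • τ) ((8192 : ℝ)⁻¹ • v) X' -
        fun i : Fin 3 => ((2 : ℝ) ^ (150 * deg i + 2 * 150))⁻¹ • Y2 i ⟨c, hc⟩ +
          (((2 : ℝ) ^ (150 * deg i + 150))⁻¹ • Y1 i ⟨c, hc⟩ * sc 150 (zl k.val) -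
            sc 150 (zl k.val) * ((2 : ℝ) ^ (150 * deg i + 150))⁻¹ • Y1 i ⟨c, hc⟩))
        (by positivity)).2 fun i => g10_est (Qc i).2.2.1 (Qc i).2.2.2.2.1 (Qc i).2.2.2.2.2 x1 x3)
      (by norm_num))
    refine (mul_le_mul_of_nonneg_left hd (by positivity)).trans ?_
    norm_num

end Pool.Agent.MP_28624d_gt.K

end

section

/-!
Continuation of G10.
-/

set_option maxSynthPendingDepth 3

namespace Pool.Agent.MP_28624d_gt.K

theorem g10b_mul {a b : A4} {p q : ℝ} (ha : ‖a‖ ≤ p) (hb : ‖b‖ ≤ q) : ‖a * b‖ ≤ p * q :=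
  (norm_mul_le a b).trans (mul_le_mul ha hb (norm_nonneg _) ((norm_nonneg _).trans ha))

/-- The three small terms. -/
def g10b_rest (D ρ τ : V3) (X1 X2 : A4) : V3 :=
  fun i => D i * X2 + X1 * (X2 * ρ i - ρ i * X2) - X2 * τ i

theorem g10b_rest_le {D ρ τ : V3} {X1 X2 : A4} (hD : ‖D‖ ≤ 8192 * 5 ^ 27) (hρ : ∀ i, ‖ρ i‖ ≤ 4)
    (hτ : ‖τ‖ ≤ 3000) (h1 : ‖X1‖ ≤ 1100) (h2 : ‖X2‖ ≤ 1 / 10 ^ 32) :
    ‖g10b_rest D ρ τ X1 X2‖ ≤ 1 / 10 ^ 9 := by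
  refine (pi_norm_le_iff_of_nonneg (by positivity)).2 fun i => ?_
  have a1 := g10b_mul ((norm_le_pi_norm D i).trans hD) h2
  have a2 := g10b_mul h1 ((norm_sub_le _ _).trans (add_le_add (g10b_mul h2 (hρ i))
    (g10b_mul (hρ i) h2)))
  have a3 := g10b_mul h2 ((norm_le_pi_norm τ i).trans hτ)
  refine (norm_sub_le _ _).trans ((add_le_add ((norm_add_le _ _).trans (add_le_add a1 a2)) a3).trans
    ?_)
  norm_num

theorem g10b_split {ρ y : V3} {g s : A4} (h : ∀ i, ρ i * y i = 1) (ts : g * s = 1) (τ v : V3)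
    (X1 X2 : A4) :
    Yv g ρ τ v X1 X2 = (2 ^ 26 : ℝ) •
        mainY g s ρ y ((8192 : ℝ)⁻¹ • τ) ((8192 : ℝ)⁻¹ • v) ((8192 : ℝ)⁻¹ • X1) +
      g10b_rest ((8192 : ℝ) • DF g s ρ y ((8192 : ℝ)⁻¹ • τ)) ρ τ X1 X2 := by
  funext i
  simp only [Yv, mainY, g10b_rest, ← fderiv_Psi h ts, ← fderiv2_Psi h ts, map_smul,
    smul_apply, Pi.add_apply, Pi.smul_apply, smul_mul_assoc, mul_smul_comm,
    mul_sub]
  module

/-- Yv = 2 ^ 26 • mainY + DF τ * X2 + X1 * (X2 ρ - ρ X2) - X2 * τ by fderiv_Psi, fderiv2_Psi and the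
linearity of the derivatives; the last three terms have norm at most 1 / 10 ^ 9. -/
theorem Yv_aux (hb : chkBase = true) (hr : ∀ r, r < 18 → ∀ v, |rowL r v| ≤ 340 * ‖v‖) {ρ : V3}
    {g : A4} (hρ : ‖ρ - rt‖ ≤ 1 / 10 ^ 165) (hg : ‖g - gt‖ ≤ 1 / 10 ^ 165) (k : Fin 9) {c : ℕ}
    (hc : c < 18) {τ v : V3} {X1 X2 : A4} (hτ : ‖τ - Bq (0, e15 k)‖ ≤ 1 / 10 ^ 32)
    (hv : ‖v - (8192 : ℝ) • dir c‖ ≤ 1 / 10 ^ 32)
    (hX : ‖X1 - iota (zeta (e15 k))‖ ≤ 1 / 10 ^ 32) (hX2 : ‖X2‖ ≤ 1 / 10 ^ 32) :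
    ‖Yv g ρ τ v X1 X2‖ ≤ 10 ^ 28 ∧ ∀ r, r < 18 →
      |rowL r (Yv g ρ τ v X1 X2) - (valZ k.val r c : ℝ) / 2 ^ 4524| ≤ 2 / 1000 := by
  obtain ⟨y, s, -, h⟩ := base_lt hb hρ hg
  have e1 : Bq (0, e15 k) = (8192 : ℝ) • dir (18 + k.val) := Bq_cas (Fin.castLE (by norm_num) k)
  have e2 : iota (zeta (e15 k)) = (8192 : ℝ) • sc 490 (Z4.of (zeE k.val)) :=
    iota_zeta (Fin.castLE (by norm_num) k)
  rw [e1] at hτ
  rw [e2] at hX
  obtain ⟨m1, m2, m3⟩ := main_aux hb hr h k hc hτ hv hX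
  have n1 : ‖τ‖ ≤ 3000 := by
    have a := norm_dir hb (18 + k.val)
    have b := norm_le_insert' τ ((8192 : ℝ) • dir (18 + k.val))
    rw [norm_smul, Real.norm_of_nonneg (by norm_num)] at b
    have : (1 : ℝ) / 10 ^ 32 ≤ 1 := by norm_num
    linarith
  have n2 : ‖X1‖ ≤ 1100 := by
    have a := norm_zeM k.val
    have b := norm_le_insert' X1 ((8192 : ℝ) • sc 490 (Z4.of (zeE k.val)))
    rw [norm_smul, Real.norm_of_nonneg (by norm_num)] at b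
    have : (1 : ℝ) / 10 ^ 32 ≤ 1 := by norm_num
    linarith
  have n3 : ‖(8192 : ℝ) • DF g s ρ y ((8192 : ℝ)⁻¹ • τ)‖ ≤ 8192 * 5 ^ 27 := by
    rw [norm_smul, Real.norm_of_nonneg (by norm_num)]
    exact mul_le_mul_of_nonneg_left m2 (by norm_num)
  have n4 := g10b_rest_le n3 h.norm.1 n1 n2 hX2
  rw [g10b_split h.inv h.ts]
  generalize g10b_rest ((8192 : ℝ) • DF g s ρ y ((8192 : ℝ)⁻¹ • τ)) ρ τ X1 X2 = R at n4
  generalize mainY g s ρ y ((8192 : ℝ)⁻¹ • τ) ((8192 : ℝ)⁻¹ • v) ((8192 : ℝ)⁻¹ • X1) = M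
    at m1 m3
  refine ⟨(norm_add_le _ _).trans ?_, fun r hr' => ?_⟩
  · rw [norm_smul, Real.norm_of_nonneg (by positivity)]
    refine (add_le_add (mul_le_mul_of_nonneg_left m1 (by positivity)) n4).trans ?_
    norm_num
  · have a := m3 r hr'
    have b := (hr r hr' R).trans (mul_le_mul_of_nonneg_left n4 (by norm_num))
    rw [map_add, map_smul, smul_eq_mul]
    generalize (valZ k.val r c : ℝ) / 2 ^ 4524 = V at a
    rw [add_sub_right_comm]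
    refine (abs_add_le _ _).trans ((add_le_add a b).trans ?_)
    norm_num

theorem g10b_abs {a b p q : ℝ} (ha : |a| ≤ p) (hb : |b| ≤ q) : |a * b| ≤ p * q := by
  rw [abs_mul]
  exact mul_le_mul ha hb (abs_nonneg _) ((abs_nonneg _).trans ha)

theorem g10b_real {l1 l2 m1 m2 ar ai br bi A1 A2 B1 B2 δ : ℝ} (hm1 : |m1| ≤ 2) (hm2 : |m2| ≤ 2)
    (h1 : |l1 - m1| ≤ 1 / 10 ^ 32) (h2 : |l2 - m2| ≤ 1 / 10 ^ 32) (a1 : |ar - A1| ≤ 3 / 1000)
    (a2 : |ai - A2| ≤ 3 / 1000) (b1 : |br - B1| ≤ 3 / 1000) (b2 : |bi - B2| ≤ 3 / 1000)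
    (nA1 : |A1| ≤ 2 ^ 20) (nA2 : |A2| ≤ 2 ^ 20) (nB1 : |B1| ≤ 2 ^ 20) (nB2 : |B2| ≤ 2 ^ 20)
    (hc : |(m1 * (A2 - B1) - m2 * (A1 + B2)) / 2 - δ| ≤ 1 / 128) :
    |(l1 * (ai - br) - l2 * (ar + bi)) / 2 - δ| ≤ 1 / 40 := by
  have c1 : |ai - br - (A2 - B1)| ≤ 6 / 1000 := by
    rw [abs_le] at *
    constructor <;> linarith [a2.1, a2.2, b1.1, b1.2]
  have c2 : |ar + bi - (A1 + B2)| ≤ 6 / 1000 := by
    rw [abs_le] at *
    constructor <;> linarith [a1.1, a1.2, b2.1, b2.2]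
  have c3 : |ai - br| ≤ 10 ^ 7 := by
    rw [abs_le] at *
    constructor <;> linarith [c1.1, c1.2, nA2.1, nA2.2, nB1.1, nB1.2]
  have c4 : |ar + bi| ≤ 10 ^ 7 := by
    rw [abs_le] at *
    constructor <;> linarith [c2.1, c2.2, nA1.1, nA1.2, nB2.1, nB2.2]
  have d1 := abs_le.1 (g10b_abs h1 c3)
  have d2 := abs_le.1 (g10b_abs h2 c4)
  have d3 := abs_le.1 (g10b_abs hm1 c1)
  have d4 := abs_le.1 (g10b_abs hm2 c2)
  have d5 := abs_le.1 hc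
  have e : (l1 * (ai - br) - l2 * (ar + bi)) / 2 - δ =
      ((l1 - m1) * (ai - br) - (l2 - m2) * (ar + bi) + m1 * (ai - br - (A2 - B1)) -
        m2 * (ar + bi - (A1 + B2))) / 2 + ((m1 * (A2 - B1) - m2 * (A1 + B2)) / 2 - δ) := by ring
  rw [e, abs_le]
  constructor <;> linarith [d1.1, d1.2, d2.1, d2.2, d3.1, d3.2, d4.1, d4.2, d5.1, d5.2]

theorem g10b_nat {x : ℤ} {n : ℕ} (h : Nat.ble x.natAbs (2 ^ n) = true) : |(x : ℝ)| ≤ 2 ^ n := by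
  have h' : ((x.natAbs : ℕ) : ℝ) ≤ ((2 ^ n : ℕ) : ℝ) := Nat.cast_le.2 (Nat.le_of_ble_eq_true h)
  rwa [Nat.cast_natAbs, Int.cast_abs, Nat.cast_pow, Nat.cast_ofNat] at h'

theorem g10b_div {x : ℝ} {N : ℕ} (m n : ℕ) (h : |x| ≤ 2 ^ N) (e : N = m + n) :
    |x / 2 ^ n| ≤ 2 ^ m := by
  rw [abs_div, abs_of_pos (by positivity : (0 : ℝ) < 2 ^ n), div_le_iff₀ (by positivity), ← pow_add,
    ← e]
  exact h

theorem g10b_chk {la lb v00 v10 v01 v11 δ P Q : ℝ} (hP : 0 < P) (hQ : 0 < Q)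
    (h : |la * (v10 - v01) - lb * (v00 + v11) - δ * (2 * P * Q)| ≤ 2 * P * Q / 128) :
    |(la / P * (v10 / Q - v01 / Q) - lb / P * (v00 / Q + v11 / Q)) / 2 - δ| ≤ 1 / 128 := by
  have e : (la / P * (v10 / Q - v01 / Q) - lb / P * (v00 / Q + v11 / Q)) / 2 - δ =
      (la * (v10 - v01) - lb * (v00 + v11) - δ * (2 * P * Q)) / (2 * P * Q) := by
    field_simp
  rw [e, abs_div, abs_of_pos (by positivity : 0 < 2 * P * Q), div_le_iff₀ (by positivity)]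
  linarith

theorem g10b_pow : (2 : ℝ) ^ 5015 = 2 * 2 ^ 490 * 2 ^ 4524 ∧
    (2 : ℝ) ^ 5008 = 2 * 2 ^ 490 * 2 ^ 4524 / 128 := by
  have a : (2 : ℝ) ^ 5015 = 2 * 2 ^ 490 * 2 ^ 4524 := by
    rw [← pow_succ', ← pow_add]
  refine ⟨a, ?_⟩
  rw [← a, show 5015 = 5008 + 7 from rfl, pow_add]
  generalize (2 : ℝ) ^ 5008 = P
  ring

/-- a, b are within 3 / 1000 (in each real coordinate) of numbers of size at most 2 ^ 20 for which
the check gives the frequency up to 1 / 128. -/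
theorem frq_sound {k : Fin 9} (h : chkFrq k.val = true) (j : Fin 9) (hl : ‖lam j‖ ≤ 2) {l a b : ℂ}
    (h0 : ‖l - lam j‖ ≤ 1 / 10 ^ 32)
    (h1 : |a.re - (valZ k.val (2 * j.val) (2 * j.val) : ℝ) / 2 ^ 4524| ≤ 3 / 1000)
    (h2 : |a.im - (valZ k.val (2 * j.val + 1) (2 * j.val) : ℝ) / 2 ^ 4524| ≤ 3 / 1000)
    (h3 : |b.re - (valZ k.val (2 * j.val) (2 * j.val + 1) : ℝ) / 2 ^ 4524| ≤ 3 / 1000)
    (h4 : |b.im - (valZ k.val (2 * j.val + 1) (2 * j.val + 1) : ℝ) / 2 ^ 4524| ≤ 3 / 1000) :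
    |frq l a b - (if j = k then 1 else 0)| ≤ 1 / 40 := by
  have h' := alln_sound h j.isLt
  obtain ⟨h', c5⟩ := Bool.and_eq_true_iff.1 h'
  obtain ⟨h', c4⟩ := Bool.and_eq_true_iff.1 h'
  obtain ⟨h', c3⟩ := Bool.and_eq_true_iff.1 h'
  obtain ⟨c1, c2⟩ := Bool.and_eq_true_iff.1 h'
  have d1 := g10b_div 20 4524 (g10b_nat c1) rfl
  have d2 := g10b_div 20 4524 (g10b_nat c2) rfl
  have d3 := g10b_div 20 4524 (g10b_nat c3) rfl
  have d4 := g10b_div 20 4524 (g10b_nat c4) rfl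
  have d5 := g10b_nat c5
  have e1 : (((bif Nat.beq j.val k.val then 2 ^ 5015 else 0 : ℤ)) : ℝ) =
      (if j = k then 1 else 0) * (2 * 2 ^ 490 * 2 ^ 4524) := by
    by_cases e : j = k
    · rw [if_pos e, e, Nat.beq_refl, cond_true, one_mul, ← g10b_pow.1, Int.cast_pow, Int.cast_ofNat]
    · have e' : Nat.beq j.val k.val = false := by
        rw [← Bool.not_eq_true, Nat.beq_eq]
        exact fun e' => e (Fin.ext e')
      rw [if_neg e, e', cond_false, zero_mul, Int.cast_zero]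
  rw [Int.cast_sub, Int.cast_sub, Int.cast_mul, Int.cast_mul, Int.cast_sub, Int.cast_add, e1,
    g10b_pow.2] at d5
  have d6 := g10b_chk (by positivity) (by positivity) d5
  have e2 : frq l a b = (l.re * (a.im - b.re) - l.im * (a.re + b.im)) / 2 := by
    simp only [frq, Complex.mul_im, Complex.conj_re, Complex.conj_im, Complex.div_ofNat_im,
      Complex.div_ofNat_re, Complex.sub_im, Complex.sub_re, Complex.mul_re, Complex.I_re,
      Complex.I_im]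
    ring
  rw [e2]
  exact g10b_real ((Complex.abs_re_le_norm (lam j)).trans hl)
    ((Complex.abs_im_le_norm (lam j)).trans hl) ((Complex.abs_re_le_norm (l - lam j)).trans h0)
    ((Complex.abs_im_le_norm (l - lam j)).trans h0) h1 h2 h3 h4 d1 d2 d3 d4 d6

end Pool.Agent.MP_28624d_gt.K

end

section

/-!
Krylov matrices and Krein numbers.
-/

set_option maxSynthPendingDepth 3

namespace Pool.Agent.MP_28624d_gt.K

/-- The four boundary elements. -/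
def bd4 (ρ : V3) : Fin 4 → A4 := ![ρ 0, ρ 1, ρ 2, prd ρ]

theorem g11_c {K n : ℕ} {e c c' : ℝ} {X : A4} {a : Z4} (h : A0 K e n c X a) (hc : c = c') :
    A0 K e n c' X a := hc ▸ h

theorem g11_chk (hk : chkKry = true) (j : Fin 4) :
    ‖sc 150 (bl j.val)‖ ≤ 49 / 10 ∧ ‖sc 150 (bi j.val)‖ ≤ 49 / 10 ∧ ‖sc 150 (hz j.val)‖ ≤ 4 ∧
      ‖sc 593 (((kryZ (bl j.val)).mul (hz j.val)).sub (Z4.one.sl 593))‖ ≤ 1 / 2 ^ 130 := by
  have h := alln_sound hk j.isLt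
  simp only [Bool.and_eq_true] at h
  obtain ⟨⟨⟨h1, h2⟩, h3⟩, h4⟩ := h
  have e : ((49 * 2 ^ 150 / 10 : ℕ) : ℝ) ≤ 49 / 10 * 2 ^ 150 := by
    refine Nat.cast_div_le.trans (le_of_eq ?_)
    push_cast
    ring
  refine ⟨nb_sc h1 e, nb_sc h2 e, nb_sc h3 (le_of_eq (by push_cast; ring)), nb_sc h4 (le_of_eq ?_)⟩
  rw [show (593 : ℕ) = 130 + 463 from rfl, pow_add, Nat.cast_pow, Nat.cast_ofNat, ← mul_assoc,
    one_div_mul_cancel (by positivity), one_mul]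

/-- A rounded word of length three is a letter. -/
theorem g11_round {c : ℝ} {X : A4} {a : Z4} (h : A0 150 (1 / (5 * 10 ^ 44)) (2 + 1) c X a)
    (hc : c = 1) (hn : ‖sc 150 (a.sr 300)‖ ≤ 49 / 10) : A0 150 (1 / 10 ^ 42) 1 1 X (a.sr 300) := by
  subst hc
  have h1 : ‖X - sc 150 (a.sr 300)‖ ≤ 1 / 10 ^ 42 := h.round.trans (by norm_num)
  refine A0.letter ?_ (hn.trans (by norm_num)) (h1.trans (by norm_num))
  have h2 := norm_le_norm_add_norm_sub' X (sc 150 (a.sr 300))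
  have h3 : (1 : ℝ) / 10 ^ 42 ≤ 1 / 10 := by norm_num
  linarith

/-- For j = 3 use A0.round for ρ 0 * ρ 1 * ρ 2 and y 2 * (y 1 * y 0). -/
theorem bd_aux (hk : chkKry = true) {ρ y : V3} {g s : A4} (h : Lt 150 (1 / 10 ^ 44) xl ρ y g s)
    (j : Fin 4) : A0 150 (1 / 10 ^ 42) 1 1 (bd4 ρ j) (bl j.val) ∧
      A0 150 (1 / 10 ^ 42) 1 1 (Ring.inverse (bd4 ρ j)) (bi j.val) := by
  have hd : (1 : ℝ) / 10 ^ 44 ≤ 5 * (1 / 10 ^ 42) := by norm_num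
  have main : ∀ i : Fin 3, A0 150 (1 / 10 ^ 42) 1 1 (ρ i) (xl i.val) ∧
      A0 150 (1 / 10 ^ 42) 1 1 (Ring.inverse (ρ i)) (xl (3 + i.val)) := fun i =>
    ⟨h.ax hd i, by rw [inverse_eq (h.inv i)]; exact h.ay hd i⟩
  obtain ⟨n1, n2, -, -⟩ := g11_chk hk 3
  have hd' : (1 : ℝ) / 10 ^ 44 ≤ 5 * (1 / (5 * 10 ^ 44)) := by norm_num
  have he : (0 : ℝ) ≤ 1 / (5 * 10 ^ 44) := by norm_num
  have hinv : prd ρ * (y 2 * (y 1 * y 0)) = 1 := by
    simp only [prd, mul_assoc, g1_c (h.inv _), h.inv]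
  fin_cases j
  · exact main 0
  · exact main 1
  · exact main 2
  · refine ⟨g11_round (((h.ax hd' 0).mul he (h.ax hd' 1)).mul he (h.ax hd' 2)) (by ring) n1, ?_⟩
    have h0 := (h.ay hd' 2).mul he ((h.ay hd' 1).mul he (h.ay hd' 0))
    have := g11_round (a := (xl 5).mul ((xl 4).mul (xl 3))) h0 (by ring) n2
    rw [← inverse_eq hinv] at this
    exact this

theorem A0.kry {e : ℝ} (he : 0 ≤ e) {x : A4} {a : Z4} (h : A0 150 e 1 1 x a) :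
    A0 150 e 3 4 (kry x) (kryZ a) := by
  have h0 := (A0.unit 150 e 0).sl he 3
  have h1 := (h.mul he (A0.unit 150 e 1)).sl he 2
  have h2 := ((h.mul he h).mul he (A0.unit 150 e 2)).sl he 1
  have h3 := ((h.mul he h).mul he h).mul he (A0.unit 150 e 3)
  have := ((h0.add h1).add h2).add h3
  exact g11_c this (by ring)

theorem A0.dkry {e : ℝ} (he : 0 ≤ e) {x v : A4} {a b : Z4} (h : A0 150 e 1 1 x a)
    (h' : A0 150 e 1 1 v b) : A0 150 e 3 6 (dkry x v) (dkryZ a b) := by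
  have h1 := (h'.mul he (A0.unit 150 e 1)).sl he 2
  have h2 := (((h'.mul he h).add (h.mul he h')).mul he (A0.unit 150 e 2)).sl he 1
  have h3 := ((((h'.mul he h).add (h.mul he h')).mul he h).add ((h.mul he h).mul he h')).mul he
    (A0.unit 150 e 3)
  have := (h1.add h2).add h3
  exact g11_c this (by ring)

/-- inv_near with b0 = 128 • sc 150 (hz j). -/
theorem kry_aux (hk : chkKry = true) {ρ y : V3} {g s : A4} (h : Lt 150 (1 / 10 ^ 44) xl ρ y g s)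
    (j : Fin 4) : IsUnit (kry (bd4 ρ j)) ∧
      A0 150 (1 / 10 ^ 33) 1 1 ((128 : ℝ)⁻¹ • Ring.inverse (kry (bd4 ρ j))) (hz j.val) := by
  obtain ⟨-, -, n3, n4⟩ := g11_chk hk j
  have hK := (A0.kry (by norm_num) (bd_aux hk h j).1).2.2
  generalize K.kry (bd4 ρ j) = X at hK ⊢
  generalize kryZ (bl j.val) = a at hK n4
  generalize hz j.val = b at n3 n4 ⊢
  have e1 : sc 593 (Z4.one.sl 593) = 1 := by
    have := sc_sl 0 593 Z4.one
    rw [zero_add] at this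
    rw [this, sc, r_one, pow_zero, inv_one, one_smul]
  have e2 : sc 593 (a.mul b) = sc (150 * 3) a * ((128 : ℝ) • sc 150 b) := by
    rw [mul_smul_comm, ← sc_mul, sc, sc, smul_smul, show 150 * 3 + 150 = 7 + 593 from rfl,
      pow_add (2 : ℝ) 7 593, mul_inv, ← mul_assoc, show (128 : ℝ) * (2 ^ 7)⁻¹ = 1 by norm_num,
      one_mul]
  rw [sc_sub, e1, e2] at n4
  have nb : ‖(128 : ℝ) • sc 150 b‖ ≤ 512 := by
    rw [norm_smul, Real.norm_ofNat]; linarith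
  have hq : ‖X * ((128 : ℝ) • sc 150 b) - 1‖ ≤ 8 / 10 ^ 37 := by
    have e3 : X * ((128 : ℝ) • sc 150 b) - 1 = (X - sc (150 * 3) a) * ((128 : ℝ) • sc 150 b) +
        (sc (150 * 3) a * ((128 : ℝ) • sc 150 b) - 1) := by rw [sub_mul]; abel
    rw [e3]
    refine (norm_add_le _ _).trans ((add_le_add ((norm_mul_le _ _).trans
      (mul_le_mul hK nb (norm_nonneg _) (by norm_num))) n4).trans ?_)
    norm_num
  obtain ⟨Y, hY, hd⟩ := inv_near hq (by norm_num)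
  refine ⟨⟨⟨X, Y, hY, mul_eq_one_comm.1 hY⟩, rfl⟩, ?_⟩
  rw [inverse_eq hY]
  have h1 : ‖(128 : ℝ)⁻¹ • Y - sc 150 b‖ ≤ 1 / 10 ^ 33 := by
    have e4 : (128 : ℝ)⁻¹ • Y - sc 150 b = (128 : ℝ)⁻¹ • (Y - (128 : ℝ) • sc 150 b) := by
      rw [smul_sub, smul_smul]; norm_num
    rw [e4, norm_smul, norm_inv, Real.norm_ofNat]
    have : ‖Y - (128 : ℝ) • sc 150 b‖ ≤ 2 * (8 / 10 ^ 37) * 512 :=
      hd.trans (mul_le_mul_of_nonneg_left nb (by norm_num))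
    refine (mul_le_mul_of_nonneg_left this (by norm_num)).trans ?_
    norm_num
  refine A0.letter ?_ (n3.trans (by norm_num)) (h1.trans (by norm_num))
  have h2 := norm_le_norm_add_norm_sub' ((128 : ℝ)⁻¹ • Y) (sc 150 b)
  have h3 : (1 : ℝ) / 10 ^ 33 ≤ 1 := by norm_num
  linarith

theorem good_sound (hb : chkBase = true) (hk : chkKry = true) {ρ : V3}
    (hρ : ‖ρ - rt‖ ≤ 1 / 10 ^ 165) : Good ρ := by
  obtain ⟨y, s, -, h⟩ := base_lt hb (g := gt) hρ (by rw [sub_self, norm_zero]; positivity)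
  refine ⟨g1_unit h.inv, fun i => ?_, (kry_aux hk h 3).1⟩
  fin_cases i
  exacts [(kry_aux hk h 0).1, (kry_aux hk h 1).1, (kry_aux hk h 2).1]

end Pool.Agent.MP_28624d_gt.K

end

section

/-!
Continuation of G11.
-/

set_option maxSynthPendingDepth 3

namespace Pool.Agent.MP_28624d_gt.K

theorem bet_aux {e : ℝ} (he : 0 ≤ e) {x xi h x1 x2 : A4} {a ai b a1 a2 : Z4}
    (h1 : A0 150 e 1 1 x a) (h2 : A0 150 e 1 1 xi ai) (h3 : A0 150 e 1 1 ((128 : ℝ)⁻¹ • h) b)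
    (h4 : A0 150 e 1 1 x1 a1) (h5 : A0 150 e 1 1 x2 a2) :
    |betS x xi h x1 x2 - 2 ^ 14 * (betZ a ai b a1 a2 : ℝ) / 2 ^ 1500| ≤ 5 * 10 ^ 14 * e := by
  obtain ⟨g, rfl⟩ : ∃ g : A4, h = (128 : ℝ) • g :=
    ⟨(128 : ℝ)⁻¹ • h, by rw [smul_smul, mul_inv_cancel₀ (by norm_num), one_smul]⟩
  rw [smul_smul, inv_mul_cancel₀ (by norm_num), one_smul] at h3
  have d1 := A0.dkry he h1 h4
  have d2 := A0.dkry he h1 h5
  have t1 := ((h2.mul he ((d2.mul he h3).mul he h1)).mul he (d1.mul he h3)).trace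
  have t2 := ((h2.mul he ((d1.mul he h3).mul he h1)).mul he (d2.mul he h3)).trace
  have e1 : betS x xi ((128 : ℝ) • g) x1 x2 = 2 ^ 14 * betS x xi g x1 x2 := by
    simp only [betS, mul_smul_comm, smul_mul_assoc, Matrix.trace_smul, smul_eq_mul]
    ring
  rw [e1, betS, betZ, Int.cast_sub]
  change |_ - _ / (2 : ℝ) ^ 1500| ≤ _ at t1 t2
  generalize (2 : ℝ) ^ 1500 = P at t1 t2 ⊢
  rw [abs_le] at t1 t2 ⊢
  rw [mul_div_assoc, sub_div]
  push_cast at t1 t2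
  constructor <;> linarith [t1.1, t1.2, t2.1, t2.2]

theorem g11b_coc {e : ℝ} (he : 0 ≤ e) {n m : ℕ} {c : ℝ} {gi g1 g2 hi h1 h2 : A4}
    {ai a1 a2 bi b1 b2 : Z4} (p : A0 150 e n 1 gi ai) (p1 : A0 150 e m c g1 a1)
    (p2 : A0 150 e m c g2 a2) (q : A0 150 e 1 1 hi bi) (q1 : A0 150 e 1 1 h1 b1)
    (q2 : A0 150 e 1 1 h2 b2) :
    |cocS gi g1 g2 hi h1 h2 - (cocZ ai a1 a2 bi b1 b2 : ℝ) / 2 ^ (150 * (n + m + (1 + 1)))| ≤
      8 * (c * (n + m + (1 + 1) : ℕ) * 5 ^ (n + m + (1 + 1)) * e) := by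
  have t1 := ((p.mul he p1).mul he (q2.mul he q)).trace
  have t2 := ((p.mul he p2).mul he (q1.mul he q)).trace
  rw [cocS, cocZ, Int.cast_sub, sub_div]
  simp only [one_mul, mul_one] at t1 t2
  generalize (2 : ℝ) ^ (150 * (n + m + (1 + 1))) = P at t1 t2 ⊢
  rw [abs_le] at t1 t2 ⊢
  constructor <;> linarith [t1.1, t1.2, t2.1, t2.2]

theorem g11b_vl (hb : chkBase = true) {ρ y : V3} {g s : A4}
    (h : Lt 150 (1 / 10 ^ 44) xl ρ y g s) (k : ℕ) {v : V3}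
    (hv : ‖v - (8192 : ℝ) • dir k‖ ≤ 1 / 10 ^ 32) (i : Fin 3) :
    A0 150 (1 / 10 ^ 36) 1 1 (((8192 : ℝ)⁻¹ • v) i) (vl k i.val) := by
  have h1 := dir_low hb k hv i
  have h2 := (congrArg (fun z => ‖z - _‖) (sc_mul 150 150 (xl i.val) (xlM k i.val))).symm.trans_le
    (sr_close 150 150 ((xl i.val).mul (xlM k i.val)))
  have h3 : ‖sc 150 (xl i.val) * sc 150 (xlM k i.val)‖ ≤ 395 / 100 * (1 / 15) :=
    (norm_mul_le _ _).trans (mul_le_mul (h.nx _ (by omega)) (norm_xlM k i.val) (norm_nonneg _)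
      (by norm_num))
  have e : vl k i.val = ((xl i.val).mul (xlM k i.val)).sr 150 := rfl
  rw [← e] at h2
  generalize sc 150 (xl i.val) * sc 150 (xlM k i.val) = P at h1 h2 h3
  have h4 : (4 : ℝ) / 2 ^ 150 ≤ 1 / 10 ^ 40 := by norm_num
  refine A0.letter ?_ ?_ ?_
  · have := norm_le_norm_add_norm_sub' (((8192 : ℝ)⁻¹ • v) i) P
    linarith
  · have := norm_le_norm_add_norm_sub P (sc 150 (vl k i.val))
    linarith
  · have := norm_sub_le_norm_sub_add_norm_sub (((8192 : ℝ)⁻¹ • v) i) P (sc 150 (vl k i.val))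
    linarith

theorem g11b_dl {ρ y : V3} {g s : A4} (h : Lt 150 (1 / 10 ^ 44) xl ρ y g s) {k : ℕ} {u : V3}
    (hu : ∀ i : Fin 3, A0 150 (1 / 10 ^ 36) 1 1 (u i) (vl k i.val))
    (hn : (dl k).nb (4 * 2 ^ 150) = true) : A0 150 (1 / 10 ^ 33) 1 1 (dprd ρ u) (dl k) := by
  have he : (0 : ℝ) ≤ 1 / 10 ^ 36 := by positivity
  have a := fun i => h.ax (e := 1 / 10 ^ 36) (by norm_num) i
  have h1 := (((((hu 0).mul he (a 1)).add ((a 0).mul he (hu 1))).mul he (a 2)).add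
    (((a 0).mul he (a 1)).mul he (hu 2))).round
  change ‖dprd ρ u - sc 150 (dl k)‖ ≤ _ at h1
  have h2 : ‖sc 150 (dl k)‖ ≤ 4 := nb_sc hn (by norm_num)
  have h3 : ‖dprd ρ u - sc 150 (dl k)‖ ≤ 5 * (1 / 10 ^ 33) := h1.trans (by norm_num)
  refine A0.letter ?_ (by linarith) h3
  have := norm_le_norm_add_norm_sub' (dprd ρ u) (sc 150 (dl k))
  linarith

theorem g11b_om (hk : chkKry = true) {ρ y : V3} {g s : A4}
    (h : Lt 150 (1 / 10 ^ 44) xl ρ y g s) {k m : ℕ} {u w : V3}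
    (hu : ∀ i : Fin 3, A0 150 (1 / 10 ^ 36) 1 1 (u i) (vl k i.val))
    (hw : ∀ i : Fin 3, A0 150 (1 / 10 ^ 36) 1 1 (w i) (vl m i.val))
    (hn : (dl k).nb (4 * 2 ^ 150) = true) (hm : (dl m).nb (4 * 2 ^ 150) = true) :
    |Om ρ u w - (omZ k m : ℝ) / 2 ^ 1500| ≤ 1 / 10 ^ 17 := by
  have he : (0 : ℝ) ≤ 1 / 10 ^ 33 := by positivity
  have hu' := fun i => (hu i).mono (e' := 1 / 10 ^ 33) (by norm_num)
  have hw' := fun i => (hw i).mono (e' := 1 / 10 ^ 33) (by norm_num)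
  have b := fun j {x1 x2 : A4} {a1 a2 : Z4} => bet_aux he (x1 := x1) (x2 := x2) (a1 := a1)
    (a2 := a2) ((bd_aux hk h j).1.mono (by norm_num)) ((bd_aux hk h j).2.mono (by norm_num))
    (kry_aux hk h j).2
  have b0 : |betS (ρ 0) (Ring.inverse (ρ 0)) (Ring.inverse (kry (ρ 0))) (u 0) (w 0) -
    2 ^ 14 * (betZ (bl 0) (bi 0) (hz 0) (vl k 0) (vl m 0) : ℝ) / 2 ^ 1500| ≤ _ :=
    b 0 (hu' 0) (hw' 0)
  have b1 : |betS (ρ 1) (Ring.inverse (ρ 1)) (Ring.inverse (kry (ρ 1))) (u 1) (w 1) -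
    2 ^ 14 * (betZ (bl 1) (bi 1) (hz 1) (vl k 1) (vl m 1) : ℝ) / 2 ^ 1500| ≤ _ :=
    b 1 (hu' 1) (hw' 1)
  have b2 : |betS (ρ 2) (Ring.inverse (ρ 2)) (Ring.inverse (kry (ρ 2))) (u 2) (w 2) -
    2 ^ 14 * (betZ (bl 2) (bi 2) (hz 2) (vl k 2) (vl m 2) : ℝ) / 2 ^ 1500| ≤ _ :=
    b 2 (hu' 2) (hw' 2)
  have b3 : |betS (prd ρ) (Ring.inverse (prd ρ)) (Ring.inverse (kry (prd ρ))) (dprd ρ u)
      (dprd ρ w) - 2 ^ 14 * (betZ (bl 3) (bi 3) (hz 3) (dl k) (dl m) : ℝ) / 2 ^ 1500| ≤ _ :=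
    b 3 (g11b_dl h hu hn) (g11b_dl h hw hm)
  have a := fun i => h.ax (e := 1 / 10 ^ 33) (by norm_num) i
  have c := fun i => h.ay (e := 1 / 10 ^ 33) (by norm_num) i
  have c0 : A0 150 (1 / 10 ^ 33) 1 1 (y 0) (xl 3) := c 0
  have c4 : A0 150 (1 / 10 ^ 33) 1 1 (y 1) (xl 4) := c 1
  have c5 : A0 150 (1 / 10 ^ 33) 1 1 (y 2) (xl 5) := c 2
  have c3 : A0 150 (1 / 10 ^ 33) (1 + 1) 1 (y 1 * y 0) ((xl 4).mul (xl 3)) := by
    have := c4.mul he c0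
    rwa [mul_one] at this
  have c1 : |cocS (y 0) (u 0) (w 0) (y 1) (u 1) (w 1) -
      (cocZ (xl 3) (vl k 0) (vl m 0) (xl 4) (vl k 1) (vl m 1) : ℝ) /
        2 ^ (150 * (1 + 1 + (1 + 1)))| ≤ _ :=
    g11b_coc he c0 (hu' 0) (hw' 0) c4 (hu' 1) (hw' 1)
  have c2 : |cocS (y 1 * y 0) (u 0 * ρ 1 + ρ 0 * u 1) (w 0 * ρ 1 + ρ 0 * w 1) (y 2) (u 2) (w 2) -
      (cocZ ((xl 4).mul (xl 3)) ((vl k 0).mul (xl 1) + (xl 0).mul (vl k 1))
        ((vl m 0).mul (xl 1) + (xl 0).mul (vl m 1)) (xl 5) (vl k 2) (vl m 2) : ℝ) /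
        2 ^ (150 * (1 + 1 + (1 + 1) + (1 + 1)))| ≤ _ :=
    g11b_coc he (n := 1 + 1) (m := 1 + 1) c3
      (((hu' 0).mul he (a 1)).add ((a 0).mul he (hu' 1)))
      (((hw' 0).mul he (a 1)).add ((a 0).mul he (hw' 1))) c5 (hu' 2) (hw' 2)
  rw [show 150 * (1 + 1 + (1 + 1)) = 600 from rfl] at c1
  rw [show 150 * (1 + 1 + (1 + 1) + (1 + 1)) = 900 from rfl] at c2
  have i01 : Ring.inverse (ρ 0 * ρ 1) = y 1 * y 0 :=
    inverse_eq (by rw [mul_assoc, ← mul_assoc (ρ 1), h.inv, one_mul, h.inv])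
  have e1 : ∀ z : ℝ, 2 ^ 900 * z / 2 ^ 1500 = z / 2 ^ 600 := fun z => by
    rw [show (2 : ℝ) ^ 1500 = 2 ^ 900 * 2 ^ 600 from pow_add 2 900 600,
      mul_div_mul_left _ _ (by positivity)]
  have e2 : ∀ z : ℝ, 2 ^ 600 * z / 2 ^ 1500 = z / 2 ^ 900 := fun z => by
    rw [show (2 : ℝ) ^ 1500 = 2 ^ 600 * 2 ^ 900 from pow_add 2 600 900,
      mul_div_mul_left _ _ (by positivity)]
  rw [Om_apply, i01, omZ]
  simp only [Int.cast_add, Int.cast_sub, Int.cast_mul, Int.cast_pow, Int.cast_ofNat, add_div, e1, e2,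
    mul_add, mul_sub, sub_div]
  rw [← inverse_eq (h.inv 0), ← inverse_eq (h.inv 1)] at c1
  rw [← inverse_eq (h.inv 2)] at c2
  generalize (2 : ℝ) ^ 1500 = P at b0 b1 b2 b3 ⊢
  generalize (2 : ℝ) ^ 600 = Q at c1 ⊢
  generalize (2 : ℝ) ^ 900 = R at c2 ⊢
  rw [abs_le] at b0 b1 b2 b3 c1 c2 ⊢
  push_cast at c1 c2
  constructor <;>
    linarith [b0.1, b0.2, b1.1, b1.2, b2.1, b2.2, b3.1, b3.2, c1.1, c1.2, c2.1, c2.2]

/-- Scale v, w by 1 / 8192 (Om is bilinear). All letters are A0 with e = 1 / 10 ^ 33: the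
components of the directions by dir_low and sr_close (norm at most 1 / 3), dprd by A0.round and the
norm check of dl. Om_apply, inverse_eq. The total error is below 1 / 10 ^ 17 < 1 / 2 ^ 25. -/
theorem krein_sound (hb : chkBase = true) (hk : chkKry = true) (h : chkKrein = true) {ρ : V3}
    (hρ : ‖ρ - rt‖ ≤ 1 / 10 ^ 165) (j : Fin 9) {v w : V3}
    (hv : ‖v - Bq (Pi.single j 1, 0)‖ ≤ 1 / 10 ^ 32)
    (hw : ‖w - Bq (Pi.single j Complex.I, 0)‖ ≤ 1 / 10 ^ 32) : Om ρ v w ≠ 0 := by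
  obtain ⟨y, s, -, hl⟩ := base_lt hb hρ (g := gt) (by rw [sub_self, norm_zero]; positivity)
  rw [Bq_re] at hv
  rw [Bq_im] at hw
  simp only [chkKrein, Bool.and_eq_true] at h
  have hj := j.isLt
  have h1 := g11b_om hk hl (g11b_vl hb hl _ hv) (g11b_vl hb hl _ hw)
    (alln_sound h.1 (by omega)) (alln_sound h.1 (by omega))
  have h2 := alln_sound h.2 hj
  rw [Nat.ble_eq] at h2
  intro h0
  simp only [map_smul, smul_apply, h0, smul_zero, zero_sub, abs_neg] at h1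
  generalize omZ (2 * j.val) (2 * j.val + 1) = z at h1 h2
  have h3 : (2 : ℝ) ^ 1475 ≤ |(z : ℝ)| := by
    rw [← Int.cast_abs, ← Int.natCast_natAbs, Int.cast_natCast]
    exact_mod_cast h2
  rw [abs_div, abs_of_pos (by positivity : (0 : ℝ) < 2 ^ 1500), div_le_iff₀ (by positivity),
    show (2 : ℝ) ^ 1500 = 2 ^ 25 * 2 ^ 1475 from pow_add 2 25 1475] at h1
  have h4 : (0 : ℝ) < 2 ^ 1475 := by positivity
  generalize (2 : ℝ) ^ 1475 = P at h1 h3 h4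
  linarith

end Pool.Agent.MP_28624d_gt.K

end

section

/-!
Distance to the reference triple.
-/

set_option maxSynthPendingDepth 3

namespace Pool.Agent.MP_28624d_gt.K

theorem rlZ_r (a b : ℤ) (m : L4.ZM) : (rlZ a b m).r = L4.rl ((⟨a, b⟩ : ℂ) • m.toC) := by
  ext i j
  fin_cases i <;> fin_cases j <;> simp [rlZ, Z4.r, Z4.toM, L4.rl, L4.ZM.toC]

theorem g12_rl (c : ℝ) (m : Matrix (Fin 2) (Fin 2) ℂ) : L4.rl ((c : ℂ) • m) = c • L4.rl m := by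
  ext i j
  fin_cases i <;> fin_cases j <;> simp [L4.rl]

theorem g12_unit (q : ℤ) :
    ‖((((2 : ℝ) ^ 200 + q * q)⁻¹ : ℝ) : ℂ) *
      (⟨((2 ^ 200 - q * q : ℤ) : ℝ), ((2 ^ 101 * q : ℤ) : ℝ)⟩ : ℂ)‖ = 1 := by
  have hD : (0 : ℝ) < 2 ^ 200 + q * q := by nlinarith [mul_self_nonneg (q : ℝ)]
  have e : ‖(⟨((2 ^ 200 - q * q : ℤ) : ℝ), ((2 ^ 101 * q : ℤ) : ℝ)⟩ : ℂ)‖ = 2 ^ 200 + q * q := by
    rw [Complex.norm_eq_sqrt_sq_add_sq, ← Real.sqrt_sq hD.le]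
    congr 1
    push_cast
    ring
  rw [norm_mul, e, Complex.norm_real, Real.norm_eq_abs, abs_of_pos (inv_pos.2 hD),
    inv_mul_cancel₀ hD.ne']

theorem g12_one {r n : ℕ} {i : Fin 3} {a : Z4} (h : near1 r i n a = true) :
    ∃ u : ℂ, ‖u‖ = 1 ∧ ‖sc 150 (gz (2 * r)) * sc (150 * n) a * sc 150 (gz (2 * r + 1)) -
      L4.rl (u • L4.M0 i)‖ ≤ 1 / 2 ^ 56 := by
  have h1 := nb_sound h
  generalize uq (3 * r + i.val) = q at h1
  refine ⟨_, g12_unit q, ?_⟩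
  have hD : (2 : ℝ) ^ 200 ≤ 2 ^ 200 + q * q := le_add_of_nonneg_right (mul_self_nonneg _)
  have hD0 : (0 : ℝ) < 2 ^ 200 + q * q := lt_of_lt_of_le (by positivity) hD
  rw [← sc_mul, ← sc_mul, show 150 + 150 * n + 150 = 150 * (n + 2) by ring]
  rw [Z4.sub_def, r_sub, r_sm, r_sl, rlZ_r,
    show 150 * (n + 2) + 200 - 56 = 150 * (n + 2) + 144 by omega] at h1
  have e1 : ((((2 : ℝ) ^ 200 + q * q)⁻¹ : ℝ) : ℂ) *
      (⟨((2 ^ 200 - q * q : ℤ) : ℝ), ((2 ^ 101 * q : ℤ) : ℝ)⟩ : ℂ) * (L4.DD : ℂ)⁻¹ =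
      (((((2 : ℝ) ^ 200 + q * q) * 10 ^ 30)⁻¹ : ℝ) : ℂ) *
        (⟨((2 ^ 200 - q * q : ℤ) : ℝ), ((2 ^ 101 * q : ℤ) : ℝ)⟩ : ℂ) := by
    rw [L4.DD, mul_inv]
    push_cast
    ring
  rw [L4.M0, smul_smul, e1, ← smul_smul, g12_rl, sc]
  have e2 : (((2 ^ 200 + q * q) * 10 ^ 30 : ℤ) : ℝ) = ((2 : ℝ) ^ 200 + q * q) * 10 ^ 30 := by
    push_cast
    ring
  have e3 : ((2 ^ (150 * (n + 2) + 144) * 10 ^ 30 : ℕ) : ℝ) =
      (2 : ℝ) ^ (150 * (n + 2)) * 2 ^ 144 * 10 ^ 30 := by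
    rw [Nat.cast_mul, Nat.cast_pow, Nat.cast_pow, pow_add]
    norm_num
  rw [e2, e3] at h1
  have hP : (0 : ℝ) < 2 ^ (150 * (n + 2)) := by positivity
  generalize (2 : ℝ) ^ (150 * (n + 2)) = P at h1 hP ⊢
  generalize (2 : ℝ) ^ 200 + q * q = D at h1 hD hD0 ⊢
  generalize ((((gz (2 * r)).mul a).mul (gz (2 * r + 1))).r : A4) = X at h1 ⊢
  generalize (L4.rl _ : A4) = Y at h1 ⊢
  have e4 : P⁻¹ • X - (D * 10 ^ 30)⁻¹ • Y =
      (P⁻¹ * (D * 10 ^ 30)⁻¹) • ((D * 10 ^ 30) • X - P • Y) := by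
    rw [smul_sub, smul_smul, smul_smul]
    congr 2 <;> field_simp
  rw [e4, norm_smul, Real.norm_eq_abs, abs_of_pos (by positivity)]
  calc P⁻¹ * (D * 10 ^ 30)⁻¹ * ‖(D * 10 ^ 30) • X - P • Y‖
      ≤ P⁻¹ * (D * 10 ^ 30)⁻¹ * (P * 2 ^ 144 * 10 ^ 30) :=
        mul_le_mul_of_nonneg_left h1 (by positivity)
    _ = 2 ^ 144 / D := by field_simp
    _ ≤ 2 ^ 144 / 2 ^ 200 := div_le_div_of_nonneg_left (by positivity) (by positivity) hD
    _ = 1 / 2 ^ 56 := by norm_num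

theorem g12_g (h : chkNear = true) {r : ℕ} (hr : r < 3) :
    ‖sc 150 (gz (2 * r))‖ ≤ 49 / 10 ∧ ‖sc 150 (gz (2 * r + 1))‖ ≤ 49 / 10 ∧
      0 < (sc 150 (gz (2 * r))).det ∧
      ‖sc 150 (gz (2 * r)) * sc 150 (gz (2 * r + 1)) - 1‖ ≤ 1 / 2 ^ 140 := by
  simp only [chkNear, Bool.and_eq_true] at h
  have h1 := alln_sound h.1.1.1 hr
  simp only [Bool.and_eq_true, decide_eq_true_eq] at h1
  obtain ⟨⟨⟨a1, a2⟩, a3⟩, a4⟩ := h1
  have e : ((49 * 2 ^ 150 / 10 : ℕ) : ℝ) ≤ 49 / 10 * 2 ^ 150 := by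
    refine Nat.cast_div_le.trans (le_of_eq ?_)
    push_cast
    ring
  refine ⟨nb_sc a1 e, nb_sc a2 e, ?_, ?_⟩
  · rw [det_sc]
    have : (0 : ℝ) < ((gz (2 * r)).det : ℝ) := by exact_mod_cast a3
    positivity
  · have a5 := nb_sc (k := 150 + 150) (c := 1 / 2 ^ 140) a4 (by
      rw [show 150 + 150 = 140 + 160 by rfl, pow_add, Nat.cast_pow, Nat.cast_ofNat]
      exact le_of_eq (by field_simp))
    have e1 : sc (150 + 150) (Z4.one.sl 300) = 1 := by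
      rw [show 150 + 150 = 0 + 300 by rfl, sc_sl, sc, r_one, pow_zero, inv_one, one_smul]
    rwa [Z4.sub_def, sc_sub, sc_mul, e1] at a5

/-- G = sc 150 (gz (2 r)) has an exact inverse G' near sc 150 (gz (2 r + 1)) (inv_near). The unit
scalar is u = ((2 ^ 200 - q ^ 2) + 2 ^ 101 q i) / (2 ^ 200 + q ^ 2). -/
theorem near_aux (h : chkNear = true) {r : ℕ} (hr : r < 3) {z : V3} {a : Fin 3 → Z4}
    {n : Fin 3 → ℕ} (hn : ∀ i, n i ≤ 9) (hz : ∀ i, A0 150 (1 / 10 ^ 40) (n i) 1 (z i) (a i))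
    (hc : ∀ i, near1 r i (n i) (a i) = true) : NearV (L4.eta / 4) z := by
  obtain ⟨g1, g2, g3, g4⟩ := g12_g h hr
  obtain ⟨G', b1, b2⟩ := inv_near g4 (by norm_num)
  refine ⟨fun i => sc 150 (gz (2 * r)) * z i * G',
    ⟨_, G', b1, mul_eq_one_comm.1 b1, g3, fun _ => rfl⟩, fun i => ?_⟩
  obtain ⟨u, u1, u2⟩ := g12_one (hc i)
  refine ⟨u, u1, fun x y => ?_⟩
  obtain ⟨-, z2, z3⟩ := hz i
  have p5 : (5 : ℝ) ^ n i ≤ 5 ^ 9 := pow_le_pow_right₀ (by norm_num) (hn i)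
  have p9 : (n i : ℝ) ≤ 9 := by exact_mod_cast hn i
  have z2' : ‖sc (150 * n i) (a i)‖ ≤ 5 ^ 9 := by linarith
  have z3' : ‖z i - sc (150 * n i) (a i)‖ ≤ 9 * 5 ^ 9 * (1 / 10 ^ 40) := by
    refine z3.trans (mul_le_mul_of_nonneg_right ?_ (by positivity))
    rw [one_mul]
    exact mul_le_mul p9 p5 (by positivity) (by norm_num)
  generalize sc 150 (gz (2 * r)) = G at *
  generalize sc 150 (gz (2 * r + 1)) = H at *
  generalize sc (150 * n i) (a i) = S at *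
  generalize (L4.rl (u • L4.M0 i) : A4) = Y at *
  have b3 : ‖G' - H‖ ≤ 1 / 10 ^ 40 := by
    refine b2.trans ((mul_le_mul_of_nonneg_left g2 (by positivity)).trans ?_)
    norm_num
  have b4 : ‖G'‖ ≤ 5 := by
    have := norm_add_le (G' - H) H
    rw [sub_add_cancel] at this
    linarith [show (1 : ℝ) / 10 ^ 40 ≤ 1 / 10 by norm_num]
  have e : G * z i * G' - Y = G * (z i - S) * G' + G * S * (G' - H) + (G * S * H - Y) := by
    noncomm_ring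
  have c1 : ‖G * (z i - S) * G'‖ ≤ 49 / 10 * (9 * 5 ^ 9 * (1 / 10 ^ 40)) * 5 :=
    (norm_mul_le _ _).trans (mul_le_mul ((norm_mul_le _ _).trans
      (mul_le_mul g1 z3' (norm_nonneg _) (by norm_num))) b4 (norm_nonneg _) (by norm_num))
  have c2 : ‖G * S * (G' - H)‖ ≤ 49 / 10 * 5 ^ 9 * (1 / 10 ^ 40) :=
    (norm_mul_le _ _).trans (mul_le_mul ((norm_mul_le _ _).trans
      (mul_le_mul g1 z2' (norm_nonneg _) (by norm_num))) b3 (norm_nonneg _) (by norm_num))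
  refine (abs_entry_le (G * z i * G' - Y) x y).trans ?_
  rw [e]
  refine norm_add₃_le.trans ((add_le_add (add_le_add c1 c2) u2).trans ?_)
  rw [L4.eta]
  norm_num

/-- phi1_eq and Ap.st (A0_iff). -/
theorem near_sound (hb : chkBase = true) (h : chkNear = true) {ρ : V3}
    (hρ : ‖ρ - rt‖ ≤ 1 / 10 ^ 165) (r : Fin 3) : NearV (L4.eta / 4) (phi1^[r] ρ) := by
  obtain ⟨y, s, -, hl⟩ := base_lt hb hρ (g := gt) (by rw [sub_self, norm_zero]; positivity)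
  have hm : ∀ (a b : Z4) (X Y : A4), X = a.r → Y = b.r → X * Y = (a * b).r := by
    rintro a b _ _ rfl rfl
    exact (r_mul a b).symm
  have he : (0 : ℝ) ≤ 1 / 10 ^ 40 := by positivity
  have x0 : ∀ i, A0 150 (1 / 10 ^ 40) 1 1 (ρ i) ((bp xl).1 i) := hl.ax (by norm_num)
  have y0 : ∀ i, A0 150 (1 / 10 ^ 40) 1 1 (y i) ((bp xl).2 i) := hl.ay (by norm_num)
  obtain ⟨x1, y1⟩ := Ap.st (n := fun _ => 1) (p := (ρ, y)) (a := bp xl) hm he
    (fun i => A0_iff.1 (x0 i)) fun i => A0_iff.1 (y0 i)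
  obtain ⟨x2, -⟩ := Ap.st hm he x1 y1
  obtain ⟨e1, i1⟩ := phi1_eq hl.inv
  obtain ⟨e2, -⟩ := phi1_eq i1
  have h' := h
  simp only [chkNear, Bool.and_eq_true] at h'
  fin_cases r
  · exact near_aux h (r := 0) (by norm_num) (n := fun _ => 1) (fun _ => by norm_num) x0
      (all3_sound h'.1.1.2)
  · change NearV _ (phi1 ρ)
    rw [e1]
    exact near_aux h (r := 1) (by norm_num) (n := ![3, 1, 3]) (fun i => by fin_cases i <;> simp)
      (fun i => A0_iff.2 (x1 i)) (all3_sound h'.1.2)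
  · change NearV _ (phi1 (phi1 ρ))
    rw [e1, e2]
    exact near_aux h (r := 2) (by norm_num) (n := ![7, 3, 9]) (fun i => by fin_cases i <;> simp)
      (fun i => A0_iff.2 (x2 i)) (all3_sound h'.2)

end Pool.Agent.MP_28624d_gt.K

end

section

/-!
The set W has positive measure.
-/

set_option maxSynthPendingDepth 3

namespace Pool.Agent.MP_28624d_gt.K

open MeasureTheory

theorem mn_R : ∃ R : V3 →L[ℝ] U48, (∀ u, R (Tf Bq rt u) = u) ∧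
    (∀ v, ‖R v‖ ≤ 24 * 10 ^ 18 * ‖v‖) ∧ ∀ v, ‖R v - R0 v‖ ≤ 5 / 10 ^ 33 * ‖v‖ := by
  obtain ⟨R, h1, h2, h3⟩ := exists_left_inv (A := TfL Bq rt) (S0 := R0) (ε := 2 / 10 ^ 52)
    (c := 12 * 10 ^ 18) (by positivity) (by norm_num)
    (fun u => by rw [TfL_apply]; exact inv_sound chkBase_true chkInv_true u)
    (row_sound chkInv_true).1
  refine ⟨R, fun u => by rw [← TfL_apply]; exact h1 u,
    fun v => (h2 v).trans (le_of_eq (by ring)), fun v => (h3 v).trans ?_⟩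
  exact mul_le_mul_of_nonneg_right (by norm_num) (norm_nonneg v)

theorem mn_L0 (D : V3 →L[ℝ] T 15) (B : Cn 9 × T 15 →L[ℝ] V3) (S : T 15 →L[ℝ] T 15) {c : ℝ}
    (h : ∀ t, ‖S (D (B (0, t))) - t‖ ≤ 1 / 2 * ‖t‖) (hc : ∀ t, ‖S t‖ ≤ c * ‖t‖) :
    ∃ L : T 15 →L[ℝ] T 15, (∀ t, L (D (B (0, t))) = t) ∧ ∀ v, ‖L v‖ ≤ 2 * c * ‖v‖ := by
  obtain ⟨L, h1, h2, -⟩ := exists_left_inv
    (A := D.comp (B.comp (ContinuousLinearMap.inr ℝ (Cn 9) (T 15)))) (S0 := S)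
    (ε := 1 / 2) (c := c) (by norm_num) le_rfl h hc
  exact ⟨L, h1, h2⟩

theorem mn_L : ∃ L : T 15 →L[ℝ] T 15, (∀ t, L (fderiv ℝ kap rt (Bq (0, t))) = t) ∧
    ∀ v, ‖L v‖ ≤ 2 * 10 ^ 17 * ‖v‖ :=
  mn_L0 _ _ _ (cas_inv chkBase_true chkCas_true) (L0_bound chkCas_true)

theorem mn_rt : ‖rt‖ ≤ 39 / 10 :=
  (pi_norm_le_iff_of_nonneg (by norm_num)).2 fun i =>
    (base_norm chkBase_true).1 i.val (by omega)

theorem mn_dg (z : Cn 9) : ‖dg lam z‖ ≤ 2 * ‖z‖ := by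
  refine (pi_norm_le_iff_of_nonneg (by positivity)).2 fun j => ?_
  rw [dg_apply, norm_mul]
  exact mul_le_mul ((lam_sound chkLam_true).1 j) (norm_le_pi_norm z j) (norm_nonneg _) (by norm_num)

theorem mn_Tf (u : U48) : ‖Tf Bq rt u‖ ≤ 32 * ‖u.1‖ + 10 ^ 5 * ‖u.2‖ := by
  have h1 := norm_Tf_sub Bq rt 0 (u.1, 0)
  have e0 : Tf Bq 0 (u.1, 0) = 0 := by
    funext i
    simp [Tf]
  have e1 : Tf Bq rt u = Tf Bq rt (u.1, 0) + Bq u.2 := by
    funext i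
    simp [Tf]
  have e2 : ‖((u.1, 0) : U48)‖ = ‖u.1‖ := by simp [Prod.norm_def]
  rw [e0, sub_zero, sub_zero, e2] at h1
  have h2 := norm_Bq_le (norm_dir chkBase_true) u.2
  have h3 := norm_add_le (Tf Bq rt (u.1, 0)) (Bq u.2)
  have h4 := mn_rt
  have h5 := norm_nonneg u.1
  rw [e1]
  nlinarith

theorem mn_coord {R : V3 →L[ℝ] U48} (hR : ∀ v, ‖R v - R0 v‖ ≤ 5 / 10 ^ 33 * ‖v‖) {Y : V3}
    (hY : ‖Y‖ ≤ 10 ^ 28) {r : ℕ} (hr : r < 18) {a : ℝ} (h : |rowL r Y - a| ≤ 2 / 1000) :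
    |coL r (R Y) - a| ≤ 3 / 1000 := by
  have h1 := abs_coL_le r (R Y - R0 Y)
  rw [map_sub, coL_R0 (by omega)] at h1
  have h2 := hR Y
  have h3 := abs_sub_le (coL r (R Y)) (rowL r Y) a
  have h4 : 5 / 10 ^ 33 * ‖Y‖ ≤ 5 / 10 ^ 33 * 10 ^ 28 :=
    mul_le_mul_of_nonneg_left hY (by positivity)
  norm_num at h4
  linarith

/-- R, L from exists_left_inv (A = TfL Bq rt, S0 = R0; A = fderiv kap rt ∘ Bq ∘ inr, S0 = L0). -/
theorem exists_nf : ∃ (R : V3 →L[ℝ] U48) (L : T 15 →L[ℝ] T 15),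
    NF rt gt Bq R L zeta lam (10 ^ 20) (10 ^ 28) (1 / 10 ^ 35) (1 / 10 ^ 116) (1 / 10 ^ 232)
      (1 / 10 ^ 187) (1 / 10 ^ 165) (1 / 10 ^ 32) := by
  obtain ⟨R, R1, R2, R3⟩ := mn_R
  obtain ⟨L, L1, L2⟩ := mn_L
  have hb := chkBase_true
  have hrow := (row_sound chkInv_true).2
  have hl := lam_sound chkLam_true
  refine ⟨R, L, ⟨fun ρ g hρ hg => ?_, fun ρ hρ u => ?_, fun ρ g hρ hg y => ?_, fun ρ hρ y => ?_,
    ?_, fun ρ hρ => ?_, fun v => ?_, fun y => ?_, fun t => ?_, ?_, hl.1, hl.2.2.1, hl.2.2.2,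
    hl.2.1, fun ρ hρ j v w hv hw => krein_sound hb chkKry_true chkKrein_true hρ j hv hw,
    fun ρ g hρ hg j k τ s X1 X2 hτ hs hX hX2 => ?_,
    fun ρ g hρ hg j k τ s s' X1 X2 X2' l hτ hs hs' hX hX2 hX2' hlj => ?_⟩⟩
  · have hd := base_detg hb hg
    exact ⟨good_sound hb chkKry_true hρ,
      (Matrix.isUnit_iff_isUnit_det g).2 (isUnit_iff_ne_zero.2 hd.ne'), hd⟩
  · have h1 := R2 (Tf Bq ρ u - Tf Bq rt u)
    rw [map_sub, R1] at h1
    have h2 := norm_Tf_sub Bq ρ rt u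
    have h3 : 8 * ‖ρ - rt‖ * ‖u‖ ≤ 8 * (1 / 10 ^ 165) * ‖u‖ := by gcongr
    have h4 : 24 * 10 ^ 18 * ‖Tf Bq ρ u - Tf Bq rt u‖ ≤
        24 * 10 ^ 18 * (8 * (1 / 10 ^ 165) * ‖u‖) := by gcongr; exact h2.trans h3
    refine (h1.trans h4).trans ?_
    rw [← mul_assoc]
    exact mul_le_mul_of_nonneg_right (by norm_num) (norm_nonneg u)
  · have h1 := lin_sound hb chkLin_true1 chkLin_true2 hρ hg y
    have hy := norm_nonneg y
    constructor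
    · have h2 := R2 (fderiv ℝ (Psi g) ρ (Bq y) - Tf Bq rt (zeta y.2, dg lam y.1, y.2))
      rw [map_sub, R1] at h2
      refine (h2.trans (mul_le_mul_of_nonneg_left h1 (by positivity))).trans ?_
      rw [← mul_assoc]
      exact mul_le_mul_of_nonneg_right (by norm_num) hy
    · have h2 := mn_Tf (zeta y.2, dg lam y.1, y.2)
      have h3 := norm_zeta_le y.2
      have h4 := mn_dg y.1
      have h5 := norm_fst_le y
      have h6 := norm_snd_le y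
      have h7 : ‖((dg lam y.1, y.2) : Cn 9 × T 15)‖ ≤ 2 * ‖y‖ := by
        rw [Prod.norm_def]
        exact max_le (by dsimp only; linarith) (by dsimp only; linarith)
      have h8 := norm_le_norm_add_norm_sub' (fderiv ℝ (Psi g) ρ (Bq y))
        (Tf Bq rt (zeta y.2, dg lam y.1, y.2))
      have h9 : 1 / 10 ^ 136 * ‖y‖ ≤ 1 * ‖y‖ := mul_le_mul_of_nonneg_right (by norm_num) hy
      dsimp only at h2
      linarith
  · have h1 := cas_sound hb chkCas_true hρ y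
    have h2 := L2 (fderiv ℝ kap ρ (Bq y) - fderiv ℝ kap rt (Bq (0, y.2)))
    rw [map_sub, L1] at h2
    refine (h2.trans (mul_le_mul_of_nonneg_left h1 (by positivity))).trans ?_
    rw [← mul_assoc]
    exact mul_le_mul_of_nonneg_right (by norm_num) (norm_nonneg y)
  · have h1 := base_res hb (r := 0) le_rfl (by positivity) (ρ := rt) (by simp)
    simpa using h1
  · refine (base_res hb (by positivity) (by norm_num) hρ).trans (by norm_num)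
  · exact (R2 v).trans (mul_le_mul_of_nonneg_right (by norm_num) (norm_nonneg v))
  · exact (norm_Bq_le (norm_dir hb) y).trans
      (mul_le_mul_of_nonneg_right (by norm_num) (norm_nonneg y))
  · exact (norm_zeta_le t).trans (mul_le_mul_of_nonneg_right (by norm_num) (norm_nonneg t))
  · exact (base_norm hb).2.1.trans (by norm_num)
  · have hj := j.2
    rcases hs with hs | hs
    · rw [Bq_re] at hs
      exact (Yv_aux hb hrow hρ hg k (by omega) hτ hs hX hX2).1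
    · rw [Bq_im] at hs
      exact (Yv_aux hb hrow hρ hg k (by omega) hτ hs hX hX2).1
  · have hj := j.2
    rw [Bq_re] at hs
    rw [Bq_im] at hs'
    obtain ⟨a1, a2⟩ := Yv_aux hb hrow hρ hg k (by omega) hτ hs hX hX2
    obtain ⟨b1, b2⟩ := Yv_aux hb hrow hρ hg k (by omega) hτ hs' hX hX2'
    refine frq_sound (chkFrq_true k) j (hl.1 j) hlj ?_ ?_ ?_ ?_
    · rw [← coL_re]
      exact mn_coord R3 a1 (by omega) (a2 _ (by omega))
    · rw [← coL_im]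
      exact mn_coord R3 a1 (by omega) (a2 _ (by omega))
    · rw [← coL_re]
      exact mn_coord R3 b1 (by omega) (b2 _ (by omega))
    · rw [← coL_im]
      exact mn_coord R3 b1 (by omega) (b2 _ (by omega))

/-- stab_of_nf with η' = 2 / 10 ^ 53 and r = 1 / 10 ^ 208, then kam_of_stab. -/
theorem kam [MeasurableSpace L4.G] [BorelSpace L4.G] (μ : Measure L4.G) [μ.IsHaarMeasure] :
    (Measure.pi fun _ : Fin 3 => μ) L4.W ≠ 0 := by
  obtain ⟨R, L, h⟩ := exists_nf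
  obtain ⟨ρ0, h1, h2, h3⟩ := stab_of_nf (η' := 2 / 10 ^ 53) (r := 1 / 10 ^ 208) h (by norm_num)
    (by positivity) (by positivity) (by norm_num) (by norm_num) (by norm_num) (by norm_num)
    (by norm_num) (by norm_num) (by positivity) (by norm_num) (by norm_num) (by norm_num)
    (by norm_num) (by norm_num) (by positivity) (by norm_num)
  have h4 : ‖ρ0 - rt‖ ≤ 1 / 10 ^ 165 := h1.trans (by norm_num)
  refine kam_of_stab μ h2 h3 (by unfold L4.eta; positivity) (by unfold L4.eta; norm_num) norm_M0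
    (fun i => (base_det chkBase_true h4 i).trans (by unfold L4.eta; norm_num))
    (near_sound chkBase_true chkNear_true h4)

end Pool.Agent.MP_28624d_gt.K

end

section

/-!
Triples in W are not redundant.
-/

namespace Pool.Agent.MP_28624d_gt.L4

theorem not_redundant_of_W {x : Fin 3 → G} (hx : x ∈ W) : ¬ Redundant (FreeGroup.lift x) := by
  rintro ⟨A, hA, hne, hd⟩
  obtain ⟨U, hU, hUn, hE⟩ := exists_open_eig
  obtain ⟨g, hgU, w, hw, rfl⟩ := hd.inter_open_nonempty U hU hUn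
  have hEw := hE _ hgU
  by_cases h1 : w = 1
  · subst h1
    rw [map_one] at hEw
    exact not_eig_one hEw
  · exact not_good_of_eig hEw
      (good_of_check (Fam (FreeGroup.lift x)) (fun _ h => fam_near hx h)
        (fun _ h k _ hj => fam_step h k hj) (fun g hg => grp_sound (DSt.hs_ok g hg)) DSt.sts_ok
        DSt.root_ok (fam_refl _) h1 (sep_of_factor hA hne hw))

end Pool.Agent.MP_28624d_gt.L4

end
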