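import Pool.Agent.MP_28624d_gt.Mg.Jorg

-- part MP_28624d_gt.Factor
section

/-!
Loops avoiding a nonseparating edge lie in a proper free factor.
-/

namespace Pool.Agent.MP_28624d_gt

variable {n : ℕ} {ρ : F n →* G} {V E : Type} [Fintype V] [Fintype E]

theorem factor_subsingleton {H : Type} [Group H] [IsFreeGroup H] (hc : ∀ a b : H, a * b = b * a) :
    Subsingleton (IsFreeGroup.Generators H) := by
  classical
  refine ⟨fun x y => by_contra fun hxy => ?_⟩
  have := congrArg (IsFreeGroup.lift fun z : IsFreeGroup.Generators H =>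
    if z = x then Equiv.swap (0 : Fin 3) 1 else Equiv.swap (0 : Fin 3) 2)
    (hc (IsFreeGroup.of x) (IsFreeGroup.of y))
  rw [map_mul, map_mul, IsFreeGroup.lift_of, IsFreeGroup.lift_of, if_pos rfl,
    if_neg (Ne.symm hxy)] at this
  revert this
  decide

theorem noncomm_of_sup (h3 : 3 ≤ n) (A : Subgroup (F n)) (t : F n)
    (h : A ⊔ Subgroup.zpowers t = ⊤) : ∃ a ∈ A, ∃ b ∈ A, a * b ≠ b * a := by
  classical
  by_contra hc
  push Not at hc
  have hs : Subsingleton (IsFreeGroup.Generators A) :=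
    factor_subsingleton fun a b => Subtype.ext (hc a a.2 b b.2)
  have : Fintype (IsFreeGroup.Generators A) := Fintype.ofFinite _
  let Φ : (Fin n → Multiplicative (ZMod 2)) →
      Multiplicative (ZMod 2) × (IsFreeGroup.Generators A → Multiplicative (ZMod 2)) := fun x =>
    (FreeGroup.lift x t, fun z => FreeGroup.lift x (IsFreeGroup.of z : A))
  have hΦ : Function.Injective Φ := by
    intro x y hxy
    have h1 : FreeGroup.lift x t = FreeGroup.lift y t := congrArg Prod.fst hxy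
    have h2 : (FreeGroup.lift x).comp A.subtype = (FreeGroup.lift y).comp A.subtype :=
      IsFreeGroup.ext_hom fun z => congrFun (congrArg Prod.snd hxy) z
    have h4 : (⊤ : Subgroup (F n)) ≤ (FreeGroup.lift x).eqLocus (FreeGroup.lift y) := by
      rw [← h, sup_le_iff, Subgroup.zpowers_le]
      refine ⟨fun a ha => ?_, h1⟩
      have h5 := DFunLike.congr_fun h2 ⟨a, ha⟩
      exact h5
    exact FreeGroup.lift.injective (MonoidHom.ext fun a => h4 (Subgroup.mem_top a))
  have h5 := Fintype.card_le_of_injective Φ hΦ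
  have h6 : Fintype.card (IsFreeGroup.Generators A) ≤ 1 := Fintype.card_le_one_iff_subsingleton.2 hs
  simp only [Fintype.card_prod, Fintype.card_fun, Fintype.card_multiplicative, ZMod.card,
    Fintype.card_fin] at h5
  have h7 : 2 ^ 3 ≤ 2 ^ n := Nat.pow_le_pow_right two_pos h3
  have h8 : 2 ^ Fintype.card (IsFreeGroup.Generators A) ≤ 2 ^ 1 := Nat.pow_le_pow_right two_pos h6
  omega

omit [Fintype E] in
theorem factor_avoid_append {e : E} {p q : List (E × Bool)} (hp : Avoid e p) (hq : Avoid e q) :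
    Avoid e (p ++ q) := fun d hd => (List.mem_append.1 hd).elim (hp d) (hq d)

omit [Fintype E] in
theorem factor_avoid_invRev {e : E} {p : List (E × Bool)} (hp : Avoid e p) :
    Avoid e (FreeGroup.invRev p) := by
  intro d hd
  simp only [FreeGroup.invRev, List.mem_reverse, List.mem_map] at hd
  obtain ⟨d', h1, rfl⟩ := hd
  exact hp d' h1

/-- Elements of the free group on the edges given by loops at `v` avoiding `e`. -/
def loops (Γ : Gr V E) (e : E) (v : V) : Subgroup (FreeGroup E) where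
  carrier := {x | ∃ p, Γ.IsPath v p v ∧ Avoid e p ∧ FreeGroup.mk p = x}
  one_mem' := ⟨[], rfl, fun _ h => absurd h List.not_mem_nil, rfl⟩
  mul_mem' := by
    rintro _ _ ⟨p, h1, h2, rfl⟩ ⟨q, h3, h4, rfl⟩
    exact ⟨p ++ q, Γ.isPath_append h1 h3, factor_avoid_append h2 h4, FreeGroup.mul_mk.symm⟩
  inv_mem' := by
    rintro _ ⟨p, h1, h2, rfl⟩
    exact ⟨FreeGroup.invRev p, Γ.isPath_invRev h1, factor_avoid_invRev h2, FreeGroup.inv_mk.symm⟩

omit [Fintype V] [Fintype E] in
theorem factor_detour {Γ : Gr V E} {e : E} (he : Γ.Nonsep e) {u w : V} {p : List (E × Bool)}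
    (hp : Γ.IsPath u p w) : ∃ q, Γ.IsPath u q w ∧ Avoid e q := by
  induction p generalizing u with
  | nil => exact ⟨[], hp, fun _ h => absurd h List.not_mem_nil⟩
  | cons d p ih =>
    obtain ⟨rfl, h2⟩ := hp
    obtain ⟨q, h3, h4⟩ := ih h2
    obtain ⟨s, h5, h6⟩ := he
    obtain ⟨f, b⟩ := d
    by_cases hf : f = e
    · subst hf
      cases b
      · exact ⟨s ++ q, Γ.isPath_append h5 h3, factor_avoid_append h6 h4⟩
      · exact ⟨FreeGroup.invRev s ++ q, Γ.isPath_append (Γ.isPath_invRev h5) h3,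
          factor_avoid_append (factor_avoid_invRev h6) h4⟩
    · refine ⟨(f, b) :: q, ⟨rfl, h3⟩, fun d hd => ?_⟩
      rcases List.mem_cons.1 hd with rfl | hd
      exacts [hf, h4 d hd]

omit [Fintype E] in
theorem factor_lab_congr {H : Type} [Group H] {μ ν : E → H} {e : E} (h : ∀ f, f ≠ e → μ f = ν f)
    {p : List (E × Bool)} (hp : Avoid e p) : lab μ p = lab ν p := by
  induction p with
  | nil => simp
  | cons d p ih =>
    rw [lab_cons, lab_cons, ih fun d hd => hp d (List.mem_cons_of_mem _ hd), dlab, dlab,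
      h _ (hp d List.mem_cons_self)]

omit [Fintype E] in
theorem factor_map_lab {H K : Type} [Group H] [Group K] (r : H →* K) (μ : E → H)
    (p : List (E × Bool)) : r (lab μ p) = lab (fun f => r (μ f)) p := by
  induction p with
  | nil => simp
  | cons d p ih =>
    rw [lab_cons, lab_cons, map_mul, ih]
    obtain ⟨f, b⟩ := d
    cases b <;> simp [dlab]

omit [Fintype E] in
theorem factor_lab_one {H : Type} [Group H] (p : List (E × Bool)) :
    lab (fun _ : E => (1 : H)) p = 1 := by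
  induction p with
  | nil => simp
  | cons d p ih =>
    rw [lab_cons, ih]
    obtain ⟨f, b⟩ := d
    cases b <;> simp [dlab]

theorem factor_of_nonsep (h3 : 3 ≤ n) {Γ : Gr V E} {g : E → F n} (hg : Marked n Γ g) {e : E}
    (he : Γ.Nonsep e) (v : V) :
    IsFreeFactor ((loops Γ e v).map (FreeGroup.lift g)) ∧
      (loops Γ e v).map (FreeGroup.lift g) ≠ ⊤ ∧
      ∃ a ∈ (loops Γ e v).map (FreeGroup.lift g), ∃ b ∈ (loops Γ e v).map (FreeGroup.lift g),
        a * b ≠ b * a := by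
  classical
  have hq : ∀ y, ∃ q, Γ.IsPath v q y ∧ Avoid e q ∧ (y = v → q = []) := by
    intro y
    by_cases hy : y = v
    · exact ⟨[], hy.symm, fun _ h => absurd h List.not_mem_nil, fun _ => rfl⟩
    · obtain ⟨p, hp, -⟩ := hg.gen v y 1
      obtain ⟨q, h1, h2⟩ := factor_detour he hp
      exact ⟨q, h1, h2, fun h => absurd h hy⟩
  choose q q1 q2 q3 using hq
  set A := (loops Γ e v).map (FreeGroup.lift g) with hA
  set j : V → F n := fun y => lab g (q y) with hj
  have jv : j v = 1 := by simp [hj, q3 v rfl]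
  set a : E → F n := fun f => j (Γ.src f) * g f * (j (Γ.tgt f))⁻¹ with ha
  set ℓ : E → List (E × Bool) := fun f =>
    q (Γ.src f) ++ (f, true) :: FreeGroup.invRev (q (Γ.tgt f)) with hℓ
  have ℓ1 : ∀ f, Γ.IsPath v (ℓ f) v := fun f =>
    Γ.isPath_append (q1 _) ⟨rfl, Γ.isPath_invRev (q1 _)⟩
  have ℓ2 : ∀ {H : Type} [Group H] (μ : E → H) (f : E),
      lab μ (ℓ f) = lab μ (q (Γ.src f)) * μ f * (lab μ (q (Γ.tgt f)))⁻¹ := by
    intro H _ μ f
    simp [hℓ, lab_invRev, dlab, mul_assoc]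
  have aA : ∀ f, f ≠ e → a f ∈ A := by
    intro f hf
    refine ⟨FreeGroup.mk (ℓ f), ⟨ℓ f, ℓ1 f, factor_avoid_append (q2 _) fun d hd => ?_, rfl⟩, ℓ2 g f⟩
    rcases List.mem_cons.1 hd with rfl | hd
    exacts [hf, factor_avoid_invRev (q2 _) d hd]
  have ga : ∀ {y z : V} {p : List (E × Bool)}, Γ.IsPath y p z →
      lab a p = j y * lab g p * (j z)⁻¹ := fun hp =>
    Γ.lab_gauge (MonoidHom.id _) a g j (fun _ => rfl) hp
  set B := Subgroup.zpowers (a e) with hB
  have hsup : A ⊔ B = ⊤ := by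
    rw [eq_top_iff]
    intro γ _
    obtain ⟨p, hp, rfl⟩ := hg.gen v v γ
    have h1 := ga hp
    rw [jv, one_mul, inv_one, mul_one] at h1
    rw [← h1, lab]
    have : (FreeGroup.lift a).range ≤ A ⊔ B := by
      rw [FreeGroup.range_lift_eq_closure, Subgroup.closure_le]
      rintro _ ⟨f, rfl⟩
      by_cases hf : f = e
      · rw [hf]
        exact Subgroup.mem_sup_right (Subgroup.mem_zpowers _)
      · exact Subgroup.mem_sup_left (aA f hf)
    exact this ⟨_, rfl⟩
  refine ⟨⟨B, ?_, ?_⟩, ?_, noncomm_of_sup h3 A (a e) hsup⟩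
  · set μA : E → A := fun f => if hf : f = e then 1 else ⟨a f, aA f hf⟩ with hμA
    set μ : E → Monoid.Coprod A B := fun f =>
      if f = e then Monoid.Coprod.inr ⟨a e, Subgroup.mem_zpowers _⟩ else Monoid.Coprod.inl (μA f)
      with hμ
    obtain ⟨r, h, hr⟩ := hg.free _ μ
    set r' : F n →* Monoid.Coprod A B := (MulAut.conj (h v)⁻¹).toMonoidHom.comp r with hr'
    have r1 : ∀ p, Γ.IsPath v p v → r' (lab g p) = lab μ p := by
      intro p hp
      simp [hr', Γ.lab_gauge r g μ h hr hp, mul_assoc]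
    have m1 : ∀ p, Avoid e p → lab μ p = Monoid.Coprod.inl (lab μA p) := by
      intro p hp
      rw [factor_map_lab]
      exact factor_lab_congr (fun f hf => by simp [hμ, hf]) hp
    have m2 : ∀ p, Avoid e p → ((lab μA p : A) : F n) = lab a p := by
      intro p hp
      have := factor_map_lab A.subtype μA p
      rw [Subgroup.subtype_apply] at this
      rw [this]
      exact factor_lab_congr (fun f hf => by simp [hμA, hf]) hp
    have m3 : ∀ y, lab μ (q y) = 1 := by
      intro y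
      have : lab μA (q y) = 1 := Subtype.ext (by
        rw [m2 _ (q2 y), ga (q1 y), jv]
        simp [hj])
      rw [m1 _ (q2 y), this, map_one]
    have e1 : r'.comp A.subtype = Monoid.Coprod.inl := by
      ext ⟨x, hx⟩
      obtain ⟨_, ⟨p, p1, p2, rfl⟩, rfl⟩ := id hx
      change r' (lab g p) = _
      rw [r1 p p1, m1 p p2]
      congr 1
      refine Subtype.ext ?_
      rw [m2 p p2, ga p1, jv, one_mul, inv_one, mul_one]
      rfl
    have e2 : r'.comp B.subtype = Monoid.Coprod.inr := by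
      have : r' (a e) = Monoid.Coprod.inr ⟨a e, Subgroup.mem_zpowers _⟩ := by
        have h1 : a e = lab g (ℓ e) := (ℓ2 g e).symm
        rw [congrArg r' h1, r1 _ (ℓ1 e), ℓ2, m3, m3]
        simp [hμ]
      ext ⟨x, k, rfl⟩
      change r' (a e ^ k) = _
      rw [map_zpow, this, ← map_zpow]
      rfl
    have : r'.comp (Monoid.Coprod.lift A.subtype B.subtype) = MonoidHom.id _ :=
      Monoid.Coprod.hom_ext
        (by rw [MonoidHom.comp_assoc, Monoid.Coprod.lift_comp_inl, e1, MonoidHom.id_comp])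
        (by rw [MonoidHom.comp_assoc, Monoid.Coprod.lift_comp_inr, e2, MonoidHom.id_comp])
    exact Function.LeftInverse.injective (g := r') fun x => DFunLike.congr_fun this x
  · rw [← MonoidHom.range_eq_top, Monoid.Coprod.range_lift, Subgroup.range_subtype,
      Subgroup.range_subtype, hsup]
  · intro htop
    set μ : E → Multiplicative ℤ := fun f => if f = e then Multiplicative.ofAdd 1 else 1 with hμ
    obtain ⟨r, h, hr⟩ := hg.free _ μ
    have r1 : ∀ p, Γ.IsPath v p v → r (lab g p) = lab μ p := by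
      intro p hp
      rw [Γ.lab_gauge r g μ h hr hp, mul_inv_cancel_comm]
    have m1 : ∀ p, Avoid e p → lab μ p = 1 := by
      intro p hp
      rw [← factor_lab_one p]
      exact factor_lab_congr (fun f hf => by simp [hμ, hf]) hp
    obtain ⟨_, ⟨p, p1, p2, rfl⟩, hp⟩ : a e ∈ A := htop ▸ Subgroup.mem_top _
    have h1 : lab g p = lab g (ℓ e) := hp.trans (ℓ2 g e).symm
    have h2 := congrArg r h1
    rw [r1 p p1, r1 _ (ℓ1 e), ℓ2, m1 p p2, m1 _ (q2 _), m1 _ (q2 _)] at h2
    simp [hμ, eq_comm (a := (1 : Multiplicative ℤ))] at h2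

theorem lab_ne_one {Γ : Gr V E} {g : E → F n} (hg : Marked n Γ g) {v : V} {p : List (E × Bool)}
    (hp : Γ.IsPath v p v) (h1 : FreeGroup.mk p ≠ 1) : lab g p ≠ 1 := by
  intro h2
  obtain ⟨r, h, hr⟩ := hg.free _ (FreeGroup.of : E → FreeGroup E)
  have := Γ.lab_gauge r g _ h hr hp
  rw [h2, map_one, lab, FreeGroup.lift_of_apply, eq_comm, conj_eq_one_iff] at this
  exact h1 this

theorem good_hyp (h3 : 3 ≤ n) (hD : HD ρ) {Γ : Gr V E} {M : E → G} (hM : Good ρ Γ M) {e : E}
    (he : Γ.Nonsep e) {v : V} {p : List (E × Bool)} (hp : Γ.IsPath v p v) (ha : Avoid e p)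
    (h1 : FreeGroup.mk p ≠ 1) : Hyp (lab M p) := by
  obtain ⟨g, h, hg, hr⟩ := hM
  obtain ⟨f1, f2, f3⟩ := factor_of_nonsep h3 hg he v
  have := hD _ f1 f2 f3 (lab g p) ⟨_, ⟨p, hp, ha, rfl⟩, rfl⟩ (lab_ne_one hg hp h1)
  rwa [Γ.lab_gauge ρ g M h hr hp, Hyp, tr_conj] at this

theorem factor_cm_pm {g : G} (hg : PM g 1) (x : G) : cm g x = 1 := by
  rcases hg with rfl | rfl
  · simp [cm]
  · have : (-1 : G)⁻¹ = -1 := inv_eq_of_mul_eq_one_right (by simp)
    simp [cm, this]

theorem cl_nf (h3 : 3 ≤ n) (hD : HD ρ) {Γ : Gr V E} {M : E → G} (hM : M ∈ Cl ρ Γ) {e : E}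
    (he : Γ.Nonsep e) {v : V} {p : List (E × Bool)} (hp : Γ.IsPath v p v) (ha : Avoid e p)
    (h1 : FreeGroup.mk p ≠ 1) : NF (lab M p) := by
  intro z hz
  have hK : ∀ M', Good ρ Γ M' → ∀ x ∈ loops Γ e v, x ≠ 1 → Hyp (FreeGroup.lift M' x) := by
    rintro M' hM' _ ⟨s, s1, s2, rfl⟩ s3
    exact good_hyp h3 hD hM' he s1 s2 s3
  have hpl : FreeGroup.mk p ∈ loops Γ e v := ⟨p, hp, ha, rfl⟩
  have htr : 2 ≤ |tr (lab M p)| :=
    closure_minimal (t := {M' : E → G | 2 ≤ |tr (lab M' p)|})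
      (fun M' hM' => (hK M' hM' _ hpl h1).le)
      (isClosed_le continuous_const (continuous_tr.comp (continuous_lab p)).abs) hM
  have hpm := pm_one_of_fixed hz htr
  obtain ⟨b, hb, hab⟩ : ∃ b ∈ loops Γ e v, FreeGroup.mk p * b ≠ b * FreeGroup.mk p := by
    by_contra hc
    push Not at hc
    obtain ⟨M', hM'⟩ := Set.Nonempty.of_closure ⟨M, hM⟩
    obtain ⟨g, hg⟩ := Cl.marked hM
    obtain ⟨_, ⟨x, hx, rfl⟩, _, ⟨y, hy, rfl⟩, hxy⟩ := (factor_of_nonsep h3 hg he v).2.2
    have hxy' : x * y * x⁻¹ * y⁻¹ ≠ 1 := by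
      intro h
      apply hxy
      rw [← map_mul, ← map_mul, mul_inv_eq_one, mul_inv_eq_iff_eq_mul] at *
      rw [h]
    have h2 := hK M' hM' _ (mul_mem (mul_mem (mul_mem hx hy) (inv_mem hx)) (inv_mem hy)) hxy'
    have h4 := comm_of_hyp (x := FreeGroup.lift M' x) (y := FreeGroup.lift M' y)
      (hK M' hM' _ hpl h1) (by rw [← map_mul, hc x hx, map_mul])
      (by rw [← map_mul, hc y hy, map_mul])
    rw [map_mul, map_mul, map_mul, map_inv, map_inv, h4, Hyp] at h2
    simp [tr_one] at h2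
  obtain ⟨s, s1, s2, rfl⟩ := id hb
  have cp := continuous_lab (E := E) p
  have cs := continuous_lab (E := E) s
  have := closure_minimal (t := {M' : E → G | 4 ≤ |tr (cm (lab M' p) (lab M' s)) - 2|} ∪
      {M' : E → G | 4 ≤ |tr (cm (lab M' p) (lab M' s * lab M' p * (lab M' s)⁻¹)) - 2|})
    (fun M' hM' => jorg (FreeGroup.lift M') (loops Γ e v) (hK M' hM') hpl hb hab)
    ((isClosed_le continuous_const ((continuous_tr.comp
      (((cp.mul cs).mul cp.inv).mul cs.inv)).sub continuous_const).abs).union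
      (isClosed_le continuous_const ((continuous_tr.comp
        (((cp.mul ((cs.mul cp).mul cs.inv)).mul cp.inv).mul ((cs.mul cp).mul cs.inv).inv)).sub
          continuous_const).abs)) hM
  rcases this with h | h <;>
  · simp only [Set.mem_ofPred_eq, factor_cm_pm hpm, tr_one] at h
    norm_num at h

theorem exists_nonsep (h3 : 3 ≤ n) {Γ : Gr V E} {g : E → F n} (hg : Marked n Γ g) (e₀ : E) :
    ∃ e, e ≠ e₀ ∧ Γ.Nonsep e := by
  classical
  by_contra hc
  push Not at hc
  set χ : E → V → ℚ := fun e w => if ∃ p, Γ.IsPath (Γ.tgt e) p w ∧ Avoid e p then 1 else 0 with hχ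
  have hli : LinearIndependent ℚ fun f : {f // f ≠ e₀} =>
      (Finsupp.single (Γ.tgt f) 1 - Finsupp.single (Γ.src f) 1 : V →₀ ℚ) := by
    refine LinearIndependent.of_pairwise_dual_eq_zero_one _
      (fun f => Finsupp.linearCombination ℚ (χ f)) (fun f f' hff => ?_) fun f => ?_
    · have hne : (f' : E) ≠ f := fun h => hff (Subtype.ext h.symm)
      have hav : ∀ b, Avoid (f : E) [((f' : E), b)] := fun b d hd => by
        rw [List.mem_singleton.1 hd]
        exact hne
      have : (∃ p, Γ.IsPath (Γ.tgt f) p (Γ.tgt f') ∧ Avoid (f : E) p) ↔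
          ∃ p, Γ.IsPath (Γ.tgt f) p (Γ.src f') ∧ Avoid (f : E) p :=
        ⟨fun ⟨p, h1, h2⟩ => ⟨p ++ [((f' : E), false)], Γ.isPath_append h1 ⟨rfl, rfl⟩,
          factor_avoid_append h2 (hav _)⟩,
        fun ⟨p, h1, h2⟩ => ⟨p ++ [((f' : E), true)], Γ.isPath_append h1 ⟨rfl, rfl⟩,
          factor_avoid_append h2 (hav _)⟩⟩
      simp only [map_sub, Finsupp.linearCombination_single, one_smul, hχ, this, sub_self]
    · have h1 : ∃ p, Γ.IsPath (Γ.tgt f) p (Γ.tgt f) ∧ Avoid (f : E) p :=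
        ⟨[], rfl, fun _ h => absurd h List.not_mem_nil⟩
      have h2 : ¬ ∃ p, Γ.IsPath (Γ.tgt f) p (Γ.src f) ∧ Avoid (f : E) p := hc f f.2
      simp only [map_sub, Finsupp.linearCombination_single, one_smul, hχ, if_pos h1, if_neg h2,
        sub_zero]
  have h1 := hli.fintype_card_le_finrank
  rw [Module.finrank_finsupp_self, Fintype.card_subtype_compl, Fintype.card_subtype_eq] at h1
  have := hg.card
  omega

theorem good_prim (h3 : 3 ≤ n) (hD : HD ρ) {Γ : Gr V E} {M : E → G} (hM : Good ρ Γ M) {e : E}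
    {v : V} {p : List (E × Bool)} (hp : Γ.IsPath v p v) (he : Once e p) : Hyp (lab M p) := by
  classical
  have hM' := good_exch hM hp he
  obtain ⟨g, h, hg, -⟩ := id hM'
  obtain ⟨e', h1, h2⟩ := exists_nonsep h3 hg e
  have := good_hyp h3 hD hM' h2 (v := v) (p := [(e, true)])
    ⟨by simp [Gr.st, Gr.exch], by simp [Gr.IsPath, Gr.en, Gr.exch]⟩
    (fun d hd => by
      rw [List.mem_singleton.1 hd]
      exact h1.symm) (FreeGroup.of_ne_one e)
  simpa [dlab] using this

theorem cl_loop_pos (h3 : 3 ≤ n) (hD : HD ρ) {Γ : Gr V E} {M : E → G} (hM : M ∈ Cl ρ Γ) {e : E}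
    (he : Γ.src e = Γ.tgt e) : 0 < len (M e) := by
  obtain ⟨g, hg⟩ := Cl.marked hM
  obtain ⟨e', h1, h2⟩ := exists_nonsep h3 hg e
  have := cl_nf h3 hD hM h2 (v := Γ.src e) (p := [(e, true)]) ⟨rfl, he.symm⟩
    (fun d hd => by
      rw [List.mem_singleton.1 hd]
      exact h1.symm) (FreeGroup.of_ne_one e) UpperHalfPlane.I
  refine (len_nonneg _).lt_of_ne fun h => this ?_
  simpa [dlab] using (len_eq_zero_iff _).1 h.symm

theorem mk_ne_one_of_red {p : List (E × Bool)} (hp : Red p) (hne : p ≠ []) :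
    FreeGroup.mk p ≠ 1 := by
  classical
  intro h
  have h1 : FreeGroup.IsReduced p := hp.imp fun a b hab h2 => by
    by_contra h3
    refine hab (Prod.ext h2.symm ?_)
    revert h3
    simp only [rev]
    cases a.2 <;> cases b.2 <;> simp
  have h2 := congrArg FreeGroup.toWord h
  rw [FreeGroup.toWord_mk, h1.reduce_eq, FreeGroup.toWord_one] at h2
  exact hne h2

end Pool.Agent.MP_28624d_gt

end

-- part MP_28624d_gt.Window
section

/-!
In a shortest carrier graph a face path is embedded on windows of one period.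
-/

namespace Pool.Agent.MP_28624d_gt

open scoped UpperHalfPlane
open UpperHalfPlane Set

variable {n : ℕ} {ρ : F n →* G} {V E : Type}

/-- A periodic dart sequence behaving like the boundary of a face that meets some edge once. -/
structure Face (Γ : Gr V E) (δ : ℕ → E × Bool) (P : ℕ) : Prop where
  pos : 0 < P
  per : ∀ i, δ (i + P) = δ i
  inj : ∀ i j, δ i = δ j → i % P = j % P
  path : ∀ i, Γ.en (δ i) = Γ.st (δ (i + 1))
  red : ∀ i, δ (i + 1) ≠ rev (δ i)
  once : ∃ m, ∀ m', δ m' ≠ rev (δ m)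

theorem Face.isPath {Γ : Gr V E} {δ : ℕ → E × Bool} {P : ℕ} (h : Face Γ δ P) (s k : ℕ) :
    Γ.IsPath (Γ.st (δ s)) ((List.range' s k).map δ) (Γ.st (δ (s + k))) := by
  induction k generalizing s with
  | zero => rfl
  | succ k ih =>
    rw [List.range'_succ, List.map_cons]
    refine ⟨rfl, ?_⟩
    rw [h.path, show s + (k + 1) = s + 1 + k by ring]
    exact ih (s + 1)

theorem lab_range' {H : Type} [Group H] (g : E → H) (δ : ℕ → E × Bool) (s k : ℕ) :
    lab g ((List.range' s k).map δ) =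
      (pre (fun i => dlab g (δ i)) s)⁻¹ * pre (fun i => dlab g (δ i)) (s + k) := by
  induction k generalizing s with
  | zero => simp
  | succ k ih =>
    rw [List.range'_succ, List.map_cons, lab_cons, ih (s + 1), pre_succ,
      show s + 1 + k = s + (k + 1) by ring]
    group

theorem Face.nodup {Γ : Gr V E} {δ : ℕ → E × Bool} {P : ℕ} (h : Face Γ δ P) (s : ℕ) {k : ℕ}
    (hk : k ≤ P) : ((List.range' s k).map δ).Nodup := by
  refine List.Nodup.map_on (fun x hx y hy hxy => ?_) List.nodup_range'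
  rw [List.mem_range'_1] at hx hy
  have h1 : x ≡ y [MOD P] := h.inj _ _ hxy
  rcases le_total x y with hle | hle
  · have := Nat.eq_zero_of_dvd_of_lt ((Nat.modEq_iff_dvd' hle).1 h1) (by omega)
    omega
  · have := Nat.eq_zero_of_dvd_of_lt ((Nat.modEq_iff_dvd' hle).1 h1.symm) (by omega)
    omega

theorem Face.red_map {Γ : Gr V E} {δ : ℕ → E × Bool} {P : ℕ} (h : Face Γ δ P) (s k : ℕ) :
    Red ((List.range' s k).map δ) := by
  unfold Red
  induction k generalizing s with
  | zero => simp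
  | succ k ih =>
    cases k with
    | zero => simp
    | succ k =>
      have := ih (s + 1)
      rw [List.range'_succ, List.map_cons] at this
      rw [List.range'_succ, List.range'_succ, List.map_cons, List.map_cons]
      exact List.IsChain.cons_cons (h.red s) this

theorem eq_or_rev {d d' : E × Bool} (h : d'.1 = d.1) : d' = d ∨ d' = rev d := by
  obtain ⟨e, b⟩ := d
  obtain ⟨e', b'⟩ := d'
  cases h
  cases b <;> cases b' <;> simp [rev]

theorem once_of_nodup {p : List (E × Bool)} (hp : p.Nodup) {d : E × Bool} (hd : d ∈ p)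
    (hr : rev d ∉ p) : Once d.1 p := by
  obtain ⟨p₁, p₂, rfl⟩ := List.append_of_mem hd
  rw [List.nodup_middle, List.nodup_cons, List.mem_append, not_or] at hp
  refine ⟨p₁, p₂, d.2, rfl, fun d' hd' h => ?_, fun d' hd' h => ?_⟩
  · rcases eq_or_rev h with rfl | rfl
    · exact hp.1.1 hd'
    · exact hr (by simp [hd'])
  · rcases eq_or_rev h with rfl | rfl
    · exact hp.1.2 hd'
    · exact hr (by simp [hd'])

theorem Face.mod {Γ : Gr V E} {δ : ℕ → E × Bool} {P : ℕ} (h : Face Γ δ P) (m : ℕ) :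
    δ (m % P) = δ m := by
  have : ∀ k i, δ (i + P * k) = δ i := by
    intro k
    induction k with
    | zero => simp
    | succ k ih => intro i; rw [Nat.mul_succ, ← add_assoc, h.per, ih]
  conv_rhs => rw [← Nat.mod_add_div m P, this]

theorem Face.exists_once {Γ : Gr V E} {δ : ℕ → E × Bool} {P : ℕ} (h : Face Γ δ P) :
    ∃ e, Once e ((List.range' 0 P).map δ) := by
  obtain ⟨m, hm⟩ := h.once
  refine ⟨(δ m).1, once_of_nodup (h.nodup 0 le_rfl) ?_ ?_⟩
  · exact List.mem_map.2 ⟨m % P, by simpa using Nat.mod_lt _ h.pos, h.mod m⟩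
  · intro hr
    obtain ⟨m', -, hm'⟩ := List.mem_map.1 hr
    exact hm m' hm'

theorem Gr.sum_path (Γ : Gr V E) (c : V → ℤ) {u v : V} {p : List (E × Bool)}
    (hp : Γ.IsPath u p v) : (p.map fun d => c (Γ.en d) - c (Γ.st d)).sum = c v - c u := by
  induction p generalizing u with
  | nil => cases hp; simp
  | cons d p ih =>
    obtain ⟨h1, h2⟩ := hp
    subst h1
    rw [List.map_cons, List.sum_cons, ih h2]
    ring

theorem Gr.closed_of_rev (Γ : Gr V E) {u v : V} {p : List (E × Bool)} (hp : Γ.IsPath u p v)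
    (hn : p.Nodup) (hr : ∀ d ∈ p, rev d ∈ p) : u = v := by
  classical
  have h1 := Γ.sum_path (fun y => if y = u then 1 else 0) hp
  rw [← List.sum_toFinset _ hn, Finset.sum_involution (fun d _ => rev d)
    (fun d _ => by simp) (fun d _ _ => rev_ne d)
    (fun d hd => List.mem_toFinset.2 (hr d (List.mem_toFinset.1 hd))) (fun d _ => rev_rev d)] at h1
  by_contra h
  simp [Ne.symm h] at h1

theorem Face.nonsep {Γ : Gr V E} {δ : ℕ → E × Bool} {P : ℕ} (h : Face Γ δ P) {m : ℕ}
    (hm : ∀ m', δ m' ≠ rev (δ m)) : Γ.Nonsep (δ m).1 := by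
  have hp := h.isPath (m + 1) (P - 1)
  rw [show m + 1 + (P - 1) = m + P by have := h.pos; omega, h.per, ← h.path] at hp
  have ha : Avoid (δ m).1 ((List.range' (m + 1) (P - 1)).map δ) := by
    intro d hd he
    obtain ⟨k, hk, rfl⟩ := List.mem_map.1 hd
    rw [List.mem_range'_1] at hk
    rcases eq_or_rev he with h1 | h1
    · have h2 : m ≡ k [MOD P] := (h.inj _ _ h1).symm
      have := Nat.eq_zero_of_dvd_of_lt ((Nat.modEq_iff_dvd' (by omega)).1 h2) (by omega)
      omega
    · exact hm k h1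
  generalize δ m = d at hp ha
  obtain ⟨e, b⟩ := d
  cases b
  · refine ⟨_, Γ.isPath_invRev hp, fun d hd => ?_⟩
    simp only [FreeGroup.invRev, List.mem_reverse, List.mem_map] at hd
    obtain ⟨d', hd', rfl⟩ := hd
    exact ha d' (List.mem_map.2 hd')
  · exact ⟨_, hp, ha⟩

variable [Fintype V] [Fintype E]

theorem window_vertex (h3 : 3 ≤ n) (hD : HD ρ) {Γ : Gr V E} {M : E → G} (hM : M ∈ Cl ρ Γ)
    (hmin : ∀ a r, Ach ρ a r → tot M ≤ r) (hpos : ∀ e, 0 < len (M e)) {δ : ℕ → E × Bool} {P : ℕ}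
    (hδ : Face Γ δ P) {s t : ℕ} (hst : s < t) (ht : t ≤ s + P) :
    pre (fun i => dlab M (δ i)) s • I ≠ pre (fun i => dlab M (δ i)) t • I := by
  classical
  intro heq
  obtain ⟨k, rfl⟩ := Nat.exists_eq_add_of_le hst.le
  have hn := hδ.nodup s (k := k) (by omega)
  have hp := hδ.isPath s k
  have hfix : lab M ((List.range' s k).map δ) • I = I := by
    rw [lab_range', mul_smul, ← heq, inv_smul_smul]
  by_cases hc : ∀ d ∈ (List.range' s k).map δ, rev d ∈ (List.range' s k).map δ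
  · obtain ⟨m, hm⟩ := hδ.once
    rw [← Γ.closed_of_rev hp hn hc] at hp
    refine cl_nf h3 hD hM (hδ.nonsep hm) hp (fun d hd he => ?_)
      (mk_ne_one_of_red (hδ.red_map s k) ?_) I hfix
    · rcases eq_or_rev he with h1 | h1
      · obtain ⟨m', -, hm'⟩ := List.mem_map.1 (hc d hd)
        exact hm m' (h1 ▸ hm')
      · obtain ⟨m', -, hm'⟩ := List.mem_map.1 hd
        exact hm m' (h1 ▸ hm')
    · simp only [ne_eq, List.map_eq_nil_iff, List.range'_eq_nil_iff]; omega
  · push Not at hc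
    obtain ⟨d, hd, hr⟩ := hc
    have h1 := hmin _ _ ⟨V, E, _, _, _, _, cl_exch hM hp (once_of_nodup hn hd hr), rfl, rfl⟩
    have h2 : tot (Function.update M d.1 (lab M ((List.range' s k).map δ))) + len (M d.1) =
        tot M := by
      have : (fun e => len (Function.update M d.1 (lab M ((List.range' s k).map δ)) e)) =
          Function.update (fun e => len (M e)) d.1 0 := by
        ext e
        by_cases he : e = d.1
        · subst he; simp [(len_eq_zero_iff _).2 hfix]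
        · simp [he]
      simp only [tot, this]
      rw [Finset.sum_update_of_mem (Finset.mem_univ _), zero_add,
        Finset.sum_eq_sum_sdiff_singleton_add (Finset.mem_univ d.1)]
    linarith [hpos d.1]

end Pool.Agent.MP_28624d_gt

end

-- part MP_28624d_gt.Window3
section

/-!
Windows with end points inside edges: subdivide and use the vertex case.
-/

namespace Pool.Agent.MP_28624d_gt

open scoped UpperHalfPlane
open UpperHalfPlane Set

variable {n : ℕ} {ρ : F n →* G} {V E : Type}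

/-- The pieces of a dart in the subdivided graph. -/
def sd (d : E × Bool) (r : Fin 3) : (E × Fin 3) × Bool :=
  cond d.2 ((d.1, r), true) ((d.1, r.rev), false)

theorem sd_inj {d d' : E × Bool} {r r' : Fin 3} (h : sd d r = sd d' r') : d = d' ∧ r = r' := by
  obtain ⟨e, b⟩ := d
  obtain ⟨e', b'⟩ := d'
  cases b <;> cases b' <;> simp_all [sd]

theorem rev_sd (d : E × Bool) (r : Fin 3) : rev (sd d r) = sd (rev d) r.rev := by
  obtain ⟨e, b⟩ := d
  cases b <;> simp [sd, rev]

def sdSeq (δ : ℕ → E × Bool) (k : ℕ) : (E × Fin 3) × Bool :=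
  sd (δ (k / 3)) ⟨k % 3, Nat.mod_lt _ (by norm_num)⟩

theorem sdSeq_add (δ : ℕ → E × Bool) (i : ℕ) (r : Fin 3) : sdSeq δ (3 * i + r) = sd (δ i) r := by
  have h1 : (3 * i + r) / 3 = i := by have := r.2; omega
  have h2 : (3 * i + r) % 3 = r := by have := r.2; omega
  simp only [sdSeq, h1, h2]

theorem Face.sub3 {Γ : Gr V E} {δ : ℕ → E × Bool} {P : ℕ} (h : Face Γ δ P) :
    Face Γ.sub3 (sdSeq δ) (3 * P) := by
  refine ⟨by have := h.pos; omega, fun k => ?_, fun k k' hk => ?_, fun k => ?_, fun k hk => ?_, ?_⟩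
  · have h1 : (k + 3 * P) / 3 = k / 3 + P := by omega
    have h2 : (k + 3 * P) % 3 = k % 3 := by omega
    simp only [sdSeq, h1, h2, h.per]
  · obtain ⟨h1, h2⟩ := sd_inj hk
    have h3 := h.inj _ _ h1
    have h4 : k % 3 = k' % 3 := by simpa using congrArg Fin.val h2
    rw [Nat.mod_mul, Nat.mod_mul, h3, h4]
  · obtain ⟨i, hi⟩ : ∃ i, k = 3 * i + (0 : Fin 3) ∨ k = 3 * i + (1 : Fin 3) ∨
        k = 3 * i + (2 : Fin 3) := ⟨k / 3, by simp; omega⟩
    rcases hi with rfl | rfl | rfl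
    · rw [show 3 * i + ((0 : Fin 3) : ℕ) + 1 = 3 * i + (1 : Fin 3) by simp, sdSeq_add, sdSeq_add]
      obtain ⟨e, b⟩ := δ i
      cases b <;> rfl
    · rw [show 3 * i + ((1 : Fin 3) : ℕ) + 1 = 3 * i + (2 : Fin 3) by simp, sdSeq_add, sdSeq_add]
      obtain ⟨e, b⟩ := δ i
      cases b <;> rfl
    · rw [show 3 * i + ((2 : Fin 3) : ℕ) + 1 = 3 * (i + 1) + (0 : Fin 3) by simp; ring, sdSeq_add,
        sdSeq_add]
      have h1 : ∀ d : E × Bool, Γ.sub3.en (sd d 2) = Sum.inl (Γ.en d) := by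
        rintro ⟨e, b⟩; cases b <;> rfl
      have h2 : ∀ d : E × Bool, Γ.sub3.st (sd d 0) = Sum.inl (Γ.st d) := by
        rintro ⟨e, b⟩; cases b <;> rfl
      rw [h1, h2, h.path]
  · simp only [sdSeq, rev_sd] at hk
    have h1 := (sd_inj hk).1
    have : (k + 1) / 3 = k / 3 ∨ (k + 1) / 3 = k / 3 + 1 := by omega
    rcases this with h2 | h2 <;> rw [h2] at h1
    · exact rev_ne _ h1.symm
    · exact h.red _ h1
  · obtain ⟨m, hm⟩ := h.once
    refine ⟨3 * m, fun m' hk => ?_⟩
    simp only [sdSeq, rev_sd] at hk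
    have h1 := (sd_inj hk).1
    rw [show 3 * m / 3 = m by omega] at h1
    exact hm _ h1

theorem exists_cuts {u v : ℝ} (hu : u ∈ Icc (0 : ℝ) 1) (hv : v ∈ Icc (0 : ℝ) 1) :
    ∃ c₁ c₂ : ℝ, 0 < c₁ ∧ c₁ < c₂ ∧ c₂ < 1 ∧ (u = 0 ∨ u = c₁ ∨ u = c₂ ∨ u = 1) ∧
      (v = 0 ∨ v = c₁ ∨ v = c₂ ∨ v = 1) := by
  have one : ∀ w : ℝ, 0 < w → w < 1 → ∃ c₁ c₂ : ℝ, 0 < c₁ ∧ c₁ < c₂ ∧ c₂ < 1 ∧ w = c₁ :=
    fun w h0 h1 => ⟨w, (w + 1) / 2, h0, by linarith, by linarith, rfl⟩
  by_cases hu' : u = 0 ∨ u = 1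
  · by_cases hv' : v = 0 ∨ v = 1
    · exact ⟨1 / 3, 2 / 3, by norm_num, by norm_num, by norm_num, by tauto, by tauto⟩
    · push Not at hv'
      obtain ⟨c₁, c₂, h1, h2, h3, h4⟩ := one v (lt_of_le_of_ne hv.1 hv'.1.symm)
        (lt_of_le_of_ne hv.2 hv'.2)
      exact ⟨c₁, c₂, h1, h2, h3, by tauto, by tauto⟩
  · push Not at hu'
    have hu0 := lt_of_le_of_ne hu.1 hu'.1.symm
    have hu1 := lt_of_le_of_ne hu.2 hu'.2
    by_cases hv' : v = 0 ∨ v = 1 ∨ v = u
    · obtain ⟨c₁, c₂, h1, h2, h3, h4⟩ := one u hu0 hu1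
      subst h4
      exact ⟨u, c₂, h1, h2, h3, by tauto, by tauto⟩
    · push Not at hv'
      have hv0 := lt_of_le_of_ne hv.1 hv'.1.symm
      have hv1 := lt_of_le_of_ne hv.2 hv'.2.1
      rcases lt_or_gt_of_ne hv'.2.2 with h | h
      · exact ⟨v, u, hv0, h, hu1, by tauto, by tauto⟩
      · exact ⟨u, v, hu0, h, hv1, by tauto, by tauto⟩

/-- Cut positions along a dart. -/
def cpos (c₁ c₂ : ℝ) (b : Bool) (r : Fin 4) : ℝ :=
  ![0, cond b c₁ (1 - c₂), cond b c₂ (1 - c₁), 1] r

theorem cpos_strictMono {c₁ c₂ : ℝ} (h0 : 0 < c₁) (h1 : c₁ < c₂) (h2 : c₂ < 1) (b : Bool) :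
    StrictMono (cpos c₁ c₂ b) := by
  refine Fin.strictMono_iff_lt_succ.2 fun r => ?_
  fin_cases r <;> cases b <;> simp [cpos] <;> linarith

theorem exists_cpos {c₁ c₂ a : ℝ} {b : Bool}
    (h : cond b a (1 - a) = 0 ∨ cond b a (1 - a) = c₁ ∨ cond b a (1 - a) = c₂ ∨
      cond b a (1 - a) = 1) : ∃ r, cpos c₁ c₂ b r = a := by
  cases b
  · simp only [cond_false] at h
    rcases h with h | h | h | h
    · exact ⟨3, by simp [cpos]; linarith⟩
    · exact ⟨2, by simp [cpos]; linarith⟩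
    · exact ⟨1, by simp [cpos]; linarith⟩
    · exact ⟨0, by simp [cpos]; linarith⟩
  · simp only [cond_true] at h
    rcases h with h | h | h | h
    · exact ⟨0, by simp [cpos, h]⟩
    · exact ⟨1, by simp [cpos, h]⟩
    · exact ⟨2, by simp [cpos, h]⟩
    · exact ⟨3, by simp [cpos, h]⟩

theorem smul_rev {M : E → G} {θ : E × Bool → ℝ} {d : E × Bool}
    (hθ : PM (dlab M d) (rot (θ d) * dia (len (M d.1)) * rot (-(1 / 2) - θ (rev d)))) (u : ℝ) :
    ((dlab M d)⁻¹ * (rot (θ d) * dia (len (M d.1) * u))) • I =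
      (rot (θ (rev d)) * dia (len (M d.1) * (1 - u))) • I := by
  rw [(hθ.inv.mul (PM.refl _)).smul_eq]
  have h1 : (rot (θ d) * dia (len (M d.1)) * rot (-(1 / 2) - θ (rev d)))⁻¹ *
      (rot (θ d) * dia (len (M d.1) * u)) =
      rot (θ (rev d)) * dia (len (M d.1) * (1 - u)) * rot (1 / 2) := by
    have h2 := rot_half_dia (-(len (M d.1) * (1 - u)))
    rw [neg_neg] at h2
    have h3 : (rot (-(1 / 2) - θ (rev d)))⁻¹ = rot (θ (rev d)) * rot (1 / 2) := by
      rw [← rot_neg, ← rot_add]; congr 1; ring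
    have h4 : (dia (len (M d.1)))⁻¹ * dia (len (M d.1) * u) = dia (-(len (M d.1) * (1 - u))) := by
      rw [← dia_neg, ← dia_add]; congr 1; ring
    rw [← h2, rot_neg, mul_inv_rev, mul_inv_rev, h3, ← h4]
    group
  rw [h1, mul_smul _ (rot (1 / 2)), rot_smul_I]

variable [Fintype V] [Fintype E]

theorem window (h3 : 3 ≤ n) (hD : HD ρ) {Γ : Gr V E} {M : E → G} (hM : M ∈ Cl ρ Γ)
    (hmin : ∀ a r, Ach ρ a r → tot M ≤ r) (hpos : ∀ e, 0 < len (M e)) {δ : ℕ → E × Bool} {P : ℕ}
    (hδ : Face Γ δ P) (θ : E × Bool → ℝ)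
    (hθ : ∀ d, PM (dlab M d) (rot (θ d) * dia (len (M d.1)) * rot (-(1 / 2) - θ (rev d))))
    (i j : ℕ) (a b : ℝ) (ha : a ∈ Ico (0 : ℝ) 1) (hb : b ∈ Ioc (0 : ℝ) 1)
    (h1 : (i : ℝ) + a < j + b) (h2 : (j : ℝ) + b ≤ i + a + P) :
    (pre (fun r => dlab M (δ r)) i * rot (θ (δ i)) * dia (len (M (δ i).1) * a)) • I ≠
      (pre (fun r => dlab M (δ r)) j * rot (θ (δ j)) * dia (len (M (δ j).1) * b)) • I := by
  obtain ⟨c₁, c₂, hc0, hc1, hc2, hu, hv⟩ := exists_cuts (u := cond (δ i).2 a (1 - a))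
    (v := cond (δ j).2 b (1 - b))
    (by cases (δ i).2 <;> constructor <;> simp <;> linarith [ha.1, ha.2])
    (by cases (δ j).2 <;> constructor <;> simp <;> linarith [hb.1, hb.2])
  obtain ⟨ra, hra⟩ := exists_cpos hu
  obtain ⟨rb, hrb⟩ := exists_cpos hv
  set X : E → G := fun e => rot (θ (e, true)) * dia (len (M e) * c₁) with hX
  set Y : E → G := fun e => rot (θ (e, true)) * dia (len (M e) * c₂) with hY
  have l0 : ∀ e, len (sub3M M X Y (e, 0)) = len (M e) * c₁ := by
    intro e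
    change len (X e) = _
    rw [hX, len_rot_mul, len_dia, abs_of_pos (mul_pos (hpos e) hc0)]
  have l1 : ∀ e, len (sub3M M X Y (e, 1)) = len (M e) * (c₂ - c₁) := by
    intro e
    change len ((X e)⁻¹ * Y e) = _
    have : (X e)⁻¹ * Y e = dia (len (M e) * (c₂ - c₁)) := by
      rw [mul_sub, sub_eq_neg_add, dia_add, dia_neg]; simp only [hX, hY]; group
    rw [this, len_dia, abs_of_pos (mul_pos (hpos e) (by linarith))]
  have l2 : ∀ e, len (sub3M M X Y (e, 2)) = len (M e) * (1 - c₂) := by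
    intro e
    change len ((Y e)⁻¹ * M e) = _
    have h := ((PM.refl (Y e)⁻¹).mul (hθ (e, true))).len_eq
    have : (Y e)⁻¹ * (rot (θ (e, true)) * dia (len (M e)) * rot (-(1 / 2) - θ (rev (e, true)))) =
        dia (len (M e) * (1 - c₂)) * rot (-(1 / 2) - θ (rev (e, true))) := by
      rw [mul_sub, mul_one, sub_eq_neg_add (len (M e)), dia_add, dia_neg]; simp only [hY]; group
    change len ((Y e)⁻¹ * M e) = _ at h
    rw [h, this, len_mul_rot, len_dia, abs_of_pos (mul_pos (hpos e) (by linarith))]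
  have htot : tot (sub3M M X Y) = tot M := by
    simp only [tot, Fintype.sum_prod_type, Fin.sum_univ_three, l0, l1, l2]
    exact Finset.sum_congr rfl fun e _ => by ring
  have hpos3 : ∀ x, 0 < len (sub3M M X Y x) := by
    rintro ⟨e, r⟩
    fin_cases r
    · exact (l0 e).symm ▸ mul_pos (hpos e) hc0
    · exact (l1 e).symm ▸ mul_pos (hpos e) (by linarith)
    · exact (l2 e).symm ▸ mul_pos (hpos e) (by linarith)
  have hfull : ∀ d : E × Bool, dlab (sub3M M X Y) (sd d 0) * dlab (sub3M M X Y) (sd d 1) *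
      dlab (sub3M M X Y) (sd d 2) = dlab M d := by
    rintro ⟨e, b⟩
    cases b
    · change ((Y e)⁻¹ * M e)⁻¹ * ((X e)⁻¹ * Y e)⁻¹ * (X e)⁻¹ = (M e)⁻¹
      group
    · change X e * ((X e)⁻¹ * Y e) * ((Y e)⁻¹ * M e) = M e
      group
  have e0 : ∀ k, sdSeq δ (3 * k) = sd (δ k) 0 := fun k => sdSeq_add δ k 0
  have e1 : ∀ k, sdSeq δ (3 * k + 1) = sd (δ k) 1 := fun k => sdSeq_add δ k 1
  have e2 : ∀ k, sdSeq δ (3 * k + 1 + 1) = sd (δ k) 2 := fun k => sdSeq_add δ k 2
  have hpre : ∀ k, pre (fun r => dlab (sub3M M X Y) (sdSeq δ r)) (3 * k) =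
      pre (fun r => dlab M (δ r)) k := by
    intro k
    induction k with
    | zero => simp
    | succ k ih =>
      rw [show 3 * (k + 1) = 3 * k + 1 + 1 + 1 by ring, pre_succ, pre_succ, pre_succ, pre_succ, ih,
        e0, e1, e2, ← hfull]
      simp only [mul_assoc]
  have hpt : ∀ (k : ℕ) (r : Fin 4),
      pre (fun r => dlab (sub3M M X Y) (sdSeq δ r)) (3 * k + r) • I =
      (pre (fun r => dlab M (δ r)) k * rot (θ (δ k)) *
        dia (len (M (δ k).1) * cpos c₁ c₂ (δ k).2 r)) • I := by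
    intro k r
    rw [mul_assoc, mul_smul]
    fin_cases r
    · change pre _ (3 * k) • I = _
      simp [hpre, cpos, dia_zero, rot_smul_I]
    · change pre _ (3 * k + 1) • I = _
      rw [pre_succ, hpre, e0, mul_smul]
      congr 1
      obtain ⟨e, b⟩ := δ k
      cases b
      · have := smul_rev (hθ (e, true)) c₂
        change (((Y e)⁻¹ * M e)⁻¹) • I = (rot (θ (e, false)) * dia (len (M e) * (1 - c₂))) • I
        rw [mul_inv_rev, inv_inv]
        exact this
      · rfl
    · change pre _ (3 * k + 1 + 1) • I = _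
      rw [pre_succ, pre_succ, hpre, e0, e1, mul_assoc, mul_smul]
      congr 1
      obtain ⟨e, b⟩ := δ k
      cases b
      · have := smul_rev (hθ (e, true)) c₁
        change (((Y e)⁻¹ * M e)⁻¹ * ((X e)⁻¹ * Y e)⁻¹) • I =
          (rot (θ (e, false)) * dia (len (M e) * (1 - c₁))) • I
        rw [show ((Y e)⁻¹ * M e)⁻¹ * ((X e)⁻¹ * Y e)⁻¹ = (M e)⁻¹ * X e by group]
        exact this
      · change (X e * ((X e)⁻¹ * Y e)) • I = (Y e) • I
        rw [mul_inv_cancel_left]
    · change pre _ (3 * (k + 1)) • I = _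
      rw [hpre, pre_succ, mul_smul, (hθ (δ k)).smul_eq, mul_smul _ (rot _), rot_smul_I]
      simp [cpos]
  rw [← hra, ← hrb, ← hpt, ← hpt]
  have hmono := cpos_strictMono hc0 hc1 hc2
  have hra3 : (ra : ℕ) ≤ 2 := by
    by_contra h
    have : ra = 3 := Fin.ext (by have := ra.2; simp; omega)
    rw [this] at hra
    have : a = 1 := by simpa [cpos] using hra.symm
    linarith [ha.2]
  have hrb1 : 1 ≤ (rb : ℕ) := by
    by_contra h
    have : rb = 0 := Fin.ext (by simp; omega)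
    rw [this] at hrb
    have : b = 0 := by simpa [cpos] using hrb.symm
    linarith [hb.1]
  have hij : i ≤ j := by
    have : (i : ℝ) < j + 1 := by linarith [ha.1, hb.2]
    exact Nat.lt_succ_iff.1 (by exact_mod_cast this)
  have hji : j ≤ i + P := by
    have : (j : ℝ) < (i + P : ℕ) + 1 := by push_cast; linarith [ha.2, hb.1]
    exact Nat.lt_succ_iff.1 (by exact_mod_cast this)
  refine window_vertex h3 hD (cl_sub3 hM X Y) (fun a r h => htot ▸ hmin a r h) hpos3 hδ.sub3 ?_ ?_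
  · rcases hij.lt_or_eq with h | rfl
    · omega
    · have : ra < rb := (hmono (δ i).2).lt_iff_lt.1 (by rw [hra, hrb]; linarith)
      have : (ra : ℕ) < rb := this
      omega
  · rcases hji.lt_or_eq with h | rfl
    · have := rb.2; omega
    · rw [hδ.per] at hrb
      push_cast at h2
      have : rb ≤ ra := (hmono (δ i).2).le_iff_le.1 (by rw [hra, hrb]; linarith)
      have : (rb : ℕ) ≤ ra := this
      omega

end Pool.Agent.MP_28624d_gt

end

-- part MP_28624d_gt.Contract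
section

/-!
Contracting an edge at a vertex of degree at most two, or an edge of length zero.
-/

namespace Pool.Agent.MP_28624d_gt

variable {n : ℕ} {ρ : F n →* G} {V E : Type} [Fintype V] [Fintype E]

section aux

variable [DecidableEq V] (Γ : Gr V E) (d : E × Bool)

/-- The correction at the removed vertex. -/
def contract_j {H : Type} [Group H] (g : E → H) (y : V) : H :=
  if y = Γ.st d then dlab g d else 1

/-- The projection of the vertices. -/
def contract_pi (hd : Γ.st d ≠ Γ.en d) (y : V) : {y // y ≠ Γ.st d} :=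
  if h : y = Γ.st d then ⟨Γ.en d, hd.symm⟩ else ⟨y, h⟩

/-- The contracted graph. -/
def contract_gr (hd : Γ.st d ≠ Γ.en d) : Gr {y // y ≠ Γ.st d} {f // f ≠ d.1} :=
  ⟨fun f => contract_pi Γ d hd (Γ.src f.1), fun f => contract_pi Γ d hd (Γ.tgt f.1)⟩

/-- The labels of the contracted graph. -/
def contract_lab {H : Type} [Group H] (g : E → H) (f : {f // f ≠ d.1}) : H :=
  (contract_j Γ d g (Γ.src f.1))⁻¹ * g f.1 * contract_j Γ d g (Γ.tgt f.1)

variable {Γ d}

omit [Fintype V] [Fintype E] in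
theorem contract_pi_coe (hd : Γ.st d ≠ Γ.en d) (y : {y // y ≠ Γ.st d}) :
    contract_pi Γ d hd y.1 = y := by
  simp [contract_pi, y.2]

omit [Fintype V] [Fintype E] in
theorem contract_j_coe {H : Type} [Group H] (g : E → H) (y : {y // y ≠ Γ.st d}) :
    contract_j Γ d g y.1 = 1 := by
  simp [contract_j, y.2]

omit [Fintype V] [Fintype E] [DecidableEq V] in
theorem contract_dart {x : E × Bool} (hx : x.1 = d.1) : x = d ∨ x = rev d := by
  obtain ⟨e, b⟩ := x
  obtain ⟨e', b'⟩ := d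
  cases hx
  cases b <;> cases b' <;> simp [rev]

omit [Fintype V] [Fintype E] in
theorem contract_gauge (hd : Γ.st d ≠ Γ.en d) {H K : Type} [Group H] [Group K] (r : H →* K)
    (g : E → H) (μ : E → K) (h : V → K)
    (hh : ∀ e, r (g e) = h (Γ.src e) * μ e * (h (Γ.tgt e))⁻¹) (f : {f // f ≠ d.1}) :
    r (contract_lab Γ d g f) = h ((contract_gr Γ d hd).src f).1 * contract_lab Γ d μ f
      * (h ((contract_gr Γ d hd).tgt f).1)⁻¹ := by
  have h1 : r (dlab g d) = h (Γ.st d) * dlab μ d * (h (Γ.en d))⁻¹ := by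
    have := Γ.lab_gauge r g μ h hh (u := Γ.st d) (v := Γ.en d) (p := [d]) ⟨rfl, rfl⟩
    simpa using this
  have h2 : ∀ y, r (contract_j Γ d g y)
      = h y * contract_j Γ d μ y * (h (contract_pi Γ d hd y).1)⁻¹ := by
    intro y
    by_cases hy : y = Γ.st d
    · subst hy
      simp [contract_j, contract_pi, h1]
    · simp [contract_j, contract_pi, hy]
  simp only [contract_lab, contract_gr, map_mul, map_inv, h2, hh]
  group

omit [Fintype V] [Fintype E] in
theorem contract_path (hd : Γ.st d ≠ Γ.en d) {H : Type} [Group H] (g : E → H)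
    {p : List (E × Bool)} {a b : V} (hp : Γ.IsPath a p b) :
    ∃ p', (contract_gr Γ d hd).IsPath (contract_pi Γ d hd a) p' (contract_pi Γ d hd b) ∧
      lab (contract_lab Γ d g) p'
        = (contract_j Γ d g a)⁻¹ * lab g p * contract_j Γ d g b := by
  induction p generalizing a with
  | nil =>
    cases hp
    exact ⟨[], rfl, by simp⟩
  | cons x p ih =>
    obtain ⟨h1, h2⟩ := hp
    subst h1
    obtain ⟨p', k1, k2⟩ := ih h2
    by_cases hx : x.1 = d.1
    · refine ⟨p', ?_, ?_⟩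
      · have : contract_pi Γ d hd (Γ.st x) = contract_pi Γ d hd (Γ.en x) := by
          rcases contract_dart hx with rfl | rfl <;> simp [contract_pi, hd.symm]
        rw [this]
        exact k1
      · rw [k2, lab_cons]
        rcases contract_dart hx with rfl | rfl <;> simp [contract_j, hd.symm, mul_assoc]
    · refine ⟨(⟨x.1, hx⟩, x.2) :: p', ⟨?_, ?_⟩, ?_⟩
      · obtain ⟨e, c⟩ := x
        cases c <;> rfl
      · obtain ⟨e, c⟩ := x
        cases c <;> exact k1
      · rw [lab_cons, lab_cons, k2]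
        obtain ⟨e, c⟩ := x
        cases c <;> simp [dlab, contract_lab, Gr.st, Gr.en, mul_assoc]

theorem contract_card {X : Type} [Fintype X] [DecidableEq X] (x : X) :
    Fintype.card {y // y ≠ x} + 1 = Fintype.card X := by
  rw [Fintype.card_subtype_compl, Fintype.card_subtype_eq]
  have : 0 < Fintype.card X := Fintype.card_pos_iff.2 ⟨x⟩
  omega

variable [DecidableEq E]

theorem contract_marked (hd : Γ.st d ≠ Γ.en d) {g : E → F n} (hg : Marked n Γ g) :
    Marked n (contract_gr Γ d hd) (contract_lab Γ d g) := by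
  refine ⟨⟨⟨Γ.en d, hd.symm⟩⟩, ?_, fun a b γ => ?_, fun H _ μ' => ?_⟩
  · have h1 := contract_card d.1
    have h2 := contract_card (Γ.st d)
    have h3 := hg.card
    omega
  · obtain ⟨p, h1, h2⟩ := hg.gen a.1 b.1 γ
    obtain ⟨p', k1, k2⟩ := contract_path hd g h1
    rw [contract_pi_coe, contract_pi_coe] at k1
    rw [contract_j_coe, contract_j_coe, h2] at k2
    exact ⟨p', k1, by simpa using k2⟩
  · let μ : E → H := fun e => if he : e = d.1 then 1 else μ' ⟨e, he⟩
    obtain ⟨r, h, hh⟩ := hg.free H μ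
    refine ⟨r, fun y => h y.1, fun f => ?_⟩
    rw [contract_gauge hd r g μ h hh f]
    have h1 : dlab μ d = 1 := by
      obtain ⟨e, c⟩ := d
      cases c <;> simp [dlab, μ]
    have h2 : contract_lab Γ d μ f = μ' f := by
      simp [contract_lab, contract_j, h1, μ, f.2]
    rw [h2]

omit [Fintype V] [Fintype E] [DecidableEq E] in
theorem contract_cont : Continuous fun M : E → G => contract_lab Γ d M := by
  have h1 : Continuous fun M : E → G => dlab M d := by
    simpa using continuous_lab [d]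
  have h2 : ∀ y, Continuous fun M : E → G => contract_j Γ d M y := by
    intro y
    unfold contract_j
    split_ifs
    · exact h1
    · exact continuous_const
  exact continuous_pi fun f => ((h2 _).inv.mul (continuous_apply _)).mul (h2 _)

omit [Fintype V] [DecidableEq E] in
theorem contract_deg (v : V) : (Γ.deg v : ℝ)
    = ∑ e, ((if Γ.src e = v then 1 else 0) + (if Γ.tgt e = v then 1 else 0) : ℝ) := by
  rw [Gr.deg, Nat.card_eq_fintype_card, Fintype.card_subtype, Finset.card_filter,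
    Fintype.sum_prod_type]
  push_cast
  refine Finset.sum_congr rfl fun e _ => ?_
  rw [Fintype.sum_bool]
  rfl

omit [Fintype V] in
theorem contract_tot (hd : Γ.st d ≠ Γ.en d) (M : E → G) :
    tot (contract_lab Γ d M) ≤ tot M + len (M d.1) * ((Γ.deg (Γ.st d) : ℝ) - 2) := by
  have h1 : ∀ y, len (contract_j Γ d M y) = len (M d.1) * (if y = Γ.st d then 1 else 0) := by
    intro y
    unfold contract_j
    split_ifs
    · rw [len_dlab, mul_one]
    · rw [len_one, mul_zero]
  let w : E → ℝ := fun e => len (M e) + len (M d.1) *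
    ((if Γ.src e = Γ.st d then 1 else 0) + (if Γ.tgt e = Γ.st d then 1 else 0))
  have h2 : tot (contract_lab Γ d M) ≤ ∑ f : {f // f ≠ d.1}, w f.1 := by
    refine Finset.sum_le_sum fun f _ => ?_
    have a1 := len_mul_le ((contract_j Γ d M (Γ.src f.1))⁻¹ * M f.1)
      (contract_j Γ d M (Γ.tgt f.1))
    have a2 := len_mul_le (contract_j Γ d M (Γ.src f.1))⁻¹ (M f.1)
    rw [len_inv, h1] at a2
    rw [h1] at a1
    simp only [w, contract_lab, mul_add]
    linarith
  have h3 : ∑ e, w e = w d.1 + ∑ f : {f // f ≠ d.1}, w f.1 := Fintype.sum_eq_add_sum_subtype_ne w d.1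
  have h4 : ∑ e, w e = tot M + len (M d.1) * (Γ.deg (Γ.st d) : ℝ) := by
    rw [contract_deg, Finset.mul_sum, tot, ← Finset.sum_add_distrib]
  have h5 : w d.1 = len (M d.1) + len (M d.1) := by
    obtain ⟨e, c⟩ := d
    cases c
    · have : Γ.src e ≠ Γ.tgt e := fun h => hd h.symm
      simp [w, Gr.st, this]
    · have : Γ.tgt e ≠ Γ.src e := fun h => hd h.symm
      simp [w, Gr.st, this]
  linarith

end aux

theorem ach_contract {Γ : Gr V E} {M : E → G} (hM : M ∈ Cl ρ Γ) (d : E × Bool)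
    (hd : Γ.st d ≠ Γ.en d) (h : Γ.deg (Γ.st d) ≤ 2 ∨ len (M d.1) = 0) :
    ∃ (a : ℕ) (r : ℝ), a + 1 = Fintype.card V ∧ r ≤ tot M ∧ Ach ρ a r := by
  classical
  refine ⟨_, tot (contract_lab Γ d M), contract_card (Γ.st d), ?_,
    _, _, _, _, contract_gr Γ d hd, contract_lab Γ d M, ?_, rfl, rfl⟩
  · have h1 := contract_tot hd M
    have h2 : len (M d.1) * ((Γ.deg (Γ.st d) : ℝ) - 2) ≤ 0 := by
      rcases h with h | h
      · have : (Γ.deg (Γ.st d) : ℝ) ≤ 2 := by exact_mod_cast h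
        exact mul_nonpos_of_nonneg_of_nonpos (len_nonneg _) (by linarith)
      · rw [h, zero_mul]
    linarith
  · refine map_mem_closure contract_cont hM ?_
    rintro M' ⟨g, k, hg, hk⟩
    exact ⟨contract_lab Γ d g, fun y => k y.1, contract_marked hd hg,
      contract_gauge hd ρ g M' k hk⟩

end Pool.Agent.MP_28624d_gt

end

-- part MP_28624d_gt.Minimizer
section

/-!
Existence of a shortest limit carrier graph.
-/

namespace Pool.Agent.MP_28624d_gt

variable {n : ℕ} {V E : Type} [Fintype V] [Fintype E]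

omit [Fintype V] [Fintype E] in
theorem minimizer_leave {Γ : Gr V E} {v w : V} (hw : w ≠ v) {p : List (E × Bool)}
    (hp : Γ.IsPath v p w) : ∃ d, Γ.st d = v ∧ Γ.en d ≠ v := by
  induction p with
  | nil => exact absurd hp.symm hw
  | cons d p ih =>
    by_cases h : Γ.en d = v
    · exact ih (h ▸ hp.2)
    · exact ⟨d, hp.1, h⟩

/- A path from v to another vertex has a first dart leaving v. -/
theorem exists_nonloop {Γ : Gr V E} {g : E → F n} (hg : Marked n Γ g) (h2 : 2 ≤ Fintype.card V)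
    (v : V) : ∃ d, Γ.st d = v ∧ Γ.en d ≠ v := by
  obtain ⟨w, hw⟩ := Fintype.exists_ne_of_one_lt_card h2 v
  obtain ⟨p, hp, -⟩ := hg.gen v w 1
  exact minimizer_leave hw hp

/- A loop at v with nontrivial label is a nonempty path. -/
theorem st_surjective (h1 : 1 ≤ n) {Γ : Gr V E} {g : E → F n} (hg : Marked n Γ g) :
    Function.Surjective Γ.st := by
  intro v
  obtain ⟨p, hp, hl⟩ := hg.gen v v (FreeGroup.of ⟨0, h1⟩)
  cases p with
  | nil => exact absurd (hl.symm.trans (lab_nil g)) (FreeGroup.of_ne_one _)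
  | cons d p => exact ⟨d, hp.1⟩

theorem minimizer_sum_deg (Γ : Gr V E) : ∑ v, Γ.deg v = 2 * Fintype.card E := by
  classical
  have h := Finset.card_eq_sum_card_fiberwise (s := Finset.univ) (t := Finset.univ) (f := Γ.st)
    fun _ _ => Finset.mem_univ _
  rw [Finset.card_univ, Fintype.card_prod, Fintype.card_bool, mul_comm] at h
  rw [h]
  refine Finset.sum_congr rfl fun v _ => ?_
  rw [Gr.deg, Nat.card_eq_fintype_card, Fintype.card_subtype]

theorem ach_reduce (h1 : 1 ≤ n) (ρ : F n →* G) {a : ℕ} {r : ℝ} (h : Ach ρ a r) :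
    ∃ a' r', a' ≤ 2 * n ∧ r' ≤ r ∧ Ach ρ a' r' := by
  induction a using Nat.strong_induction_on generalizing r with
  | _ a ih =>
    by_cases ha : a ≤ 2 * n
    · exact ⟨a, r, ha, le_rfl, h⟩
    obtain ⟨V, E, _, _, Γ, M, hM, hV, hr⟩ := h
    obtain ⟨g, hg⟩ := Cl.marked hM
    obtain ⟨v, hv⟩ : ∃ v, Γ.deg v ≤ 2 := by
      by_contra hc
      push Not at hc
      have h2 : ∑ _v : V, 3 ≤ ∑ v, Γ.deg v := Finset.sum_le_sum fun v _ => hc v
      rw [minimizer_sum_deg, Finset.sum_const, Finset.card_univ, smul_eq_mul] at h2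
      have := hg.card
      omega
    obtain ⟨d, hd, hd'⟩ := exists_nonloop hg (by omega) v
    obtain ⟨a', r', h3, h4, h5⟩ :=
      ach_contract hM d (by rw [hd]; exact hd'.symm) (Or.inl (by rw [hd]; exact hv))
    obtain ⟨a'', r'', h6, h7, h8⟩ := ih a' (by omega) h5
    exact ⟨a'', r'', h6, by linarith, h8⟩

theorem minimizer_std {ρ : F n →* G} {a : ℕ} {r : ℝ} (h : Ach ρ a r) :
    ∃ (Γ : Gr (Fin a) (Fin (n + a - 1))) (M : Fin (n + a - 1) → G), M ∈ Cl ρ Γ ∧ tot M = r := by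
  obtain ⟨V, E, _, _, Γ, M, hM, hV, hr⟩ := h
  obtain ⟨g, hg⟩ := Cl.marked hM
  have hE : Fintype.card E = n + a - 1 := by
    have := hg.card
    omega
  refine ⟨_, _, cl_reindex (Fintype.equivFinOfCardEq hV) (Fintype.equivFinOfCardEq hE) hM, ?_⟩
  rw [← hr]
  exact Equiv.sum_comp (Fintype.equivFinOfCardEq hE).symm fun e => len (M e)

theorem ach_least (ρ : F n →* G) {a : ℕ} {r : ℝ} (h : Ach ρ a r) :
    ∃ r₀, Ach ρ a r₀ ∧ ∀ r', Ach ρ a r' → r₀ ≤ r' := by
  have : Finite (Gr (Fin a) (Fin (n + a - 1))) :=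
    Finite.of_injective (fun Γ => (Γ.src, Γ.tgt)) (by
      rintro ⟨s, t⟩ ⟨s', t'⟩ h
      simp only [Prod.mk.injEq] at h
      rw [h.1, h.2])
  set K : Set ℝ := ⋃ Γ : Gr (Fin a) (Fin (n + a - 1)),
    tot '' (Cl ρ Γ ∩ Set.univ.pi fun _ => {g : G | len g ≤ r}) with hK
  have hc : IsCompact K := isCompact_iUnion fun Γ =>
    ((isCompact_univ_pi fun _ => isCompact_len_le r).inter_left isClosed_closure).image
      (continuous_finsetSum _ fun e _ => continuous_len.comp (continuous_apply e))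
  have hm : ∀ r', Ach ρ a r' → r' ≤ r → r' ∈ K := by
    intro r' h' hr
    obtain ⟨Γ, M, hM, rfl⟩ := minimizer_std h'
    refine Set.mem_iUnion.2 ⟨Γ, M, ⟨hM, fun e _ => le_trans ?_ hr⟩, rfl⟩
    exact Finset.single_le_sum (f := fun e => len (M e)) (fun e _ => len_nonneg _)
      (Finset.mem_univ e)
  obtain ⟨r₀, h0, h1⟩ := hc.exists_isLeast ⟨r, hm r h le_rfl⟩
  refine ⟨r₀, ?_, fun r' h' => ?_⟩
  · obtain ⟨Γ, M, hM, rfl⟩ := Set.mem_iUnion.1 h0
    exact ⟨_, _, inferInstance, inferInstance, Γ, M, hM.1, Fintype.card_fin a, rfl⟩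
  · rcases le_total r' r with h2 | h2
    · exact h1 (hm r' h' h2)
    · exact (h1 (hm r h le_rfl)).trans h2

theorem exists_min (h1 : 1 ≤ n) (ρ : F n →* G) :
    ∃ a r, Ach ρ a r ∧ (∀ a' r', Ach ρ a' r' → r ≤ r') ∧ ∀ a', Ach ρ a' r → a ≤ a' := by
  classical
  choose! f hf using fun (a : ℕ) (h : ∃ r, Ach ρ a r) => ach_least ρ h.choose_spec
  have hS : ∀ a r, Ach ρ a r → ∃ a' ∈ (Finset.range (2 * n + 1)).filter fun a => ∃ r, Ach ρ a r,
      f a' ≤ r := by
    intro a r h
    obtain ⟨a', r', h2, h3, h4⟩ := ach_reduce h1 ρ h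
    exact ⟨a', Finset.mem_filter.2 ⟨Finset.mem_range.2 (by omega), r', h4⟩,
      ((hf a' ⟨r', h4⟩).2 r' h4).trans h3⟩
  obtain ⟨a₁, ha₁, -⟩ := hS _ _ ⟨_, _, inferInstance, inferInstance, _, _,
    subset_closure (good_rose ρ), rfl, rfl⟩
  obtain ⟨a₀, ha₀, hmin⟩ := Finset.exists_min_image _ f ⟨a₁, ha₁⟩
  have hex : ∃ a, Ach ρ a (f a₀) := ⟨a₀, (hf a₀ (Finset.mem_filter.1 ha₀).2).1⟩
  refine ⟨Nat.find hex, f a₀, Nat.find_spec hex, fun a' r' h => ?_, fun a' h => Nat.find_min' hex h⟩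
  obtain ⟨a'', h2, h3⟩ := hS a' r' h
  exact (hmin a'' h2).trans h3

end Pool.Agent.MP_28624d_gt

end

-- part MP_28624d_gt.Rot
section

/-!
Rotation systems and the parity argument.
-/

namespace Pool.Agent.MP_28624d_gt

open Finset

theorem rot_one_fibre {X : Type} [Fintype X] [DecidableEq X] (θ : X → ℝ)
    (hθ : ∀ d, θ d ∈ Set.Ico (0 : ℝ) 1) :
    ∃ (σ : Equiv.Perm X) (ω : X → ℤ), (∀ d d', σ.SameCycle d d') ∧
      (∀ d, 0 ≤ θ (σ d) + ω d - θ d ∧ θ (σ d) + ω d - θ d ≤ 1) ∧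
      (Nonempty X → ∑ d, ω d = 1) := by
  rcases isEmpty_or_nonempty X with hX | hX
  · exact ⟨1, fun _ => 0, fun d => isEmptyElim d, fun d => isEmptyElim d,
      fun ⟨d⟩ => isEmptyElim d⟩
  obtain ⟨m, hm⟩ : ∃ m, Fintype.card X = m + 1 :=
    ⟨_, (Nat.succ_pred_eq_of_pos Fintype.card_pos).symm⟩
  let e₀ : Fin (m + 1) ≃ X := (Fintype.equivFinOfCardEq hm).symm
  let e : Fin (m + 1) ≃ X := (Tuple.sort (θ ∘ e₀)).trans e₀
  have hmono : Monotone (θ ∘ e) := Tuple.monotone_sort (θ ∘ e₀)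
  have hσ : ∀ i, e.permCongr (finRotate (m + 1)) (e i) = e (i + 1) := fun i => by simp
  refine ⟨e.permCongr (finRotate (m + 1)), fun d => if d = e (Fin.last m) then 1 else 0,
    fun d d' => ?_, fun d => ?_, fun _ => by simp⟩
  · have h0 : ∀ i, (e.permCongr (finRotate (m + 1))).SameCycle (e 0) (e i) := fun i => by
      induction i using Fin.induction with
      | zero => exact Equiv.Perm.SameCycle.refl _ _
      | succ i ih =>
        rw [← Fin.coeSucc_eq_succ, ← hσ]
        exact ih.apply_right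
    obtain ⟨i, rfl⟩ := e.surjective d
    obtain ⟨j, rfl⟩ := e.surjective d'
    exact (h0 i).symm.trans (h0 j)
  · obtain ⟨i, rfl⟩ := e.surjective d
    rw [hσ]
    have h1 := hθ (e i)
    have h2 := hθ (e (i + 1))
    induction i using Fin.lastCases with
    | last =>
      have h3 : θ (e (Fin.last m + 1)) ≤ θ (e (Fin.last m)) := hmono (Fin.le_last _)
      simp only [if_true, Int.cast_one]
      constructor <;> linarith [h1.1, h1.2, h2.1, h2.2]
    | cast i =>
      have h3 : θ (e i.castSucc) ≤ θ (e (i.castSucc + 1)) := by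
        apply hmono
        rw [Fin.coeSucc_eq_succ]
        exact (Fin.castSucc_lt_succ (i := i)).le
      have h4 : e i.castSucc ≠ e (Fin.last m) := fun h =>
        (Fin.castSucc_lt_last i).ne (e.injective h)
      simp only [if_neg h4, Int.cast_zero]
      constructor <;> linarith [h1.1, h1.2, h2.1, h2.2]

theorem exists_rotation {D V : Type} [Fintype D] [DecidableEq D] [DecidableEq V] (vert : D → V)
    (θ : D → ℝ) (hθ : ∀ d, θ d ∈ Set.Ico (0 : ℝ) 1) :
    ∃ (σ : Equiv.Perm D) (ω : D → ℤ), (∀ d d', σ.SameCycle d d' ↔ vert d = vert d') ∧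
      (∀ d, 0 ≤ θ (σ d) + ω d - θ d ∧ θ (σ d) + ω d - θ d ≤ 1) ∧
      ∀ d₀, ∑ d ∈ univ.filter (fun d => vert d = vert d₀), ω d = 1 := by
  choose s w h1 h2 h3 using fun v : V =>
    rot_one_fibre (fun x : {d // vert d = v} => θ x.1) fun x => hθ x.1
  let σ : Equiv.Perm D := Equiv.ofFiberEquiv s
  have hσ : ∀ (v : V) (x : {d // vert d = v}), σ x.1 = (s v x).1 := by
    rintro v ⟨d, rfl⟩
    rfl
  have hpow : ∀ (v : V) (k : ℕ) (x : {d // vert d = v}), (σ ^ k) x.1 = ((s v ^ k) x).1 := by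
    intro v k x
    induction k with
    | zero => rfl
    | succ k ih => rw [pow_succ', pow_succ', Equiv.Perm.mul_apply, Equiv.Perm.mul_apply, ih, hσ]
  refine ⟨σ, fun d => w (vert d) ⟨d, rfl⟩, fun d d' => ⟨fun h => ?_, fun h => ?_⟩,
    fun d => h2 (vert d) ⟨d, rfl⟩, fun d₀ => ?_⟩
  · obtain ⟨k, rfl⟩ := h.exists_nat_pow_eq
    rw [hpow (vert d) k ⟨d, rfl⟩]
    exact ((s (vert d) ^ k) ⟨d, rfl⟩).2.symm
  · obtain ⟨k, hk⟩ := (h1 (vert d) ⟨d, rfl⟩ ⟨d', h.symm⟩).exists_nat_pow_eq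
    refine ⟨k, ?_⟩
    rw [zpow_natCast, hpow (vert d) k ⟨d, rfl⟩, hk]
  · rw [← h3 (vert d₀) ⟨⟨d₀, rfl⟩⟩, Finset.sum_subtype (p := fun d => vert d = vert d₀) _ (by simp)]
    have hw : ∀ (v : V) (x : {d // vert d = v}), w (vert x.1) ⟨x.1, rfl⟩ = w v x := by
      rintro v ⟨d, rfl⟩
      rfl
    exact Finset.sum_congr rfl fun x _ => hw _ x

theorem sign_of_fibres {D V : Type} [Fintype D] [DecidableEq D] [Fintype V] (f : Equiv.Perm D)
    (q : D → V) (hq : Function.Surjective q) (hf : ∀ d, f d ≠ d)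
    (h : ∀ d d', f.SameCycle d d' ↔ q d = q d') :
    Equiv.Perm.sign f = (-1) ^ (Fintype.card D + Fintype.card V) := by
  classical
  have hs : ∀ d, d ∈ f.support := fun d => Equiv.Perm.mem_support.2 (hf d)
  have h1 : f.cycleType.sum = Fintype.card D := by
    rw [Equiv.Perm.sum_cycleType, Finset.eq_univ_of_forall hs, Finset.card_univ]
  have h2 : f.cycleFactorsFinset = univ.image fun v => f.cycleOf (Function.surjInv hq v) := by
    ext c
    simp only [Finset.mem_image, Finset.mem_univ, true_and]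
    constructor
    · intro hc
      obtain ⟨d, hd, -⟩ := (Equiv.Perm.mem_cycleFactorsFinset_iff.1 hc).1
      refine ⟨q d, ?_⟩
      rw [Equiv.Perm.cycle_is_cycleOf (Equiv.Perm.mem_support.2 hd) hc]
      exact ((h _ _).2 (Function.surjInv_eq hq _)).cycleOf_eq
    · rintro ⟨v, rfl⟩
      exact Equiv.Perm.cycleOf_mem_cycleFactorsFinset_iff.2 (hs _)
  have h3 : Multiset.card f.cycleType = Fintype.card V := by
    rw [Equiv.Perm.cycleType_def, Multiset.card_map, ← Finset.card_def, h2,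
      Finset.card_image_of_injective, Finset.card_univ]
    intro v v' hv
    have h4 := (Equiv.Perm.sameCycle_iff_cycleOf_eq_of_mem_support (hs _) (hs _)).2 hv
    rwa [h, Function.surjInv_eq hq, Function.surjInv_eq hq] at h4
  rw [Equiv.Perm.sign_of_cycleType, h1, h3]

theorem exists_once_dart {n : ℕ} (hodd : Odd n) {V E : Type} [Fintype V] [Fintype E]
    [DecidableEq E] {Γ : Gr V E} {g : E → F n} (hg : Marked n Γ g) (σ : Equiv.Perm (E × Bool))
    (hσ : ∀ d d', σ.SameCycle d d' ↔ Γ.st d = Γ.st d') (hfix : ∀ d, σ d ≠ d) (d₀ : E × Bool) :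
    ∃ m : ℕ, ∀ m' : ℕ, ((σ * revP E) ^ m') d₀ ≠ rev (((σ * revP E) ^ m) d₀) := by
  by_contra hcon
  push Not at hcon
  set φ := σ * revP E with hφ
  have hrev : ∀ d, φ.SameCycle d₀ d → φ.SameCycle d₀ (rev d) := fun d hd => by
    obtain ⟨m, rfl⟩ := hd.exists_nat_pow_eq
    obtain ⟨m', hm'⟩ := hcon m
    exact ⟨m', by rw [zpow_natCast, hm']⟩
  have hstep : ∀ d, φ.SameCycle d₀ d → φ.SameCycle d₀ (σ d) := fun d hd => by
    have h1 := (hrev d hd).apply_right
    rwa [hφ, Equiv.Perm.mul_apply, revP_apply, rev_rev] at h1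
  have hvert : ∀ d d', φ.SameCycle d₀ d → Γ.st d = Γ.st d' → φ.SameCycle d₀ d' := by
    intro d d' hd hdd
    obtain ⟨k, rfl⟩ := ((hσ d d').2 hdd).exists_nat_pow_eq
    clear hdd
    induction k with
    | zero => exact hd
    | succ k ih => rw [pow_succ', Equiv.Perm.mul_apply]; exact hstep _ ih
  have hpath : ∀ (p : List (E × Bool)) (u v : V), Γ.IsPath u p v →
      (∀ d, Γ.st d = u → φ.SameCycle d₀ d) → ∀ d, Γ.st d = v → φ.SameCycle d₀ d := by
    intro p
    induction p with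
    | nil => intro u v hp hu; cases hp; exact hu
    | cons a p ih =>
      intro u v hp hu
      exact ih _ v hp.2 fun d hd =>
        hvert (rev a) d (hrev a (hu a hp.1)) (by rw [Gr.st_rev, hd])
  have hall : ∀ d, φ.SameCycle d₀ d := fun d => by
    obtain ⟨p, hp, -⟩ := hg.gen (Γ.st d₀) (Γ.st d) 1
    exact hpath p _ _ hp (fun d' hd' => hvert d₀ d' (Equiv.Perm.SameCycle.refl _ _) hd'.symm) d rfl
  have s1 := sign_of_fibres φ (fun _ => ()) (fun _ => ⟨d₀, rfl⟩)
    (fun d hd => rev_ne d (((hall d).symm.trans (hall (rev d))).eq_of_left hd).symm)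
    (fun d d' => ⟨fun _ => rfl, fun _ => (hall d).symm.trans (hall d')⟩)
  have s2 := sign_of_fibres σ Γ.st (st_surjective hodd.pos hg) hfix hσ
  have s3 := sign_of_fibres (revP E) Prod.fst Prod.fst_surjective rev_ne (fun d d' => by
    constructor
    · intro h
      obtain ⟨k, rfl⟩ := h.exists_nat_pow_eq
      clear h
      induction k with
      | zero => rfl
      | succ k ih => rw [pow_succ', Equiv.Perm.mul_apply]; exact ih
    · obtain ⟨e, b⟩ := d
      obtain ⟨e', b'⟩ := d'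
      rintro (rfl : e = e')
      by_cases hb : b = b'
      · rw [hb]
      · refine ⟨1, ?_⟩
        cases b <;> cases b' <;> simp_all [rev])
  rw [hφ, map_mul, s2, s3, ← pow_add, Fintype.card_prod, Fintype.card_bool, Fintype.card_unit] at s1
  have hc := hg.card
  obtain ⟨k, hk⟩ := hodd
  rw [Even.neg_one_pow ⟨Fintype.card E * 2 + Fintype.card V + k, by omega⟩,
    Odd.neg_one_pow ⟨Fintype.card E, by omega⟩] at s1
  exact absurd s1 (by decide)

theorem arc_order {D V : Type} [Fintype D] [DecidableEq D] [DecidableEq V] (vert : D → V)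
    (σ : Equiv.Perm D) (hσ : ∀ d d', σ.SameCycle d d' ↔ vert d = vert d') (μ Z : D → ℝ)
    (hμ : ∀ d, 0 ≤ μ d) (hsum : ∀ d₀, ∑ d ∈ univ.filter (fun d => vert d = vert d₀), μ d = 1)
    (hZ : ∀ d, ∃ k : ℤ, Z (σ d) = Z d + μ d + k) {d d' : D} (hv : vert d = vert d')
    (hne : d ≠ d') : ∃ k : ℤ, Z d + μ d ≤ Z d' + k ∧ Z d' + k + μ d' ≤ Z d + 1 := by
  set p := Function.minimalPeriod σ d with hp
  have hp0 : 0 < p := Function.minimalPeriod_pos_of_mem_periodicPts
    (σ.injective.mem_periodicPts d)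
  have hex : ∀ x, vert d = vert x → ∃ j < p, σ^[j] d = x := fun x hx => by
    obtain ⟨k, rfl⟩ := ((hσ d x).2 hx).exists_nat_pow_eq
    exact ⟨k % p, Nat.mod_lt _ hp0, by
      rw [Function.iterate_mod_minimalPeriod_eq, Equiv.Perm.iterate_eq_pow]⟩
  have h1 : ∑ i ∈ range p, μ (σ^[i] d) ≤ 1 := by
    rw [← hsum d, ← Finset.sum_image (s := range p) (g := fun i => σ^[i] d) (f := μ)
      (fun i hi j hj hij => Function.iterate_injOn_Iio_minimalPeriod
        (Finset.mem_range.1 hi) (Finset.mem_range.1 hj) hij)]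
    refine Finset.sum_le_sum_of_subset_of_nonneg ?_ fun x _ _ => hμ x
    intro x hx
    obtain ⟨i, -, rfl⟩ := Finset.mem_image.1 hx
    refine Finset.mem_filter.2 ⟨Finset.mem_univ _, ((hσ _ _).1 ⟨i, ?_⟩).symm⟩
    rw [zpow_natCast, Equiv.Perm.iterate_eq_pow]
  have h2 : ∀ j : ℕ, ∃ k : ℤ, Z (σ^[j] d) + k = Z d + ∑ i ∈ range j, μ (σ^[i] d) := fun j => by
    induction j with
    | zero => exact ⟨0, by simp⟩
    | succ j ih =>
      obtain ⟨k, hk⟩ := ih
      obtain ⟨k', hk'⟩ := hZ (σ^[j] d)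
      refine ⟨k - k', ?_⟩
      rw [Function.iterate_succ_apply', hk', Finset.sum_range_succ]
      push_cast
      linarith
  obtain ⟨j, hj, rfl⟩ := hex d' hv
  have hj0 : j ≠ 0 := fun h => hne (by rw [h]; rfl)
  obtain ⟨k, hk⟩ := h2 j
  refine ⟨k, ?_, ?_⟩
  · have h3 : μ (σ^[0] d) ≤ ∑ i ∈ range j, μ (σ^[i] d) :=
      Finset.single_le_sum (f := fun i => μ (σ^[i] d)) (fun i _ => hμ _)
        (Finset.mem_range.2 (Nat.pos_of_ne_zero hj0))
    rw [hk]
    exact add_le_add_right h3 _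
  · have h3 : ∑ i ∈ range (j + 1), μ (σ^[i] d) ≤ ∑ i ∈ range p, μ (σ^[i] d) :=
      Finset.sum_le_sum_of_subset_of_nonneg (Finset.range_subset_range.2 hj) fun i _ _ => hμ _
    rw [Finset.sum_range_succ] at h3
    linarith

end Pool.Agent.MP_28624d_gt

end

-- part MP_28624d_gt.Chain
section

/-!
From face elements moving a point upwards to ping-pong arcs.
-/

namespace Pool.Agent.MP_28624d_gt

open Finset

theorem chain_seq (s : ℕ → ℝ ≃o ℝ) (x : ℝ) (k : ℕ) (y : ℝ) (h : x < pre s (k + 1) y) :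
    ∃ z : ℕ → ℝ, z 0 = x ∧ z (k + 1) = y ∧ ∀ i ≤ k, z i < s i (z (i + 1)) := by
  induction k generalizing y with
  | zero =>
    refine ⟨fun i => if i = 0 then x else y, rfl, rfl, fun i hi => ?_⟩
    obtain rfl : i = 0 := by omega
    simpa [pre_succ] using h
  | succ k ih =>
    rw [pre_succ, RelIso.mul_apply, ← OrderIso.symm_apply_lt] at h
    obtain ⟨w, h1, h2⟩ := exists_between h
    obtain ⟨z, hz0, hz1, hz⟩ := ih w ((OrderIso.symm_apply_lt _).1 h1)
    refine ⟨Function.update z (k + 1 + 1) y, by rw [Function.update_of_ne (by omega), hz0],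
      Function.update_self .., fun i hi => ?_⟩
    rw [Function.update_of_ne (by omega)]
    rcases hi.eq_or_lt with rfl | hi
    · rwa [Function.update_self, hz1]
    · rw [Function.update_of_ne (by omega)]
      exact hz i (by omega)

theorem chain {D : Type} [Finite D] (φ : Equiv.Perm D) (f : D → ℝ ≃o ℝ)
    (h : ∀ d, ∃ x, x < pre (fun i => f ((φ ^ i) d)) (Function.minimalPeriod φ d) x) :
    ∃ Z : D → ℝ, ∀ d, Z d < f d (Z (φ d)) := by
  have hp : ∀ d, 0 < Function.minimalPeriod φ d := fun d =>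
    Function.minimalPeriod_pos_of_mem_periodicPts (φ.injective.mem_periodicPts d)
  have h1 : ∀ d, ∃ z : ℕ → ℝ, z (Function.minimalPeriod φ d) = z 0 ∧
      ∀ i < Function.minimalPeriod φ d, z i < f ((φ ^ i) d) (z (i + 1)) := by
    intro d
    obtain ⟨x, hx⟩ := h d
    obtain ⟨k, hk⟩ := Nat.exists_eq_add_one_of_ne_zero (hp d).ne'
    rw [hk] at hx ⊢
    obtain ⟨z, h0, h1, h2⟩ := chain_seq _ x k x hx
    exact ⟨z, h1.trans h0.symm, fun i hi => h2 i (by omega)⟩
  choose z hz0 hz using h1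
  have h2 : ∀ e : D, ∃ q ∈ {q : D × ℕ | q.2 < Function.minimalPeriod φ q.1 ∧ (φ ^ q.2) q.1 = e},
      ∀ q' ∈ {q : D × ℕ | q.2 < Function.minimalPeriod φ q.1 ∧ (φ ^ q.2) q.1 = e},
        z q'.1 q'.2 ≤ z q.1 q.2 := by
    intro e
    refine Set.exists_max_image _ _ ?_ ⟨(e, 0), hp e, rfl⟩
    refine (Set.finite_iUnion fun d : D => (Set.finite_singleton d).prod
      (Set.finite_Iio (Function.minimalPeriod φ d))).subset fun q hq => ?_
    exact Set.mem_iUnion.2 ⟨q.1, rfl, hq.1⟩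
  choose q hq hmax using h2
  refine ⟨fun e => z (q e).1 (q e).2, fun e => ?_⟩
  obtain ⟨h3, h4⟩ := hq e
  have h5 := hz _ _ h3
  rw [h4] at h5
  refine h5.trans_le ((f e).monotone ?_)
  have h6 : (φ ^ ((q e).2 + 1)) (q e).1 = φ e := by rw [pow_succ', Equiv.Perm.mul_apply, h4]
  rcases (Nat.succ_le_of_lt h3).eq_or_lt with h7 | h7
  · rw [Nat.succ_eq_add_one] at h7
    rw [h7] at h6 ⊢
    rw [hz0]
    refine hmax (φ e) ((q e).1, 0) ⟨hp _, ?_⟩
    rw [← h6, ← Equiv.Perm.iterate_eq_pow φ (Function.minimalPeriod _ _)]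
    exact (Function.isPeriodicPt_minimalPeriod φ _).eq.symm
  · exact hmax (φ e) ((q e).1, (q e).2 + 1) ⟨h7, h6⟩

theorem chain_int (m : ℝ → ℝ) (hm : ∀ x, m (x + 1) = m x + 1) (x : ℝ) (n : ℤ) :
    m (x + n) = m x + n := by
  induction n using Int.induction_on with
  | zero => simp
  | succ n ih =>
    push_cast at ih ⊢
    rw [← add_assoc, hm, ih, add_assoc]
  | pred n ih =>
    push_cast at ih ⊢
    have := hm (x + (-(n : ℝ) - 1))
    rw [show x + (-(n : ℝ) - 1) + 1 = x + -n by ring, ih] at this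
    linarith

theorem arcs {D V : Type} [Fintype D] [DecidableEq D] [DecidableEq V] (vert : D → V)
    (σ : Equiv.Perm D) (hσ : ∀ d d', σ.SameCycle d d' ↔ vert d = vert d') (hfix : ∀ d, σ d ≠ d)
    (ω : D → ℤ) (hω : ∀ d₀, ∑ d ∈ univ.filter (fun d => vert d = vert d₀), ω d = 1)
    (ι : D → D) (hι : ∀ d, ι (ι d) = d) (m : D → ℝ ≃o ℝ) (hm : ∀ d x, m d (x + 1) = m d x + 1)
    (hmι : ∀ d x, m d (m (ι d) x) = x - 1) (Z : D → ℝ)
    (hZ : ∀ d, Z d < m d (Z (σ (ι d)) + ω (ι d))) :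
    ∃ μ : D → ℝ, (∀ d, 0 < μ d ∧ μ d < 1) ∧ ∀ d d', vert d' = vert (ι d) → d' ≠ ι d →
      ∃ k : ℤ, Z d < m d (Z d' + k) ∧ m d (Z d' + k + μ d') < Z d + μ d := by
  set lam : D → ℝ := fun d => Z (σ d) + ω d - Z d with hlam
  set k : D → ℤ := fun d => ⌈lam d⌉ - 1 with hk
  have hk1 : ∀ d, (k d : ℝ) < lam d := fun d => by
    have := Int.ceil_lt_add_one (lam d)
    simp only [hk]
    push_cast
    linarith
  have hk2 : ∀ d, lam d ≤ k d + 1 := fun d => by
    have := Int.le_ceil (lam d)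
    simp only [hk]
    push_cast
    linarith
  have hv : ∀ d, vert (σ d) = vert d := fun d =>
    (hσ _ _).1 (Equiv.Perm.sameCycle_apply_left.2 (Equiv.Perm.SameCycle.refl _ _))
  have hA : ∀ d, m d (Z (ι d) + 1 + k (ι d)) < Z d + lam d + k (ι d) := by
    intro d
    have h1 := (m d).strictMono (hZ (ι d))
    rw [hmι, hι] at h1
    rw [chain_int (m d) (hm d), hm]
    simp only [hlam]
    linarith
  have hB : ∀ d, Z d < m d (Z (ι d) + lam (ι d)) := fun d => by
    simpa [hlam] using hZ d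
  have hkk : ∀ d, 0 ≤ k d + k (ι d) := by
    intro d
    have h1 := ((hB d).trans_le ((m d).monotone
      (show _ ≤ Z (ι d) + 1 + k (ι d) by linarith [hk2 (ι d)]))).trans (hA d)
    have h2 : (-1 : ℝ) < k d + k (ι d) := by linarith [hk2 d]
    have h3 : -1 < k d + k (ι d) := by exact_mod_cast h2
    omega
  have hsl : ∀ d₀, ∑ d ∈ univ.filter (fun d => vert d = vert d₀), lam d = 1 := by
    intro d₀
    have h1 : ∑ d ∈ univ.filter (fun d => vert d = vert d₀), Z (σ d) =
        ∑ d ∈ univ.filter (fun d => vert d = vert d₀), Z d :=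
      sum_equiv σ (fun d => by simp [hv]) fun _ _ => rfl
    have h2 : ∑ d ∈ univ.filter (fun d => vert d = vert d₀), (ω d : ℝ) = 1 := by
      exact_mod_cast hω d₀
    simp only [hlam, sum_sub_distrib, sum_add_distrib, h1, h2]
    ring
  have hsk : ∀ d₀, ∑ d ∈ univ.filter (fun d => vert d = vert d₀), k d ≤ 0 := by
    intro d₀
    have h1 := sum_lt_sum_of_nonempty (s := univ.filter (fun d => vert d = vert d₀))
      ⟨d₀, by simp⟩ fun d _ => hk1 d
    rw [hsl] at h1
    have h2 : ∑ d ∈ univ.filter (fun d => vert d = vert d₀), k d < 1 := by exact_mod_cast h1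
    omega
  have hfib := sum_fiberwise_of_maps_to (s := univ) (t := univ.image vert) (g := vert)
    (fun d _ => mem_image_of_mem _ (mem_univ d)) k
  have hnp : ∀ v ∈ univ.image vert, ∑ d ∈ univ.filter (fun d => vert d = v), k d ≤ 0 := by
    intro v hv
    obtain ⟨d₀, -, rfl⟩ := mem_image.1 hv
    exact hsk d₀
  have hιs : ∑ d, k (ι d) = ∑ d, k d :=
    Equiv.sum_comp (Function.Involutive.toPerm ι hι) k
  have h1 : ∑ d, k d ≤ 0 := hfib ▸ sum_nonpos hnp
  have h2 : 0 ≤ ∑ d, (k d + k (ι d)) := sum_nonneg fun d _ => hkk d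
  have h3 : ∑ d, (k d + k (ι d)) = 2 * ∑ d, k d := by rw [sum_add_distrib, hιs, two_mul]
  have hk0 : ∀ d, k d + k (ι d) = 0 := fun d =>
    (sum_eq_zero_iff_of_nonneg fun d _ => hkk d).1 (by omega) d (mem_univ d)
  have hsk0 : ∀ d₀, ∑ d ∈ univ.filter (fun d => vert d = vert d₀), k d = 0 := fun d₀ =>
    (sum_eq_zero_iff_of_nonpos hnp).1 (by omega) _ (mem_image_of_mem _ (mem_univ d₀))
  have hpos : ∀ d, 0 < lam d - k d := fun d => sub_pos.2 (hk1 d)
  have hsum : ∀ d₀, ∑ d ∈ univ.filter (fun d => vert d = vert d₀), (lam d - k d) = 1 := by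
    intro d₀
    have : ∑ d ∈ univ.filter (fun d => vert d = vert d₀), (k d : ℝ) = 0 := by
      exact_mod_cast hsk0 d₀
    rw [sum_sub_distrib, hsl, this, sub_zero]
  refine ⟨fun d => lam d - k d, fun d => ⟨hpos d, ?_⟩, fun d d' hd hne => ?_⟩
  · have h4 : ∑ e ∈ {σ d, d}, (lam e - k e) ≤
        ∑ e ∈ univ.filter (fun e => vert e = vert d), (lam e - k e) :=
      sum_le_sum_of_subset_of_nonneg (fun e he => by
        rcases mem_insert.1 he with rfl | he
        · simp [hv]
        · simp [mem_singleton.1 he]) fun e _ _ => (hpos e).le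
    rw [hsum, sum_pair (hfix d)] at h4
    linarith [hpos (σ d)]
  · obtain ⟨k', h4, h5⟩ := arc_order vert σ hσ (fun d => lam d - k d) Z (fun d => (hpos d).le) hsum
      (fun d => ⟨k d - ω d, by simp only [hlam]; push_cast; ring⟩) hd.symm hne.symm
    have h6 : (k d : ℝ) + k (ι d) = 0 := by exact_mod_cast hk0 d
    refine ⟨k' + k (ι d), (hB d).trans_le ((m d).monotone ?_),
      ((m d).monotone ?_).trans_lt ((hA d).trans_eq ?_)⟩
    · push_cast
      linarith
    · push_cast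
      linarith
    · linarith

end Pool.Agent.MP_28624d_gt

end

-- part MP_28624d_gt.Pos
section

/-!
Ping-pong by positive matrices.
-/

namespace Pool.Agent.MP_28624d_gt

variable {V E : Type}

/-- Frames in which all admissible transitions are positive matrices up to sign. -/
def PP (Γ : Gr V E) (M : E → G) (B : E × Bool → G) : Prop :=
  ∀ d d', Γ.st d' = Γ.en d → d' ≠ rev d → ∃ N, PosM N ∧ PM ((B d)⁻¹ * dlab M d * B d') N

theorem pos_mul_apply (g h : G) (i j : Fin 2) : (g * h) i j = g i 0 * h 0 j + g i 1 * h 1 j := by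
  simp [Matrix.SpecialLinearGroup.coe_mul, Matrix.mul_apply, Fin.sum_univ_two]

theorem pos_neg_apply (g : G) (i j : Fin 2) : (-g) i j = -g i j := by
  simp [Matrix.SpecialLinearGroup.coe_neg]

theorem pos_det (g : G) : g 0 0 * g 1 1 - g 0 1 * g 1 0 = 1 := by
  have := g.det_coe
  rwa [Matrix.det_fin_two] at this

theorem pos_inv00 (g : G) : g⁻¹ 0 0 = g 1 1 := by
  simp [Matrix.SpecialLinearGroup.coe_inv, Matrix.adjugate_fin_two]
theorem pos_inv01 (g : G) : g⁻¹ 0 1 = -g 0 1 := by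
  simp [Matrix.SpecialLinearGroup.coe_inv, Matrix.adjugate_fin_two]
theorem pos_inv10 (g : G) : g⁻¹ 1 0 = -g 1 0 := by
  simp [Matrix.SpecialLinearGroup.coe_inv, Matrix.adjugate_fin_two]
theorem pos_inv11 (g : G) : g⁻¹ 1 1 = g 0 0 := by
  simp [Matrix.SpecialLinearGroup.coe_inv, Matrix.adjugate_fin_two]

theorem pos_of_entries (g : G) (h00 : 0 < g 0 0) (h01 : 0 < g 0 1) (h10 : 0 < g 1 0)
    (h11 : 0 < g 1 1) : PosM g := by
  intro i j
  fin_cases i <;> fin_cases j
  exacts [h00, h01, h10, h11]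

theorem pos_of_sign (g : G) (a : ℝ) (ha : a ≠ 0) (h00 : 0 < a * g 0 0) (h01 : 0 < a * g 0 1)
    (h10 : 0 < a * g 1 0) (h11 : 0 < a * g 1 1) : ∃ N, PosM N ∧ PM g N := by
  rcases lt_or_gt_of_ne ha with h | h
  · refine ⟨-g, pos_of_entries _ ?_ ?_ ?_ ?_, Or.inr (neg_neg g).symm⟩ <;> rw [pos_neg_apply] <;>
      nlinarith
  · exact ⟨g, pos_of_entries _ ((pos_iff_pos_of_mul_pos h00).mp h)
      ((pos_iff_pos_of_mul_pos h01).mp h) ((pos_iff_pos_of_mul_pos h10).mp h)
      ((pos_iff_pos_of_mul_pos h11).mp h), Or.inl rfl⟩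

/-- the frame with columns proportional to `vec z` and `vec (z + μ)`. -/
noncomputable def pos_frame (z μ : ℝ) (h : 0 < Real.sin (Real.pi * μ)) : G :=
  ⟨!![Real.cos (Real.pi * z) / Real.sqrt (Real.sin (Real.pi * μ)),
      Real.cos (Real.pi * (z + μ)) / Real.sqrt (Real.sin (Real.pi * μ));
      Real.sin (Real.pi * z) / Real.sqrt (Real.sin (Real.pi * μ)),
      Real.sin (Real.pi * (z + μ)) / Real.sqrt (Real.sin (Real.pi * μ))], by
    rw [Matrix.det_fin_two_of, div_mul_div_comm, div_mul_div_comm, Real.mul_self_sqrt h.le,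
      ← sub_div, div_eq_one_iff_eq h.ne']
    have : Real.pi * μ = Real.pi * (z + μ) - Real.pi * z := by ring
    rw [this, Real.sin_sub]
    ring⟩

theorem pos_sin {t : ℝ} (h0 : 0 < t) (h1 : t < 1) : 0 < Real.sin (Real.pi * t) :=
  Real.sin_pos_of_pos_of_lt_pi (mul_pos Real.pi_pos h0) (by nlinarith [Real.pi_pos])

theorem pos_lift_shift {g : G} {f : ℝ ≃o ℝ} (h : Lift g f) (x : ℝ) (k : ℤ) :
    ∃ a : ℝ, a ≠ 0 ∧
      g 0 0 * Real.cos (Real.pi * x) + g 0 1 * Real.sin (Real.pi * x) =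
        a * Real.cos (Real.pi * f (x + k)) ∧
      g 1 0 * Real.cos (Real.pi * x) + g 1 1 * Real.sin (Real.pi * x) =
        a * Real.sin (Real.pi * f (x + k)) := by
  obtain ⟨c, hc, e⟩ := h.2 (x + k)
  rcases vec_add_int x k with hv | hv
  · rw [hv] at e
    have e0 := congrFun e 0
    have e1 := congrFun e 1
    simp [Matrix.mulVec, dotProduct, Fin.sum_univ_two, vec] at e0 e1
    exact ⟨c, hc, e0, e1⟩
  · rw [hv] at e
    have e0 := congrFun e 0
    have e1 := congrFun e 1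
    simp [Matrix.mulVec, dotProduct, Fin.sum_univ_two, vec] at e0 e1
    exact ⟨-c, neg_ne_zero.mpr hc, by linarith, by linarith⟩

theorem pos_frame_step {g : G} {f : ℝ ≃o ℝ} (h : Lift g f) (z μ z' μ' : ℝ) (k : ℤ)
    (h0 : 0 < μ) (h1 : μ < 1) (h0' : 0 < μ') (h1' : μ' < 1)
    (ha : z < f (z' + k)) (hb : f (z' + k + μ') < z + μ) :
    ∃ N, PosM N ∧
      PM ((pos_frame z μ (pos_sin h0 h1))⁻¹ * g * pos_frame z' μ' (pos_sin h0' h1')) N := by
  obtain ⟨a, ha0, a0, a1⟩ := pos_lift_shift h z' k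
  obtain ⟨b, hb0, b0, b1⟩ := pos_lift_shift h (z' + μ') k
  have e : z' + μ' + k = z' + k + μ' := by ring
  rw [e] at b0 b1
  set y := f (z' + k) with hy
  set y' := f (z' + k + μ') with hy'
  have hyy : y < y' := f.strictMono (by linarith)
  have hs := pos_sin h0 h1
  have hs' := pos_sin h0' h1'
  have hab : 0 < a * b := by
    have hd := pos_det g
    have s1 : Real.sin (Real.pi * μ') = Real.sin (Real.pi * (z' + μ')) * Real.cos (Real.pi * z')
        - Real.cos (Real.pi * (z' + μ')) * Real.sin (Real.pi * z') := by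
      rw [← Real.sin_sub]; congr 1; ring
    have s2 : Real.sin (Real.pi * (y' - y)) = Real.sin (Real.pi * y') * Real.cos (Real.pi * y)
        - Real.cos (Real.pi * y') * Real.sin (Real.pi * y) := by
      rw [← Real.sin_sub]; congr 1; ring
    have s3 : a * b * Real.sin (Real.pi * (y' - y)) = Real.sin (Real.pi * μ') := by
      rw [s1, s2]
      have : a * b * (Real.sin (Real.pi * y') * Real.cos (Real.pi * y)
        - Real.cos (Real.pi * y') * Real.sin (Real.pi * y)) =
          (a * Real.cos (Real.pi * y)) * (b * Real.sin (Real.pi * y'))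
            - (b * Real.cos (Real.pi * y')) * (a * Real.sin (Real.pi * y)) := by ring
      rw [this, ← a0, ← a1, ← b0, ← b1]
      linear_combination (Real.sin (Real.pi * (z' + μ')) * Real.cos (Real.pi * z')
        - Real.cos (Real.pi * (z' + μ')) * Real.sin (Real.pi * z')) * hd
    have s4 := pos_sin (t := y' - y) (by linarith) (by linarith)
    rw [← s3] at hs'
    exact (pos_iff_pos_of_mul_pos hs').mpr s4
  have haa : 0 < a * a := mul_self_pos.mpr ha0
  set s := Real.sqrt (Real.sin (Real.pi * μ)) with hsd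
  set s' := Real.sqrt (Real.sin (Real.pi * μ')) with hsd'
  have sp : 0 < s := Real.sqrt_pos.mpr hs
  have sp' : 0 < s' := Real.sqrt_pos.mpr hs'
  have sub : ∀ p q : ℝ, Real.sin (Real.pi * (p - q)) =
      Real.sin (Real.pi * p) * Real.cos (Real.pi * q) - Real.cos (Real.pi * p) * Real.sin (Real.pi * q) := by
    intro p q
    rw [← Real.sin_sub]; congr 1; ring
  have t00 := pos_sin (t := z + μ - y) (by linarith) (by linarith)
  have t01 := pos_sin (t := z + μ - y') (by linarith) (by linarith)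
  have t10 := pos_sin (t := y - z) (by linarith) (by linarith)
  have t11 := pos_sin (t := y' - z) (by linarith) (by linarith)
  set N := (pos_frame z μ (pos_sin h0 h1))⁻¹ * g * pos_frame z' μ' (pos_sin h0' h1') with hN
  have n00 : N 0 0 = a * Real.sin (Real.pi * (z + μ - y)) / (s * s') := by
    rw [hN, mul_assoc, pos_mul_apply, pos_mul_apply, pos_mul_apply, pos_inv00, pos_inv01, sub]
    simp only [pos_frame, Matrix.of_apply, Matrix.cons_val', Matrix.cons_val_zero,
      Matrix.cons_val_one, Matrix.cons_val_fin_one, ← hsd, ← hsd']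
    field_simp
    linear_combination Real.sin (Real.pi * (z + μ)) * a0 - Real.cos (Real.pi * (z + μ)) * a1
  have n01 : N 0 1 = b * Real.sin (Real.pi * (z + μ - y')) / (s * s') := by
    rw [hN, mul_assoc, pos_mul_apply, pos_mul_apply, pos_mul_apply, pos_inv00, pos_inv01, sub]
    simp only [pos_frame, Matrix.of_apply, Matrix.cons_val', Matrix.cons_val_zero,
      Matrix.cons_val_one, Matrix.cons_val_fin_one, ← hsd, ← hsd']
    field_simp
    linear_combination Real.sin (Real.pi * (z + μ)) * b0 - Real.cos (Real.pi * (z + μ)) * b1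
  have n10 : N 1 0 = a * Real.sin (Real.pi * (y - z)) / (s * s') := by
    rw [hN, mul_assoc, pos_mul_apply, pos_mul_apply, pos_mul_apply, pos_inv10, pos_inv11, sub]
    simp only [pos_frame, Matrix.of_apply, Matrix.cons_val', Matrix.cons_val_zero,
      Matrix.cons_val_one, Matrix.cons_val_fin_one, ← hsd, ← hsd']
    field_simp
    linear_combination Real.cos (Real.pi * z) * a1 - Real.sin (Real.pi * z) * a0
  have n11 : N 1 1 = b * Real.sin (Real.pi * (y' - z)) / (s * s') := by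
    rw [hN, mul_assoc, pos_mul_apply, pos_mul_apply, pos_mul_apply, pos_inv10, pos_inv11, sub]
    simp only [pos_frame, Matrix.of_apply, Matrix.cons_val', Matrix.cons_val_zero,
      Matrix.cons_val_one, Matrix.cons_val_fin_one, ← hsd, ← hsd']
    field_simp
    linear_combination Real.cos (Real.pi * z) * b1 - Real.sin (Real.pi * z) * b0
  refine pos_of_sign N a ha0 ?_ ?_ ?_ ?_
  · rw [n00, ← mul_div_assoc, ← mul_assoc]; positivity
  · rw [n01, ← mul_div_assoc, ← mul_assoc]; positivity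
  · rw [n10, ← mul_div_assoc, ← mul_assoc]; positivity
  · rw [n11, ← mul_div_assoc, ← mul_assoc]; positivity

theorem exists_frames (Γ : Gr V E) (M : E → G) (m : E × Bool → ℝ ≃o ℝ)
    (hm : ∀ d, Lift (dlab M d) (m d)) (Z μ : E × Bool → ℝ) (hμ : ∀ d, 0 < μ d ∧ μ d < 1)
    (h : ∀ d d', Γ.st d' = Γ.en d → d' ≠ rev d →
      ∃ k : ℤ, Z d < m d (Z d' + k) ∧ m d (Z d' + k + μ d') < Z d + μ d) :
    ∃ B, PP Γ M B := by
  refine ⟨fun d => pos_frame (Z d) (μ d) (pos_sin (hμ d).1 (hμ d).2), fun d d' h1 h2 => ?_⟩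
  obtain ⟨k, ha, hb⟩ := h d d' h1 h2
  exact pos_frame_step (hm d) _ _ _ _ k (hμ d).1 (hμ d).2 (hμ d').1 (hμ d').2 ha hb

theorem pos_prod {Γ : Gr V E} {M : E → G} {B : E × Bool → G} (η : ℝ) (hη : 0 ≤ η)
    (h : ∀ d d', Γ.st d' = Γ.en d → d' ≠ rev d →
      ∃ N, PosM N ∧ PM ((B d)⁻¹ * dlab M d * B d') N ∧ η ≤ N 0 1 * N 1 0)
    (d' : E × Bool) (p : List (E × Bool)) : ∀ (d : E × Bool) (u : V), Γ.IsPath u (d :: p) (Γ.st d') →
      Red (d :: p ++ [d']) → ∃ Q, PosM Q ∧ (1 + η) ^ (p.length + 1) ≤ Q 0 0 * Q 1 1 ∧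
        PM ((B d)⁻¹ * lab M (d :: p) * B d') Q := by
  induction p with
  | nil =>
    intro d u hp hr
    have h1 : Γ.st d' = Γ.en d := hp.2.symm
    have h2 : d' ≠ rev d := by simpa [Red] using hr
    obtain ⟨N, hN, hPM, hb⟩ := h d d' h1 h2
    refine ⟨N, hN, ?_, by simpa using hPM⟩
    have := pos_det N
    simp only [List.length_nil, zero_add, pow_one]
    linarith
  | cons e p ih =>
    intro d u hp hr
    have hr' : e ≠ rev d ∧ Red (e :: p ++ [d']) := by
      simpa [Red, List.isChain_cons_cons] using hr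
    obtain ⟨Q, hQ, hQb, hQP⟩ := ih e _ hp.2 hr'.2
    obtain ⟨N, hN, hPM, hb⟩ := h d e hp.2.1 hr'.1
    refine ⟨N * Q, ?_, ?_, ?_⟩
    · intro i j
      rw [pos_mul_apply]
      have := hN i 0
      have := hN i 1
      have := hQ 0 j
      have := hQ 1 j
      positivity
    · have hd := pos_det N
      have a0 : N 0 0 * Q 0 0 ≤ (N * Q) 0 0 := by
        rw [pos_mul_apply]
        linarith [mul_pos (hN 0 1) (hQ 1 0)]
      have a1 : N 1 1 * Q 1 1 ≤ (N * Q) 1 1 := by
        rw [pos_mul_apply]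
        linarith [mul_pos (hN 1 0) (hQ 0 1)]
      have a2 : (N 0 0 * Q 0 0) * (N 1 1 * Q 1 1) ≤ (N * Q) 0 0 * (N * Q) 1 1 :=
        mul_le_mul a0 a1 (mul_pos (hN 1 1) (hQ 1 1)).le ((mul_pos (hN 0 0) (hQ 0 0)).le.trans a0)
      have a3 : (1 + η) * (1 + η) ^ (p.length + 1) ≤ (N 0 0 * N 1 1) * (Q 0 0 * Q 1 1) :=
        mul_le_mul (by linarith) hQb (by positivity) (mul_pos (hN 0 0) (hN 1 1)).le
      rw [List.length_cons, pow_succ' (1 + η) (p.length + 1)]
      linarith
    · have := hPM.mul hQP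
      have e1 : (B d)⁻¹ * dlab M d * B e * ((B e)⁻¹ * lab M (e :: p) * B d') =
          (B d)⁻¹ * lab M (d :: e :: p) * B d' := by
        rw [lab_cons M d]
        group
      rwa [e1] at this

theorem pos_exists_lb {ι : Type} [Finite ι] (f : ι → ℝ) (hf : ∀ i, 0 < f i) :
    ∃ η : ℝ, 0 < η ∧ ∀ i, η ≤ f i := by
  cases isEmpty_or_nonempty ι
  · exact ⟨1, one_pos, fun i => isEmptyElim i⟩
  · obtain ⟨i, hi⟩ := Finite.exists_min f
    exact ⟨f i, hf i, hi⟩

theorem pos_log_le (Q : G) (η : ℝ) (hη : 0 ≤ η) (k : ℕ) (h : (1 + η) ^ k ≤ Q 0 0 * Q 1 1) :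
    Real.log (1 + η) * k ≤ len Q := by
  have h1 := cosh_len Q
  have h2 : Real.cosh (len Q) ≤ Real.exp (len Q) := by
    rw [Real.cosh_eq]
    have : Real.exp (-len Q) ≤ Real.exp (len Q) := Real.exp_le_exp.mpr (by linarith [len_nonneg Q])
    linarith
  have h3 : (1 + η) ^ k ≤ Real.exp (len Q) := by
    nlinarith [sq_nonneg (Q 0 0 - Q 1 1), sq_nonneg (Q 0 1), sq_nonneg (Q 1 0)]
  have h4 := Real.log_le_log (by positivity) h3
  rw [Real.log_exp, Real.log_pow] at h4
  linarith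

theorem PP.growth [Fintype E] {Γ : Gr V E} {M : E → G} {B : E × Bool → G} (h : PP Γ M B) :
    ∃ ε : ℝ, 0 < ε ∧ ∃ C : ℝ, ∀ u p v, Γ.IsPath u p v → Red p →
      ε * (p.length : ℝ) - C ≤ len (lab M p) := by
  classical
  have h' : ∀ x : (E × Bool) × (E × Bool), ∃ N, PosM N ∧
      (Γ.st x.2 = Γ.en x.1 → x.2 ≠ rev x.1 → PM ((B x.1)⁻¹ * dlab M x.1 * B x.2) N) := by
    intro x
    by_cases hx : Γ.st x.2 = Γ.en x.1 ∧ x.2 ≠ rev x.1
    · obtain ⟨N, h1, h2⟩ := h x.1 x.2 hx.1 hx.2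
      exact ⟨N, h1, fun _ _ => h2⟩
    · refine ⟨⟨!![2, 1; 1, 1], by rw [Matrix.det_fin_two_of]; norm_num⟩, ?_,
        fun a b => absurd ⟨a, b⟩ hx⟩
      apply pos_of_entries <;> simp
  choose N hN hPM using h'
  obtain ⟨η, hη, hb⟩ := pos_exists_lb (fun x => N x 0 1 * N x 1 0)
    (fun x => mul_pos (hN x 0 1) (hN x 1 0))
  have key := fun d' p => pos_prod (Γ := Γ) (M := M) (B := B) η hη.le
    (fun d d' h1 h2 => ⟨N (d, d'), hN _, hPM (d, d') h1 h2, hb (d, d')⟩) d' p
  obtain ⟨K, hK⟩ := Finite.exists_le (fun d : E × Bool => max (len (B d)) (len (dlab M d)))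
  have hK1 : ∀ d, len (B d) ≤ K := fun d => (le_max_left _ _).trans (hK d)
  have hK2 : ∀ d, len (dlab M d) ≤ K := fun d => (le_max_right _ _).trans (hK d)
  have hε : 0 < Real.log (1 + η) := Real.log_pos (by linarith)
  refine ⟨Real.log (1 + η), hε, Real.log (1 + η) + 3 * |K|, ?_⟩
  intro u p v hp hr
  have hK0 := abs_nonneg K
  have hKK := le_abs_self K
  have hl := len_nonneg (lab M p)
  rcases p with _ | ⟨d, q⟩
  · simp only [List.length_nil, Nat.cast_zero, mul_zero]
    linarith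
  rcases List.eq_nil_or_concat q with rfl | ⟨q', d', rfl⟩
  · simp only [List.length_cons, List.length_nil, zero_add, Nat.cast_one, mul_one]
    linarith
  rw [List.concat_eq_append] at hp hr hl ⊢
  rw [← List.cons_append] at hp
  obtain ⟨w, hp1, hp2⟩ := Γ.isPath_append_iff.mp hp
  have hw : Γ.st d' = w := hp2.1
  subst hw
  obtain ⟨Q, -, hQb, hQP⟩ := key d' q' d u hp1 hr
  have h1 := pos_log_le Q η hη.le _ hQb
  have h2 : (B d)⁻¹ * lab M (d :: q') * B d' =
      (B d)⁻¹ * lab M (d :: (q' ++ [d'])) * ((dlab M d')⁻¹ * B d') := by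
    rw [← List.cons_append, lab_append, lab_cons M d', lab_nil]
    group
  have h3 : len Q ≤ K + len (lab M (d :: (q' ++ [d']))) + (K + K) := by
    rw [← hQP.len_eq, h2]
    refine (len_mul_le _ _).trans (add_le_add ((len_mul_le _ _).trans (add_le_add ?_ le_rfl))
      ((len_mul_le _ _).trans (add_le_add ?_ (hK1 d'))))
    · rw [len_inv]; exact hK1 d
    · rw [len_inv]; exact hK2 d'
  simp only [List.length_cons, List.length_append, List.length_nil] at h1 ⊢
  push_cast at h1 ⊢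
  linarith

theorem PP.hyp {Γ : Gr V E} {M : E → G} {B : E × Bool → G} (h : PP Γ M B) {u : V}
    {d : E × Bool} {p : List (E × Bool)} (hp : Γ.IsPath u (d :: p) u) (hr : Red (d :: p ++ [d])) :
    Hyp (lab M (d :: p)) := by
  have hu : Γ.st d = u := hp.1
  subst hu
  obtain ⟨Q, hQ, -, hQP⟩ := pos_prod (Γ := Γ) (M := M) (B := B) 0 le_rfl
    (fun d d' h1 h2 => by
      obtain ⟨N, a, b⟩ := h d d' h1 h2
      exact ⟨N, a, b, (mul_pos (a 0 1) (a 1 0)).le⟩) d p d _ hp hr
  have h1 := hQP.abs_tr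
  have h2 := tr_conj (lab M (d :: p)) (B d)⁻¹
  rw [inv_inv] at h2
  rw [h2] at h1
  unfold Hyp
  rw [h1]
  have hd := pos_det Q
  have a0 := hQ 0 0
  have a1 := hQ 1 1
  have a2 := mul_pos (hQ 0 1) (hQ 1 0)
  have : 2 < tr Q := by
    unfold tr
    by_contra hc
    push Not at hc
    nlinarith [sq_nonneg (Q 0 0 - Q 1 1)]
  exact this.trans_le (le_abs_self _)

theorem pos_exists_red {H : Type} [Group H] (Γ : Gr V E) (g : E → H) (v : V) (p : List (E × Bool)) :
    ∀ u, Γ.IsPath u p v → ∃ q, Γ.IsPath u q v ∧ Red q ∧ lab g q = lab g p := by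
  induction p with
  | nil => exact fun u hp => ⟨[], hp, List.isChain_nil, rfl⟩
  | cons d p ih =>
    intro u hp
    obtain ⟨q, hq, hr, hl⟩ := ih _ hp.2
    rcases q with _ | ⟨e, q⟩
    · exact ⟨[d], ⟨hp.1, hq⟩, List.isChain_singleton d, by rw [lab_cons, lab_cons, hl]⟩
    · by_cases he : e = rev d
      · subst he
        refine ⟨q, ?_, (List.isChain_cons.mp hr).2, ?_⟩
        · have := hq.2
          rw [Gr.en_rev, hp.1] at this
          exact this
        · rw [lab_cons, ← hl, lab_cons, dlab_rev, mul_inv_cancel_left]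
      · exact ⟨d :: e :: q, ⟨hp.1, hq⟩, List.isChain_cons_cons.mpr ⟨he, hr⟩,
          by rw [lab_cons g d, lab_cons g d, hl]⟩

theorem pos_norm_le {n : ℕ} (g : E → F n) (L : ℕ) (hL : ∀ e, FreeGroup.norm (g e) ≤ L)
    (p : List (E × Bool)) : FreeGroup.norm (lab g p) ≤ L * p.length := by
  induction p with
  | nil => simp
  | cons d p ih =>
    rw [lab_cons, List.length_cons, mul_add, mul_one]
    have h1 := FreeGroup.norm_mul_le (dlab g d) (lab g p)
    have h2 : FreeGroup.norm (dlab g d) ≤ L := by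
      obtain ⟨e, b⟩ := d
      cases b
      · simpa [dlab] using hL e
      · simpa [dlab] using hL e
    omega

theorem qi_of_PP {n : ℕ} [Fintype V] [Fintype E] {ρ : F n →* G} {Γ : Gr V E} {M : E → G}
    (hM : Good ρ Γ M) {B : E × Bool → G} (h : PP Γ M B) : QI ρ := by
  obtain ⟨g, hh, hg, hρ⟩ := hM
  obtain ⟨ε, hε, C, hC⟩ := h.growth
  obtain ⟨v₀⟩ := hg.ne
  obtain ⟨L, hL⟩ := Finite.exists_le (fun e => FreeGroup.norm (g e))
  have hL' : ∀ e, FreeGroup.norm (g e) ≤ L + 1 := fun e => (hL e).trans (Nat.le_succ L)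
  have hp : (0 : ℝ) < (L : ℝ) + 1 := by positivity
  refine ⟨ε / ((L : ℝ) + 1), by positivity, C + 2 * len (hh v₀), fun γ => ?_⟩
  obtain ⟨p, hp1, hp2⟩ := hg.gen v₀ v₀ γ
  obtain ⟨q, hq, hr, hl⟩ := pos_exists_red Γ g v₀ p v₀ hp1
  rw [hp2] at hl
  have h1 := hC v₀ q v₀ hq hr
  have h2 := Γ.lab_gauge ρ g M hh hρ hq
  rw [hl] at h2
  have h3 : lab M q = (hh v₀)⁻¹ * ρ γ * hh v₀ := by rw [h2]; group
  have h4 : len (lab M q) ≤ len (hh v₀) + len (ρ γ) + len (hh v₀) := by
    rw [h3]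
    refine (len_mul_le _ _).trans (add_le_add ((len_mul_le _ _).trans ?_) le_rfl)
    rw [len_inv]
  have h5 := pos_norm_le g (L + 1) hL' q
  rw [hl] at h5
  have h6 : (FreeGroup.norm γ : ℝ) ≤ ((L : ℝ) + 1) * q.length := by exact_mod_cast h5
  have h7 : ε / ((L : ℝ) + 1) * (FreeGroup.norm γ : ℝ) ≤ ε * q.length := by
    rw [div_mul_eq_mul_div, div_le_iff₀ hp]
    nlinarith [mul_le_mul_of_nonneg_left h6 hε.le]
  linarith

/-- the Schottky generators. -/
noncomputable def pos_X (a b : ℝ) : G :=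
  ⟨!![4 * a, -(4 * a * b) - 1 / 4; 4, -(4 * b)], by rw [Matrix.det_fin_two_of]; ring⟩

/-- the Schottky frames. -/
noncomputable def pos_B (a : ℝ) : G :=
  ⟨!![1 / 2 + a, -(1 / 2) + a; 1, 1], by rw [Matrix.det_fin_two_of]; ring⟩

theorem pos_X_inv (a b : ℝ) : (pos_X a b)⁻¹ = -pos_X b a := by
  ext i j
  fin_cases i <;> fin_cases j
  · show (pos_X a b)⁻¹ 0 0 = (-pos_X b a) 0 0
    rw [pos_inv00, pos_neg_apply]; simp [pos_X]
  · show (pos_X a b)⁻¹ 0 1 = (-pos_X b a) 0 1
    rw [pos_inv01, pos_neg_apply]; simp [pos_X]; ring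
  · show (pos_X a b)⁻¹ 1 0 = (-pos_X b a) 1 0
    rw [pos_inv10, pos_neg_apply]; simp [pos_X]
  · show (pos_X a b)⁻¹ 1 1 = (-pos_X b a) 1 1
    rw [pos_inv11, pos_neg_apply]; simp [pos_X]

theorem pos_XB (a b c : ℝ) (h : c + 1 ≤ b ∨ b + 1 ≤ c) :
    ∃ N, PosM N ∧ PM ((pos_B a)⁻¹ * pos_X a b * pos_B c) N := by
  set N := (pos_B a)⁻¹ * pos_X a b * pos_B c with hN
  have n00 : N 0 0 = 2 * (c - b) + 3 / 4 := by
    rw [hN, mul_assoc, pos_mul_apply, pos_mul_apply, pos_mul_apply, pos_inv00, pos_inv01]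
    simp [pos_X, pos_B]; ring
  have n01 : N 0 1 = 2 * (c - b) - 5 / 4 := by
    rw [hN, mul_assoc, pos_mul_apply, pos_mul_apply, pos_mul_apply, pos_inv00, pos_inv01]
    simp [pos_X, pos_B]; ring
  have n10 : N 1 0 = 2 * (c - b) + 5 / 4 := by
    rw [hN, mul_assoc, pos_mul_apply, pos_mul_apply, pos_mul_apply, pos_inv10, pos_inv11]
    simp [pos_X, pos_B]; ring
  have n11 : N 1 1 = 2 * (c - b) - 3 / 4 := by
    rw [hN, mul_assoc, pos_mul_apply, pos_mul_apply, pos_mul_apply, pos_inv10, pos_inv11]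
    simp [pos_X, pos_B]; ring
  rcases h with h | h
  · refine pos_of_sign N (-1) (by norm_num) ?_ ?_ ?_ ?_ <;> linarith
  · refine pos_of_sign N 1 (by norm_num) ?_ ?_ ?_ ?_ <;> linarith

/-- the centres. -/
def pos_c {n : ℕ} (d : Fin n × Bool) : ℕ := 2 * d.1.val + cond d.2 0 1

theorem pos_c_inj {n : ℕ} {d d' : Fin n × Bool} (h : pos_c d = pos_c d') : d = d' := by
  obtain ⟨j, b⟩ := d
  obtain ⟨j', b'⟩ := d'
  cases b <;> cases b' <;> simp only [pos_c, cond_true, cond_false] at h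
  · rw [Fin.ext (by omega : j.val = j'.val)]
  · omega
  · omega
  · rw [Fin.ext (by omega : j.val = j'.val)]

theorem pos_rose_path {n : ℕ} (p : List (Fin n × Bool)) :
    (⟨fun _ => (), fun _ => ()⟩ : Gr Unit (Fin n)).IsPath () p () := by
  induction p with
  | nil => rfl
  | cons d p ih => exact ⟨rfl, ih⟩

theorem exists_schottky (n : ℕ) :
    ∃ x : Fin n → G, ∀ γ : F n, γ ≠ 1 → Hyp (FreeGroup.lift x γ) := by
  set x : Fin n → G := fun j => pos_X (pos_c (j, true)) (pos_c (j, false)) with hx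
  have hd : ∀ d, PM (dlab x d) (pos_X (pos_c d) (pos_c (rev d))) := by
    rintro ⟨j, b⟩
    cases b
    · right
      simp only [dlab, cond_false, hx, rev, Bool.not_false]
      exact pos_X_inv _ _
    · left
      simp only [dlab, cond_true, hx, rev, Bool.not_true]
  have hPP : PP (⟨fun _ => (), fun _ => ()⟩ : Gr Unit (Fin n)) x (fun d => pos_B (pos_c d)) := by
    intro d d' _ hne
    have h1 : pos_c d' ≠ pos_c (rev d) := fun e => hne (pos_c_inj e)
    have h2 : (pos_c d' : ℝ) + 1 ≤ pos_c (rev d) ∨ (pos_c (rev d) : ℝ) + 1 ≤ pos_c d' := by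
      rcases lt_or_gt_of_ne h1 with h | h
      · left; exact_mod_cast h
      · right; exact_mod_cast h
    obtain ⟨N, hN, hP⟩ := pos_XB (pos_c d) (pos_c (rev d)) (pos_c d') h2
    exact ⟨N, hN, (((PM.refl _).mul (hd d)).mul (PM.refl _)).trans hP⟩
  refine ⟨x, fun γ hγ => ?_⟩
  have hc := FreeGroup.reduceCyclically.isCyclicallyReduced (FreeGroup.isReduced_toWord (x := γ))
  have he := FreeGroup.reduceCyclically.conj_conjugator_reduceCyclically γ.toWord
  set a := FreeGroup.reduceCyclically.conjugator γ.toWord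
  set w := FreeGroup.reduceCyclically γ.toWord
  have hγ' : γ = FreeGroup.mk a * FreeGroup.mk w * (FreeGroup.mk a)⁻¹ := by
    rw [FreeGroup.inv_mk, FreeGroup.mul_mk, FreeGroup.mul_mk, he, FreeGroup.mk_toWord]
  clear_value a w
  rcases w with _ | ⟨d, p⟩
  · exfalso
    apply hγ
    rw [hγ', ← FreeGroup.one_eq_mk]
    group
  have hrel : ∀ s t : Fin n × Bool, (s.1 = t.1 → s.2 = t.2) → t ≠ rev s := by
    intro s t hst e
    subst e
    have := hst rfl
    simp [rev] at this
  have hr : Red (d :: p ++ [d]) := by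
    refine List.isChain_append.mpr ⟨List.IsChain.imp hrel hc.1, List.isChain_singleton d, ?_⟩
    intro s hs t ht
    exact hrel s t (hc.2 s hs t (by simpa using ht))
  have hh := hPP.hyp (pos_rose_path (d :: p)) hr
  unfold Hyp at hh ⊢
  rw [hγ', map_mul, map_mul, map_inv, tr_conj]
  exact hh

end Pool.Agent.MP_28624d_gt

end

-- part MP_28624d_gt.Main
section

/-!
Assembly: for odd rank, hyperbolicity on proper free factors forces a Schottky representation.
-/

namespace Pool.Agent.MP_28624d_gt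

open scoped UpperHalfPlane
open Filter Topology UpperHalfPlane Set

theorem tendsto_pre {α : Type} (L : Filter α) (f' : α → ℕ → ℝ ≃o ℝ) (f : ℕ → ℝ ≃o ℝ)
    (h : ∀ (i : ℕ) (x : α → ℝ) (x₀ : ℝ), Tendsto x L (𝓝 x₀) →
      Tendsto (fun a => f' a i (x a)) L (𝓝 (f i x₀))) (k : ℕ) :
    ∀ (x : α → ℝ) (x₀ : ℝ), Tendsto x L (𝓝 x₀) →
      Tendsto (fun a => pre (f' a) k (x a)) L (𝓝 (pre f k x₀)) := by
  induction k with
  | zero => intro x x₀ hx; simpa using hx
  | succ k ih =>
    intro x x₀ hx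
    simp only [pre_succ, RelIso.mul_apply]
    exact ih _ _ (h k x x₀ hx)

theorem tendsto_of_close {α : Type} {L : Filter α} {x y : α → ℝ} {x₀ : ℝ}
    (hx : Tendsto x L (𝓝 x₀)) (h : ∀ ε : ℝ, 0 < ε → ∀ᶠ a in L, |y a - x a| < ε) :
    Tendsto y L (𝓝 x₀) := by
  have h0 : Tendsto (fun a => y a - x a) L (𝓝 0) := by
    rw [Metric.tendsto_nhds]
    intro ε hε
    filter_upwards [h ε hε] with a ha
    simpa [Real.dist_eq] using ha
  simpa using h0.add hx

variable {n : ℕ} {ρ : F n →* G} {V E : Type} [Fintype V] [Fintype E]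

theorem face_of_rotation (hodd : Odd n) [DecidableEq E] {Γ : Gr V E} {g : E → F n}
    (hg : Marked n Γ g) (σ : Equiv.Perm (E × Bool))
    (hσ : ∀ d d', σ.SameCycle d d' ↔ Γ.st d = Γ.st d') (hfix : ∀ d, σ d ≠ d) (d₀ : E × Bool) :
    Face Γ (fun i => ((σ * revP E) ^ i) d₀) (Function.minimalPeriod (σ * revP E) d₀) := by
  have hper : d₀ ∈ Function.periodicPts (σ * revP E) :=
    (σ * revP E).injective.mem_periodicPts d₀
  have hsucc : ∀ i, ((σ * revP E) ^ (i + 1)) d₀ = σ (rev (((σ * revP E) ^ i) d₀)) := by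
    intro i; rw [pow_succ']; rfl
  refine ⟨Function.minimalPeriod_pos_of_mem_periodicPts hper, fun i => ?_, fun i j hij => ?_,
    fun i => ?_, fun i => ?_, exists_once_dart hodd hg σ hσ hfix d₀⟩
  · have := Function.iterate_add_minimalPeriod_eq (f := (σ * revP E)) (x := d₀) (n := i)
    simpa only [Equiv.Perm.iterate_eq_pow] using this
  · have hp := Function.minimalPeriod_pos_of_mem_periodicPts hper
    have h1 := Function.iterate_mod_minimalPeriod_eq (f := (σ * revP E)) (x := d₀) (n := i)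
    have h2 := Function.iterate_mod_minimalPeriod_eq (f := (σ * revP E)) (x := d₀) (n := j)
    refine Function.iterate_injOn_Iio_minimalPeriod (f := (σ * revP E)) (x := d₀)
      (Nat.mod_lt _ hp) (Nat.mod_lt _ hp) ?_
    simp only [h1, h2]
    simpa only [Equiv.Perm.iterate_eq_pow] using hij
  · rw [hsucc, ← Gr.st_rev]
    exact (hσ _ _).1 (Equiv.Perm.SameCycle.rfl.apply_right)
  · rw [hsucc]; exact hfix _

/-- The lift attached to a dart by the directions at its two ends. -/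
noncomputable def mlift (M : E → G) (θ : E × Bool → ℝ) (d : E × Bool) : ℝ ≃o ℝ :=
  T (θ d) * dl (len (M d.1)) * T (-(1 / 2) - θ (rev d))

omit [Fintype E] in
theorem lift_mlift (M : E → G) (θ : E × Bool → ℝ)
    (hθ : ∀ d, PM (dlab M d) (rot (θ d) * dia (len (M d.1)) * rot (-(1 / 2) - θ (rev d))))
    (d : E × Bool) : Lift (dlab M d) (mlift M θ d) :=
  (((lift_rot _).mul (lift_dl _)).mul (lift_rot _)).pm (hθ d).symm

omit [Fintype E] in
theorem mlift_rev (M : E → G) (θ : E × Bool → ℝ) (d : E × Bool) (x : ℝ) :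
    mlift M θ d (mlift M θ (rev d) x) = x - 1 := by
  have h1 : ∀ y, dl (len (M d.1)) (y - 1 / 2) + 1 / 2 = (dl (len (M d.1)))⁻¹ y := by
    intro y
    have := congrArg (fun f : ℝ ≃o ℝ => f y) (T_dl_T (len (M d.1)))
    simpa [RelIso.mul_apply, sub_eq_add_neg] using this
  simp only [mlift, RelIso.mul_apply, T_apply, rev_rev, rev_fst]
  have e1 : dl (len (M d.1)) (x + (-(1 / 2) - θ d)) + θ (rev d) + (-(1 / 2) - θ (rev d)) =
      (dl (len (M d.1)))⁻¹ (x - θ d) + ((-1 : ℤ) : ℝ) := by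
    rw [← h1, show x + (-(1 / 2) - θ d) = x - θ d - 1 / 2 by ring]
    push_cast; ring
  rw [e1, (lift_dl _).add_int, RelIso.apply_inv_self]
  push_cast; ring

theorem face_fixed (h3 : 3 ≤ n) (hD : HD ρ) {Γ : Gr V E} {M : E → G} (hM : M ∈ Cl ρ Γ)
    (hmin : ∀ a r, Ach ρ a r → tot M ≤ r) (hpos : ∀ e, 0 < len (M e)) {δ : ℕ → E × Bool} {P : ℕ}
    (hδ : Face Γ δ P) (θ : E × Bool → ℝ)
    (hθ : ∀ d, PM (dlab M d) (rot (θ d) * dia (len (M d.1)) * rot (-(1 / 2) - θ (rev d))))
    (w : ℕ → ℤ) (hw : ∀ i, w (i + P) = w i)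
    (hα : ∀ i, 0 ≤ θ (δ (i + 1)) + w i - θ (rev (δ i)) ∧ θ (δ (i + 1)) + w i - θ (rev (δ i)) ≤ 1) :
    ∃ y, pre (fun i => mlift M θ (δ i) * T (w i)) P y = y := by
  set l : ℕ → ℝ := fun i => len (M (δ i).1) with hl
  set β : ℕ → ℝ := fun i => θ (δ (i + 1)) + w i - θ (rev (δ i)) - 1 / 2 with hβ
  have hrel : ∀ i, PM (pre (fun r => dia (l r) * rot (β r)) i)
      (rot (-θ (δ 0)) * pre (fun r => dlab M (δ r)) i * rot (θ (δ i))) := by
    intro i
    induction i with
    | zero =>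
      simp only [pre_zero, mul_one]
      rw [← rot_add, neg_add_cancel, rot_zero]; exact PM.refl _
    | succ i ih =>
      rw [pre_succ, pre_succ]
      have h1 : PM (rot (β i)) (rot (-(1 / 2) - θ (rev (δ i))) * rot (θ (δ (i + 1)))) := by
        rw [← rot_add, show β i = (-(1 / 2) - θ (rev (δ i)) + θ (δ (i + 1))) + (w i : ℝ) by
          simp only [hβ]; ring]
        exact rot_add_int _ _
      have h2 := ih.mul ((PM.refl (dia (l i))).mul h1)
      have h3 := ((PM.refl (rot (-θ (δ 0)) * pre (fun r => dlab M (δ r)) i)).mul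
        (hθ (δ i)).symm).mul (PM.refl (rot (θ (δ (i + 1)))))
      refine h2.trans ?_
      simpa only [mul_assoc, hl] using h3
  have hlrel : ∀ i, pre (fun i => mlift M θ (δ i) * T (w i)) i =
      T (θ (δ 0)) * pre (fun r => dl (l r) * T (β r)) i * T (-θ (δ i)) := by
    intro i
    induction i with
    | zero =>
      simp only [pre_zero, mul_one]
      rw [← T_add, add_neg_cancel, T_zero]
    | succ i ih =>
      rw [pre_succ, pre_succ, ih]
      ext x
      simp only [mlift, RelIso.mul_apply, T_apply, hl, hβ]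
      congr 2
      rw [add_neg_cancel_right]
      congr 1
      ring
  have hP0 : δ P = δ 0 := by simpa using hδ.per 0
  obtain ⟨e, he⟩ := hδ.exists_once
  have hpath : Γ.IsPath (Γ.st (δ 0)) ((List.range' 0 P).map δ) (Γ.st (δ 0)) := by
    simpa only [zero_add, hP0] using hδ.isPath 0 P
  have htr : 2 ≤ |tr (lab M ((List.range' 0 P).map δ))| := by
    have hc : IsClosed {M' : E → G | 2 ≤ |tr (lab M' ((List.range' 0 P).map δ))|} :=
      isClosed_le continuous_const ((continuous_tr.comp (continuous_lab _)).abs)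
    exact closure_minimal (fun M' hM' => (good_prim h3 hD hM' hpath he).le) hc hM
  obtain ⟨y, hy⟩ := hopf P hδ.pos l β (fun i => by simp only [hl, hδ.per])
    (fun i => by
      simp only [hβ, hw, hδ.per]
      rw [show i + P + 1 = i + 1 + P by ring, hδ.per])
    (fun i => hpos _)
    (fun i => by
      have := hα i
      rw [abs_le]; simp only [hβ]; constructor <;> linarith [this.1, this.2])
    (fun i j a b ha hb h1 h2 hne => by
      refine window h3 hD hM hmin hpos hδ θ hθ i j a b ha hb h1 h2 ?_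
      rw [((hrel i).mul (PM.refl _)).smul_eq, ((hrel j).mul (PM.refl _)).smul_eq] at hne
      simp only [mul_assoc, mul_smul] at hne ⊢
      exact MulAction.injective _ hne)
    (by
      rw [(hrel P).abs_tr, hP0, ← inv_inv (rot (θ (δ 0))), ← rot_neg, tr_conj]
      simpa [lab_range'] using htr)
  refine ⟨y + θ (δ 0), ?_⟩
  rw [hlrel, hP0]
  simp only [RelIso.mul_apply, T_apply, add_neg_cancel_right, hy]

theorem qi_of_hd {n : ℕ} (h3 : 3 ≤ n) (hodd : Odd n) {ρ : F n →* G} (hD : HD ρ) : QI ρ := by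
  classical
  obtain ⟨a, r, ⟨V, E, _, _, Γ, M, hM, hV, hr⟩, hmin, hmina⟩ := exists_min (by omega) ρ
  obtain ⟨g, hg⟩ := Cl.marked hM
  subst hV hr
  have hnc : ∀ d, Γ.st d ≠ Γ.en d → ¬ (Γ.deg (Γ.st d) ≤ 2 ∨ len (M d.1) = 0) := by
    intro d hd h
    obtain ⟨a', r', ha', hr', hach⟩ := ach_contract hM d hd h
    have : r' = tot M := le_antisymm hr' (hmin _ _ hach)
    subst this
    have := hmina _ hach
    omega
  have hpos : ∀ e, 0 < len (M e) := by
    intro e
    by_cases he : Γ.src e = Γ.tgt e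
    · exact cl_loop_pos h3 hD hM he
    · exact lt_of_le_of_ne (len_nonneg _) fun h => hnc (e, true) he (Or.inr h.symm)
  obtain ⟨θ, hθ0, hθ⟩ := exists_dir M
  obtain ⟨σ, ω, hσ, hα, hω⟩ := exists_rotation Γ.st θ hθ0
  have hfix : ∀ d, σ d ≠ d := by
    intro d hd
    have hall : ∀ d', Γ.st d' = Γ.st d → d' = d := by
      intro d' h
      exact (((hσ d d').2 h.symm).eq_of_left hd).symm
    refine hnc d (fun h => rev_ne d (hall _ (by simp [h]))) (Or.inl ?_)
    have : Subsingleton {d' : E × Bool // Γ.st d' = Γ.st d} :=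
      ⟨fun x y => Subtype.ext ((hall _ x.2).trans (hall _ y.2).symm)⟩
    exact (Finite.card_le_one_iff_subsingleton.2 this).trans (by norm_num)
  set φ : Equiv.Perm (E × Bool) := σ * revP E with hφ
  have hface : ∀ d₀, Face Γ (fun i => (φ ^ i) d₀) (Function.minimalPeriod φ d₀) :=
    face_of_rotation hodd hg σ hσ hfix
  have hsucc : ∀ d₀ i, (φ ^ (i + 1)) d₀ = σ (rev ((φ ^ i) d₀)) := by
    intro d₀ i; rw [pow_succ']; rfl
  have hfp : ∀ d₀, ∃ y, pre (fun i => mlift M θ ((φ ^ i) d₀) * T (ω (rev ((φ ^ i) d₀))))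
      (Function.minimalPeriod φ d₀) y = y := fun d₀ =>
    face_fixed h3 hD hM hmin hpos (hface d₀) θ hθ (fun i => ω (rev ((φ ^ i) d₀)))
      (fun i => congrArg (fun d => ω (rev d)) ((hface d₀).per i))
      (fun i => by simp only [hsucc]; exact hα _)
  obtain ⟨nl, hnl⟩ := exists_nl
  set m' : (E → G) → E × Bool → ℝ ≃o ℝ := fun M' d =>
    cond d.2 (nl (M' d.1 * (M d.1)⁻¹) * mlift M θ d) (mlift M θ d * (nl (M' d.1 * (M d.1)⁻¹))⁻¹)
    with hm'
  set L : Filter (E → G) := 𝓝[{M' | Good ρ Γ M'}] M with hL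
  have hLne : L.NeBot := mem_closure_iff_nhdsWithin_neBot.1 hM
  have hN : ∀ e, Tendsto (fun M' : E → G => M' e * (M e)⁻¹) L (𝓝 1) := by
    intro e
    have : Continuous fun M' : E → G => M' e * (M e)⁻¹ := (continuous_apply e).mul continuous_const
    simpa using (this.tendsto M).mono_left nhdsWithin_le_nhds
  have hconv : ∀ (d : E × Bool) (x : (E → G) → ℝ) (x₀ : ℝ), Tendsto x L (𝓝 x₀) →
      Tendsto (fun M' => m' M' d (x M')) L (𝓝 (mlift M θ d x₀)) := by
    rintro ⟨e, b⟩ x x₀ hx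
    cases b
    · simp only [hm', cond_false, RelIso.mul_apply]
      refine ((mlift M θ (e, false)).continuous.tendsto _).comp (tendsto_of_close hx ?_)
      intro ε hε
      filter_upwards [(hN e).eventually (hnl ε hε)] with M' hM'
      have := hM'.2 ((nl (M' e * (M e)⁻¹))⁻¹ (x M'))
      rwa [RelIso.apply_inv_self, abs_sub_comm] at this
    · simp only [hm', cond_true, RelIso.mul_apply]
      refine tendsto_of_close (((mlift M θ (e, true)).continuous.tendsto _).comp hx) ?_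
      intro ε hε
      filter_upwards [(hN e).eventually (hnl ε hε)] with M' hM'
      exact hM'.2 _
  have hev : ∀ d₀, ∀ᶠ M' in L,
      |pre (fun i => m' M' ((φ ^ i) d₀) * T (ω (rev ((φ ^ i) d₀)))) (Function.minimalPeriod φ d₀)
        (pre (fun i => m' M' ((φ ^ i) d₀) * T (ω (rev ((φ ^ i) d₀))))
          (Function.minimalPeriod φ d₀) 0) - 0| < 1 := by
    intro d₀
    have hc := tendsto_pre L (fun M' i => m' M' ((φ ^ i) d₀) * T (ω (rev ((φ ^ i) d₀))))
      (fun i => mlift M θ ((φ ^ i) d₀) * T (ω (rev ((φ ^ i) d₀))))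
      (fun i x x₀ hx => by
        simp only [RelIso.mul_apply, T_apply]
        exact hconv _ _ _ (hx.add_const _)) (Function.minimalPeriod φ d₀)
    have h2 := hc _ _ (hc (fun _ => 0) 0 tendsto_const_nhds)
    obtain ⟨y, hy⟩ := hfp d₀
    have hl := lift_pre (s := fun i => dlab M ((φ ^ i) d₀) * 1)
      (f := fun i => mlift M θ ((φ ^ i) d₀) * T (ω (rev ((φ ^ i) d₀))))
      (fun i => (lift_mlift M θ hθ _).mul (lift_T_int _)) (Function.minimalPeriod φ d₀)
    have hlt := abs_lt_of_fixed (hl.mul hl).1 (y := y) (by rw [RelIso.mul_apply, hy, hy]) 0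
    rw [RelIso.mul_apply] at hlt
    exact ((h2.sub_const 0).abs).eventually (gt_mem_nhds hlt)
  have hgood : ∀ᶠ M' in L, Good ρ Γ M' := self_mem_nhdsWithin
  have hlifts : ∀ᶠ M' in L, ∀ e, Lift (M' e * (M e)⁻¹) (nl (M' e * (M e)⁻¹)) :=
    eventually_all.2 fun e => ((hN e).eventually (hnl 1 one_pos)).mono fun _ h => h.1
  obtain ⟨M', hM', hl', hev'⟩ := (hgood.and (hlifts.and (eventually_all.2 hev))).exists
  have hm : ∀ d, Lift (dlab M' d) (m' M' d) := by
    rintro ⟨e, b⟩
    cases b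
    · have := (lift_mlift M θ hθ (e, false)).mul (hl' e).inv
      simpa [hm', dlab] using this
    · have := (hl' e).mul (lift_mlift M θ hθ (e, true))
      simpa [hm', dlab] using this
  have hmι : ∀ d x, m' M' d (m' M' (rev d) x) = x - 1 := by
    rintro ⟨e, b⟩ x
    cases b
    · have := mlift_rev M θ (e, false) x
      simpa [hm', rev] using this
    · have h1 := mlift_rev M θ (e, true) ((nl (M' e * (M e)⁻¹))⁻¹ x)
      have h2 := (hl' e).add_int ((nl (M' e * (M e)⁻¹))⁻¹ x) (-1)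
      simp only [hm', rev, cond_true, Bool.not_true, cond_false, RelIso.mul_apply] at h1 ⊢
      rw [h1, sub_eq_add_neg]
      simpa [sub_eq_add_neg] using h2
  obtain ⟨Z, hZ⟩ := chain φ (fun d => m' M' d * T (ω (rev d))) fun d₀ => by
    have hl := lift_pre (s := fun i => dlab M' ((φ ^ i) d₀))
      (f := fun i => m' M' ((φ ^ i) d₀) * T (ω (rev ((φ ^ i) d₀))))
      (fun i => by simpa using (hm _).mul (lift_T_int (ω (rev ((φ ^ i) d₀)))))
      (Function.minimalPeriod φ d₀)
    refine hl.exists_lt ?_ (hev' d₀)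
    obtain ⟨e, he⟩ := (hface d₀).exists_once
    have hP0 := (hface d₀).per 0
    have hpath := (hface d₀).isPath 0 (Function.minimalPeriod φ d₀)
    rw [hP0] at hpath
    simpa [lab_range'] using good_prim h3 hD hM' hpath he
  obtain ⟨μ, hμ, harc⟩ := arcs Γ.st σ hσ hfix ω hω rev rev_rev (m' M') (fun d => (hm d).1) hmι Z
    (fun d => by simpa [hφ] using hZ d)
  obtain ⟨B, hB⟩ := exists_frames Γ M' (m' M') hm Z μ hμ
    (fun d d' h1 h2 => harc d d' (by simpa using h1) h2)
  exact qi_of_PP hM' hB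

end Pool.Agent.MP_28624d_gt

end
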